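import Pool.Agent.Q166.ISat_FR5

/-!
# Project ISat (helper109): the exceptional hypergraph H5, limit construction
-/

set_option autoImplicit false

namespace Pool.Agent.Q166.ISat

open Q109.ISat

theorem sorted3 (T : Finset ℤ) (h : T.card = 3) :
    ∃ x y z : ℤ, x < y ∧ y < z ∧ T = {x, y, z} := by
  rw [Finset.card_eq_three] at h
  obtain ⟨x, y, z, h1, h2, h3, rfl⟩ := h
  rcases lt_or_gt_of_ne h1 with a | a <;> rcases lt_or_gt_of_ne h2 with b | b <;>
    rcases lt_or_gt_of_ne h3 with c | c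
  · exact ⟨x, y, z, a, c, rfl⟩
  · exact ⟨x, z, y, b, c, by rw [sw23]⟩
  · exfalso; omega
  · exact ⟨z, x, y, b, a, by rw [← rot]⟩
  · exact ⟨y, x, z, a, b, by rw [sw12]⟩
  · exfalso; omega
  · exact ⟨y, z, x, c, b, rot x y z⟩
  · exact ⟨z, y, x, c, a, by rw [sw12, rot, rot, sw23, sw12, sw23]⟩

/-- a stage of the construction -/
structure Stage where
  p : ℤ
  q : ℤ
  E : Set (Finset ℤ)
  ok : OK p q E
  le : p ≤ q

/-- the relation between a stage and the next one -/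
def Nx (t : ℤ × ℤ × ℤ) (s s' : Stage) : Prop :=
  s'.p ≤ s.p - 1 ∧ s.q + 1 ≤ s'.q ∧
  (∀ f : Finset ℤ, f.card = 3 → (∀ x ∈ f, s.p ≤ x ∧ x ≤ s.q) → (f ∈ s'.E ↔ f ∈ s.E)) ∧
  (s.p ≤ t.1 → t.1 < t.2.1 → t.2.1 < t.2.2 → t.2.2 ≤ s.q → ∃ φ : Fin 5 ↪ ℤ,
    (∀ i, φ i = t.1 ∨ φ i = t.2.1 ∨ φ i = t.2.2 ∨
      ((φ i < s.p ∨ s.q < φ i) ∧ s'.p ≤ φ i ∧ φ i ≤ s'.q)) ∧
    ∀ f : Finset (Fin 5), f.card = 3 →
      (f ∈ H5 ↔ f.map φ ∈ symmDiff s'.E {{t.1, t.2.1, t.2.2}}))

theorem exists_next (hMX : S_MX) (hMN : S_MN) (hSTP : S_STP) (t : ℤ × ℤ × ℤ) (s : Stage) :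
    ∃ s', Nx t s s' := by
  by_cases h : s.p ≤ t.1 ∧ t.1 < t.2.1 ∧ t.2.1 < t.2.2 ∧ t.2.2 ≤ s.q
  · obtain ⟨p', q', E', h1, h2, h3, h4, h5⟩ := hSTP s.p s.q s.E s.ok _ _ _ h.1 h.2.1 h.2.2.1 h.2.2.2
    have := s.le
    exact ⟨⟨p', q', E', h3, by omega⟩, h1, h2, h4, fun _ _ _ _ => h5⟩
  · obtain ⟨E1, o1, a1, -⟩ := hMX s.p s.q s.q s.E (fun _ => False) s.ok s.le (le_refl _)
      (fun _ h => h.elim) (fun _ _ _ _ h => h.elim)
    obtain ⟨E2, o2, a2, -⟩ := hMN s.p (s.q + 1) 0 0 E1 False o1 (fun h => h.elim)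
    have := s.le
    refine ⟨⟨s.p - 1, s.q + 1, E2, o2, by omega⟩, le_refl _, le_refl _, ?_, ?_⟩
    · intro f hf hx
      rw [a2 f hf (fun x hx' => ⟨(hx x hx').1, by have := (hx x hx').2; omega⟩), a1 f hf hx]
    · intro h1 h2 h3 h4
      exact absurd ⟨h1, h2, h3, h4⟩ h

theorem exists_start : ∃ s : Stage, s.p ≤ 0 ∧ 0 ≤ s.q := by
  refine ⟨⟨0, 0, ∅, ⟨?_, ?_⟩, le_refl _⟩, le_refl _, le_refl _⟩
  · intro x y z w _ _ _ _ _ _ _ _ _ _ h
    exact h.elim
  · intro x y z w _ _ _ _ _ _ _ h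
    exact h.elim

theorem exists_tasks : ∃ g : ℕ → ℤ × ℤ × ℤ, ∀ t N, ∃ n, N ≤ n ∧ g n = t := by
  obtain ⟨f, hf⟩ := exists_surjective_nat (ℤ × ℤ × ℤ)
  refine ⟨fun n => f (Nat.unpair n).1, ?_⟩
  intro t N
  obtain ⟨i, hi⟩ := hf t
  exact ⟨Nat.pair i N, Nat.right_le_pair i N, by simp [hi]⟩

theorem e5 (hSYM : S_SYM) (hMX : S_MX) (hMN : S_MN) (hSTP : S_STP) (hFR5 : S_FR5) : S_E5 := by
  choose next hnext using exists_next hMX hMN hSTP
  obtain ⟨s0, hs0, hs0'⟩ := exists_start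
  obtain ⟨g, hg⟩ := exists_tasks
  let st : ℕ → Stage := fun n => Nat.rec s0 (fun n s => next (g n) s) n
  have hst : ∀ n, Nx (g n) (st n) (st (n + 1)) := fun n => hnext _ _
  have hp : ∀ n : ℕ, (st n).p ≤ -(n : ℤ) ∧ (n : ℤ) ≤ (st n).q := by
    intro n
    induction n with
    | zero =>
      constructor
      · rw [Nat.cast_zero, neg_zero]
        exact hs0
      · rw [Nat.cast_zero]
        exact hs0'
    | succ n ih =>
      have h1 := (hst n).1
      have h2 := (hst n).2.1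
      push_cast
      omega
  have hmono : ∀ m n : ℕ, m ≤ n → (st n).p ≤ (st m).p ∧ (st m).q ≤ (st n).q ∧
      ∀ f : Finset ℤ, f.card = 3 → (∀ x ∈ f, (st m).p ≤ x ∧ x ≤ (st m).q) →
        (f ∈ (st n).E ↔ f ∈ (st m).E) := by
    intro m n hmn
    induction n, hmn using Nat.le_induction with
    | base => exact ⟨le_refl _, le_refl _, fun _ _ _ => Iff.rfl⟩
    | succ n hmn ih =>
      obtain ⟨i1, i2, i3⟩ := ih
      obtain ⟨h1, h2, h3, -⟩ := hst n
      refine ⟨by omega, by omega, ?_⟩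
      intro f hf hx
      rw [h3 f hf (fun x hx' => by have := hx x hx'; omega), i3 f hf hx]
  let G : Set (Finset ℤ) := {f | ∃ n, (∀ x ∈ f, (st n).p ≤ x ∧ x ≤ (st n).q) ∧ f ∈ (st n).E}
  have hG : ∀ n (f : Finset ℤ), f.card = 3 → (∀ x ∈ f, (st n).p ≤ x ∧ x ≤ (st n).q) →
      (f ∈ G ↔ f ∈ (st n).E) := by
    intro n f hf hx
    constructor
    · rintro ⟨m, hm, hm'⟩
      rcases le_total m n with h | h
      · exact ((hmono m n h).2.2 f hf hm).2 hm'
      · exact ((hmono n m h).2.2 f hf hx).1 hm'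
    · intro h
      exact ⟨n, hx, h⟩
  have hbig : ∀ (S : Finset ℤ), ∃ N : ℕ, ∀ x ∈ S, -(N : ℤ) ≤ x ∧ x ≤ N := by
    intro S
    refine ⟨S.sup Int.natAbs, ?_⟩
    intro x hx
    have := Finset.le_sup (f := Int.natAbs) hx
    omega
  apply hSYM.2.2.2 3 (Fin 5) ℤ ℕ H5 G Equiv.intEquivNat
  constructor
  · -- no copy
    rintro ⟨φ, hφ⟩
    obtain ⟨N, hN⟩ := hbig (Finset.univ.image φ)
    have hin : ∀ i, (st N).p ≤ φ i ∧ φ i ≤ (st N).q := by
      intro i
      have h1 := hN (φ i) (Finset.mem_image_of_mem _ (Finset.mem_univ i))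
      have h2 := hp N
      omega
    refine hFR5 _ _ _ (st N).ok ⟨φ, hin, ?_⟩
    intro f hf
    rw [hφ f hf, hG N]
    · rw [Finset.card_map, hf]
    · intro x hx
      rw [Finset.mem_map] at hx
      obtain ⟨i, -, rfl⟩ := hx
      exact hin i
  · -- perturbations
    intro P hP hP3 hPf
    obtain ⟨T, hTP⟩ := hP
    obtain ⟨x, y, z, hxy, hyz, rfl⟩ := sorted3 T (hP3 _ hTP)
    -- the finitely many vertices of the members of `P` that meet `T`
    let F : Set (Finset ℤ) := {e | e ∈ P ∧ x ∈ e} ∪ {e | e ∈ P ∧ y ∈ e} ∪ {e | e ∈ P ∧ z ∈ e}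
    have hF : F.Finite := ((hPf x).union (hPf y)).union (hPf z)
    obtain ⟨N, hN⟩ := hbig (hF.toFinset.biUnion id ∪ {x, y, z})
    obtain ⟨n, hNn, hn⟩ := hg (x, y, z) N
    have hFn : ∀ e ∈ P, (x ∈ e ∨ y ∈ e ∨ z ∈ e) → ∀ t ∈ e, (st n).p ≤ t ∧ t ≤ (st n).q := by
      intro e he h t ht
      have h1 : e ∈ hF.toFinset := by
        rw [Set.Finite.mem_toFinset]
        rcases h with h | h | h
        · exact Or.inl (Or.inl ⟨he, h⟩)
        · exact Or.inl (Or.inr ⟨he, h⟩)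
        · exact Or.inr ⟨he, h⟩
      have h2 := hN t (Finset.mem_union_left _ (Finset.mem_biUnion.2 ⟨e, h1, ht⟩))
      have h3 := hp n
      omega
    have hxyz : ∀ t, (t = x ∨ t = y ∨ t = z) → (st n).p ≤ t ∧ t ≤ (st n).q := by
      intro t ht
      have h2 := hN t (Finset.mem_union_right _ (mem_tri.2 ht))
      have h3 := hp n
      omega
    have hx := hxyz x (Or.inl rfl)
    have hz := hxyz z (Or.inr (Or.inr rfl))
    obtain ⟨h1, h2, h3, h4⟩ := hst n
    rw [hn] at h4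
    obtain ⟨φ, hφ, hc⟩ := h4 hx.1 hxy hyz hz.2
    dsimp only at hφ hc
    -- all vertices are in the next interval
    have hin : ∀ i, (st (n + 1)).p ≤ φ i ∧ φ i ≤ (st (n + 1)).q := by
      intro i
      rcases hφ i with h | h | h | h
      · have := hxyz (φ i) (Or.inl h); omega
      · have := hxyz (φ i) (Or.inr (Or.inl h)); omega
      · have := hxyz (φ i) (Or.inr (Or.inr h)); omega
      · exact h.2
    -- the copy contains `T`
    have hTc : ∃ f0 : Finset (Fin 5), f0.card = 3 ∧ f0.map φ = {x, y, z} := by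
      by_contra hcon
      push Not at hcon
      refine hFR5 _ _ _ (st (n + 1)).ok ⟨φ, hin, ?_⟩
      intro f hf
      rw [hc f hf, symm_mem_ne (hcon f hf)]
    obtain ⟨f0, hf0, hf0'⟩ := hTc
    refine ⟨φ, ?_⟩
    intro f hf
    have hmem : f.map φ ∈ G ↔ f.map φ ∈ (st (n + 1)).E := by
      refine hG (n + 1) _ ?_ ?_
      · rw [Finset.card_map, hf]
      · intro t ht
        rw [Finset.mem_map] at ht
        obtain ⟨i, -, rfl⟩ := ht
        exact hin i
    have hPT : f.map φ ∈ P ↔ f.map φ = {x, y, z} := by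
      constructor
      · intro h
        -- `f` meets `f0`
        have hmeet : ∃ i, i ∈ f ∧ i ∈ f0 := by
          by_contra hcon
          push Not at hcon
          have hd : Disjoint f f0 := Finset.disjoint_left.2 hcon
          have h5 := Finset.card_union_of_disjoint hd
          have h6 : (f ∪ f0).card ≤ 5 := by
            simpa using Finset.card_le_univ (f ∪ f0)
          omega
        obtain ⟨i, hi, hi0⟩ := hmeet
        have h7 : φ i ∈ ({x, y, z} : Finset ℤ) := by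
          rw [← hf0']
          exact Finset.mem_map_of_mem _ hi0
        have h8 : φ i ∈ f.map φ := Finset.mem_map_of_mem _ hi
        rw [mem_tri] at h7
        have h9 : x ∈ f.map φ ∨ y ∈ f.map φ ∨ z ∈ f.map φ := by
          rcases h7 with h7 | h7 | h7
          · rw [h7] at h8; exact Or.inl h8
          · rw [h7] at h8; exact Or.inr (Or.inl h8)
          · rw [h7] at h8; exact Or.inr (Or.inr h8)
        have h10 := hFn _ h h9
        have hsub : f.map φ ⊆ {x, y, z} := by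
          intro t ht
          have h11 := h10 t ht
          rw [Finset.mem_map] at ht
          obtain ⟨j, -, rfl⟩ := ht
          rw [mem_tri]
          rcases hφ j with h | h | h | h
          · exact Or.inl h
          · exact Or.inr (Or.inl h)
          · exact Or.inr (Or.inr h)
          · omega
        apply Finset.eq_of_subset_of_card_le hsub
        rw [Finset.card_map, hf]
        exact Finset.card_le_three
      · intro h
        rw [h]
        exact hTP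
    rw [hc f hf, Set.mem_symmDiff, Set.mem_symmDiff, hmem, hPT]
    rfl

end Pool.Agent.Q166.ISat
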