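import Pool.Agent.Q109.ISat.Stm

/-!
# Project ISat (helper109): the theorem
-/

set_option autoImplicit false

namespace Pool.Agent.Q166.ISat

open Q109.ISat

theorem transport3 (hSYM : S_SYM) {n : ℕ} {W : Type} {H : Set (Finset W)} {H' : Set (Finset (Fin n))}
    (e : Fin n ≃ W) (he : ∀ f : Finset (Fin n), f.card = 3 → (f ∈ H' ↔ f.map e.toEmbedding ∈ H))
    {G : Set (Finset ℕ)} (hG : StrongSat 3 H' G) : StrongSat 3 H G := by
  refine hSYM.2.2.1 3 W (Fin n) ℕ H H' G e.symm ?_ hG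
  intro f hf
  rw [he _ (by rw [Finset.card_map, hf]), Finset.map_map]
  have h1 : (e.symm.toEmbedding.trans e.toEmbedding) = Function.Embedding.refl W := by
    ext x
    simp
  rw [h1, Finset.map_refl]

theorem trim {k : ℕ} {W V : Type} {H : Set (Finset W)} {G : Set (Finset V)}
    (h : StrongSat k H G) :
    ∃ G' : Set (Finset V), (∀ e ∈ G', e.card = k) ∧ StrongSat k H G' := by
  refine ⟨{e | e ∈ G ∧ e.card = k}, fun e he => he.2, ?_, ?_⟩
  · rintro ⟨φ, hφ⟩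
    apply h.1
    refine ⟨φ, ?_⟩
    intro f hf
    rw [hφ f hf]
    exact ⟨fun h => h.1, fun h => ⟨h, by rw [Finset.card_map, hf]⟩⟩
  · intro P h1 h2 h3
    obtain ⟨φ, hφ⟩ := h.2 P h1 h2 h3
    refine ⟨φ, ?_⟩
    intro f hf
    have hk : (f.map φ).card = k := by rw [Finset.card_map, hf]
    rw [hφ f hf, Set.mem_symmDiff, Set.mem_symmDiff]
    have : f.map φ ∈ {e | e ∈ G ∧ e.card = k} ↔ f.map φ ∈ G :=
      ⟨fun h => h.1, fun h => ⟨h, hk⟩⟩
    rw [this]

theorem fin (hSYM : S_SYM) (hGT : S_GT) (hG4 : S_G4) (hP0 : S_P0) (hE4 : S_E4) (hE5 : S_E5) :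
    S_FIN := by
  classical
  intro k hk W _ H hH hne hnon
  suffices hs : ∃ G : Set (Finset ℕ), StrongSat k H G by
    obtain ⟨G, hG⟩ := hs
    exact trim hG
  obtain ⟨f, hf⟩ := hne
  have hfk := hH f hf
  obtain ⟨e, hek, heH⟩ := hnon
  -- the number of the vertices
  obtain ⟨m, hm, hcard⟩ : ∃ m : ℕ, 1 ≤ m ∧ Fintype.card W = k + m := by
    have h1 : f.card ≤ Fintype.card W := Finset.card_le_univ f
    have h2 : Fintype.card W ≠ k := by
      intro h
      have hf1 : f = Finset.univ := by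
        rw [← Finset.card_eq_iff_eq_univ, hfk, h]
      have he1 : e = Finset.univ := by
        rw [← Finset.card_eq_iff_eq_univ, hek, h]
      apply heH
      rw [he1, ← hf1]
      exact hf
    exact ⟨Fintype.card W - k, by omega, by omega⟩
  rcases Nat.lt_or_ge 3 k with h4 | h3
  · obtain ⟨g1, g2⟩ := hG4 k m h4 W H hcard ⟨f, hf, hfk⟩ ⟨e, hek, heH⟩
    exact hGT k m (by omega) hm W H ⟨f, hf, hfk⟩ g1 g2
  · obtain rfl : k = 3 := by omega
    rcases hP0 m hm W H hcard ⟨f, hf, hfk⟩ with g1 | ⟨e4, he4⟩ | ⟨e5, he5⟩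
    · rcases hP0 m hm W Hᶜ hcard ⟨e, heH, hek⟩ with g2 | ⟨e4, he4⟩ | ⟨e5, he5⟩
      · have g3 := hSYM.1 3 m W Hᶜ False g2
        rw [compl_compl, not_false_eq_true] at g3
        exact hGT 3 m (by omega) hm W H ⟨f, hf, hfk⟩ g1 g3
      · obtain ⟨G, hG⟩ := hE4
        have h5 := hSYM.2.1 3 W ℕ Hᶜ G (transport3 hSYM e4 he4 hG)
        rw [compl_compl] at h5
        exact ⟨_, h5⟩
      · obtain ⟨G, hG⟩ := hE5
        have h5 := hSYM.2.1 3 W ℕ Hᶜ G (transport3 hSYM e5 he5 hG)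
        rw [compl_compl] at h5
        exact ⟨_, h5⟩
    · obtain ⟨G, hG⟩ := hE4
      exact ⟨G, transport3 hSYM e4 he4 hG⟩
    · obtain ⟨G, hG⟩ := hE5
      exact ⟨G, transport3 hSYM e5 he5 hG⟩

end Pool.Agent.Q166.ISat
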