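import Pool.Agent.Q166.ISat_STP

/-!
# Project ISat (helper109): no copy of H5
-/

set_option autoImplicit false

namespace Pool.Agent.Q166.ISat

open Q109.ISat

theorem fr5 : S_FR5 := by
  rintro p q E hE ⟨φ, hφ, hc⟩
  rw [copy_iff] at hc
  have hne : ∀ i j, i ≠ j → φ i ≠ φ j := fun i j h h' => h (φ.injective h')
  have n01 := hne 0 1 (by decide)
  have n02 := hne 0 2 (by decide)
  have n03 := hne 0 3 (by decide)
  have n04 := hne 0 4 (by decide)
  have n12 := hne 1 2 (by decide)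
  have n13 := hne 1 3 (by decide)
  have n14 := hne 1 4 (by decide)
  have n23 := hne 2 3 (by decide)
  have n24 := hne 2 4 (by decide)
  have n34 := hne 3 4 (by decide)
  obtain ⟨b0, b0'⟩ := hφ 0
  obtain ⟨b1, b1'⟩ := hφ 1
  obtain ⟨b2, b2'⟩ := hφ 2
  obtain ⟨b3, b3'⟩ := hφ 3
  obtain ⟨b4, b4'⟩ := hφ 4
  generalize φ 0 = a at *
  generalize φ 1 = b at *
  generalize φ 2 = v at *
  generalize φ 3 = c at *
  generalize φ 4 = d at *
  obtain ⟨acd, bcd, vcd, bvc, abv, abc, abd, avc, avd, bvd⟩ := hc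
  -- the smallest of `b, v, c, d` is `c`
  have hb : ¬ (b < v ∧ b < c ∧ b < d) := by
    rintro ⟨h1, h2, h3⟩
    apply bvd
    rw [sw23] at bvc
    exact hE.eq b v c d b1 h1 h2 h3 b2' b3' b4' n23 n34 n24 (by rw [sw23]; exact bvc) bcd
  have hv : ¬ (v < b ∧ v < c ∧ v < d) := by
    rintro ⟨h1, h2, h3⟩
    apply bvd
    rw [sw12]
    exact hE.eq v b c d b2 h1 h2 h3 b1' b3' b4' n13 n34 n14 (by rw [sw12]; exact bvc) vcd
  have hd : ¬ (d < b ∧ d < v ∧ d < c) := by
    rintro ⟨h1, h2, h3⟩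
    apply bvd
    rw [← rot]
    refine hE.eq d b c v b4 h1 h3 h2 b1' b3' b2' n13 (Ne.symm n23) n12 ?_ ?_
    · rw [rot]; exact bcd
    · rw [sw23, rot]; exact vcd
  have hc : c < b ∧ c < v ∧ c < d := by omega
  -- `a` is smaller than `c`
  have hac : a < c := by
    by_contra hh
    have hca : c < a := by omega
    apply abc
    rw [← rot]
    refine hE.eq c a d b b3 hca hc.2.2 hc.1 b0' b4' b1' n04 (Ne.symm n14) n01 ?_ ?_
    · rw [sw12]; exact acd
    · rw [sw23, sw12]; exact bcd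
  apply abc
  rw [sw23]
  refine hE.r a c b d b0 hac hc.1 hc.2.2 b1' b4' n14 acd ?_
  rw [sw12]
  exact bcd

end Pool.Agent.Q166.ISat
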