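import Pool.Agent.Q109.ISat.Stm

/-!
# Project ISat (helper109): new maximum and new minimum
-/

set_option autoImplicit false

namespace Pool.Agent.Q166.ISat

open Q109.ISat

theorem sw23 (x y z : ℤ) : ({x, y, z} : Finset ℤ) = {x, z, y} := by
  ext t
  simp only [Finset.mem_insert, Finset.mem_singleton]
  tauto

theorem sw12 (x y z : ℤ) : ({x, y, z} : Finset ℤ) = {y, x, z} := by
  ext t
  simp only [Finset.mem_insert, Finset.mem_singleton]
  tauto

theorem rot (x y z : ℤ) : ({x, y, z} : Finset ℤ) = {y, z, x} := by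
  ext t
  simp only [Finset.mem_insert, Finset.mem_singleton]
  tauto

/-- three sorted elements are determined by the set -/
theorem tri_inj {a b c a' b' c' : ℤ} (h1 : a < b) (h2 : b < c) (h1' : a' < b') (h2' : b' < c')
    (h : ({a, b, c} : Finset ℤ) = {a', b', c'}) : a = a' ∧ b = b' ∧ c = c' := by
  have h3 : ∀ t, (t = a ∨ t = b ∨ t = c) ↔ (t = a' ∨ t = b' ∨ t = c') := by
    intro t
    have := congrArg (fun s => t ∈ s) h
    simpa using this
  have ha := (h3 a).1 (Or.inl rfl)
  have hb := (h3 b).1 (Or.inr (Or.inl rfl))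
  have hc := (h3 c).1 (Or.inr (Or.inr rfl))
  have ha' := (h3 a').2 (Or.inl rfl)
  have hb' := (h3 b').2 (Or.inr (Or.inl rfl))
  have hc' := (h3 c').2 (Or.inr (Or.inr rfl))
  omega

theorem mem_tri {t x y z : ℤ} : t ∈ ({x, y, z} : Finset ℤ) ↔ t = x ∨ t = y ∨ t = z := by
  simp

theorem mx : S_MX := by
  intro p q z E J hE hpz hzq hJ1 hJ2
  obtain ⟨E', hE'⟩ : ∃ E' : Set (Finset ℤ), E' = {f | (f ∈ E ∧ ∀ x ∈ f, x ≤ q) ∨
    ∃ α β : ℤ, p ≤ α ∧ α < β ∧ β ≤ q ∧ f = {α, β, q + 1} ∧
      (J α ∧ (β = z ∨ ({α, β, z} : Finset ℤ) ∈ E))} := ⟨_, rfl⟩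
  have hmem : ∀ f, f ∈ E' ↔ (f ∈ E ∧ ∀ x ∈ f, x ≤ q) ∨
    ∃ α β : ℤ, p ≤ α ∧ α < β ∧ β ≤ q ∧ f = {α, β, q + 1} ∧
      (J α ∧ (β = z ∨ ({α, β, z} : Finset ℤ) ∈ E)) := by
    intro f
    rw [hE']
    rfl
  have M1 : ∀ f : Finset ℤ, (∀ x ∈ f, x ≤ q) → (f ∈ E' ↔ f ∈ E) := by
    intro f hf
    rw [hmem]
    constructor
    · rintro (h | ⟨α, β, -, -, -, rfl, -⟩)
      · exact h.1
      · have := hf (q + 1) (by simp)
        omega
    · intro h
      exact Or.inl ⟨h, hf⟩
  have M1' : ∀ x y w : ℤ, x ≤ q → y ≤ q → w ≤ q → (({x, y, w} : Finset ℤ) ∈ E' ↔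
      ({x, y, w} : Finset ℤ) ∈ E) := by
    intro x y w hx hy hw
    apply M1
    intro t ht
    rw [mem_tri] at ht
    rcases ht with rfl | rfl | rfl <;> assumption
  have M2 : ∀ α β : ℤ, p ≤ α → α < β → β ≤ q → (({α, β, q + 1} : Finset ℤ) ∈ E' ↔
      (J α ∧ (β = z ∨ ({α, β, z} : Finset ℤ) ∈ E))) := by
    intro α β hα hαβ hβ
    rw [hmem]
    constructor
    · rintro (h | ⟨α', β', h1, h2, h3, h4, h5⟩)
      · have := h.2 (q + 1) (by simp)
        omega
      · obtain ⟨rfl, rfl, -⟩ := tri_inj hαβ (by omega) h2 (by omega) h4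
        exact h5
    · intro h
      exact Or.inr ⟨α, β, hα, hαβ, hβ, rfl, h⟩
  refine ⟨E', ?_, fun f _ hf => M1 f (fun x hx => (hf x hx).2), M2⟩
  constructor
  · intro x y v w hx hxy hxv hxw hy hv hw hyv hvw hyw h1 h2
    by_cases ey : y = q + 1
    · subst ey
      have hv' : v ≤ q := by omega
      have hw' : w ≤ q := by omega
      rw [sw23, M2 x v hx hxv hv'] at h1
      rw [M1' x v w (by omega) hv' hw'] at h2
      rw [sw23, M2 x w hx hxw hw']
      obtain ⟨hJ, h1⟩ := h1
      have hxz := (hJ1 x hJ).2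
      refine ⟨hJ, ?_⟩
      by_cases ew : w = z
      · exact Or.inl ew
      · right
        rcases h1 with rfl | h1
        · rw [sw23]; exact h2
        · by_cases evz : v = z
          · subst evz
            rw [sw23]; exact h2
          · rw [sw23 x v w] at h2
            exact hE.eq x w v z hx hxw hxv hxz hw' hv' hzq (Ne.symm hvw) evz ew h2 h1
    · by_cases ew : w = q + 1
      · subst ew
        have hv' : v ≤ q := by omega
        have hy' : y ≤ q := by omega
        rw [M1' x y v (by omega) hy' hv'] at h1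
        rw [M2 x v hx hxv hv'] at h2
        rw [M2 x y hx hxy hy']
        obtain ⟨hJ, h2⟩ := h2
        have hxz := (hJ1 x hJ).2
        refine ⟨hJ, ?_⟩
        by_cases eyz : y = z
        · exact Or.inl eyz
        · right
          by_cases evz : v = z
          · subst evz
            exact h1
          · rcases h2 with h2 | h2
            · exact absurd h2 evz
            · exact hE.eq x y v z hx hxy hxv hxz hy' hv' hzq hyv evz eyz h1 h2
      · have hy' : y ≤ q := by omega
        have hw' : w ≤ q := by omega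
        rw [M1' x y w (by omega) hy' hw']
        by_cases ev : v = q + 1
        · subst ev
          rw [M2 x y hx hxy hy'] at h1
          rw [sw23, M2 x w hx hxw hw'] at h2
          have hxz := (hJ1 x h1.1).2
          rcases h1.2 with rfl | h1'
          · rcases h2.2 with rfl | h2'
            · exact absurd rfl hyw
            · rw [sw23]; exact h2'
          · rcases h2.2 with rfl | h2'
            · exact h1'
            · by_cases eyz : y = z
              · subst eyz
                rw [sw23]; exact h2'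
              · by_cases ewz : w = z
                · subst ewz
                  exact h1'
                · rw [sw23 x w z] at h2'
                  exact hE.eq x y z w hx hxy hxz hxw hy' hzq hw' eyz (Ne.symm ewz) hyw h1' h2'
        · have hv' : v ≤ q := by omega
          rw [M1' x y v (by omega) hy' hv'] at h1
          rw [M1' x v w (by omega) hv' hw'] at h2
          exact hE.eq x y v w hx hxy hxv hxw hy' hv' hw' hyv hvw hyw h1 h2
  · intro a c b d ha hac hcb hcd hb hd hbd h1 h2
    by_cases eb : b = q + 1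
    · subst eb
      have hd' : d ≤ q := by omega
      rw [M1' a c d (by omega) (by omega) hd'] at h1
      rw [sw23, M2 c d (by omega) hcd hd'] at h2
      rw [M2 a c ha hac (by omega)]
      obtain ⟨hJc, h2⟩ := h2
      have hcz := (hJ1 c hJc).2
      have key : ({a, c, z} : Finset ℤ) ∈ E := by
        by_cases edz : d = z
        · subst edz
          exact h1
        · rcases h2 with h2 | h2
          · exact absurd h2 edz
          · rw [sw23] at h2
            exact hE.r a c z d ha hac hcz hcd hzq hd' (Ne.symm edz) h1 h2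
      exact ⟨hJ2 a c ha hac hJc key, Or.inr key⟩
    · have hb' : b ≤ q := by omega
      rw [M1' a c b (by omega) (by omega) hb']
      by_cases ed : d = q + 1
      · subst ed
        rw [M2 a c ha hac (by omega)] at h1
        rw [M2 c b (by omega) hcb hb'] at h2
        obtain ⟨hJa, h1⟩ := h1
        obtain ⟨hJc, h2⟩ := h2
        have hcz := (hJ1 c hJc).2
        rcases h1 with h1 | h1
        · omega
        · by_cases ebz : b = z
          · subst ebz
            exact h1
          · rcases h2 with h2 | h2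
            · exact absurd h2 ebz
            · exact hE.r a c b z ha hac hcb hcz hb' hzq ebz h1 h2
      · have hd' : d ≤ q := by omega
        rw [M1' a c d (by omega) (by omega) hd'] at h1
        rw [M1' c b d (by omega) hb' hd'] at h2
        exact hE.r a c b d ha hac hcb hcd hb' hd' hbd h1 h2

theorem mn : S_MN := by
  intro p q z w E B hE hB
  obtain ⟨E', hE'⟩ : ∃ E' : Set (Finset ℤ), E' = {f | (f ∈ E ∧ ∀ x ∈ f, p ≤ x) ∨
    (B ∧ f = {p - 1, z, w})} := ⟨_, rfl⟩
  have hmem : ∀ f, f ∈ E' ↔ (f ∈ E ∧ ∀ x ∈ f, p ≤ x) ∨ (B ∧ f = {p - 1, z, w}) := by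
    intro f
    rw [hE']
    rfl
  have M1 : ∀ f : Finset ℤ, (∀ x ∈ f, p ≤ x) → (f ∈ E' ↔ f ∈ E) := by
    intro f hf
    rw [hmem]
    constructor
    · rintro (h | ⟨-, rfl⟩)
      · exact h.1
      · have := hf (p - 1) (by simp)
        omega
    · intro h
      exact Or.inl ⟨h, hf⟩
  have M1' : ∀ x y w : ℤ, p ≤ x → p ≤ y → p ≤ w → (({x, y, w} : Finset ℤ) ∈ E' ↔
      ({x, y, w} : Finset ℤ) ∈ E) := by
    intro x y w hx hy hw
    apply M1
    intro t ht
    rw [mem_tri] at ht
    rcases ht with rfl | rfl | rfl <;> assumption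
  have M2 : ∀ α β : ℤ, p ≤ α → α < β → (({p - 1, α, β} : Finset ℤ) ∈ E' ↔
      (B ∧ α = z ∧ β = w)) := by
    intro α β hα hαβ
    rw [hmem]
    constructor
    · rintro (h | ⟨h1, h2⟩)
      · have := h.2 (p - 1) (by simp)
        omega
      · obtain ⟨h3, h4, -⟩ := hB h1
        obtain ⟨-, rfl, rfl⟩ := tri_inj (by omega) hαβ (by omega) h4 h2
        exact ⟨h1, rfl, rfl⟩
    · rintro ⟨h1, rfl, rfl⟩
      exact Or.inr ⟨h1, rfl⟩
  refine ⟨E', ?_, fun f _ hf => M1 f (fun x hx => (hf x hx).1), fun α β h1 h2 _ => M2 α β h1 h2⟩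
  constructor
  · intro x y v u hx hxy hxv hxu hy hv hu hyv hvu hyu h1 h2
    by_cases ex : x = p - 1
    · subst ex
      exfalso
      have k1 : (y = z ∧ v = w) ∨ (v = z ∧ y = w) := by
        rcases lt_or_gt_of_ne hyv with h | h
        · rw [M2 y v (by omega) h] at h1
          exact Or.inl h1.2
        · rw [sw23, M2 v y (by omega) h] at h1
          exact Or.inr h1.2
      have k2 : (v = z ∧ u = w) ∨ (u = z ∧ v = w) := by
        rcases lt_or_gt_of_ne hvu with h | h
        · rw [M2 v u (by omega) h] at h2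
          exact Or.inl h2.2
        · rw [sw23, M2 u v (by omega) h] at h2
          exact Or.inr h2.2
      omega
    · rw [M1' x y v (by omega) (by omega) (by omega)] at h1
      rw [M1' x v u (by omega) (by omega) (by omega)] at h2
      rw [M1' x y u (by omega) (by omega) (by omega)]
      exact hE.eq x y v u (by omega) hxy hxv hxu hy hv hu hyv hvu hyu h1 h2
  · intro a c b d ha hac hcb hcd hb hd hbd h1 h2
    rw [M1' c b d (by omega) (by omega) (by omega)] at h2
    by_cases ea : a = p - 1
    · subst ea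
      exfalso
      rw [M2 c d (by omega) hcd] at h1
      obtain ⟨hB1, rfl, rfl⟩ := h1
      exact (hB hB1).2.2.2 b hcb hb hbd h2
    · rw [M1' a c d (by omega) (by omega) (by omega)] at h1
      rw [M1' a c b (by omega) (by omega) (by omega)]
      exact hE.r a c b d (by omega) hac hcb hcd hb hd hbd h1 h2

end Pool.Agent.Q166.ISat
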