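import Pool.Agent.Q166.ISat_MX

/-!
# Project ISat (helper109): copies of H5 and the extension step
-/

set_option autoImplicit false

namespace Pool.Agent.Q166.ISat

open Q109.ISat

theorem mem_H5 (f : Finset (Fin 5)) :
    f ∈ H5 ↔ f = {0, 3, 4} ∨ f = {1, 3, 4} ∨ f = {2, 3, 4} ∨ f = {1, 2, 3} := Iff.rfl

theorem triples5 : ∀ f : Finset (Fin 5), f.card = 3 →
    f = {0, 1, 2} ∨ f = {0, 1, 3} ∨ f = {0, 1, 4} ∨ f = {0, 2, 3} ∨ f = {0, 2, 4} ∨
    f = {0, 3, 4} ∨ f = {1, 2, 3} ∨ f = {1, 2, 4} ∨ f = {1, 3, 4} ∨ f = {2, 3, 4} := by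
  decide

/-- the ten conditions of a copy of `H5` -/
theorem copy_iff {V : Type} [DecidableEq V] (φ : Fin 5 ↪ V) (E : Set (Finset V)) :
    (∀ f : Finset (Fin 5), f.card = 3 → (f ∈ H5 ↔ f.map φ ∈ E)) ↔
      (({φ 0, φ 3, φ 4} : Finset V) ∈ E ∧ ({φ 1, φ 3, φ 4} : Finset V) ∈ E ∧
        ({φ 2, φ 3, φ 4} : Finset V) ∈ E ∧ ({φ 1, φ 2, φ 3} : Finset V) ∈ E ∧
        ({φ 0, φ 1, φ 2} : Finset V) ∉ E ∧ ({φ 0, φ 1, φ 3} : Finset V) ∉ E ∧
        ({φ 0, φ 1, φ 4} : Finset V) ∉ E ∧ ({φ 0, φ 2, φ 3} : Finset V) ∉ E ∧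
        ({φ 0, φ 2, φ 4} : Finset V) ∉ E ∧ ({φ 1, φ 2, φ 4} : Finset V) ∉ E) := by
  have hm : ∀ i j l : Fin 5, ({i, j, l} : Finset (Fin 5)).map φ = {φ i, φ j, φ l} := by
    intro i j l
    rw [Finset.map_insert, Finset.map_insert, Finset.map_singleton]
  constructor
  · intro h
    have k : ∀ i j l : Fin 5, ({i, j, l} : Finset (Fin 5)).card = 3 →
        (({i, j, l} : Finset (Fin 5)) ∈ H5 ↔ ({φ i, φ j, φ l} : Finset V) ∈ E) := by
      intro i j l hc
      rw [h _ hc, hm]
    refine ⟨(k 0 3 4 rfl).1 ?_, (k 1 3 4 rfl).1 ?_, (k 2 3 4 rfl).1 ?_, (k 1 2 3 rfl).1 ?_,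
      (not_congr (k 0 1 2 rfl)).1 ?_, (not_congr (k 0 1 3 rfl)).1 ?_,
      (not_congr (k 0 1 4 rfl)).1 ?_, (not_congr (k 0 2 3 rfl)).1 ?_,
      (not_congr (k 0 2 4 rfl)).1 ?_, (not_congr (k 1 2 4 rfl)).1 ?_⟩ <;>
    · rw [mem_H5]
      decide
  · rintro ⟨a1, a2, a3, a4, b1, b2, b3, b4, b5, b6⟩ f hf
    rcases triples5 f hf with rfl | rfl | rfl | rfl | rfl | rfl | rfl | rfl | rfl | rfl <;>
    rw [hm, mem_H5]
    · exact iff_of_false (by decide) b1
    · exact iff_of_false (by decide) b2
    · exact iff_of_false (by decide) b3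
    · exact iff_of_false (by decide) b4
    · exact iff_of_false (by decide) b5
    · exact iff_of_true (by decide) a1
    · exact iff_of_true (by decide) a4
    · exact iff_of_false (by decide) b6
    · exact iff_of_true (by decide) a2
    · exact iff_of_true (by decide) a3

theorem symm_mem {V : Type} {E : Set (Finset V)} {f T : Finset V} :
    f ∈ symmDiff E {T} ↔ (f ∈ E ∧ f ≠ T) ∨ (f = T ∧ f ∉ E) := by
  rw [Set.mem_symmDiff]
  rfl

theorem symm_mem_ne {V : Type} {E : Set (Finset V)} {f T : Finset V} (h : f ≠ T) :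
    f ∈ symmDiff E {T} ↔ f ∈ E := by
  rw [symm_mem]
  tauto

theorem symm_mem_eq {V : Type} {E : Set (Finset V)} {T : Finset V} :
    T ∈ symmDiff E {T} ↔ T ∉ E := by
  rw [symm_mem]
  tauto

/-- triples with an element outside of `T` are different from `T` -/
theorem ne_of_mem_tri {x y z a b c t : ℤ} (ht : t = a ∨ t = b ∨ t = c) (h1 : t ≠ x) (h2 : t ≠ y)
    (h3 : t ≠ z) : ({a, b, c} : Finset ℤ) ≠ {x, y, z} := by
  intro h
  have : t ∈ ({x, y, z} : Finset ℤ) := by
    rw [← h, mem_tri]
    exact ht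
  rw [mem_tri] at this
  tauto

theorem exists_emb {a b v c d : ℤ} (h1 : a ≠ b) (h2 : a ≠ v) (h3 : a ≠ c) (h4 : a ≠ d)
    (h5 : b ≠ v) (h6 : b ≠ c) (h7 : b ≠ d) (h8 : v ≠ c) (h9 : v ≠ d) (h10 : c ≠ d) :
    ∃ φ : Fin 5 ↪ ℤ, φ 0 = a ∧ φ 1 = b ∧ φ 2 = v ∧ φ 3 = c ∧ φ 4 = d ∧
      ∀ i, φ i = a ∨ φ i = b ∨ φ i = v ∨ φ i = c ∨ φ i = d := by
  have hinj : Function.Injective (![a, b, v, c, d] : Fin 5 → ℤ) := by
    intro i j hij
    fin_cases i <;> fin_cases j <;> first | rfl | (exfalso; simp at hij; omega)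
  refine ⟨⟨![a, b, v, c, d], hinj⟩, rfl, rfl, rfl, rfl, rfl, ?_⟩
  intro i
  change ![a, b, v, c, d] i = a ∨ ![a, b, v, c, d] i = b ∨ ![a, b, v, c, d] i = v ∨
    ![a, b, v, c, d] i = c ∨ ![a, b, v, c, d] i = d
  fin_cases i <;> simp

theorem stp (hMX : S_MX) (hMN : S_MN) : S_STP := by
  intro p q E hE x y z hpx hxy hyz hzq
  by_cases hT : ({x, y, z} : Finset ℤ) ∈ E
  · -- the triple is an edge
    obtain ⟨E1, hE1, ag1, m1⟩ := hMX p q z E (fun α => p ≤ α ∧ α < z) hE (by omega) hzq
      (fun α h => h) (fun a c h1 h2 h3 _ => ⟨h1, by have := h3.2; omega⟩)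
    obtain ⟨E2, hE2, ag2, m2⟩ := hMN p (q + 1) z (q + 1) E1 True hE1 (by
      intro _
      refine ⟨by omega, by omega, le_refl _, ?_⟩
      intro b hb1 hb2 hb3
      rw [m1 z b (by omega) hb1 (by omega)]
      rintro ⟨⟨-, h⟩, -⟩
      omega)
    have up : ∀ a b c : ℤ, a ≠ b → b ≠ c → a ≠ c → p ≤ a → p ≤ b → p ≤ c → a ≤ q + 1 →
        b ≤ q + 1 → c ≤ q + 1 →
        (({a, b, c} : Finset ℤ) ∈ E2 ↔ ({a, b, c} : Finset ℤ) ∈ E1) := by
      intro a b c h1 h2 h3 ha hb hc ha' hb' hc'
      apply ag2
      · rw [Finset.card_eq_three]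
        exact ⟨a, b, c, h1, h3, h2, rfl⟩
      · intro t ht
        rw [mem_tri] at ht
        rcases ht with rfl | rfl | rfl <;> constructor <;> assumption
    have up1 : ∀ a b c : ℤ, a ≠ b → b ≠ c → a ≠ c → p ≤ a → p ≤ b → p ≤ c → a ≤ q →
        b ≤ q → c ≤ q →
        (({a, b, c} : Finset ℤ) ∈ E1 ↔ ({a, b, c} : Finset ℤ) ∈ E) := by
      intro a b c h1 h2 h3 ha hb hc ha' hb' hc'
      apply ag1
      · rw [Finset.card_eq_three]
        exact ⟨a, b, c, h1, h3, h2, rfl⟩
      · intro t ht
        rw [mem_tri] at ht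
        rcases ht with rfl | rfl | rfl <;> constructor <;> assumption
    refine ⟨p - 1, q + 1, E2, le_refl _, le_refl _, hE2, ?_, ?_⟩
    · intro f hf hfx
      rw [ag2 f hf (fun t ht => ⟨(hfx t ht).1, by have := (hfx t ht).2; omega⟩), ag1 f hf hfx]
    · obtain ⟨φ, e0, e1, e2, e3, e4, hall⟩ := exists_emb (a := p - 1) (b := x) (v := y)
        (c := q + 1) (d := z) (by omega) (by omega) (by omega) (by omega) (by omega) (by omega)
        (by omega) (by omega) (by omega) (by omega)
      refine ⟨φ, ?_, ?_⟩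
      · intro i
        have := hall i
        omega
      · rw [copy_iff, e0, e1, e2, e3, e4]
        refine ⟨?_, ?_, ?_, ?_, ?_, ?_, ?_, ?_, ?_, ?_⟩
        · rw [symm_mem_ne (ne_of_mem_tri (t := p - 1) (by simp) (by omega) (by omega) (by omega)),
            sw23, m2 z (q + 1) (by omega) (by omega) (by omega)]
          exact ⟨trivial, rfl, rfl⟩
        · rw [symm_mem_ne (ne_of_mem_tri (t := q + 1) (by simp) (by omega) (by omega) (by omega)),
            sw23, up x z (q + 1) (by omega) (by omega) (by omega) (by omega) (by omega) (by omega)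
            (by omega) (by omega) (by omega), m1 x z (by omega) (by omega) (by omega)]
          exact ⟨⟨by omega, by omega⟩, Or.inl rfl⟩
        · rw [symm_mem_ne (ne_of_mem_tri (t := q + 1) (by simp) (by omega) (by omega) (by omega)),
            sw23, up y z (q + 1) (by omega) (by omega) (by omega) (by omega) (by omega) (by omega)
            (by omega) (by omega) (by omega), m1 y z (by omega) (by omega) (by omega)]
          exact ⟨⟨by omega, by omega⟩, Or.inl rfl⟩
        · rw [symm_mem_ne (ne_of_mem_tri (t := q + 1) (by simp) (by omega) (by omega) (by omega)),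
            up x y (q + 1) (by omega) (by omega) (by omega) (by omega) (by omega) (by omega)
            (by omega) (by omega) (by omega), m1 x y (by omega) (by omega) (by omega)]
          exact ⟨⟨by omega, by omega⟩, Or.inr hT⟩
        · rw [symm_mem_ne (ne_of_mem_tri (t := p - 1) (by simp) (by omega) (by omega) (by omega)),
            m2 x y (by omega) (by omega) (by omega)]
          omega
        · rw [symm_mem_ne (ne_of_mem_tri (t := p - 1) (by simp) (by omega) (by omega) (by omega)),
            m2 x (q + 1) (by omega) (by omega) (by omega)]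
          omega
        · rw [symm_mem_ne (ne_of_mem_tri (t := p - 1) (by simp) (by omega) (by omega) (by omega)),
            m2 x z (by omega) (by omega) (by omega)]
          omega
        · rw [symm_mem_ne (ne_of_mem_tri (t := p - 1) (by simp) (by omega) (by omega) (by omega)),
            m2 y (q + 1) (by omega) (by omega) (by omega)]
          omega
        · rw [symm_mem_ne (ne_of_mem_tri (t := p - 1) (by simp) (by omega) (by omega) (by omega)),
            m2 y z (by omega) (by omega) (by omega)]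
          omega
        · rw [symm_mem_eq, not_not, up x y z (by omega) (by omega) (by omega) (by omega) (by omega)
            (by omega) (by omega) (by omega) (by omega), up1 x y z (by omega) (by omega) (by omega)
            (by omega) (by omega) (by omega) (by omega) (by omega) (by omega)]
          exact hT
  · -- the triple is not an edge
    let J : ℤ → Prop := fun α => p ≤ α ∧ (α = y ∨ (α < y ∧ ({α, y, z} : Finset ℤ) ∈ E))
    have hJz : ∀ α, J α → p ≤ α ∧ α < z := by
      rintro α ⟨h1, h2⟩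
      exact ⟨h1, by rcases h2 with h | h <;> omega⟩
    have hJy : J y := ⟨by omega, Or.inl rfl⟩
    have hJx : ¬ J x := by
      rintro ⟨-, h | h⟩
      · omega
      · exact hT h.2
    have hcl : ∀ a c, p ≤ a → a < c → J c → ({a, c, z} : Finset ℤ) ∈ E → J a := by
      rintro a c ha hac ⟨hc, hc2⟩ h
      refine ⟨ha, Or.inr ?_⟩
      rcases hc2 with rfl | ⟨h1, h2⟩
      · exact ⟨hac, h⟩
      · refine ⟨by omega, ?_⟩
        have h3 := hE.r a c y z ha hac h1 (by omega) (by omega) hzq (by omega) h h2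
        rw [sw23] at h3
        exact hE.eq a y c z ha (by omega) hac (by omega) (by omega) (by omega) hzq (by omega)
          (by omega) (by omega) h3 h
    obtain ⟨E1, hE1, ag1, m1⟩ := hMX p q z E J hE (by omega) hzq hJz hcl
    have up1 : ∀ a b c : ℤ, a ≠ b → b ≠ c → a ≠ c → p ≤ a → p ≤ b → p ≤ c → a ≤ q →
        b ≤ q → c ≤ q →
        (({a, b, c} : Finset ℤ) ∈ E1 ↔ ({a, b, c} : Finset ℤ) ∈ E) := by
      intro a b c h1 h2 h3 ha hb hc ha' hb' hc'
      apply ag1
      · rw [Finset.card_eq_three]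
        exact ⟨a, b, c, h1, h3, h2, rfl⟩
      · intro t ht
        rw [mem_tri] at ht
        rcases ht with rfl | rfl | rfl <;> constructor <;> assumption
    obtain ⟨E2, hE2, ag2, m2⟩ := hMX p (q + 1) z E1 J hE1 (by omega) (by omega) hJz (by
      intro a c ha hac hc h
      have hcz := (hJz c hc).2
      rw [up1 a c z (by omega) (by omega) (by omega) (by omega) (by omega) (by omega) (by omega)
        (by omega) (by omega)] at h
      exact hcl a c ha hac hc h)
    have up2 : ∀ a b c : ℤ, a ≠ b → b ≠ c → a ≠ c → p ≤ a → p ≤ b → p ≤ c → a ≤ q + 1 →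
        b ≤ q + 1 → c ≤ q + 1 →
        (({a, b, c} : Finset ℤ) ∈ E2 ↔ ({a, b, c} : Finset ℤ) ∈ E1) := by
      intro a b c h1 h2 h3 ha hb hc ha' hb' hc'
      apply ag2
      · rw [Finset.card_eq_three]
        exact ⟨a, b, c, h1, h3, h2, rfl⟩
      · intro t ht
        rw [mem_tri] at ht
        rcases ht with rfl | rfl | rfl <;> constructor <;> assumption
    obtain ⟨E3, hE3, ag3, m3⟩ := hMN p (q + 1 + 1) z z E2 False hE2 (fun h => h.elim)
    have up3 : ∀ a b c : ℤ, a ≠ b → b ≠ c → a ≠ c → p ≤ a → p ≤ b → p ≤ c → a ≤ q + 1 + 1 →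
        b ≤ q + 1 + 1 → c ≤ q + 1 + 1 →
        (({a, b, c} : Finset ℤ) ∈ E3 ↔ ({a, b, c} : Finset ℤ) ∈ E2) := by
      intro a b c h1 h2 h3 ha hb hc ha' hb' hc'
      apply ag3
      · rw [Finset.card_eq_three]
        exact ⟨a, b, c, h1, h3, h2, rfl⟩
      · intro t ht
        rw [mem_tri] at ht
        rcases ht with rfl | rfl | rfl <;> constructor <;> assumption
    -- triples with `q + 1`
    have t1 : ∀ α β : ℤ, p ≤ α → α < β → β ≤ q → (({α, β, q + 1} : Finset ℤ) ∈ E3 ↔
        (J α ∧ (β = z ∨ ({α, β, z} : Finset ℤ) ∈ E))) := by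
      intro α β h1 h2 h3
      rw [up3 α β (q + 1) (by omega) (by omega) (by omega) (by omega) (by omega) (by omega)
        (by omega) (by omega) (by omega), up2 α β (q + 1) (by omega) (by omega) (by omega)
        (by omega) (by omega) (by omega) (by omega) (by omega) (by omega), m1 α β h1 h2 h3]
    have t2 : ∀ α β : ℤ, p ≤ α → α < β → β ≤ q + 1 → (({α, β, q + 1 + 1} : Finset ℤ) ∈ E3 ↔
        (J α ∧ (β = z ∨ ({α, β, z} : Finset ℤ) ∈ E1))) := by
      intro α β h1 h2 h3
      rw [up3 α β (q + 1 + 1) (by omega) (by omega) (by omega) (by omega) (by omega) (by omega)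
        (by omega) (by omega) (by omega), m2 α β h1 h2 h3]
    refine ⟨p - 1, q + 1 + 1, E3, le_refl _, by omega, hE3, ?_, ?_⟩
    · intro f hf hfx
      rw [ag3 f hf (fun t ht => ⟨(hfx t ht).1, by have := (hfx t ht).2; omega⟩),
        ag2 f hf (fun t ht => ⟨(hfx t ht).1, by have := (hfx t ht).2; omega⟩), ag1 f hf hfx]
    · obtain ⟨φ, e0, e1, e2, e3, e4, hall⟩ := exists_emb (a := x) (b := q + 1) (v := q + 1 + 1)
        (c := y) (d := z) (by omega) (by omega) (by omega) (by omega) (by omega) (by omega)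
        (by omega) (by omega) (by omega) (by omega)
      refine ⟨φ, ?_, ?_⟩
      · intro i
        have := hall i
        omega
      · rw [copy_iff, e0, e1, e2, e3, e4]
        refine ⟨?_, ?_, ?_, ?_, ?_, ?_, ?_, ?_, ?_, ?_⟩
        · rw [symm_mem_eq, up3 x y z (by omega) (by omega) (by omega) (by omega) (by omega)
            (by omega) (by omega) (by omega) (by omega), up2 x y z (by omega) (by omega) (by omega)
            (by omega) (by omega) (by omega) (by omega) (by omega) (by omega),
            up1 x y z (by omega) (by omega) (by omega)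
            (by omega) (by omega) (by omega) (by omega) (by omega) (by omega)]
          exact hT
        · rw [symm_mem_ne (ne_of_mem_tri (t := q + 1) (by simp) (by omega) (by omega) (by omega)),
            rot, t1 y z (by omega) (by omega) (by omega)]
          exact ⟨hJy, Or.inl rfl⟩
        · rw [symm_mem_ne (ne_of_mem_tri (t := q + 1 + 1) (by simp) (by omega) (by omega)
            (by omega)), rot, t2 y z (by omega) (by omega) (by omega)]
          exact ⟨hJy, Or.inl rfl⟩
        · rw [symm_mem_ne (ne_of_mem_tri (t := q + 1) (by simp) (by omega) (by omega) (by omega)),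
            ← rot, t2 y (q + 1) (by omega) (by omega) (by omega)]
          refine ⟨hJy, Or.inr ?_⟩
          rw [sw23, m1 y z (by omega) (by omega) (by omega)]
          exact ⟨hJy, Or.inl rfl⟩
        · rw [symm_mem_ne (ne_of_mem_tri (t := q + 1) (by simp) (by omega) (by omega) (by omega)),
            t2 x (q + 1) (by omega) (by omega) (by omega)]
          exact fun h => hJx h.1
        · rw [symm_mem_ne (ne_of_mem_tri (t := q + 1) (by simp) (by omega) (by omega) (by omega)),
            sw23, t1 x y (by omega) (by omega) (by omega)]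
          exact fun h => hJx h.1
        · rw [symm_mem_ne (ne_of_mem_tri (t := q + 1) (by simp) (by omega) (by omega) (by omega)),
            sw23, t1 x z (by omega) (by omega) (by omega)]
          exact fun h => hJx h.1
        · rw [symm_mem_ne (ne_of_mem_tri (t := q + 1 + 1) (by simp) (by omega) (by omega)
            (by omega)), sw23, t2 x y (by omega) (by omega) (by omega)]
          exact fun h => hJx h.1
        · rw [symm_mem_ne (ne_of_mem_tri (t := q + 1 + 1) (by simp) (by omega) (by omega)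
            (by omega)), sw23, t2 x z (by omega) (by omega) (by omega)]
          exact fun h => hJx h.1
        · rw [symm_mem_ne (ne_of_mem_tri (t := q + 1) (by simp) (by omega) (by omega) (by omega)),
            ← rot, t2 z (q + 1) (by omega) (by omega) (by omega)]
          intro h
          have := (hJz z h.1).2
          omega

end Pool.Agent.Q166.ISat
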