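import Mathlib

/-!
Involutions of the hyperoctahedral group: for the two orders on the signed values the descent sets
are equidistributed.
-/

set_option autoImplicit false

open scoped Classical

namespace Q166.BInv

/-- signed involutions: underlying involution and signs (`true` is positive) -/
abbrev SI (n : ℕ) : Type :=
  {p : (Fin n → Fin n) × (Fin n → Bool) // (∀ a, p.1 (p.1 a) = a) ∧ ∀ a, p.2 (p.1 a) = p.2 a}

/-- position of a signed value in the order (`o = true`: usual order; `o = false`: the order
`-1 < -2 < ...`) -/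
def K (n : ℕ) (o : Bool) (b : Fin n) (e : Bool) : ℤ :=
  if e then (b : ℤ) + 1 else if o then -((b : ℤ) + 1) else (b : ℤ) - n

theorem K_pos {n : ℕ} {o : Bool} {b : Fin n} {e : Bool} (h : e = true) : 0 < K n o b e := by
  subst h; simp only [K, if_true]; omega

theorem K_neg {n : ℕ} {o : Bool} {b : Fin n} {e : Bool} (h : e = false) : K n o b e < 0 := by
  subst h
  have := b.2
  cases o
  · simp only [K, Bool.false_eq_true, if_false]; omega
  · simp only [K, Bool.false_eq_true, if_false, if_true]; omega

/-- extended value word, `0` at position `0` -/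
def kv {n : ℕ} (o : Bool) (w : SI n) (i : ℕ) : ℤ :=
  if h : 1 ≤ i ∧ i ≤ n then K n o (w.1.1 ⟨i - 1, by omega⟩) (w.1.2 ⟨i - 1, by omega⟩) else 0

theorem kv_succ {n : ℕ} (o : Bool) (w : SI n) (a : Fin n) :
    kv o w (a.1 + 1) = K n o (w.1.1 a) (w.1.2 a) := by
  have := a.2
  unfold kv
  rw [dif_pos (by omega)]
  simp

theorem kv_zero {n : ℕ} (o : Bool) (w : SI n) : kv o w 0 = 0 := by
  unfold kv
  rw [dif_neg (by omega)]

/-- the descent set -/
def Des {n : ℕ} (o : Bool) (w : SI n) : Finset ℕ :=
  (Finset.range n).filter (fun i => kv o w (i + 1) < kv o w i)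

/-- block index -/
def bl {n : ℕ} (D : Finset ℕ) (a : Fin n) : ℕ := (D.filter (fun d => d ≤ a.1)).card

theorem bl_mono {n : ℕ} (D : Finset ℕ) {a b : Fin n} (h : a ≤ b) : bl D a ≤ bl D b := by
  apply Finset.card_le_card
  intro d hd
  rw [Finset.mem_filter] at hd ⊢
  exact ⟨hd.1, hd.2.trans h⟩

theorem bl_eq {n : ℕ} {D : Finset ℕ} {a b : Fin n} (hab : a ≤ b) (h : bl D a = bl D b) {d : ℕ}
    (h1 : a.1 < d) (h2 : d ≤ b.1) : d ∉ D := by
  intro hd
  have h3 : D.filter (fun d => d ≤ a.1) ⊂ D.filter (fun d => d ≤ b.1) := by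
    rw [Finset.ssubset_iff_of_subset]
    · exact ⟨d, by rw [Finset.mem_filter]; exact ⟨hd, h2⟩, by rw [Finset.mem_filter]; omega⟩
    · intro x hx
      rw [Finset.mem_filter] at hx ⊢
      exact ⟨hx.1, hx.2.trans hab⟩
  have := Finset.card_lt_card h3
  unfold bl at h
  omega

theorem bl_zero {n : ℕ} {D : Finset ℕ} {a : Fin n} (h : bl D a = 0) {d : ℕ} (h1 : d ≤ a.1) :
    d ∉ D := by
  intro hd
  unfold bl at h
  rw [Finset.card_eq_zero, Finset.filter_eq_empty_iff] at h
  exact h hd h1

/-- sortedness on the blocks -/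
def Sorted {n : ℕ} (o : Bool) (D : Finset ℕ) (w : SI n) : Prop :=
  (∀ a b : Fin n, a < b → bl D a = bl D b →
    K n o (w.1.1 a) (w.1.2 a) < K n o (w.1.1 b) (w.1.2 b)) ∧
  ∀ a : Fin n, bl D a = 0 → w.1.2 a = true

theorem K_inj {n : ℕ} {o : Bool} {b b' : Fin n} {e e' : Bool} (h : K n o b e = K n o b' e') :
    b = b' ∧ e = e' := by
  have h1 := b.2
  have h2 := b'.2
  cases o <;> cases e <;> cases e' <;> simp [K] at h ⊢ <;> omega

theorem kv_ne {n : ℕ} {o : Bool} (w : SI n) {i : ℕ} (hi : i < n) : kv o w i ≠ kv o w (i + 1) := by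
  rcases Nat.eq_zero_or_pos i with rfl | h
  · rw [kv_zero]
    intro hc
    have h1 := kv_succ o w ⟨0, hi⟩
    simp only [zero_add] at h1 hc
    rw [h1] at hc
    rcases Bool.eq_false_or_eq_true (w.1.2 ⟨0, hi⟩) with h2 | h2
    · have := K_pos (n := n) (o := o) (b := w.1.1 ⟨0, hi⟩) h2; omega
    · have := K_neg (n := n) (o := o) (b := w.1.1 ⟨0, hi⟩) h2; omega
  · intro hc
    have h1 := kv_succ o w ⟨i, hi⟩
    have h2 := kv_succ o w ⟨i - 1, by omega⟩
    simp only at h1 h2
    rw [show i - 1 + 1 = i by omega] at h2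
    rw [h1, h2] at hc
    obtain ⟨h3, _⟩ := K_inj hc
    have h4 := congrArg w.1.1 h3
    rw [w.2.1, w.2.1, Fin.mk.injEq] at h4
    omega

theorem sorted_of_des {n : ℕ} {o : Bool} {D : Finset ℕ} {w : SI n} (h : Des o w ⊆ D) :
    Sorted o D w := by
  have hstep : ∀ i, i < n → i ∉ D → kv o w i < kv o w (i + 1) := by
    intro i hi hD
    have h1 : i ∉ Des o w := fun hc => hD (h hc)
    unfold Des at h1
    rw [Finset.mem_filter, Finset.mem_range] at h1
    have h2 := kv_ne (o := o) w hi
    omega
  have hrun : ∀ (i k : ℕ), i + k ≤ n → (∀ d, i ≤ d → d < i + k → d ∉ D) → 0 < k →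
      kv o w i < kv o w (i + k) := by
    intro i k
    induction k with
    | zero => intro _ _ h; omega
    | succ k ih =>
      intro h1 h2 _
      have h3 := hstep (i + k) (by omega) (h2 _ (by omega) (by omega))
      rcases Nat.eq_zero_or_pos k with rfl | hk
      · simpa using h3
      · have h4 := ih (by omega) (fun d hd hd' => h2 d hd (by omega)) hk
        exact h4.trans h3
  constructor
  · intro a b hab hbl
    rw [← kv_succ, ← kv_succ]
    have h1 := hrun (a.1 + 1) (b.1 - a.1) (by have := b.2; have := Fin.lt_def.1 hab; omega) (by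
      intro d hd hd'
      have := Fin.lt_def.1 hab
      exact bl_eq hab.le hbl (by omega) (by omega)) (by have := Fin.lt_def.1 hab; omega)
    rwa [show a.1 + 1 + (b.1 - a.1) = b.1 + 1 by have := Fin.lt_def.1 hab; omega] at h1
  · intro a ha
    have h1 := hrun 0 (a.1 + 1) (by have := a.2; omega) (by
      intro d _ hd'
      exact bl_zero ha (by omega)) (by omega)
    rw [kv_zero, zero_add, kv_succ] at h1
    rcases Bool.eq_false_or_eq_true (w.1.2 a) with h2 | h2
    · exact h2
    · have := K_neg (n := n) (o := o) (b := w.1.1 a) h2; omega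

/-! ### the invariant -/

def Cnt {n : ℕ} (D : Finset ℕ) (w : SI n) (i : ℕ) (e : Bool) (j : ℕ) : ℕ :=
  (Finset.univ.filter (fun a : Fin n => bl D a = i ∧ w.1.2 a = e ∧ bl D (w.1.1 a) = j)).card

def SameM {n : ℕ} (D : Finset ℕ) (w w' : SI n) : Prop := ∀ i e j, Cnt D w i e j = Cnt D w' i e j

theorem SameM.pos {n : ℕ} {D : Finset ℕ} {w w' : SI n} (h : SameM D w w')
    (hw : ∀ a, bl D a = 0 → w.1.2 a = true) : ∀ a, bl D a = 0 → w'.1.2 a = true := by
  intro a ha
  by_contra hc
  rw [Bool.not_eq_true] at hc
  have h1 := h 0 false (bl D (w'.1.1 a))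
  have h2 : Cnt D w 0 false (bl D (w'.1.1 a)) = 0 := by
    unfold Cnt
    rw [Finset.card_eq_zero, Finset.filter_eq_empty_iff]
    rintro b _ ⟨hb1, hb2, _⟩
    rw [hw b hb1] at hb2
    exact absurd hb2 (by decide)
  have h3 : 0 < Cnt D w' 0 false (bl D (w'.1.1 a)) := by
    unfold Cnt
    rw [Finset.card_pos]
    exact ⟨a, by rw [Finset.mem_filter]; exact ⟨Finset.mem_univ _, ha, hc, rfl⟩⟩
  omega

/-! ### uniqueness -/

/-- order on the types -/
def kap (N : ℕ) (o : Bool) (e : Bool) (j : ℕ) : ℤ :=
  if e then (j : ℤ) + 1 else if o then -((j : ℤ) + 1) else (j : ℤ) - N - 1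

theorem kap_le {n : ℕ} {o : Bool} {D : Finset ℕ} {b b' : Fin n} {e e' : Bool}
    (h : K n o b e < K n o b' e') :
    kap D.card o e (bl D b) ≤ kap D.card o e' (bl D b') := by
  have h1 : bl D b ≤ D.card := Finset.card_filter_le _ _
  have h2 : bl D b' ≤ D.card := Finset.card_filter_le _ _
  have h3 := b.2
  have h4 := b'.2
  have hm : ∀ x y : Fin n, x.1 ≤ y.1 → bl D x ≤ bl D y := fun x y hxy => bl_mono D hxy
  have m1 := hm b b'
  have m2 := hm b' b
  cases o <;> cases e <;> cases e' <;> simp only [K, kap, if_true, Bool.false_eq_true, if_false] at h ⊢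
  all_goals omega

theorem kap_inj {N : ℕ} {o : Bool} {e e' : Bool} {j j' : ℕ} (hj : j ≤ N) (hj' : j' ≤ N)
    (h : kap N o e j = kap N o e' j') : e = e' ∧ j = j' := by
  cases o <;> cases e <;> cases e' <;>
    simp only [kap, if_true, Bool.false_eq_true, if_false] at h <;> simp <;> omega

/-- a function that is monotone on the blocks is determined by its fibre sizes -/
theorem mono_unique {n : ℕ} (β : Fin n → ℕ) (f g : Fin n → ℤ)
    (hf : ∀ a b, a < b → β a = β b → f a ≤ f b) (hg : ∀ a b, a < b → β a = β b → g a ≤ g b)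
    (h : ∀ i c, (Finset.univ.filter (fun a => β a = i ∧ f a = c)).card =
      (Finset.univ.filter (fun a => β a = i ∧ g a = c)).card) : f = g := by
  have key : ∀ (f : Fin n → ℤ), (∀ a b, a < b → β a = β b → f a ≤ f b) → ∀ a c, f a ≤ c ↔
      (Finset.univ.filter (fun b => β b = β a ∧ b < a)).card <
        (Finset.univ.filter (fun b => β b = β a ∧ f b ≤ c)).card := by
    intro f hf a c
    constructor
    · intro hac
      apply Finset.card_lt_card
      rw [Finset.ssubset_iff_of_subset]
      · refine ⟨a, ?_, ?_⟩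
        · rw [Finset.mem_filter]; exact ⟨Finset.mem_univ _, rfl, hac⟩
        · rw [Finset.mem_filter]; rintro ⟨_, _, h⟩; exact lt_irrefl _ h
      · intro b hb
        rw [Finset.mem_filter] at hb ⊢
        exact ⟨hb.1, hb.2.1, (hf b a hb.2.2 hb.2.1).trans hac⟩
    · intro hlt
      by_contra hc
      push Not at hc
      apply absurd hlt
      rw [not_lt]
      apply Finset.card_le_card
      intro b hb
      rw [Finset.mem_filter] at hb ⊢
      refine ⟨hb.1, hb.2.1, ?_⟩
      by_contra hba
      rcases eq_or_lt_of_le (not_lt.1 hba) with h1 | h1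
      · subst h1; exact absurd hb.2.2 (not_le.2 hc)
      · have := hf a b h1 hb.2.1.symm
        have := hb.2.2
        omega
  have hcount : ∀ i c, (Finset.univ.filter (fun b => β b = i ∧ f b ≤ c)).card =
      (Finset.univ.filter (fun b => β b = i ∧ g b ≤ c)).card := by
    intro i c
    -- sum over the values
    let V : Finset ℤ := (Finset.univ.image f ∪ Finset.univ.image g).filter (· ≤ c)
    have hsum : ∀ (f' : Fin n → ℤ), (∀ a, f' a ∈ Finset.univ.image f ∪ Finset.univ.image g) →
        (Finset.univ.filter (fun b => β b = i ∧ f' b ≤ c)).card =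
        ∑ v ∈ V, (Finset.univ.filter (fun b => β b = i ∧ f' b = v)).card := by
      intro f' hf'
      rw [Finset.card_eq_sum_card_fiberwise (f := f') (t := V)]
      · apply Finset.sum_congr rfl
        intro v hv
        congr 1
        ext b
        simp only [Finset.mem_filter, Finset.mem_univ, true_and]
        have := (Finset.mem_filter.1 hv).2
        constructor
        · rintro ⟨⟨h1, _⟩, h2⟩; exact ⟨h1, h2⟩
        · rintro ⟨h1, h2⟩; exact ⟨⟨h1, by omega⟩, h2⟩
      · intro b hb
        have hb' := (Finset.mem_filter.1 (Finset.mem_coe.1 hb)).2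
        exact Finset.mem_coe.2 (Finset.mem_filter.2 ⟨hf' b, hb'.2⟩)
    rw [hsum f (fun a => Finset.mem_union_left _ (Finset.mem_image_of_mem _ (Finset.mem_univ _))),
      hsum g (fun a => Finset.mem_union_right _ (Finset.mem_image_of_mem _ (Finset.mem_univ _)))]
    exact Finset.sum_congr rfl (fun v _ => h i v)
  funext a
  apply le_antisymm
  · rw [key f hf, hcount, ← key g hg]
  · rw [key g hg, ← hcount, ← key f hf]

theorem unique {n : ℕ} {o : Bool} {D : Finset ℕ} {w w' : SI n} (hw : Sorted o D w)
    (hw' : Sorted o D w') (h : SameM D w w') : w = w' := by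
  -- types agree
  have htype : (fun a => kap D.card o (w.1.2 a) (bl D (w.1.1 a))) =
      fun a => kap D.card o (w'.1.2 a) (bl D (w'.1.1 a)) := by
    apply mono_unique (bl D)
    · intro a b hab hbl
      exact kap_le (hw.1 a b hab hbl)
    · intro a b hab hbl
      exact kap_le (hw'.1 a b hab hbl)
    · intro i c
      have hk : ∀ v : SI n, ∀ e j, j ≤ D.card → kap D.card o e j = c →
          (Finset.univ.filter (fun a => bl D a = i ∧
            kap D.card o (v.1.2 a) (bl D (v.1.1 a)) = c)).card = Cnt D v i e j := by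
        intro v e j hj hc
        unfold Cnt
        congr 1
        ext a
        simp only [Finset.mem_filter, Finset.mem_univ, true_and]
        constructor
        · rintro ⟨h1, h2⟩
          rw [← hc] at h2
          have := kap_inj (Finset.card_filter_le _ _) hj h2
          exact ⟨h1, this.1, this.2⟩
        · rintro ⟨h1, h2, h3⟩
          rw [h2, h3]
          exact ⟨h1, hc⟩
      by_cases hex : ∃ e j, j ≤ D.card ∧ kap D.card o e j = c
      · obtain ⟨e, j, hj, hc⟩ := hex
        rw [hk w e j hj hc, hk w' e j hj hc, h i e j]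
      · push Not at hex
        have hz : ∀ v : SI n, (Finset.univ.filter (fun a => bl D a = i ∧
            kap D.card o (v.1.2 a) (bl D (v.1.1 a)) = c)).card = 0 := by
          intro v
          rw [Finset.card_eq_zero, Finset.filter_eq_empty_iff]
          rintro a _ ⟨_, h2⟩
          exact hex _ _ (Finset.card_filter_le _ _) h2
        rw [hz, hz]
  have ht : ∀ a, w.1.2 a = w'.1.2 a ∧ bl D (w.1.1 a) = bl D (w'.1.1 a) := by
    intro a
    exact kap_inj (Finset.card_filter_le _ _) (Finset.card_filter_le _ _) (congrFun htype a)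
  -- the involutions agree
  have hs : ∀ a, w.1.1 a = w'.1.1 a := by
    intro a
    let P : Finset (Fin n) := Finset.univ.filter (fun b => bl D b = bl D a ∧ w.1.2 b = w.1.2 a ∧
      bl D (w.1.1 b) = bl D (w.1.1 a))
    let Q : Finset (Fin n) := Finset.univ.filter (fun b => bl D b = bl D (w.1.1 a) ∧
      w.1.2 b = w.1.2 a ∧ bl D (w.1.1 b) = bl D a)
    -- order behaviour: `σ` is monotone or antitone on `P`
    have hdir : ∀ v : SI n, Sorted o D v → (∀ b, v.1.2 b = w.1.2 b ∧ bl D (v.1.1 b) = bl D (w.1.1 b)) →
        ∀ b ∈ P, b < a ↔ (if w.1.2 a = true ∨ o = false then v.1.1 b < v.1.1 a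
          else v.1.1 a < v.1.1 b) := by
      intro v hv hvt b hb
      obtain ⟨_, hb1, hb2, hb3⟩ := Finset.mem_filter.1 hb
      have h1 := (hvt a).1
      have h2 := (hvt b).1
      have hcmp : ∀ x y : Fin n, bl D x = bl D y → v.1.2 x = w.1.2 a → v.1.2 y = w.1.2 a → x < y →
          (if w.1.2 a = true ∨ o = false then v.1.1 x < v.1.1 y else v.1.1 y < v.1.1 x) := by
        intro x y hxy hx hy hlt
        have h3 := hv.1 x y hlt hxy
        rw [hx, hy] at h3
        split_ifs with hc
        · rcases hc with hc | hc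
          · rw [hc] at h3; simp only [K, if_true] at h3
            rw [Fin.lt_def]; omega
          · subst hc
            rw [Fin.lt_def]
            rcases Bool.eq_false_or_eq_true (w.1.2 a) with h4 | h4 <;> rw [h4] at h3 <;>
              simp only [K, if_true, Bool.false_eq_true, if_false] at h3 <;> omega
        · push Not at hc
          have h4 : w.1.2 a = false := by simpa using hc.1
          have h5 : o = true := by simpa using hc.2
          rw [h4, h5] at h3
          simp only [K, if_true, Bool.false_eq_true, if_false] at h3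
          rw [Fin.lt_def]; omega
      constructor
      · intro hlt
        exact hcmp b a hb1 (by rw [h2, hb2]) h1 hlt
      · intro hc
        by_contra hba
        rcases eq_or_lt_of_le (not_lt.1 hba) with h3 | h3
        · subst h3
          split_ifs at hc
          · exact lt_irrefl _ hc
          · exact lt_irrefl _ hc
        · have h4 := hcmp a b hb1.symm h1 (by rw [h2, hb2]) h3
          split_ifs at hc h4
          · exact lt_asymm hc h4
          · exact lt_asymm hc h4
    -- the rank of `v a` in `Q`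
    have hrank : ∀ v : SI n, Sorted o D v →
        (∀ b, v.1.2 b = w.1.2 b ∧ bl D (v.1.1 b) = bl D (w.1.1 b)) →
        (P.filter (· < a)).card = (Q.filter (fun c => if w.1.2 a = true ∨ o = false then
          c < v.1.1 a else v.1.1 a < c)).card := by
      intro v hv hvt
      apply Finset.card_nbij' (fun b => v.1.1 b) (fun b => v.1.1 b)
      · intro b hb
        obtain ⟨hbP, hb4⟩ := Finset.mem_filter.1 (Finset.mem_coe.1 hb)
        obtain ⟨_, hb1, hb2, hb3⟩ := Finset.mem_filter.1 hbP
        refine Finset.mem_coe.2 (Finset.mem_filter.2 ⟨Finset.mem_filter.2 ⟨Finset.mem_univ _, ?_, ?_, ?_⟩, ?_⟩)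
        · rw [(hvt b).2, hb3]
        · rw [← (hvt _).1, v.2.2, (hvt b).1, hb2]
        · rw [← (hvt _).2, v.2.1, hb1]
        · exact (hdir v hv hvt b hbP).1 hb4
      · intro c hc
        obtain ⟨hcQ, hc4⟩ := Finset.mem_filter.1 (Finset.mem_coe.1 hc)
        obtain ⟨_, hc1, hc2, hc3⟩ := Finset.mem_filter.1 hcQ
        have hP : v.1.1 c ∈ P := by
          refine Finset.mem_filter.2 ⟨Finset.mem_univ _, ?_, ?_, ?_⟩
          · rw [(hvt c).2, hc3]
          · rw [← (hvt _).1, v.2.2, (hvt c).1, hc2]
          · rw [← (hvt _).2, v.2.1, hc1]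
        refine Finset.mem_coe.2 (Finset.mem_filter.2 ⟨hP, ?_⟩)
        rw [hdir v hv hvt _ hP, v.2.1]
        exact hc4
      · intro b _
        exact v.2.1 b
      · intro c _
        exact v.2.1 c
    have h1 := hrank w hw (fun b => ⟨rfl, rfl⟩)
    have h2 := hrank w' hw' (fun b => ⟨(ht b).1.symm, (ht b).2.symm⟩)
    rw [h1] at h2
    have hQ1 : w.1.1 a ∈ Q := Finset.mem_filter.2 ⟨Finset.mem_univ _, rfl, w.2.2 a, by rw [w.2.1]⟩
    have hQ2 : w'.1.1 a ∈ Q := Finset.mem_filter.2 ⟨Finset.mem_univ _, (ht a).2.symm, by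
      rw [(ht _).1, w'.2.2, (ht a).1], by rw [(ht _).2, w'.2.1]⟩
    -- ranks are injective
    have hinj : ∀ x ∈ Q, ∀ y ∈ Q, x < y →
        (Q.filter (fun c => if w.1.2 a = true ∨ o = false then c < x else x < c)).card ≠
        (Q.filter (fun c => if w.1.2 a = true ∨ o = false then c < y else y < c)).card := by
      intro x hx y hy hxy
      split_ifs with hc
      · apply ne_of_lt
        apply Finset.card_lt_card
        rw [Finset.ssubset_iff_of_subset]
        · exact ⟨x, Finset.mem_filter.2 ⟨hx, hxy⟩, fun hc => lt_irrefl _ (Finset.mem_filter.1 hc).2⟩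
        · intro c hc
          rw [Finset.mem_filter] at hc ⊢
          exact ⟨hc.1, hc.2.trans hxy⟩
      · apply ne_of_gt
        apply Finset.card_lt_card
        rw [Finset.ssubset_iff_of_subset]
        · exact ⟨y, Finset.mem_filter.2 ⟨hy, hxy⟩, fun hc => lt_irrefl _ (Finset.mem_filter.1 hc).2⟩
        · intro c hc
          rw [Finset.mem_filter] at hc ⊢
          exact ⟨hc.1, hxy.trans hc.2⟩
    rcases lt_trichotomy (w.1.1 a) (w'.1.1 a) with h3 | h3 | h3
    · exact absurd h2 (hinj _ hQ1 _ hQ2 h3)
    · exact h3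
    · exact absurd h2.symm (hinj _ hQ2 _ hQ1 h3)
  apply Subtype.ext
  apply Prod.ext
  · funext a; exact hs a
  · funext a; exact (ht a).1

/-! ### existence -/

section exist

variable {n : ℕ}

def cc (o e : Bool) : ℤ := if e then 1 else if o then -1 else 1

def ng (e : Bool) : ℤ := if e then 0 else 1

/-- the potential -/
def Phi (o : Bool) (w : SI n) : ℤ :=
  ∑ a, (cc o (w.1.2 a) * (a : ℤ) * (w.1.1 a : ℤ) - (2 * n + 2) * ng (w.1.2 a) * (a : ℤ))

/-- conjugation by the transposition of `p` and `q` -/
def conj (p q : Fin n) (w : SI n) : SI n :=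
  ⟨(fun a => Equiv.swap p q (w.1.1 (Equiv.swap p q a)), fun a => w.1.2 (Equiv.swap p q a)), by
    constructor
    · intro a
      simp only [Equiv.swap_apply_self]
      rw [w.2.1, Equiv.swap_apply_self]
    · intro a
      simp only [Equiv.swap_apply_self]
      exact w.2.2 _⟩

def uu (p q a : Fin n) : ℤ := if a = p then 1 else if a = q then -1 else 0

theorem swap_val {p q : Fin n} (hpq : q.1 = p.1 + 1) (a : Fin n) :
    ((Equiv.swap p q a : Fin n) : ℤ) = (a : ℤ) + uu p q a := by
  have hne : q ≠ p := by rintro rfl; omega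
  unfold uu
  by_cases h1 : a = p
  · subst h1
    rw [Equiv.swap_apply_left, if_pos rfl]
    omega
  · by_cases h2 : a = q
    · subst h2
      rw [Equiv.swap_apply_right, if_neg h1, if_pos rfl]
      omega
    · rw [Equiv.swap_apply_of_ne_of_ne h1 h2, if_neg h1, if_neg h2]
      omega

theorem sum_uu {p q : Fin n} (hne : p ≠ q) (g : Fin n → ℤ) :
    ∑ a, uu p q a * g a = g p - g q := by
  have h1 : ∀ a, uu p q a * g a = (if a = p then g a else 0) - (if a = q then g a else 0) := by
    intro a
    unfold uu
    by_cases h1 : a = p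
    · subst h1
      rw [if_pos rfl, if_pos rfl, if_neg hne]; ring
    · rw [if_neg h1, if_neg h1]
      by_cases h2 : a = q
      · rw [if_pos h2, if_pos h2]; ring
      · rw [if_neg h2, if_neg h2]; ring
  rw [Finset.sum_congr rfl (fun a _ => h1 a), Finset.sum_sub_distrib, Finset.sum_ite_eq',
    Finset.sum_ite_eq']
  simp

theorem Phi_conj {o : Bool} {p q : Fin n} (hpq : q.1 = p.1 + 1) (w : SI n) :
    Phi o (conj p q w) - Phi o w =
      (cc o (w.1.2 p) * (2 * (w.1.1 p : ℤ) + uu p q (w.1.1 p)) - (2 * n + 2) * ng (w.1.2 p)) -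
      (cc o (w.1.2 q) * (2 * (w.1.1 q : ℤ) + uu p q (w.1.1 q)) - (2 * n + 2) * ng (w.1.2 q)) := by
  have hne : p ≠ q := by rintro rfl; omega
  have h1 : Phi o (conj p q w) = ∑ a, (cc o (w.1.2 a) * ((a : ℤ) + uu p q a) *
      ((w.1.1 a : ℤ) + uu p q (w.1.1 a)) - (2 * n + 2) * ng (w.1.2 a) * ((a : ℤ) + uu p q a)) := by
    unfold Phi
    rw [← Equiv.sum_comp (Equiv.swap p q)]
    apply Finset.sum_congr rfl
    intro a _
    simp only [conj, Equiv.swap_apply_self]
    rw [swap_val hpq, swap_val hpq]
  have h2 : ∑ a, cc o (w.1.2 a) * (a : ℤ) * uu p q (w.1.1 a) =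
      ∑ a, cc o (w.1.2 a) * (w.1.1 a : ℤ) * uu p q a := by
    have hinv : Function.Involutive w.1.1 := w.2.1
    rw [← Equiv.sum_comp hinv.toPerm]
    apply Finset.sum_congr rfl
    intro a _
    show cc o (w.1.2 (w.1.1 a)) * ((w.1.1 a : Fin n) : ℤ) * uu p q (w.1.1 (w.1.1 a)) = _
    rw [w.2.1, w.2.2]
  have h3 : Phi o (conj p q w) - Phi o w = ∑ a, uu p q a *
      (cc o (w.1.2 a) * (2 * (w.1.1 a : ℤ) + uu p q (w.1.1 a)) - (2 * n + 2) * ng (w.1.2 a)) := by
    have h4 : ∑ a, uu p q a *
      (cc o (w.1.2 a) * (2 * (w.1.1 a : ℤ) + uu p q (w.1.1 a)) - (2 * n + 2) * ng (w.1.2 a)) =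
      ∑ a, (cc o (w.1.2 a) * ((a : ℤ) + uu p q a) *
      ((w.1.1 a : ℤ) + uu p q (w.1.1 a)) - (2 * n + 2) * ng (w.1.2 a) * ((a : ℤ) + uu p q a)) -
      ∑ a, (cc o (w.1.2 a) * (a : ℤ) * (w.1.1 a : ℤ) - (2 * n + 2) * ng (w.1.2 a) * (a : ℤ)) -
      (∑ a, cc o (w.1.2 a) * (a : ℤ) * uu p q (w.1.1 a) -
      ∑ a, cc o (w.1.2 a) * (w.1.1 a : ℤ) * uu p q a) := by
      rw [← Finset.sum_sub_distrib, ← Finset.sum_sub_distrib, ← Finset.sum_sub_distrib]
      apply Finset.sum_congr rfl
      intro a _
      ring
    rw [h4, h1, h2]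
    unfold Phi
    ring
  rw [h3, sum_uu hne]

theorem sameM_conj {D : Finset ℕ} {p q : Fin n} (hbl : bl D p = bl D q) (w : SI n) :
    SameM D w (conj p q w) := by
  have hs : ∀ a, bl D (Equiv.swap p q a) = bl D a := by
    intro a
    rcases eq_or_ne a p with h | h
    · subst h; rw [Equiv.swap_apply_left, hbl]
    · rcases eq_or_ne a q with h' | h'
      · subst h'; rw [Equiv.swap_apply_right, hbl]
      · rw [Equiv.swap_apply_of_ne_of_ne h h']
  intro i e j
  unfold Cnt
  apply Finset.card_nbij' (fun a => Equiv.swap p q a) (fun a => Equiv.swap p q a)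
  · intro a ha
    obtain ⟨_, h1, h2, h3⟩ := Finset.mem_filter.1 (Finset.mem_coe.1 ha)
    refine Finset.mem_coe.2 (Finset.mem_filter.2 ⟨Finset.mem_univ _, by rw [hs]; exact h1, ?_, ?_⟩)
    · simp only [conj, Equiv.swap_apply_self]; exact h2
    · simp only [conj, Equiv.swap_apply_self]; rw [hs]; exact h3
  · intro a ha
    obtain ⟨_, h1, h2, h3⟩ := Finset.mem_filter.1 (Finset.mem_coe.1 ha)
    refine Finset.mem_coe.2 (Finset.mem_filter.2 ⟨Finset.mem_univ _, by rw [hs]; exact h1, ?_, ?_⟩)
    · exact h2
    · simp only [conj] at h3; rw [hs] at h3; exact h3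
  · intro a _; simp
  · intro a _; simp

theorem exists_sorted (o : Bool) (D : Finset ℕ) (w : SI n)
    (hw : ∀ a, bl D a = 0 → w.1.2 a = true) : ∃ w' : SI n, Des o w' ⊆ D ∧ SameM D w w' := by
  obtain ⟨w', hw', hmax⟩ := (Finset.univ.filter (fun v : SI n => SameM D w v)).exists_max_image
    (Phi o) ⟨w, Finset.mem_filter.2 ⟨Finset.mem_univ _, fun _ _ _ => rfl⟩⟩
  have hsame : SameM D w w' := (Finset.mem_filter.1 hw').2
  refine ⟨w', ?_, hsame⟩
  by_contra hcon
  rw [Finset.not_subset] at hcon
  obtain ⟨i, hi, hiD⟩ := hcon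
  unfold Des at hi
  rw [Finset.mem_filter, Finset.mem_range] at hi
  obtain ⟨hin, hdes⟩ := hi
  have hmax' : ∀ v : SI n, SameM D w' v → Phi o v ≤ Phi o w' := by
    intro v hv
    apply hmax
    refine Finset.mem_filter.2 ⟨Finset.mem_univ _, fun i e j => ?_⟩
    rw [hsame i e j, hv i e j]
  rcases Nat.eq_zero_or_pos i with rfl | hi0
  · have h1 : bl D (⟨0, hin⟩ : Fin n) = 0 := by
      unfold bl
      rw [Finset.card_eq_zero, Finset.filter_eq_empty_iff]
      intro d hd hd'
      simp only [Nat.le_zero] at hd'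
      subst hd'
      exact hiD hd
    have h2 := hsame.pos hw _ h1
    rw [kv_zero] at hdes
    have h3 := kv_succ o w' ⟨0, hin⟩
    simp only at h3
    rw [h3] at hdes
    have := K_pos (n := n) (o := o) (b := w'.1.1 ⟨0, hin⟩) h2
    omega
  · obtain ⟨p, hp⟩ : ∃ p : Fin n, p.1 = i - 1 := ⟨⟨i - 1, by omega⟩, rfl⟩
    obtain ⟨q, hq⟩ : ∃ q : Fin n, q.1 = i := ⟨⟨i, hin⟩, rfl⟩
    have hpq : q.1 = p.1 + 1 := by omega
    have hne : p ≠ q := by rintro rfl; omega
    have hbl : bl D p = bl D q := by
      unfold bl
      congr 1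
      ext d
      rw [Finset.mem_filter, Finset.mem_filter]
      constructor
      · rintro ⟨h1, h2⟩; exact ⟨h1, by omega⟩
      · rintro ⟨h1, h2⟩
        refine ⟨h1, ?_⟩
        rcases eq_or_lt_of_le h2 with h3 | h3
        · rw [hq] at h3; subst h3; exact absurd h1 hiD
        · omega
    have hd : K n o (w'.1.1 q) (w'.1.2 q) < K n o (w'.1.1 p) (w'.1.2 p) := by
      rw [← kv_succ, ← kv_succ, hp, hq, show i - 1 + 1 = i by omega]
      exact hdes
    have hm1 := hmax' _ (sameM_conj hbl w')
    have hdiff := Phi_conj (o := o) hpq w'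
    have hb := (w'.1.1 p).2
    have hb' := (w'.1.1 q).2
    have hbb : w'.1.1 p ≠ w'.1.1 q := by
      intro h
      have := congrArg w'.1.1 h
      rw [w'.2.1, w'.2.1] at this
      exact hne this
    -- the exceptional case
    by_cases hex : (w'.1.1 p = p ∨ w'.1.1 p = q) ∧ (w'.1.1 q = p ∨ w'.1.1 q = q) ∧
        w'.1.2 p = w'.1.2 q
    · obtain ⟨e1, e2, e3⟩ := hex
      -- multiply by the transposition
      have hcomm : ∀ a, w'.1.1 (Equiv.swap p q a) = Equiv.swap p q (w'.1.1 a) := by
        intro a
        rcases e1 with e1 | e1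
        · have e2' : w'.1.1 q = q := by
            rcases e2 with e2 | e2
            · exact absurd (e1.trans e2.symm) hbb
            · exact e2
          by_cases h1 : a = p
          · subst h1; rw [Equiv.swap_apply_left, e1, e2', Equiv.swap_apply_left]
          · by_cases h2 : a = q
            · subst h2; rw [Equiv.swap_apply_right, e1, e2', Equiv.swap_apply_right]
            · have h3 : w'.1.1 a ≠ p := fun h => h1 (by
                have := congrArg w'.1.1 h; rw [w'.2.1, e1] at this; exact this)
              have h4 : w'.1.1 a ≠ q := fun h => h2 (by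
                have := congrArg w'.1.1 h; rw [w'.2.1, e2'] at this; exact this)
              rw [Equiv.swap_apply_of_ne_of_ne h1 h2, Equiv.swap_apply_of_ne_of_ne h3 h4]
        · have e2' : w'.1.1 q = p := by
            have := congrArg w'.1.1 e1; rw [w'.2.1] at this; exact this.symm
          by_cases h1 : a = p
          · subst h1; rw [Equiv.swap_apply_left, e1, e2', Equiv.swap_apply_right]
          · by_cases h2 : a = q
            · subst h2; rw [Equiv.swap_apply_right, e1, e2', Equiv.swap_apply_left]
            · have h3 : w'.1.1 a ≠ p := fun h => h2 (by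
                have := congrArg w'.1.1 h; rw [w'.2.1, e1] at this; exact this)
              have h4 : w'.1.1 a ≠ q := fun h => h1 (by
                have := congrArg w'.1.1 h; rw [w'.2.1, e2'] at this; exact this)
              rw [Equiv.swap_apply_of_ne_of_ne h1 h2, Equiv.swap_apply_of_ne_of_ne h3 h4]
      have heps : ∀ a, w'.1.2 (Equiv.swap p q a) = w'.1.2 a := by
        intro a
        by_cases h1 : a = p
        · subst h1; rw [Equiv.swap_apply_left, e3]
        · by_cases h2 : a = q
          · subst h2; rw [Equiv.swap_apply_right, e3]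
          · rw [Equiv.swap_apply_of_ne_of_ne h1 h2]
      have hs : ∀ a, bl D (Equiv.swap p q a) = bl D a := by
        intro a
        rcases eq_or_ne a p with h | h
        · subst h; rw [Equiv.swap_apply_left, hbl]
        · rcases eq_or_ne a q with h' | h'
          · subst h'; rw [Equiv.swap_apply_right, hbl]
          · rw [Equiv.swap_apply_of_ne_of_ne h h']
      let v : SI n := ⟨(fun a => w'.1.1 (Equiv.swap p q a), w'.1.2), by
        constructor
        · intro a
          simp only
          rw [hcomm, w'.2.1, Equiv.swap_apply_self]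
        · intro a
          simp only
          rw [w'.2.2, heps]⟩
      have hv : SameM D w' v := by
        intro i e j
        unfold Cnt
        apply Finset.card_nbij' (fun a => Equiv.swap p q a) (fun a => Equiv.swap p q a)
        · intro a ha
          obtain ⟨_, h1, h2, h3⟩ := Finset.mem_filter.1 (Finset.mem_coe.1 ha)
          refine Finset.mem_coe.2 (Finset.mem_filter.2 ⟨Finset.mem_univ _, by rw [hs]; exact h1,
            ?_, ?_⟩)
          · simp only [v]; rw [heps]; exact h2
          · simp only [v, Equiv.swap_apply_self]; exact h3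
        · intro a ha
          obtain ⟨_, h1, h2, h3⟩ := Finset.mem_filter.1 (Finset.mem_coe.1 ha)
          refine Finset.mem_coe.2 (Finset.mem_filter.2 ⟨Finset.mem_univ _, by rw [hs]; exact h1,
            ?_, ?_⟩)
          · simp only [v] at h2; rw [heps]; exact h2
          · simp only [v] at h3; exact h3
        · intro a _; simp
        · intro a _; simp
      have hPhi : Phi o v - Phi o w' =
          cc o (w'.1.2 p) * ((w'.1.1 p : ℤ) - (w'.1.1 q : ℤ)) := by
        have h1 : ∑ a, cc o (w'.1.2 a) * (a : ℤ) * ((w'.1.1 (Equiv.swap p q a) : Fin n) : ℤ) =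
            ∑ a, cc o (w'.1.2 a) * ((a : ℤ) + uu p q a) * (w'.1.1 a : ℤ) := by
          rw [← Equiv.sum_comp (Equiv.swap p q)]
          apply Finset.sum_congr rfl
          intro a _
          rw [Equiv.swap_apply_self, heps, swap_val hpq]
        have h2 : Phi o v - Phi o w' = ∑ a, uu p q a * (cc o (w'.1.2 a) * (w'.1.1 a : ℤ)) := by
          have h3 : ∑ a, uu p q a * (cc o (w'.1.2 a) * (w'.1.1 a : ℤ)) =
              ∑ a, cc o (w'.1.2 a) * ((a : ℤ) + uu p q a) * (w'.1.1 a : ℤ) -
              ∑ a, cc o (w'.1.2 a) * (a : ℤ) * (w'.1.1 a : ℤ) := by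
            rw [← Finset.sum_sub_distrib]
            apply Finset.sum_congr rfl
            intro a _
            ring
          rw [h3, ← h1]
          unfold Phi
          simp only [v, Finset.sum_sub_distrib]
          ring
        rw [h2, sum_uu hne, ← e3]
        ring
      have hm2 := hmax' v hv
      have hpv : (p : ℤ) = (i : ℤ) - 1 := by omega
      rcases e1 with e1 | e1
      · have e2' : w'.1.1 q = q := by
          rcases e2 with e2 | e2
          · exact absurd (e1.trans e2.symm) hbb
          · exact e2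
        rw [← e3, e1, e2'] at hd
        rw [e1, e2'] at hPhi
        rcases Bool.eq_false_or_eq_true (w'.1.2 p) with h4 | h4 <;> rw [h4] at hd hPhi <;>
          cases o <;> simp only [K, cc, if_true, Bool.false_eq_true, if_false] at hd hPhi <;> omega
      · have e2' : w'.1.1 q = p := by
          have := congrArg w'.1.1 e1; rw [w'.2.1] at this; exact this.symm
        rw [← e3, e1, e2'] at hd
        rw [e1, e2'] at hPhi
        rcases Bool.eq_false_or_eq_true (w'.1.2 p) with h4 | h4 <;> rw [h4] at hd hPhi <;>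
          cases o <;> simp only [K, cc, if_true, Bool.false_eq_true, if_false] at hd hPhi <;> omega
    · -- generic case
      have hbv : w'.1.1 p = p ∨ (w'.1.1 p : ℕ) ≠ p := by
        by_cases h : w'.1.1 p = p
        · exact Or.inl h
        · exact Or.inr (fun hc => h (Fin.ext hc))
      have hbbv : (w'.1.1 p : ℕ) ≠ (w'.1.1 q : ℕ) := fun hc => hbb (Fin.ext hc)
      have iff1 : ∀ x y : Fin n, x = y ↔ (x : ℕ) = (y : ℕ) := fun x y => Fin.ext_iff
      simp only [iff1] at hex
      generalize w'.1.1 p = b at *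
      generalize w'.1.1 q = b' at *
      generalize w'.1.2 p = e at *
      generalize w'.1.2 q = e' at *
      have hub : ∀ x : Fin n, ((x : ℕ) = p ∧ uu p q x = 1) ∨ ((x : ℕ) = q ∧ uu p q x = -1) ∨
          ((x : ℕ) ≠ p ∧ (x : ℕ) ≠ q ∧ uu p q x = 0) := by
        intro x
        unfold uu
        by_cases h1 : x = p
        · left; rw [if_pos h1]; exact ⟨by rw [h1], rfl⟩
        · by_cases h2 : x = q
          · right; left; rw [if_neg h1, if_pos h2]; exact ⟨by rw [h2], rfl⟩
          · right; right; rw [if_neg h1, if_neg h2]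
            exact ⟨fun h => h1 (Fin.ext h), fun h => h2 (Fin.ext h), rfl⟩
      have hu1 := hub b
      have hu2 := hub b'
      generalize uu p q b = ub at *
      generalize uu p q b' = ub' at *
      cases o <;> cases e <;> cases e' <;>
        simp only [K, cc, ng, if_true, Bool.false_eq_true, if_false, and_true, and_false,
          not_false_eq_true, reduceCtorEq] at hd hdiff hex <;> omega

end exist

/-! ### equidistribution -/

theorem card_le {n : ℕ} (o o' : Bool) (D : Finset ℕ) :
    (Finset.univ.filter (fun w : SI n => Des o w ⊆ D)).card ≤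
      (Finset.univ.filter (fun w : SI n => Des o' w ⊆ D)).card := by
  have hex : ∀ w : SI n, Des o w ⊆ D → ∃ w' : SI n, Des o' w' ⊆ D ∧ SameM D w w' := by
    intro w hw
    exact exists_sorted o' D w (sorted_of_des hw).2
  choose! F hF1 hF2 using hex
  apply Finset.card_le_card_of_injOn F
  · intro w hw
    have := (Finset.mem_filter.1 (Finset.mem_coe.1 hw)).2
    exact Finset.mem_coe.2 (Finset.mem_filter.2 ⟨Finset.mem_univ _, hF1 w this⟩)
  · intro w hw v hv hwv
    have h1 := (Finset.mem_filter.1 (Finset.mem_coe.1 hw)).2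
    have h2 := (Finset.mem_filter.1 (Finset.mem_coe.1 hv)).2
    apply unique (sorted_of_des h1) (sorted_of_des h2)
    intro i e j
    rw [hF2 w h1 i e j, hwv, ← hF2 v h2 i e j]

theorem card_sub_eq {n : ℕ} (D : Finset ℕ) :
    (Finset.univ.filter (fun w : SI n => Des true w ⊆ D)).card =
      (Finset.univ.filter (fun w : SI n => Des false w ⊆ D)).card :=
  le_antisymm (card_le _ _ D) (card_le _ _ D)

/-- the descent sets for the two orders are equidistributed -/
theorem card_des_eq {n : ℕ} (D : Finset ℕ) :
    (Finset.univ.filter (fun w : SI n => Des true w = D)).card =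
      (Finset.univ.filter (fun w : SI n => Des false w = D)).card := by
  induction D using Finset.strongInduction with
  | H D ih =>
    have h1 : ∀ o : Bool, (Finset.univ.filter (fun w : SI n => Des o w ⊆ D)).card =
        (Finset.univ.filter (fun w : SI n => Des o w = D)).card +
        ∑ E ∈ D.ssubsets, (Finset.univ.filter (fun w : SI n => Des o w = E)).card := by
      intro o
      rw [Finset.card_eq_sum_card_fiberwise (f := Des o) (t := D.powerset)]
      · rw [← Finset.insert_erase (Finset.mem_powerset_self D), Finset.sum_insert (by simp)]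
        congr 1
        · congr 1
          ext w
          simp only [Finset.mem_filter, Finset.mem_univ, true_and]
          constructor
          · exact fun h => h.2
          · exact fun h => ⟨h.subset, h⟩
        · apply Finset.sum_congr rfl
          intro E hE
          congr 1
          ext w
          simp only [Finset.mem_filter, Finset.mem_univ, true_and]
          have hE' := Finset.mem_ssubsets.1 hE
          constructor
          · exact fun h => h.2
          · exact fun h => ⟨h.subset.trans hE'.subset, h⟩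
      · intro w hw
        exact Finset.mem_coe.2 (Finset.mem_powerset.2 (Finset.mem_filter.1 (Finset.mem_coe.1 hw)).2)
    have h2 := card_sub_eq (n := n) D
    rw [h1, h1] at h2
    have h3 : ∑ E ∈ D.ssubsets, (Finset.univ.filter (fun w : SI n => Des true w = E)).card =
        ∑ E ∈ D.ssubsets, (Finset.univ.filter (fun w : SI n => Des false w = E)).card :=
      Finset.sum_congr rfl (fun E hE => ih E (Finset.mem_ssubsets.1 hE))
    omega

/-- any function of the descent set has the same sum -/
theorem sum_des_eq {n : ℕ} {M : Type} [AddCommMonoid M] (g : Finset ℕ → M) :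
    ∑ w : SI n, g (Des true w) = ∑ w : SI n, g (Des false w) := by
  have h : ∀ o : Bool, ∑ w : SI n, g (Des o w) = ∑ D ∈ (Finset.range n).powerset,
      (Finset.univ.filter (fun w : SI n => Des o w = D)).card • g D := by
    intro o
    rw [← Finset.sum_fiberwise_of_maps_to (s := Finset.univ) (t := (Finset.range n).powerset)
      (g := Des o) (f := fun w => g (Des o w))]
    · apply Finset.sum_congr rfl
      intro D _
      rw [← Finset.sum_const]
      apply Finset.sum_congr rfl
      intro w hw
      rw [(Finset.mem_filter.1 hw).2]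
    · intro w _
      rw [Finset.mem_powerset]
      exact Finset.filter_subset _ _
  rw [h, h]
  exact Finset.sum_congr rfl (fun D _ => by rw [card_des_eq])

end Q166.BInv
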