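import Pool.Agent.Q166.CycU

/-!
# 321-avoiding permutations with cycles of length at most three: lower bound

A permutation is built from left to right.  At time `t` the state is a permutation `f` of
`{0, ..., t-1}` together with a list of pending cycles `(g, e)`: `g` is still waiting for its
preimage, `e` for its image.
-/

namespace Q166.CycL

open Q166.CycU (Cyc)

/-- the state of the construction at time `t` -/
structure Inv (t : ℕ) (f : ℕ → ℕ) (L : List (ℕ × ℕ)) : Prop where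
  ge : ∀ x, t ≤ x → f x = x
  lt : ∀ x, x < t → f x < t
  inj : Function.Injective f
  cyc : Cyc f
  pr : ∀ g e, (g, e) ∈ L → f e = g ∧ f g = e ∧ g < t ∧ e < t
  up : ∀ x y, x < y → y < t → (∀ g, (g, x) ∉ L) → (∀ g, (g, y) ∉ L) → x < f x → y < f y →
    f x < f y
  lo : ∀ x y, x < y → y < t → (∀ g, (g, x) ∉ L) → (∀ g, (g, y) ∉ L) → f x ≤ x → f y ≤ y →
    f x < f y
  upE : ∀ x, x < t → (∀ g, (g, x) ∉ L) → x < f x → ∀ g e, (g, e) ∈ L → x < e
  loG : ∀ x, x < t → (∀ g, (g, x) ∉ L) → f x ≤ x → ∀ g e, (g, e) ∈ L → f x < g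

/-- `p` is a completion of the state -/
structure Ext (t : ℕ) (f : ℕ → ℕ) (L : List (ℕ × ℕ)) (p : ℕ → ℕ) : Prop where
  inj : Function.Injective p
  done : ∀ x, x < t → (∀ g, (g, x) ∉ L) → p x = f x
  pe : ∀ g e, (g, e) ∈ L → t ≤ p e
  pg : ∀ g e, (g, e) ∈ L → ∀ x, p x = g → t ≤ x

/-- no occurrence of 321 -/
def Av (f : ℕ → ℕ) : Prop := ∀ i j k, i < j → j < k → ¬ (f k < f j ∧ f j < f i)

/-- the finished permutations -/
structure Y (n : ℕ) (f : ℕ → ℕ) : Prop where
  lt : ∀ x, x < n → f x < n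
  ge : ∀ x, n ≤ x → f x = x
  inj : Function.Injective f
  av : Av f
  cyc : Cyc f

/-- insertion of `t` after `e` in its cycle -/
def nf (f : ℕ → ℕ) (e g t : ℕ) : ℕ → ℕ := fun x => if x = e then t else if x = t then g else f x

section
variable {t e g : ℕ} {f : ℕ → ℕ}

theorem nf_e : nf f e g t e = t := by simp [nf]

theorem nf_t (h : e < t) : nf f e g t t = g := by
  have : t ≠ e := by omega
  simp [nf, this]

theorem nf_o {x : ℕ} (h1 : x ≠ e) (h2 : x ≠ t) : nf f e g t x = f x := by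
  simp [nf, h1, h2]

variable (hge : ∀ x, t ≤ x → f x = x) (hlt : ∀ x, x < t → f x < t) (hinj : Function.Injective f)
  (hcyc : Cyc f) (he : f e = g) (hg : f g = e) (het : e < t) (hgt : g < t)

include hge het in
theorem nf_ge (x : ℕ) (hx : t + 1 ≤ x) : nf f e g t x = x := by
  rw [nf_o (by omega) (by omega)]; exact hge x (by omega)

include hlt hgt in
theorem nf_lt (x : ℕ) (hx : x < t + 1) : nf f e g t x < t + 1 := by
  unfold nf
  split_ifs with h1 h2
  · omega
  · omega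
  · have := hlt x (by omega); omega

include hge hinj he hgt in
theorem nf_inj : Function.Injective (nf f e g t) := by
  have ht := hge t le_rfl
  have k1 : ∀ x, x ≠ e → x ≠ t → f x ≠ t := fun x _ h2 h => h2 (hinj (h.trans ht.symm))
  have k2 : ∀ x, x ≠ e → x ≠ t → f x ≠ g := fun x h1 _ h => h1 (hinj (h.trans he.symm))
  intro x y hxy
  unfold nf at hxy
  split_ifs at hxy with h1 h2 h3 h4 h5 h6
  · omega
  · omega
  · exact absurd hxy.symm (k1 y h2 h3)
  · omega
  · omega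
  · exact absurd hxy.symm (k2 y h5 h6)
  · exact absurd hxy (k1 x h1 h4)
  · exact absurd hxy (k2 x h1 h4)
  · exact hinj hxy

include hge hinj hcyc he hg het hgt in
theorem nf_cyc : Cyc (nf f e g t) := by
  have ht := hge t le_rfl
  have ve : nf f e g t e = t := nf_e
  have vt : nf f e g t t = g := nf_t het
  intro x
  by_cases h1 : x = e
  · subst h1
    rw [ve, vt]
    by_cases hgx : g = x
    · right; left; exact hgx
    · right; right; rw [nf_o hgx (by omega)]; exact hg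
  by_cases h2 : x = t
  · subst h2
    rw [vt]
    by_cases hge' : g = e
    · right; left; rw [hge', nf_e]
    · right; right; rw [nf_o hge' (by omega), hg, ve]
  by_cases h3 : x = g
  · subst h3
    rw [nf_o h1 h2, hg, ve, vt]
    right; right; rfl
  have k : ∀ y, y ≠ e → y ≠ t → y ≠ g → f y ≠ e ∧ f y ≠ t ∧ f y ≠ g := by
    intro y a b c
    exact ⟨fun h => c (hinj (h.trans hg.symm)), fun h => b (hinj (h.trans ht.symm)),
      fun h => a (hinj (h.trans he.symm))⟩
  obtain ⟨a1, a2, a3⟩ := k x h1 h2 h3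
  obtain ⟨b1, b2, b3⟩ := k _ a1 a2 a3
  rw [nf_o h1 h2, nf_o a1 a2, nf_o b1 b2]
  exact hcyc x

end

theorem Inv.stepF {t : ℕ} {f : ℕ → ℕ} (h : Inv t f []) : Inv (t + 1) f [] where
  ge x hx := h.ge x (by omega)
  lt x hx := by
    rcases Nat.eq_or_lt_of_le (Nat.le_of_lt_succ hx) with rfl | hx
    · rw [h.ge x le_rfl]; omega
    · have := h.lt x hx; omega
  inj := h.inj
  cyc := h.cyc
  pr := by simp
  up x y hxy hy _ _ h1 h2 := by
    rcases Nat.eq_or_lt_of_le (Nat.le_of_lt_succ hy) with rfl | hy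
    · rw [h.ge y le_rfl] at h2; omega
    · exact h.up x y hxy hy (by simp) (by simp) h1 h2
  lo x y hxy hy _ _ h1 h2 := by
    rcases Nat.eq_or_lt_of_le (Nat.le_of_lt_succ hy) with rfl | hy
    · rw [h.ge y le_rfl]; have := h.lt x hxy; omega
    · exact h.lo x y hxy hy (by simp) (by simp) h1 h2
  upE := by simp
  loG := by simp

theorem Ext.stepF {t : ℕ} {f p : ℕ → ℕ} (h : Inv t f []) (hp : Ext (t + 1) f [] p) :
    Ext t f [] p ∧ p t = t := by
  refine ⟨⟨hp.inj, fun x hx _ => hp.done x (by omega) (by simp), by simp, by simp⟩, ?_⟩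
  rw [hp.done t (by omega) (by simp), h.ge t le_rfl]

theorem Inv.stepO {t : ℕ} {f : ℕ → ℕ} {L L' : List (ℕ × ℕ)} (h : Inv t f L)
    (h1 : ∀ q ∈ L', q ∈ L ∨ q = (t, t)) (h2 : ∀ q ∈ L, q ∈ L') (h3 : (t, t) ∈ L') :
    Inv (t + 1) f L' := by
  have hn : ∀ x, (∀ g, (g, x) ∉ L') → (∀ g, (g, x) ∉ L) ∧ x ≠ t := by
    intro x hx
    refine ⟨fun g hg => hx g (h2 _ hg), ?_⟩
    rintro rfl
    exact hx _ h3
  refine ⟨fun x hx => h.ge x (by omega), ?_, h.inj, h.cyc, ?_, ?_, ?_, ?_, ?_⟩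
  · intro x hx
    rcases Nat.eq_or_lt_of_le (Nat.le_of_lt_succ hx) with rfl | hx
    · rw [h.ge x le_rfl]; omega
    · have := h.lt x hx; omega
  · intro g e hge
    rcases h1 _ hge with h4 | h4
    · obtain ⟨a, b, c, d⟩ := h.pr g e h4
      exact ⟨a, b, by omega, by omega⟩
    · rw [Prod.mk.injEq] at h4
      obtain ⟨rfl, rfl⟩ := h4
      exact ⟨h.ge _ le_rfl, h.ge _ le_rfl, by omega, by omega⟩
  · intro x y hxy hy hx' hy' h4 h5
    obtain ⟨a1, a2⟩ := hn x hx'
    obtain ⟨b1, b2⟩ := hn y hy'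
    exact h.up x y hxy (by omega) a1 b1 h4 h5
  · intro x y hxy hy hx' hy' h4 h5
    obtain ⟨a1, a2⟩ := hn x hx'
    obtain ⟨b1, b2⟩ := hn y hy'
    exact h.lo x y hxy (by omega) a1 b1 h4 h5
  · intro x hx hx' h4 g e hge
    obtain ⟨a1, a2⟩ := hn x hx'
    rcases h1 _ hge with h5 | h5
    · exact h.upE x (by omega) a1 h4 g e h5
    · rw [Prod.mk.injEq] at h5
      omega
  · intro x hx hx' h4 g e hge
    obtain ⟨a1, a2⟩ := hn x hx'
    rcases h1 _ hge with h5 | h5
    · exact h.loG x (by omega) a1 h4 g e h5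
    · rw [Prod.mk.injEq] at h5
      omega

theorem Ext.stepO {t : ℕ} {f p : ℕ → ℕ} {L L' : List (ℕ × ℕ)}
    (h1 : ∀ q ∈ L', q ∈ L ∨ q = (t, t)) (h2 : ∀ q ∈ L, q ∈ L') (h3 : (t, t) ∈ L')
    (hp : Ext (t + 1) f L' p) :
    Ext t f L p ∧ (t < p t ∧ ∀ x, p x = t → t < x) := by
  refine ⟨⟨hp.inj, ?_, ?_, ?_⟩, ?_, ?_⟩
  · intro x hx hx'
    refine hp.done x (by omega) fun g hg => ?_
    rcases h1 _ hg with h4 | h4
    · exact hx' g h4
    · rw [Prod.mk.injEq] at h4; omega
  · intro g e hge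
    have := hp.pe g e (h2 _ hge)
    omega
  · intro g e hge x hx
    have := hp.pg g e (h2 _ hge) x hx
    omega
  · have := hp.pe t t h3; omega
  · intro x hx
    have := hp.pg t t h3 x hx
    omega

theorem Inv.stepC {t g e : ℕ} {f : ℕ → ℕ} {L L' : List (ℕ × ℕ)} (h : Inv t f L)
    (hm : (g, e) ∈ L) (h1 : ∀ q ∈ L', q ∈ L ∧ g < q.1 ∧ e < q.2)
    (h2 : ∀ q ∈ L, q = (g, e) ∨ q ∈ L') :
    Inv (t + 1) (nf f e g t) L' := by
  obtain ⟨he, hg, hgt, het⟩ := h.pr g e hm
  have ve : nf f e g t e = t := nf_e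
  have vt : nf f e g t t = g := nf_t het
  have hn : ∀ x, x ≠ e → (∀ g, (g, x) ∉ L') → (∀ g, (g, x) ∉ L) := by
    intro x hxe hx g' hg'
    rcases h2 _ hg' with h4 | h4
    · rw [Prod.mk.injEq] at h4; exact hxe h4.2
    · exact hx g' h4
  refine ⟨nf_ge h.ge het, nf_lt h.lt hgt, nf_inj h.ge h.inj he hgt,
    nf_cyc h.ge h.inj h.cyc he hg het hgt, ?_, ?_, ?_, ?_, ?_⟩
  · intro g' e' hge
    obtain ⟨a, b, c⟩ := h1 _ hge
    obtain ⟨d1, d2, d3, d4⟩ := h.pr g' e' a
    simp only at b c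
    have hne : g' ≠ e := by
      intro hcon
      rw [hcon, he] at d2
      omega
    rw [nf_o (by omega) (by omega), nf_o hne (by omega)]
    exact ⟨d1, d2, by omega, by omega⟩
  · intro x y hxy hy hx' hy' h4 h5
    have hyt : y ≠ t := by rintro rfl; rw [vt] at h5; omega
    by_cases hxe : x = e
    · subst hxe
      rw [nf_o (by omega) hyt] at h5
      have := h.upE y (by omega) (hn y (by omega) hy') h5 g x hm
      omega
    · rw [nf_o hxe (by omega)] at h4 ⊢
      by_cases hye : y = e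
      · subst hye
        rw [ve]
        exact h.lt x (by omega)
      · rw [nf_o hye hyt] at h5 ⊢
        exact h.up x y hxy (by omega) (hn x hxe hx') (hn y hye hy') h4 h5
  · intro x y hxy hy hx' hy' h4 h5
    have hxe : x ≠ e := by rintro rfl; rw [ve] at h4; omega
    have hye : y ≠ e := by rintro rfl; rw [ve] at h5; omega
    rw [nf_o hxe (by omega)] at h4 ⊢
    by_cases hyt : y = t
    · subst hyt
      rw [vt]
      exact h.loG x hxy (hn x hxe hx') h4 g e hm
    · rw [nf_o hye hyt] at h5 ⊢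
      exact h.lo x y hxy (by omega) (hn x hxe hx') (hn y hye hy') h4 h5
  · intro x hx hx' h4 g' e' hge
    obtain ⟨a, b, c⟩ := h1 _ hge
    simp only at b c
    have hxt : x ≠ t := by rintro rfl; rw [vt] at h4; omega
    by_cases hxe : x = e
    · omega
    · rw [nf_o hxe hxt] at h4
      exact h.upE x (by omega) (hn x hxe hx') h4 g' e' a
  · intro x hx hx' h4 g' e' hge
    obtain ⟨a, b, c⟩ := h1 _ hge
    simp only at b c
    have hxe : x ≠ e := by rintro rfl; rw [ve] at h4; omega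
    by_cases hxt : x = t
    · subst hxt; rw [vt]; exact b
    · rw [nf_o hxe hxt] at h4 ⊢
      exact h.loG x (by omega) (hn x hxe hx') h4 g' e' a

theorem Ext.stepC {t g e : ℕ} {f p : ℕ → ℕ} {L L' : List (ℕ × ℕ)} (h : Inv t f L)
    (hm : (g, e) ∈ L) (h1 : ∀ q ∈ L', q ∈ L ∧ g < q.1 ∧ e < q.2)
    (h2 : ∀ q ∈ L, q = (g, e) ∨ q ∈ L') (hp : Ext (t + 1) (nf f e g t) L' p) :
    Ext t f L p ∧ (p t < t ∧ ∃ x, x < t ∧ p x = t) := by
  obtain ⟨he, hg, hgt, het⟩ := h.pr g e hm
  have pt : p t = g := by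
    rw [hp.done t (by omega) fun g' hg' => ?_, nf_t het]
    have := (h.pr _ _ (h1 _ hg').1).2.2.2
    omega
  have pe : p e = t := by
    rw [hp.done e (by omega) fun g' hg' => ?_, nf_e]
    have := (h1 _ hg').2.2
    simp only at this
    omega
  refine ⟨⟨hp.inj, ?_, ?_, ?_⟩, ?_, ?_⟩
  · intro x hx hx'
    have hxe : x ≠ e := by rintro rfl; exact hx' _ hm
    rw [hp.done x (by omega) fun g' hg' => hx' g' (h1 _ hg').1, nf_o hxe (by omega)]
  · intro g' e' hge
    rcases h2 _ hge with h4 | h4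
    · rw [Prod.mk.injEq] at h4
      rw [h4.2, pe]
    · have := hp.pe g' e' h4; omega
  · intro g' e' hge x hx
    rcases h2 _ hge with h4 | h4
    · rw [Prod.mk.injEq] at h4
      have : x = t := hp.inj (by rw [hx, pt, h4.1])
      omega
    · have := hp.pg g' e' h4 x hx; omega
  · rw [pt]; exact hgt
  · exact ⟨e, het, pe⟩

theorem Inv.stepU {t s : ℕ} {f : ℕ → ℕ} {L L' : List (ℕ × ℕ)} (h : Inv t f L)
    (hm : (s, s) ∈ L) (h1 : ∀ q ∈ L', q = (s, t) ∨ (q ∈ L ∧ s < q.2))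
    (h2 : ∀ q ∈ L, q = (s, s) ∨ q ∈ L') (h3 : (s, t) ∈ L') :
    Inv (t + 1) (nf f s s t) L' := by
  obtain ⟨hs, -, hst, -⟩ := h.pr s s hm
  have ve : nf f s s t s = t := nf_e
  have vt : nf f s s t t = s := nf_t hst
  have hn : ∀ x, x ≠ s → (∀ g, (g, x) ∉ L') → (∀ g, (g, x) ∉ L) := by
    intro x hxe hx g' hg'
    rcases h2 _ hg' with h4 | h4
    · rw [Prod.mk.injEq] at h4; exact hxe h4.2
    · exact hx g' h4
  refine ⟨nf_ge h.ge hst, nf_lt h.lt hst, nf_inj h.ge h.inj hs hst,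
    nf_cyc h.ge h.inj h.cyc hs hs hst hst, ?_, ?_, ?_, ?_, ?_⟩
  · intro g' e' hge
    rcases h1 _ hge with h4 | ⟨a, c⟩
    · rw [Prod.mk.injEq] at h4
      rw [h4.1, h4.2]
      exact ⟨vt, ve, by omega, by omega⟩
    · obtain ⟨d1, d2, d3, d4⟩ := h.pr g' e' a
      simp only at c
      have hne : g' ≠ s := by
        intro hcon
        rw [hcon, hs] at d2
        omega
      rw [nf_o (by omega) (by omega), nf_o hne (by omega)]
      exact ⟨d1, d2, by omega, by omega⟩
  · intro x y hxy hy hx' hy' h4 h5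
    have hyt : y ≠ t := by rintro rfl; exact hy' _ h3
    by_cases hxe : x = s
    · subst hxe
      rw [nf_o (by omega) hyt] at h5
      have := h.upE y (by omega) (hn y (by omega) hy') h5 x x hm
      omega
    · rw [nf_o hxe (by omega)] at h4 ⊢
      by_cases hye : y = s
      · subst hye
        rw [ve]
        exact h.lt x (by omega)
      · rw [nf_o hye hyt] at h5 ⊢
        exact h.up x y hxy (by omega) (hn x hxe hx') (hn y hye hy') h4 h5
  · intro x y hxy hy hx' hy' h4 h5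
    have hyt : y ≠ t := by rintro rfl; exact hy' _ h3
    have hxe : x ≠ s := by rintro rfl; rw [ve] at h4; omega
    have hye : y ≠ s := by rintro rfl; rw [ve] at h5; omega
    rw [nf_o hxe (by omega)] at h4 ⊢
    rw [nf_o hye hyt] at h5 ⊢
    exact h.lo x y hxy (by omega) (hn x hxe hx') (hn y hye hy') h4 h5
  · intro x hx hx' h4 g' e' hge
    have hxt : x ≠ t := by rintro rfl; exact hx' _ h3
    rcases h1 _ hge with h5 | ⟨a, c⟩
    · rw [Prod.mk.injEq] at h5
      omega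
    · simp only at c
      by_cases hxe : x = s
      · omega
      · rw [nf_o hxe hxt] at h4
        exact h.upE x (by omega) (hn x hxe hx') h4 g' e' a
  · intro x hx hx' h4 g' e' hge
    have hxt : x ≠ t := by rintro rfl; exact hx' _ h3
    have hxe : x ≠ s := by rintro rfl; rw [ve] at h4; omega
    rw [nf_o hxe hxt] at h4 ⊢
    rcases h1 _ hge with h5 | ⟨a, c⟩
    · rw [Prod.mk.injEq] at h5
      have := h.loG x (by omega) (hn x hxe hx') h4 s s hm
      omega
    · exact h.loG x (by omega) (hn x hxe hx') h4 g' e' a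

theorem Ext.stepU {t s : ℕ} {f p : ℕ → ℕ} {L L' : List (ℕ × ℕ)} (h : Inv t f L)
    (hm : (s, s) ∈ L) (h1 : ∀ q ∈ L', q = (s, t) ∨ (q ∈ L ∧ s < q.2))
    (h2 : ∀ q ∈ L, q = (s, s) ∨ q ∈ L') (h3 : (s, t) ∈ L')
    (hp : Ext (t + 1) (nf f s s t) L' p) :
    Ext t f L p ∧ (t < p t ∧ ∃ x, x < t ∧ p x = t) := by
  obtain ⟨hs, -, hst, -⟩ := h.pr s s hm
  have ps : p s = t := by
    rw [hp.done s (by omega) fun g' hg' => ?_, nf_e]
    rcases h1 _ hg' with h4 | ⟨a, c⟩
    · rw [Prod.mk.injEq] at h4; omega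
    · simp only at c; omega
  refine ⟨⟨hp.inj, ?_, ?_, ?_⟩, ?_, ?_⟩
  · intro x hx hx'
    have hxe : x ≠ s := by rintro rfl; exact hx' _ hm
    rw [hp.done x (by omega) fun g' hg' => ?_, nf_o hxe (by omega)]
    rcases h1 _ hg' with h4 | ⟨a, c⟩
    · rw [Prod.mk.injEq] at h4; omega
    · exact hx' g' a
  · intro g' e' hge
    rcases h2 _ hge with h4 | h4
    · rw [Prod.mk.injEq] at h4
      rw [h4.2, ps]
    · have := hp.pe g' e' h4; omega
  · intro g' e' hge x hx
    rcases h2 _ hge with h4 | h4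
    · rw [Prod.mk.injEq] at h4
      have := hp.pg s t h3 x (by rw [hx, h4.1])
      omega
    · have := hp.pg g' e' h4 x hx; omega
  · have := hp.pe s t h3; omega
  · exact ⟨s, hst, ps⟩

theorem Inv.stepL {t s : ℕ} {f : ℕ → ℕ} {L L' : List (ℕ × ℕ)} (h : Inv t f L)
    (hm : (s, s) ∈ L) (h1 : ∀ q ∈ L', q = (t, s) ∨ (q ∈ L ∧ s < q.1))
    (h2 : ∀ q ∈ L, q = (s, s) ∨ q ∈ L') (h3 : (t, s) ∈ L') :
    Inv (t + 1) (nf f s s t) L' := by
  obtain ⟨hs, -, hst, -⟩ := h.pr s s hm
  have ve : nf f s s t s = t := nf_e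
  have vt : nf f s s t t = s := nf_t hst
  have hn : ∀ x, (∀ g, (g, x) ∉ L') → (∀ g, (g, x) ∉ L) ∧ x ≠ s := by
    intro x hx
    refine ⟨fun g' hg' => ?_, fun h => hx t (by rw [h]; exact h3)⟩
    rcases h2 _ hg' with h4 | h4
    · rw [Prod.mk.injEq] at h4; rw [h4.2] at hx; exact hx _ h3
    · exact hx g' h4
  refine ⟨nf_ge h.ge hst, nf_lt h.lt hst, nf_inj h.ge h.inj hs hst,
    nf_cyc h.ge h.inj h.cyc hs hs hst hst, ?_, ?_, ?_, ?_, ?_⟩
  · intro g' e' hge
    rcases h1 _ hge with h4 | ⟨a, c⟩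
    · rw [Prod.mk.injEq] at h4
      rw [h4.1, h4.2]
      exact ⟨ve, vt, by omega, by omega⟩
    · obtain ⟨d1, d2, d3, d4⟩ := h.pr g' e' a
      simp only at c
      have hne : e' ≠ s := by
        intro hcon
        rw [hcon, hs] at d1
        omega
      rw [nf_o hne (by omega), nf_o (by omega) (by omega)]
      exact ⟨d1, d2, by omega, by omega⟩
  · intro x y hxy hy hx' hy' h4 h5
    obtain ⟨a1, a2⟩ := hn x hx'
    obtain ⟨b1, b2⟩ := hn y hy'
    have hyt : y ≠ t := by rintro rfl; rw [vt] at h5; omega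
    rw [nf_o a2 (by omega)] at h4 ⊢
    rw [nf_o b2 hyt] at h5 ⊢
    exact h.up x y hxy (by omega) a1 b1 h4 h5
  · intro x y hxy hy hx' hy' h4 h5
    obtain ⟨a1, a2⟩ := hn x hx'
    obtain ⟨b1, b2⟩ := hn y hy'
    rw [nf_o a2 (by omega)] at h4 ⊢
    by_cases hyt : y = t
    · subst hyt
      rw [vt]
      exact h.loG x hxy a1 h4 s s hm
    · rw [nf_o b2 hyt] at h5 ⊢
      exact h.lo x y hxy (by omega) a1 b1 h4 h5
  · intro x hx hx' h4 g' e' hge
    obtain ⟨a1, a2⟩ := hn x hx'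
    have hxt : x ≠ t := by rintro rfl; rw [vt] at h4; omega
    rw [nf_o a2 hxt] at h4
    rcases h1 _ hge with h5 | ⟨a, c⟩
    · rw [Prod.mk.injEq] at h5
      have := h.upE x (by omega) a1 h4 s s hm
      omega
    · exact h.upE x (by omega) a1 h4 g' e' a
  · intro x hx hx' h4 g' e' hge
    obtain ⟨a1, a2⟩ := hn x hx'
    by_cases hxt : x = t
    · subst hxt
      rw [vt]
      rcases h1 _ hge with h5 | ⟨a, c⟩
      · rw [Prod.mk.injEq] at h5; omega
      · exact c
    · rw [nf_o a2 hxt] at h4 ⊢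
      rcases h1 _ hge with h5 | ⟨a, c⟩
      · rw [Prod.mk.injEq] at h5
        have := h.lt x (by omega)
        omega
      · exact h.loG x (by omega) a1 h4 g' e' a

theorem Ext.stepL {t s : ℕ} {f p : ℕ → ℕ} {L L' : List (ℕ × ℕ)} (h : Inv t f L)
    (hm : (s, s) ∈ L) (h1 : ∀ q ∈ L', q = (t, s) ∨ (q ∈ L ∧ s < q.1))
    (h2 : ∀ q ∈ L, q = (s, s) ∨ q ∈ L') (h3 : (t, s) ∈ L')
    (hp : Ext (t + 1) (nf f s s t) L' p) :
    Ext t f L p ∧ (p t < t ∧ ∀ x, p x = t → t < x) := by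
  obtain ⟨hs, -, hst, -⟩ := h.pr s s hm
  have pt : p t = s := by
    rw [hp.done t (by omega) fun g' hg' => ?_, nf_t hst]
    rcases h1 _ hg' with h4 | ⟨a, c⟩
    · rw [Prod.mk.injEq] at h4; omega
    · have := (h.pr _ _ a).2.2.2
      omega
  refine ⟨⟨hp.inj, ?_, ?_, ?_⟩, ?_, ?_⟩
  · intro x hx hx'
    have hxe : x ≠ s := by rintro rfl; exact hx' _ hm
    rw [hp.done x (by omega) fun g' hg' => ?_, nf_o hxe (by omega)]
    rcases h1 _ hg' with h4 | ⟨a, c⟩
    · rw [Prod.mk.injEq] at h4; omega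
    · exact hx' g' a
  · intro g' e' hge
    rcases h2 _ hge with h4 | h4
    · rw [Prod.mk.injEq] at h4
      have := hp.pe t s h3
      rw [h4.2]; omega
    · have := hp.pe g' e' h4; omega
  · intro g' e' hge x hx
    rcases h2 _ hge with h4 | h4
    · rw [Prod.mk.injEq] at h4
      have : x = t := hp.inj (by rw [hx, pt, h4.1])
      omega
    · have := hp.pg g' e' h4 x hx; omega
  · rw [pt]; exact hst
  · intro x hx
    have := hp.pg t s h3 x hx
    omega

theorem Inv.final {t : ℕ} {f : ℕ → ℕ} (h : Inv t f []) : Y t f ∧ Ext t f [] f := by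
  refine ⟨⟨h.lt, h.ge, h.inj, ?_, h.cyc⟩, ⟨h.inj, fun _ _ _ => rfl, by simp, by simp⟩⟩
  intro i j k hij hjk
  rintro ⟨h1, h2⟩
  have hk : k < t := by
    by_contra hcon
    rw [h.ge k (by omega)] at h1
    by_cases hj : j < t
    · have := h.lt j hj; omega
    · rw [h.ge j (by omega)] at h1; omega
  have cases : ∀ x, x < f x ∨ f x ≤ x := fun x => by omega
  rcases cases i with a | a <;> rcases cases j with b | b <;> rcases cases k with c | c
  · have := h.up i j hij (by omega) (by simp) (by simp) a b; omega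
  · have := h.up i j hij (by omega) (by simp) (by simp) a b; omega
  · have := h.up i k (by omega) (by omega) (by simp) (by simp) a c; omega
  · have := h.lo j k hjk (by omega) (by simp) (by simp) b c; omega
  · have := h.up j k hjk (by omega) (by simp) (by simp) b c; omega
  · have := h.lo i k (by omega) (by omega) (by simp) (by simp) a c; omega
  · have := h.lo i j hij (by omega) (by simp) (by simp) a b; omega
  · have := h.lo i j hij (by omega) (by simp) (by simp) a b; omega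

end Q166.CycL
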