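import Pool.Agent.Q166.CycL

/-!
# Counting the words of the construction
-/

namespace Q166.CycL

/-- a set of functions with `k` elements, all satisfying `p` -/
def Has (p : (ℕ → ℕ) → Prop) (k : ℕ) : Prop := ∃ S : Finset (ℕ → ℕ), S.card = k ∧ ∀ x ∈ S, p x

theorem Has.mono {p q : (ℕ → ℕ) → Prop} {k : ℕ} (h : Has p k) (hpq : ∀ x, p x → q x) :
    Has q k := by
  obtain ⟨S, h1, h2⟩ := h
  exact ⟨S, h1, fun x hx => hpq x (h2 x hx)⟩

theorem Has.zero (p : (ℕ → ℕ) → Prop) : Has p 0 := ⟨∅, by simp, by simp⟩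

open Classical in
theorem Has.add {p1 p2 : (ℕ → ℕ) → Prop} {k1 k2 : ℕ} (h1 : Has p1 k1) (h2 : Has p2 k2)
    (hd : ∀ x, p1 x → p2 x → False) : Has (fun x => p1 x ∨ p2 x) (k1 + k2) := by
  obtain ⟨S, a1, a2⟩ := h1
  obtain ⟨T, b1, b2⟩ := h2
  refine ⟨S ∪ T, ?_, ?_⟩
  · rw [Finset.card_union_of_disjoint, a1, b1]
    rw [Finset.disjoint_left]
    intro x hx hx'
    exact hd x (a2 x hx) (b2 x hx')
  · intro x hx
    rcases Finset.mem_union.1 hx with h | h
    · exact Or.inl (a2 x h)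
    · exact Or.inr (b2 x h)

theorem five {t : ℕ} {A : (ℕ → ℕ) → Prop} {k1 k2 k3 k4 k5 : ℕ}
    (h1 : Has (fun p => A p ∧ p t = t) k1)
    (h2 : Has (fun p => A p ∧ (t < p t ∧ ∀ x, p x = t → t < x)) k2)
    (h3 : Has (fun p => A p ∧ (p t < t ∧ ∃ x, x < t ∧ p x = t)) k3)
    (h4 : Has (fun p => A p ∧ (t < p t ∧ ∃ x, x < t ∧ p x = t)) k4)
    (h5 : Has (fun p => A p ∧ (p t < t ∧ ∀ x, p x = t → t < x)) k5) :
    Has A (k1 + k2 + k3 + k4 + k5) := by
  refine Has.mono (Has.add (Has.add (Has.add (Has.add h1 h2 ?_) h3 ?_) h4 ?_) h5 ?_) ?_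
  · rintro p ⟨-, a⟩ ⟨-, b, -⟩
    omega
  · rintro p (⟨-, a⟩ | ⟨-, a, -⟩) ⟨-, b, -⟩ <;> omega
  · rintro p ((⟨-, a⟩ | ⟨-, a, a'⟩) | ⟨-, a, -⟩) ⟨-, b, x, hx, hx'⟩
    · omega
    · have := a' x hx'; omega
    · omega
  · rintro p (((⟨-, a⟩ | ⟨-, a, -⟩) | ⟨-, a, x, hx, hx'⟩) | ⟨-, a, -⟩) ⟨-, b, b'⟩
    · omega
    · omega
    · have := b' x hx'; omega
    · omega
  · rintro p ((((⟨h, -⟩ | ⟨h, -⟩) | ⟨h, -⟩) | ⟨h, -⟩) | ⟨h, -⟩) <;> exact h

/-- number of words of length `n` leading to the empty state, from the state with `a` rotated and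
`b` unrotated pending cycles; the flag says that a rotation is in progress -/
def c : ℕ → Bool → ℕ → ℕ → ℕ
  | 0, m, a, b => if m = false ∧ a = 0 ∧ b = 0 then 1 else 0
  | n + 1, false, a, b =>
    (if a = 0 ∧ b = 0 then c n false 0 0 else 0) + (if a + b < 4 then c n false a (b + 1) else 0)
      + (if 0 < a then c n false (a - 1) b else if 0 < b then c n false 0 (b - 1) else 0)
      + (if a = 0 ∧ b = 1 then c n false 1 0 else if a = 0 ∧ 1 < b then c n true 1 (b - 1) else 0)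
      + (if a = 0 ∧ b = 1 then c n false 1 0 else if a = 0 ∧ 1 < b then c n true 1 (b - 1) else 0)
  | n + 1, true, a, b =>
    if b = 0 then 0 else if b = 1 then c n false (a + 1) 0 else c n true (a + 1) (b - 1)

/-- increasing in both coordinates -/
def W (L : List (ℕ × ℕ)) : Prop := L.Pairwise (fun p q => p.1 < q.1 ∧ p.2 < q.2)

theorem W_snoc {L : List (ℕ × ℕ)} {q : ℕ × ℕ} (h : W L) (hq : ∀ p ∈ L, p.1 < q.1 ∧ p.2 < q.2) :
    W (L ++ [q]) := by
  unfold W at *
  rw [List.pairwise_append]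
  refine ⟨h, by simp, ?_⟩
  intro a ha b hb
  rw [List.mem_singleton] at hb
  subst hb
  exact hq a ha

/-- the induction hypotheses -/
structure Main (n : ℕ) : Prop where
  normal : ∀ (t : ℕ) (f : ℕ → ℕ) (P Q : List (ℕ × ℕ)), Inv t f (P ++ Q) → W (P ++ Q) →
    (∀ q ∈ Q, q.1 = q.2) → P.length + Q.length ≤ 4 →
    Has (fun p => Ext t f (P ++ Q) p ∧ Y (t + n) p) (c n false P.length Q.length)
  upper : ∀ (t : ℕ) (f : ℕ → ℕ) (P : List (ℕ × ℕ)) (s : ℕ) (Q : List (ℕ × ℕ)),
    Inv t f (P ++ (s, s) :: Q) → W P → W ((s, s) :: Q) →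
    (∀ p ∈ P, ∀ q ∈ (s, s) :: Q, p.1 < q.1 ∧ q.2 < p.2) → (∀ q ∈ Q, q.1 = q.2) →
    P.length + (Q.length + 1) ≤ 4 →
    Has (fun p => Ext t f (P ++ (s, s) :: Q) p ∧ Y (t + n) p) (c n true P.length (Q.length + 1))
  lower : ∀ (t : ℕ) (f : ℕ → ℕ) (P : List (ℕ × ℕ)) (s : ℕ) (Q : List (ℕ × ℕ)),
    Inv t f (P ++ (s, s) :: Q) → W P → W ((s, s) :: Q) →
    (∀ p ∈ P, ∀ q ∈ (s, s) :: Q, q.1 < p.1 ∧ p.2 < q.2) → (∀ q ∈ Q, q.1 = q.2) →
    P.length + (Q.length + 1) ≤ 4 →
    Has (fun p => Ext t f (P ++ (s, s) :: Q) p ∧ Y (t + n) p) (c n true P.length (Q.length + 1))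

/-- one step of an upper rotation -/
theorem rotU {n t : ℕ} {f : ℕ → ℕ} {P Q : List (ℕ × ℕ)} {s : ℕ} (ih : Main n)
    (h : Inv t f (P ++ (s, s) :: Q)) (hP : W P) (hQ : W ((s, s) :: Q))
    (hPQ : ∀ p ∈ P, ∀ q ∈ (s, s) :: Q, p.1 < q.1 ∧ q.2 < p.2) (hd : ∀ q ∈ Q, q.1 = q.2)
    (hl : P.length + (Q.length + 1) ≤ 4) :
    Has (fun p => (Ext t f (P ++ (s, s) :: Q) p ∧ Y (t + (n + 1)) p) ∧
      (t < p t ∧ ∃ x, x < t ∧ p x = t))
      (if Q.length = 0 then c n false (P.length + 1) 0 else c n true (P.length + 1) Q.length) := by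
  have hm : (s, s) ∈ P ++ (s, s) :: Q := by simp
  have hst : s < t := (h.pr s s hm).2.2.1
  have hQ' := List.pairwise_cons.1 hQ
  have h1 : ∀ q ∈ (P ++ [(s, t)]) ++ Q, q = (s, t) ∨ (q ∈ P ++ (s, s) :: Q ∧ s < q.2) := by
    intro q hq
    simp only [List.mem_append, List.mem_singleton] at hq
    rcases hq with (hq | hq) | hq
    · right
      exact ⟨by simp [hq], (hPQ q hq (s, s) (by simp)).2⟩
    · left; exact hq
    · right
      exact ⟨by simp [hq], (hQ'.1 q hq).2⟩
  have h2 : ∀ q ∈ P ++ (s, s) :: Q, q = (s, s) ∨ q ∈ (P ++ [(s, t)]) ++ Q := by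
    intro q hq
    simp only [List.mem_append, List.mem_cons] at hq ⊢
    tauto
  have h3 : (s, t) ∈ (P ++ [(s, t)]) ++ Q := by simp
  have hI := h.stepU hm h1 h2 h3
  have hWP : W (P ++ [(s, t)]) := by
    apply W_snoc hP
    intro p hp
    have hp2 : p.2 < t := (h.pr p.1 p.2 (by simp [hp])).2.2.2
    exact ⟨(hPQ p hp (s, s) (by simp)).1, hp2⟩
  have hext : ∀ p, Ext (t + 1) (nf f s s t) ((P ++ [(s, t)]) ++ Q) p ∧ Y (t + 1 + n) p →
      (Ext t f (P ++ (s, s) :: Q) p ∧ Y (t + (n + 1)) p) ∧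
      (t < p t ∧ ∃ x, x < t ∧ p x = t) := by
    rintro p ⟨hp, hy⟩
    obtain ⟨e1, e2⟩ := Ext.stepU h hm h1 h2 h3 hp
    rw [show t + 1 + n = t + (n + 1) by omega] at hy
    exact ⟨⟨e1, hy⟩, e2⟩
  match Q, hQ', hd, hI, hl, hPQ, hext with
  | [], _, _, hI, hl, _, hext =>
    have := ih.normal (t + 1) _ (P ++ [(s, t)]) [] hI (by simpa using hWP) (by simp)
      (by simp at hl ⊢; omega)
    simp only [List.length_append, List.length_nil, List.length_singleton] at this ⊢
    exact this.mono hext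
  | (q1, q2) :: Q, hQ', hd, hI, hl, hPQ, hext =>
    have hq : q1 = q2 := hd (q1, q2) (by simp)
    subst hq
    have := ih.upper (t + 1) _ (P ++ [(s, t)]) q1 Q hI hWP hQ'.2 ?_
      (fun q hq => hd q (by simp [hq])) (by simp at hl ⊢; omega)
    · simp only [List.length_append, List.length_cons, List.length_nil, Nat.zero_add] at this ⊢
      rw [if_neg (by omega)]
      exact this.mono hext
    · intro p hp q hq
      have hqt : q.2 < t := by
        have h5 : q ∈ (P ++ [(s, t)]) ++ (q1, q1) :: Q := by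
          rw [List.mem_append]; exact Or.inr hq
        rcases h1 q h5 with h6 | h6
        · have h7 := (hQ'.1 q hq)
          rw [h6] at h7
          simp only at h7
          omega
        · exact (h.pr q.1 q.2 h6.1).2.2.2
      rw [List.mem_append, List.mem_singleton] at hp
      rcases hp with hp | hp
      · exact hPQ p hp q (List.mem_cons_of_mem _ hq)
      · subst hp
        exact ⟨(hQ'.1 q hq).1, hqt⟩

/-- one step of a lower rotation -/
theorem rotL {n t : ℕ} {f : ℕ → ℕ} {P Q : List (ℕ × ℕ)} {s : ℕ} (ih : Main n)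
    (h : Inv t f (P ++ (s, s) :: Q)) (hP : W P) (hQ : W ((s, s) :: Q))
    (hPQ : ∀ p ∈ P, ∀ q ∈ (s, s) :: Q, q.1 < p.1 ∧ p.2 < q.2) (hd : ∀ q ∈ Q, q.1 = q.2)
    (hl : P.length + (Q.length + 1) ≤ 4) :
    Has (fun p => (Ext t f (P ++ (s, s) :: Q) p ∧ Y (t + (n + 1)) p) ∧
      (p t < t ∧ ∀ x, p x = t → t < x))
      (if Q.length = 0 then c n false (P.length + 1) 0 else c n true (P.length + 1) Q.length) := by
  have hm : (s, s) ∈ P ++ (s, s) :: Q := by simp
  have hst : s < t := (h.pr s s hm).2.2.1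
  have hQ' := List.pairwise_cons.1 hQ
  have h1 : ∀ q ∈ (P ++ [(t, s)]) ++ Q, q = (t, s) ∨ (q ∈ P ++ (s, s) :: Q ∧ s < q.1) := by
    intro q hq
    simp only [List.mem_append, List.mem_singleton] at hq
    rcases hq with (hq | hq) | hq
    · right
      exact ⟨by simp [hq], (hPQ q hq (s, s) (by simp)).1⟩
    · left; exact hq
    · right
      exact ⟨by simp [hq], (hQ'.1 q hq).1⟩
  have h2 : ∀ q ∈ P ++ (s, s) :: Q, q = (s, s) ∨ q ∈ (P ++ [(t, s)]) ++ Q := by
    intro q hq
    simp only [List.mem_append, List.mem_cons] at hq ⊢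
    tauto
  have h3 : (t, s) ∈ (P ++ [(t, s)]) ++ Q := by simp
  have hI := h.stepL hm h1 h2 h3
  have hWP : W (P ++ [(t, s)]) := by
    apply W_snoc hP
    intro p hp
    have hp2 : p.1 < t := (h.pr p.1 p.2 (by simp [hp])).2.2.1
    exact ⟨hp2, (hPQ p hp (s, s) (by simp)).2⟩
  have hext : ∀ p, Ext (t + 1) (nf f s s t) ((P ++ [(t, s)]) ++ Q) p ∧ Y (t + 1 + n) p →
      (Ext t f (P ++ (s, s) :: Q) p ∧ Y (t + (n + 1)) p) ∧
      (p t < t ∧ ∀ x, p x = t → t < x) := by
    rintro p ⟨hp, hy⟩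
    obtain ⟨e1, e2⟩ := Ext.stepL h hm h1 h2 h3 hp
    rw [show t + 1 + n = t + (n + 1) by omega] at hy
    exact ⟨⟨e1, hy⟩, e2⟩
  match Q, hQ', hd, hI, hl, hPQ, hext with
  | [], _, _, hI, hl, _, hext =>
    have := ih.normal (t + 1) _ (P ++ [(t, s)]) [] hI (by simpa using hWP) (by simp)
      (by simp at hl ⊢; omega)
    simp only [List.length_append, List.length_nil, List.length_singleton] at this ⊢
    exact this.mono hext
  | (q1, q2) :: Q, hQ', hd, hI, hl, hPQ, hext =>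
    have hq : q1 = q2 := hd (q1, q2) (by simp)
    subst hq
    have := ih.lower (t + 1) _ (P ++ [(t, s)]) q1 Q hI hWP hQ'.2 ?_
      (fun q hq => hd q (by simp [hq])) (by simp at hl ⊢; omega)
    · simp only [List.length_append, List.length_cons, List.length_nil, Nat.zero_add] at this ⊢
      rw [if_neg (by omega)]
      exact this.mono hext
    · intro p hp q hq
      have hqt : q.1 < t := by
        have h5 : q ∈ (P ++ [(t, s)]) ++ (q1, q1) :: Q := by
          rw [List.mem_append]; exact Or.inr hq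
        rcases h1 q h5 with h6 | h6
        · have h7 := (hQ'.1 q hq)
          rw [h6] at h7
          simp only at h7
          omega
        · exact (h.pr q.1 q.2 h6.1).2.2.1
      rw [List.mem_append, List.mem_singleton] at hp
      rcases hp with hp | hp
      · exact hPQ p hp q (List.mem_cons_of_mem _ hq)
      · subst hp
        exact ⟨hqt, (hQ'.1 q hq).2⟩

theorem stepO_has {n t : ℕ} {f : ℕ → ℕ} {P Q : List (ℕ × ℕ)} (ih : Main n)
    (h : Inv t f (P ++ Q)) (hW : W (P ++ Q)) (hd : ∀ q ∈ Q, q.1 = q.2) :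
    Has (fun p => (Ext t f (P ++ Q) p ∧ Y (t + (n + 1)) p) ∧
      (t < p t ∧ ∀ x, p x = t → t < x))
      (if P.length + Q.length < 4 then c n false P.length (Q.length + 1) else 0) := by
  split_ifs with hl
  · have h1 : ∀ q ∈ P ++ (Q ++ [(t, t)]), q ∈ P ++ Q ∨ q = (t, t) := by
      intro q hq
      simp only [List.mem_append, List.mem_singleton] at hq ⊢
      tauto
    have h2 : ∀ q ∈ P ++ Q, q ∈ P ++ (Q ++ [(t, t)]) := by
      intro q hq
      simp only [List.mem_append, List.mem_singleton] at hq ⊢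
      tauto
    have h3 : (t, t) ∈ P ++ (Q ++ [(t, t)]) := by simp
    have := ih.normal (t + 1) f P (Q ++ [(t, t)]) (h.stepO h1 h2 h3) ?_ ?_ (by simp; omega)
    · simp only [List.length_append, List.length_singleton] at this
      refine this.mono ?_
      rintro p ⟨hp, hy⟩
      obtain ⟨e1, e2⟩ := Ext.stepO h1 h2 h3 hp
      rw [show t + 1 + n = t + (n + 1) by omega] at hy
      exact ⟨⟨e1, hy⟩, e2⟩
    · rw [← List.append_assoc]
      apply W_snoc hW
      intro p hp
      have := h.pr p.1 p.2 hp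
      exact ⟨this.2.2.1, this.2.2.2⟩
    · intro q hq
      rw [List.mem_append, List.mem_singleton] at hq
      rcases hq with hq | hq
      · exact hd q hq
      · subst hq; rfl
  · exact Has.zero _

theorem stepC_has {n t : ℕ} {f : ℕ → ℕ} {P Q : List (ℕ × ℕ)} (ih : Main n)
    (h : Inv t f (P ++ Q)) (hW : W (P ++ Q)) (hd : ∀ q ∈ Q, q.1 = q.2)
    (hl : P.length + Q.length ≤ 4) :
    Has (fun p => (Ext t f (P ++ Q) p ∧ Y (t + (n + 1)) p) ∧
      (p t < t ∧ ∃ x, x < t ∧ p x = t))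
      (if 0 < P.length then c n false (P.length - 1) Q.length
        else if 0 < Q.length then c n false 0 (Q.length - 1) else 0) := by
  match P, Q, h, hW, hd, hl with
  | [], [], _, _, _, _ => simp only [List.length_nil, lt_irrefl, if_false]; exact Has.zero _
  | (g, e) :: P, Q, h, hW, hd, hl =>
    have hm : (g, e) ∈ (g, e) :: P ++ Q := by simp
    have hW' := List.pairwise_cons.1 hW
    have h1 : ∀ q ∈ P ++ Q, q ∈ (g, e) :: P ++ Q ∧ g < q.1 ∧ e < q.2 := by
      intro q hq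
      exact ⟨List.mem_cons_of_mem _ hq, hW'.1 q hq⟩
    have h2 : ∀ q ∈ (g, e) :: P ++ Q, q = (g, e) ∨ q ∈ P ++ Q := by
      intro q hq
      exact List.mem_cons.1 hq
    have := ih.normal (t + 1) _ P Q (h.stepC hm h1 h2) hW'.2 hd
      (by simp only [List.length_cons] at hl; omega)
    simp only [List.length_cons, Nat.succ_pos, if_true, Nat.add_sub_cancel]
    refine this.mono ?_
    rintro p ⟨hp, hy⟩
    obtain ⟨e1, e2⟩ := Ext.stepC h hm h1 h2 hp
    rw [show t + 1 + n = t + (n + 1) by omega] at hy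
    exact ⟨⟨e1, hy⟩, e2⟩
  | [], (g, e) :: Q, h, hW, hd, hl =>
    have hm : (g, e) ∈ [] ++ (g, e) :: Q := by simp
    have hW' := List.pairwise_cons.1 hW
    have h1 : ∀ q ∈ [] ++ Q, q ∈ [] ++ (g, e) :: Q ∧ g < q.1 ∧ e < q.2 := by
      intro q hq
      exact ⟨List.mem_cons_of_mem _ hq, hW'.1 q hq⟩
    have h2 : ∀ q ∈ [] ++ (g, e) :: Q, q = (g, e) ∨ q ∈ [] ++ Q := by
      intro q hq
      exact List.mem_cons.1 hq
    have := ih.normal (t + 1) _ [] Q (h.stepC hm h1 h2) hW'.2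
      (fun q hq => hd q (List.mem_cons_of_mem _ hq))
      (by simp only [List.length_cons, List.length_nil] at hl ⊢; omega)
    simp only [List.length_cons, List.length_nil, lt_irrefl, if_false, Nat.succ_pos, if_true,
      Nat.add_sub_cancel] at this ⊢
    refine this.mono ?_
    rintro p ⟨hp, hy⟩
    obtain ⟨e1, e2⟩ := Ext.stepC h hm h1 h2 hp
    rw [show t + 1 + n = t + (n + 1) by omega] at hy
    exact ⟨⟨e1, hy⟩, e2⟩

theorem stepF_has {n t : ℕ} {f : ℕ → ℕ} {P Q : List (ℕ × ℕ)} (ih : Main n)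
    (h : Inv t f (P ++ Q)) :
    Has (fun p => (Ext t f (P ++ Q) p ∧ Y (t + (n + 1)) p) ∧ p t = t)
      (if P.length = 0 ∧ Q.length = 0 then c n false 0 0 else 0) := by
  split_ifs with hl
  · obtain ⟨h1, h2⟩ := hl
    have hP := List.eq_nil_of_length_eq_zero h1
    have hQ := List.eq_nil_of_length_eq_zero h2
    subst hP hQ
    have := ih.normal (t + 1) f [] [] h.stepF List.Pairwise.nil (by simp) (by simp)
    refine this.mono ?_
    rintro p ⟨hp, hy⟩
    obtain ⟨e1, e2⟩ := Ext.stepF h hp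
    rw [show t + 1 + n = t + (n + 1) by omega] at hy
    exact ⟨⟨e1, hy⟩, e2⟩
  · exact Has.zero _

theorem stepU_has {n t : ℕ} {f : ℕ → ℕ} {P Q : List (ℕ × ℕ)} (ih : Main n)
    (h : Inv t f (P ++ Q)) (hW : W (P ++ Q)) (hd : ∀ q ∈ Q, q.1 = q.2)
    (hl : P.length + Q.length ≤ 4) :
    Has (fun p => (Ext t f (P ++ Q) p ∧ Y (t + (n + 1)) p) ∧
      (t < p t ∧ ∃ x, x < t ∧ p x = t))
      (if P.length = 0 ∧ Q.length = 1 then c n false 1 0
        else if P.length = 0 ∧ 1 < Q.length then c n true 1 (Q.length - 1) else 0) := by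
  match P, Q, h, hW, hd, hl with
  | [], [], _, _, _, _ => simpa using Has.zero _
  | _ :: _, _, _, _, _, _ => simpa using Has.zero _
  | [], (s, s') :: Q, h, hW, hd, hl =>
    have hs : s = s' := hd (s, s') (by simp)
    subst hs
    have := rotU ih h List.Pairwise.nil hW (by simp) (fun q hq => hd q (by simp [hq]))
      (by simpa using hl)
    refine this.mono (fun _ h => h) |> fun h => ?_
    match Q, h with
    | [], h => simpa using h
    | _ :: _, h => simpa using h

theorem stepL_has {n t : ℕ} {f : ℕ → ℕ} {P Q : List (ℕ × ℕ)} (ih : Main n)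
    (h : Inv t f (P ++ Q)) (hW : W (P ++ Q)) (hd : ∀ q ∈ Q, q.1 = q.2)
    (hl : P.length + Q.length ≤ 4) :
    Has (fun p => (Ext t f (P ++ Q) p ∧ Y (t + (n + 1)) p) ∧
      (p t < t ∧ ∀ x, p x = t → t < x))
      (if P.length = 0 ∧ Q.length = 1 then c n false 1 0
        else if P.length = 0 ∧ 1 < Q.length then c n true 1 (Q.length - 1) else 0) := by
  match P, Q, h, hW, hd, hl with
  | [], [], _, _, _, _ => simpa using Has.zero _
  | _ :: _, _, _, _, _, _ => simpa using Has.zero _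
  | [], (s, s') :: Q, h, hW, hd, hl =>
    have hs : s = s' := hd (s, s') (by simp)
    subst hs
    have := rotL ih h List.Pairwise.nil hW (by simp) (fun q hq => hd q (by simp [hq]))
      (by simpa using hl)
    refine this.mono (fun _ h => h) |> fun h => ?_
    match Q, h with
    | [], h => simpa using h
    | _ :: _, h => simpa using h

theorem main (n : ℕ) : Main n := by
  induction n with
  | zero =>
    refine ⟨?_, ?_, ?_⟩
    · intro t f P Q h _ _ _
      match P, Q, h with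
      | [], [], h =>
        refine ⟨{f}, by simp [c], ?_⟩
        intro x hx
        rw [Finset.mem_singleton] at hx
        subst hx
        exact ⟨h.final.2, h.final.1⟩
      | _ :: _, _, _ => simpa [c] using Has.zero _
      | [], _ :: _, _ => simpa [c] using Has.zero _
    · intro t f P s Q _ _ _ _ _ _
      simpa [c] using Has.zero _
    · intro t f P s Q _ _ _ _ _ _
      simpa [c] using Has.zero _
  | succ n ih =>
    refine ⟨?_, ?_, ?_⟩
    · intro t f P Q h hW hd hl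
      exact five (stepF_has ih h) (stepO_has ih h hW hd) (stepC_has ih h hW hd hl)
        (stepU_has ih h hW hd hl) (stepL_has ih h hW hd hl)
    · intro t f P s Q h hP hQ hPQ hd hl
      have := (rotU ih h hP hQ hPQ hd hl).mono (q := fun p => Ext t f (P ++ (s, s) :: Q) p ∧
        Y (t + (n + 1)) p) (fun _ h => h.1)
      simpa [c] using this
    · intro t f P s Q h hP hQ hPQ hd hl
      have := (rotL ih h hP hQ hPQ hd hl).mono (q := fun p => Ext t f (P ++ (s, s) :: Q) p ∧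
        Y (t + (n + 1)) p) (fun _ h => h.1)
      simpa [c] using this

theorem inv_zero : Inv 0 id [] where
  ge _ _ := rfl
  lt x hx := by omega
  inj := Function.injective_id
  cyc _ := Or.inl rfl
  pr := by simp
  up _ _ _ h := by omega
  lo _ _ _ h := by omega
  upE _ h := by omega
  loG _ h := by omega

theorem Y_count (n : ℕ) : Has (Y n) (c n false 0 0) := by
  have := (main n).normal 0 id [] [] inv_zero List.Pairwise.nil (by simp) (by simp)
  refine this.mono ?_
  rintro p ⟨-, h⟩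
  rwa [Nat.zero_add] at h

end Q166.CycL
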