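import Pool.Agent.Q166.CycL2

/-!
# The number of words grows at least like `2.42 ^ n`
-/

namespace Q166.CycL

/-- transitions -/
def nxt : Bool × ℕ × ℕ → List (Bool × ℕ × ℕ)
  | (false, a, b) =>
    (if a = 0 ∧ b = 0 then [(false, 0, 0)] else []) ++
    (if a + b < 4 then [(false, a, b + 1)] else []) ++
    (if 0 < a then [(false, a - 1, b)] else if 0 < b then [(false, 0, b - 1)] else []) ++
    (if a = 0 ∧ b = 1 then [(false, 1, 0)] else if a = 0 ∧ 1 < b then [(true, 1, b - 1)] else [])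
    ++ (if a = 0 ∧ b = 1 then [(false, 1, 0)] else if a = 0 ∧ 1 < b then [(true, 1, b - 1)]
      else [])
  | (true, a, b) => if b = 0 then [] else if b = 1 then [(false, a + 1, 0)]
    else [(true, a + 1, b - 1)]

/-- the count as a function of the state -/
def cs (n : ℕ) (s : Bool × ℕ × ℕ) : ℕ := c n s.1 s.2.1 s.2.2

theorem cs_succ (n : ℕ) (s : Bool × ℕ × ℕ) : cs (n + 1) s = ((nxt s).map (cs n)).sum := by
  obtain ⟨m, a, b⟩ := s
  cases m
  · have e : ∀ (p : Prop) [Decidable p] (x : List (Bool × ℕ × ℕ)) (y : List (Bool × ℕ × ℕ)),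
        ((if p then x else y).map (cs n)).sum
          = if p then (x.map (cs n)).sum else (y.map (cs n)).sum := by
      intro p _ x y
      split_ifs <;> rfl
    show c (n + 1) false a b = _
    simp only [nxt, List.map_append, List.sum_append, e]
    simp [c, cs]
  · show c (n + 1) true a b = _
    simp only [nxt]
    split_ifs with h1 h2
    · simp [c, h1]
    · simp [c, h2, cs]
    · simp [c, h1, h2, cs]

/-- the states -/
def St : List (Bool × ℕ × ℕ) :=
  [(false, 0, 0), (false, 0, 1), (false, 0, 2), (false, 0, 3), (false, 0, 4),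
   (false, 1, 0), (false, 1, 1), (false, 1, 2), (false, 1, 3),
   (false, 2, 0), (false, 2, 1), (false, 2, 2), (false, 3, 0), (false, 3, 1), (false, 4, 0),
   (true, 1, 1), (true, 1, 2), (true, 1, 3), (true, 2, 1), (true, 2, 2), (true, 3, 1)]

/-- the Perron weights -/
def v : Bool × ℕ × ℕ → ℕ
  | (false, 0, 0) => 350
  | (false, 0, 1) => 497
  | (false, 0, 2) => 337
  | (false, 0, 3) => 183
  | (false, 0, 4) => 77
  | (false, 1, 0) => 258
  | (false, 1, 1) => 275
  | (false, 1, 2) => 170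
  | (false, 1, 3) => 75
  | (false, 2, 0) => 165
  | (false, 2, 1) => 142
  | (false, 2, 2) => 70
  | (false, 3, 0) => 92
  | (false, 3, 1) => 58
  | (false, 4, 0) => 38
  | (true, 1, 1) => 68
  | (true, 1, 2) => 15
  | (true, 1, 3) => 2
  | (true, 2, 1) => 38
  | (true, 2, 2) => 6
  | (true, 3, 1) => 15
  | _ => 0

theorem v_step : ∀ s ∈ St, 121 * v s ≤ 50 * ((nxt s).map v).sum := by decide

theorem nxt_mem : ∀ s ∈ St, ∀ s' ∈ nxt s, s' ∈ St := by decide

theorem v_base : ∀ s ∈ St, v s ≤ cs 9 s := by decide +kernel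

theorem sum_le {A : List (Bool × ℕ × ℕ)} {f : Bool × ℕ × ℕ → ℕ} {r : ℝ}
    (h : ∀ s ∈ A, (v s : ℝ) * r ≤ f s) : (((A.map v).sum : ℕ) : ℝ) * r ≤ ((A.map f).sum : ℕ) := by
  induction A with
  | nil => simp
  | cons s A ih =>
    have h1 := h s (by simp)
    have h2 := ih (fun s hs => h s (by simp [hs]))
    simp only [List.map_cons, List.sum_cons, Nat.cast_add]
    linarith

theorem v_le (n : ℕ) : ∀ s ∈ St, (v s : ℝ) * (121 / 50 : ℝ) ^ n ≤ cs (n + 9) s := by
  induction n with
  | zero =>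
    intro s hs
    have := v_base s hs
    simp only [pow_zero, mul_one, Nat.zero_add]
    exact_mod_cast this
  | succ n ih =>
    intro s hs
    have h1 : (((nxt s).map v).sum : ℝ) * (121 / 50 : ℝ) ^ n
        ≤ (((nxt s).map (cs (n + 9))).sum : ℕ) :=
      sum_le fun s' hs' => ih s' (nxt_mem s hs s' hs')
    have h2 : (121 : ℝ) * v s ≤ 50 * (((nxt s).map v).sum : ℕ) := by
      exact_mod_cast v_step s hs
    have e : n + 1 + 9 = (n + 9) + 1 := by ring
    rw [e, cs_succ]
    refine le_trans ?_ h1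
    have hp : 0 < (121 / 50 : ℝ) ^ n := by positivity
    rw [pow_succ]
    nlinarith

theorem c_lower (n : ℕ) : (121 / 50 : ℝ) ^ n ≤ c (n + 9) false 0 0 := by
  have h := v_le n (false, 0, 0) (by simp [St])
  have e : (v (false, 0, 0) : ℝ) = 350 := by norm_num [v]
  rw [e] at h
  have hp : 0 < (121 / 50 : ℝ) ^ n := by positivity
  have h2 : (cs (n + 9) (false, 0, 0) : ℝ) = c (n + 9) false 0 0 := rfl
  rw [h2] at h
  linarith

end Q166.CycL
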