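import Mathlib

/-!
# 231-avoiding permutations with cycles of length at most three: upper bound

Permutations of `{0, ..., n-1}` are handled as functions `ℕ → ℕ` which are the identity beyond `n`.
-/

namespace Q166.CycU

/-- all cycles have length at most three -/
def Cyc (f : ℕ → ℕ) : Prop := ∀ x, f x = x ∨ f (f x) = x ∨ f (f (f x)) = x

/-- no occurrence of the pattern 231 -/
def Av (f : ℕ → ℕ) : Prop := ∀ i j k, i < j → j < k → ¬ (f k < f i ∧ f i < f j)

/-- `f` restricts to a permutation of `{0, ..., n-1}`, avoids 231, has cycles of length `≤ 3` -/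
structure X (n : ℕ) (f : ℕ → ℕ) : Prop where
  lt : ∀ x, x < n → f x < n
  ge : ∀ x, n ≤ x → f x = x
  inj : Function.Injective f
  av : Av f
  cyc : Cyc f

theorem surj_of {n : ℕ} {f : ℕ → ℕ} (hlt : ∀ x, x < n → f x < n) (hinj : Function.Injective f)
    {y : ℕ} (hy : y < n) : ∃ x, x < n ∧ f x = y := by
  have h : (Finset.range n).image f = Finset.range n := by
    apply Finset.eq_of_subset_of_card_le
    · intro z hz
      simp only [Finset.mem_image, Finset.mem_range] at hz ⊢
      obtain ⟨x, hx, rfl⟩ := hz
      exact hlt x hx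
    · rw [Finset.card_image_of_injective _ hinj]
  have h2 : y ∈ (Finset.range n).image f := by rw [h]; simpa using hy
  simpa [Finset.mem_image] using h2

/-- strictly decreasing self-maps of an interval are reversals -/
theorem anti_eq {a n : ℕ} {f : ℕ → ℕ} (hm : ∀ x, x < n → a ≤ f (a + x) ∧ f (a + x) < a + n)
    (hd : ∀ i j, i < j → j < n → f (a + j) < f (a + i)) {x : ℕ} (hx : x < n) :
    f (a + x) = a + (n - 1 - x) := by
  have key : ∀ d y, y + d < n → f (a + (y + d)) + d ≤ f (a + y) := by
    intro d
    induction d with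
    | zero => intro y _; simp
    | succ d ih =>
      intro y hy
      have h1 := ih y (by omega)
      have h2 := hd (y + d) (y + (d + 1)) (by omega) hy
      omega
  have h1 := key x 0 (by omega)
  have h2 := key (n - 1 - x) x (by omega)
  have h3 := (hm 0 (by omega)).2
  have h4 := (hm (x + (n - 1 - x)) (by omega)).1
  simp only [Nat.zero_add] at h1
  have h5 : f (a + 0) < a + n := h3
  omega

/-- direct sum -/
def glue (j : ℕ) (a b : ℕ → ℕ) : ℕ → ℕ := fun x => if x < j then a x else b (x - j) + j

theorem split {n : ℕ} {f : ℕ → ℕ} (hf : X n f) (hn : 0 < n) :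
    ∃ j, j < n ∧ ∃ a b, X j a ∧ (X (n - j) b ∧ b 0 = n - j - 1) ∧ f = glue j a b := by
  obtain ⟨j, hj, hfj⟩ := surj_of hf.lt hf.inj (show n - 1 < n by omega)
  have h1 : ∀ i k, i < j → j ≤ k → k < n → f i < f k := by
    intro i k hi hk hkn
    have hij : f i ≠ f j := fun h => by have := hf.inj h; omega
    have hilt := hf.lt i (by omega)
    rcases Nat.eq_or_lt_of_le hk with rfl | hk
    · omega
    · have h := hf.av i j k hi hk
      have hik : f i ≠ f k := fun h => by have := hf.inj h; omega
      by_contra hcon
      exact h ⟨by omega, by omega⟩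
  have h2 : ∀ i, i < j → f i < j := by
    intro i hi
    by_contra hcon
    have hsub : (Finset.Ico j n).image f ⊆ Finset.Ioo (f i) n := by
      intro z hz
      simp only [Finset.mem_image, Finset.mem_Ico, Finset.mem_Ioo] at hz ⊢
      obtain ⟨k, ⟨hk1, hk2⟩, rfl⟩ := hz
      exact ⟨h1 i k hi hk1 hk2, hf.lt k hk2⟩
    have hc := Finset.card_le_card hsub
    rw [Finset.card_image_of_injective _ hf.inj, Nat.card_Ico, Nat.card_Ioo] at hc
    omega
  have h3 : ∀ k, j ≤ k → j ≤ f k := by
    intro k hk
    by_contra hcon
    obtain ⟨x, hx, hfx⟩ := surj_of h2 hf.inj (show f k < j by omega)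
    have := hf.inj hfx
    omega
  have ha : ∀ x, x < j → (fun x => if x < j then f x else x) x = f x := by
    intro x hx; simp [hx]
  refine ⟨j, hj, fun x => if x < j then f x else x, fun x => f (x + j) - j, ⟨?_, ?_, ?_, ?_, ?_⟩,
    ⟨⟨?_, ?_, ?_, ?_, ?_⟩, ?_⟩, ?_⟩
  · intro x hx
    simp only [hx, if_true]
    exact h2 x hx
  · intro x hx
    simp [show ¬ x < j by omega]
  · intro x y hxy
    simp only at hxy
    split_ifs at hxy with hx hy hy
    · exact hf.inj hxy
    · have := h2 x hx; omega
    · have := h2 y hy; omega
    · exact hxy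
  · intro a b c hab hbc
    simp only
    by_cases hc : c < j
    · simp only [hc, show b < j by omega, show a < j by omega, if_true]
      exact hf.av a b c hab hbc
    · simp only [hc, if_false]
      rintro ⟨h, -⟩
      split_ifs at h with ha'
      · have := h2 a ha'; omega
      · omega
  · intro x
    by_cases hx : x < j
    · have e1 := h2 x hx
      have e2 := h2 _ e1
      simp only [hx, e1, e2, if_true]
      exact hf.cyc x
    · left; simp [hx]
  · intro x hx
    have e1 := hf.lt (x + j) (by omega)
    have e2 := h3 (x + j) (by omega)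
    show f (x + j) - j < n - j
    omega
  · intro x hx
    show f (x + j) - j = x
    rw [hf.ge (x + j) (by omega)]
    omega
  · intro x y hxy
    have hxy' : f (x + j) - j = f (y + j) - j := hxy
    have e1 := h3 (x + j) (by omega)
    have e2 := h3 (y + j) (by omega)
    have := hf.inj (show f (x + j) = f (y + j) by omega)
    omega
  · intro a b c hab hbc
    have h := hf.av (a + j) (b + j) (c + j) (by omega) (by omega)
    rintro ⟨q1, q2⟩
    have q1' : f (c + j) - j < f (a + j) - j := q1
    have q2' : f (a + j) - j < f (b + j) - j := q2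
    exact h ⟨by omega, by omega⟩
  · intro x
    have e1 := h3 (x + j) (by omega)
    have e2 := h3 _ e1
    have e3 := h3 _ e2
    have r1 : (f (x + j) - j) + j = f (x + j) := by omega
    have r2 : (f (f (x + j)) - j) + j = f (f (x + j)) := by omega
    simp only [r1, r2]
    rcases hf.cyc (x + j) with h | h | h
    · left; omega
    · right; left; omega
    · right; right; omega
  · show f (0 + j) - j = n - j - 1
    rw [Nat.zero_add, hfj]
    omega
  · funext x
    unfold glue
    by_cases hx : x < j
    · simp [hx]
    · have e1 := h3 x (by omega)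
      have r : x - j + j = x := by omega
      simp only [hx, if_false, r]
      omega

/-- the reversal of `{0, ..., n-1}` -/
def rev (n : ℕ) : ℕ → ℕ := fun x => if x < n then n - 1 - x else x

theorem eq_rev {n : ℕ} {f : ℕ → ℕ} (hf : X n f) (hn : 0 < n) (h0 : f 0 = n - 1)
    (h1 : f (n - 1) = 0) : f = rev n := by
  have hd : ∀ i j, i < j → j < n → f (0 + j) < f (0 + i) := by
    intro i j hij hj
    rw [Nat.zero_add, Nat.zero_add]
    have hi0 : f i ≠ 0 := fun h => by have := hf.inj (h.trans h1.symm); omega
    rcases Nat.eq_or_lt_of_le (show j ≤ n - 1 by omega) with rfl | hj'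
    · omega
    · have h := hf.av i j (n - 1) hij hj'
      have hne : f i ≠ f j := fun h => by have := hf.inj h; omega
      by_contra hcon
      exact h ⟨by omega, by omega⟩
  funext x
  unfold rev
  by_cases hx : x < n
  · simp only [hx, if_true]
    have := anti_eq (a := 0) (n := n) (f := f)
      (fun x hx => ⟨Nat.zero_le _, by rw [Nat.zero_add, Nat.zero_add]; exact hf.lt x hx⟩) hd hx
    simpa using this
  · simp only [hx, if_false]
    exact hf.ge x (by omega)

/-- the order embedding skipping `0` and `p + 1` -/
def u (p q : ℕ) : ℕ := if q < p then q + 1 else q + 2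

/-- its inverse -/
def s (p v : ℕ) : ℕ := if v < p + 1 then v - 1 else v - 2

theorem u_lt {p a b : ℕ} : u p a < u p b ↔ a < b := by
  unfold u; split_ifs <;> omega

theorem u_inj {p a b : ℕ} (h : u p a = u p b) : a = b := by
  unfold u at h; split_ifs at h <;> omega

theorem u_s {p v : ℕ} (h0 : v ≠ 0) (h1 : v ≠ p + 1) : u p (s p v) = v := by
  unfold u s; split_ifs <;> omega

theorem s_u {p q : ℕ} : s p (u p q) = q := by
  unfold u s; split_ifs <;> omega

/-- insertion of the cycle `0 → m-1 → p+1 → 0` -/
def ins (m p : ℕ) (t : ℕ → ℕ) : ℕ → ℕ := fun y =>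
  if y = 0 then m - 1 else if y = p + 1 then 0 else if y = m - 1 then p + 1
  else if y < m then u p (t (s p y)) else y

theorem remove {n : ℕ} {f : ℕ → ℕ} (hf : X (n + 3) f) (h0 : f 0 = n + 2)
    (h1 : f (n + 2) ≠ 0) : ∃ p t, p ≤ n ∧ X n t ∧ f (n + 2) = p + 1 ∧ f = ins (n + 3) p t ∧
      (∀ i j, i < j → j < p → t j < t i) ∧
      (∀ i j, i < j → j < n → p ≤ t i → p ≤ t j → t j < t i) := by
  obtain ⟨p, hp⟩ : ∃ p, f (n + 2) = p + 1 := ⟨f (n + 2) - 1, by omega⟩
  have hxlt : p + 1 < n + 2 := by
    have e1 := hf.lt (n + 2) (by omega)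
    have e2 : f (n + 2) ≠ n + 2 := fun h => by have := hf.inj (h.trans h0.symm); omega
    omega
  have hx0 : f (p + 1) = 0 := by
    rcases hf.cyc 0 with h | h | h
    · omega
    · rw [h0] at h; exact absurd h h1
    · rw [h0, hp] at h; exact h
  -- other points
  have hoth : ∀ q, q < n → u p q ≠ 0 ∧ u p q ≠ p + 1 ∧ u p q < n + 2 := by
    intro q hq; unfold u; split_ifs <;> omega
  have hval : ∀ q, q < n → f (u p q) ≠ 0 ∧ f (u p q) ≠ p + 1 ∧ f (u p q) < n + 2 := by
    intro q hq
    obtain ⟨a1, a2, a3⟩ := hoth q hq
    refine ⟨fun h => ?_, fun h => ?_, ?_⟩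
    · exact a2 (hf.inj (h.trans hx0.symm))
    · have := hf.inj (h.trans hp.symm); omega
    · have e1 := hf.lt (u p q) (by omega)
      have e2 : f (u p q) ≠ n + 2 := fun h => a1 (hf.inj (h.trans h0.symm))
      omega
  let t : ℕ → ℕ := fun q => if q < n then s p (f (u p q)) else q
  have ht : ∀ q, q < n → u p (t q) = f (u p q) := by
    intro q hq
    show u p (if q < n then s p (f (u p q)) else q) = _
    simp only [hq, if_true]
    obtain ⟨a1, a2, a3⟩ := hval q hq
    exact u_s a1 a2
  have htlt : ∀ q, q < n → t q < n := by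
    intro q hq
    obtain ⟨a1, a2, a3⟩ := hval q hq
    rw [← ht q hq] at a1 a2 a3
    by_contra hcon
    unfold u at a3
    split_ifs at a3 <;> omega
  have htge : ∀ q, n ≤ q → t q = q := by
    intro q hq
    show (if q < n then s p (f (u p q)) else q) = q
    simp [show ¬ q < n by omega]
  have htX : X n t := by
    refine ⟨htlt, htge, ?_, ?_, ?_⟩
    · intro a b hab
      by_cases ha : a < n <;> by_cases hb : b < n
      · have e := ht a ha
        rw [hab, ht b hb] at e
        exact (u_inj (hf.inj e)).symm
      · have e1 := htlt a ha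
        rw [hab, htge b (by omega)] at e1
        omega
      · have e1 := htlt b hb
        rw [← hab, htge a (by omega)] at e1
        omega
      · rw [htge a (by omega), htge b (by omega)] at hab
        exact hab
    · intro a b c hab hbc
      by_cases hc : c < n
      · rintro ⟨q1, q2⟩
        have h := hf.av (u p a) (u p b) (u p c) (u_lt.2 hab) (u_lt.2 hbc)
        rw [← ht a (by omega), ← ht b (by omega), ← ht c (by omega)] at h
        exact h ⟨u_lt.2 q1, u_lt.2 q2⟩
      · rintro ⟨q1, -⟩
        rw [htge c (by omega)] at q1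
        by_cases ha : a < n
        · have := htlt a ha; omega
        · rw [htge a (by omega)] at q1; omega
    · intro x
      by_cases hx : x < n
      · have e1 := ht x hx
        have hx1 := htlt x hx
        have e2 := ht (t x) hx1
        have hx2 := htlt _ hx1
        have e3 := ht _ hx2
        rw [e1] at e2
        rw [e2] at e3
        rcases hf.cyc (u p x) with h | h | h
        · left; exact u_inj (e1.trans h)
        · right; left; exact u_inj (e2.trans h)
        · right; right; exact u_inj (e3.trans h)
      · left; exact htge x (by omega)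
  refine ⟨p, t, by omega, htX, hp, ?_, ?_, ?_⟩
  · funext y
    unfold ins
    split_ifs with c1 c2 c3 c4
    · rw [c1, h0]; omega
    · rw [c2, hx0]
    · rw [c3, ← hp]; rfl
    · have hu := u_s (p := p) (v := y) c1 c2
      have hs : s p y < n := by
        unfold s; split_ifs <;> omega
      rw [ht _ hs, hu]
    · exact hf.ge y (by omega)
  · intro i j hij hjp
    have e1 : u p i = i + 1 := by unfold u; simp [show i < p by omega]
    have e2 : u p j = j + 1 := by unfold u; simp [hjp]
    have h := hf.av (u p i) (u p j) (p + 1) (u_lt.2 hij) (by omega)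
    have hi := hval i (by omega)
    rw [hx0] at h
    have hne : f (u p i) ≠ f (u p j) := fun h => by have := u_inj (hf.inj h); omega
    have : f (u p j) < f (u p i) := by
      by_contra hcon
      exact h ⟨by omega, by omega⟩
    rw [← ht i (by omega), ← ht j (by omega)] at this
    exact u_lt.1 this
  · intro i j hij hjn hi hj
    have h := hf.av (u p i) (u p j) (n + 2) (u_lt.2 hij) (hoth j hjn).2.2
    rw [hp, ← ht i (by omega), ← ht j hjn] at h
    have hui : p + 1 < u p (t i) := by unfold u; split_ifs <;> omega
    have hne : t i ≠ t j := fun h => by have := htX.inj h; omega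
    by_contra hcon
    exact h ⟨hui, u_lt.2 (by omega)⟩

/-- the direct sum of two reversals -/
def rr (p n : ℕ) : ℕ → ℕ := fun q =>
  if q < p then p - 1 - q else if q < n then p + (n - p - 1 - (q - p)) else q

theorem classify {n p : ℕ} {t : ℕ → ℕ} (ht : X n t) (hpn : p ≤ n)
    (hd : ∀ i j, i < j → j < p → t j < t i)
    (hv : ∀ i j, i < j → j < n → p ≤ t i → p ≤ t j → t j < t i) :
    t = rr p n ∨ (1 ≤ p ∧ p < n ∧ t = rev n) ∨
      (0 < n ∧ t 0 = n - 1 ∧ t (n - 1) ≠ 0 ∧ (p = t (n - 1) ∨ p = t (n - 1) + 1)) := by
  by_cases hA : ∀ q, q < p → t q < p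
  · left
    have hge : ∀ q, p ≤ q → p ≤ t q := by
      intro q hq
      by_contra hcon
      obtain ⟨x, hx, hfx⟩ := surj_of hA ht.inj (show t q < p by omega)
      have := ht.inj hfx
      omega
    funext q
    unfold rr
    split_ifs with c1 c2
    · have := anti_eq (a := 0) (n := p) (f := t)
        (fun x hx => ⟨Nat.zero_le _, by rw [Nat.zero_add, Nat.zero_add]; exact hA x hx⟩)
        (fun i j hij hj => by rw [Nat.zero_add, Nat.zero_add]; exact hd i j hij hj) c1
      simpa using this
    · have := anti_eq (a := p) (n := n - p) (f := t)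
        (fun x hx => ⟨hge _ (by omega), by have := ht.lt (p + x) (by omega); omega⟩)
        (fun i j hij hj => hv (p + i) (p + j) (by omega) (by omega) (hge _ (by omega))
          (hge _ (by omega))) (x := q - p) (by omega)
      rw [show p + (q - p) = q by omega] at this
      exact this
    · exact ht.ge q (by omega)
  · push Not at hA
    obtain ⟨q, hq, htq⟩ := hA
    have h0 : p ≤ t 0 := by
      rcases Nat.eq_zero_or_pos q with rfl | hq0
      · exact htq
      · have := hd 0 q hq0 hq; omega
    have hn : 0 < n := by omega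
    have ht0 : t 0 = n - 1 := by
      by_contra hcon
      have h1 := ht.lt 0 hn
      obtain ⟨z, hz, hfz⟩ := surj_of ht.lt ht.inj (show n - 1 < n by omega)
      have hz0 : z ≠ 0 := fun h => by rw [h] at hfz; exact hcon hfz
      have := hv 0 z (by omega) hz h0 (by omega)
      omega
    right
    by_cases hl : t (n - 1) = 0
    · left
      refine ⟨by omega, ?_, eq_rev ht hn ht0 hl⟩
      by_contra hcon
      have := ht.lt q (by omega)
      omega
    · right
      refine ⟨hn, ht0, hl, ?_⟩
      have hy0 : t (t (n - 1)) = 0 := by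
        rcases ht.cyc 0 with h | h | h
        · have : n = 1 := by omega
          subst this
          exact absurd h hl
        · rw [ht0] at h; exact absurd h hl
        · rw [ht0] at h; exact h
      have hle : p ≤ t (n - 1) + 1 := by
        by_contra hcon
        have := hd (t (n - 1)) (t (n - 1) + 1) (by omega) (by omega)
        omega
      have hge : t (n - 1) ≤ p := by
        by_contra hcon
        have hlt := ht.lt (n - 1) (by omega)
        obtain ⟨z, hz, hfz⟩ := surj_of ht.lt ht.inj (show t (n - 1) - 1 < n by omega)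
        have hzn : z ≠ n - 1 := fun h => by rw [h] at hfz; omega
        have := hv z (n - 1) (by omega) (by omega) (by omega) (by omega)
        omega
      omega

/-- bound on the number of members starting with the maximum, not ending with the minimum -/
def jn : ℕ → ℕ
  | 0 => 0
  | 1 => 0
  | 2 => 0
  | (n + 3) => (n + 1) + (n - 1) + 2 * jn n

open Classical in
theorem J_bound (n : ℕ) : ∃ G : Finset (ℕ → ℕ), G.card ≤ jn n ∧
    ∀ f, X n f → 0 < n → f 0 = n - 1 → f (n - 1) ≠ 0 → f ∈ G := by
  induction n using Nat.strong_induction_on with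
  | _ n ih =>
    match n, ih with
    | 0, _ => exact ⟨∅, by simp, fun f _ h => absurd h (by omega)⟩
    | 1, _ => exact ⟨∅, by simp, fun f _ _ h0 h1 => absurd h0 h1⟩
    | 2, _ =>
      refine ⟨∅, by simp, fun f hf _ h0 h1 => ?_⟩
      exfalso
      have h2 := hf.lt 1 (by omega)
      have h0' : f 0 = 1 := h0
      have h1' : f 1 ≠ 0 := h1
      have h3 : f 0 = f 1 := by omega
      have := hf.inj h3
      omega
    | (n + 3), ih =>
      obtain ⟨G, hG, hG2⟩ := ih n (by omega)
      refine ⟨((Finset.range (n + 1)).image (fun p => ins (n + 3) p (rr p n)) ∪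
        (Finset.Ico 1 n).image (fun p => ins (n + 3) p (rev n))) ∪
        (G ×ˢ Finset.range 2).image (fun x => ins (n + 3) (x.1 (n - 1) + x.2) x.1), ?_, ?_⟩
      · refine (Finset.card_union_le _ _).trans ?_
        refine (Nat.add_le_add (Finset.card_union_le _ _) Finset.card_image_le).trans ?_
        refine (Nat.add_le_add (Nat.add_le_add Finset.card_image_le Finset.card_image_le)
          le_rfl).trans ?_
        rw [Finset.card_range, Nat.card_Ico, Finset.card_product, Finset.card_range]
        show n + 1 + (n - 1) + G.card * 2 ≤ (n + 1) + (n - 1) + 2 * jn n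
        omega
      · intro f hf _ h0 h1
        obtain ⟨p, t, hpn, htX, hfp, hfe, hd, hv⟩ := remove hf h0 h1
        rcases classify htX hpn hd hv with h | ⟨h2, h3, h⟩ | ⟨h2, h3, h4, h5⟩
        · rw [Finset.mem_union, Finset.mem_union]
          left; left
          rw [Finset.mem_image]
          exact ⟨p, by simp; omega, by rw [hfe, h]⟩
        · rw [Finset.mem_union, Finset.mem_union]
          left; right
          rw [Finset.mem_image]
          exact ⟨p, by simp; omega, by rw [hfe, h]⟩
        · rw [Finset.mem_union]
          right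
          rw [Finset.mem_image]
          have htG := hG2 t htX h2 h3 h4
          rcases h5 with h5 | h5
          · exact ⟨(t, 0), by simp [htG], by rw [hfe, h5]; rfl⟩
          · exact ⟨(t, 1), by simp [htG], by rw [hfe, h5]⟩

open Classical in
theorem I_bound (n : ℕ) : ∃ G : Finset (ℕ → ℕ), G.card ≤ jn n + 1 ∧
    ∀ f, X n f → 0 < n → f 0 = n - 1 → f ∈ G := by
  obtain ⟨G, hG, hG2⟩ := J_bound n
  refine ⟨insert (rev n) G, (Finset.card_insert_le _ _).trans (by omega), ?_⟩
  intro f hf hn h0
  rw [Finset.mem_insert]
  by_cases h1 : f (n - 1) = 0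
  · left; exact eq_rev hf hn h0 h1
  · right; exact hG2 f hf hn h0 h1

end Q166.CycU
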