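import Pool.Agent.Q166.CycU

/-!
# The number of 231-avoiding permutations with cycles of length at most three is at most `2.41 ^ n`
-/

namespace Q166.CycU

theorem pow_aux (m : ℕ) : 5 * 2 ^ (m + 6) * (2 * (m + 6)) ≤ 5 * 2 ^ (m + 6) + 11 * 3 ^ (m + 6) / 2 := by
  rw [Nat.le_iff_lt_add_one]
  have : 2 * (5 * 2 ^ (m + 6) * (2 * (m + 6))) ≤ 2 * (5 * 2 ^ (m + 6)) + 11 * 3 ^ (m + 6) := by
    induction m with
    | zero => norm_num
    | succ m ih =>
      have e1 : 2 ^ (m + 1 + 6) = 2 * 2 ^ (m + 6) := by ring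
      have e2 : 3 ^ (m + 1 + 6) = 3 * 3 ^ (m + 6) := by ring
      have e3 : 2 ^ (m + 6) ≤ 3 ^ (m + 6) := Nat.pow_le_pow_left (by norm_num) _
      rw [e1, e2]
      nlinarith [e3, ih, Nat.zero_le m, Nat.pos_of_ne_zero (show 2 ^ (m + 6) ≠ 0 by positivity),
        Nat.mul_le_mul_left m e3]
  omega

theorem jn_le (m : ℕ) (hm : 1 ≤ m) : 5 * 2 ^ m * (jn m + 1) ≤ 4 * 3 ^ m := by
  induction m using Nat.strong_induction_on with
  | _ m ih =>
    match m, hm, ih with
    | 1, _, _ => simp [jn]
    | 2, _, _ => simp [jn]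
    | 3, _, _ => simp [jn]
    | 4, _, _ => simp [jn]
    | 5, _, _ => simp [jn]
    | 6, _, _ => simp [jn]
    | 7, _, _ => simp [jn]
    | 8, _, _ => simp [jn]
    | (m + 9), _, ih =>
      have h1 := ih (m + 6) (by omega) (by omega)
      have h2 := pow_aux m
      have e1 : jn (m + 9) = (m + 6 + 1) + (m + 6 - 1) + 2 * jn (m + 6) := rfl
      have e2 : 2 ^ (m + 9) = 8 * 2 ^ (m + 6) := by ring
      have e3 : 3 ^ (m + 9) = 27 * 3 ^ (m + 6) := by ring
      rw [e1, e2, e3]
      have e4 : m + 6 + 1 + (m + 6 - 1) + 2 * jn (m + 6) + 1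
          = 2 * (jn (m + 6) + 1) + (2 * (m + 6) - 1) := by omega
      rw [e4]
      have h3 : 2 * (5 * 2 ^ (m + 6) * (2 * (m + 6)))
          ≤ 2 * (5 * 2 ^ (m + 6)) + 11 * 3 ^ (m + 6) := by omega
      have e5 : 2 * (m + 6) - 1 = 2 * m + 11 := by omega
      rw [e5]
      nlinarith [h1, h3]

/-- partial sums -/
noncomputable def T (n : ℕ) : ℝ :=
  ∑ m ∈ Finset.range n, ((jn (m + 1) + 1 : ℕ) : ℝ) / (241 / 100 : ℝ) ^ (m + 1)

theorem T_succ (n : ℕ) : T (n + 1) = T n + ((jn (n + 1) + 1 : ℕ) : ℝ) / (241 / 100 : ℝ) ^ (n + 1) :=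
  Finset.sum_range_succ _ _

theorem T_mono {a b : ℕ} (h : a ≤ b) : T a ≤ T b := by
  unfold T
  apply Finset.sum_le_sum_of_subset_of_nonneg
  · simpa using h
  · intro i _ _; positivity

theorem T_twelve : T 12 + (132 / 100) * (150 / 241 : ℝ) ^ 12 ≤ 1 := by
  unfold T
  simp only [Finset.sum_range_succ, Finset.sum_range_zero, jn]
  norm_num

theorem term_le (n : ℕ) : ((jn (n + 1) + 1 : ℕ) : ℝ) / (241 / 100 : ℝ) ^ (n + 1)
    ≤ 4 / 5 * (150 / 241 : ℝ) ^ (n + 1) := by
  have h := jn_le (n + 1) (by omega)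
  have h2 : (5 : ℝ) * 2 ^ (n + 1) * ((jn (n + 1) + 1 : ℕ) : ℝ) ≤ 4 * 3 ^ (n + 1) := by
    exact_mod_cast h
  have e : (150 / 241 : ℝ) ^ (n + 1) = (3 / 2) ^ (n + 1) / (241 / 100 : ℝ) ^ (n + 1) := by
    rw [← div_pow]; norm_num
  rw [e, ← mul_div_assoc]
  apply div_le_div_of_nonneg_right _ (by positivity)
  rw [div_pow, mul_div_assoc', le_div_iff₀ (by positivity)]
  linarith

theorem T_tail (n : ℕ) : T (n + 12) + (132 / 100) * (150 / 241 : ℝ) ^ (n + 12) ≤ 1 := by
  induction n with
  | zero => exact T_twelve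
  | succ n ih =>
    have e : n + 1 + 12 = (n + 12) + 1 := by ring
    rw [e, T_succ]
    have h := term_le (n + 12)
    have e2 : (150 / 241 : ℝ) ^ (n + 12 + 1) = 150 / 241 * (150 / 241 : ℝ) ^ (n + 12) := by ring
    rw [e2] at h ⊢
    have hp : 0 < (150 / 241 : ℝ) ^ (n + 12) := by positivity
    linarith

theorem T_le (n : ℕ) : T n ≤ 1 := by
  have h := T_tail n
  have h2 := T_mono (show n ≤ n + 12 by omega)
  have hp : 0 < (150 / 241 : ℝ) ^ (n + 12) := by positivity
  linarith

open Classical in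
theorem X_bound (n : ℕ) : ∃ F : Finset (ℕ → ℕ), (F.card : ℝ) ≤ (241 / 100 : ℝ) ^ n ∧
    ∀ f, X n f → f ∈ F := by
  induction n using Nat.strong_induction_on with
  | _ n ih =>
    rcases Nat.eq_zero_or_pos n with rfl | hn
    · refine ⟨{id}, by simp, fun f hf => ?_⟩
      rw [Finset.mem_singleton]
      funext x
      exact hf.ge x (Nat.zero_le _)
    · choose! F hF using ih
      choose G hG using I_bound
      refine ⟨(Finset.range n).biUnion fun j => Finset.image₂ (glue j) (F j) (G (n - j)), ?_, ?_⟩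
      · have h1 : (((Finset.range n).biUnion fun j =>
            Finset.image₂ (glue j) (F j) (G (n - j))).card : ℝ)
            ≤ ∑ j ∈ Finset.range n, (241 / 100 : ℝ) ^ j * ((jn (n - j) + 1 : ℕ) : ℝ) := by
          have h2 : ((Finset.range n).biUnion fun j =>
              Finset.image₂ (glue j) (F j) (G (n - j))).card
              ≤ ∑ j ∈ Finset.range n, (F j).card * (G (n - j)).card := by
            refine Finset.card_biUnion_le.trans (Finset.sum_le_sum fun j _ => ?_)
            exact Finset.card_image₂_le _ _ _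
          have h3 : ((((Finset.range n).biUnion fun j =>
              Finset.image₂ (glue j) (F j) (G (n - j))).card : ℕ) : ℝ)
              ≤ ((∑ j ∈ Finset.range n, (F j).card * (G (n - j)).card : ℕ) : ℝ) := by
            exact_mod_cast h2
          refine h3.trans ?_
          push_cast
          apply Finset.sum_le_sum
          intro j hj
          have hj' := Finset.mem_range.1 hj
          have a1 := (hF j hj').1
          have a2 : ((G (n - j)).card : ℝ) ≤ ((jn (n - j) + 1 : ℕ) : ℝ) := by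
            exact_mod_cast (hG (n - j)).1
          push_cast at a2
          exact mul_le_mul a1 a2 (by positivity) (by positivity)
        refine h1.trans ?_
        have h4 : ∑ j ∈ Finset.range n, (241 / 100 : ℝ) ^ j * ((jn (n - j) + 1 : ℕ) : ℝ)
            = (241 / 100 : ℝ) ^ n * T n := by
          unfold T
          rw [Finset.mul_sum, ← Finset.sum_range_reflect]
          apply Finset.sum_congr rfl
          intro j hj
          have hj' := Finset.mem_range.1 hj
          have e1 : n - (n - 1 - j) = j + 1 := by omega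
          rw [e1]
          have e2 : (241 / 100 : ℝ) ^ n = (241 / 100 : ℝ) ^ (n - 1 - j) * (241 / 100) ^ (j + 1) := by
            rw [← pow_add]; congr 1; omega
          rw [e2]
          field_simp
        rw [h4]
        have h5 := T_le n
        have hp : 0 < (241 / 100 : ℝ) ^ n := by positivity
        nlinarith
      · intro f hf
        obtain ⟨j, hj, a, b, ha, ⟨hb, hb0⟩, hfe⟩ := split hf hn
        rw [Finset.mem_biUnion]
        refine ⟨j, by simpa using hj, ?_⟩
        rw [Finset.mem_image₂]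
        exact ⟨a, (hF j hj).2 a ha, b, (hG (n - j)).2 b hb (by omega) hb0, hfe.symm⟩

end Q166.CycU
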