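import Mathlib

set_option autoImplicit false

open Polynomial

namespace Q166.Dice

theorem c7 : cyclotomic 7 ℤ = X ^ 6 + X ^ 5 + X ^ 4 + X ^ 3 + X ^ 2 + X + 1 := by
  have : Fact (Nat.Prime 7) := ⟨by norm_num⟩
  rw [cyclotomic_prime]
  simp only [Finset.sum_range_succ, Finset.sum_range_zero]
  ring

theorem c6 : cyclotomic 6 ℤ = X ^ 2 - X + 1 := cyclotomic_six ℤ

theorem c14 : cyclotomic 14 ℤ = X ^ 6 - X ^ 5 + X ^ 4 - X ^ 3 + X ^ 2 - X + 1 := by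
  have h := cyclotomic_expand_eq_cyclotomic_mul (p := 2) (n := 7) Nat.prime_two (by norm_num) ℤ
  have h2 := cyclotomic_ne_zero 7 ℤ
  rw [c7] at h h2
  norm_num at h
  apply mul_right_cancel₀ h2
  rw [← h]
  ring

theorem c21 : cyclotomic 21 ℤ = X ^ 12 - X ^ 11 + X ^ 9 - X ^ 8 + X ^ 6 - X ^ 4 + X ^ 3 - X + 1 := by
  have h := cyclotomic_expand_eq_cyclotomic_mul (p := 3) (n := 7) Nat.prime_three (by norm_num) ℤ
  have h2 := cyclotomic_ne_zero 7 ℤ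
  rw [c7] at h h2
  norm_num at h
  apply mul_right_cancel₀ h2
  rw [← h]
  ring

theorem c42 : cyclotomic 42 ℤ =
    X ^ 12 + X ^ 11 - X ^ 9 - X ^ 8 + X ^ 6 - X ^ 4 - X ^ 3 + X + 1 := by
  have h := cyclotomic_expand_eq_cyclotomic_mul (p := 2) (n := 21) Nat.prime_two (by norm_num) ℤ
  have h2 := cyclotomic_ne_zero 21 ℤ
  rw [c21] at h h2
  norm_num at h
  apply mul_right_cancel₀ h2
  rw [← h]
  ring

theorem polyA : X * (cyclotomic 2 ℤ * cyclotomic 3 ℤ) ^ 2 *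
    (cyclotomic 42 ℤ ^ 1 * cyclotomic 6 ℤ ^ 2 * cyclotomic 14 ℤ ^ 2 * cyclotomic 21 ℤ ^ 1) =
    (((X + X ^ 3 + X ^ 5) * (1 + 2 * X ^ 7 + 2 * X ^ 14 + 2 * X ^ 21 + 2 * X ^ 28 + 2 * X ^ 35 +
      X ^ 42) : ℕ[X])).map (Nat.castRingHom ℤ) := by
  rw [c6, c14, c21, c42, cyclotomic_two, cyclotomic_three]
  simp only [Polynomial.map_mul, Polynomial.map_add, Polynomial.map_pow, map_X, Polynomial.map_one,
    Polynomial.map_ofNat]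
  ring

theorem polyB : X * cyclotomic 7 ℤ ^ 2 *
    (cyclotomic 42 ℤ ^ 1 * cyclotomic 6 ℤ ^ 0 * cyclotomic 14 ℤ ^ 0 * cyclotomic 21 ℤ ^ 1) =
    ((X + 2 * X ^ 2 + 2 * X ^ 3 + 2 * X ^ 4 + 2 * X ^ 5 + 2 * X ^ 6 + 3 * X ^ 7 + 2 * X ^ 8 +
      X ^ 13 + 2 * X ^ 16 + 2 * X ^ 17 + 2 * X ^ 18 + 3 * X ^ 19 + 2 * X ^ 20 + 2 * X ^ 21 +
      2 * X ^ 22 + X ^ 25 + 2 * X ^ 30 + 3 * X ^ 31 + 2 * X ^ 32 + 2 * X ^ 33 + 2 * X ^ 34 +
      2 * X ^ 35 + 2 * X ^ 36 + X ^ 37 : ℕ[X])).map (Nat.castRingHom ℤ) := by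
  rw [c7, c21, c42]
  simp only [Polynomial.map_mul, Polynomial.map_add, Polynomial.map_pow, map_X, Polynomial.map_one,
    Polynomial.map_ofNat]
  ring

theorem nonneg_of_map (f : ℕ[X]) (n : ℕ) : 0 ≤ (f.map (Nat.castRingHom ℤ)).coeff n := by
  rw [coeff_map]
  simp

end Q166.Dice
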