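import Mathlib

/-! An exponential upper bound for the number of Baxter permutations. -/

namespace Pool.Agent.Q166.Dism

open Finset

/-- next set of active gaps -/
def step (A : Finset ℕ) (r g : ℕ) : Finset ℕ :=
  if r < g then (A.filter (· ≤ r)) ∪ ({g, g + 1} ∪ (A.filter (g < ·)).image (· + 1))
  else (A.filter (· < g)) ∪ ({g, g + 1} ∪ (A.filter (r < ·)).image (· + 1))

def paths : ℕ → Finset ℕ → ℕ → Finset (List ℕ)
  | 0, _, _ => {[]}
  | m + 1, A, r => A.biUnion (fun g => (paths m (step A r g) g).image (g :: ·))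

lemma sum_up (T : Finset ℕ) : ∑ g ∈ T, 2 ^ (T.filter (g < ·)).card + 1 = 2 ^ T.card := by
  induction T using Finset.induction_on_min with
  | empty => simp
  | insert a T hlt ih =>
    have ha : a ∉ T := fun h => lt_irrefl a (hlt a h)
    rw [Finset.sum_insert ha, Finset.card_insert_of_notMem ha]
    have h1 : (insert a T).filter (a < ·) = T := by
      ext x
      simp only [Finset.mem_filter, Finset.mem_insert]
      constructor
      · rintro ⟨rfl | h, h2⟩
        · exact absurd h2 (lt_irrefl _)
        · exact h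
      · intro h
        exact ⟨Or.inr h, hlt x h⟩
    have h2 : ∀ g ∈ T, (insert a T).filter (g < ·) = T.filter (g < ·) := by
      intro g hg
      ext x
      simp only [Finset.mem_filter, Finset.mem_insert]
      constructor
      · rintro ⟨rfl | h, h2⟩
        · exact absurd h2 (not_lt.2 (hlt g hg).le)
        · exact ⟨h, h2⟩
      · rintro ⟨h, h2⟩
        exact ⟨Or.inr h, h2⟩
    rw [h1, Finset.sum_congr rfl (fun g hg => by rw [h2 g hg])]
    rw [add_assoc, ih, pow_succ]
    ring

lemma sum_down (T : Finset ℕ) : ∑ g ∈ T, 2 ^ (T.filter (· < g)).card + 1 = 2 ^ T.card := by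
  induction T using Finset.induction_on_max with
  | empty => simp
  | insert a T hlt ih =>
    have ha : a ∉ T := fun h => lt_irrefl a (hlt a h)
    rw [Finset.sum_insert ha, Finset.card_insert_of_notMem ha]
    have h1 : (insert a T).filter (· < a) = T := by
      ext x
      simp only [Finset.mem_filter, Finset.mem_insert]
      constructor
      · rintro ⟨rfl | h, h2⟩
        · exact absurd h2 (lt_irrefl _)
        · exact h
      · intro h
        exact ⟨Or.inr h, hlt x h⟩
    have h2 : ∀ g ∈ T, (insert a T).filter (· < g) = T.filter (· < g) := by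
      intro g hg
      ext x
      simp only [Finset.mem_filter, Finset.mem_insert]
      constructor
      · rintro ⟨rfl | h, h2⟩
        · exact absurd h2 (not_lt.2 (hlt g hg).le)
        · exact ⟨h, h2⟩
      · rintro ⟨h, h2⟩
        exact ⟨Or.inr h, h2⟩
    rw [h1, Finset.sum_congr rfl (fun g hg => by rw [h2 g hg])]
    rw [add_assoc, ih, pow_succ]
    ring

lemma card_step_up (A : Finset ℕ) (r g : ℕ) (h : r < g) :
    (step A r g).card ≤ (A.filter (· ≤ r)).card + 2 + ((A.filter (r < ·)).filter (g < ·)).card := by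
  rw [step, if_pos h]
  refine (Finset.card_union_le _ _).trans ?_
  have h1 := Finset.card_union_le ({g, g + 1} : Finset ℕ) ((A.filter (g < ·)).image (· + 1))
  have h2 : ({g, g + 1} : Finset ℕ).card ≤ 2 := Finset.card_le_two
  have h3 : ((A.filter (g < ·)).image (· + 1)).card ≤ (A.filter (g < ·)).card :=
    Finset.card_image_le
  have h4 : A.filter (g < ·) ⊆ (A.filter (r < ·)).filter (g < ·) := by
    intro x hx
    simp only [Finset.mem_filter] at hx ⊢
    exact ⟨⟨hx.1, by omega⟩, hx.2⟩
  have h5 := Finset.card_le_card h4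
  omega

lemma card_step_down (A : Finset ℕ) (r g : ℕ) (h : ¬ r < g) :
    (step A r g).card ≤ (A.filter (r < ·)).card + 2 + ((A.filter (· ≤ r)).filter (· < g)).card := by
  rw [step, if_neg h]
  refine (Finset.card_union_le _ _).trans ?_
  have h1 := Finset.card_union_le ({g, g + 1} : Finset ℕ) ((A.filter (r < ·)).image (· + 1))
  have h2 : ({g, g + 1} : Finset ℕ).card ≤ 2 := Finset.card_le_two
  have h3 : ((A.filter (r < ·)).image (· + 1)).card ≤ (A.filter (r < ·)).card :=
    Finset.card_image_le
  have h4 : A.filter (· < g) ⊆ (A.filter (· ≤ r)).filter (· < g) := by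
    intro x hx
    simp only [Finset.mem_filter] at hx ⊢
    exact ⟨⟨hx.1, by omega⟩, hx.2⟩
  have h5 := Finset.card_le_card h4
  omega

lemma sum_step (A : Finset ℕ) (r : ℕ) :
    ∑ g ∈ A, 2 ^ (step A r g).card ≤ 8 * 2 ^ A.card := by
  have hsplit : A.card = (A.filter (· ≤ r)).card + (A.filter (r < ·)).card := by
    rw [← Finset.card_filter_add_card_filter_not (s := A) (fun x => x ≤ r)]
    congr 2
    ext x
    simp
  have h1 : ∑ g ∈ A, 2 ^ (step A r g).card =
      ∑ g ∈ A.filter (· ≤ r), 2 ^ (step A r g).card +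
      ∑ g ∈ A.filter (r < ·), 2 ^ (step A r g).card := by
    rw [← Finset.sum_filter_add_sum_filter_not A (fun x => x ≤ r)]
    congr 1
    apply Finset.sum_congr _ (fun _ _ => rfl)
    ext x
    simp
  have h2 : ∑ g ∈ A.filter (r < ·), 2 ^ (step A r g).card ≤
      2 ^ ((A.filter (· ≤ r)).card + 2) * 2 ^ (A.filter (r < ·)).card := by
    calc ∑ g ∈ A.filter (r < ·), 2 ^ (step A r g).card
        ≤ ∑ g ∈ A.filter (r < ·), 2 ^ ((A.filter (· ≤ r)).card + 2) *
          2 ^ ((A.filter (r < ·)).filter (g < ·)).card := by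
          apply Finset.sum_le_sum
          intro g hg
          rw [← pow_add]
          exact Nat.pow_le_pow_right (by norm_num)
            (card_step_up A r g (Finset.mem_filter.1 hg).2)
      _ = 2 ^ ((A.filter (· ≤ r)).card + 2) *
          ∑ g ∈ A.filter (r < ·), 2 ^ ((A.filter (r < ·)).filter (g < ·)).card := by
          rw [Finset.mul_sum]
      _ ≤ _ := by
          apply Nat.mul_le_mul_left
          have := sum_up (A.filter (r < ·))
          omega
  have h3 : ∑ g ∈ A.filter (· ≤ r), 2 ^ (step A r g).card ≤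
      2 ^ ((A.filter (r < ·)).card + 2) * 2 ^ (A.filter (· ≤ r)).card := by
    calc ∑ g ∈ A.filter (· ≤ r), 2 ^ (step A r g).card
        ≤ ∑ g ∈ A.filter (· ≤ r), 2 ^ ((A.filter (r < ·)).card + 2) *
          2 ^ ((A.filter (· ≤ r)).filter (· < g)).card := by
          apply Finset.sum_le_sum
          intro g hg
          rw [← pow_add]
          exact Nat.pow_le_pow_right (by norm_num)
            (card_step_down A r g (not_lt.2 (Finset.mem_filter.1 hg).2))
      _ = 2 ^ ((A.filter (r < ·)).card + 2) *
          ∑ g ∈ A.filter (· ≤ r), 2 ^ ((A.filter (· ≤ r)).filter (· < g)).card := by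
          rw [Finset.mul_sum]
      _ ≤ _ := by
          apply Nat.mul_le_mul_left
          have := sum_down (A.filter (· ≤ r))
          omega
  rw [h1, hsplit]
  have e1 : 2 ^ ((A.filter (· ≤ r)).card + 2) * 2 ^ (A.filter (r < ·)).card =
      4 * 2 ^ ((A.filter (· ≤ r)).card + (A.filter (r < ·)).card) := by
    rw [pow_add, pow_add]; ring
  have e2 : 2 ^ ((A.filter (r < ·)).card + 2) * 2 ^ (A.filter (· ≤ r)).card =
      4 * 2 ^ ((A.filter (· ≤ r)).card + (A.filter (r < ·)).card) := by
    rw [pow_add, pow_add]; ring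
  omega

lemma card_paths (m : ℕ) : ∀ (A : Finset ℕ) (r : ℕ), (paths m A r).card ≤ 8 ^ m * 2 ^ A.card := by
  induction m with
  | zero => intro A r; simp [paths, Nat.one_le_two_pow]
  | succ m ih =>
    intro A r
    calc (paths (m + 1) A r).card
        ≤ ∑ g ∈ A, ((paths m (step A r g) g).image (g :: ·)).card := Finset.card_biUnion_le
      _ ≤ ∑ g ∈ A, 8 ^ m * 2 ^ (step A r g).card :=
          Finset.sum_le_sum (fun g _ => Finset.card_image_le.trans (ih _ _))
      _ = 8 ^ m * ∑ g ∈ A, 2 ^ (step A r g).card := by rw [Finset.mul_sum]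
      _ ≤ 8 ^ m * (8 * 2 ^ A.card) := Nat.mul_le_mul_left _ (sum_step A r)
      _ = 8 ^ (m + 1) * 2 ^ A.card := by ring

/-- the number of earlier values below `x` -/
def gap (f : ℕ → ℕ) (k x : ℕ) : ℕ := ((range k).filter (fun p => f p < x)).card

def Killed (f : ℕ → ℕ) (k x : ℕ) : Prop :=
  ∃ p i, p < i ∧ i + 1 < k ∧
    ((f i < x ∧ x < f p ∧ f p < f (i + 1)) ∨ (f (i + 1) < f p ∧ f p < x ∧ x < f i))

def codes (f : ℕ → ℕ) : ℕ → ℕ → List ℕ
  | _, 0 => []
  | k, m + 1 => gap f k (f k) :: codes f (k + 1) m

lemma gap_succ (f : ℕ → ℕ) (k x : ℕ) :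
    gap f (k + 1) x = gap f k x + if f k < x then 1 else 0 := by
  unfold gap
  rw [Finset.range_add_one, Finset.filter_insert]
  split_ifs with h
  · rw [Finset.card_insert_of_notMem (by simp)]
  · rfl

lemma gap_mono (f : ℕ → ℕ) (k : ℕ) {x y : ℕ} (h : x ≤ y) : gap f k x ≤ gap f k y := by
  unfold gap
  apply Finset.card_le_card
  intro p hp
  simp only [Finset.mem_filter] at hp ⊢
  exact ⟨hp.1, hp.2.trans_le h⟩

lemma exists_between (f : ℕ → ℕ) (k : ℕ) {x y : ℕ} (h : gap f k x < gap f k y) :
    ∃ p < k, x ≤ f p ∧ f p < y := by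
  by_contra hcon
  push Not at hcon
  apply absurd h
  rw [not_lt]
  unfold gap
  apply Finset.card_le_card
  intro p hp
  simp only [Finset.mem_filter, Finset.mem_range] at hp ⊢
  refine ⟨hp.1, ?_⟩
  by_contra hx
  exact absurd hp.2 (not_lt.2 (hcon p hp.1 (not_lt.1 hx)))

lemma gap_lt_of_mem (f : ℕ → ℕ) (k : ℕ) {p x : ℕ} (hp : p < k) (h : f p < x) :
    gap f k (f p) < gap f k x := by
  unfold gap
  apply Finset.card_lt_card
  rw [Finset.ssubset_iff_of_subset]
  · exact ⟨p, by simp [hp, h], by simp⟩
  · intro q hq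
    simp only [Finset.mem_filter] at hq ⊢
    exact ⟨hq.1, hq.2.trans h⟩

lemma inv_step (f : ℕ → ℕ) (hf : Function.Injective f) (k : ℕ) (A : Finset ℕ)
    (H : ∀ x, (∀ p < k + 1, f p ≠ x) → ¬ Killed f (k + 1) x → gap f (k + 1) x ∈ A) :
    ∀ x, (∀ p < k + 2, f p ≠ x) → ¬ Killed f (k + 2) x →
      gap f (k + 2) x ∈ step A (gap f (k + 1) (f k)) (gap f (k + 1) (f (k + 1))) := by
  intro x hx hk
  have hk' : ¬ Killed f (k + 1) x := by
    rintro ⟨p, i, h1, h2, h3⟩
    exact hk ⟨p, i, h1, by omega, h3⟩
  have hh := H x (fun p hp => hx p (by omega)) hk'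
  have hxl : f k ≠ x := hx k (by omega)
  have hxy : f (k + 1) ≠ x := hx (k + 1) (by omega)
  have hly : f k ≠ f (k + 1) := fun h => by have := hf h; omega
  rw [gap_succ f (k + 1) x]
  set h := gap f (k + 1) x with hdef
  set g := gap f (k + 1) (f (k + 1)) with gdef
  set r := gap f (k + 1) (f k) with rdef
  rcases lt_or_gt_of_ne hly with hly | hly
  · -- ascent
    have hrg : r < g := gap_lt_of_mem f (k + 1) (by omega) hly
    rw [step, if_pos hrg]
    simp only [Finset.mem_union, Finset.mem_filter, Finset.mem_insert, Finset.mem_singleton,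
      Finset.mem_image]
    rcases lt_or_gt_of_ne hxy with hxy | hxy
    · -- y < x
      rw [if_pos hxy]
      have hgh : g ≤ h := gap_mono f _ hxy.le
      rcases Nat.eq_or_lt_of_le hgh with e | e
      · right; left; right; omega
      · right; right; exact ⟨h, ⟨hh, e⟩, rfl⟩
    · rw [if_neg (by omega), add_zero]
      rcases lt_or_gt_of_ne hxl with hxl | hxl
      · -- l < x < y
        have hgh : h ≤ g := gap_mono f _ hxy.le
        rcases Nat.eq_or_lt_of_le hgh with e | e
        · right; left; left; exact e
        · exfalso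
          obtain ⟨p, hp, hp1, hp2⟩ := exists_between f (k + 1) e
          have hpx : f p ≠ x := hx p (by omega)
          have hpk : p ≠ k := by
            rintro rfl
            omega
          exact hk ⟨p, k, by omega, by omega, Or.inl ⟨hxl, by omega, hp2⟩⟩
      · -- x < l
        left
        exact ⟨hh, gap_mono f _ hxl.le⟩
  · -- descent
    have hrg : g < r + 1 := by
      have : g ≤ r := gap_mono f _ hly.le
      omega
    rw [step, if_neg (by omega)]
    simp only [Finset.mem_union, Finset.mem_filter, Finset.mem_insert, Finset.mem_singleton,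
      Finset.mem_image]
    rcases lt_or_gt_of_ne hxl with hxl | hxl
    · -- l < x
      rw [if_pos (by omega)]
      right; right
      exact ⟨h, ⟨hh, gap_lt_of_mem f (k + 1) (by omega) hxl⟩, rfl⟩
    · rcases lt_or_gt_of_ne hxy with hxy | hxy
      · -- y < x < l
        rw [if_pos hxy]
        have hgh : g ≤ h := gap_mono f _ hxy.le
        rcases Nat.eq_or_lt_of_le hgh with e | e
        · right; left; right; omega
        · exfalso
          obtain ⟨p, hp, hp1, hp2⟩ := exists_between f (k + 1) e
          have hpy : f p ≠ f (k + 1) := fun h => by have := hf h; omega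
          have hpk : p ≠ k := by
            rintro rfl
            omega
          exact hk ⟨p, k, by omega, by omega, Or.inr ⟨by omega, hp2, hxl⟩⟩
      · rw [if_neg (by omega), add_zero]
        have hgh : h ≤ g := gap_mono f _ hxy.le
        rcases Nat.eq_or_lt_of_le hgh with e | e
        · right; left; left; exact e
        · left; exact ⟨hh, e⟩

lemma codes_mem (f : ℕ → ℕ) (hf : Function.Injective f) (n : ℕ)
    (hB : ∀ k < n, ¬ Killed f k (f k)) (m : ℕ) : ∀ (k : ℕ) (A : Finset ℕ), k + 1 + m ≤ n →
    (∀ x, (∀ p < k + 1, f p ≠ x) → ¬ Killed f (k + 1) x → gap f (k + 1) x ∈ A) →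
    codes f (k + 1) m ∈ paths m A (gap f (k + 1) (f k)) := by
  induction m with
  | zero => intro k A _ _; simp [codes, paths]
  | succ m ih =>
    intro k A hkn H
    rw [codes, paths, Finset.mem_biUnion]
    refine ⟨gap f (k + 1) (f (k + 1)), ?_, ?_⟩
    · apply H
      · intro p hp h
        have := hf h
        omega
      · exact hB (k + 1) (by omega)
    · rw [Finset.mem_image]
      refine ⟨codes f (k + 1 + 1) m, ?_, rfl⟩
      have := ih (k + 1) _ (by omega) (inv_step f hf k A H)
      rw [gap_succ f (k + 1) (f (k + 1)), if_neg (lt_irrefl _), add_zero] at this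
      exact this

lemma codes_eq (f f' : ℕ → ℕ) (m : ℕ) : ∀ k, codes f k m = codes f' k m →
    ∀ j, k ≤ j → j < k + m → gap f j (f j) = gap f' j (f' j) := by
  induction m with
  | zero => intro k _ j h1 h2; omega
  | succ m ih =>
    intro k h j h1 h2
    rw [codes, codes, List.cons.injEq] at h
    rcases Nat.eq_or_lt_of_le h1 with rfl | h1
    · exact h.1
    · exact ih (k + 1) h.2 j h1 (by omega)

lemma lt_iff_gap (f : ℕ → ℕ) (_hf : Function.Injective f) (k p : ℕ) (hp : p < k) :
    f p < f k ↔ gap f k (f p) < gap f k (f k) := by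
  constructor
  · exact gap_lt_of_mem f k hp
  · intro h
    by_contra hcon
    rw [not_lt] at hcon
    exact absurd h (not_lt.2 (gap_mono f k hcon))

lemma order_eq (f f' : ℕ → ℕ) (hf : Function.Injective f) (hf' : Function.Injective f') (n : ℕ)
    (h : ∀ j < n, gap f j (f j) = gap f' j (f' j)) :
    ∀ k ≤ n, ∀ p < k, ∀ q < k, (f p < f q ↔ f' p < f' q) := by
  intro k
  induction k with
  | zero => intro _ p hp; omega
  | succ k ih =>
    intro hk p hp q hq
    have ih' := ih (by omega)
    have hgap : ∀ p < k, gap f k (f p) = gap f' k (f' p) := by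
      intro p hp
      unfold gap
      congr 1
      apply Finset.filter_congr
      intro q hq
      exact ih' q (Finset.mem_range.1 hq) p hp
    have key : ∀ p < k, (f p < f k ↔ f' p < f' k) := by
      intro p hp
      rw [lt_iff_gap f hf k p hp, lt_iff_gap f' hf' k p hp, hgap p hp, h k (by omega)]
    have key' : ∀ p < k, (f k < f p ↔ f' k < f' p) := by
      intro p hp
      have h1 : f k ≠ f p := fun h => by have := hf h; omega
      have h2 : f' k ≠ f' p := fun h => by have := hf' h; omega
      have := key p hp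
      constructor
      · intro h3
        rcases lt_or_gt_of_ne h2 with h4 | h4
        · exact h4
        · have := this.2 h4; omega
      · intro h3
        rcases lt_or_gt_of_ne h1 with h4 | h4
        · exact h4
        · have := this.1 h4; omega
    rcases Nat.lt_succ_iff_lt_or_eq.1 hp with hp | rfl
    · rcases Nat.lt_succ_iff_lt_or_eq.1 hq with hq | rfl
      · exact ih' p hp q hq
      · exact key p hp
    · rcases Nat.lt_succ_iff_lt_or_eq.1 hq with hq | rfl
      · exact key' q hq
      · simp

/-- extension of a permutation of `Fin n` to `ℕ` -/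
def ext (n : ℕ) (π : Equiv.Perm (Fin n)) (k : ℕ) : ℕ := if h : k < n then (π ⟨k, h⟩).val else k

lemma ext_injective (n : ℕ) (π : Equiv.Perm (Fin n)) : Function.Injective (ext n π) := by
  intro a b h
  unfold ext at h
  split_ifs at h with h1 h2 h2
  · have := π.injective (Fin.ext h)
    simpa using this
  · have := (π ⟨a, h1⟩).isLt
    omega
  · have := (π ⟨b, h2⟩).isLt
    omega
  · exact h

/-- Baxter permutations of `Fin n` (as used here) -/
def Bax (n : ℕ) (π : Equiv.Perm (Fin n)) : Prop := ∀ k < n, ¬ Killed (ext n π) k (ext n π k)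

lemma perm_eq (n : ℕ) (π π' : Equiv.Perm (Fin n))
    (h : ∀ p < n, ∀ q < n, (ext n π p < ext n π q ↔ ext n π' p < ext n π' q)) : π = π' := by
  have h' : ∀ p q : Fin n, (π p < π q ↔ π' p < π' q) := by
    intro p q
    have := h p.val p.isLt q.val q.isLt
    simp only [ext, p.isLt, q.isLt, dif_pos, Fin.eta] at this
    exact this
  have hval : ∀ (π : Equiv.Perm (Fin n)) (p : Fin n),
      (Finset.univ.filter (fun q => π q < π p)).card = (π p).val := by
    intro π p
    have : (Finset.univ.filter (fun q => π q < π p)).map π.toEmbedding = Finset.Iio (π p) := by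
      ext y
      simp only [Finset.mem_map, Finset.mem_filter, Finset.mem_univ, true_and,
        Equiv.coe_toEmbedding, Finset.mem_Iio]
      constructor
      · rintro ⟨q, hq, rfl⟩
        exact hq
      · intro hy
        exact ⟨π.symm y, by simpa using hy, by simp⟩
    rw [← Finset.card_map π.toEmbedding, this, Fin.card_Iio]
  ext p
  rw [← hval π p, ← hval π' p]
  congr 1
  apply Finset.filter_congr
  intro q _
  exact h' q p

open Classical in
theorem card_bax (n : ℕ) : (Finset.univ.filter (fun π : Equiv.Perm (Fin n) => Bax n π)).card ≤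
    8 ^ n := by
  rcases Nat.eq_zero_or_pos n with rfl | hn
  · refine (Finset.card_le_univ _).trans ?_
    simp
  · obtain ⟨m, rfl⟩ : ∃ m, n = m + 1 := ⟨n - 1, by omega⟩
    have hinj : Set.InjOn (fun π : Equiv.Perm (Fin (m + 1)) => codes (ext (m + 1) π) 1 m)
        ↑(Finset.univ.filter (fun π : Equiv.Perm (Fin (m + 1)) => Bax (m + 1) π)) := by
      intro π _ π' _ h
      apply perm_eq
      apply order_eq _ _ (ext_injective _ _) (ext_injective _ _) (m + 1) _ (m + 1) le_rfl
      intro j hj
      rcases Nat.eq_zero_or_pos j with rfl | hj0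
      · simp [gap]
      · exact codes_eq _ _ m 1 h j hj0 (by omega)
    have hmaps : ∀ π ∈ Finset.univ.filter (fun π : Equiv.Perm (Fin (m + 1)) => Bax (m + 1) π),
        codes (ext (m + 1) π) 1 m ∈ paths m {0, 1} 0 := by
      intro π hπ
      have hB := (Finset.mem_filter.1 hπ).2
      have := codes_mem (ext (m + 1) π) (ext_injective _ _) (m + 1) hB m 0 {0, 1} (by omega) (by
        intro x _ _
        have : gap (ext (m + 1) π) (0 + 1) x ≤ 1 := by
          unfold gap
          refine (Finset.card_filter_le _ _).trans ?_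
          simp
        simp only [Finset.mem_insert, Finset.mem_singleton]
        omega)
      have h0 : gap (ext (m + 1) π) (0 + 1) (ext (m + 1) π 0) = 0 := by
        simp [gap]
      rw [h0] at this
      exact this
    have h1 := Finset.card_le_card_of_injOn _ hmaps hinj
    refine h1.trans ((card_paths m {0, 1} 0).trans ?_)
    have : ({0, 1} : Finset ℕ).card = 2 := by simp
    rw [this, pow_succ]
    have : 0 < 8 ^ m := by positivity
    omega

end Pool.Agent.Q166.Dism
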