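import Pool.Agent.Q166.DismA

/-! Layers of solutions of the cube dismantling problem are Baxter permutations. -/

namespace Pool.Agent.Q166.Dism

open Finset

/-- The unit cubes of an `n × n × n` cube. -/
abbrev Cube (n : ℕ) := Fin n × Fin n × Fin n

/-- Two unit cubes share a face: they differ in exactly one coordinate, and there by exactly 1. -/
def Adj {n : ℕ} (u v : Cube n) : Prop :=
  (u.2.1 = v.2.1 ∧ u.2.2 = v.2.2 ∧ (u.1.val + 1 = v.1.val ∨ v.1.val + 1 = u.1.val)) ∨
  (u.1 = v.1 ∧ u.2.2 = v.2.2 ∧ (u.2.1.val + 1 = v.2.1.val ∨ v.2.1.val + 1 = u.2.1.val)) ∨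
  (u.1 = v.1 ∧ u.2.1 = v.2.1 ∧ (u.2.2.val + 1 = v.2.2.val ∨ v.2.2.val + 1 = u.2.2.val))

instance {n : ℕ} (u v : Cube n) : Decidable (Adj u v) := by
  unfold Adj
  infer_instance

/-- A move deletes a vertex of `S` that has exactly 3 neighbours in `S`. -/
def Move {n : ℕ} (S T : Finset (Cube n)) : Prop :=
  ∃ v ∈ S, (S.filter (fun w => Adj v w)).card = 3 ∧ T = S.erase v

/-- A solution: `n²` pairwise non-adjacent vertices reachable by moves from the whole cube. -/
def IsSolution {n : ℕ} (B : Finset (Cube n)) : Prop :=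
  B.card = n ^ 2 ∧ (∀ u ∈ B, ∀ v ∈ B, ¬ Adj u v) ∧ Relation.ReflTransGen Move Finset.univ B

/-- Latin squares of order `n`. -/
def IsLatin {n : ℕ} (L : Fin n → Fin n → Fin n) : Prop :=
  (∀ i, Function.Bijective (L i)) ∧ ∀ j, Function.Bijective (fun i => L i j)

/-- The set of vertices associated with a Latin square. -/
def assoc {n : ℕ} (L : Fin n → Fin n → Fin n) : Finset (Cube n) :=
  Finset.univ.image (fun p : Fin n × Fin n => (p.1, p.2, L p.1 p.2))

lemma mem_assoc {n : ℕ} (L : Fin n → Fin n → Fin n) (i j k : Fin n) :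
    (i, j, k) ∈ assoc L ↔ L i j = k := by
  unfold assoc
  simp only [Finset.mem_image, Finset.mem_univ, true_and, Prod.mk.injEq, Prod.exists]
  constructor
  · rintro ⟨a, b, rfl, rfl, h⟩
    exact h
  · intro h
    exact ⟨i, j, rfl, rfl, h⟩

/-- the row in which column `j` has the symbol `k` -/
noncomputable def xb {n : ℕ} {L : Fin n → Fin n → Fin n} (hL : IsLatin L) (j k : Fin n) : Fin n :=
  Classical.choose ((hL.2 j).2 k)

/-- the column in which row `i` has the symbol `k` -/
noncomputable def yb {n : ℕ} {L : Fin n → Fin n → Fin n} (hL : IsLatin L) (i k : Fin n) : Fin n :=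
  Classical.choose ((hL.1 i).2 k)

lemma xb_spec {n : ℕ} {L : Fin n → Fin n → Fin n} (hL : IsLatin L) (j k : Fin n) :
    L (xb hL j k) j = k := Classical.choose_spec ((hL.2 j).2 k)

lemma yb_spec {n : ℕ} {L : Fin n → Fin n → Fin n} (hL : IsLatin L) (i k : Fin n) :
    L i (yb hL i k) = k := Classical.choose_spec ((hL.1 i).2 k)

/-- one step from `a` towards `b` -/
def toward {n : ℕ} (a b : Fin n) : Fin n :=
  if h : a.val < b.val then ⟨a.val + 1, by have := b.isLt; omega⟩
  else if b.val < a.val then ⟨a.val - 1, by have := a.isLt; omega⟩ else a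

lemma toward_val {n : ℕ} (a b : Fin n) : (a.val < b.val ∧ (toward a b).val = a.val + 1) ∨
    (b.val < a.val ∧ (toward a b).val + 1 = a.val) ∨ (a = b ∧ toward a b = a) := by
  unfold toward
  split_ifs with h1 h2
  · left; exact ⟨h1, rfl⟩
  · right; left; refine ⟨h2, ?_⟩; show a.val - 1 + 1 = a.val; omega
  · right; right; exact ⟨Fin.ext (by omega), rfl⟩

/-- the invariant: the remaining set is star-shaped towards `B` on every line -/
def Inv {n : ℕ} {L : Fin n → Fin n → Fin n} (hL : IsLatin L) (S : Finset (Cube n)) : Prop :=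
  ∀ i j k, (i, j, k) ∈ S → (toward i (xb hL j k), j, k) ∈ S ∧ (i, toward j (yb hL i k), k) ∈ S ∧
    (i, j, toward k (L i j)) ∈ S

lemma nbrs {n : ℕ} {L : Fin n → Fin n → Fin n} (hL : IsLatin L) (S : Finset (Cube n))
    (hI : Inv hL S) (i j k : Fin n) (hv : (i, j, k) ∈ S) (hB : L i j ≠ k)
    (hc : (S.filter (fun w => Adj (i, j, k) w)).card = 3) :
    ∀ w ∈ S, Adj (i, j, k) w → w = (toward i (xb hL j k), j, k) ∨
      w = (i, toward j (yb hL i k), k) ∨ w = (i, j, toward k (L i j)) := by
  obtain ⟨h1, h2, h3⟩ := hI i j k hv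
  have hx : i ≠ xb hL j k := fun h => hB (by rw [h]; exact xb_spec hL j k)
  have hy : j ≠ yb hL i k := fun h => hB (by rw [h]; exact yb_spec hL i k)
  have hz : k ≠ L i j := fun h => hB h.symm
  have hx' := toward_val i (xb hL j k)
  have hy' := toward_val j (yb hL i k)
  have hz' := toward_val k (L i j)
  have nx : (toward i (xb hL j k)).val ≠ i.val := by
    rcases hx' with ⟨_, h⟩ | ⟨_, h⟩ | ⟨h, _⟩
    · omega
    · omega
    · exact absurd h hx
  have ny : (toward j (yb hL i k)).val ≠ j.val := by
    rcases hy' with ⟨_, h⟩ | ⟨_, h⟩ | ⟨h, _⟩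
    · omega
    · omega
    · exact absurd h hy
  have nz : (toward k (L i j)).val ≠ k.val := by
    rcases hz' with ⟨_, h⟩ | ⟨_, h⟩ | ⟨h, _⟩
    · omega
    · omega
    · exact absurd h hz
  have a1 : Adj (i, j, k) (toward i (xb hL j k), j, k) := by
    left
    refine ⟨rfl, rfl, ?_⟩
    rcases hx' with ⟨_, h⟩ | ⟨_, h⟩ | ⟨h, _⟩
    · left; simp only; omega
    · right; simp only; omega
    · exact absurd h hx
  have a2 : Adj (i, j, k) (i, toward j (yb hL i k), k) := by
    right; left
    refine ⟨rfl, rfl, ?_⟩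
    rcases hy' with ⟨_, h⟩ | ⟨_, h⟩ | ⟨h, _⟩
    · left; simp only; omega
    · right; simp only; omega
    · exact absurd h hy
  have a3 : Adj (i, j, k) (i, j, toward k (L i j)) := by
    right; right
    refine ⟨rfl, rfl, ?_⟩
    rcases hz' with ⟨_, h⟩ | ⟨_, h⟩ | ⟨h, _⟩
    · left; simp only; omega
    · right; simp only; omega
    · exact absurd h hz
  have hsub : ({(toward i (xb hL j k), j, k), (i, toward j (yb hL i k), k),
      (i, j, toward k (L i j))} : Finset (Cube n)) ⊆ S.filter (fun w => Adj (i, j, k) w) := by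
    intro w hw
    simp only [Finset.mem_insert, Finset.mem_singleton] at hw
    rw [Finset.mem_filter]
    rcases hw with rfl | rfl | rfl
    · exact ⟨h1, a1⟩
    · exact ⟨h2, a2⟩
    · exact ⟨h3, a3⟩
  have hcard : ({(toward i (xb hL j k), j, k), (i, toward j (yb hL i k), k),
      (i, j, toward k (L i j))} : Finset (Cube n)).card = 3 := by
    rw [Finset.card_eq_three]
    refine ⟨_, _, _, ?_, ?_, ?_, rfl⟩
    · intro h
      simp only [Prod.mk.injEq] at h
      exact nx (congrArg Fin.val h.1)
    · intro h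
      simp only [Prod.mk.injEq] at h
      exact nx (congrArg Fin.val h.1)
    · intro h
      simp only [Prod.mk.injEq] at h
      exact ny (congrArg Fin.val h.2.1)
  have heq := Finset.eq_of_subset_of_card_le hsub (by rw [hc, hcard])
  intro w hw hadj
  have : w ∈ S.filter (fun w => Adj (i, j, k) w) := Finset.mem_filter.2 ⟨hw, hadj⟩
  rw [← heq] at this
  simpa using this

lemma toward_adj1 {n : ℕ} {a b : Fin n} (h : a ≠ b) :
    (toward a b).val + 1 = a.val ∨ a.val + 1 = (toward a b).val := by
  rcases toward_val a b with ⟨_, h'⟩ | ⟨_, h'⟩ | ⟨h', _⟩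
  · right; omega
  · left; omega
  · exact absurd h' h

lemma toward_toward {n : ℕ} {a b : Fin n} (h : a ≠ b) (h' : toward a b ≠ b) :
    toward (toward a b) b ≠ a := by
  intro h2
  have h2' := congrArg Fin.val h2
  have h3 : (toward a b).val ≠ b.val := fun h => h' (Fin.ext h)
  rcases toward_val a b with ⟨h4, h5⟩ | ⟨h4, h5⟩ | ⟨h4, _⟩
  · rcases toward_val (toward a b) b with ⟨h6, h7⟩ | ⟨h6, h7⟩ | ⟨h6, _⟩
    · omega
    · omega
    · exact h' h6
  · rcases toward_val (toward a b) b with ⟨h6, h7⟩ | ⟨h6, h7⟩ | ⟨h6, _⟩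
    · omega
    · omega
    · exact h' h6
  · exact h h4

lemma toward_ne {n : ℕ} {a b : Fin n} (h : a ≠ b) : toward a b ≠ a := by
  intro h'
  have := toward_adj1 h
  rw [h'] at this
  omega

/-- the invariant is preserved by moves -/
lemma inv_move {n : ℕ} {L : Fin n → Fin n → Fin n} (hL : IsLatin L) (S : Finset (Cube n))
    (hI : Inv hL S) (v : Cube n) (hv : v ∈ S) (hB : v ∉ assoc L)
    (hc : (S.filter (fun w => Adj v w)).card = 3) : Inv hL (S.erase v) := by
  obtain ⟨a, b, c⟩ := v
  rw [mem_assoc] at hB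
  have hN := nbrs hL S hI a b c hv hB hc
  intro i j k hw
  rw [Finset.mem_erase] at hw
  obtain ⟨hne, hw⟩ := hw
  obtain ⟨h1, h2, h3⟩ := hI i j k hw
  refine ⟨?_, ?_, ?_⟩
  · rw [Finset.mem_erase]
    refine ⟨fun heq => ?_, h1⟩
    simp only [Prod.mk.injEq] at heq
    obtain ⟨ha, rfl, rfl⟩ := heq
    have hix : i ≠ xb hL j k := by
      intro h
      apply hne
      rw [← ha]
      rcases toward_val i (xb hL j k) with ⟨h', _⟩ | ⟨h', _⟩ | ⟨_, h'⟩
      · rw [← h] at h'; omega
      · rw [← h] at h'; omega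
      · rw [h']
    have hax : toward i (xb hL j k) ≠ xb hL j k := by
      rw [ha]
      intro h
      exact hB (by rw [h]; exact xb_spec hL j k)
    have hadj : Adj (a, j, k) (i, j, k) := by
      left
      refine ⟨rfl, rfl, ?_⟩
      rw [← ha]
      exact toward_adj1 hix
    rcases hN _ hw hadj with h | h | h
    · simp only [Prod.mk.injEq] at h
      rw [← ha] at h
      exact toward_toward hix hax h.1.symm
    · simp only [Prod.mk.injEq] at h
      rw [← ha] at h
      exact toward_ne hix h.1.symm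
    · simp only [Prod.mk.injEq] at h
      rw [← ha] at h
      exact toward_ne hix h.1.symm
  · rw [Finset.mem_erase]
    refine ⟨fun heq => ?_, h2⟩
    simp only [Prod.mk.injEq] at heq
    obtain ⟨rfl, ha, rfl⟩ := heq
    have hix : j ≠ yb hL i k := by
      intro h
      apply hne
      rw [← ha]
      rcases toward_val j (yb hL i k) with ⟨h', _⟩ | ⟨h', _⟩ | ⟨_, h'⟩
      · rw [← h] at h'; omega
      · rw [← h] at h'; omega
      · rw [h']
    have hax : toward j (yb hL i k) ≠ yb hL i k := by
      rw [ha]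
      intro h
      exact hB (by rw [h]; exact yb_spec hL i k)
    have hadj : Adj (i, b, k) (i, j, k) := by
      right; left
      refine ⟨rfl, rfl, ?_⟩
      rw [← ha]
      exact toward_adj1 hix
    rcases hN _ hw hadj with h | h | h
    · simp only [Prod.mk.injEq] at h
      rw [← ha] at h
      exact toward_ne hix h.2.1.symm
    · simp only [Prod.mk.injEq] at h
      rw [← ha] at h
      exact toward_toward hix hax h.2.1.symm
    · simp only [Prod.mk.injEq] at h
      rw [← ha] at h
      exact toward_ne hix h.2.1.symm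
  · rw [Finset.mem_erase]
    refine ⟨fun heq => ?_, h3⟩
    simp only [Prod.mk.injEq] at heq
    obtain ⟨rfl, rfl, ha⟩ := heq
    have hix : k ≠ L i j := by
      intro h
      apply hne
      rw [← ha]
      rcases toward_val k (L i j) with ⟨h', _⟩ | ⟨h', _⟩ | ⟨_, h'⟩
      · rw [← h] at h'; omega
      · rw [← h] at h'; omega
      · rw [h']
    have hax : toward k (L i j) ≠ L i j := by
      rw [ha]
      exact fun h => hB h.symm
    have hadj : Adj (i, j, c) (i, j, k) := by
      right; right
      refine ⟨rfl, rfl, ?_⟩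
      rw [← ha]
      exact toward_adj1 hix
    rcases hN _ hw hadj with h | h | h
    · simp only [Prod.mk.injEq] at h
      rw [← ha] at h
      exact toward_ne hix h.2.2.symm
    · simp only [Prod.mk.injEq] at h
      rw [← ha] at h
      exact toward_ne hix h.2.2.symm
    · simp only [Prod.mk.injEq] at h
      rw [← ha] at h
      exact toward_toward hix hax h.2.2.symm

lemma subset_of_path {n : ℕ} {S T : Finset (Cube n)} (h : Relation.ReflTransGen Move S T) :
    T ⊆ S := by
  induction h with
  | refl => exact Finset.Subset.refl _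
  | tail _ hm ih =>
    obtain ⟨v, _, _, rfl⟩ := hm
    exact (Finset.erase_subset _ _).trans ih

/-- a set of non-`B` vertices, each of which is forced to be present by another member of the set,
can never be dismantled -/
lemma stuck {n : ℕ} {L : Fin n → Fin n → Fin n} (hL : IsLatin L) (X : Finset (Cube n))
    (hX : ∀ v ∈ X, v ∉ assoc L)
    (hcl : ∀ v ∈ X, ∃ w ∈ X, w ≠ v ∧ ∀ S, Inv hL S → w ∈ S → v ∈ S)
    {S : Finset (Cube n)} (hI : Inv hL S) (hXS : X ⊆ S) (hne : X.Nonempty) :
    ¬ Relation.ReflTransGen Move S (assoc L) := by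
  intro h
  induction h using Relation.ReflTransGen.head_induction_on with
  | refl =>
    obtain ⟨v, hv⟩ := hne
    exact hX v hv (hXS hv)
  | head hm hr ih =>
    obtain ⟨v, hv, hc, rfl⟩ := hm
    have hB : v ∉ assoc L := by
      intro h
      have := subset_of_path hr h
      simp at this
    have hI' := inv_move hL _ hI v hv hB hc
    have hvX : v ∉ X := by
      intro hvX
      obtain ⟨w, hw, hwv, hwS⟩ := hcl v hvX
      have := hwS _ hI' (Finset.mem_erase.2 ⟨hwv, hXS hw⟩)
      simp at this
    exact ih hI' (fun x hx => Finset.mem_erase.2 ⟨fun h => hvX (h ▸ hx), hXS hx⟩)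

lemma inv_univ {n : ℕ} {L : Fin n → Fin n → Fin n} (hL : IsLatin L) :
    Inv hL Finset.univ := fun _ _ _ _ => ⟨Finset.mem_univ _, Finset.mem_univ _, Finset.mem_univ _⟩

/-- existence of the step towards `b` -/
lemma toward_eq_succ {n : ℕ} {a a' b : Fin n} (h : a'.val = a.val + 1) (hb : a.val < b.val) :
    toward a b = a' := by
  apply Fin.ext
  rcases toward_val a b with ⟨_, h'⟩ | ⟨h', _⟩ | ⟨h', _⟩
  · omega
  · omega
  · rw [h'] at hb; omega

lemma toward_eq_pred {n : ℕ} {a a' b : Fin n} (h : a.val = a'.val + 1) (hb : b.val < a.val) :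
    toward a b = a' := by
  apply Fin.ext
  rcases toward_val a b with ⟨h', _⟩ | ⟨_, h'⟩ | ⟨h', _⟩
  · omega
  · omega
  · rw [h'] at hb; omega

/-- no counterclockwise 4-cycle in a layer of a solution -/
lemma no_ccw {n : ℕ} {L : Fin n → Fin n → Fin n} (hL : IsLatin L)
    (hS : Relation.ReflTransGen Move Finset.univ (assoc L)) (i i' j j' k : Fin n)
    (hi : i'.val = i.val + 1) (hj : j'.val = j.val + 1)
    (h1 : i.val < (xb hL j k).val) (h2 : j.val < (yb hL i' k).val)
    (h3 : (xb hL j' k).val < i'.val) (h4 : (yb hL i k).val < j'.val) : False := by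
  have e1 : toward i (xb hL j k) = i' := toward_eq_succ hi h1
  have e2 : toward j (yb hL i' k) = j' := toward_eq_succ hj h2
  have e3 : toward i' (xb hL j' k) = i := toward_eq_pred hi h3
  have e4 : toward j' (yb hL i k) = j := toward_eq_pred hj h4
  have hii : i ≠ i' := fun h => by rw [h] at hi; omega
  have hjj : j ≠ j' := fun h => by rw [h] at hj; omega
  refine stuck hL {(i, j, k), (i', j, k), (i', j', k), (i, j', k)} ?_ ?_ (inv_univ hL)
    (Finset.subset_univ _) ⟨_, Finset.mem_insert_self _ _⟩ hS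
  · intro v hv
    simp only [Finset.mem_insert, Finset.mem_singleton] at hv
    rcases hv with rfl | rfl | rfl | rfl
    · rw [mem_assoc]
      intro h
      have : i = xb hL j k := (hL.2 j).1 (by show L i j = L (xb hL j k) j; rw [xb_spec hL, h])
      rw [← this] at h1; omega
    · rw [mem_assoc]
      intro h
      have : j = yb hL i' k := (hL.1 i').1 (by rw [yb_spec hL, h])
      rw [← this] at h2; omega
    · rw [mem_assoc]
      intro h
      have : i' = xb hL j' k := (hL.2 j').1 (by show L i' j' = L (xb hL j' k) j'; rw [xb_spec hL, h])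
      rw [← this] at h3; omega
    · rw [mem_assoc]
      intro h
      have : j' = yb hL i k := (hL.1 i).1 (by rw [yb_spec hL, h])
      rw [← this] at h4; omega
  · intro v hv
    simp only [Finset.mem_insert, Finset.mem_singleton] at hv
    rcases hv with rfl | rfl | rfl | rfl
    · refine ⟨(i, j', k), by simp, by simp [hjj.symm], fun S hI hw => ?_⟩
      have := (hI _ _ _ hw).2.1
      rwa [e4] at this
    · refine ⟨(i, j, k), by simp, by simp [hii], fun S hI hw => ?_⟩
      have := (hI _ _ _ hw).1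
      rwa [e1] at this
    · refine ⟨(i', j, k), by simp, by simp [hjj], fun S hI hw => ?_⟩
      have := (hI _ _ _ hw).2.1
      rwa [e2] at this
    · refine ⟨(i', j', k), by simp, by simp [hii.symm], fun S hI hw => ?_⟩
      have := (hI _ _ _ hw).1
      rwa [e3] at this

/-- no clockwise 4-cycle in a layer of a solution -/
lemma no_cw {n : ℕ} {L : Fin n → Fin n → Fin n} (hL : IsLatin L)
    (hS : Relation.ReflTransGen Move Finset.univ (assoc L)) (i i' j j' k : Fin n)
    (hi : i'.val = i.val + 1) (hj : j'.val = j.val + 1)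
    (h1 : j.val < (yb hL i k).val) (h2 : i.val < (xb hL j' k).val)
    (h3 : (yb hL i' k).val < j'.val) (h4 : (xb hL j k).val < i'.val) : False := by
  have e1 : toward j (yb hL i k) = j' := toward_eq_succ hj h1
  have e2 : toward i (xb hL j' k) = i' := toward_eq_succ hi h2
  have e3 : toward j' (yb hL i' k) = j := toward_eq_pred hj h3
  have e4 : toward i' (xb hL j k) = i := toward_eq_pred hi h4
  have hii : i ≠ i' := fun h => by rw [h] at hi; omega
  have hjj : j ≠ j' := fun h => by rw [h] at hj; omega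
  refine stuck hL {(i, j, k), (i', j, k), (i', j', k), (i, j', k)} ?_ ?_ (inv_univ hL)
    (Finset.subset_univ _) ⟨_, Finset.mem_insert_self _ _⟩ hS
  · intro v hv
    simp only [Finset.mem_insert, Finset.mem_singleton] at hv
    rcases hv with rfl | rfl | rfl | rfl
    · rw [mem_assoc]
      intro h
      have : j = yb hL i k := (hL.1 i).1 (by rw [yb_spec hL, h])
      rw [← this] at h1; omega
    · rw [mem_assoc]
      intro h
      have : i' = xb hL j k := (hL.2 j).1 (by show L i' j = L (xb hL j k) j; rw [xb_spec hL, h])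
      rw [← this] at h4; omega
    · rw [mem_assoc]
      intro h
      have : j' = yb hL i' k := (hL.1 i').1 (by rw [yb_spec hL, h])
      rw [← this] at h3; omega
    · rw [mem_assoc]
      intro h
      have : i = xb hL j' k := (hL.2 j').1 (by show L i j' = L (xb hL j' k) j'; rw [xb_spec hL, h])
      rw [← this] at h2; omega
  · intro v hv
    simp only [Finset.mem_insert, Finset.mem_singleton] at hv
    rcases hv with rfl | rfl | rfl | rfl
    · refine ⟨(i', j, k), by simp, by simp [hii.symm], fun S hI hw => ?_⟩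
      have := (hI _ _ _ hw).1
      rwa [e4] at this
    · refine ⟨(i', j', k), by simp, by simp [hjj.symm], fun S hI hw => ?_⟩
      have := (hI _ _ _ hw).2.1
      rwa [e3] at this
    · refine ⟨(i, j', k), by simp, by simp [hii], fun S hI hw => ?_⟩
      have := (hI _ _ _ hw).1
      rwa [e2] at this
    · refine ⟨(i, j, k), by simp, by simp [hjj], fun S hI hw => ?_⟩
      have := (hI _ _ _ hw).2.1
      rwa [e1] at this

/-- the permutation matrix of the layer `k`: row ↦ column -/
noncomputable def layer {n : ℕ} {L : Fin n → Fin n → Fin n} (hL : IsLatin L) (k : Fin n) :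
    Equiv.Perm (Fin n) where
  toFun i := yb hL i k
  invFun j := xb hL j k
  left_inv i := (hL.2 (yb hL i k)).1 (by
    show L (xb hL (yb hL i k) k) (yb hL i k) = L i (yb hL i k)
    rw [xb_spec hL, yb_spec hL])
  right_inv j := (hL.1 (xb hL j k)).1 (by rw [xb_spec hL, yb_spec hL])

lemma discrete (Q : ℕ → Prop) (a b : ℕ) (hab : a < b) (ha : Q a) (hb : ¬ Q b) :
    ∃ j, a ≤ j ∧ j < b ∧ Q j ∧ ¬ Q (j + 1) := by
  induction b, hab using Nat.le_induction with
  | base => exact ⟨a, le_rfl, Nat.lt_succ_self a, ha, hb⟩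
  | succ b hab ih =>
    by_cases h : Q b
    · exact ⟨b, by omega, by omega, h, hb⟩
    · obtain ⟨j, h1, h2, h3, h4⟩ := ih h
      exact ⟨j, h1, by omega, h3, h4⟩

/-- the layers of a solution are Baxter permutations -/
theorem layer_bax {n : ℕ} {L : Fin n → Fin n → Fin n} (hL : IsLatin L)
    (hS : Relation.ReflTransGen Move Finset.univ (assoc L)) (k : Fin n) :
    Bax n (layer hL k) := by
  intro q hq hK
  obtain ⟨p, i, hpi, hiq, h⟩ := hK
  have hp : p < n := by omega
  have hi : i < n := by omega
  have hi' : i + 1 < n := by omega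
  simp only [ext, hp, hi, hi', hq, dif_pos] at h
  -- positions
  let pos : ℕ → ℕ := fun v => if hv : v < n then (xb hL ⟨v, hv⟩ k).val else 0
  have hpos : ∀ a (ha : a < n), pos (layer hL k ⟨a, ha⟩).val = a := by
    intro a ha
    have : (layer hL k).symm (layer hL k ⟨a, ha⟩) = ⟨a, ha⟩ := Equiv.symm_apply_apply _ _
    have h2 : xb hL (layer hL k ⟨a, ha⟩) k = ⟨a, ha⟩ := this
    simp only [pos, (layer hL k ⟨a, ha⟩).isLt, dif_pos, Fin.eta, h2]
  rcases h with ⟨h1, h2, h3⟩ | ⟨h1, h2, h3⟩
  · obtain ⟨j, hj1, hj2, hj3, hj4⟩ := discrete (fun v => i < pos v) _ _ h2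
      (by simp only [hpos q hq]; omega) (by simp only [hpos p hp]; omega)
    have hjn : j < n := by have := (layer hL k ⟨p, hp⟩).isLt; omega
    have hjn' : j + 1 < n := by have := (layer hL k ⟨i + 1, hi'⟩).isLt; omega
    simp only [pos, hjn, dif_pos] at hj3
    simp only [pos, hjn', dif_pos] at hj4
    refine no_ccw hL hS ⟨i, hi⟩ ⟨i + 1, hi'⟩ ⟨j, hjn⟩ ⟨j + 1, hjn'⟩ k rfl rfl hj3 ?_ ?_ ?_
    · show j < (layer hL k ⟨i + 1, hi'⟩).val
      omega
    · show _ < i + 1
      omega
    · show (layer hL k ⟨i, hi⟩).val < j + 1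
      omega
  · obtain ⟨j, hj1, hj2, hj3, hj4⟩ := discrete (fun v => pos v ≤ i) _ _ h2
      (by simp only [hpos p hp]; omega) (by simp only [hpos q hq]; omega)
    have hjn : j < n := by have := (layer hL k ⟨q, hq⟩).isLt; omega
    have hjn' : j + 1 < n := by have := (layer hL k ⟨i, hi⟩).isLt; omega
    simp only [pos, hjn, dif_pos] at hj3
    simp only [pos, hjn', dif_pos] at hj4
    refine no_cw hL hS ⟨i, hi⟩ ⟨i + 1, hi'⟩ ⟨j, hjn⟩ ⟨j + 1, hjn'⟩ k rfl rfl ?_ ?_ ?_ ?_
    · show j < (layer hL k ⟨i, hi⟩).val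
      omega
    · show i < _
      omega
    · show (layer hL k ⟨i + 1, hi'⟩).val < j + 1
      omega
    · show _ < i + 1
      omega

end Pool.Agent.Q166.Dism
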