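import Mathlib

/-! M. Hall's lower bound for the number of systems of distinct representatives, and the resulting
lower bound for the number of Latin squares. -/

namespace Pool.Agent.Q166.Dism

open Finset Classical

/-- the systems of distinct representatives -/
noncomputable def sdr {ι α : Type} [Fintype ι] (t : ι → Finset α) : Finset (ι → α) :=
  (Fintype.piFinset t).filter (fun f => Function.Injective f)

lemma mem_sdr {ι α : Type} [Fintype ι] (t : ι → Finset α) (f : ι → α) :
    f ∈ sdr t ↔ (∀ i, f i ∈ t i) ∧ Function.Injective f := by
  unfold sdr
  rw [Finset.mem_filter, Fintype.mem_piFinset]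

lemma hall_exists {ι α : Type} [Fintype ι] (t : ι → Finset α)
    (hall : ∀ s : Finset ι, s.card ≤ (s.biUnion t).card) : (sdr t).Nonempty := by
  obtain ⟨f, hf, h⟩ := (Finset.all_card_le_biUnion_card_iff_exists_injective t).1 hall
  exact ⟨f, (mem_sdr t f).2 ⟨h, hf⟩⟩

theorem sdr_count (m : ℕ) : ∀ (ι : Type) [Fintype ι] (α : Type) (t : ι → Finset α) (k : ℕ),
    Fintype.card ι = m → k ≤ m → (∀ i, k ≤ (t i).card) →
    (∀ s : Finset ι, s.card ≤ (s.biUnion t).card) → k.factorial ≤ (sdr t).card := by
  induction m using Nat.strong_induction_on with
  | _ m ih =>
    intro ι _ α t k hm hk ht hall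
    rcases Nat.eq_zero_or_pos k with rfl | hk0
    · rw [Nat.factorial_zero]
      exact Finset.card_pos.2 (hall_exists t hall)
    by_cases hstrict : ∀ s : Finset ι, s.Nonempty → s ≠ Finset.univ →
        s.card < (s.biUnion t).card
    · -- strict case
      have hpos : 0 < Fintype.card ι := by omega
      obtain ⟨a⟩ := Fintype.card_pos_iff.1 hpos
      let t' : α → {x : ι // x ≠ a} → Finset α := fun y x => (t x.1).erase y
      have hcard : Fintype.card {x : ι // x ≠ a} = m - 1 := by
        rw [Fintype.card_subtype_compl, hm]
        simp
      have h1 : ∀ y ∈ t a, (k - 1).factorial ≤ (sdr (t' y)).card := by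
        intro y hy
        apply ih (m - 1) (by omega) _ _ _ _ hcard (by omega)
        · intro x
          have := Finset.pred_card_le_card_erase (s := t x.1) (a := y)
          have := ht x.1
          show k - 1 ≤ ((t x.1).erase y).card
          omega
        · intro s
          rcases s.eq_empty_or_nonempty with rfl | hs
          · simp
          have h2 := hstrict (s.map ⟨Subtype.val, Subtype.val_injective⟩) (by simpa using hs) (by
            intro h
            have : a ∈ s.map ⟨Subtype.val, Subtype.val_injective⟩ := by rw [h]; simp
            rw [Finset.mem_map] at this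
            obtain ⟨x, _, hx⟩ := this
            exact x.2 hx)
          rw [Finset.card_map] at h2
          have h3 : ((s.map ⟨Subtype.val, Subtype.val_injective⟩).biUnion t).erase y ⊆
              s.biUnion (t' y) := by
            intro z hz
            rw [Finset.mem_erase, Finset.mem_biUnion] at hz
            obtain ⟨hzy, x, hx, hzx⟩ := hz
            rw [Finset.mem_map] at hx
            obtain ⟨x', hx', rfl⟩ := hx
            rw [Finset.mem_biUnion]
            exact ⟨x', hx', Finset.mem_erase.2 ⟨hzy, hzx⟩⟩
          have h4 := Finset.card_le_card h3
          have h5 := Finset.pred_card_le_card_erase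
            (s := (s.map ⟨Subtype.val, Subtype.val_injective⟩).biUnion t) (a := y)
          omega
      -- combine
      let ext : (y : α) → ({x : ι // x ≠ a} → α) → ι → α :=
        fun y f x => if h : x = a then y else f ⟨x, h⟩
      have h2 : ((t a).sigma (fun y => sdr (t' y))).card ≤ (sdr t).card := by
        apply Finset.card_le_card_of_injOn (fun p => ext p.1 p.2)
        · rintro ⟨y, f⟩ hp
          simp only [Finset.coe_sigma, Set.mem_sigma_iff, Finset.mem_coe] at hp
          obtain ⟨hy, hf⟩ := hp
          rw [mem_sdr] at hf
          obtain ⟨hf1, hf2⟩ := hf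
          rw [Finset.mem_coe, mem_sdr]
          constructor
          · intro x
            simp only [ext]
            split_ifs with h
            · rw [h]; exact hy
            · exact Finset.mem_of_mem_erase (hf1 ⟨x, h⟩)
          · intro x x' hxx
            simp only [ext] at hxx
            split_ifs at hxx with h h' h'
            · rw [h, h']
            · exfalso
              have := hf1 ⟨x', h'⟩
              exact (Finset.mem_erase.1 this).1 hxx.symm
            · exfalso
              have := hf1 ⟨x, h⟩
              exact (Finset.mem_erase.1 this).1 hxx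
            · have := hf2 hxx
              simpa using this
        · rintro ⟨y, f⟩ _ ⟨y', f'⟩ _ h
          simp only at h
          have hy : y = y' := by
            have := congrFun h a
            simpa [ext] using this
          subst hy
          have hf : f = f' := by
            funext x
            have := congrFun h x.1
            simp only [ext, x.2, dif_neg, not_false_eq_true] at this
            exact this
          rw [hf]
      rw [Finset.card_sigma] at h2
      have h3 : (t a).card * (k - 1).factorial ≤ ∑ y ∈ t a, (sdr (t' y)).card := by
        rw [← smul_eq_mul, ← Finset.sum_const]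
        exact Finset.sum_le_sum h1
      have h4 : k.factorial = k * (k - 1).factorial := (Nat.mul_factorial_pred (by omega)).symm
      rw [h4]
      exact (Nat.mul_le_mul_right _ (ht a)).trans (h3.trans h2)
    · -- a tight set
      push Not at hstrict
      obtain ⟨s, hs, hsu, hle⟩ := hstrict
      have htight : s.card = (s.biUnion t).card := le_antisymm (hall s) hle
      have hslt : s.card < m := by
        rw [← hm]
        exact Finset.card_lt_univ_of_notMem (Classical.choose_spec (by
          by_contra hcon
          push Not at hcon
          exact hsu (Finset.eq_univ_iff_forall.2 hcon) : ∃ x, x ∉ s))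
      let t1 : {x : ι // x ∈ s} → Finset α := fun x => t x.1
      let t2 : {x : ι // x ∉ s} → Finset α := fun x => t x.1 \ s.biUnion t
      have h1 : k.factorial ≤ (sdr t1).card := by
        apply ih s.card hslt _ _ _ _ (by simp)
        · obtain ⟨x, hx⟩ := hs
          rw [htight]
          exact (ht x).trans (Finset.card_le_card (Finset.subset_biUnion_of_mem t hx))
        · intro x; exact ht x.1
        · intro u
          have := hall (u.map ⟨Subtype.val, Subtype.val_injective⟩)
          rw [Finset.card_map] at this
          refine this.trans (Finset.card_le_card ?_)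
          intro z hz
          rw [Finset.mem_biUnion] at hz
          obtain ⟨x, hx, hzx⟩ := hz
          rw [Finset.mem_map] at hx
          obtain ⟨x', hx', rfl⟩ := hx
          rw [Finset.mem_biUnion]
          exact ⟨x', hx', hzx⟩
      have h2 : (sdr t2).Nonempty := by
        apply hall_exists
        intro u
        have hd : Disjoint s (u.map ⟨Subtype.val, Subtype.val_injective⟩) := by
          rw [Finset.disjoint_left]
          intro x hx hx'
          rw [Finset.mem_map] at hx'
          obtain ⟨x', _, rfl⟩ := hx'
          exact x'.2 hx
        have h3 := hall (s ∪ u.map ⟨Subtype.val, Subtype.val_injective⟩)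
        rw [Finset.card_union_of_disjoint hd, Finset.card_map] at h3
        have h4 : (s ∪ u.map ⟨Subtype.val, Subtype.val_injective⟩).biUnion t ⊆
            s.biUnion t ∪ u.biUnion t2 := by
          intro z hz
          rw [Finset.mem_biUnion] at hz
          obtain ⟨x, hx, hzx⟩ := hz
          by_cases hzU : z ∈ s.biUnion t
          · exact Finset.mem_union_left _ hzU
          · rw [Finset.mem_union] at hx
            rcases hx with hx | hx
            · exact absurd (Finset.mem_biUnion.2 ⟨x, hx, hzx⟩) hzU
            · rw [Finset.mem_map] at hx
              obtain ⟨x', hx', rfl⟩ := hx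
              apply Finset.mem_union_right
              rw [Finset.mem_biUnion]
              exact ⟨x', hx', Finset.mem_sdiff.2 ⟨hzx, hzU⟩⟩
        have h5 := Finset.card_le_card h4
        have h6 := Finset.card_union_le (s.biUnion t) (u.biUnion t2)
        omega
      obtain ⟨f2, hf2⟩ := h2
      rw [mem_sdr] at hf2
      refine h1.trans (Finset.card_le_card_of_injOn
        (fun f x => if h : x ∈ s then f ⟨x, h⟩ else f2 ⟨x, h⟩) ?_ ?_)
      · intro f hf
        rw [Finset.mem_coe, mem_sdr] at hf
        rw [Finset.mem_coe, mem_sdr]
        constructor
        · intro x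
          simp only
          split_ifs with h
          · exact hf.1 ⟨x, h⟩
          · exact (Finset.mem_sdiff.1 (hf2.1 ⟨x, h⟩)).1
        · intro x x' hxx
          simp only at hxx
          split_ifs at hxx with h h' h'
          · simpa using hf.2 hxx
          · exfalso
            have h3 := (Finset.mem_sdiff.1 (hf2.1 ⟨x', h'⟩)).2
            apply h3
            rw [← hxx]
            exact Finset.mem_biUnion.2 ⟨x, h, hf.1 ⟨x, h⟩⟩
          · exfalso
            have h3 := (Finset.mem_sdiff.1 (hf2.1 ⟨x, h⟩)).2
            apply h3
            rw [hxx]
            exact Finset.mem_biUnion.2 ⟨x', h', hf.1 ⟨x', h'⟩⟩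
          · simpa using hf2.2 hxx
      · intro f _ f' _ h
        funext x
        have := congrFun h x.1
        simp only [x.2, dif_pos] at this
        exact this

/-- Latin rectangles with `r` rows -/
noncomputable def rects (n r : ℕ) : Finset (Fin r → Fin n → Fin n) :=
  Finset.univ.filter (fun g => (∀ a, Function.Injective (g a)) ∧
    ∀ a b, a ≠ b → ∀ j, g a j ≠ g b j)

lemma mem_rects (n r : ℕ) (g : Fin r → Fin n → Fin n) : g ∈ rects n r ↔
    (∀ a, Function.Injective (g a)) ∧ ∀ a b, a ≠ b → ∀ j, g a j ≠ g b j := by
  unfold rects
  simp

lemma rects_succ (n r : ℕ) (hr : r < n) :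
    (rects n r).card * (n - r).factorial ≤ (rects n (r + 1)).card := by
  let t : (Fin r → Fin n → Fin n) → Fin n → Finset (Fin n) :=
    fun g j => Finset.univ \ Finset.univ.image (fun a => g a j)
  have hcol : ∀ g ∈ rects n r, ∀ j, (t g j).card = n - r := by
    intro g hg j
    rw [mem_rects] at hg
    show (Finset.univ \ Finset.univ.image (fun a => g a j)).card = n - r
    rw [Finset.card_sdiff_of_subset (Finset.subset_univ _), Finset.card_image_of_injective]
    · simp
    · intro a b hab
      by_contra hne
      exact hg.2 a b hne j hab
  have hsym : ∀ g ∈ rects n r, ∀ k : Fin n,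
      (Finset.univ.filter (fun j => k ∈ t g j)).card ≤ n - r := by
    intro g hg k
    rw [mem_rects] at hg
    have hbij : ∀ a, Function.Bijective (g a) := fun a =>
      (Fintype.bijective_iff_injective_and_card _).2 ⟨hg.1 a, rfl⟩
    choose c hc using fun a => (hbij a).2 k
    have hcinj : Function.Injective c := by
      intro a b hab
      by_contra hne
      apply hg.2 a b hne (c a)
      rw [hc a, hab, hc b]
    have hd : Disjoint (Finset.univ.filter (fun j => k ∈ t g j)) (Finset.univ.image c) := by
      rw [Finset.disjoint_left]
      intro j hj hj'
      rw [Finset.mem_filter] at hj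
      rw [Finset.mem_image] at hj'
      obtain ⟨a, _, rfl⟩ := hj'
      have := (Finset.mem_sdiff.1 hj.2).2
      apply this
      rw [Finset.mem_image]
      exact ⟨a, Finset.mem_univ _, hc a⟩
    have h1 := Finset.card_union_of_disjoint hd
    have h2 : (Finset.univ.filter (fun j => k ∈ t g j) ∪ Finset.univ.image c).card ≤ n := by
      refine (Finset.card_le_univ _).trans ?_
      simp
    have h3 : (Finset.univ.image c).card = r := by
      rw [Finset.card_image_of_injective _ hcinj]
      simp
    omega
  have hcount : ∀ g ∈ rects n r, (n - r).factorial ≤ (sdr (t g)).card := by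
    intro g hg
    apply sdr_count n (Fin n) (Fin n) (t g) (n - r) (by simp) (by omega)
    · intro j; rw [hcol g hg j]
    · intro s
      have h1 := Finset.card_mul_le_card_mul (s := s) (t := s.biUnion (t g))
        (fun j k => k ∈ t g j) (m := n - r) (n := n - r) (by
          intro j hj
          rw [← hcol g hg j]
          apply Finset.card_le_card
          intro k hk
          rw [Finset.mem_bipartiteAbove]
          exact ⟨Finset.mem_biUnion.2 ⟨j, hj, hk⟩, hk⟩) (by
          intro k _
          refine le_trans (Finset.card_le_card ?_) (hsym g hg k)
          intro j hj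
          rw [Finset.mem_bipartiteBelow] at hj
          rw [Finset.mem_filter]
          exact ⟨Finset.mem_univ _, hj.2⟩)
      have h2 := Nat.le_of_mul_le_mul_right h1 (Nat.sub_pos_of_lt hr)
      refine h2.trans (Finset.card_le_card ?_)
      intro z hz
      obtain ⟨x, hx, hzx⟩ := Finset.mem_biUnion.1 hz
      exact (@Finset.mem_biUnion _ _ s (t g) (fun a b => Classical.propDecidable (a = b)) z).2
        ⟨x, hx, hzx⟩
  have h2 : ((rects n r).sigma (fun g => sdr (t g))).card ≤ (rects n (r + 1)).card := by
    apply Finset.card_le_card_of_injOn (fun p => Fin.cons p.2 p.1)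
    · rintro ⟨g, f⟩ hp
      simp only [Finset.coe_sigma, Set.mem_sigma_iff, Finset.mem_coe] at hp
      obtain ⟨hg, hf⟩ := hp
      rw [mem_rects] at hg
      rw [mem_sdr] at hf
      rw [Finset.mem_coe, mem_rects]
      have hnew : ∀ a j, f j ≠ g a j := by
        intro a j h
        have := (Finset.mem_sdiff.1 (hf.1 j)).2
        apply this
        rw [Finset.mem_image]
        exact ⟨a, Finset.mem_univ _, h.symm⟩
      constructor
      · intro a
        refine Fin.cases ?_ ?_ a
        · simpa using hf.2
        · intro a'; simpa using hg.1 a'
      · intro a b
        refine Fin.cases ?_ ?_ a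
        · refine Fin.cases ?_ ?_ b
          · intro h; exact absurd rfl h
          · intro b' _ j
            simpa using hnew b' j
        · intro a'
          refine Fin.cases ?_ ?_ b
          · intro _ j
            simpa using (hnew a' j).symm
          · intro b' h j
            have : a' ≠ b' := fun h' => h (by rw [h'])
            simpa using hg.2 a' b' this j
    · rintro ⟨g, f⟩ _ ⟨g', f'⟩ _ h
      simp only at h
      have h1 := congrFun h 0
      rw [Fin.cons_zero, Fin.cons_zero] at h1
      have h2 : g = g' := by
        funext a
        have := congrFun h a.succ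
        rw [Fin.cons_succ, Fin.cons_succ] at this
        exact this
      rw [h1, h2]
  rw [Finset.card_sigma] at h2
  refine le_trans ?_ h2
  rw [← smul_eq_mul, ← Finset.sum_const]
  exact Finset.sum_le_sum hcount

theorem rects_lower (n r : ℕ) (hr : r ≤ n) :
    ∏ i ∈ Finset.range r, (n - i).factorial ≤ (rects n r).card := by
  induction r with
  | zero =>
    rw [Finset.prod_range_zero]
    apply Finset.card_pos.2
    exact ⟨fun a => a.elim0, by rw [mem_rects]; exact ⟨fun a => a.elim0, fun a => a.elim0⟩⟩
  | succ r ih =>
    rw [Finset.prod_range_succ]
    exact (Nat.mul_le_mul_right _ (ih (by omega))).trans (rects_succ n r (by omega))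

end Pool.Agent.Q166.Dism
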