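import Pool.Agent.Q166.DismB
import Pool.Agent.Q166.DismC

/-! Isotopism classes of Latin squares. -/

namespace Pool.Agent.Q166.Dism

open Finset Classical

/-- The type of Latin squares of order `n`. -/
def LS (n : ℕ) : Type := {L : Fin n → Fin n → Fin n // IsLatin L}

noncomputable instance (n : ℕ) : Fintype (LS n) := by
  unfold LS
  infer_instance

/-- Two Latin squares are isotopic if one arises from the other by permuting the rows, the columns
and the symbols. -/
def Isotopic {n : ℕ} (L L' : LS n) : Prop :=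
  ∃ α β γ : Equiv.Perm (Fin n), ∀ i j, L'.1 (α i) (β j) = γ (L.1 i j)

lemma isotopic_equiv (n : ℕ) : Equivalence (Isotopic (n := n)) where
  refl L := ⟨Equiv.refl _, Equiv.refl _, Equiv.refl _, fun _ _ => rfl⟩
  symm := by
    rintro L L' ⟨α, β, γ, h⟩
    refine ⟨α.symm, β.symm, γ.symm, fun i j => ?_⟩
    have := h (α.symm i) (β.symm j)
    rw [Equiv.apply_symm_apply, Equiv.apply_symm_apply] at this
    rw [this, Equiv.symm_apply_apply]
  trans := by
    rintro L L' L'' ⟨α, β, γ, h⟩ ⟨α', β', γ', h'⟩
    refine ⟨α.trans α', β.trans β', γ.trans γ', fun i j => ?_⟩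
    simp only [Equiv.trans_apply]
    rw [h', h]

def isoSetoid (n : ℕ) : Setoid (LS n) := ⟨Isotopic, isotopic_equiv n⟩

/-- `I n`: the number of isotopism classes of Latin squares of order `n`. -/
noncomputable def I (n : ℕ) : ℕ := Nat.card (Quotient (isoSetoid n))

/-- `s n`: the number of isotopism classes of order `n` that contain a Latin square corresponding
to a solution. -/
noncomputable def s (n : ℕ) : ℕ :=
  Nat.card {c : Quotient (isoSetoid n) //
    ∃ L : LS n, Quotient.mk (isoSetoid n) L = c ∧ IsSolution (assoc L.1)}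

/-- the number of Latin squares is at most `(n!)^3` times the number of classes -/
lemma card_LS_le (n : ℕ) : Fintype.card (LS n) ≤ n.factorial ^ 3 * I n := by
  have : Finite (Quotient (isoSetoid n)) := inferInstance
  let F : (Quotient (isoSetoid n)) × (Equiv.Perm (Fin n) × Equiv.Perm (Fin n) ×
      Equiv.Perm (Fin n)) → (Fin n → Fin n → Fin n) :=
    fun p i j => p.2.2.2 ((Quotient.out p.1).1 (p.2.1 i) (p.2.2.1 j))
  have h1 : ∀ L : LS n, ∃ p, F p = L.1 := by
    intro L
    have : Isotopic (Quotient.out (Quotient.mk (isoSetoid n) L)) L :=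
      Quotient.exact (s := isoSetoid n) (Quotient.out_eq _)
    obtain ⟨α, β, γ, h⟩ := this
    refine ⟨(Quotient.mk (isoSetoid n) L, α.symm, β.symm, γ), ?_⟩
    funext i j
    have := h (α.symm i) (β.symm j)
    rw [Equiv.apply_symm_apply, Equiv.apply_symm_apply] at this
    exact this.symm
  choose G hG using h1
  have hinj : Function.Injective G := by
    intro L L' h
    apply Subtype.ext
    rw [← hG L, ← hG L', h]
  have h2 := Nat.card_le_card_of_injective G hinj
  rw [Nat.card_eq_fintype_card] at h2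
  refine h2.trans (le_of_eq ?_)
  rw [Nat.card_prod, Nat.card_prod, Nat.card_prod, Nat.card_perm, Nat.card_fin]
  unfold I
  ring

/-- the number of Latin squares that correspond to solutions -/
lemma card_sol_le (n : ℕ) :
    Nat.card {L : LS n // Relation.ReflTransGen Move Finset.univ (assoc L.1)} ≤ 8 ^ (n ^ 2) := by
  let T : Finset (Fin n → Equiv.Perm (Fin n)) :=
    Fintype.piFinset (fun _ => Finset.univ.filter (fun π : Equiv.Perm (Fin n) => Bax n π))
  have hT : T.card ≤ 8 ^ (n ^ 2) := by
    show (Fintype.piFinset _).card ≤ _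
    rw [Fintype.card_piFinset, Finset.prod_const, Finset.card_univ, Fintype.card_fin]
    calc _ ≤ (8 ^ n) ^ n := Nat.pow_le_pow_left (card_bax n) n
      _ = 8 ^ (n ^ 2) := by rw [← pow_mul, sq]
  let G : {L : LS n // Relation.ReflTransGen Move Finset.univ (assoc L.1)} → T :=
    fun L => ⟨fun k => layer L.1.2 k, by
      show _ ∈ Fintype.piFinset _
      rw [Fintype.mem_piFinset]
      intro k
      rw [Finset.mem_filter]
      exact ⟨Finset.mem_univ _, layer_bax L.1.2 L.2 k⟩⟩
  have hinj : Function.Injective G := by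
    rintro ⟨⟨L, hL⟩, h⟩ ⟨⟨L', hL'⟩, h'⟩ heq
    have heq' : ∀ k, layer hL k = layer hL' k := by
      intro k
      have := congrArg Subtype.val heq
      exact congrFun this k
    have : L = L' := by
      funext i j
      have h1 : layer hL (L i j) i = j := (hL.1 i).1 (by
        show L i (yb hL i (L i j)) = L i j
        rw [yb_spec hL])
      rw [heq' (L i j)] at h1
      have h2 : L' i (yb hL' i (L i j)) = L i j := yb_spec hL' i (L i j)
      have h3 : yb hL' i (L i j) = j := h1
      rw [h3] at h2
      exact h2.symm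
    subst this
    rfl
  have h1 := Nat.card_le_card_of_injective G hinj
  rw [Nat.card_eq_fintype_card (α := T), Fintype.card_coe] at h1
  exact h1.trans hT

lemma s_le (n : ℕ) : s n ≤ 8 ^ (n ^ 2) := by
  refine le_trans ?_ (card_sol_le n)
  unfold s
  let G : {c : Quotient (isoSetoid n) //
      ∃ L : LS n, Quotient.mk (isoSetoid n) L = c ∧ IsSolution (assoc L.1)} →
      {L : LS n // Relation.ReflTransGen Move Finset.univ (assoc L.1)} :=
    fun c => ⟨Classical.choose c.2, (Classical.choose_spec c.2).2.2.2⟩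
  have hinj : Function.Injective G := by
    intro c c' h
    have h1 : Classical.choose c.2 = Classical.choose c'.2 := congrArg Subtype.val h
    apply Subtype.ext
    rw [← (Classical.choose_spec c.2).1, ← (Classical.choose_spec c'.2).1, h1]
  exact Nat.card_le_card_of_injective G hinj

lemma card_LS_ge (n : ℕ) : ∏ i ∈ Finset.range n, (n - i).factorial ≤ Fintype.card (LS n) := by
  refine (rects_lower n n le_rfl).trans ?_
  rw [← Fintype.card_coe]
  apply Fintype.card_le_of_injective
    (fun g : rects n n => (⟨g.1, by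
      have := (mem_rects n n g.1).1 g.2
      refine ⟨fun i => (Fintype.bijective_iff_injective_and_card _).2 ⟨this.1 i, rfl⟩,
        fun j => (Fintype.bijective_iff_injective_and_card _).2 ⟨?_, rfl⟩⟩
      intro a b hab
      by_contra hne
      exact this.2 a b hne j hab⟩ : LS n))
  intro g g' h
  apply Subtype.ext
  exact congrArg (fun L : LS n => L.1) h

lemma fact_ge (M m : ℕ) : M ^ (m - M) ≤ m.factorial := by
  induction m with
  | zero => simp
  | succ m ih =>
    rcases Nat.lt_or_ge m M with h | h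
    · have : m + 1 - M = 0 := by omega
      rw [this, pow_zero]
      exact Nat.factorial_pos _
    · have : m + 1 - M = (m - M) + 1 := by omega
      rw [this, pow_succ, Nat.factorial_succ, mul_comm]
      exact Nat.mul_le_mul (by omega) ih

lemma sum_ge (n M : ℕ) : n * (n + 1) ≤ 2 * (∑ i ∈ Finset.range n, (n - i - M) + n * M) := by
  have h : ∀ r ≤ n, r * (2 * n + 1) ≤ 2 * (∑ i ∈ Finset.range r, (n - i - M) + r * M) + r * r := by
    intro r
    induction r with
    | zero => simp
    | succ r ih =>
      intro hr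
      have := ih (by omega)
      rw [Finset.sum_range_succ]
      have h1 : n - r ≤ (n - r - M) + M := by omega
      have h2 : n ≤ (n - r - M) + M + r := by omega
      nlinarith
  have := h n le_rfl
  nlinarith

/-- for `n ≥ 327680`, `s n * 8 ^ n ≤ I n` -/
theorem main_bound (n : ℕ) (hn : 327680 ≤ n) : s n * 8 ^ n ≤ I n := by
  have h1 := card_LS_ge n
  have h2 := card_LS_le n
  have h3 := s_le n
  have hprod : 8 ^ (2 * n ^ 2 + n) ≤ ∏ i ∈ Finset.range n, (n - i).factorial := by
    have h4 : ∏ i ∈ Finset.range n, (8 ^ 5) ^ (n - i - 8 ^ 5) ≤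
        ∏ i ∈ Finset.range n, (n - i).factorial :=
      Finset.prod_le_prod' (fun i _ => fact_ge (8 ^ 5) (n - i))
    rw [Finset.prod_pow_eq_pow_sum, ← pow_mul] at h4
    refine le_trans (Nat.pow_le_pow_right (by norm_num) ?_) h4
    have h5 := sum_ge n (8 ^ 5)
    have h6 : (8 : ℕ) ^ 5 = 32768 := by norm_num
    rw [h6] at h5 ⊢
    nlinarith
  have hfact : n.factorial ≤ 2 ^ (n ^ 2) := by
    calc n.factorial ≤ n ^ n := Nat.factorial_le_pow n
      _ ≤ (2 ^ n) ^ n := Nat.pow_le_pow_left (Nat.lt_two_pow_self).le n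
      _ = 2 ^ (n ^ 2) := by rw [← pow_mul, sq]
  have hfact3 : n.factorial ^ 3 ≤ 8 ^ (n ^ 2) := by
    calc n.factorial ^ 3 ≤ (2 ^ (n ^ 2)) ^ 3 := Nat.pow_le_pow_left hfact 3
      _ = 8 ^ (n ^ 2) := by rw [← pow_mul, mul_comm, pow_mul]; norm_num
  have h7 : 8 ^ (2 * n ^ 2 + n) ≤ 8 ^ (n ^ 2) * I n :=
    hprod.trans (h1.trans (h2.trans (Nat.mul_le_mul_right _ hfact3)))
  have h8 : 8 ^ (n ^ 2) * (s n * 8 ^ n) ≤ 8 ^ (n ^ 2) * I n := by
    refine le_trans ?_ h7
    calc 8 ^ (n ^ 2) * (s n * 8 ^ n) ≤ 8 ^ (n ^ 2) * (8 ^ (n ^ 2) * 8 ^ n) :=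
          Nat.mul_le_mul_left _ (Nat.mul_le_mul_right _ h3)
      _ = 8 ^ (2 * n ^ 2 + n) := by rw [← pow_add, ← pow_add]; congr 1; ring
  exact Nat.le_of_mul_le_mul_left h8 (by positivity)

end Pool.Agent.Q166.Dism
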