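import Mathlib
import Pool.Agent.H238R2.HY.Struct

set_option autoImplicit false

/-!
# Edge-domatic partitions into `δ(G)` classes
-/

namespace Pool.Agent.Q166.EDom

open Finset

/-- `X` is a dominating set of `H`. -/
def IsDominating {W : Type*} (H : SimpleGraph W) (X : Set W) : Prop :=
  ∀ w, w ∈ X ∨ ∃ x ∈ X, H.Adj w x

/-- the vertex set of `H` can be partitioned into `k` dominating sets -/
def HasDomaticPartition {W : Type*} (H : SimpleGraph W) (k : ℕ) : Prop :=
  ∃ c : W → Fin k, ∀ i : Fin k, IsDominating H {w | c w = i}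

/-- the domatic number -/
noncomputable def dom {W : Type*} (H : SimpleGraph W) : ℕ := sSup {k | HasDomaticPartition H k}

variable {V : Type} [Fintype V] [DecidableEq V] (G : SimpleGraph V) [DecidableRel G.Adj]

/-- edges of `F` at `w` -/
def at' (F : Finset (Sym2 V)) (w : V) : Finset (Sym2 V) := F.filter (fun e => w ∈ e)

/-- edges outside `F` at `w` owned by `w` -/
def owned (F : Finset (Sym2 V)) (o : Sym2 V → V) (w : V) : Finset (Sym2 V) :=
  (G.edgeFinset \ F).filter (fun e => w ∈ e ∧ o e = w)

/-- There is a maximal independent set. -/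
theorem exists_indep : ∃ I : Finset V, (∀ u ∈ I, ∀ v ∈ I, ¬ G.Adj u v) ∧
    ∀ w, w ∉ I → ∃ u ∈ I, G.Adj w u := by
  classical
  obtain ⟨I, hI, hmax⟩ := Finset.exists_max_image
    (univ.filter (fun I : Finset V => ∀ u ∈ I, ∀ v ∈ I, ¬ G.Adj u v)) Finset.card
    ⟨∅, by simp⟩
  simp only [mem_filter, mem_univ, true_and] at hI hmax
  refine ⟨I, hI, fun w hw => ?_⟩
  by_contra hcon
  push Not at hcon
  have h1 := hmax (insert w I) (by
    intro u hu v hv h
    rw [mem_insert] at hu hv
    rcases hu with rfl | hu <;> rcases hv with rfl | hv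
    · exact h.ne rfl
    · exact hcon v hv h
    · exact hcon u hu h.symm
    · exact hI u hu v hv h)
  rw [card_insert_of_notMem hw] at h1
  omega

/-- the splitting: proper edges `F` with few edges at every vertex, and owned edges -/
theorem exists_split (k : ℕ) (hk : ∀ v, k ≤ G.degree v) (I : Finset V)
    (hmax : ∀ w, w ∉ I → ∃ u ∈ I, G.Adj w u) :
    ∃ (F : Finset (Sym2 V)) (o : Sym2 V → V), F ⊆ G.edgeFinset ∧
      (∀ e ∈ F, ∀ v ∈ e, v ∉ I) ∧
      (∀ w, w ∉ I → k ≤ (at' F w).card + (owned G F o w).card) ∧
      (∀ w, w ∉ I → 1 ≤ (owned G F o w).card) ∧ ∀ w, (at' F w).card ≤ k - 1 := by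
  classical
  -- the admissible pairs
  let P : Finset (Sym2 V) → Prop := fun F => ∃ o : Sym2 V → V, F ⊆ G.edgeFinset ∧
      (∀ e ∈ F, ∀ v ∈ e, v ∉ I) ∧
      (∀ w, w ∉ I → k ≤ (at' F w).card + (owned G F o w).card) ∧
      (∀ w, w ∉ I → 1 ≤ (owned G F o w).card)
  have hP0 : ∃ F, P F := by
    let F0 : Finset (Sym2 V) := G.edgeFinset.filter (fun e => ∀ v ∈ e, v ∉ I)
    let o : Sym2 V → V := fun e => if h : ∃ v ∈ e, v ∉ I then h.choose else (Quot.out e).1
    have hown : ∀ w u, w ∉ I → u ∈ I → G.Adj w u → s(w, u) ∈ owned G F0 o w := by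
      intro w u hw hu hwu
      simp only [owned, mem_filter, mem_sdiff, SimpleGraph.mem_edgeFinset,
        SimpleGraph.mem_edgeSet, F0]
      refine ⟨⟨hwu, ?_⟩, by simp, ?_⟩
      · rintro ⟨-, h⟩
        exact h u (by simp) hu
      · have h : ∃ v ∈ s(w, u), v ∉ I := ⟨w, by simp, hw⟩
        have h2 := h.choose_spec
        have h3 : o s(w, u) = h.choose := by simp only [o, dif_pos h]
        rw [h3]
        rcases Sym2.mem_iff.1 h2.1 with h4 | h4
        · exact h4
        · exact absurd hu (h4 ▸ h2.2)
    refine ⟨F0, o, filter_subset _ _, ?_, ?_, ?_⟩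
    · intro e he v hv
      exact (mem_filter.1 he).2 v hv
    · intro w hw
      refine (hk w).trans ?_
      rw [← SimpleGraph.card_incidenceFinset_eq_degree, ← Finset.card_union_of_disjoint]
      · apply card_le_card
        intro e he
        rw [SimpleGraph.mem_incidenceFinset] at he
        obtain ⟨he1, he2⟩ := he
        obtain ⟨u, rfl⟩ := he2
        rw [mem_union]
        by_cases hu : u ∈ I
        · right
          exact hown w u hw hu he1
        · left
          simp only [at', mem_filter, F0, SimpleGraph.mem_edgeFinset]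
          refine ⟨⟨he1, ?_⟩, by simp⟩
          intro v hv
          rcases Sym2.mem_iff.1 hv with rfl | rfl
          · exact hw
          · exact hu
      · rw [Finset.disjoint_left]
        intro e h1 h2
        simp only [at', owned, mem_filter, mem_sdiff] at h1 h2
        exact h2.1.2 h1.1
    · intro w hw
      obtain ⟨u, hu, hwu⟩ := hmax w hw
      exact card_pos.2 ⟨_, hown w u hw hu hwu⟩
  -- minimise the number of proper edges
  obtain ⟨F, hF, hmin⟩ := Finset.exists_min_image
    (univ.filter (fun F : Finset (Sym2 V) => P F)) Finset.card (by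
      obtain ⟨F, hF⟩ := hP0
      exact ⟨F, by simpa using hF⟩)
  simp only [mem_filter, mem_univ, true_and] at hF hmin
  obtain ⟨o, h1, h2, h3, h4⟩ := hF
  refine ⟨F, o, h1, h2, h3, h4, fun w => ?_⟩
  by_contra hcon
  push Not at hcon
  -- pick an edge of `F` at `w`
  have hpos : 0 < (at' F w).card := by omega
  obtain ⟨e, he⟩ := card_pos.1 hpos
  simp only [at', mem_filter] at he
  obtain ⟨heF, hwe⟩ := he
  obtain ⟨w', rfl⟩ := hwe
  have hadj : G.Adj w w' := by
    have := h1 heF
    simpa using this
  have hne : w ≠ w' := hadj.ne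
  have hwI : w ∉ I := h2 _ heF w (by simp)
  have hk1 : k ≤ (at' F w).card := by omega
  set F' := F.erase s(w, w') with hF'
  have hPF' : P F' := by
    refine ⟨Function.update o s(w, w') w', (erase_subset _ _).trans h1,
      fun e he v hv => h2 e (mem_of_mem_erase he) v hv, ?_, ?_⟩
    · intro x hx
      have hsub : owned G F o x ⊆ owned G F' (Function.update o s(w, w') w') x := by
        intro e he
        simp only [owned, mem_filter, mem_sdiff] at he ⊢
        have hne' : e ≠ s(w, w') := by rintro rfl; exact he.1.2 heF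
        refine ⟨⟨he.1.1, fun h => he.1.2 (mem_of_mem_erase h)⟩, he.2.1, ?_⟩
        rw [Function.update_of_ne hne']
        exact he.2.2
      by_cases hxw : x = w
      · subst hxw
        have h5 : (at' F x).card ≤ (at' F' x).card + 1 := by
          have : at' F' x = (at' F x).erase s(x, w') := by
            ext e
            simp only [at', mem_filter, mem_erase, hF']
            tauto
          rw [this]
          have := Finset.pred_card_le_card_erase (s := at' F x) (a := s(x, w'))
          omega
        have h6 := (h4 x hx).trans (card_le_card hsub)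
        omega
      · by_cases hxw' : x = w'
        · subst hxw'
          have h5 : (at' F x).card ≤ (at' F' x).card + 1 := by
            have : at' F' x = (at' F x).erase s(w, x) := by
              ext e
              simp only [at', mem_filter, mem_erase, hF']
              tauto
            rw [this]
            have := Finset.pred_card_le_card_erase (s := at' F x) (a := s(w, x))
            omega
          have h6 : (owned G F o x).card + 1 ≤
              (owned G F' (Function.update o s(w, x) x) x).card := by
            have h7 : s(w, x) ∉ owned G F o x := by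
              simp only [owned, mem_filter, mem_sdiff]
              tauto
            rw [← card_insert_of_notMem h7]
            apply card_le_card
            intro e he
            rw [mem_insert] at he
            rcases he with rfl | he
            · simp only [owned, mem_filter, mem_sdiff, hF', mem_erase,
                SimpleGraph.mem_edgeFinset, SimpleGraph.mem_edgeSet]
              refine ⟨⟨hadj, by simp⟩, by simp, by simp⟩
            · exact hsub he
          have h8 := h3 x hx
          omega
        · have h5 : at' F' x = at' F x := by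
            ext e
            simp only [at', mem_filter, mem_erase, hF']
            constructor
            · tauto
            · rintro ⟨h, h'⟩
              refine ⟨⟨?_, h⟩, h'⟩
              rintro rfl
              rcases Sym2.mem_iff.1 h' with h'' | h''
              · exact hxw h''
              · exact hxw' h''
          rw [h5]
          exact (h3 x hx).trans (Nat.add_le_add_left (card_le_card hsub) _)
    · intro x hx
      have hsub : owned G F o x ⊆ owned G F' (Function.update o s(w, w') w') x := by
        intro e he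
        simp only [owned, mem_filter, mem_sdiff] at he ⊢
        have hne' : e ≠ s(w, w') := by rintro rfl; exact he.1.2 heF
        refine ⟨⟨he.1.1, fun h => he.1.2 (mem_of_mem_erase h)⟩, he.2.1, ?_⟩
        rw [Function.update_of_ne hne']
        exact he.2.2
      exact (h4 x hx).trans (card_le_card hsub)
  have h9 := hmin F' hPF'
  have h10 : F'.card < F.card := by
    rw [hF', card_erase_of_mem heF]
    have := card_pos.2 ⟨_, heF⟩
    omega
  omega

omit [Fintype V] in
/-- colouring the owned edges of a vertex so that prescribed colours appear -/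
theorem exists_fill (O : Finset (Sym2 V)) (M : Finset ℕ) (h : M.card ≤ O.card) :
    ∃ g : Sym2 V → ℕ, ∀ i ∈ M, ∃ e ∈ O, g e = i := by
  classical
  obtain ⟨f⟩ : Nonempty (M ↪ O) := Function.Embedding.nonempty_of_card_le (by simpa using h)
  refine ⟨fun e => if h : ∃ i : M, (f i : Sym2 V) = e then (h.choose : ℕ) else 0, ?_⟩
  intro i hi
  refine ⟨f ⟨i, hi⟩, (f ⟨i, hi⟩).2, ?_⟩
  have hex : ∃ j : M, (f j : Sym2 V) = (f ⟨i, hi⟩ : Sym2 V) := ⟨_, rfl⟩
  simp only [dif_pos hex]
  have h2 := hex.choose_spec
  have h3 : hex.choose = ⟨i, hi⟩ := f.injective (Subtype.ext h2)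
  rw [h3]

/-- The colouring. -/
theorem exists_colouring (k : ℕ) (hk0 : 1 ≤ k) (hk : ∀ v, k ≤ G.degree v) :
    ∃ (I : Finset V) (c : Sym2 V → ℕ), (∀ u ∈ I, ∀ v ∈ I, ¬ G.Adj u v) ∧
      ∀ w, w ∉ I → ∀ i < k, ∃ e ∈ G.edgeSet, w ∈ e ∧ c e = i := by
  classical
  obtain ⟨I, hI, hmax⟩ := exists_indep G
  obtain ⟨F, o, h1, h2, h3, h4, h5⟩ := exists_split G k hk I hmax
  refine ⟨I, ?_⟩
  -- the graph of proper edges
  let Γ : SimpleGraph V := SimpleGraph.fromEdgeSet (F : Set (Sym2 V))
  have hΓ : ∀ u v, Γ.Adj u v ↔ s(u, v) ∈ F := by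
    intro u v
    rw [SimpleGraph.fromEdgeSet_adj]
    constructor
    · exact fun h => h.1
    · intro h
      refine ⟨h, ?_⟩
      have := h1 h
      rw [SimpleGraph.mem_edgeFinset, SimpleGraph.mem_edgeSet] at this
      exact this.ne
  have hcard : ∀ v, Γ.degree v = (at' F v).card := by
    intro v
    rw [← SimpleGraph.card_neighborFinset_eq_degree]
    have : at' F v = (Γ.neighborFinset v).image (fun u => s(v, u)) := by
      ext e
      simp only [at', mem_filter, mem_image, SimpleGraph.mem_neighborFinset]
      constructor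
      · rintro ⟨he, u, rfl⟩
        exact ⟨u, (hΓ _ _).2 he, rfl⟩
      · rintro ⟨u, hu, rfl⟩
        exact ⟨(hΓ _ _).1 hu, by simp⟩
    rw [this, card_image_of_injOn]
    intro a _ b _ hab
    have hab' : a = b ∨ v = b ∧ a = v := by simpa using hab
    rcases hab' with h | ⟨h, h'⟩
    · exact h
    · exact h'.trans h
  obtain ⟨c, hc1, hc2, hc3⟩ := Pool.Agent.H238R2.HY.vizing Γ (k - 1)
    (fun v => by rw [hcard]; exact h5 v)
  -- the colours seen through proper edges
  let A : V → Finset ℕ := fun w => (Γ.neighborFinset w).image (fun v => c w v)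
  have hA : ∀ w, (A w).card = (at' F w).card := by
    intro w
    rw [← hcard, ← SimpleGraph.card_neighborFinset_eq_degree]
    apply card_image_of_injOn
    intro a ha b hb hab
    by_contra hne
    rw [mem_coe, SimpleGraph.mem_neighborFinset] at ha hb
    exact hc3 w a b ha hb hne hab
  have hAk : ∀ w, A w ⊆ range k := by
    intro w i hi
    simp only [A, mem_image, SimpleGraph.mem_neighborFinset] at hi
    obtain ⟨v, hv, rfl⟩ := hi
    have := hc2 w v hv
    rw [mem_range]
    omega
  have hfill : ∀ w, ∃ g : Sym2 V → ℕ, w ∉ I → ∀ i ∈ range k \ A w,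
      ∃ e ∈ owned G F o w, g e = i := by
    intro w
    by_cases hw : w ∈ I
    · exact ⟨fun _ => 0, fun h => absurd hw h⟩
    · obtain ⟨g, hg⟩ := exists_fill (owned G F o w) (range k \ A w) (by
        rw [card_sdiff_of_subset (hAk w), card_range, hA]
        have := h3 w hw
        omega)
      exact ⟨g, fun _ => hg⟩
  choose g hg using hfill
  let c' : Sym2 V → ℕ := Sym2.lift ⟨fun u v => c u v, fun u v => hc1 u v⟩
  refine ⟨fun e => if e ∈ F then c' e else g (o e) e, hI, ?_⟩
  intro w hw i hi
  by_cases hiA : i ∈ A w
  · simp only [A, mem_image, SimpleGraph.mem_neighborFinset] at hiA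
    obtain ⟨v, hv, hcv⟩ := hiA
    have hvF := (hΓ _ _).1 hv
    refine ⟨s(w, v), by simpa using h1 hvF, by simp, ?_⟩
    simp only [hvF, if_true]
    exact hcv
  · obtain ⟨e, he, hge⟩ := hg w hw i (mem_sdiff.2 ⟨mem_range.2 hi, hiA⟩)
    simp only [owned, mem_filter, mem_sdiff] at he
    refine ⟨e, by simpa using he.1.1, he.2.1, ?_⟩
    simp only [he.1.2, if_false]
    rw [he.2.2]
    exact hge

theorem domatic_of_minDegree (hk0 : 1 ≤ G.minDegree) :
    HasDomaticPartition G.lineGraph G.minDegree := by
  classical
  obtain ⟨I, c, hI, hc⟩ := exists_colouring G G.minDegree hk0 (fun v => G.minDegree_le_degree v)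
  refine ⟨fun e => ⟨c e.1 % G.minDegree, Nat.mod_lt _ (by omega)⟩, ?_⟩
  rintro ⟨i, hi⟩ ⟨e, he⟩
  induction e with
  | h u v =>
    have hadj : G.Adj u v := he
    -- an endpoint outside `I`
    obtain ⟨w, hwe, hwI⟩ : ∃ w ∈ s(u, v), w ∉ I := by
      by_cases hu : u ∈ I
      · refine ⟨v, by simp, fun hv => hI u hu v hv hadj⟩
      · exact ⟨u, by simp, hu⟩
    obtain ⟨e', he', hwe', hce'⟩ := hc w hwI i hi
    by_cases hee : (⟨s(u, v), he⟩ : G.edgeSet) = ⟨e', he'⟩
    · left
      have : s(u, v) = e' := congrArg Subtype.val hee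
      simp only [Set.mem_ofPred_eq]
      apply Fin.ext
      simp only [this, hce']
      exact Nat.mod_eq_of_lt hi
    · right
      refine ⟨⟨e', he'⟩, ?_, ?_⟩
      · simp only [Set.mem_ofPred_eq]
        apply Fin.ext
        simp only [hce']
        exact Nat.mod_eq_of_lt hi
      · rw [SimpleGraph.lineGraph_adj_iff_exists]
        exact ⟨hee, w, hwe, hwe'⟩

end Pool.Agent.Q166.EDom
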