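import Mathlib
import Pool.Agent.H24R3.EulRec

/-!
Signed Eulerian numbers: recurrence by insertion of the two largest values.
-/

set_option autoImplicit false

namespace Q166.SgnDes

open Pool.Agent.H24R3.Eul

/-- signed Eulerian numbers for `n + 1` elements -/
def SD (n k : ℕ) : ℤ :=
  ∑ τ : Equiv.Perm (Fin (n + 1)), (Equiv.Perm.sign τ : ℤ) * (if des τ = k then 1 else 0)

/-! ### the sign of an insertion -/

def ext {n : ℕ} (τ : Equiv.Perm (Fin (n + 1))) : Equiv.Perm (Fin (n + 2)) :=
  ((finSuccEquiv' (Fin.last (n + 1))).trans (Equiv.optionCongr τ)).trans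
    (finSuccEquiv' (Fin.last (n + 1))).symm

def cp {n : ℕ} (p : Fin (n + 2)) : Equiv.Perm (Fin (n + 2)) :=
  (finSuccEquiv' p).trans (finSuccEquiv' (Fin.last (n + 1))).symm

theorem Ph_eq {n : ℕ} (p : Fin (n + 2)) (τ : Equiv.Perm (Fin (n + 1))) :
    Ph (p, τ) = ext τ * cp p := by
  apply Equiv.ext
  intro x
  simp [Ph, ext, cp]

theorem sign_ext {n : ℕ} (τ : Equiv.Perm (Fin (n + 1))) :
    Equiv.Perm.sign (ext τ) = Equiv.Perm.sign τ := by
  unfold ext
  rw [Equiv.Perm.sign_trans_trans_symm, Equiv.optionCongr_sign]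

theorem cp_eq {n : ℕ} (p : Fin (n + 2)) :
    cp p = (finRotate (n + 2))⁻¹ * Fin.cycleRange p := by
  apply Equiv.ext
  intro x
  rw [Equiv.Perm.mul_apply, Equiv.Perm.eq_inv_iff_eq]
  rcases Fin.eq_self_or_eq_succAbove p x with h | ⟨j, h⟩
  · subst h
    simp [cp]
  · subst h
    rw [Fin.cycleRange_succAbove]
    simp [cp]

theorem sign_cp {n : ℕ} (p : Fin (n + 2)) :
    (Equiv.Perm.sign (cp p) : ℤ) = (-1) ^ (p.val + n + 1) := by
  rw [cp_eq, Equiv.Perm.sign_mul, Equiv.Perm.sign_inv, sign_finRotate, Fin.sign_cycleRange]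
  push_cast
  rw [← pow_add]
  congr 1
  omega

theorem sign_Ph {n : ℕ} (p : Fin (n + 2)) (τ : Equiv.Perm (Fin (n + 1))) :
    (Equiv.Perm.sign (Ph (p, τ)) : ℤ) = (-1) ^ (p.val + n + 1) * Equiv.Perm.sign τ := by
  rw [Ph_eq, Equiv.Perm.sign_mul, sign_ext, Units.val_mul, sign_cp, mul_comm]

/-! ### double insertion -/

/-- `[p ≥ 1 and f p < f (p-1)]` -/
def ind (f : ℕ → ℕ) (p : ℕ) : ℕ := if 1 ≤ p ∧ f p < f (p - 1) then 1 else 0

/-- descents after inserting a largest value at the place `p` -/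
theorem dn_ins (f : ℕ → ℕ) (M p n : ℕ) (hp : p ≤ n + 1) (hM : ∀ i ≤ n, f i < M) :
    dn (ins f p M) (n + 1) = dn f n + (if p = n + 1 then 0 else 1 - ind f p) := by
  by_cases h : p = n + 1
  · rw [if_pos h, h, ins_last f M n hM, add_zero]
  · rw [if_neg h]
    have h1 := ins_mid f M p n (by omega) hM
    have h2 : ind f p ≤ 1 := by unfold ind; split_ifs <;> omega
    have h3 : (if 1 ≤ p ∧ f p < f (p - 1) then 1 else 0) = ind f p := rfl
    rw [h3] at h1
    omega

theorem swap_eq (f : ℕ → ℕ) (M p q n : ℕ) (hq : q ≤ n + 2) (hpq : p + 2 ≤ q)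
    (hM : ∀ i ≤ n, f i < M) :
    dn (ins (ins f p M) q (M + 1)) (n + 2) = dn (ins (ins f (q - 1) M) p (M + 1)) (n + 2) := by
  have hle : ∀ p' i, i ≤ n + 1 → p' ≤ n + 1 → ins f p' M i < M + 1 := by
    intro p' i hi hp'
    unfold ins
    split_ifs with h1 h2
    · have := hM i (by omega); omega
    · omega
    · have := hM (i - 1) (by omega); omega
  rw [dn_ins (ins f p M) (M + 1) q (n + 1) (by omega) (fun i hi => hle p i hi (by omega)),
    dn_ins (ins f (q - 1) M) (M + 1) p (n + 1) (by omega) (fun i hi => hle (q - 1) i hi (by omega)),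
    dn_ins f M p n (by omega) hM, dn_ins f M (q - 1) n (by omega) hM]
  have e1 : ind (ins f (q - 1) M) p = ind f p := by
    unfold ind
    rw [ins_lt _ _ _ _ (by omega), ins_lt _ _ _ _ (by omega)]
  rw [e1]
  have hp1 : p ≠ n + 1 := by omega
  have hp2 : p ≠ n + 2 := by omega
  rw [if_neg hp1, if_neg (show ¬ p = n + 1 + 1 by omega)]
  by_cases hqn : q = n + 2
  · rw [if_pos (by omega), if_pos (by omega)]
    omega
  · have e2 : ind (ins f p M) q = ind f (q - 1) := by
      unfold ind
      obtain ⟨r, rfl⟩ : ∃ r, q = r + 2 := ⟨q - 2, by omega⟩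
      have h1 : ins f p M (r + 2) = f (r + 1) := ins_gt _ _ _ _ (by omega)
      have h2 : ins f p M (r + 2 - 1) = f r := ins_gt _ _ _ _ (by omega)
      have h3 : f (r + 2 - 1 - 1) = f r := rfl
      have h4 : f (r + 2 - 1) = f (r + 1) := rfl
      rw [h1, h2, h3, h4]
      simp
    rw [if_neg (by omega), if_neg (by omega), e2]
    omega

theorem block_up (f : ℕ → ℕ) (M p n : ℕ) (hp : p ≤ n + 1) (hM : ∀ i ≤ n, f i < M) :
    dn (ins (ins f p M) (p + 1) (M + 1)) (n + 2) = dn (ins f p M) (n + 1) := by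
  have hle : ∀ i, i ≤ n + 1 → ins f p M i < M + 1 := by
    intro i hi
    unfold ins
    split_ifs with h1 h2
    · have := hM i (by omega); omega
    · omega
    · have := hM (i - 1) (by omega); omega
  rw [dn_ins (ins f p M) (M + 1) (p + 1) (n + 1) (by omega) hle]
  by_cases h : p = n + 1
  · rw [if_pos (by omega), add_zero]
  · rw [if_neg (by omega)]
    have e : ind (ins f p M) (p + 1) = 1 := by
      unfold ind
      have h1 : ins f p M (p + 1) = f p := ins_gt _ _ _ _ le_rfl
      have h2 : ins f p M (p + 1 - 1) = M := ins_eq _ _ _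
      rw [h1, h2, if_pos ⟨by omega, hM p (by omega)⟩]
    rw [e]
    omega

theorem block_down (f : ℕ → ℕ) (M p n : ℕ) (hp : p ≤ n + 1) (hM : ∀ i ≤ n, f i < M) :
    dn (ins (ins f p M) p (M + 1)) (n + 2) = dn (ins f p M) (n + 1) + 1 := by
  have hle : ∀ i, i ≤ n + 1 → ins f p M i < M + 1 := by
    intro i hi
    unfold ins
    split_ifs with h1 h2
    · have := hM i (by omega); omega
    · omega
    · have := hM (i - 1) (by omega); omega
  rw [dn_ins (ins f p M) (M + 1) p (n + 1) (by omega) hle, if_neg (by omega)]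
  have e : ind (ins f p M) p = 0 := by
    unfold ind
    rw [if_neg]
    rintro ⟨h1, h2⟩
    rw [ins_eq, ins_lt _ _ _ _ (by omega)] at h2
    have := hM (p - 1) (by omega)
    omega
  rw [e]

/-- cancellation in the double insertion -/
theorem double_sum (f : ℕ → ℕ) (M n : ℕ) (hM : ∀ i ≤ n, f i < M) (F : ℕ → ℤ) :
    ∑ p ∈ Finset.range (n + 2), ∑ q ∈ Finset.range (n + 3),
      (-1 : ℤ) ^ (p + q + 1) * F (dn (ins (ins f p M) q (M + 1)) (n + 2)) =
    ∑ p ∈ Finset.range (n + 2), (F (dn (ins f p M) (n + 1)) - F (dn (ins f p M) (n + 1) + 1)) := by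
  rw [← Finset.sum_product' (s := Finset.range (n + 2)) (t := Finset.range (n + 3))
    (f := fun p q => (-1 : ℤ) ^ (p + q + 1) * F (dn (ins (ins f p M) q (M + 1)) (n + 2)))]
  rw [← Finset.sum_filter_add_sum_filter_not _ (fun x : ℕ × ℕ => x.2 = x.1 ∨ x.2 = x.1 + 1)]
  have h0 : ∑ x ∈ (Finset.range (n + 2) ×ˢ Finset.range (n + 3)).filter
      (fun x : ℕ × ℕ => ¬ (x.2 = x.1 ∨ x.2 = x.1 + 1)),
      (-1 : ℤ) ^ (x.1 + x.2 + 1) * F (dn (ins (ins f x.1 M) x.2 (M + 1)) (n + 2)) = 0 := by
    apply Finset.sum_involution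
      (fun x _ => if x.2 < x.1 then (x.2, x.1 + 1) else (x.2 - 1, x.1))
    · rintro ⟨p, q⟩ hx
      simp only [Finset.mem_filter, Finset.mem_product, Finset.mem_range, not_or] at hx
      obtain ⟨⟨hp, hq⟩, h1, h2⟩ := hx
      simp only
      split_ifs with h
      · have e := swap_eq f M q (p + 1) n (by omega) (by omega) hM
        rw [show p + 1 - 1 = p by omega] at e
        rw [e, show q + (p + 1) + 1 = (p + q + 1) + 1 by ring, pow_succ]
        ring
      · have e := swap_eq f M p q n (by omega) (by omega) hM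
        rw [e, show p + q + 1 = (q - 1 + p + 1) + 1 by omega, pow_succ]
        ring
    · rintro ⟨p, q⟩ hx _
      simp only [Finset.mem_filter, Finset.mem_product, Finset.mem_range, not_or] at hx
      simp only
      split_ifs with h
      · intro hc
        rw [Prod.mk.injEq] at hc
        omega
      · intro hc
        rw [Prod.mk.injEq] at hc
        omega
    · rintro ⟨p, q⟩ hx
      simp only [Finset.mem_filter, Finset.mem_product, Finset.mem_range, not_or] at hx
      by_cases h : q < p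
      · have h1 : ¬ (p + 1 < q) := by omega
        simp only [h, if_true, h1, if_false]
        simp
      · have h1 : p < q - 1 := by omega
        simp only [h, if_true, h1, if_false]
        rw [Prod.mk.injEq]
        omega
    · rintro ⟨p, q⟩ hx
      simp only [Finset.mem_filter, Finset.mem_product, Finset.mem_range, not_or] at hx ⊢
      split_ifs with h
      · simp only; omega
      · simp only; omega
  rw [h0, add_zero, Finset.sum_filter, Finset.sum_product]
  apply Finset.sum_congr rfl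
  intro p hp
  rw [Finset.mem_range] at hp
  have h1 : ∀ q, (if q = p ∨ q = p + 1 then
      (-1 : ℤ) ^ (p + q + 1) * F (dn (ins (ins f p M) q (M + 1)) (n + 2)) else 0) =
      (if q = p then -F (dn (ins f p M) (n + 1) + 1) else 0) +
      (if q = p + 1 then F (dn (ins f p M) (n + 1)) else 0) := by
    intro q
    by_cases h1 : q = p
    · subst h1
      rw [if_pos (Or.inl rfl), if_pos rfl, if_neg (by omega), add_zero,
        block_down f M q n (by omega) hM, show q + q + 1 = 2 * q + 1 by ring, pow_succ, pow_mul]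
      simp
    · by_cases h2 : q = p + 1
      · subst h2
        rw [if_pos (Or.inr rfl), if_neg (by omega), if_pos rfl, zero_add,
          block_up f M p n (by omega) hM, show p + (p + 1) + 1 = 2 * (p + 1) by ring, pow_mul]
        simp
      · rw [if_neg (by omega), if_neg h1, if_neg h2, add_zero]
  simp only [h1]
  rw [Finset.sum_add_distrib, Finset.sum_ite_eq', Finset.sum_ite_eq',
    if_pos (Finset.mem_range.2 (by omega)), if_pos (Finset.mem_range.2 (by omega))]
  ring

theorem SD_eq_double (n m : ℕ) : SD (n + 2) m = ∑ τ : Equiv.Perm (Fin (n + 1)),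
    (Equiv.Perm.sign τ : ℤ) * ∑ p : Fin (n + 2),
      ((if des (Ph (p, τ)) = m then (1 : ℤ) else 0) -
        (if des (Ph (p, τ)) + 1 = m then (1 : ℤ) else 0)) := by
  have h1 : SD (n + 2) m = ∑ τ : Equiv.Perm (Fin (n + 1)), ∑ p : Fin (n + 2), ∑ q : Fin (n + 3),
      (Equiv.Perm.sign (Ph (q, Ph (p, τ))) : ℤ) * (if des (Ph (q, Ph (p, τ))) = m then 1 else 0) := by
    unfold SD
    rw [← Function.Bijective.sum_comp Ph_bij (fun σ : Equiv.Perm (Fin (n + 2 + 1)) =>
      (Equiv.Perm.sign σ : ℤ) * (if des σ = m then 1 else 0)), Fintype.sum_prod_type_right,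
      ← Function.Bijective.sum_comp Ph_bij, Fintype.sum_prod_type_right]
  rw [h1]
  apply Finset.sum_congr rfl
  intro τ _
  have hM : ∀ i ≤ n, vf τ i < n + 1 := by
    intro i hi
    have := vf_val τ ⟨i, by omega⟩
    simp only at this
    rw [this]
    exact (τ ⟨i, by omega⟩).2
  have h2 : ∀ (p : Fin (n + 2)) (q : Fin (n + 3)),
      (Equiv.Perm.sign (Ph (q, Ph (p, τ))) : ℤ) *
        (if des (Ph (q, Ph (p, τ))) = m then 1 else 0) =
      (Equiv.Perm.sign τ : ℤ) * ((-1) ^ (p.val + q.val + 1) *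
        (fun x => if x = m then (1 : ℤ) else 0)
          (dn (ins (ins (vf τ) p.val (n + 1)) q.val (n + 1 + 1)) (n + 2))) := by
    intro p q
    have e1 : des (Ph (q, Ph (p, τ))) =
        dn (ins (ins (vf τ) p.val (n + 1)) q.val (n + 1 + 1)) (n + 2) := by
      rw [des_Ph]
      unfold dn
      apply Finset.sum_congr rfl
      intro i hi
      rw [Finset.mem_range] at hi
      have e2 : ∀ j, j ≤ n + 2 → ins (vf (Ph (p, τ))) q.val (n + 1 + 1) j =
          ins (ins (vf τ) p.val (n + 1)) q.val (n + 1 + 1) j := by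
        intro j hj
        have := q.2
        unfold ins
        split_ifs with a1 a2 a3 a4 a5 a6 <;> first
          | rfl
          | (rw [vf_Ph p τ _ (by omega)]; unfold ins; simp_all)
      rw [e2 i (by omega), e2 (i + 1) (by omega)]
    rw [e1, sign_Ph, sign_Ph]
    have e3 : (-1 : ℤ) ^ (q.val + (n + 1) + 1) * ((-1) ^ (p.val + n + 1) * (Equiv.Perm.sign τ : ℤ)) =
        (Equiv.Perm.sign τ : ℤ) * (-1) ^ (p.val + q.val + 1) := by
      have e4 : (-1 : ℤ) ^ (q.val + (n + 1) + 1) * (-1) ^ (p.val + n + 1) =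
          (-1) ^ (p.val + q.val + 1) := by
        rw [← pow_add, show q.val + (n + 1) + 1 + (p.val + n + 1) =
          (p.val + q.val + 1) + 2 * (n + 1) by ring, pow_add, pow_mul]
        simp
      rw [← mul_assoc, e4, mul_comm]
    rw [e3]
    ring
  simp only [h2]
  simp only [← Finset.mul_sum]
  congr 1
  have h3 := double_sum (vf τ) (n + 1) n hM (fun x => if x = m then (1 : ℤ) else 0)
  rw [Finset.sum_range] at h3
  simp only [Finset.sum_range (n := n + 3)] at h3
  rw [h3, Finset.sum_range]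
  apply Finset.sum_congr rfl
  intro p _
  rw [des_Ph]

theorem inner_sum {n : ℕ} (τ : Equiv.Perm (Fin (n + 1))) (m : ℕ) :
    ∑ p : Fin (n + 2), (if des (Ph (p, τ)) = m then (1 : ℤ) else 0) =
      (1 + (des τ : ℤ)) * (if des τ = m then 1 else 0) +
        ((n : ℤ) + 1 - des τ) * (if des τ + 1 = m then 1 else 0) := by
  rw [← count_p τ m, Finset.card_filter]
  push_cast
  rfl

/-- the value of the Eulerian operator on the signed numbers -/
theorem U_eq (n m : ℕ) : ∑ τ : Equiv.Perm (Fin (n + 1)), (Equiv.Perm.sign τ : ℤ) *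
    ∑ p : Fin (n + 2), (if des (Ph (p, τ)) = m then (1 : ℤ) else 0) =
    (1 + (m : ℤ)) * SD n m + (if m = 0 then 0 else ((n : ℤ) + 2 - m) * SD n (m - 1)) := by
  simp only [inner_sum]
  unfold SD
  rw [Finset.mul_sum]
  by_cases hm : m = 0
  · subst hm
    rw [if_pos rfl, add_zero]
    apply Finset.sum_congr rfl
    intro τ _
    by_cases h1 : des τ = 0
    · rw [h1]; simp
    · rw [if_neg h1, if_neg (by omega)]; ring
  · rw [if_neg hm, Finset.mul_sum, ← Finset.sum_add_distrib]
    apply Finset.sum_congr rfl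
    intro τ _
    by_cases h1 : des τ = m
    · rw [if_pos h1, if_neg (by omega), if_neg (by omega), h1]; ring
    · by_cases h2 : des τ + 1 = m
      · have h3 : des τ = m - 1 := by omega
        have h4 : ((des τ : ℕ) : ℤ) = (m : ℤ) - 1 := by omega
        rw [if_neg h1, if_pos h2, if_pos h3, h4]; ring
      · rw [if_neg h1, if_neg h2, if_neg (by omega)]; ring

theorem SD_step (n m : ℕ) : SD (n + 2) m =
    ((1 + (m : ℤ)) * SD n m + (if m = 0 then 0 else ((n : ℤ) + 2 - m) * SD n (m - 1))) -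
    (if m = 0 then 0 else (m : ℤ) * SD n (m - 1) +
      (if m - 1 = 0 then 0 else ((n : ℤ) + 3 - m) * SD n (m - 2))) := by
  rw [SD_eq_double]
  simp only [Finset.sum_sub_distrib, mul_sub]
  rw [U_eq]
  congr 1
  by_cases hm : m = 0
  · subst hm
    rw [if_pos rfl]
    simp
  · rw [if_neg hm]
    have h1 := U_eq n (m - 1)
    have h2 : ∀ τ : Equiv.Perm (Fin (n + 1)),
        ∑ p : Fin (n + 2), (if des (Ph (p, τ)) + 1 = m then (1 : ℤ) else 0) =
        ∑ p : Fin (n + 2), (if des (Ph (p, τ)) = m - 1 then (1 : ℤ) else 0) := by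
      intro τ
      apply Finset.sum_congr rfl
      intro p _
      congr 1
      apply propext
      omega
    simp only [h2]
    rw [h1]
    have h3 : ((m - 1 : ℕ) : ℤ) = (m : ℤ) - 1 := by omega
    rw [h3, show m - 1 - 1 = m - 2 by omega]
    ring_nf

theorem SD_zero (n : ℕ) : SD (n + 2) 0 = SD n 0 := by
  rw [SD_step]; simp

theorem SD_one (n : ℕ) : SD (n + 2) 1 = 2 * SD n 1 + n * SD n 0 := by
  rw [SD_step]; simp; ring

theorem SD_rec (n k : ℕ) : SD (n + 2) (k + 2) = ((k : ℤ) + 3) * SD n (k + 2) +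
    ((n : ℤ) - 2 - 2 * k) * SD n (k + 1) - ((n : ℤ) + 1 - k) * SD n k := by
  rw [SD_step, if_neg (by omega), if_neg (by omega), if_neg (by omega)]
  rw [show k + 2 - 1 = k + 1 by omega, show k + 2 - 2 = k by omega]
  push_cast
  ring

theorem SD_0 (k : ℕ) : SD 0 k = if k = 0 then 1 else 0 := by
  unfold SD
  have h : ∀ τ : Equiv.Perm (Fin (0 + 1)), des τ = 0 := by intro τ; simp [des]
  simp only [h]
  by_cases hk : k = 0
  · subst hk; simp
  · rw [if_neg hk, if_neg (fun h => hk h.symm)]; simp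

theorem SD_1_0 : SD 1 0 = 1 := by decide

theorem SD_1_1 : SD 1 1 = -1 := by decide

theorem SD_big (n k : ℕ) (h : n < k) : SD n k = 0 := by
  unfold SD
  apply Finset.sum_eq_zero
  intro τ _
  rw [if_neg, mul_zero]
  have h1 := Finset.card_filter_le (Finset.univ : Finset (Fin n)) (fun i => τ i.succ < τ i.castSucc)
  rw [Finset.card_univ, Fintype.card_fin] at h1
  unfold des
  omega

theorem SD_le (n k : ℕ) : |SD n k| ≤ E n k := by
  rw [E_sum]
  unfold SD
  refine (Finset.abs_sum_le_sum_abs _ _).trans (Finset.sum_le_sum fun τ _ => ?_)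
  rw [abs_mul]
  have h1 : |((Equiv.Perm.sign τ : ℤˣ) : ℤ)| = 1 := by
    rcases Int.units_eq_one_or (Equiv.Perm.sign τ) with h | h <;> rw [h] <;> simp
  rw [h1, one_mul]
  split_ifs <;> simp

end Q166.SgnDes
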