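import Mathlib
import Pool.Agent.Q166.SgnDes

/-!
Inequalities for the Eulerian numbers and the signed Eulerian numbers.
-/

set_option autoImplicit false

namespace Q166.SyncIneq

open Pool.Agent.H24R3.Eul Q166.SgnDes

theorem E_rec' (n k : ℕ) :
    E (n + 1) (k + 1) = ((k : ℤ) + 2) * E n (k + 1) + ((n : ℤ) + 1 - k) * E n k := by
  by_cases h : k ≤ n
  · exact E_rec n k h
  · rw [E_big (n + 1) (k + 1) (by omega), E_big n (k + 1) (by omega), E_big n k (by omega)]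
    ring

theorem E_zero (n : ℕ) : E n 0 = 1 := by
  induction n with
  | zero => exact E_zero_zero
  | succ n ih => rw [E_succ_zero, ih]

theorem E_symm : ∀ n k : ℕ, k ≤ n → E n (n - k) = E n k := by
  intro n
  induction n with
  | zero => intro k hk; have : k = 0 := by omega
            subst this; rfl
  | succ n ih =>
    intro k hk
    rcases Nat.eq_zero_or_pos k with rfl | hk0
    · rw [Nat.sub_zero, E_rec', E_big n (n + 1) (by omega), E_zero]
      have h1 := ih 0 (by omega)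
      rw [Nat.sub_zero, E_zero] at h1
      rw [h1]; ring
    · obtain ⟨k, rfl⟩ : ∃ j, k = j + 1 := ⟨k - 1, by omega⟩
      rw [show n + 1 - (k + 1) = n - k by omega]
      by_cases hkn : k = n
      · subst hkn
        rw [Nat.sub_self, E_zero, E_rec', E_big k (k + 1) (by omega)]
        have h1 := ih 0 (by omega)
        rw [Nat.sub_zero, E_zero] at h1
        rw [h1]; ring
      · obtain ⟨j, hj⟩ : ∃ j, n - k = j + 1 := ⟨n - k - 1, by omega⟩
        rw [hj, E_rec', E_rec']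
        have h1 := ih k (by omega)
        have h2 := ih (k + 1) (by omega)
        rw [hj] at h1
        rw [show n - (k + 1) = j by omega] at h2
        rw [h1, h2]
        have h3 : (n : ℤ) = (k : ℤ) + j + 1 := by omega
        rw [h3]; ring

theorem E_top (n : ℕ) : E n n = 1 := by
  have := E_symm n 0 (by omega)
  rwa [Nat.sub_zero, E_zero] at this

theorem E_one (n : ℕ) : E (n + 1) 1 = 2 * E n 1 + (n + 1) := by
  rw [E_rec' n 0, E_zero]; push_cast; ring

theorem E_two (n : ℕ) : E (n + 1) 2 = 3 * E n 2 + n * E n 1 := by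
  rw [E_rec' n 1]; push_cast; ring

theorem E_pos (n k : ℕ) (h : k ≤ n) : 1 ≤ E n k := by
  induction n generalizing k with
  | zero => have : k = 0 := by omega
            subst this; rw [E_zero]
  | succ n ih =>
    rcases Nat.eq_zero_or_pos k with rfl | hk0
    · rw [E_zero]
    · obtain ⟨k, rfl⟩ : ∃ j, k = j + 1 := ⟨k - 1, by omega⟩
      rw [E_rec']
      have h1 := ih k (by omega)
      have h2 := E_nonneg n (k + 1)
      have h3 : (k : ℤ) ≤ n := by omega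
      nlinarith

theorem E_ge_four (n k : ℕ) (hn : 2 ≤ n) (h1 : 1 ≤ k) (h2 : k + 1 ≤ n) : 4 ≤ E n k := by
  induction n, hn using Nat.le_induction generalizing k with
  | base =>
    have : k = 1 := by omega
    subst this
    rw [E_one, E_one, E_big 0 1 (by omega)]; norm_num
  | succ n hn ih =>
    obtain ⟨k, rfl⟩ : ∃ j, k = j + 1 := ⟨k - 1, by omega⟩
    rw [E_rec']
    have h3 : (k : ℤ) + 1 ≤ n := by omega
    have h4 := E_nonneg n k
    have h5 := E_nonneg n (k + 1)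
    by_cases hk : k + 2 ≤ n
    · have h6 := ih (k + 1) (by omega) (by omega)
      nlinarith
    · have h7 : k + 1 = n := by omega
      have h6 := ih k (by omega) (by omega)
      nlinarith

/-- growth of the first column -/
theorem E_one_big (n : ℕ) (hn : 2 ≤ n) : (n : ℤ) ^ 2 + 2 * n - 4 ≤ E n 1 := by
  induction n, hn using Nat.le_induction with
  | base => rw [E_one, E_one, E_big 0 1 (by omega)]; norm_num
  | succ n hn ih =>
    rw [E_one]
    push_cast
    have : (2 : ℤ) ≤ n := by omega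
    nlinarith

theorem E_penult (n : ℕ) (hn : 1 ≤ n) : E n (n - 1) = E n 1 := E_symm n 1 hn

/-! ### the bound for the signed numbers -/

theorem SD_top_le (n : ℕ) : |SD n n| ≤ 1 := by
  have := SD_le n n
  rwa [E_top] at this

theorem arith1 (m x a e : ℤ) (hm : 2 ≤ m) (hx : 2 ≤ x) (ha : 0 ≤ a) (he : 0 ≤ e)
    (h : (m + 3) * a ≤ e) : (m + 5) * (x * a) ≤ x ^ 2 * e := by
  have h1 : (m + 5) * a ≤ 2 * e := by nlinarith
  have h2 : 0 ≤ x * ((x - 2) * e) := by
    apply mul_nonneg (by omega)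
    apply mul_nonneg (by omega) he
  calc (m + 5) * (x * a) = x * ((m + 5) * a) := by ring
    _ ≤ x * (2 * e) := mul_le_mul_of_nonneg_left h1 (by omega)
    _ ≤ x ^ 2 * e := by nlinarith

theorem arith2 (m a : ℤ) (hm : 2 ≤ m) (ha : a ≤ 1) :
    (m + 5) * ((m + 1) * a) ≤ (m + 1) ^ 2 * 1 + 4 * (m + 1) := by
  have h1 : (m + 5) * ((m + 1) * a) ≤ (m + 5) * ((m + 1) * 1) := by
    apply mul_le_mul_of_nonneg_left _ (by omega)
    apply mul_le_mul_of_nonneg_left ha (by omega)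
  calc _ ≤ _ := h1
    _ = _ := by ring

theorem arith3 (m a e : ℤ) (hm : 2 ≤ m) (h : (m + 3) * a ≤ e) (he : m ^ 2 + 2 * m - 4 ≤ e) :
    (m + 5) * (2 * a + m) ≤ 3 * m + 4 + 4 * e := by
  have h7 : (m + 3) * ((m + 5) * (2 * a + m)) ≤ (m + 3) * (3 * m + 4 + 4 * e) := by
    have h8 : (m + 5) * 2 * ((m + 3) * a) ≤ (m + 5) * 2 * e :=
      mul_le_mul_of_nonneg_left h (by omega)
    have h9 : (2 * m + 2) * (m ^ 2 + 2 * m - 4) ≤ (2 * m + 2) * e :=
      mul_le_mul_of_nonneg_left he (by omega)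
    have h10 : (m + 3) * (m ^ 2 + 2 * m - 4) ≤ (2 * m + 2) * (m ^ 2 + 2 * m - 4) := by
      apply mul_le_mul_of_nonneg_right (by omega)
      nlinarith
    nlinarith
  exact le_of_mul_le_mul_left h7 (by omega)

theorem arith4 (m j a e : ℤ) (hm : 2 ≤ m) (hj : 0 ≤ j) (hjm : j + 2 ≤ m) (ha : 0 ≤ a) (he : 4 ≤ e)
    (h : (m + 3) * a ≤ e) : (m + 5) * ((m - 2) * a) + 8 * (m + 1) ≤
      ((j + 3) * (m - j) + (m + 1 - j) * (j + 2)) * e := by
  have h5 : (m + 5) * a ≤ 2 * e := by nlinarith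
  have hB : 5 * m + 2 ≤ (j + 3) * (m - j) + (m + 1 - j) * (j + 2) := by
    have : 0 ≤ j * (m - 2 - j) := mul_nonneg hj (by omega)
    nlinarith
  have h6 : (m + 5) * ((m - 2) * a) ≤ (m - 2) * (2 * e) := by
    calc (m + 5) * ((m - 2) * a) = (m - 2) * ((m + 5) * a) := by ring
      _ ≤ (m - 2) * (2 * e) := mul_le_mul_of_nonneg_left h5 (by omega)
  have h7 : (5 * m + 2) * e ≤ ((j + 3) * (m - j) + (m + 1 - j) * (j + 2)) * e :=
    mul_le_mul_of_nonneg_right hB (by omega)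
  have h8 : 0 ≤ (m + 1) * (e - 4) := mul_nonneg (by omega) (by omega)
  nlinarith

theorem SD_bound_small (n : ℕ) (hn : 2 ≤ n) (h4 : n < 4) (k : ℕ) (hk1 : 1 ≤ k) (hk2 : k + 1 ≤ n) :
    ((n : ℤ) + 3) * |SD n k| ≤ E n k := by
  have s21 : SD 2 1 = 0 := by rw [SD_one, SD_0, SD_0]; simp
  have s31 : SD 3 1 = -1 := by
    rw [show (3 : ℕ) = 1 + 2 by rfl, SD_one, SD_1_1, SD_1_0]; norm_num
  have s32 : SD 3 2 = -1 := by
    rw [show (3 : ℕ) = 1 + 2 by rfl, show (2 : ℕ) = 0 + 2 by rfl, SD_rec, SD_1_0,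
      SD_big 1 (0 + 2) (by omega)]
    have := SD_1_1
    rw [show (0 + 1 : ℕ) = 1 by rfl, this]
    norm_num
  rcases (show n = 2 ∨ n = 3 by omega) with rfl | rfl
  · have : k = 1 := by omega
    subst this
    rw [s21]; simp; exact E_nonneg _ _
  · rcases (show k = 1 ∨ k = 2 by omega) with rfl | rfl
    · rw [s31, E_one, E_one, E_one, E_big 0 1 (by omega)]; norm_num
    · rw [s32, show E 3 2 = E 3 1 from E_penult 3 (by omega), E_one, E_one, E_one,
        E_big 0 1 (by omega)]; norm_num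

theorem SD_bound_first (m : ℕ) (hm : 2 ≤ m) (h1 : ((m : ℤ) + 3) * |SD m 1| ≤ E m 1) :
    (((m + 2 : ℕ) : ℤ) + 3) * |SD (m + 2) 1| ≤ E (m + 2) 1 := by
  have hone := E_one_big m hm
  have hmz : (2 : ℤ) ≤ m := by omega
  rw [SD_one, show m + 2 = (m + 1) + 1 by rfl, E_one, E_one]
  have h2 : |SD m 0| ≤ 1 := by
    have := SD_le m 0
    rwa [E_zero] at this
  have h3 : |2 * SD m 1 + m * SD m 0| ≤ 2 * |SD m 1| + m := by
    refine (abs_add_le _ _).trans ?_
    rw [abs_mul, abs_mul, abs_two, abs_of_nonneg (by omega : (0 : ℤ) ≤ m)]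
    nlinarith
  have h6 := arith3 m |SD m 1| (E m 1) hmz h1 hone
  push_cast
  calc ((m : ℤ) + 1 + 1 + 3) * |2 * SD m 1 + m * SD m 0|
      ≤ ((m : ℤ) + 1 + 1 + 3) * (2 * |SD m 1| + m) :=
        mul_le_mul_of_nonneg_left h3 (by positivity)
    _ = ((m : ℤ) + 5) * (2 * |SD m 1| + m) := by ring
    _ ≤ _ := h6
    _ = _ := by ring

theorem E_two_step (m j : ℕ) : E (m + 2) (j + 2) = ((j : ℤ) + 3) ^ 2 * E m (j + 2) +
    (((j : ℤ) + 3) * (m - j) + ((m : ℤ) + 1 - j) * (j + 2)) * E m (j + 1) +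
    ((m : ℤ) + 1 - j) ^ 2 * E m j := by
  rw [show m + 2 = (m + 1) + 1 by rfl, show j + 2 = (j + 1) + 1 by rfl, E_rec', E_rec', E_rec']
  push_cast; ring

theorem SD_two_step (m j : ℕ) (hjm : j + 1 ≤ m) : |SD (m + 2) (j + 2)| ≤
    ((j : ℤ) + 3) * |SD m (j + 2)| +
            |(m : ℤ) - 2 - 2 * j| * |SD m (j + 1)| + ((m : ℤ) + 1 - j) * |SD m j| := by
  rw [SD_rec]
  refine (abs_sub _ _).trans ?_
  refine (add_le_add_left (abs_add_le _ _) _).trans ?_
  rw [abs_mul, abs_mul, abs_mul, abs_of_nonneg (by omega : (0 : ℤ) ≤ (j : ℤ) + 3),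
    abs_of_nonneg (by omega : (0 : ℤ) ≤ (m : ℤ) + 1 - j)]

theorem SD_bound_last (m : ℕ) (hm : 2 ≤ m)
    (h1 : ((m : ℤ) + 3) * |SD m (m - 1)| ≤ E m (m - 1)) :
    (((m + 2 : ℕ) : ℤ) + 3) * |SD (m + 2) (m + 1)| ≤ E (m + 2) (m + 1) := by
  obtain ⟨j, rfl⟩ : ∃ j, m = j + 1 := ⟨m - 1, by omega⟩
  rw [show j + 1 - 1 = j by omega] at h1
  have hone := E_one_big (j + 1) hm
  have e1 : SD (j + 1) (j + 2) = 0 := SD_big (j + 1) (j + 2) (by omega)
  have e4 : |SD (j + 1) (j + 1)| ≤ 1 := SD_top_le (j + 1)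
  have e5 : E (j + 1) j = E (j + 1) 1 := by
    have := E_penult (j + 1) (by omega)
    rwa [show j + 1 - 1 = j by omega] at this
  have e6 : E (j + 1 + 2) (j + 2) = E (j + 1 + 2) 1 := by
    have := E_penult (j + 1 + 2) (by omega)
    rwa [show j + 1 + 2 - 1 = j + 2 by omega] at this
  have h := SD_two_step (j + 1) j le_rfl
  rw [e1] at h
  rw [e5] at h1
  rw [show j + 1 + 1 = j + 2 by rfl, e6, show j + 1 + 2 = (j + 1 + 1) + 1 by rfl, E_one, E_one]
  have h2 := abs_nonneg (SD (j + 1) (j + 1))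
  have habs : |((j + 1 : ℕ) : ℤ) - 2 - 2 * j| ≤ (j : ℤ) + 1 := by
    rw [abs_le]; constructor <;> push_cast <;> omega
  have h3 : |((j + 1 : ℕ) : ℤ) - 2 - 2 * j| * |SD (j + 1) (j + 1)| ≤ (j : ℤ) + 1 := by
    calc _ ≤ ((j : ℤ) + 1) * 1 := mul_le_mul habs e4 h2 (by omega)
      _ = _ := by ring
  have h4 : |SD (j + 1 + 2) (j + 2)| ≤ 2 * |SD (j + 1) j| + ((j + 1 : ℕ) : ℤ) := by
    have e7 : (((j + 1 : ℕ) : ℤ) + 1 - j) = 2 := by push_cast; ring
    rw [e7] at h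
    simp only [abs_zero, mul_zero, zero_add] at h
    push_cast at h h3 ⊢
    linarith
  have h6 := arith3 ((j + 1 : ℕ) : ℤ) |SD (j + 1) j| (E (j + 1) 1) (by omega) h1 hone
  calc (((j + 1 + 1 + 1 : ℕ) : ℤ) + 3) * |SD (j + 1 + 2) (j + 2)|
      ≤ (((j + 1 + 1 + 1 : ℕ) : ℤ) + 3) * (2 * |SD (j + 1) j| + ((j + 1 : ℕ) : ℤ)) :=
        mul_le_mul_of_nonneg_left h4 (by positivity)
    _ = (((j + 1 : ℕ) : ℤ) + 5) * (2 * |SD (j + 1) j| + ((j + 1 : ℕ) : ℤ)) := by
        push_cast; ring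
    _ ≤ _ := h6
    _ = _ := by push_cast; ring

theorem SD_bound_mid (m j : ℕ) (hm : 2 ≤ m) (hjm : j + 2 ≤ m)
    (IH : ∀ k, 1 ≤ k → k + 1 ≤ m → ((m : ℤ) + 3) * |SD m k| ≤ E m k) :
    (((m + 2 : ℕ) : ℤ) + 3) * |SD (m + 2) (j + 2)| ≤ E (m + 2) (j + 2) := by
  have hmz : (2 : ℤ) ≤ m := by omega
  have hj0 : (0 : ℤ) ≤ j := by omega
  have hjz : (j : ℤ) + 2 ≤ m := by omega
  have t1 : ((m : ℤ) + 5) * (((j : ℤ) + 3) * |SD m (j + 2)|) ≤
      ((j : ℤ) + 3) ^ 2 * E m (j + 2) + 4 * ((m : ℤ) + 1) := by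
    rcases Nat.lt_or_ge (j + 2) m with h | h
    · have h1 := IH (j + 2) (by omega) (by omega)
      have h2 := arith1 m (j + 3) |SD m (j + 2)| (E m (j + 2)) hmz (by omega) (abs_nonneg _)
        (E_nonneg _ _) h1
      linarith
    · have h' : j + 2 = m := by omega
      have h3 : (j : ℤ) + 3 = m + 1 := by omega
      rw [h', E_top, h3]
      exact arith2 m _ hmz (SD_top_le m)
  have t3 : ((m : ℤ) + 5) * (((m : ℤ) + 1 - j) * |SD m j|) ≤
      ((m : ℤ) + 1 - j) ^ 2 * E m j + 4 * ((m : ℤ) + 1) := by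
    rcases Nat.eq_zero_or_pos j with h | h
    · subst h
      have h1 := SD_le m 0
      rw [E_zero] at h1
      rw [E_zero]
      push_cast
      rw [sub_zero]
      exact arith2 m _ hmz h1
    · have h1 := IH j h (by omega)
      have h2 := arith1 m (m + 1 - j) |SD m j| (E m j) hmz (by omega) (abs_nonneg _)
        (E_nonneg _ _) h1
      linarith
  have h1 := IH (j + 1) (by omega) (by omega)
  have h2 := abs_nonneg (SD m (j + 1))
  have h4 := E_ge_four m (j + 1) hm (by omega) (by omega)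
  have t2 := arith4 m j |SD m (j + 1)| (E m (j + 1)) hmz hj0 hjz h2 h4 h1
  have hq : |(m : ℤ) - 2 - 2 * j| ≤ m - 2 := by
    rw [abs_le]; constructor <;> omega
  have hq2 : |(m : ℤ) - 2 - 2 * j| * |SD m (j + 1)| ≤ (m - 2) * |SD m (j + 1)| :=
    mul_le_mul_of_nonneg_right hq h2
  have hs := SD_two_step m j (by omega)
  have hs2 : |SD (m + 2) (j + 2)| ≤ ((j : ℤ) + 3) * |SD m (j + 2)| +
      (m - 2) * |SD m (j + 1)| + ((m : ℤ) + 1 - j) * |SD m j| := by linarith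
  rw [E_two_step]
  calc (((m + 2 : ℕ) : ℤ) + 3) * |SD (m + 2) (j + 2)|
      ≤ (((m + 2 : ℕ) : ℤ) + 3) * (((j : ℤ) + 3) * |SD m (j + 2)| +
        (m - 2) * |SD m (j + 1)| + ((m : ℤ) + 1 - j) * |SD m j|) :=
        mul_le_mul_of_nonneg_left hs2 (by positivity)
    _ = ((m : ℤ) + 5) * (((j : ℤ) + 3) * |SD m (j + 2)|) +
        ((m : ℤ) + 5) * ((m - 2) * |SD m (j + 1)|) +
        ((m : ℤ) + 5) * (((m : ℤ) + 1 - j) * |SD m j|) := by push_cast; ring
    _ ≤ _ := by linarith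

theorem SD_bound (n : ℕ) (hn : 2 ≤ n) : ∀ k, 1 ≤ k → k + 1 ≤ n →
    ((n : ℤ) + 3) * |SD n k| ≤ E n k := by
  induction n using Nat.strong_induction_on with
  | _ n ih =>
    intro k hk1 hk2
    rcases Nat.lt_or_ge n 4 with h4 | h4
    · exact SD_bound_small n hn h4 k hk1 hk2
    · obtain ⟨m, rfl⟩ : ∃ m, n = m + 2 := ⟨n - 2, by omega⟩
      have hm : 2 ≤ m := by omega
      have IH := ih m (by omega) hm
      rcases Nat.eq_or_lt_of_le hk1 with hk | hk
      · subst hk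
        exact SD_bound_first m hm (IH 1 le_rfl (by omega))
      · obtain ⟨j, rfl⟩ : ∃ j, k = j + 2 := ⟨k - 2, by omega⟩
        rcases Nat.eq_or_lt_of_le (show j + 1 ≤ m by omega) with h | h
        · have h' : j + 2 = m + 1 := by omega
          rw [h']
          exact SD_bound_last m hm (IH (m - 1) (by omega) (by omega))
        · exact SD_bound_mid m j hm h IH

end Q166.SyncIneq
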