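import Mathlib
import Pool.Agent.Q166.SyncIneq

/-!
Ultra-log-concavity of the Eulerian numbers and the perturbed log-concavity inequality.
-/

set_option autoImplicit false

namespace Q166.EulULC

open Pool.Agent.H24R3.Eul Q166.SgnDes Q166.SyncIneq

theorem lc_add (a b c d : ℤ) (hb : 0 < b) (hc : 0 < c)
    (h1 : a * c ≤ b ^ 2) (h2 : b * d ≤ c ^ 2) (had : 0 ≤ a) (hd : 0 ≤ d) :
    (a + b) * (c + d) ≤ (b + c) ^ 2 := by
  have h3 : a * d ≤ b * c := by
    have h4 : (b * c) * (a * d) ≤ (b * c) * (b * c) := by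
      calc (b * c) * (a * d) = (a * c) * (b * d) := by ring
        _ ≤ b ^ 2 * c ^ 2 := mul_le_mul h1 h2 (by positivity) (by positivity)
        _ = _ := by ring
    exact le_of_mul_le_mul_left h4 (by positivity)
  nlinarith

/-- the normalised Eulerian numbers -/
def B (n k : ℕ) : ℤ := (k.factorial : ℤ) * (n - k).factorial * E n k

theorem B_big (n k : ℕ) (h : n < k) : B n k = 0 := by
  unfold B; rw [E_big n k h, mul_zero]

theorem B_pos (n k : ℕ) (h : k ≤ n) : 0 < B n k := by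
  unfold B
  have := E_pos n k h
  have h1 : (0 : ℤ) < k.factorial := by exact_mod_cast k.factorial_pos
  have h2 : (0 : ℤ) < (n - k).factorial := by exact_mod_cast (n - k).factorial_pos
  positivity

theorem B_nonneg (n k : ℕ) : 0 ≤ B n k := by
  rcases Nat.lt_or_ge n k with h | h
  · rw [B_big n k h]
  · exact (B_pos n k h).le

/-- the weighted sequence -/
def C (n k : ℕ) : ℤ := ((k : ℤ) + 1) * (n + 1 - k) * B n k

theorem C_big (n k : ℕ) (h : n < k) : C n k = 0 := by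
  unfold C; rw [B_big n k h, mul_zero]

theorem C_pos (n k : ℕ) (h : k ≤ n) : 0 < C n k := by
  unfold C
  have := B_pos n k h
  have h1 : (0 : ℤ) < (n : ℤ) + 1 - k := by omega
  positivity

theorem C_nonneg (n k : ℕ) : 0 ≤ C n k := by
  rcases Nat.lt_or_ge n k with h | h
  · rw [C_big n k h]
  · exact (C_pos n k h).le

theorem B_succ_zero (n : ℕ) : B (n + 1) 0 = C n 0 := by
  unfold C B
  rw [E_zero, E_zero, Nat.sub_zero, Nat.sub_zero, Nat.factorial_succ]
  push_cast; ring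

theorem B_succ (n k : ℕ) (h : k ≤ n) : B (n + 1) (k + 1) = C n (k + 1) + C n k := by
  rcases Nat.eq_or_lt_of_le h with h1 | h1
  · subst h1
    rw [C_big k (k + 1) (by omega)]
    unfold C B
    rw [E_top, E_top, Nat.sub_self, Nat.sub_self, Nat.factorial_succ]
    push_cast; ring
  · obtain ⟨m, rfl⟩ : ∃ m, n = k + 1 + m := ⟨n - k - 1, by omega⟩
    unfold C B
    rw [E_rec', show k + 1 + m + 1 - (k + 1) = m + 1 by omega,
      show k + 1 + m - (k + 1) = m by omega, show k + 1 + m - k = m + 1 by omega,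
      Nat.factorial_succ, Nat.factorial_succ]
    push_cast; ring

theorem C_lc (n : ℕ) (hB : ∀ k, k + 2 ≤ n → B n k * B n (k + 2) ≤ B n (k + 1) ^ 2) :
    ∀ k, k + 2 ≤ n + 1 → C n k * C n (k + 2) ≤ C n (k + 1) ^ 2 := by
  intro k hk
  rcases Nat.lt_or_ge n (k + 2) with h | h
  · rw [C_big n (k + 2) h, mul_zero]; positivity
  · have h1 := hB k h
    unfold C
    have h2 : (0 : ℤ) ≤ (k : ℤ) := by omega
    have h3 : (k : ℤ) + 2 ≤ n := by omega
    push_cast
    have h4 : 0 ≤ B n k * B n (k + 2) := mul_nonneg (B_nonneg _ _) (B_nonneg _ _)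
    have h5 : ((k : ℤ) + 1) * (k + 3) ≤ (k + 2) ^ 2 := by nlinarith
    have h6 : ((n : ℤ) + 1 - k) * (n - 1 - k) ≤ (n - k) ^ 2 := by nlinarith
    calc ((k : ℤ) + 1) * (n + 1 - k) * B n k * ((k + 2 + 1) * (n + 1 - (k + 2)) * B n (k + 2))
        = (((k : ℤ) + 1) * (k + 3)) * ((((n : ℤ) + 1 - k) * (n - 1 - k)) *
          (B n k * B n (k + 2))) := by ring
      _ ≤ ((k : ℤ) + 2) ^ 2 * ((((n : ℤ) + 1 - k) * (n - 1 - k)) *
          (B n k * B n (k + 2))) := by
          apply mul_le_mul_of_nonneg_right h5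
          apply mul_nonneg (mul_nonneg (by omega) (by omega)) h4
      _ ≤ ((k : ℤ) + 2) ^ 2 * ((n - k) ^ 2 * (B n k * B n (k + 2))) := by
          apply mul_le_mul_of_nonneg_left _ (by positivity)
          exact mul_le_mul_of_nonneg_right h6 h4
      _ ≤ ((k : ℤ) + 2) ^ 2 * ((n - k) ^ 2 * B n (k + 1) ^ 2) := by
          apply mul_le_mul_of_nonneg_left _ (by positivity)
          exact mul_le_mul_of_nonneg_left h1 (by positivity)
      _ = _ := by ring

theorem B_lc (n : ℕ) : ∀ k, k + 2 ≤ n → B n k * B n (k + 2) ≤ B n (k + 1) ^ 2 := by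
  induction n with
  | zero => intro k hk; omega
  | succ n ih =>
    have hC := C_lc n ih
    intro k hk
    rcases Nat.eq_zero_or_pos k with h | h
    · subst h
      rw [B_succ_zero, B_succ n 0 (by omega), show 0 + 2 = 1 + 1 by rfl]
      rw [B_succ n 1 (by omega)]
      have := lc_add 0 (C n 0) (C n 1) (C n 2) (C_pos n 0 (by omega)) (C_pos n 1 (by omega))
        (by rw [zero_mul]; positivity) (hC 0 (by omega)) le_rfl (C_nonneg _ _)
      calc C n 0 * (C n (1 + 1) + C n 1) = (0 + C n 0) * (C n 1 + C n 2) := by ring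
        _ ≤ _ := this
        _ = _ := by ring
    · obtain ⟨j, rfl⟩ : ∃ j, k = j + 1 := ⟨k - 1, by omega⟩
      rw [B_succ n j (by omega), B_succ n (j + 1) (by omega), show j + 1 + 2 = (j + 2) + 1 by rfl,
        B_succ n (j + 2) (by omega)]
      have := lc_add (C n j) (C n (j + 1)) (C n (j + 2)) (C n (j + 3)) (C_pos n _ (by omega))
        (C_pos n _ (by omega)) (hC j (by omega)) (hC (j + 1) (by omega)) (C_nonneg _ _)
        (C_nonneg _ _)
      calc (C n (j + 1) + C n j) * (C n (j + 2 + 1) + C n (j + 2))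
          = (C n j + C n (j + 1)) * (C n (j + 2) + C n (j + 3)) := by ring
        _ ≤ _ := this
        _ = _ := by ring

/-- ultra-log-concavity of the Eulerian numbers -/
theorem E_ulc (n k : ℕ) (hk : k + 2 ≤ n) :
    ((k : ℤ) + 2) * (n - k) * (E n k * E n (k + 2)) ≤
      ((k : ℤ) + 1) * (n - k - 1) * E n (k + 1) ^ 2 := by
  obtain ⟨m, rfl⟩ : ∃ m, n = k + 2 + m := ⟨n - k - 2, by omega⟩
  have h := B_lc (k + 2 + m) k hk
  unfold B at h
  rw [show k + 2 + m - k = m + 2 by omega, show k + 2 + m - (k + 1) = m + 1 by omega,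
    show k + 2 + m - (k + 2) = m by omega] at h
  have e1 : ((k + 2).factorial : ℤ) = (k + 2) * ((k + 1) * k.factorial) := by
    rw [Nat.factorial_succ, Nat.factorial_succ]; push_cast; ring
  have e2 : ((m + 2).factorial : ℤ) = (m + 2) * ((m + 1) * m.factorial) := by
    rw [Nat.factorial_succ, Nat.factorial_succ]; push_cast; ring
  have e3 : ((k + 1).factorial : ℤ) = (k + 1) * k.factorial := by
    rw [Nat.factorial_succ]; push_cast; ring
  have e4 : ((m + 1).factorial : ℤ) = (m + 1) * m.factorial := by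
    rw [Nat.factorial_succ]; push_cast; ring
  rw [e1, e2, e3, e4] at h
  have p1 : (0 : ℤ) < k.factorial := by exact_mod_cast k.factorial_pos
  have p2 : (0 : ℤ) < m.factorial := by exact_mod_cast m.factorial_pos
  have h' : (((k : ℤ) + 1) * (m + 1) * k.factorial ^ 2 * m.factorial ^ 2) *
      (((k : ℤ) + 2) * (m + 2) * (E (k + 2 + m) k * E (k + 2 + m) (k + 2))) ≤
      (((k : ℤ) + 1) * (m + 1) * k.factorial ^ 2 * m.factorial ^ 2) *
      (((k : ℤ) + 1) * (m + 1) * E (k + 2 + m) (k + 1) ^ 2) := by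
    calc _ = _ := by ring
      _ ≤ _ := h
      _ = _ := by ring
  have h'' := le_of_mul_le_mul_left h' (by positivity)
  push_cast
  calc _ = ((k : ℤ) + 2) * (m + 2) * (E (k + 2 + m) k * E (k + 2 + m) (k + 2)) := by ring
    _ ≤ _ := h''
    _ = _ := by ring

theorem E_first (n : ℕ) (hn : 2 ≤ n) : 4 * E n 2 ≤ E n 1 ^ 2 := by
  induction n, hn using Nat.le_induction with
  | base =>
    rw [E_top, E_one, E_one, E_big 0 1 (by omega)]; norm_num
  | succ n hn ih =>
    rw [E_one, E_two]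
    have h1 := E_nonneg n 1
    have h2 := E_nonneg n 2
    nlinarith

theorem final_mid (n a b c x y z : ℤ) (hn : 3 ≤ n) (ha : 0 ≤ a) (hb : 0 ≤ b) (hc : 0 ≤ c)
    (hx : 0 ≤ x) (hy : 0 ≤ y) (hz : 0 ≤ z)
    (h1 : (n + 3) * x ≤ a) (h2 : (n + 3) * y ≤ b) (h3 : (n + 3) * z ≤ c)
    (h : (n + 4) ^ 2 * (a * c) ≤ (n + 2) ^ 2 * b ^ 2) : (a + x) * (c + z) ≤ (b - y) ^ 2 := by
  have e1 : (n + 3) * (a + x) ≤ (n + 4) * a := by nlinarith
  have e2 : (n + 3) * (c + z) ≤ (n + 4) * c := by nlinarith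
  have e3 : (n + 2) * b ≤ (n + 3) * (b - y) := by nlinarith
  have e4 : ((n + 3) * (a + x)) * ((n + 3) * (c + z)) ≤ ((n + 4) * a) * ((n + 4) * c) := by
    apply mul_le_mul e1 e2
    · apply mul_nonneg (by omega) (by omega)
    · apply mul_nonneg (by omega) (by omega)
  have e5 : ((n + 2) * b) ^ 2 ≤ ((n + 3) * (b - y)) ^ 2 := by
    apply pow_le_pow_left₀ _ e3
    apply mul_nonneg (by omega) hb
  have e6 : (n + 3) ^ 2 * ((a + x) * (c + z)) ≤ (n + 3) ^ 2 * (b - y) ^ 2 := by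
    calc _ = ((n + 3) * (a + x)) * ((n + 3) * (c + z)) := by ring
      _ ≤ _ := e4
      _ = (n + 4) ^ 2 * (a * c) := by ring
      _ ≤ _ := h
      _ = ((n + 2) * b) ^ 2 := by ring
      _ ≤ _ := e5
      _ = _ := by ring
  exact le_of_mul_le_mul_left e6 (by positivity)

theorem final_end (n b c x y z : ℤ) (hn : 3 ≤ n) (hb : 0 ≤ b) (hc : 0 ≤ c)
    (hx : 0 ≤ x) (hx1 : x ≤ 1) (hy : 0 ≤ y) (hz : 0 ≤ z)
    (h2 : (n + 3) * y ≤ b) (h3 : (n + 3) * z ≤ c)
    (h : 4 * c ≤ b ^ 2) : (1 + x) * (c + z) ≤ (b - y) ^ 2 := by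
  have e2 : (n + 3) * (c + z) ≤ (n + 4) * c := by nlinarith
  have e3 : (n + 2) * b ≤ (n + 3) * (b - y) := by nlinarith
  have e5 : ((n + 2) * b) ^ 2 ≤ ((n + 3) * (b - y)) ^ 2 := by
    apply pow_le_pow_left₀ _ e3
    apply mul_nonneg (by omega) hb
  have e7 : (1 + x) * (c + z) ≤ 2 * (c + z) := mul_le_mul_of_nonneg_right (by omega) (by omega)
  have e8 : (n + 3) * ((n + 3) * (c + z)) ≤ (n + 3) * ((n + 4) * c) :=
    mul_le_mul_of_nonneg_left e2 (by omega)
  have e9 : 2 * ((n + 3) * (n + 4)) * c ≤ (n + 2) ^ 2 * 4 * c := by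
    apply mul_le_mul_of_nonneg_right _ hc
    nlinarith
  have e10 : (n + 2) ^ 2 * (4 * c) ≤ (n + 2) ^ 2 * b ^ 2 :=
    mul_le_mul_of_nonneg_left h (by positivity)
  have e6 : (n + 3) ^ 2 * ((1 + x) * (c + z)) ≤ (n + 3) ^ 2 * (b - y) ^ 2 := by
    calc (n + 3) ^ 2 * ((1 + x) * (c + z)) ≤ (n + 3) ^ 2 * (2 * (c + z)) :=
          mul_le_mul_of_nonneg_left e7 (by positivity)
      _ = 2 * ((n + 3) * ((n + 3) * (c + z))) := by ring
      _ ≤ 2 * ((n + 3) * ((n + 4) * c)) := by omega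
      _ = 2 * ((n + 3) * (n + 4)) * c := by ring
      _ ≤ _ := e9
      _ = (n + 2) ^ 2 * (4 * c) := by ring
      _ ≤ _ := e10
      _ = ((n + 2) * b) ^ 2 := by ring
      _ ≤ _ := e5
      _ = _ := by ring
  exact le_of_mul_le_mul_left e6 (by positivity)

/-- the perturbed log-concavity of the Eulerian numbers -/
theorem perturbed (n : ℕ) (hn : 3 ≤ n) (D : ℕ → ℤ) (h0 : ∀ k, 0 ≤ D k) (h1 : ∀ k, D k ≤ E n k)
    (h2 : ∀ k, 1 ≤ k → k + 1 ≤ n → ((n : ℤ) + 3) * D k ≤ E n k) (k : ℕ) (hk : k + 2 ≤ n) :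
    (E n k + D k) * (E n (k + 2) + D (k + 2)) ≤ (E n (k + 1) - D (k + 1)) ^ 2 := by
  have hnz : (3 : ℤ) ≤ n := by omega
  rcases Nat.eq_zero_or_pos k with h | h
  · subst h
    have e1 := h1 0
    rw [E_zero] at e1 ⊢
    exact final_end n (E n 1) (E n 2) (D 0) (D 1) (D 2) hnz (E_nonneg _ _) (E_nonneg _ _)
      (h0 _) e1 (h0 _) (h0 _) (h2 1 le_rfl (by omega)) (h2 2 (by omega) (by omega))
      (E_first n (by omega))
  · rcases Nat.eq_or_lt_of_le hk with h' | h'
    · have e1 := h1 (k + 2)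
      have e2 : E n (k + 2) = 1 := by rw [h']; exact E_top n
      have e3 : E n (k + 1) = E n 1 := by
        have := E_symm n 1 (by omega)
        rwa [show n - 1 = k + 1 by omega] at this
      have e4 : E n k = E n 2 := by
        have := E_symm n 2 (by omega)
        rwa [show n - 2 = k by omega] at this
      have a1 := h2 k h (by omega)
      have a2 := h2 (k + 1) (by omega) (by omega)
      rw [e2] at e1
      rw [e3] at a2
      rw [e4] at a1
      rw [e2, e3, e4, mul_comm]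
      exact final_end n (E n 1) (E n 2) (D (k + 2)) (D (k + 1)) (D k) hnz (E_nonneg _ _)
        (E_nonneg _ _) (h0 _) e1 (h0 _) (h0 _) a2 a1 (E_first n (by omega))
    · apply final_mid n _ _ _ _ _ _ hnz (E_nonneg _ _) (E_nonneg _ _) (E_nonneg _ _)
        (h0 _) (h0 _) (h0 _) (h2 k h (by omega)) (h2 (k + 1) (by omega) (by omega))
        (h2 (k + 2) (by omega) (by omega))
      have hu := E_ulc n k hk
      have hkz : (k : ℤ) + 3 ≤ n := by omega
      have hk0 : (1 : ℤ) ≤ k := by omega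
      have p1 : 0 < ((k : ℤ) + 2) * (n - k) := mul_pos (by omega) (by omega)
      have q1 : ((n : ℤ) + 4) ^ 2 * (((k : ℤ) + 1) * (n - k - 1)) ≤
          ((n : ℤ) + 2) ^ 2 * (((k : ℤ) + 2) * (n - k)) := by
        have hs : 4 * (((k : ℤ) + 1) * (n - k - 1)) ≤ (n : ℤ) ^ 2 := by
          have := sq_nonneg ((n : ℤ) - 2 * (k + 1))
          nlinarith
        have hs2 : ((n : ℤ) + 3) * (4 * (((k : ℤ) + 1) * (n - k - 1))) ≤
          ((n : ℤ) + 3) * (n : ℤ) ^ 2 := mul_le_mul_of_nonneg_left hs (by omega)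
        have hs3 : ((k : ℤ) + 2) * (n - k) = ((k : ℤ) + 1) * (n - k - 1) + n + 1 := by ring
        rw [hs3]
        nlinarith
      have h3 : (((k : ℤ) + 2) * (n - k)) * (((n : ℤ) + 4) ^ 2 * (E n k * E n (k + 2))) ≤
          (((k : ℤ) + 2) * (n - k)) * (((n : ℤ) + 2) ^ 2 * E n (k + 1) ^ 2) := by
        calc _ = ((n : ℤ) + 4) ^ 2 * (((k : ℤ) + 2) * (n - k) * (E n k * E n (k + 2))) := by ring
          _ ≤ ((n : ℤ) + 4) ^ 2 * (((k : ℤ) + 1) * (n - k - 1) * E n (k + 1) ^ 2) :=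
            mul_le_mul_of_nonneg_left hu (by positivity)
          _ = ((n : ℤ) + 4) ^ 2 * (((k : ℤ) + 1) * (n - k - 1)) * E n (k + 1) ^ 2 := by ring
          _ ≤ ((n : ℤ) + 2) ^ 2 * (((k : ℤ) + 2) * (n - k)) * E n (k + 1) ^ 2 :=
            mul_le_mul_of_nonneg_right q1 (by positivity)
          _ = _ := by ring
      exact le_of_mul_le_mul_left h3 p1

end Q166.EulULC
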