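import Mathlib

set_option autoImplicit false
open Classical

namespace Q166.EvenTriple

/-- first and second moment of a sum of independent uniform samples -/
theorem moment1 {n : ℕ} (g : Fin n → ℝ) (hg : ∑ k, g k = 0) (m : ℕ) :
    ∑ z : Fin m → Fin n, ∑ t, g (z t) = 0 := by
  induction m with
  | zero => simp
  | succ m ih =>
    rw [← Equiv.sum_comp (Fin.consEquiv (fun _ : Fin (m+1) => Fin n)), Fintype.sum_prod_type]
    simp only [Fin.consEquiv_apply, Fin.sum_univ_succ, Fin.cons_zero, Fin.cons_succ]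
    simp only [Finset.sum_add_distrib, ih, add_zero, Finset.sum_const]
    rw [← Finset.smul_sum, hg, smul_zero]

theorem moment2 {n : ℕ} (g : Fin n → ℝ) (hg : ∑ k, g k = 0) (m : ℕ) :
    ∑ z : Fin m → Fin n, (∑ t, g (z t)) ^ 2 * n = m * (n : ℝ) ^ m * ∑ k, (g k) ^ 2 := by
  induction m with
  | zero => simp
  | succ m ih =>
    rw [← Equiv.sum_comp (Fin.consEquiv (fun _ : Fin (m+1) => Fin n)), Fintype.sum_prod_type]
    simp only [Fin.consEquiv_apply, Fin.sum_univ_succ, Fin.cons_zero, Fin.cons_succ]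
    have h1 : ∀ x : Fin n, ∑ z : Fin m → Fin n, (g x + ∑ t, g (z t)) ^ 2 * (n:ℝ) =
        (n:ℝ) ^ m * (g x) ^ 2 * n + ∑ z : Fin m → Fin n, (∑ t, g (z t)) ^ 2 * n := by
      intro x
      have : ∀ z : Fin m → Fin n, (g x + ∑ t, g (z t)) ^ 2 * (n:ℝ) =
          (g x) ^ 2 * n + (2 * g x * n) * (∑ t, g (z t)) + (∑ t, g (z t)) ^ 2 * n := by
        intro z; ring
      have h0 : ∑ z : Fin m → Fin n, (2 * g x * n) * (∑ t, g (z t)) = 0 := by
        rw [← Finset.mul_sum, moment1 g hg m, mul_zero]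
      rw [Finset.sum_congr rfl (fun z _ => this z), Finset.sum_add_distrib, Finset.sum_add_distrib,
        h0]
      simp
      ring
    rw [Finset.sum_congr rfl (fun x _ => h1 x), Finset.sum_add_distrib, ih]
    simp only [Finset.sum_const, Finset.card_univ, Fintype.card_fin, nsmul_eq_mul]
    rw [← Finset.sum_mul, ← Finset.mul_sum]
    push_cast
    ring

/-- second moment of the empirical frequency of a set -/
theorem freq {n m : ℕ} (hn : 0 < n) (hm : 0 < m) (A : Fin n → Prop) :
    (∑ z : Fin m → Fin n, ((((Finset.univ.filter fun t => A (z t)).card : ℝ) / m) -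
      ((Finset.univ.filter A).card : ℝ) / n) = 0) ∧
    (∑ z : Fin m → Fin n, ((((Finset.univ.filter fun t => A (z t)).card : ℝ) / m) -
      ((Finset.univ.filter A).card : ℝ) / n) ^ 2 ≤ (n : ℝ) ^ m / (4 * m)) := by
  have hn' : (n : ℝ) ≠ 0 := by positivity
  have hm' : (m : ℝ) ≠ 0 := by positivity
  set μ : ℝ := ((Finset.univ.filter A).card : ℝ) / n with hμ
  set g : Fin n → ℝ := fun k => (if A k then 1 else 0) - μ with hg
  have hcard : ((Finset.univ.filter A).card : ℝ) = ∑ k, (if A k then (1:ℝ) else 0) := by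
    rw [Finset.sum_boole]
  have hg0 : ∑ k, g k = 0 := by
    simp only [hg, Finset.sum_sub_distrib, ← hcard, Finset.sum_const, Finset.card_univ,
      Fintype.card_fin, nsmul_eq_mul, hμ]
    field_simp
    ring
  have key : ∀ z : Fin m → Fin n, (((Finset.univ.filter fun t => A (z t)).card : ℝ) / m) - μ =
      (∑ t, g (z t)) / m := by
    intro z
    have : ((Finset.univ.filter fun t => A (z t)).card : ℝ) =
        ∑ t, (if A (z t) then (1:ℝ) else 0) := by rw [Finset.sum_boole]
    rw [this]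
    simp only [hg, Finset.sum_sub_distrib, Finset.sum_const, Finset.card_univ,
      Fintype.card_fin, nsmul_eq_mul]
    field_simp
  have hV : ∑ k, (g k) ^ 2 ≤ n / 4 := by
    have : ∀ k, (g k) ^ 2 = (if A k then (1:ℝ) else 0) - 2 * μ * (if A k then (1:ℝ) else 0) + μ ^ 2 := by
      intro k
      simp only [hg]
      split_ifs <;> ring
    rw [Finset.sum_congr rfl (fun k _ => this k), Finset.sum_add_distrib, Finset.sum_sub_distrib,
      ← Finset.mul_sum, ← hcard]
    have h2 : ((Finset.univ.filter A).card : ℝ) = n * μ := by rw [hμ]; field_simp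
    rw [h2]
    simp only [Finset.sum_const, Finset.card_univ, Fintype.card_fin, nsmul_eq_mul]
    have hnn : (0:ℝ) < n := by positivity
    nlinarith [sq_nonneg (μ - 1/2)]
  constructor
  · rw [Finset.sum_congr rfl (fun z _ => key z), ← Finset.sum_div, moment1 g hg0, zero_div]
  · rw [Finset.sum_congr rfl (fun z _ => by rw [key z])]
    have h2 := moment2 g hg0 m
    rw [← Finset.sum_mul] at h2
    have h3 : ∑ z : Fin m → Fin n, (∑ t, g (z t)) ^ 2 = m * (n : ℝ) ^ m * (∑ k, (g k) ^ 2) / n := by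
      field_simp
      linarith
    have h4 : ∑ z : Fin m → Fin n, ((∑ t, g (z t)) / m) ^ 2 =
        (∑ z : Fin m → Fin n, (∑ t, g (z t)) ^ 2) / m ^ 2 := by
      rw [Finset.sum_div]
      exact Finset.sum_congr rfl fun z _ => by rw [div_pow]
    rw [h4, h3]
    have h5 : m * (n : ℝ) ^ m * (∑ k, (g k) ^ 2) / n / m ^ 2 = (n:ℝ)^m / m * ((∑ k, (g k) ^ 2) / n) := by
      field_simp
    rw [h5]
    have h6 : (∑ k, (g k) ^ 2) / n ≤ 1 / 4 := by
      rw [div_le_iff₀ (by positivity)]; linarith
    calc (n:ℝ)^m / m * ((∑ k, (g k) ^ 2) / n) ≤ (n:ℝ)^m / m * (1/4) :=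
          mul_le_mul_of_nonneg_left h6 (by positivity)
      _ = (n:ℝ)^m / (4 * m) := by field_simp

/-- the pairs `i < j` -/
abbrev E (n : ℕ) : Type := {p : Fin n × Fin n // p.1 < p.2}

theorem prod_pairs {n : ℕ} (f : Fin n → Fin n → ℝ) :
    ∏ i, ∏ j, (if i < j then f i j else 1) = ∏ e : E n, f e.1.1 e.1.2 := by
  rw [← Finset.prod_product', ← Finset.prod_filter, Finset.univ_product_univ]
  rw [Finset.prod_subtype (F := inferInstance) (p := fun p : Fin n × Fin n => p.1 < p.2)]
  intro x
  simp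

/-- agreement of the adjacency of `i` and `j` at `k` -/
def agree {n : ℕ} (G : SimpleGraph (Fin n)) (i j k : Fin n) : Prop := (G.Adj i k ↔ G.Adj j k)

noncomputable def P {n : ℕ} (G : SimpleGraph (Fin n)) (e : E n) : ℝ :=
  ((Finset.univ.filter (agree G e.1.1 e.1.2)).card : ℝ) / n

noncomputable def Q {n : ℕ} (G : SimpleGraph (Fin n)) (e : E n) : ℝ :=
  if G.Adj e.1.1 e.1.2 then 1 - P G e else P G e

noncomputable def p {n m : ℕ} (G : SimpleGraph (Fin n)) (z : Fin m → Fin n) (e : E n) : ℝ :=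
  ((Finset.univ.filter (fun t => agree G e.1.1 e.1.2 (z t))).card : ℝ) / m

noncomputable def q {n m : ℕ} (G : SimpleGraph (Fin n)) (z : Fin m → Fin n) (e : E n) : ℝ :=
  if G.Adj e.1.1 e.1.2 then 1 - p G z e else p G z e

theorem P_mem {n : ℕ} (G : SimpleGraph (Fin n)) (e : E n) : 0 ≤ P G e ∧ P G e ≤ 1 := by
  unfold P
  have hn : 0 < n := lt_of_le_of_lt (Nat.zero_le _) e.1.1.2
  refine ⟨by positivity, ?_⟩
  rw [div_le_one (by positivity)]
  have := Finset.card_le_univ (Finset.univ.filter (agree G e.1.1 e.1.2))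
  rw [Fintype.card_fin] at this
  exact_mod_cast this

theorem p_mem {n m : ℕ} (hm : 0 < m) (G : SimpleGraph (Fin n)) (z : Fin m → Fin n) (e : E n) :
    0 ≤ p G z e ∧ p G z e ≤ 1 := by
  unfold p
  refine ⟨by positivity, ?_⟩
  rw [div_le_one (by positivity)]
  have := Finset.card_le_univ (Finset.univ.filter (fun t => agree G e.1.1 e.1.2 (z t)))
  rw [Fintype.card_fin] at this
  exact_mod_cast this

theorem Q_nonneg {n : ℕ} (G : SimpleGraph (Fin n)) (e : E n) : 0 ≤ Q G e := by
  unfold Q; have := P_mem G e; split_ifs <;> linarith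

theorem q_nonneg {n m : ℕ} (hm : 0 < m) (G : SimpleGraph (Fin n)) (z : Fin m → Fin n) (e : E n) :
    0 ≤ q G z e := by
  unfold q; have := p_mem hm G z e; split_ifs <;> linarith

/-- the fraction of the statement is at most `n / (n - 2) * Q` -/
theorem phi_le {n : ℕ} (hn : 3 ≤ n) (G : SimpleGraph (Fin n)) (e : E n) :
    (((Finset.univ.filter (fun k : Fin n => k ≠ e.1.1 ∧ k ≠ e.1.2 ∧
        Even ((if G.Adj e.1.1 e.1.2 then 1 else 0) + (if G.Adj e.1.1 k then 1 else 0)
          + (if G.Adj e.1.2 k then 1 else 0) : ℕ))).card : ℝ) / ((n : ℝ) - 2)) ≤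
      (n : ℝ) / ((n : ℝ) - 2) * Q G e := by
  have hn3 : (3:ℝ) ≤ n := by exact_mod_cast hn
  have hpos : (0:ℝ) < (n:ℝ) - 2 := by linarith
  have hn0 : (n:ℝ) ≠ 0 := by positivity
  rw [div_mul_eq_mul_div]
  apply div_le_div_of_nonneg_right _ hpos.le
  unfold Q P
  by_cases h : G.Adj e.1.1 e.1.2
  · simp only [h, if_true]
    have h1 : (Finset.univ.filter (agree G e.1.1 e.1.2)).card +
        (Finset.univ.filter (fun k => ¬ agree G e.1.1 e.1.2 k)).card = n := by
      have := Finset.card_filter_add_card_filter_not (s := (Finset.univ : Finset (Fin n)))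
        (agree G e.1.1 e.1.2)
      simpa using this
    have h2 : (Finset.univ.filter (fun k : Fin n => k ≠ e.1.1 ∧ k ≠ e.1.2 ∧
        Even (1 + (if G.Adj e.1.1 k then 1 else 0)
          + (if G.Adj e.1.2 k then 1 else 0) : ℕ))).card ≤
        (Finset.univ.filter (fun k => ¬ agree G e.1.1 e.1.2 k)).card := by
      apply Finset.card_le_card
      intro k
      simp only [Finset.mem_filter, Finset.mem_univ, true_and]
      rintro ⟨-, -, h3⟩
      unfold agree
      by_cases a : G.Adj e.1.1 k <;> by_cases b : G.Adj e.1.2 k <;> simp_all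
      · exact absurd h3 (by decide)
    have h3 : (n:ℝ) * (1 - ((Finset.univ.filter (agree G e.1.1 e.1.2)).card : ℝ) / n) =
        ((Finset.univ.filter (fun k => ¬ agree G e.1.1 e.1.2 k)).card : ℝ) := by
      have : ((Finset.univ.filter (agree G e.1.1 e.1.2)).card : ℝ) +
        ((Finset.univ.filter (fun k => ¬ agree G e.1.1 e.1.2 k)).card : ℝ) = n := by exact_mod_cast h1
      field_simp
      linarith
    rw [h3]
    exact_mod_cast h2
  · simp only [h, if_false]
    have h2 : (Finset.univ.filter (fun k : Fin n => k ≠ e.1.1 ∧ k ≠ e.1.2 ∧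
        Even (0 + (if G.Adj e.1.1 k then 1 else 0)
          + (if G.Adj e.1.2 k then 1 else 0) : ℕ))).card ≤
        (Finset.univ.filter (fun k => agree G e.1.1 e.1.2 k)).card := by
      apply Finset.card_le_card
      intro k
      simp only [Finset.mem_filter, Finset.mem_univ, true_and]
      rintro ⟨-, -, h3⟩
      unfold agree
      by_cases a : G.Adj e.1.1 k <;> by_cases b : G.Adj e.1.2 k <;> simp_all
    have h3 : (n:ℝ) * (((Finset.univ.filter (agree G e.1.1 e.1.2)).card : ℝ) / n) =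
        ((Finset.univ.filter (fun k => agree G e.1.1 e.1.2 k)).card : ℝ) := by
      field_simp
    rw [h3]
    exact_mod_cast h2

theorem sum_q {n m : ℕ} (hn : 0 < n) (hm : 0 < m) (G : SimpleGraph (Fin n)) (e : E n) :
    ∑ z : Fin m → Fin n, (q G z e - Q G e) = 0 ∧
    ∑ z : Fin m → Fin n, (q G z e - Q G e) ^ 2 ≤ (n : ℝ) ^ m / (4 * m) := by
  have h := freq hn hm (agree G e.1.1 e.1.2)
  by_cases ha : G.Adj e.1.1 e.1.2
  · have h1 : ∀ z : Fin m → Fin n, q G z e - Q G e = -(p G z e - P G e) := by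
      intro z; unfold q Q; rw [if_pos ha, if_pos ha]; ring
    constructor
    · rw [Finset.sum_congr rfl fun z _ => h1 z, Finset.sum_neg_distrib, neg_eq_zero]
      exact h.1
    · rw [Finset.sum_congr rfl fun z _ => by rw [h1 z, neg_sq]]
      exact h.2
  · have h1 : ∀ z : Fin m → Fin n, q G z e - Q G e = (p G z e - P G e) := by
      intro z; unfold q Q; rw [if_neg ha, if_neg ha]
    constructor
    · rw [Finset.sum_congr rfl fun z _ => h1 z]
      exact h.1
    · rw [Finset.sum_congr rfl fun z _ => by rw [h1 z]]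
      exact h.2

theorem log_lower {q Q δ : ℝ} (hδ : 0 < δ) (hq : 0 ≤ q) (hQ : 0 ≤ Q) :
    (q - Q) / (Q + δ) - (q - Q) ^ 2 / δ ^ 2 ≤ Real.log (q + δ) - Real.log (Q + δ) := by
  have hq' : 0 < q + δ := by linarith
  have hQ' : 0 < Q + δ := by linarith
  have h1 : 1 - ((q + δ) / (Q + δ))⁻¹ ≤ Real.log ((q + δ) / (Q + δ)) :=
    Real.one_sub_inv_le_log_of_pos (by positivity)
  rw [Real.log_div hq'.ne' hQ'.ne'] at h1
  refine le_trans ?_ h1
  have h2 : 1 - ((q + δ) / (Q + δ))⁻¹ = (q - Q) / (Q + δ) - (q - Q) ^ 2 / ((q + δ) * (Q + δ)) := by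
    field_simp
    ring
  rw [h2]
  have h3 : (q - Q) ^ 2 / ((q + δ) * (Q + δ)) ≤ (q - Q) ^ 2 / δ ^ 2 := by
    apply div_le_div_of_nonneg_left (sq_nonneg _) (by positivity)
    nlinarith
  linarith

theorem exists_z {n m : ℕ} (hn : 0 < n) (hm : 0 < m) {δ : ℝ} (hδ : 0 < δ)
    (G : SimpleGraph (Fin n)) :
    ∃ z : Fin m → Fin n, ∏ e : E n, (Q G e + δ) ≤
      Real.exp (Fintype.card (E n) * (1 / (4 * m * δ ^ 2))) * ∏ e : E n, (q G z e + δ) := by
  have hsum : 0 ≤ ∑ z : Fin m → Fin n, ∑ e : E n,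
      (Real.log (q G z e + δ) - Real.log (Q G e + δ) + 1 / (4 * m * δ ^ 2)) := by
    rw [Finset.sum_comm]
    apply Finset.sum_nonneg
    intro e _
    have h1 := sum_q hn hm G e
    have h2 : ∑ z : Fin m → Fin n, ((q G z e - Q G e) / (Q G e + δ) - (q G z e - Q G e) ^ 2 / δ ^ 2
        + 1 / (4 * m * δ ^ 2)) ≤ ∑ z : Fin m → Fin n,
          (Real.log (q G z e + δ) - Real.log (Q G e + δ) + 1 / (4 * m * δ ^ 2)) := by
      apply Finset.sum_le_sum
      intro z _
      have := log_lower hδ (q_nonneg hm G z e) (Q_nonneg G e)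
      linarith
    refine le_trans ?_ h2
    rw [Finset.sum_add_distrib, Finset.sum_sub_distrib, ← Finset.sum_div, h1.1, zero_div,
      ← Finset.sum_div]
    simp only [Finset.sum_const, Finset.card_univ, Fintype.card_fun, Fintype.card_fin,
      nsmul_eq_mul]
    have h3 : (∑ z : Fin m → Fin n, (q G z e - Q G e) ^ 2) / δ ^ 2 ≤ (n : ℝ) ^ m / (4 * m) / δ ^ 2 :=
      div_le_div_of_nonneg_right h1.2 (by positivity)
    have h4 : (n : ℝ) ^ m / (4 * m) / δ ^ 2 = (n:ℝ) ^ m * (1 / (4 * m * δ ^ 2)) := by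
      have : (m:ℝ) ≠ 0 := by positivity
      field_simp
    push_cast
    linarith
  have : Nonempty (Fin m → Fin n) := ⟨fun _ => ⟨0, hn⟩⟩
  obtain ⟨z, -, hz⟩ : ∃ z ∈ (Finset.univ : Finset (Fin m → Fin n)), 0 ≤ ∑ e : E n,
      (Real.log (q G z e + δ) - Real.log (Q G e + δ) + 1 / (4 * m * δ ^ 2)) := by
    by_contra hcon
    push Not at hcon
    have := Finset.sum_neg hcon Finset.univ_nonempty
    linarith
  refine ⟨z, ?_⟩
  have hq' : ∀ e, 0 < q G z e + δ := fun e => by have := q_nonneg hm G z e; linarith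
  have hQ' : ∀ e, 0 < Q G e + δ := fun e => by have := Q_nonneg G e; linarith
  rw [Finset.sum_add_distrib, Finset.sum_sub_distrib, ← Real.log_prod (fun e _ => (hq' e).ne'),
    ← Real.log_prod (fun e _ => (hQ' e).ne')] at hz
  simp only [Finset.sum_const, Finset.card_univ, nsmul_eq_mul] at hz
  have h5 : Real.log (∏ e : E n, (Q G e + δ)) ≤
      Fintype.card (E n) * (1 / (4 * m * δ ^ 2)) + Real.log (∏ e : E n, (q G z e + δ)) := by linarith
  have h6 := Real.exp_le_exp.mpr h5
  rwa [Real.exp_log (Finset.prod_pos fun e _ => hQ' e), Real.exp_add,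
    Real.exp_log (Finset.prod_pos fun e _ => hq' e)] at h6

/-- the value of `q` read off from the type `τ` and the edge indicator `b` -/
noncomputable def r {n m : ℕ} (τ : Fin n → Fin m → Bool) (e : E n) (b : Bool) : ℝ :=
  if b then 1 - ((Finset.univ.filter (fun t => τ e.1.1 t = τ e.1.2 t)).card : ℝ) / m
    else ((Finset.univ.filter (fun t => τ e.1.1 t = τ e.1.2 t)).card : ℝ) / m

theorem r_nonneg {n m : ℕ} (hm : 0 < m) (τ : Fin n → Fin m → Bool) (e : E n) (b : Bool) :
    0 ≤ r τ e b := by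
  have h1 : ((Finset.univ.filter (fun t => τ e.1.1 t = τ e.1.2 t)).card : ℝ) / m ≤ 1 := by
    rw [div_le_one (by positivity)]
    have := Finset.card_le_univ (Finset.univ.filter (fun t => τ e.1.1 t = τ e.1.2 t))
    rw [Fintype.card_fin] at this
    exact_mod_cast this
  unfold r
  split_ifs
  · linarith
  · positivity

theorem sum_G {n m : ℕ} (hm : 0 < m) {δ : ℝ} (hδ : 0 < δ) (z : Fin m → Fin n) :
    ∑ G : SimpleGraph (Fin n), ∏ e : E n, (q G z e + δ) ≤
      2 ^ (n * m) * (1 + 2 * δ) ^ (Fintype.card (E n)) := by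
  let ι : SimpleGraph (Fin n) → (Fin n → Fin m → Bool) × (E n → Bool) := fun G =>
    (fun i t => decide (G.Adj i (z t)), fun e => decide (G.Adj e.1.1 e.1.2))
  have hι : Function.Injective ι := by
    intro G H h
    have h2 : (fun e : E n => decide (G.Adj e.1.1 e.1.2)) = fun e => decide (H.Adj e.1.1 e.1.2) :=
      congrArg Prod.snd h
    have h3 : ∀ i j : Fin n, i < j → (G.Adj i j ↔ H.Adj i j) := by
      intro i j hij
      have := congrFun h2 ⟨(i, j), hij⟩
      simpa using this
    ext i j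
    rcases lt_trichotomy i j with hij | hij | hij
    · exact h3 i j hij
    · subst hij; simp
    · rw [G.adj_comm, H.adj_comm]; exact h3 j i hij
  let F : (Fin n → Fin m → Bool) × (E n → Bool) → ℝ := fun x => ∏ e : E n, (r x.1 e (x.2 e) + δ)
  have hF : ∀ G, ∏ e : E n, (q G z e + δ) = F (ι G) := by
    intro G
    apply Finset.prod_congr rfl
    intro e _
    congr 1
    have hc : (Finset.univ.filter (fun t => agree G e.1.1 e.1.2 (z t))) =
        Finset.univ.filter (fun t => (ι G).1 e.1.1 t = (ι G).1 e.1.2 t) := by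
      ext t
      rw [Finset.mem_filter, Finset.mem_filter]
      simp only [Finset.mem_univ, true_and, ι, decide_eq_decide]
      exact Iff.rfl
    unfold q r p
    rw [hc]
    by_cases h : G.Adj e.1.1 e.1.2 <;> simp [h, ι]
  have hF0 : ∀ x, 0 ≤ F x := by
    intro x
    apply Finset.prod_nonneg
    intro e _
    have := r_nonneg hm x.1 e (x.2 e)
    linarith
  calc ∑ G : SimpleGraph (Fin n), ∏ e : E n, (q G z e + δ)
      = ∑ G : SimpleGraph (Fin n), F (ι G) := Finset.sum_congr rfl fun G _ => hF G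
    _ = ∑ x ∈ Finset.univ.image ι, F x := by
        rw [Finset.sum_image (fun a _ b _ h => hι h)]
    _ ≤ ∑ x, F x := Finset.sum_le_sum_of_subset_of_nonneg (Finset.subset_univ _) fun x _ _ => hF0 x
    _ = ∑ τ : Fin n → Fin m → Bool, ∑ b : E n → Bool, ∏ e : E n, (r τ e (b e) + δ) := by
        rw [Fintype.sum_prod_type]
    _ = ∑ τ : Fin n → Fin m → Bool, (1 + 2 * δ) ^ (Fintype.card (E n)) := by
        apply Finset.sum_congr rfl
        intro τ _
        have h1 := Finset.prod_univ_sum (fun _ : E n => (Finset.univ : Finset Bool))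
          (fun e b => r τ e b + δ)
        rw [Fintype.piFinset_univ] at h1
        rw [← h1]
        have h2 : ∀ e : E n, ∑ b : Bool, (r τ e b + δ) = 1 + 2 * δ := by
          intro e
          rw [Fintype.sum_bool]
          simp only [r, if_true, Bool.false_eq_true, if_false]
          ring
        rw [Finset.prod_congr rfl fun e _ => h2 e, Finset.prod_const, Finset.card_univ]
    _ = 2 ^ (n * m) * (1 + 2 * δ) ^ (Fintype.card (E n)) := by
        rw [Finset.sum_const, Finset.card_univ, nsmul_eq_mul]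
        congr 1
        simp only [Fintype.card_fun, Fintype.card_bool, Fintype.card_fin]
        push_cast
        rw [← pow_mul, mul_comm]

theorem card_E (n : ℕ) : (Fintype.card (E n) : ℝ) ≤ (n:ℝ) ^ 2 / 2 := by
  have h1 : Fintype.card (E n) + Fintype.card (E n) ≤ n ^ 2 := by
    have h2 : Fintype.card (E n ⊕ E n) ≤ Fintype.card (Fin n × Fin n) := by
      apply Fintype.card_le_of_injective (fun x : E n ⊕ E n =>
        match x with
        | Sum.inl e => e.1
        | Sum.inr e => (e.1.2, e.1.1))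
      rintro (⟨⟨a, b⟩, hab⟩ | ⟨⟨a, b⟩, hab⟩) (⟨⟨c, d⟩, hcd⟩ | ⟨⟨c, d⟩, hcd⟩) h
      · simp only [Prod.mk.injEq] at h
        simp [h.1, h.2]
      · simp only [Prod.mk.injEq] at h
        exfalso
        simp only at hab hcd
        rw [h.1, h.2] at hab
        exact absurd hab (not_lt.mpr hcd.le)
      · simp only [Prod.mk.injEq] at h
        exfalso
        simp only at hab hcd
        rw [h.1, h.2] at hab
        exact absurd hab (not_lt.mpr hcd.le)
      · simp only [Prod.mk.injEq] at h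
        simp [h.1, h.2]
    rw [Fintype.card_sum, Fintype.card_prod, Fintype.card_fin] at h2
    rw [sq]; exact h2
  have h3 : (Fintype.card (E n) : ℝ) + Fintype.card (E n) ≤ (n:ℝ) ^ 2 := by exact_mod_cast h1
  linarith

theorem bound {n m : ℕ} (hn : 3 ≤ n) (hm : 0 < m) {δ : ℝ} (hδ : 0 < δ) :
    (∑ G : SimpleGraph (Fin n),
        ∏ i : Fin n, ∏ j : Fin n,
          (if i < j then
            (((Finset.univ.filter (fun k : Fin n => k ≠ i ∧ k ≠ j ∧
                Even ((if G.Adj i j then 1 else 0) + (if G.Adj i k then 1 else 0)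
                  + (if G.Adj j k then 1 else 0) : ℕ))).card : ℝ) / ((n : ℝ) - 2))
          else 1)) ≤
      Real.exp ((n:ℝ) ^ 2 / 2 * (2 / ((n:ℝ) - 2) + 1 / (4 * m * δ ^ 2) + 2 * δ) + 2 * (n * m)) := by
  have hn0 : 0 < n := by omega
  have hn3 : (3:ℝ) ≤ n := by exact_mod_cast hn
  have hpos : (0:ℝ) < (n:ℝ) - 2 := by linarith
  set N := Fintype.card (E n) with hN
  have h1 : ∀ G : SimpleGraph (Fin n), (∏ i : Fin n, ∏ j : Fin n,
          (if i < j then
            (((Finset.univ.filter (fun k : Fin n => k ≠ i ∧ k ≠ j ∧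
                Even ((if G.Adj i j then 1 else 0) + (if G.Adj i k then 1 else 0)
                  + (if G.Adj j k then 1 else 0) : ℕ))).card : ℝ) / ((n : ℝ) - 2))
          else 1)) ≤ (((n : ℝ) / ((n : ℝ) - 2)) ^ N *
            Real.exp (N * (1 / (4 * m * δ ^ 2)))) * ∑ z : Fin m → Fin n, ∏ e : E n, (q G z e + δ) := by
    intro G
    rw [prod_pairs (fun i j => (((Finset.univ.filter (fun k : Fin n => k ≠ i ∧ k ≠ j ∧
                Even ((if G.Adj i j then 1 else 0) + (if G.Adj i k then 1 else 0)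
                  + (if G.Adj j k then 1 else 0) : ℕ))).card : ℝ) / ((n : ℝ) - 2)))]
    obtain ⟨z, hz⟩ := exists_z hn0 hm hδ G
    calc _ ≤ ∏ e : E n, ((n : ℝ) / ((n : ℝ) - 2) * (Q G e + δ)) := by
          apply Finset.prod_le_prod
          · intro e _; positivity
          · intro e _
            refine (phi_le hn G e).trans ?_
            apply mul_le_mul_of_nonneg_left _ (by positivity)
            linarith
      _ = ((n : ℝ) / ((n : ℝ) - 2)) ^ N * ∏ e : E n, (Q G e + δ) := by
          rw [Finset.prod_mul_distrib, Finset.prod_const, Finset.card_univ]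
      _ ≤ ((n : ℝ) / ((n : ℝ) - 2)) ^ N * (Real.exp (N * (1 / (4 * m * δ ^ 2))) *
            ∏ e : E n, (q G z e + δ)) := by
          apply mul_le_mul_of_nonneg_left hz (by positivity)
      _ = (((n : ℝ) / ((n : ℝ) - 2)) ^ N * Real.exp (N * (1 / (4 * m * δ ^ 2)))) *
            ∏ e : E n, (q G z e + δ) := by ring
      _ ≤ _ := by
          apply mul_le_mul_of_nonneg_left _ (by positivity)
          apply Finset.single_le_sum (f := fun z : Fin m → Fin n => ∏ e : E n, (q G z e + δ)) _
            (Finset.mem_univ z)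
          intro z _
          apply Finset.prod_nonneg
          intro e _
          have := q_nonneg hm G z e
          linarith
  have hNb : (N:ℝ) ≤ (n:ℝ)^2/2 := card_E n
  calc _ ≤ ∑ G : SimpleGraph (Fin n), (((n : ℝ) / ((n : ℝ) - 2)) ^ N *
            Real.exp (N * (1 / (4 * m * δ ^ 2)))) * ∑ z : Fin m → Fin n, ∏ e : E n, (q G z e + δ) :=
        Finset.sum_le_sum fun G _ => h1 G
    _ = (((n : ℝ) / ((n : ℝ) - 2)) ^ N * Real.exp (N * (1 / (4 * m * δ ^ 2)))) *
          ∑ z : Fin m → Fin n, ∑ G : SimpleGraph (Fin n), ∏ e : E n, (q G z e + δ) := by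
        rw [← Finset.mul_sum, Finset.sum_comm]
    _ ≤ (((n : ℝ) / ((n : ℝ) - 2)) ^ N * Real.exp (N * (1 / (4 * m * δ ^ 2)))) *
          ∑ z : Fin m → Fin n, 2 ^ (n * m) * (1 + 2 * δ) ^ N := by
        apply mul_le_mul_of_nonneg_left _ (by positivity)
        exact Finset.sum_le_sum fun z _ => sum_G hm hδ z
    _ = (((n : ℝ) / ((n : ℝ) - 2)) ^ N * Real.exp (N * (1 / (4 * m * δ ^ 2)))) *
          ((n:ℝ) ^ m * (2 ^ (n * m) * (1 + 2 * δ) ^ N)) := by
        rw [Finset.sum_const, Finset.card_univ, nsmul_eq_mul]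
        simp only [Fintype.card_fun, Fintype.card_fin]
        push_cast
        ring
    _ ≤ (Real.exp (N * (2 / ((n:ℝ) - 2))) * Real.exp (N * (1 / (4 * m * δ ^ 2)))) *
          (Real.exp (n * m) * (Real.exp (n * m) * Real.exp (N * (2 * δ)))) := by
        have a1 : ((n : ℝ) / ((n : ℝ) - 2)) ^ N ≤ Real.exp (N * (2 / ((n:ℝ) - 2))) := by
          rw [Real.exp_nat_mul]
          apply pow_le_pow_left₀ (by positivity)
          have := Real.add_one_le_exp (2 / ((n:ℝ) - 2))
          refine le_trans (le_of_eq ?_) this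
          field_simp
          ring
        have a2 : (n:ℝ) ^ m ≤ Real.exp (n * m) := by
          rw [mul_comm, Real.exp_nat_mul]
          apply pow_le_pow_left₀ (by positivity)
          have := Real.add_one_le_exp (n:ℝ)
          linarith
        have a3 : (2:ℝ) ^ (n * m) ≤ Real.exp (n * m) := by
          have : ((n:ℝ) * m) = ((n * m : ℕ) : ℝ) * 1 := by push_cast; ring
          rw [this, Real.exp_nat_mul]
          apply pow_le_pow_left₀ (by norm_num)
          have := Real.add_one_le_exp (1:ℝ)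
          linarith
        have a4 : (1 + 2 * δ) ^ N ≤ Real.exp (N * (2 * δ)) := by
          rw [Real.exp_nat_mul]
          apply pow_le_pow_left₀ (by positivity)
          have := Real.add_one_le_exp (2 * δ)
          linarith
        gcongr
    _ = Real.exp (N * (2 / ((n:ℝ) - 2) + 1 / (4 * m * δ ^ 2) + 2 * δ) + 2 * (n * m)) := by
        rw [← Real.exp_add, ← Real.exp_add, ← Real.exp_add, ← Real.exp_add]
        congr 1
        ring
    _ ≤ _ := by
        apply Real.exp_le_exp.mpr
        have : 0 ≤ 2 / ((n:ℝ) - 2) + 1 / (4 * m * δ ^ 2) + 2 * δ := by positivity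
        nlinarith

end Q166.EvenTriple
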