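import Pool.Agent.Q166.SqJ
import Pool.Agent.Q120.MF.Dim

/-!
# Exceptional exponents: an upper bound for the dimension of a limsup set
-/

set_option autoImplicit false

namespace Pool.Agent.Q166.Ex

open Finset MeasureTheory Filter Topology
open scoped ENNReal NNReal

theorem dimH_limsup_le {τ : Type} {E : Set ℝ} {s : ℝ} (hs : 0 ≤ s) (F : ℕ → Finset τ) (U : ℕ → τ → Set ℝ)
    (d : ℕ → ℝ) (hd : ∀ i, 0 ≤ d i) (hdt : Tendsto d atTop (𝓝 0))
    (hdiam : ∀ i, ∀ p ∈ F i, Metric.ediam (U i p) ≤ ENNReal.ofReal (d i))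
    (hcov : ∀ θ ∈ E, ∃ᶠ i in atTop, ∃ p ∈ F i, θ ∈ U i p)
    (hsum : Summable fun i => ((F i).card : ℝ) * d i ^ s) : dimH E ≤ ENNReal.ofReal s := by
  let ι : ℕ → Type := fun N => (i : ℕ) × {p : τ // p ∈ F (i + N)}
  let V : ∀ N, ι N → Set ℝ := fun N q => U (q.1 + N) q.2.1
  have hμ : μH[s] E ≤ liminf (fun N => ∑' q, Metric.ediam (V N q) ^ s) atTop := by
    obtain ⟨r, hr⟩ : ∃ r : ℕ → ℝ≥0∞, r = fun N => ⨆ i, ENNReal.ofReal (d (i + N)) := ⟨_, rfl⟩
    have : ∀ N, Countable (ι N) := fun N => inferInstance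
    apply Measure.hausdorffMeasure_le_liminf_tsum s E r _ V
    · refine Eventually.of_forall (fun N q => ?_)
      rw [hr]
      exact (hdiam _ _ q.2.2).trans (le_iSup (fun i => ENNReal.ofReal (d (i + N))) q.1)
    · refine Eventually.of_forall (fun N => ?_)
      intro θ hθ
      obtain ⟨i, ⟨p, hp, hθp⟩, hi⟩ := ((hcov θ hθ).and_eventually (eventually_ge_atTop N)).exists
      rw [Set.mem_iUnion]
      have hiN : i - N + N = i := by omega
      refine ⟨⟨i - N, ⟨p, by rw [hiN]; exact hp⟩⟩, ?_⟩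
      simp only [V, hiN]
      exact hθp
    · rw [hr, ENNReal.tendsto_atTop_zero]
      intro ε hε
      have h1 : Tendsto (fun n => ENNReal.ofReal (d n)) atTop (𝓝 0) := by
        rw [← ENNReal.ofReal_zero]
        exact ENNReal.tendsto_ofReal hdt
      rw [ENNReal.tendsto_atTop_zero] at h1
      obtain ⟨N1, hN1⟩ := h1 ε hε
      refine ⟨N1, fun N hN => ?_⟩
      apply iSup_le
      intro n
      exact hN1 _ (by omega)
  have hbound : ∀ N, ∑' q, Metric.ediam (V N q) ^ s ≤
      ∑' i, ENNReal.ofReal (((F (i + N)).card : ℝ) * d (i + N) ^ s) := by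
    intro N
    rw [ENNReal.tsum_sigma']
    apply ENNReal.tsum_le_tsum
    intro i
    rw [tsum_fintype]
    have h1 : ∀ p : {p : τ // p ∈ F (i + N)},
        Metric.ediam (V N ⟨i, p⟩) ^ s ≤ ENNReal.ofReal (d (i + N) ^ s) := by
      intro p
      rw [← ENNReal.ofReal_rpow_of_nonneg (hd _) hs]
      exact ENNReal.rpow_le_rpow (hdiam _ _ p.2) hs
    refine (Finset.sum_le_sum (fun p _ => h1 p)).trans (le_of_eq ?_)
    rw [sum_const, nsmul_eq_mul, ENNReal.ofReal_mul (Nat.cast_nonneg _), card_univ, Fintype.card_coe,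
      ENNReal.ofReal_natCast]
  have hlim : Tendsto (fun N => ∑' i, ENNReal.ofReal (((F (i + N)).card : ℝ) * d (i + N) ^ s)) atTop (𝓝 0) := by
    have h1 := tendsto_sum_nat_add (fun i => ((F i).card : ℝ) * d i ^ s)
    have h2 : ∀ N, ∑' i, ENNReal.ofReal (((F (i + N)).card : ℝ) * d (i + N) ^ s) =
        ENNReal.ofReal (∑' i, ((F (i + N)).card : ℝ) * d (i + N) ^ s) := by
      intro N
      rw [ENNReal.ofReal_tsum_of_nonneg]
      · intro n
        have := hd (n + N)
        positivity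
      · exact (summable_nat_add_iff N).2 hsum
    simp_rw [h2]
    rw [← ENNReal.ofReal_zero]
    exact ENNReal.tendsto_ofReal h1
  have hzero : μH[s] E = 0 := by
    refine le_antisymm ?_ bot_le
    refine hμ.trans ?_
    have h1 : liminf (fun N => ∑' q, Metric.ediam (V N q) ^ s) atTop ≤
        liminf (fun N => ∑' i, ENNReal.ofReal (((F (i + N)).card : ℝ) * d (i + N) ^ s)) atTop :=
      liminf_le_liminf (Eventually.of_forall hbound)
    rw [hlim.liminf_eq] at h1
    exact h1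
  exact dimH_le_of_hausdorffMeasure_ne_top (s := E) (d := s.toNNReal) (by
    rw [Real.coe_toNNReal s hs, hzero]; exact ENNReal.zero_ne_top)

end Pool.Agent.Q166.Ex
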