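import Pool.Agent.Q166.ExA

/-!
# Exceptional exponents: few starting points of free windows
-/

set_option autoImplicit false

namespace Pool.Agent.Q166.Ex

open Finset MeasureTheory Filter Topology Pool.Agent.Q120.ET Pool.Agent.Q120.MF Pool.Agent.Q120.AD Pool.Agent.Q166.Sq

/-- The exponents `θ > 1` for which `(n ^ θ, n ^ θ + c (log n) ^ 2]` is free of `S` for infinitely many `n`. -/
def Exc (S : Set ℕ) (c : ℝ) : Set ℝ :=
  {θ | 1 < θ ∧ ∃ᶠ n : ℕ in atTop, FreeAt S ((n : ℝ) ^ θ) (c * Real.log n ^ 2)}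

theorem exc_anti {S : Set ℕ} {c c' : ℝ} (h : c' ≤ c) : Exc S c ⊆ Exc S c' := by
  rintro θ ⟨h1, h2⟩
  exact ⟨h1, h2.mono (fun n hn => freeAt_mono (mul_le_mul_of_nonneg_right h (by positivity)) hn)⟩

open Classical in
/-- The starting points of free windows. -/
noncomputable def st (S : Set ℕ) (c v : ℝ) (N : ℕ) : Finset ℕ :=
  (Icc 2 ⌊(2 * (N : ℝ)) ^ v⌋₊).filter (fun m => ∀ k ∈ S, ¬ (m < k ∧ k ≤ m + hU c N))

theorem hU_le {c : ℝ} (hc : 0 ≤ c) (x : ℝ) : (hU c x : ℝ) ≤ c * Real.log x ^ 2 := by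
  unfold hU
  have h8 : ((⌊c * Real.log x ^ 2⌋₊ - 1 : ℕ) : ℝ) ≤ (⌊c * Real.log x ^ 2⌋₊ : ℝ) := by
    exact_mod_cast Nat.sub_le _ _
  exact h8.trans (Nat.floor_le (by positivity))

theorem le_hU (c x : ℝ) : c * Real.log x ^ 2 - 2 ≤ (hU c x : ℝ) := by
  unfold hU
  have h8 : (⌊c * Real.log x ^ 2⌋₊ : ℝ) ≤ ((⌊c * Real.log x ^ 2⌋₊ - 1 : ℕ) : ℝ) + 1 := by
    have : ⌊c * Real.log x ^ 2⌋₊ ≤ ⌊c * Real.log x ^ 2⌋₊ - 1 + 1 := by omega
    exact_mod_cast this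
  have h9 := Nat.lt_floor_add_one (c * Real.log x ^ 2)
  linarith

theorem mem_st {S : Set ℕ} {c v θ : ℝ} {N n : ℕ} (hc : 0 ≤ c) (hN : 2 ≤ N) (h1 : N ≤ n) (h2 : n < 2 * N)
    (hθ : 1 ≤ θ) (hv : θ ≤ v) (hf : FreeAt S ((n : ℝ) ^ θ) (c * Real.log n ^ 2)) :
    ⌊(n : ℝ) ^ θ⌋₊ ∈ st S c v N := by
  classical
  have hN2 : (2 : ℝ) ≤ N := by exact_mod_cast hN
  have hn : (N : ℝ) ≤ n := by exact_mod_cast h1
  have hn2 : (n : ℝ) ≤ 2 * N := by exact_mod_cast h2.le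
  unfold st
  rw [mem_filter, mem_Icc]
  refine ⟨⟨Nat.le_floor ?_, Nat.floor_le_floor ?_⟩, ?_⟩
  · push_cast
    calc (2 : ℝ) ≤ (n : ℝ) ^ (1 : ℝ) := by rw [Real.rpow_one]; linarith
      _ ≤ _ := Real.rpow_le_rpow_of_exponent_le (by linarith) hθ
  · calc (n : ℝ) ^ θ ≤ (2 * (N : ℝ)) ^ θ := Real.rpow_le_rpow (by linarith) hn2 (by linarith)
      _ ≤ _ := Real.rpow_le_rpow_of_exponent_le (by linarith) hv
  · rintro k hk ⟨h3, h4⟩
    apply hf k hk
    constructor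
    · exact (Nat.floor_lt (by positivity)).1 h3
    · have h5 : ((k : ℕ) : ℝ) ≤ ((⌊(n : ℝ) ^ θ⌋₊ + hU c N : ℕ) : ℝ) := by exact_mod_cast h4
      push_cast at h5
      have h6 : (⌊(n : ℝ) ^ θ⌋₊ : ℝ) ≤ (n : ℝ) ^ θ := Nat.floor_le (by positivity)
      have h7 := hU_le hc (N : ℝ)
      have h8 : c * Real.log N ^ 2 ≤ c * Real.log n ^ 2 := by
        apply mul_le_mul_of_nonneg_left _ hc
        exact pow_le_pow_left₀ (Real.log_nonneg (by linarith)) (Real.log_le_log (by linarith) hn) 2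
      linarith

variable {Ω : Type*} [MeasurableSpace Ω] {μ : Measure Ω} [IsProbabilityMeasure μ] {A : Ω → Set ℕ}

omit [IsProbabilityMeasure μ] in
theorem measurable_free (hA : IsCramer μ A) (W : Finset ℕ) :
    MeasurableSet {ω | Disjoint (tr A W ω) W} := by
  have h1 : {ω | Disjoint (tr A W ω) W} = ⋂ k ∈ W, {ω | k ∈ A ω}ᶜ := by
    ext ω
    simp only [Set.mem_ofPred_eq, Set.mem_iInter, Set.mem_compl_iff]
    rw [Finset.disjoint_left]
    constructor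
    · intro h k hk hkA
      exact h (mem_tr.2 ⟨hk, hkA⟩) hk
    · intro h k hk1 hk2
      exact h k hk2 (mem_tr.1 hk1).2
  rw [h1]
  exact Finset.measurableSet_biInter _ (fun k _ => (hA.random k).compl)

/-- the probability that a window below `(2 N) ^ v` is free -/
theorem prob_free_le (hA : IsCramer μ A) {c v : ℝ} (hc : 0 < c) (hv : 1 ≤ v) {N : ℕ} (hN : 8 ≤ N)
    (hs : c * Real.log N ^ 2 ≤ N) (hl : 1 ≤ Real.log N) {m : ℕ} (hm2 : 2 ≤ m) (hm : (m : ℝ) ≤ (2 * (N : ℝ)) ^ v) :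
    μ.real {ω | Disjoint (tr A (Ioc m (m + hU c N)) ω) (Ioc m (m + hU c N))} ≤
      Real.exp (c * (v + 1) / v ^ 2 + 2 / v) * (N : ℝ) ^ (-(c / v)) := by
  obtain ⟨L, hL⟩ : ∃ L : ℝ, L = Real.log N := ⟨_, rfl⟩
  have hN8 : (8 : ℝ) ≤ N := by exact_mod_cast hN
  have hN0 : (0 : ℝ) < N := by linarith
  have hv0 : 0 < v := by linarith
  rw [real_free hA (fun k hk => by have := (mem_Ioc.1 hk).1; omega)]
  have hUle := hU_le hc.le (N : ℝ)
  have hUge := le_hU c (N : ℝ)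
  rw [← hL] at hUle hUge hl hs
  have hNv : (N : ℝ) ≤ (2 * (N : ℝ)) ^ v := by
    calc (N : ℝ) ≤ (2 * (N : ℝ)) ^ (1 : ℝ) := by rw [Real.rpow_one]; linarith
      _ ≤ _ := Real.rpow_le_rpow_of_exponent_le (by linarith) hv
  have hz : ∀ k ∈ Ioc m (m + hU c N), (k : ℝ) ≤ 2 * (2 * (N : ℝ)) ^ v := by
    intro k hk
    have h1 : ((k : ℕ) : ℝ) ≤ ((m + hU c N : ℕ) : ℝ) := by exact_mod_cast (mem_Ioc.1 hk).2
    push_cast at h1
    linarith
  refine (prod_le_exp (fun k hk => by have := (mem_Ioc.1 hk).1; omega) hz).trans ?_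
  rw [Nat.card_Ioc, Nat.add_sub_cancel_left, Real.rpow_def_of_pos hN0, ← Real.exp_add]
  apply Real.exp_le_exp.2
  have hlog2 : 0 < Real.log 2 := Real.log_pos (by norm_num)
  have hlog2' : Real.log 2 ≤ 1 := by
    have := Real.log_two_lt_d9
    linarith
  have e1 : Real.log (2 * (2 * (N : ℝ)) ^ v) ≤ v * L + (v + 1) := by
    rw [Real.log_mul (by norm_num) (by positivity), Real.log_rpow (by positivity),
      Real.log_mul (by norm_num) hN0.ne', ← hL]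
    nlinarith
  have e2 : 0 < Real.log (2 * (2 * (N : ℝ)) ^ v) := Real.log_pos (by linarith)
  have e3 : (hU c N : ℝ) / (v * L + (v + 1)) ≤ (hU c N : ℝ) / Real.log (2 * (2 * (N : ℝ)) ^ v) :=
    div_le_div_of_nonneg_left (Nat.cast_nonneg _) e2 e1
  have hpos : 0 < v * L + (v + 1) := by nlinarith
  have e4 : c / v * L - (c * (v + 1) / v ^ 2 + 2 / v) ≤ (hU c N : ℝ) / (v * L + (v + 1)) := by
    rw [le_div_iff₀ hpos]
    refine le_trans ?_ hUge
    have e5 : (c / v * L - (c * (v + 1) / v ^ 2 + 2 / v)) * (v * L + (v + 1)) =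
        c * L ^ 2 - 2 * L - (c * (v + 1) / v ^ 2 + 2 / v) * (v + 1) := by
      field_simp
      ring
    rw [e5]
    have e6 : 0 ≤ (c * (v + 1) / v ^ 2 + 2 / v) * (v + 1) := by positivity
    linarith
  have e7 : L * -(c / v) = -(c / v * L) := by ring
  rw [← hL, e7]
  linarith

/-- **Few starting points of free windows.** -/
theorem few_st (hA : IsCramer μ A) {c v δ : ℝ} (hc : 0 < c) (hv : 1 ≤ v) (hδ : 0 < δ) :
    ∀ᵐ ω ∂μ, ∀ᶠ i : ℕ in atTop,
      ((st (A ω) c v (2 ^ i)).card : ℝ) < (((2 ^ i : ℕ) : ℝ)) ^ (v - c / v + δ) := by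
  classical
  obtain ⟨D, hD⟩ : ∃ D : ℝ, D = 2 ^ v * Real.exp (c * (v + 1) / v ^ 2 + 2 / v) := ⟨_, rfl⟩
  have hD0 : 0 < D := by rw [hD]; positivity
  have hsub : ∀ N : ℕ, {ω | (N : ℝ) ^ (v - c / v + δ) ≤ ((st (A ω) c v N).card : ℝ)} =
      {ω | (N : ℝ) ^ (v - c / v + δ) ≤ (((Icc 2 ⌊(2 * (N : ℝ)) ^ v⌋₊).filter (fun m => ω ∈
        {ω | Disjoint (tr A (Ioc m (m + hU c N)) ω) (Ioc m (m + hU c N))})).card : ℝ)} := by
    intro N
    ext ω
    simp only [Set.mem_ofPred_eq]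
    have h1 : st (A ω) c v N = (Icc 2 ⌊(2 * (N : ℝ)) ^ v⌋₊).filter (fun m =>
        Disjoint (tr A (Ioc m (m + hU c N)) ω) (Ioc m (m + hU c N))) := by
      unfold st
      apply filter_congr
      intro m _
      rw [Finset.disjoint_left]
      constructor
      · intro h n hn1 hn2
        rw [mem_tr] at hn1
        exact h n hn1.2 (mem_Ioc.1 hn1.1)
      · intro h n hn hcon
        exact h (mem_tr.2 ⟨mem_Ioc.2 hcon, hn⟩) (mem_Ioc.2 hcon)
    rw [h1]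
  have hsmall : ∀ᶠ N : ℕ in atTop, c * Real.log N ^ 2 ≤ N := by
    have h1 := (isLittleO_log_rpow_rpow_atTop (2 : ℝ) (show (0 : ℝ) < 1 by norm_num)).bound
      (show 0 < 1 / c by positivity)
    filter_upwards [tendsto_natCast_atTop_atTop.eventually h1, eventually_ge_atTop 1] with n hn hn1
    have hn1' : (1 : ℝ) ≤ n := by exact_mod_cast hn1
    have hl : 0 ≤ Real.log (n : ℝ) := Real.log_nonneg hn1'
    rw [Real.norm_of_nonneg (by positivity), Real.norm_of_nonneg (by positivity), Real.rpow_one] at hn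
    rw [show (2 : ℝ) = ((2 : ℕ) : ℝ) by norm_num, Real.rpow_natCast] at hn
    have := mul_le_mul_of_nonneg_left hn hc.le
    rwa [← mul_assoc, mul_one_div_cancel hc.ne', one_mul] at this
  have h3 := ae_all_grid (μ := μ) (τ := Unit) (fun _ => {()})
    (fun i _ => {ω | (((2 ^ i : ℕ) : ℝ)) ^ (v - c / v + δ) ≤ ((st (A ω) c v (2 ^ i)).card : ℝ)})
    (fun i => D * (((2 ^ i : ℕ) : ℝ)) ^ (-δ)) ((summable_two_pow hδ).mul_left D) (by
      filter_upwards [tendsto_two_pow.eventually (eventually_ge_atTop 8), tendsto_two_pow.eventually hsmall,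
        tendsto_two_pow.eventually (hl.eventually_ge_atTop 1)] with i hn8 hns hnl
      obtain ⟨N, hN⟩ : ∃ N : ℕ, N = 2 ^ i := ⟨_, rfl⟩
      rw [← hN] at hn8 hns hnl ⊢
      have hN8 : (8 : ℝ) ≤ N := by exact_mod_cast hn8
      have hN0 : (0 : ℝ) < N := by linarith
      rw [sum_singleton, hsub]
      refine (markov (μ := μ) (Icc 2 ⌊(2 * (N : ℝ)) ^ v⌋₊) (fun m =>
        {ω | Disjoint (tr A (Ioc m (m + hU c N)) ω) (Ioc m (m + hU c N))})
        (fun m _ => measurable_free hA _) (Real.rpow_pos_of_pos hN0 _)).trans ?_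
      have hp : ∀ m ∈ Icc 2 ⌊(2 * (N : ℝ)) ^ v⌋₊,
          μ.real {ω | Disjoint (tr A (Ioc m (m + hU c N)) ω) (Ioc m (m + hU c N))} ≤
          Real.exp (c * (v + 1) / v ^ 2 + 2 / v) * (N : ℝ) ^ (-(c / v)) := by
        intro m hm
        rw [mem_Icc] at hm
        refine prob_free_le hA hc hv hn8 hns hnl hm.1 ?_
        exact (Nat.le_floor_iff (by positivity)).1 hm.2
      have hcard : ((Icc 2 ⌊(2 * (N : ℝ)) ^ v⌋₊).card : ℝ) ≤ (2 * (N : ℝ)) ^ v := by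
        rw [Nat.card_Icc]
        have h2 : (⌊(2 * (N : ℝ)) ^ v⌋₊ : ℝ) ≤ (2 * (N : ℝ)) ^ v := Nat.floor_le (by positivity)
        refine le_trans ?_ h2
        have : ⌊(2 * (N : ℝ)) ^ v⌋₊ + 1 - 2 ≤ ⌊(2 * (N : ℝ)) ^ v⌋₊ := by omega
        exact_mod_cast this
      have hsum := sum_le_sum hp
      rw [sum_const, nsmul_eq_mul] at hsum
      rw [div_le_iff₀ (Real.rpow_pos_of_pos hN0 _)]
      refine hsum.trans ?_
      have h1 : D * (N : ℝ) ^ (-δ) * (N : ℝ) ^ (v - c / v + δ) =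
          (2 * (N : ℝ)) ^ v * (Real.exp (c * (v + 1) / v ^ 2 + 2 / v) * (N : ℝ) ^ (-(c / v))) := by
        have h2 : (N : ℝ) ^ (-δ) * (N : ℝ) ^ (v - c / v + δ) = (N : ℝ) ^ v * (N : ℝ) ^ (-(c / v)) := by
          rw [← Real.rpow_add hN0, ← Real.rpow_add hN0]
          congr 1; ring
        rw [hD, mul_assoc, h2, Real.mul_rpow (by norm_num) hN0.le]; ring
      rw [h1]
      exact mul_le_mul_of_nonneg_right hcard (by positivity))
  filter_upwards [h3] with ω hω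
  filter_upwards [hω] with i hi
  exact not_le.1 (hi () (mem_singleton_self _))

end Pool.Agent.Q166.Ex
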