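import Pool.Agent.Q166.ExB

/-!
# Exceptional exponents: the upper bounds
-/

set_option autoImplicit false

namespace Pool.Agent.Q166.Ex

open Finset MeasureTheory Filter Topology Pool.Agent.Q120.ET Pool.Agent.Q120.MF Pool.Agent.Q120.AD Pool.Agent.Q166.Sq
open scoped ENNReal NNReal

variable {S : Set ℕ}

/-- the dyadic block of `n` -/
theorem log_block {n : ℕ} (hn : 1 ≤ n) : 2 ^ Nat.log 2 n ≤ n ∧ n < 2 * 2 ^ Nat.log 2 n := by
  refine ⟨Nat.pow_log_le_self 2 (by omega), ?_⟩
  have := Nat.lt_pow_succ_log_self (show 1 < 2 by norm_num) n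
  rw [pow_succ] at this
  omega

theorem freq_blocks {θ c : ℝ} (h : ∃ᶠ n : ℕ in atTop, FreeAt S ((n : ℝ) ^ θ) (c * Real.log n ^ 2)) :
    ∃ᶠ i : ℕ in atTop, 2 ≤ 2 ^ i ∧ ∃ n : ℕ, 2 ^ i ≤ n ∧ n < 2 * 2 ^ i ∧ FreeAt S ((n : ℝ) ^ θ) (c * Real.log n ^ 2) := by
  have h1 := (h.and_eventually (eventually_ge_atTop 2)).mono (fun n hn =>
    show 2 ≤ 2 ^ Nat.log 2 n ∧ ∃ m : ℕ, 2 ^ Nat.log 2 n ≤ m ∧ m < 2 * 2 ^ Nat.log 2 n ∧
      FreeAt S ((m : ℝ) ^ θ) (c * Real.log m ^ 2) from by
    obtain ⟨e1, e2⟩ := log_block (show 1 ≤ n by omega)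
    refine ⟨?_, n, e1, e2, hn.1⟩
    have : 1 ≤ Nat.log 2 n := Nat.le_log_of_pow_le (by norm_num) (by simpa using hn.2)
    calc 2 = 2 ^ 1 := by norm_num
      _ ≤ _ := Nat.pow_le_pow_right (by norm_num) this)
  exact tendsto_log_two.frequently h1

/-- no exceptional exponent in a range without free windows -/
theorem exc_empty {c v t : ℝ} (hc : 0 ≤ c) (ht : t ≤ 0)
    (h : ∀ᶠ i : ℕ in atTop, ((st S c v (2 ^ i)).card : ℝ) < (((2 ^ i : ℕ) : ℝ)) ^ t) {θ : ℝ} (hθ : θ ≤ v) :
    θ ∉ Exc S c := by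
  rintro ⟨h1, h2⟩
  obtain ⟨i, ⟨hi1, n, hn1, hn2, hn3⟩, hi2⟩ := ((freq_blocks h2).and_eventually h).exists
  have hm := mem_st hc hi1 hn1 hn2 h1.le hθ hn3
  have h4 : (1 : ℝ) ≤ ((st S c v (2 ^ i)).card : ℝ) := by
    exact_mod_cast card_pos.2 ⟨_, hm⟩
  have h5 : (((2 ^ i : ℕ) : ℝ)) ^ t ≤ 1 := by
    apply Real.rpow_le_one_of_one_le_of_nonpos _ ht
    exact_mod_cast Nat.one_le_two_pow
  linarith

/-- **The covers.** -/
theorem dimH_exc_le {c u v t s : ℝ} (hc : 0 ≤ c) (hu : 1 ≤ u) (hs : 0 ≤ s) (hts : 1 + t < u * s)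
    (h : ∀ᶠ i : ℕ in atTop, ((st S c v (2 ^ i)).card : ℝ) < (((2 ^ i : ℕ) : ℝ)) ^ t) :
    dimH (Exc S c ∩ Set.Icc u v) ≤ ENNReal.ofReal s := by
  classical
  obtain ⟨i0, hi0⟩ := eventually_atTop.1 h
  obtain ⟨P, hP⟩ : ∃ P : ℕ → ℝ, P = fun i => (((2 ^ i : ℕ) : ℝ)) := ⟨_, rfl⟩
  have hPi : ∀ i, P i = (((2 ^ i : ℕ) : ℝ)) := fun i => by rw [hP]
  have hP1 : ∀ i, 1 ≤ P i := fun i => by
    rw [hPi]
    exact_mod_cast Nat.one_le_two_pow
  have hP0 : ∀ i, 0 < P i := fun i => by linarith [hP1 i]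
  have hPt : Tendsto P atTop atTop := by
    rw [hP]
    exact tendsto_natCast_atTop_atTop.comp tendsto_two_pow
  have hdt : Tendsto (fun i => 2 * P i ^ (-u)) atTop (𝓝 0) := by
    have := ((tendsto_rpow_neg_atTop (show 0 < u by linarith)).comp hPt).const_mul 2
    simpa using this
  apply dimH_limsup_le hs (fun i => if i < i0 then ∅ else (Ico ((2 : ℕ) ^ i) (2 * 2 ^ i)) ×ˢ st S c v (2 ^ i))
    (fun i (p : ℕ × ℕ) => Set.Icc (Real.log p.2 / Real.log p.1) (Real.log p.2 / Real.log p.1 + 2 * P i ^ (-u)))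
    (fun i => 2 * P i ^ (-u))
  · intro i
    have := hP0 i
    positivity
  · exact hdt
  · intro i p _
    rw [Real.ediam_Icc]
    exact le_of_eq (by congr 1; ring)
  · rintro θ ⟨⟨h1, h2⟩, h3, h4⟩
    have h5 : ∀ᶠ i : ℕ in atTop, 4 ≤ P i := hPt.eventually_ge_atTop 4
    refine ((freq_blocks h2).and_eventually (h5.and (eventually_ge_atTop i0))).mono ?_
    rintro i ⟨⟨hi1, n, hn1, hn2, hn3⟩, hP4, hii⟩
    have hm := mem_st hc hi1 hn1 hn2 h1.le h4 hn3
    refine ⟨(n, ⌊(n : ℝ) ^ θ⌋₊), ?_, ?_⟩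
    · simp only [show ¬ i < i0 by omega, if_false]
      rw [mem_product, mem_Ico]
      exact ⟨⟨hn1, hn2⟩, hm⟩
    · have hnP : P i ≤ n := by
        rw [hPi]
        exact_mod_cast hn1
      have hn0 : (0 : ℝ) < n := by linarith
      have hln : 1 ≤ Real.log (n : ℝ) := by
        rw [Real.le_log_iff_exp_le hn0]
        have := Real.exp_one_lt_d9
        linarith
      have hpow : P i ^ u ≤ (n : ℝ) ^ θ := by
        calc P i ^ u ≤ (n : ℝ) ^ u := Real.rpow_le_rpow (hP0 i).le hnP (by linarith)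
          _ ≤ _ := Real.rpow_le_rpow_of_exponent_le (by linarith) h3
      have hPu : P i ≤ P i ^ u := by
        calc P i = P i ^ (1 : ℝ) := (Real.rpow_one _).symm
          _ ≤ _ := Real.rpow_le_rpow_of_exponent_le (hP1 i) hu
      have hfl := Nat.lt_floor_add_one ((n : ℝ) ^ θ)
      have hfl2 := Nat.floor_le (show 0 ≤ (n : ℝ) ^ θ by positivity)
      obtain ⟨m, hmd⟩ : ∃ m : ℕ, m = ⌊(n : ℝ) ^ θ⌋₊ := ⟨_, rfl⟩
      rw [← hmd] at hfl hfl2 ⊢
      have hm0 : P i ^ u / 2 ≤ m := by linarith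
      have hm1 : (0 : ℝ) < m := by
        have : 0 < P i ^ u := by linarith
        linarith
      have hlog : Real.log ((n : ℝ) ^ θ) = θ * Real.log n := Real.log_rpow hn0 θ
      simp only [Set.mem_Icc]
      constructor
      · rw [div_le_iff₀ (by linarith), ← hlog]
        exact Real.log_le_log hm1 hfl2
      · have e1 : θ * Real.log n ≤ Real.log m + 1 / m := by
          rw [← hlog]
          have e2 : Real.log ((n : ℝ) ^ θ) ≤ Real.log (m * (1 + 1 / m)) := by
            apply Real.log_le_log (by positivity)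
            rw [mul_add, mul_one, mul_one_div_cancel hm1.ne']
            exact hfl.le
          rw [Real.log_mul hm1.ne' (by positivity)] at e2
          have e3 := Real.log_le_sub_one_of_pos (show 0 < 1 + 1 / (m : ℝ) by positivity)
          linarith
        have e4 : 1 / (m : ℝ) ≤ 2 * P i ^ (-u) := by
          rw [Real.rpow_neg (hP0 i).le, ← div_eq_mul_inv, div_le_div_iff₀ hm1 (by
            have := hP0 i
            positivity)]
          linarith
        have e5 : 0 ≤ 2 * P i ^ (-u) := by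
          have := hP0 i
          positivity
        have e6 : θ ≤ (Real.log m + 2 * P i ^ (-u)) / Real.log n := by
          rw [le_div_iff₀ (by linarith)]
          linarith
        refine e6.trans ?_
        rw [add_div]
        have e7 : 2 * P i ^ (-u) / Real.log n ≤ 2 * P i ^ (-u) := div_le_self e5 hln
        linarith
  · have hsum : Summable fun i : ℕ => 2 ^ s * P i ^ (-(u * s - (1 + t))) := by
      have := (summable_two_pow (show 0 < u * s - (1 + t) by linarith)).mul_left (2 ^ s)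
      simpa only [hP] using this
    refine Summable.of_nonneg_of_le (fun i => ?_) (fun i => ?_) hsum
    · have := hP0 i
      positivity
    · have hPi0 := hP0 i
      by_cases hi : i < i0
      · simp only [hi, if_true, card_empty, Nat.cast_zero, zero_mul]
        positivity
      · simp only [hi, if_false]
        have h1 := hi0 i (by omega)
        rw [← hPi] at h1
        rw [card_product, Nat.card_Ico]
        have e1 : ((2 * 2 ^ i - 2 ^ i : ℕ) : ℝ) = P i := by
          rw [hPi]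
          congr 1
          omega
        rw [Nat.cast_mul, e1, Real.mul_rpow (by norm_num) (by positivity), ← Real.rpow_mul hPi0.le]
        calc P i * ((st S c v (2 ^ i)).card : ℝ) * (2 ^ s * P i ^ (-u * s)) ≤
              P i * P i ^ t * (2 ^ s * P i ^ (-u * s)) := by
                apply mul_le_mul_of_nonneg_right _ (by positivity)
                exact mul_le_mul_of_nonneg_left h1.le hPi0.le
          _ = 2 ^ s * P i ^ (-(u * s - (1 + t))) := by
                have e2 : P i ^ (-(u * s - (1 + t))) = P i * P i ^ t * P i ^ (-u * s) := by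
                  nth_rewrite 2 [← Real.rpow_one (P i)]
                  rw [← Real.rpow_add hPi0, ← Real.rpow_add hPi0]
                  congr 1
                  ring
                rw [e2]
                ring

end Pool.Agent.Q166.Ex
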