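import Pool.Agent.Q166.ExC

/-!
# Exceptional exponents: free windows exist, uniformly in the exponent
-/

set_option autoImplicit false

namespace Pool.Agent.Q166.Ex

open Finset MeasureTheory Filter Topology Pool.Agent.Q120.ET Pool.Agent.Q120.MF Pool.Agent.Q120.AD Pool.Agent.Q166.Sq

/-- the length of the windows for the lower bound -/
noncomputable def HL (c : ℝ) (K : ℕ) : ℕ := ⌈c * Real.log (2 * K) ^ 2⌉₊ + 3

/-- the windows of `n` -/
noncomputable def WW (c w : ℝ) (K n t : ℕ) : Finset ℕ :=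
  Ioc (⌊(n : ℝ) ^ w⌋₊ + t * HL c K) (⌊(n : ℝ) ^ w⌋₊ + t * HL c K + HL c K)

theorem HL_le {c : ℝ} (hc : 0 ≤ c) (K : ℕ) : (HL c K : ℝ) ≤ c * Real.log (2 * K) ^ 2 + 4 := by
  unfold HL
  push_cast
  have := Nat.ceil_lt_add_one (show 0 ≤ c * Real.log (2 * K) ^ 2 by positivity)
  linarith

theorem le_HL (c : ℝ) (K : ℕ) : c * Real.log (2 * K) ^ 2 + 3 ≤ (HL c K : ℝ) := by
  unfold HL
  push_cast
  have := Nat.le_ceil (c * Real.log (2 * K) ^ 2)
  linarith

theorem ev_HL_asymp {c c' : ℝ} (hc : 0 < c) (h : c < c') :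
    ∀ᶠ K : ℕ in atTop, (HL c K : ℝ) ≤ c' * Real.log K ^ 2 := by
  have h1 : Tendsto (fun K : ℕ => c * (Real.log (2 * K) / Real.log K) ^ 2 + 4 / Real.log (K : ℝ) ^ 2) atTop
      (𝓝 (c * 1 ^ 2 + 0)) :=
    (((tendsto_log_mul (show (0 : ℝ) < 2 by norm_num)).pow 2).const_mul c).add (hl2.const_div_atTop 4)
  rw [one_pow, mul_one, add_zero] at h1
  filter_upwards [h1.eventually_le_const h, hl.eventually_ge_atTop 1] with K h2 h3
  refine (HL_le hc.le K).trans ?_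
  have h4 : 0 < Real.log (K : ℝ) ^ 2 := by positivity
  have h5 := mul_le_mul_of_nonneg_right h2 h4.le
  refine le_trans (le_of_eq ?_) h5
  field_simp

theorem ev_HL (c D ε : ℝ) (hc : 0 < c) (hε : 0 < ε) : ∀ᶠ K : ℕ in atTop, D * (HL c K + 1) ≤ (K : ℝ) ^ ε := by
  filter_upwards [ev_HL_asymp hc (show c < c + 1 by linarith), ev_pow (|D| * (c + 2)) ε hε,
    hl.eventually_ge_atTop 1] with K h1 h2 h3
  refine le_trans ?_ h2
  have h4 : Real.log (K : ℝ) ^ 2 ≤ Real.log (K : ℝ) ^ 3 := pow_le_pow_right₀ h3 (by norm_num)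
  have h5 : (1 : ℝ) ≤ Real.log (K : ℝ) ^ 2 := one_le_pow₀ h3
  calc D * ((HL c K : ℝ) + 1) ≤ |D| * ((HL c K : ℝ) + 1) :=
        mul_le_mul_of_nonneg_right (le_abs_self D) (by positivity)
    _ ≤ |D| * ((c + 2) * Real.log K ^ 3) := by
        apply mul_le_mul_of_nonneg_left _ (abs_nonneg D)
        nlinarith
    _ = _ := by ring

/-- the windows are free with at least this probability -/
theorem ev_prob {c u ε : ℝ} (hc : 0 < c) (hu : 0 < u) (hε : 0 < ε) :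
    ∀ᶠ K : ℕ in atTop, ∀ w, u ≤ w → ∀ n, K ≤ n → ∀ t,
      (K : ℝ) ^ (-(c / u + ε)) ≤ ∏ k ∈ WW c w K n t, (1 - 1 / Real.log (k : ℝ)) := by
  obtain ⟨δ, hδ⟩ : ∃ δ : ℝ, δ = u * ε / (3 * (c + 1 + u * ε)) := ⟨_, rfl⟩
  have hδ0 : 0 < δ := by rw [hδ]; positivity
  have hδ1 : (1 + δ) * (c + u * ε / 3) ≤ c + u * ε := by
    have e1 : δ * (3 * (c + 1 + u * ε)) = u * ε := by
      rw [hδ]
      field_simp
    have e2 : 0 < u * ε := by positivity
    nlinarith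
  filter_upwards [ev_HL_asymp hc (show c < c + u * ε / 3 by
      have : 0 < u * ε := by positivity
      linarith), hl.eventually_ge_atTop ((1 + δ) / (δ * u)), hl.eventually_ge_atTop 1,
    eventually_ge_atTop 1] with K h1 h2 h3 h4 w hw n hn t
  have hK : (0 : ℝ) < K := by exact_mod_cast h4
  have hK1 : (1 : ℝ) ≤ K := by exact_mod_cast h4
  have hKn : (K : ℝ) ≤ n := by exact_mod_cast hn
  obtain ⟨L, hL⟩ : ∃ L : ℝ, L = Real.log K := ⟨_, rfl⟩
  rw [← hL] at h1 h2 h3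
  have hL0 : 0 < L := by linarith
  have hlog : Real.log ((K : ℝ) ^ u) = u * L := by rw [Real.log_rpow hK, ← hL]
  have hW : ∀ k ∈ WW c w K n t, (K : ℝ) ^ u ≤ k := by
    intro k hk
    unfold WW at hk
    rw [mem_Ioc] at hk
    have e1 : ⌊(n : ℝ) ^ w⌋₊ < k := by omega
    rw [Nat.floor_lt (by positivity)] at e1
    calc (K : ℝ) ^ u ≤ (n : ℝ) ^ u := Real.rpow_le_rpow hK.le hKn hu.le
      _ ≤ (n : ℝ) ^ w := Real.rpow_le_rpow_of_exponent_le (by linarith) hw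
      _ ≤ k := e1.le
  have h5 : 1 + δ ≤ δ * (u * L) := by
    rw [div_le_iff₀ (by positivity)] at h2
    linarith
  refine le_trans ?_ (exp_le_prod (δ := δ) (by rw [hlog]; positivity) (by positivity) hW hδ0 (by rw [hlog]; exact h5))
  rw [Real.rpow_def_of_pos hK, Real.exp_le_exp, hlog, ← hL]
  have hcard : (WW c w K n t).card = HL c K := by
    unfold WW
    rw [Nat.card_Ioc, Nat.add_sub_cancel_left]
  rw [hcard]
  have h6 : (1 + δ) * (HL c K : ℝ) / (u * L) ≤ L * (c / u + ε) := by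
    rw [div_le_iff₀ (by positivity)]
    have e1 : L * (c / u + ε) * (u * L) = (c + u * ε) * L ^ 2 := by
      field_simp
    rw [e1]
    calc (1 + δ) * (HL c K : ℝ) ≤ (1 + δ) * ((c + u * ε / 3) * L ^ 2) :=
          mul_le_mul_of_nonneg_left h1 (by linarith)
      _ = (1 + δ) * (c + u * ε / 3) * L ^ 2 := by ring
      _ ≤ _ := mul_le_mul_of_nonneg_right hδ1 (by positivity)
  have e7 : L * -(c / u + ε) = -(L * (c / u + ε)) := by ring
  rw [e7]
  linarith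

/-- the windows of different `n` are far apart -/
theorem ev_gap {c u g ε : ℝ} (hc : 0 < c) (hu : 1 < u) (hg : 0 ≤ g) (hε : 0 < ε) (h2 : g + ε ≤ u - 1) :
    ∀ᶠ K : ℕ in atTop, ∀ w, u ≤ w → ∀ n n', K ≤ n → n < n' →
      ⌊(n : ℝ) ^ w⌋₊ + ⌈(K : ℝ) ^ g⌉₊ * HL c K ≤ ⌊(n' : ℝ) ^ w⌋₊ := by
  filter_upwards [ev_HL c 2 ε hc hε, eventually_ge_atTop 1] with K h1 h4 w hw n n' hn hn'
  have hK : (0 : ℝ) < K := by exact_mod_cast h4
  have hK1 : (1 : ℝ) ≤ K := by exact_mod_cast h4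
  have hKn : (K : ℝ) ≤ n := by exact_mod_cast hn
  have hnn : (n : ℝ) + 1 ≤ n' := by exact_mod_cast hn'
  have hKg : 1 ≤ (K : ℝ) ^ g := Real.one_le_rpow hK1 hg
  have e1 : (⌈(K : ℝ) ^ g⌉₊ : ℝ) ≤ 2 * (K : ℝ) ^ g := by
    have := Nat.ceil_lt_add_one (show 0 ≤ (K : ℝ) ^ g by positivity)
    linarith
  have e2 : (⌈(K : ℝ) ^ g⌉₊ : ℝ) * HL c K + 1 ≤ (K : ℝ) ^ (u - 1) := by
    calc (⌈(K : ℝ) ^ g⌉₊ : ℝ) * HL c K + 1 ≤ 2 * (K : ℝ) ^ g * HL c K + (K : ℝ) ^ g * 2 := by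
          have := mul_le_mul_of_nonneg_right e1 (Nat.cast_nonneg (α := ℝ) (HL c K))
          linarith
      _ = (K : ℝ) ^ g * (2 * (HL c K + 1)) := by ring
      _ ≤ (K : ℝ) ^ g * (K : ℝ) ^ ε := mul_le_mul_of_nonneg_left h1 (by positivity)
      _ = (K : ℝ) ^ (g + ε) := (Real.rpow_add hK _ _).symm
      _ ≤ _ := Real.rpow_le_rpow_of_exponent_le hK1 h2
  have e3 := (rpow_diff (m := (n : ℝ)) (q := 1) (by linarith) zero_le_one (show 1 ≤ w by linarith)).1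
  have e4 : (K : ℝ) ^ (u - 1) ≤ w * 1 * (n : ℝ) ^ (w - 1) := by
    calc (K : ℝ) ^ (u - 1) ≤ (n : ℝ) ^ (u - 1) := Real.rpow_le_rpow hK.le hKn (by linarith)
      _ ≤ (n : ℝ) ^ (w - 1) := Real.rpow_le_rpow_of_exponent_le (by linarith) (by linarith)
      _ ≤ w * 1 * (n : ℝ) ^ (w - 1) := by
          have : 0 ≤ (n : ℝ) ^ (w - 1) := by positivity
          nlinarith
  have e5 : ((n : ℝ) + 1) ^ w ≤ (n' : ℝ) ^ w := Real.rpow_le_rpow (by linarith) hnn (by linarith)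
  apply Nat.le_floor
  push_cast
  have e6 := Nat.floor_le (show 0 ≤ (n : ℝ) ^ w by positivity)
  linarith

variable {Ω : Type*} [MeasurableSpace Ω] {μ : Measure Ω} [IsProbabilityMeasure μ] {A : Ω → Set ℕ}

/-- **Independence**: there are free windows. -/
theorem none_window (hA : IsCramer μ A) {c u g ρ ε : ℝ} (hc : 0 < c) (hu : 1 < u) (hg : 0 ≤ g)
    (hε : 0 < ε) (h1 : c / u + 2 * ε ≤ ρ + g) (h2 : g + ε ≤ u - 1) :
    ∀ᶠ K : ℕ in atTop, ∀ w, u ≤ w → ∀ I : Finset ℕ, I ⊆ Ico K (2 * K) → (K : ℝ) ^ ρ ≤ I.card →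
      μ.real {ω | ∀ p ∈ I ×ˢ range ⌈(K : ℝ) ^ g⌉₊,
        ¬ Disjoint (tr A (WW c w K p.1 p.2) ω) (WW c w K p.1 p.2)} ≤ Real.exp (-((K : ℝ) ^ ε)) := by
  classical
  filter_upwards [ev_prob hc (show 0 < u by linarith) hε, ev_gap hc hu hg hε h2, eventually_ge_atTop 3]
    with K h3 h4 h5 w hw I hI hcard
  have hK3 : (3 : ℝ) ≤ K := by exact_mod_cast h5
  have hK : (0 : ℝ) < K := by linarith
  have hmem : ∀ p ∈ I ×ˢ range ⌈(K : ℝ) ^ g⌉₊, K ≤ p.1 ∧ p.2 < ⌈(K : ℝ) ^ g⌉₊ := by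
    intro p hp
    rw [mem_product, mem_range] at hp
    exact ⟨(mem_Ico.1 (hI hp.1)).1, hp.2⟩
  have h6 := none_le hA (I ×ˢ range ⌈(K : ℝ) ^ g⌉₊) (fun p => WW c w K p.1 p.2)
    (by
      intro p hp k hk
      have e1 := (hmem p hp).1
      unfold WW at hk
      rw [mem_Ioc] at hk
      have e2 : ⌊(p.1 : ℝ) ^ w⌋₊ < k := by omega
      rw [Nat.floor_lt (by positivity)] at e2
      have e3 : (K : ℝ) ≤ p.1 := by exact_mod_cast e1
      have e4 : (p.1 : ℝ) ≤ (p.1 : ℝ) ^ w := by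
        calc (p.1 : ℝ) = (p.1 : ℝ) ^ (1 : ℝ) := (Real.rpow_one _).symm
          _ ≤ _ := Real.rpow_le_rpow_of_exponent_le (by linarith) (by linarith)
      have e5 : (3 : ℝ) ≤ k := by linarith
      exact_mod_cast e5)
    (by
      intro p hp q hq hpq
      have e1 := hmem p hp
      have e2 := hmem q hq
      have key : ∀ p q : ℕ × ℕ, K ≤ p.1 → p.2 < ⌈(K : ℝ) ^ g⌉₊ → p.1 < q.1 →
          Disjoint (WW c w K p.1 p.2) (WW c w K q.1 q.2) := by
        intro p q a1 a2 a3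
        have e3 := h4 w hw p.1 q.1 a1 a3
        have e4 : (p.2 + 1) * HL c K ≤ ⌈(K : ℝ) ^ g⌉₊ * HL c K := Nat.mul_le_mul_right _ a2
        rw [Finset.disjoint_left]
        intro k hk hk'
        unfold WW at hk hk'
        rw [mem_Ioc] at hk hk'
        rw [add_mul, one_mul] at e4
        omega
      have key2 : ∀ p q : ℕ × ℕ, p.1 = q.1 → p.2 < q.2 →
          Disjoint (WW c w K p.1 p.2) (WW c w K q.1 q.2) := by
        intro p q a1 a2
        have e4 : (p.2 + 1) * HL c K ≤ q.2 * HL c K := Nat.mul_le_mul_right _ a2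
        rw [Finset.disjoint_left]
        intro k hk hk'
        unfold WW at hk hk'
        rw [mem_Ioc] at hk hk'
        rw [add_mul, one_mul] at e4
        rw [a1] at hk
        omega
      rcases lt_trichotomy p.1 q.1 with h | h | h
      · exact key p q e1.1 e1.2 h
      · rcases lt_trichotomy p.2 q.2 with h' | h' | h'
        · exact key2 p q h h'
        · exact absurd (Prod.ext h h') hpq
        · exact (key2 q p h.symm h').symm
      · exact (key q p e2.1 e2.2 h).symm)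
    (fun p T => Disjoint T (WW c w K p.1 p.2)) (p := (K : ℝ) ^ (-(c / u + ε))) (by
      intro p hp
      rw [sum_free (Subset.refl _)]
      exact h3 w hw p.1 (hmem p hp).1 p.2)
  refine h6.trans (Real.exp_le_exp.2 (neg_le_neg ?_))
  rw [card_product, card_range]
  push_cast
  calc (K : ℝ) ^ ε ≤ (K : ℝ) ^ (ρ + g + -(c / u + ε)) :=
        Real.rpow_le_rpow_of_exponent_le (by linarith) (by linarith)
    _ = (K : ℝ) ^ ρ * (K : ℝ) ^ g * (K : ℝ) ^ (-(c / u + ε)) := by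
        rw [Real.rpow_add hK, Real.rpow_add hK]
    _ ≤ (I.card : ℝ) * (⌈(K : ℝ) ^ g⌉₊ : ℝ) * (K : ℝ) ^ (-(c / u + ε)) := by
        apply mul_le_mul_of_nonneg_right _ (by positivity)
        exact mul_le_mul hcard (Nat.le_ceil _) (by positivity) (Nat.cast_nonneg _)

/-- **Union over a grid of exponents and a family of polynomial size.** -/
theorem ae_tg {a b s : ℝ} (hab : a ≤ b) (B E : ℕ) (hs : 0 < s) (Bad : ℕ → ℕ → ℕ → Set Ω)
    (h : ∀ᶠ K : ℕ in atTop, ∀ j, tg a B K j ≤ b → ∀ e, e < K ^ E → μ.real (Bad K j e) ≤ Real.exp (-((K : ℝ) ^ s))) :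
    ∀ᵐ ω ∂μ, ∀ᶠ i : ℕ in atTop, ∀ j, tg a B (2 ^ i) j ≤ b → ∀ e, e < (2 ^ i) ^ E → ω ∉ Bad (2 ^ i) j e := by
  classical
  have h2 := tendsto_two_pow.eventually (ev_exp (b - a + 2) (B + E + 1) s 1 hs one_pos)
  have h3 := ae_all_grid (μ := μ) (τ := ℕ × ℕ) (fun i => ((range (⌊(b - a) * ((2 ^ i : ℕ) : ℝ) ^ B⌋₊ + 1)).filter
      fun j => tg a B (2 ^ i) j ≤ b) ×ˢ range ((2 ^ i) ^ E))
    (fun i j => Bad (2 ^ i) j.1 j.2)
    (fun i => (((2 ^ i : ℕ) : ℝ)) ^ (-(1 : ℝ))) (summable_two_pow (by positivity)) (by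
      filter_upwards [h2, tendsto_two_pow.eventually h,
        tendsto_two_pow.eventually (eventually_ge_atTop 1)] with i h2 h3 h4
      obtain ⟨K, hK⟩ : ∃ K : ℕ, K = 2 ^ i := ⟨_, rfl⟩
      rw [← hK] at h2 h3 h4 ⊢
      have hK0 : (0 : ℝ) < K := by exact_mod_cast h4
      have hKK : (1 : ℝ) ≤ K := by exact_mod_cast h4
      have hbound : ∀ j ∈ ((range (⌊(b - a) * (K : ℝ) ^ B⌋₊ + 1)).filter fun j => tg a B K j ≤ b) ×ˢ
          range (K ^ E), μ.real (Bad K j.1 j.2) ≤ Real.exp (-(1 * (K : ℝ) ^ s)) := by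
        intro j hj
        rw [mem_product, mem_filter, mem_range, mem_range] at hj
        rw [one_mul]
        exact h3 j.1 hj.1.2 j.2 hj.2
      refine (sum_le_sum hbound).trans ?_
      rw [sum_const, nsmul_eq_mul, card_product, card_range]
      have e1 : (((range (⌊(b - a) * (K : ℝ) ^ B⌋₊ + 1)).filter fun j => tg a B K j ≤ b).card : ℝ) ≤
          (b - a + 2) * (K : ℝ) ^ ((B : ℝ)) := by
        have e11 : (((range (⌊(b - a) * (K : ℝ) ^ B⌋₊ + 1)).filter fun j => tg a B K j ≤ b).card : ℝ) ≤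
            ((⌊(b - a) * (K : ℝ) ^ B⌋₊ + 1 : ℕ) : ℝ) := by
          have := card_filter_le (range (⌊(b - a) * (K : ℝ) ^ B⌋₊ + 1)) (fun j => tg a B K j ≤ b)
          rw [card_range] at this
          exact_mod_cast this
        refine e11.trans ?_
        push_cast
        have e12 : 0 ≤ (b - a) * (K : ℝ) ^ B := mul_nonneg (by linarith) (by positivity)
        have e13 := Nat.floor_le e12
        have e14 : (1 : ℝ) ≤ (K : ℝ) ^ B := one_le_pow₀ hKK
        rw [Real.rpow_natCast]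
        nlinarith
      have e2 : (K : ℝ) ^ ((B : ℝ)) * (K : ℝ) ^ ((E : ℝ)) =
          (K : ℝ) ^ ((B : ℝ) + E + 1) * (K : ℝ) ^ (-(1 : ℝ)) := by
        rw [← Real.rpow_add hK0, ← Real.rpow_add hK0]
        congr 1
        ring
      push_cast
      calc _ ≤ (b - a + 2) * (K : ℝ) ^ ((B : ℝ)) * (K : ℝ) ^ ((E : ℝ)) * Real.exp (-(1 * (K : ℝ) ^ s)) := by
            apply mul_le_mul_of_nonneg_right _ (Real.exp_pos _).le
            rw [Real.rpow_natCast (K : ℝ) E]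
            exact mul_le_mul_of_nonneg_right e1 (by positivity)
        _ = ((b - a + 2) * (K : ℝ) ^ ((B : ℝ) + E + 1) * Real.exp (-(1 * (K : ℝ) ^ s))) *
              (K : ℝ) ^ (-(1 : ℝ)) := by
            rw [mul_assoc (b - a + 2) _ ((K : ℝ) ^ (E : ℝ)), e2]
            ring
        _ ≤ 1 * (K : ℝ) ^ (-(1 : ℝ)) := mul_le_mul_of_nonneg_right h2 (by positivity)
        _ = _ := one_mul _)
  filter_upwards [h3] with ω hω
  filter_upwards [hω, tendsto_two_pow.eventually (eventually_ge_atTop 1)] with i hi hK j hj e he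
  obtain ⟨K, hKe⟩ : ∃ K : ℕ, K = 2 ^ i := ⟨_, rfl⟩
  rw [← hKe] at hi hj hK he ⊢
  have hK0 : (0 : ℝ) < K := by exact_mod_cast hK
  have hmem : j ∈ (range (⌊(b - a) * (K : ℝ) ^ B⌋₊ + 1)).filter fun j => tg a B K j ≤ b := by
    rw [mem_filter, mem_range, Nat.lt_succ_iff]
    refine ⟨Nat.le_floor ?_, hj⟩
    unfold tg at hj
    have h5 : (j : ℝ) / (K : ℝ) ^ B ≤ b - a := by linarith
    rwa [div_le_iff₀ (by positivity)] at h5
  exact hi (j, e) (mem_product.2 ⟨hmem, mem_range.2 he⟩)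

end Pool.Agent.Q166.Ex
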