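import Pool.Agent.Q166.ExD

/-!
# Exceptional exponents: the almost sure statements on the grid
-/

set_option autoImplicit false

namespace Pool.Agent.Q166.Ex

open Finset MeasureTheory Filter Topology Pool.Agent.Q120.ET Pool.Agent.Q120.MF Pool.Agent.Q120.AD Pool.Agent.Q166.Sq

variable {Ω : Type*} [MeasurableSpace Ω] {μ : Measure Ω} [IsProbabilityMeasure μ] {A : Ω → Set ℕ}

theorem disjoint_tr_iff {W : Finset ℕ} {ω : Ω} : Disjoint (tr A W ω) W ↔ ∀ k ∈ A ω, k ∉ W := by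
  rw [Finset.disjoint_left]
  constructor
  · intro h k hk hkW
    exact h (mem_tr.2 ⟨hkW, hk⟩) hkW
  · intro h k hk hkW
    exact h k (mem_tr.1 hk).2 hkW

/-- **Hits**, for all the exponents of the grid. -/
theorem hits_ae (hA : IsCramer μ A) {c u v g ε : ℝ} (hc : 0 < c) (hu : 1 < u) (huv : u ≤ v) (hg : 0 ≤ g)
    (hε : 0 < ε) (h1 : c / u + 2 * ε ≤ 1 + g) (h2 : g + ε ≤ u - 1) (B : ℕ) :
    ∀ᵐ ω ∂μ, ∀ᶠ i : ℕ in atTop, ∀ j, tg u B (2 ^ i) j ≤ v → ∃ n t, 2 ^ i ≤ n ∧ n < 2 * 2 ^ i ∧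
      t < ⌈((2 ^ i : ℕ) : ℝ) ^ g⌉₊ ∧ ∀ k ∈ A ω, k ∉ WW c (tg u B (2 ^ i) j) (2 ^ i) n t := by
  have h3 := ae_tg (μ := μ) huv B 0 hε (fun K j _ => {ω | ∀ p ∈ Ico K (2 * K) ×ˢ range ⌈(K : ℝ) ^ g⌉₊,
        ¬ Disjoint (tr A (WW c (tg u B K j) K p.1 p.2) ω) (WW c (tg u B K j) K p.1 p.2)}) (by
    filter_upwards [none_window hA (ρ := 1) hc hu hg hε h1 h2] with K h j _ e _
    refine h _ ?_ _ (Subset.refl _) ?_
    · unfold tg
      have : (0 : ℝ) ≤ j / (K : ℝ) ^ B := by positivity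
      linarith
    · rw [Nat.card_Ico, Real.rpow_one]
      have : K ≤ 2 * K - K := by omega
      exact_mod_cast this)
  filter_upwards [h3] with ω hω
  filter_upwards [hω] with i hi j hj
  have h4 := hi j hj 0 (by positivity)
  have h5 : ¬ ∀ p ∈ Ico (2 ^ i) (2 * 2 ^ i) ×ˢ range ⌈((2 ^ i : ℕ) : ℝ) ^ g⌉₊,
        ¬ Disjoint (tr A (WW c (tg u B (2 ^ i) j) (2 ^ i) p.1 p.2) ω)
          (WW c (tg u B (2 ^ i) j) (2 ^ i) p.1 p.2) := h4
  push Not at h5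
  obtain ⟨p, hp, hp'⟩ := h5
  rw [mem_product, mem_Ico, mem_range] at hp
  exact ⟨p.1, p.2, hp.1.1, hp.1.2, hp.2, disjoint_tr_iff.1 hp'⟩

/-- **Many free windows**, for all the exponents of the grid. -/
theorem many_ae (hA : IsCramer μ A) {c u v ρ ε : ℝ} (hc : 0 < c) (hu : 1 < u) (huv : u ≤ v)
    (hε : 0 < ε) (h1 : c / u + 2 * ε ≤ ρ) (h2 : ε ≤ u - 1) (B : ℕ) :
    ∀ᵐ ω ∂μ, ∀ᶠ i : ℕ in atTop, ∀ j, tg u B (2 ^ i) j ≤ v → ∀ e < 2 ^ i,
      (e + 1) * ⌈((2 ^ i : ℕ) : ℝ) ^ ρ⌉₊ ≤ 2 ^ i → ∃ n, 2 ^ i + e * ⌈((2 ^ i : ℕ) : ℝ) ^ ρ⌉₊ ≤ n ∧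
        n < 2 ^ i + (e + 1) * ⌈((2 ^ i : ℕ) : ℝ) ^ ρ⌉₊ ∧
        ∀ k ∈ A ω, k ∉ WW c (tg u B (2 ^ i) j) (2 ^ i) n 0 := by
  have h3 := ae_tg (μ := μ) huv B 1 hε (fun K j e => {ω | (e + 1) * ⌈(K : ℝ) ^ ρ⌉₊ ≤ K ∧
        ∀ p ∈ Ico (K + e * ⌈(K : ℝ) ^ ρ⌉₊) (K + (e + 1) * ⌈(K : ℝ) ^ ρ⌉₊) ×ˢ range ⌈(K : ℝ) ^ (0 : ℝ)⌉₊,
        ¬ Disjoint (tr A (WW c (tg u B K j) K p.1 p.2) ω) (WW c (tg u B K j) K p.1 p.2)}) (by
    filter_upwards [none_window hA (ρ := ρ) (g := 0) hc hu le_rfl hε (by linarith) (by linarith)]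
      with K h j _ e _
    by_cases hK : (e + 1) * ⌈(K : ℝ) ^ ρ⌉₊ ≤ K
    · refine le_trans (measureReal_mono (fun ω hω => hω.2)) (h (tg u B K j) ?_
        (Ico (K + e * ⌈(K : ℝ) ^ ρ⌉₊) (K + (e + 1) * ⌈(K : ℝ) ^ ρ⌉₊)) ?_ ?_)
      · unfold tg
        have : (0 : ℝ) ≤ j / (K : ℝ) ^ B := by positivity
        linarith
      · exact Ico_subset_Ico (by omega) (by omega)
      · rw [Nat.card_Ico]
        have : K + (e + 1) * ⌈(K : ℝ) ^ ρ⌉₊ - (K + e * ⌈(K : ℝ) ^ ρ⌉₊) = ⌈(K : ℝ) ^ ρ⌉₊ := by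
          rw [add_mul, one_mul]
          omega
        rw [this]
        exact Nat.le_ceil _
    · have : {ω | (e + 1) * ⌈(K : ℝ) ^ ρ⌉₊ ≤ K ∧
        ∀ p ∈ Ico (K + e * ⌈(K : ℝ) ^ ρ⌉₊) (K + (e + 1) * ⌈(K : ℝ) ^ ρ⌉₊) ×ˢ range ⌈(K : ℝ) ^ (0 : ℝ)⌉₊,
        ¬ Disjoint (tr A (WW c (tg u B K j) K p.1 p.2) ω) (WW c (tg u B K j) K p.1 p.2)} = ∅ := by
        rw [Set.eq_empty_iff_forall_notMem]
        intro ω hω
        exact hK hω.1
      rw [this, measureReal_empty]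
      positivity)
  filter_upwards [h3] with ω hω
  filter_upwards [hω] with i hi j hj e he hK
  have h4 := hi j hj e (by rw [pow_one]; exact he)
  have h5 : ¬ ((e + 1) * ⌈((2 ^ i : ℕ) : ℝ) ^ ρ⌉₊ ≤ 2 ^ i ∧
      ∀ p ∈ Ico (2 ^ i + e * ⌈((2 ^ i : ℕ) : ℝ) ^ ρ⌉₊) (2 ^ i + (e + 1) * ⌈((2 ^ i : ℕ) : ℝ) ^ ρ⌉₊) ×ˢ
        range ⌈((2 ^ i : ℕ) : ℝ) ^ (0 : ℝ)⌉₊,
        ¬ Disjoint (tr A (WW c (tg u B (2 ^ i) j) (2 ^ i) p.1 p.2) ω)
          (WW c (tg u B (2 ^ i) j) (2 ^ i) p.1 p.2)) := h4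
  rw [not_and] at h5
  have h6 := h5 hK
  push Not at h6
  obtain ⟨p, hp, hp'⟩ := h6
  rw [mem_product, mem_Ico, mem_range, Real.rpow_zero, Nat.ceil_one] at hp
  have hp0 : p.2 = 0 := by omega
  rw [hp0] at hp'
  exact ⟨p.1, hp.1.1, hp.1.2, disjoint_tr_iff.1 hp'⟩

/-- the windows for the upper bound -/
noncomputable def WU (c w : ℝ) (K n : ℕ) : Finset ℕ :=
  Ioc (⌊(n : ℝ) ^ w⌋₊ + 1) (⌊(n : ℝ) ^ w⌋₊ + 1 + hU c K)

/-- the probability that `r` of the windows are free -/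
theorem prob_many (hA : IsCramer μ A) {ι : Type*} [DecidableEq ι] (I : Finset ι) (W : ι → Finset ℕ)
    (hW3 : ∀ i ∈ I, ∀ n ∈ W i, 3 ≤ n) (hd : ∀ i ∈ I, ∀ j ∈ I, i ≠ j → Disjoint (W i) (W j))
    {p : ℝ} (hp0 : 0 ≤ p) (hp : ∀ i ∈ I, ∏ n ∈ W i, (1 - 1 / Real.log (n : ℝ)) ≤ p) {r : ℕ} (hr : 1 ≤ r)
    (hrp : Real.exp 2 * (I.card * p) ≤ r) :
    μ.real {ω | ∃ J ⊆ I, J.card = r ∧ ∀ i ∈ J, Disjoint (tr A (W i) ω) (W i)} ≤ Real.exp (-(r : ℝ)) := by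
  classical
  have h1 : {ω | ∃ J ⊆ I, J.card = r ∧ ∀ i ∈ J, Disjoint (tr A (W i) ω) (W i)} ⊆
      ⋃ J ∈ I.powersetCard r, {ω | ∀ i ∈ J, Disjoint (tr A (W i) ω) (W i)} := by
    rintro ω ⟨J, hJ, hJr, h⟩
    exact Set.mem_biUnion (mem_powersetCard.2 ⟨hJ, hJr⟩) h
  refine (measureReal_mono h1 (measure_ne_top μ _)).trans ((measureReal_biUnion_finset_le _ _).trans ?_)
  have h2 : ∀ J ∈ I.powersetCard r, μ.real {ω | ∀ i ∈ J, Disjoint (tr A (W i) ω) (W i)} ≤ p ^ r := by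
    intro J hJ
    rw [mem_powersetCard] at hJ
    rw [real_all hA J W (fun i hi => hW3 i (hJ.1 hi)) (fun i hi j hj => hd i (hJ.1 hi) j (hJ.1 hj))
      (fun i T => Disjoint T (W i)), ← hJ.2, ← prod_const]
    refine prod_le_prod (fun i hi => sum_nonneg fun T hT => ?_) (fun i hi => ?_)
    · exact cramerOn_nonneg (hW3 i (hJ.1 hi)) (mem_powerset.1 (mem_filter.1 hT).1)
    · rw [sum_free (Subset.refl _)]
      exact hp i (hJ.1 hi)
  refine (sum_le_sum h2).trans ?_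
  rw [sum_const, nsmul_eq_mul, card_powersetCard]
  have hr0 : (0 : ℝ) < r := by exact_mod_cast hr
  have h3 : ((I.card.choose r : ℕ) : ℝ) ≤ (I.card : ℝ) ^ r / (r.factorial : ℝ) := Nat.choose_le_pow_div r I.card
  have h4 : (r : ℝ) ^ r / (r.factorial : ℝ) ≤ Real.exp r := Real.pow_div_factorial_le_exp (r : ℝ) hr0.le r
  have hf : (0 : ℝ) < r.factorial := by exact_mod_cast r.factorial_pos
  calc ((I.card.choose r : ℕ) : ℝ) * p ^ r ≤ (I.card : ℝ) ^ r / (r.factorial : ℝ) * p ^ r :=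
        mul_le_mul_of_nonneg_right h3 (by positivity)
    _ = (I.card * p) ^ r / (r.factorial : ℝ) := by rw [mul_pow]; ring
    _ ≤ (Real.exp (-2) * r) ^ r / (r.factorial : ℝ) := by
        apply div_le_div_of_nonneg_right _ hf.le
        apply pow_le_pow_left₀ (by positivity)
        rw [Real.exp_neg, ← div_eq_inv_mul, le_div_iff₀ (Real.exp_pos _), mul_comm]
        exact hrp
    _ = Real.exp (-2) ^ r * ((r : ℝ) ^ r / (r.factorial : ℝ)) := by rw [mul_pow]; ring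
    _ ≤ Real.exp (-2) ^ r * Real.exp r := mul_le_mul_of_nonneg_left h4 (by positivity)
    _ = Real.exp (-(r : ℝ)) := by
        rw [← Real.exp_nat_mul, ← Real.exp_add]
        congr 1
        ring

/-- **Few free windows**, for all the exponents of the grid. -/
theorem few_ae (hA : IsCramer μ A) {c u v σ : ℝ} (hc : 0 < c) (hu : 1 < u) (huv : u ≤ v)
    (hσ : 0 < σ) (hσ1 : 1 - c / v < σ) (B : ℕ) :
    ∀ᵐ ω ∂μ, ∀ᶠ i : ℕ in atTop, ∀ j, tg u B (2 ^ i) j ≤ v → ∀ J ⊆ Ico (2 ^ i) (2 * 2 ^ i),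
      (∀ n ∈ J, ∀ k ∈ A ω, k ∉ WU c (tg u B (2 ^ i) j) (2 ^ i) n) → J.card < ⌈((2 ^ i : ℕ) : ℝ) ^ σ⌉₊ := by
  classical
  obtain ⟨D, hD⟩ : ∃ D : ℝ, D = Real.exp (c * (v + 1) / v ^ 2 + 2 / v) := ⟨_, rfl⟩
  have hD0 : 0 < D := by rw [hD]; positivity
  have hsmall : ∀ᶠ N : ℕ in atTop, c * Real.log N ^ 2 ≤ N := by
    filter_upwards [ev_pow c 1 one_pos, hl.eventually_ge_atTop 1] with N h1 h2
    rw [Real.rpow_one] at h1
    refine le_trans ?_ h1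
    exact mul_le_mul_of_nonneg_left (pow_le_pow_right₀ h2 (by norm_num)) hc.le
  have hbig : ∀ᶠ K : ℕ in atTop, Real.exp 2 * D ≤ (K : ℝ) ^ (σ - (1 - c / v)) :=
    ((tendsto_rpow_atTop (by linarith)).comp tendsto_natCast_atTop_atTop).eventually_ge_atTop _
  have hgap := ev_gap (c := c) (u := u) (g := 0) (ε := u - 1) hc hu le_rfl (by linarith) (by linarith)
  have h3 := ae_tg (μ := μ) huv B 0 hσ (fun K j _ => {ω | ∃ J ⊆ Ico K (2 * K), J.card = ⌈(K : ℝ) ^ σ⌉₊ ∧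
      ∀ n ∈ J, Disjoint (tr A (WU c (tg u B K j) K n) ω) (WU c (tg u B K j) K n)}) (by
    filter_upwards [hsmall, hbig, hgap, hl.eventually_ge_atTop 1, eventually_ge_atTop 8]
      with K h1 h2 h4 h5 h6 j hj e _
    have hK8 : (8 : ℝ) ≤ K := by exact_mod_cast h6
    have hK : (0 : ℝ) < K := by linarith
    have hw : u ≤ tg u B K j := by
      unfold tg
      have : (0 : ℝ) ≤ j / (K : ℝ) ^ B := by positivity
      linarith
    obtain ⟨w, hwd⟩ : ∃ w : ℝ, w = tg u B K j := ⟨_, rfl⟩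
    rw [← hwd] at hj hw ⊢
    have hpowK : (1 : ℝ) ≤ (K : ℝ) ^ σ := Real.one_le_rpow (by linarith) hσ.le
    have hnn : ∀ n ∈ Ico K (2 * K), (n : ℝ) ≤ (n : ℝ) ^ w := by
      intro n hn
      rw [mem_Ico] at hn
      have e1 : (K : ℝ) ≤ n := by exact_mod_cast hn.1
      calc (n : ℝ) = (n : ℝ) ^ (1 : ℝ) := (Real.rpow_one _).symm
        _ ≤ _ := Real.rpow_le_rpow_of_exponent_le (by linarith) (by linarith)
    refine (prob_many hA (Ico K (2 * K)) (fun n => WU c w K n) ?_ ?_ (p := D * (K : ℝ) ^ (-(c / v)))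
      (by positivity) ?_ (r := ⌈(K : ℝ) ^ σ⌉₊) ?_ ?_).trans ?_
    · intro n hn k hk
      have e1 := hnn n hn
      rw [mem_Ico] at hn
      unfold WU at hk
      rw [mem_Ioc] at hk
      have e3 : (K : ℝ) ≤ n := by exact_mod_cast hn.1
      have e4 : 3 ≤ ⌊(n : ℝ) ^ w⌋₊ := Nat.le_floor (by push_cast; linarith)
      omega
    · intro n hn n' hn' hne
      have hHU : hU c K + 1 ≤ HL c K := by
        have e1 := hU_le hc.le (K : ℝ)
        have e2 := le_HL c K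
        have e3 : Real.log (K : ℝ) ^ 2 ≤ Real.log (2 * K) ^ 2 :=
          pow_le_pow_left₀ (by linarith) (Real.log_le_log hK (by linarith)) 2
        have e4 : (hU c K : ℝ) + 1 ≤ (HL c K : ℝ) := by
          have := mul_le_mul_of_nonneg_left e3 hc.le
          linarith
        exact_mod_cast e4
      have key : ∀ n n' : ℕ, K ≤ n → n < n' → Disjoint (WU c w K n) (WU c w K n') := by
        intro n n' a1 a2
        have e3 := h4 w hw n n' a1 a2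
        rw [Real.rpow_zero, Nat.ceil_one, one_mul] at e3
        rw [Finset.disjoint_left]
        intro k hk hk'
        unfold WU at hk hk'
        rw [mem_Ioc] at hk hk'
        omega
      rw [mem_Ico] at hn hn'
      rcases Nat.lt_or_gt_of_ne hne with h | h
      · exact key n n' hn.1 h
      · exact (key n' n hn'.1 h).symm
    · intro n hn
      have e1 := hnn n hn
      rw [mem_Ico] at hn
      have e3 : (K : ℝ) ≤ n := by exact_mod_cast hn.1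
      have e4 : (n : ℝ) + 1 ≤ 2 * K := by exact_mod_cast hn.2
      have e5 := prob_free_le hA (v := v) hc (by linarith) h6 h1 h5 (m := ⌊(n : ℝ) ^ w⌋₊ + 1) (by
          have : 1 ≤ ⌊(n : ℝ) ^ w⌋₊ := Nat.le_floor (by push_cast; linarith)
          omega) (by
          push_cast
          have e6 := Nat.floor_le (show 0 ≤ (n : ℝ) ^ w by positivity)
          have e7 := (rpow_diff (m := (n : ℝ)) (q := 1) (by linarith) zero_le_one (show 1 ≤ w by linarith)).1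
          have e8 : 1 ≤ (n : ℝ) ^ (w - 1) := Real.one_le_rpow (by linarith) (by linarith)
          have e9 : ((n : ℝ) + 1) ^ w ≤ (2 * (K : ℝ)) ^ w := Real.rpow_le_rpow (by linarith) e4 (by linarith)
          have e10 : (2 * (K : ℝ)) ^ w ≤ (2 * (K : ℝ)) ^ v :=
            Real.rpow_le_rpow_of_exponent_le (by linarith) hj
          nlinarith)
      rw [real_free hA (fun k hk => by
        have := (mem_Ioc.1 hk).1
        have : 3 ≤ ⌊(n : ℝ) ^ w⌋₊ := Nat.le_floor (by push_cast; linarith)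
        omega)] at e5
      rw [hD]
      exact e5
    · exact Nat.one_le_ceil_iff.2 (by linarith)
    · rw [Nat.card_Ico]
      have e1 : ((2 * K - K : ℕ) : ℝ) = K := by
        congr 1
        omega
      rw [e1]
      refine le_trans ?_ (Nat.le_ceil _)
      calc Real.exp 2 * ((K : ℝ) * (D * (K : ℝ) ^ (-(c / v)))) =
            Real.exp 2 * D * (K : ℝ) ^ (1 - c / v) := by
              have : (K : ℝ) ^ (1 - c / v) = K * (K : ℝ) ^ (-(c / v)) := by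
                nth_rewrite 2 [← Real.rpow_one (K : ℝ)]
                rw [← Real.rpow_add hK]
                congr 1
              rw [this]
              ring
        _ ≤ (K : ℝ) ^ (σ - (1 - c / v)) * (K : ℝ) ^ (1 - c / v) :=
              mul_le_mul_of_nonneg_right h2 (by positivity)
        _ = (K : ℝ) ^ σ := by
              rw [← Real.rpow_add hK]
              congr 1
              ring
    · exact Real.exp_le_exp.2 (neg_le_neg (Nat.le_ceil _)))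
  filter_upwards [h3] with ω hω
  filter_upwards [hω] with i hi j hj J hJ hJf
  by_contra hcon
  push Not at hcon
  obtain ⟨J', hJ', hJc⟩ := exists_subset_card_eq hcon
  refine hi j hj 0 (by positivity) ⟨J', hJ'.trans hJ, hJc, fun n hn => ?_⟩
  exact disjoint_tr_iff.2 (hJf n (hJ' hn))

end Pool.Agent.Q166.Ex
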