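import Pool.Agent.Q166.ExE

/-!
# Exceptional exponents: dimension from hits
-/

set_option autoImplicit false

namespace Pool.Agent.Q166.Ex

open Finset MeasureTheory Filter Topology
open scoped ENNReal NNReal

/-- The lower bound for the dimension along a rapidly increasing sequence of scales. -/
theorem le_dimH_of_scales {a b p β ε : ℝ} (hab : a < b) (hp : 0 < p) (hβ : ε < β)
    (hβp : β - ε ≤ p) (y : ℕ → ℝ) (hy1 : ∀ k, 1 ≤ y k) (hy0 : 16 ≤ (b - a) * y 0 ^ ε)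
    (hys : ∀ k, 16 * y k ^ p ≤ y (k + 1) ^ ε) (hyt : Tendsto y atTop atTop) (E : ℕ → Set ℝ)
    (hE : ∀ k w, a ≤ w → w + 3 * y k ^ (-β) ≤ b → ∃ w', w ≤ w' ∧ w' + y k ^ (-p) ≤ w + 3 * y k ^ (-β) ∧
      Set.Icc w' (w' + y k ^ (-p)) ⊆ E k) :
    ENNReal.ofReal ((β - ε) / p) ≤ dimH {θ : ℝ | a ≤ θ ∧ θ ≤ b ∧ ∀ k, θ ∈ E k} := by
  have hypos : ∀ k, 0 < y k := fun k => by linarith [hy1 k]
  obtain ⟨ℓ, hℓ⟩ : ∃ ℓ : ℕ → ℝ, ℓ = fun k => Nat.casesOn k (b - a) (fun k => y k ^ (-p)) := ⟨_, rfl⟩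
  have hℓ0 : ℓ 0 = b - a := by rw [hℓ]; rfl
  have hℓs : ∀ k, ℓ (k + 1) = y k ^ (-p) := fun k => by rw [hℓ]
  have hℓpos : ∀ k, 0 < ℓ k := by
    intro k
    rcases k with _ | k
    · rw [hℓ0]; linarith
    · rw [hℓs]; have := hypos k; positivity
  obtain ⟨Δ, hΔ⟩ : ∃ Δ : ℕ → ℝ, Δ = fun k => 3 * y k ^ (-β) := ⟨_, rfl⟩
  have hΔk : ∀ k, Δ k = 3 * y k ^ (-β) := fun k => by rw [hΔ]
  have hΔpos : ∀ k, 0 < Δ k := fun k => by
    rw [hΔk]; have := hypos k; positivity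
  obtain ⟨t, ht⟩ : ∃ t : ℕ → ℝ, t = fun k => ℓ k / (2 * Δ k) := ⟨_, rfl⟩
  have htk : ∀ k, t k = ℓ k / (2 * Δ k) := fun k => by rw [ht]
  obtain ⟨T, hT⟩ : ∃ T : ℕ → ℕ, T = fun k => ⌊t k⌋₊ := ⟨_, rfl⟩
  have hTk : ∀ k, T k = ⌊t k⌋₊ := fun k => by rw [hT]
  obtain ⟨s, hs⟩ : ∃ s : ℝ, s = (β - ε) / p := ⟨_, rfl⟩
  have hs0 : 0 < s := by rw [hs]; exact div_pos (by linarith) hp
  have hs1 : s ≤ 1 := by rw [hs, div_le_one hp]; exact hβp
  have hsp : s * p = β - ε := by rw [hs]; field_simp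
  have hkey : ∀ k, 2 * y k ^ (β - ε) ≤ t k := by
    intro k
    have hyk := hypos k
    have h1 : 16 * y k ^ (-ε) ≤ ℓ k := by
      rcases k with _ | k
      · rw [hℓ0, Real.rpow_neg (hypos 0).le]
        rw [← div_eq_mul_inv, div_le_iff₀ (Real.rpow_pos_of_pos (hypos 0) _)]
        exact hy0
      · rw [hℓs, Real.rpow_neg (hypos (k + 1)).le, Real.rpow_neg (hypos k).le, ← div_eq_mul_inv,
          inv_eq_one_div, div_le_div_iff₀ (Real.rpow_pos_of_pos (hypos (k + 1)) _)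
          (Real.rpow_pos_of_pos (hypos k) _)]
        have := hys k
        linarith
    rw [htk, hΔk, le_div_iff₀ (by positivity)]
    have h2 : 2 * y k ^ (β - ε) * (2 * (3 * y k ^ (-β))) = 12 * y k ^ (-ε) := by
      have h3 : y k ^ (β - ε) * y k ^ (-β) = y k ^ (-ε) := by
        rw [← Real.rpow_add hyk]; congr 1; ring
      calc _ = 12 * (y k ^ (β - ε) * y k ^ (-β)) := by ring
        _ = _ := by rw [h3]
    rw [h2]
    have : 0 ≤ y k ^ (-ε) := by positivity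
    linarith
  have hone : ∀ k, 1 ≤ y k ^ (β - ε) := fun k => Real.one_le_rpow (hy1 k) (by linarith)
  have ht1 : ∀ k, 2 ≤ t k := fun k => by linarith [hkey k, hone k]
  have hThalf : ∀ k, t k / 2 ≤ T k := by
    intro k
    have h1 := Nat.lt_floor_add_one (t k)
    rw [hTk]
    linarith [ht1 k]
  have hTle : ∀ k, (T k : ℝ) ≤ t k := fun k => by rw [hTk]; exact Nat.floor_le (by linarith [ht1 k])
  have hTone : ∀ k, (1 : ℝ) ≤ T k := fun k => by linarith [hThalf k, ht1 k]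
  have hres := Q273.CG.le_dimH_all (a := a) (b := b) (c := min 1 ((b - a) ^ s)) (s := s.toNNReal)
    (by rw [Real.toNNReal_pos]; exact hs0) (by rw [Real.coe_toNNReal _ hs0.le]; exact hs1)
    (lt_min one_pos (by
      have : 0 < b - a := by linarith
      positivity))
    ℓ Δ T E hℓpos
    (by
      rw [← tendsto_add_atTop_iff_nat 1]
      simp_rw [hℓs]
      exact (tendsto_rpow_neg_atTop hp).comp hyt)
    (by rw [hℓ0]) hΔpos
    (by
      intro k
      have h1 := hTle k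
      rw [htk, le_div_iff₀ (by have := hΔpos k; positivity)] at h1
      linarith)
    (by
      intro k
      have h1 := hThalf k
      rw [htk] at h1
      have h2 := hΔpos k
      have h3 : ℓ k / (2 * Δ k) / 2 = ℓ k / (4 * Δ k) := by field_simp; norm_num
      rw [h3, div_le_iff₀ (by positivity)] at h1
      have h4 := hℓpos k
      have h5 := hTone k
      nlinarith)
    (by
      intro k
      rw [Real.coe_toNNReal _ hs0.le]
      rcases k with _ | k
      · rw [hℓ0, range_zero, prod_empty]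
        have hba : 0 < b - a := by linarith
        calc min 1 ((b - a) ^ s) * (b - a) ^ (-s) ≤ (b - a) ^ s * (b - a) ^ (-s) :=
              mul_le_mul_of_nonneg_right (min_le_right _ _) (by positivity)
          _ = 1 := by rw [← Real.rpow_add hba, add_neg_cancel, Real.rpow_zero]
      · rw [hℓs, prod_range_succ]
        have h1 : (1 : ℝ) ≤ ∏ i ∈ range k, (T i : ℝ) := by
          have := Finset.prod_le_prod (s := range k) (f := fun _ => (1 : ℝ)) (g := fun i => (T i : ℝ))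
            (fun _ _ => zero_le_one) (fun i _ => hTone i)
          simpa using this
        have h2 : (y k ^ (-p)) ^ (-s) = y k ^ (β - ε) := by
          rw [← Real.rpow_mul (hypos k).le]
          congr 1
          rw [neg_mul_neg, mul_comm]
          exact hsp
        rw [h2]
        have h3 : y k ^ (β - ε) ≤ T k := by linarith [hkey k, hThalf k]
        have h4 := hTone k
        have h5 : min 1 ((b - a) ^ s) * y k ^ (β - ε) ≤ 1 * y k ^ (β - ε) :=
          mul_le_mul_of_nonneg_right (min_le_left _ _) (by linarith [hone k])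
        nlinarith)
    (by
      intro k w hw1 hw2
      rw [hΔk] at hw2 ⊢
      rw [hℓs]
      exact hE k w hw1 hw2)
  rw [← hs]
  exact le_trans le_rfl hres

/-- a rapidly increasing subsequence of the powers of two -/
theorem exists_scales {p ε r : ℝ} (hε : 0 < ε) (hr : 0 < r) (i0 : ℕ) :
    ∃ φ : ℕ → ℕ, StrictMono φ ∧ (∀ k, i0 ≤ φ k) ∧ 16 ≤ r * (((2 ^ φ 0 : ℕ) : ℝ)) ^ ε ∧
      ∀ k, 16 * (((2 ^ φ k : ℕ) : ℝ)) ^ p ≤ (((2 ^ φ (k + 1) : ℕ) : ℝ)) ^ ε := by
  have hPt : Tendsto (fun i : ℕ => (((2 ^ i : ℕ) : ℝ)) ^ ε) atTop atTop :=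
    (tendsto_rpow_atTop hε).comp (tendsto_natCast_atTop_atTop.comp Sq.tendsto_two_pow)
  have h1 : ∀ (N : ℕ) (R : ℝ), ∃ n, N < n ∧ R ≤ (((2 ^ n : ℕ) : ℝ)) ^ ε := by
    intro N R
    obtain ⟨n, hn1, hn2⟩ := ((eventually_gt_atTop N).and (hPt.eventually_ge_atTop R)).exists
    exact ⟨n, hn1, hn2⟩
  choose g hg1 hg2 using h1
  obtain ⟨φ, hφ⟩ : ∃ φ : ℕ → ℕ, φ = fun k => Nat.rec (g i0 (16 / r))
    (fun _ n => g n (16 * (((2 ^ n : ℕ) : ℝ)) ^ p)) k := ⟨_, rfl⟩
  have hφ0 : φ 0 = g i0 (16 / r) := by rw [hφ]; rfl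
  have hφs : ∀ k, φ (k + 1) = g (φ k) (16 * (((2 ^ φ k : ℕ) : ℝ)) ^ p) := fun k => by rw [hφ]
  have hmono : StrictMono φ := strictMono_nat_of_lt_succ (fun k => by rw [hφs]; exact hg1 _ _)
  refine ⟨φ, hmono, ?_, ?_, ?_⟩
  · intro k
    have h2 : i0 < φ 0 := by rw [hφ0]; exact hg1 _ _
    have := hmono.monotone (Nat.zero_le k)
    omega
  · have h2 := hg2 i0 (16 / r)
    rw [← hφ0, div_le_iff₀ hr] at h2
    linarith
  · intro k
    rw [hφs]; exact hg2 _ _

end Pool.Agent.Q166.Ex
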