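import Pool.Agent.Q166.ExF

/-!
# Exceptional exponents: from free windows to exponents
-/

set_option autoImplicit false

namespace Pool.Agent.Q166.Ex

open Finset MeasureTheory Filter Topology Pool.Agent.Q120.ET Pool.Agent.Q120.MF Pool.Agent.Q120.AD Pool.Agent.Q166.Sq
open scoped ENNReal NNReal

variable {S : Set ℕ}

/-- the exponents with a free window in the block of `K` -/
def FS (S : Set ℕ) (c : ℝ) (K : ℕ) : Set ℝ :=
  {θ | ∃ n : ℕ, K ≤ n ∧ n < 2 * K ∧ FreeAt S ((n : ℝ) ^ θ) (c * Real.log n ^ 2)}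

theorem free_of_Ioc {c θ : ℝ} (hc : 0 ≤ c) {K n m : ℕ} (hn1 : 1 ≤ n) (hn : n < 2 * K)
    (h1 : (m : ℝ) ≤ (n : ℝ) ^ θ) (h2 : (n : ℝ) ^ θ ≤ m + 2) (hf : ∀ k ∈ S, k ∉ Ioc m (m + HL c K)) :
    FreeAt S ((n : ℝ) ^ θ) (c * Real.log n ^ 2) := by
  intro k hk hcon
  apply hf k hk
  rw [mem_Ioc]
  have hn0 : (1 : ℝ) ≤ n := by exact_mod_cast hn1
  have hn2 : (n : ℝ) ≤ 2 * K := by exact_mod_cast hn.le
  constructor
  · have : (m : ℝ) < k := by linarith [hcon.1]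
    exact_mod_cast this
  · have e1 : Real.log (n : ℝ) ^ 2 ≤ Real.log (2 * K) ^ 2 :=
      pow_le_pow_left₀ (Real.log_nonneg hn0) (Real.log_le_log (by linarith) hn2) 2
    have e2 := mul_le_mul_of_nonneg_left e1 hc
    have e3 := le_HL c K
    have : (k : ℝ) ≤ ((m + HL c K : ℕ) : ℝ) := by
      push_cast
      linarith [hcon.2]
    exact_mod_cast this

/-- the grid is fine -/
theorem exists_tg_ge {u : ℝ} {B K : ℕ} (hK : 1 ≤ K) {w : ℝ} (hw : u ≤ w) :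
    ∃ j, w ≤ tg u B K j ∧ tg u B K j ≤ w + 1 / (K : ℝ) ^ B := by
  have hK0 : (0 : ℝ) < K := by exact_mod_cast hK
  have hKB : (0 : ℝ) < (K : ℝ) ^ B := by positivity
  refine ⟨⌈(w - u) * (K : ℝ) ^ B⌉₊, ?_, ?_⟩
  · unfold tg
    have h1 := Nat.le_ceil ((w - u) * (K : ℝ) ^ B)
    have h2 : w - u ≤ (⌈(w - u) * (K : ℝ) ^ B⌉₊ : ℝ) / (K : ℝ) ^ B := by
      rw [le_div_iff₀ hKB]
      exact h1
    linarith
  · unfold tg
    have h1 := Nat.ceil_lt_add_one (show 0 ≤ (w - u) * (K : ℝ) ^ B from mul_nonneg (by linarith) hKB.le)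
    have h2 : (⌈(w - u) * (K : ℝ) ^ B⌉₊ : ℝ) / (K : ℝ) ^ B ≤ w - u + 1 / (K : ℝ) ^ B := by
      rw [div_le_iff₀ hKB, add_mul, one_div_mul_cancel hKB.ne']
      exact h1.le
    linarith

theorem exists_tg_le {u : ℝ} {B K : ℕ} (hK : 1 ≤ K) {w : ℝ} (hw : u ≤ w) :
    ∃ j, tg u B K j ≤ w ∧ w ≤ tg u B K j + 1 / (K : ℝ) ^ B := by
  have hK0 : (0 : ℝ) < K := by exact_mod_cast hK
  have hKB : (0 : ℝ) < (K : ℝ) ^ B := by positivity
  have h0 : 0 ≤ (w - u) * (K : ℝ) ^ B := mul_nonneg (by linarith) hKB.le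
  refine ⟨⌊(w - u) * (K : ℝ) ^ B⌋₊, ?_, ?_⟩
  · unfold tg
    have h1 := Nat.floor_le h0
    have h2 : (⌊(w - u) * (K : ℝ) ^ B⌋₊ : ℝ) / (K : ℝ) ^ B ≤ w - u := by
      rw [div_le_iff₀ hKB]
      exact h1
    linarith
  · unfold tg
    have h1 := Nat.lt_floor_add_one ((w - u) * (K : ℝ) ^ B)
    have h2 : w - u ≤ (⌊(w - u) * (K : ℝ) ^ B⌋₊ : ℝ) / (K : ℝ) ^ B + 1 / (K : ℝ) ^ B := by
      rw [← add_div, le_div_iff₀ hKB]
      exact h1.le
    linarith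

theorem hit_step {c u v g ε : ℝ} (hc : 0 < c) (hu : 1 < u) (hg : 0 ≤ g) (hε : 0 < ε)
    (h2 : g + ε ≤ u - 1) {B : ℕ} (hB : v ≤ B) :
    ∀ᶠ K : ℕ in atTop, (∀ j, tg u B K j ≤ v → ∃ n t, K ≤ n ∧ n < 2 * K ∧
      t < ⌈(K : ℝ) ^ g⌉₊ ∧ ∀ k ∈ S, k ∉ WW c (tg u B K j) K n t) →
      ∀ w, u ≤ w → w + 3 * (K : ℝ) ^ (-(u - g - ε)) ≤ v → ∃ w', w ≤ w' ∧
        w' + (K : ℝ) ^ (-(v + ε)) ≤ w + 3 * (K : ℝ) ^ (-(u - g - ε)) ∧
        Set.Icc w' (w' + (K : ℝ) ^ (-(v + ε))) ⊆ FS S c K := by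
  filter_upwards [ev_HL c 1 ε hc hε, ev_pow ((2 ^ v + 3) * 2) ε hε, hl.eventually_ge_atTop 1,
    eventually_ge_atTop 3] with K h3 h4 h5 h6 hits w hw1 hw2
  have hK3 : (3 : ℝ) ≤ K := by exact_mod_cast h6
  have hK : (0 : ℝ) < K := by linarith
  have hKβ : 0 < (K : ℝ) ^ (-(u - g - ε)) := by positivity
  have hKB : 1 / (K : ℝ) ^ B ≤ (K : ℝ) ^ (-(u - g - ε)) := by
    rw [one_div, ← Real.rpow_natCast, ← Real.rpow_neg hK.le]
    exact Real.rpow_le_rpow_of_exponent_le (by linarith) (by linarith)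
  have hKp : (K : ℝ) ^ (-(v + ε)) ≤ (K : ℝ) ^ (-(u - g - ε)) :=
    Real.rpow_le_rpow_of_exponent_le (by linarith) (by linarith)
  obtain ⟨j, hj1, hj2⟩ := exists_tg_ge (B := B) (show 1 ≤ K by omega) hw1
  obtain ⟨n, t, hn1, hn2, ht, hf⟩ := hits j (by linarith)
  obtain ⟨x, hx⟩ : ∃ x : ℝ, x = tg u B K j := ⟨_, rfl⟩
  rw [← hx] at hj1 hj2 hf
  obtain ⟨m, hm⟩ : ∃ m : ℕ, m = ⌊(n : ℝ) ^ x⌋₊ + t * HL c K := ⟨_, rfl⟩
  have hf' : ∀ k ∈ S, k ∉ Ioc m (m + HL c K) := by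
    rw [hm]
    exact hf
  have hKn : (K : ℝ) ≤ n := by exact_mod_cast hn1
  have hn2K : (n : ℝ) ≤ 2 * K := by exact_mod_cast hn2.le
  have hn0 : (0 : ℝ) < n := by linarith
  have hln : 1 ≤ Real.log (n : ℝ) := h5.trans (Real.log_le_log hK hKn)
  have hln2 : Real.log (n : ℝ) ≤ 2 * Real.log K := by
    have e1 : Real.log (n : ℝ) ≤ Real.log (2 * K) := Real.log_le_log hn0 hn2K
    have e2 : Real.log (2 * (K : ℝ)) = Real.log 2 + Real.log K := Real.log_mul (by norm_num) hK.ne'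
    have e3 : Real.log 2 ≤ 1 := by
      have := Real.log_two_lt_d9
      linarith
    linarith
  have hnx0 : 0 < (n : ℝ) ^ x := by positivity
  have hmr : (m : ℝ) = (⌊(n : ℝ) ^ x⌋₊ : ℝ) + t * HL c K := by
    rw [hm]
    push_cast
    ring
  have hm1 : (n : ℝ) ^ x < m + 1 := by
    have e1 := Nat.lt_floor_add_one ((n : ℝ) ^ x)
    have e2 : 0 ≤ (t : ℝ) * HL c K := by positivity
    linarith
  have hfl := Nat.floor_le hnx0.le
  have ht' : (t : ℝ) ≤ (K : ℝ) ^ g := (Nat.lt_ceil.1 ht).le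
  have hKg : 1 ≤ (K : ℝ) ^ g := Real.one_le_rpow (by linarith) hg
  have htH : (t : ℝ) * HL c K + 1 ≤ (K : ℝ) ^ (g + ε) := by
    calc (t : ℝ) * HL c K + 1 ≤ (K : ℝ) ^ g * HL c K + (K : ℝ) ^ g := by
          have := mul_le_mul_of_nonneg_right ht' (Nat.cast_nonneg (α := ℝ) (HL c K))
          linarith
      _ = (K : ℝ) ^ g * (1 * (HL c K + 1)) := by ring
      _ ≤ (K : ℝ) ^ g * (K : ℝ) ^ ε := mul_le_mul_of_nonneg_left h3 (by positivity)
      _ = (K : ℝ) ^ (g + ε) := (Real.rpow_add hK _ _).symm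
  have hm0 : (0 : ℝ) ≤ m := Nat.cast_nonneg m
  obtain ⟨θ0, hθ0⟩ : ∃ θ0 : ℝ, θ0 = Real.log (m + 1) / Real.log n := ⟨_, rfl⟩
  have hθl : θ0 * Real.log n = Real.log (m + 1) := by
    rw [hθ0]
    field_simp
  have hxθ : x ≤ θ0 := by
    rw [hθ0, le_div_iff₀ (by linarith), ← Real.log_rpow hn0]
    exact Real.log_le_log hnx0 hm1.le
  have hux : u ≤ x := by linarith
  have hxv : x ≤ v := by linarith
  have hθx : θ0 ≤ x + (K : ℝ) ^ (-(u - g - ε)) := by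
    have e1 : Real.log ((m : ℝ) + 1) ≤ x * Real.log n + (K : ℝ) ^ (-(u - g - ε)) := by
      have e2 : (m : ℝ) + 1 ≤ (n : ℝ) ^ x * (1 + (K : ℝ) ^ (-(u - g - ε))) := by
        have e3 : (K : ℝ) ^ (g + ε) = (K : ℝ) ^ u * (K : ℝ) ^ (-(u - g - ε)) := by
          rw [← Real.rpow_add hK]
          congr 1
          ring
        have e4 : (K : ℝ) ^ u ≤ (n : ℝ) ^ x := by
          calc (K : ℝ) ^ u ≤ (n : ℝ) ^ u := Real.rpow_le_rpow hK.le hKn (by linarith)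
            _ ≤ _ := Real.rpow_le_rpow_of_exponent_le (by linarith) hux
        have e5 := mul_le_mul_of_nonneg_right e4 hKβ.le
        linarith
      have e6 := Real.log_le_log (by linarith) e2
      rw [Real.log_mul hnx0.ne' (by positivity), Real.log_rpow hn0] at e6
      have e7 := Real.log_le_sub_one_of_pos (show 0 < 1 + (K : ℝ) ^ (-(u - g - ε)) by positivity)
      linarith
    have e8 : θ0 * Real.log n ≤ (x + (K : ℝ) ^ (-(u - g - ε))) * Real.log n := by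
      rw [hθl, add_mul]
      have : (K : ℝ) ^ (-(u - g - ε)) ≤ (K : ℝ) ^ (-(u - g - ε)) * Real.log n :=
        le_mul_of_one_le_right hKβ.le hln
      linarith
    exact le_of_mul_le_mul_right e8 (by linarith)
  refine ⟨θ0, by linarith, by linarith, ?_⟩
  rintro θ ⟨hθ1, hθ2⟩
  refine ⟨n, hn1, hn2, free_of_Ioc hc.le (by omega) hn2 (m := m) ?_ ?_ hf'⟩
  · have e1 : (m : ℝ) + 1 ≤ (n : ℝ) ^ θ := by
      rw [← Real.log_le_log_iff (by positivity) (by positivity), Real.log_rpow hn0, ← hθl]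
      exact mul_le_mul_of_nonneg_right hθ1 (by linarith)
    linarith
  · have e0 : ((m : ℝ) + 2) * Real.log n * (K : ℝ) ^ (-(v + ε)) ≤ 1 := by
      have e1 : (m : ℝ) + 2 ≤ (2 ^ v + 3) * (K : ℝ) ^ v := by
        have e11 : (n : ℝ) ^ x ≤ 2 ^ v * (K : ℝ) ^ v := by
          calc (n : ℝ) ^ x ≤ (n : ℝ) ^ v := Real.rpow_le_rpow_of_exponent_le (by linarith) hxv
            _ ≤ (2 * (K : ℝ)) ^ v := Real.rpow_le_rpow hn0.le hn2K (by linarith)
            _ = _ := Real.mul_rpow (by norm_num) hK.le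
        have e12 : (K : ℝ) ^ (g + ε) ≤ (K : ℝ) ^ v := Real.rpow_le_rpow_of_exponent_le (by linarith) (by linarith)
        have e13 : (1 : ℝ) ≤ (K : ℝ) ^ v := Real.one_le_rpow (by linarith) (by linarith)
        linarith
      have e2 : Real.log (n : ℝ) ≤ 2 * Real.log (K : ℝ) ^ 3 := by
        have : Real.log (K : ℝ) ≤ Real.log (K : ℝ) ^ 3 := by
          calc Real.log (K : ℝ) = Real.log (K : ℝ) ^ 1 := (pow_one _).symm
            _ ≤ _ := pow_le_pow_right₀ h5 (by norm_num)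
        linarith
      calc ((m : ℝ) + 2) * Real.log n * (K : ℝ) ^ (-(v + ε)) ≤
            ((2 ^ v + 3) * (K : ℝ) ^ v) * (2 * Real.log (K : ℝ) ^ 3) * (K : ℝ) ^ (-(v + ε)) := by
              apply mul_le_mul_of_nonneg_right _ (by positivity)
              exact mul_le_mul e1 e2 (by linarith) (by positivity)
        _ = ((2 ^ v + 3) * 2 * Real.log (K : ℝ) ^ 3) * ((K : ℝ) ^ v * (K : ℝ) ^ (-(v + ε))) := by ring
        _ ≤ (K : ℝ) ^ ε * ((K : ℝ) ^ v * (K : ℝ) ^ (-(v + ε))) :=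
              mul_le_mul_of_nonneg_right h4 (by positivity)
        _ = 1 := by
              rw [← Real.rpow_add hK, ← Real.rpow_add hK]
              have : ε + (v + -(v + ε)) = 0 := by ring
              rw [this, Real.rpow_zero]
    have e3 : (n : ℝ) ^ θ ≤ (m : ℝ) + 2 := by
      rw [← Real.log_le_log_iff (by positivity) (by positivity), Real.log_rpow hn0]
      have e4 : θ * Real.log n ≤ Real.log (m + 1) + Real.log n * (K : ℝ) ^ (-(v + ε)) := by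
        have := mul_le_mul_of_nonneg_right hθ2 (show 0 ≤ Real.log (n : ℝ) by linarith)
        rw [add_mul, hθl] at this
        linarith
      have e5 : Real.log n * (K : ℝ) ^ (-(v + ε)) ≤ 1 / (m + 2) := by
        rw [le_div_iff₀ (by positivity)]
        linarith
      have e6 := Real.one_sub_inv_le_log_of_pos (show 0 < ((m : ℝ) + 2) / (m + 1) by positivity)
      rw [Real.log_div (by positivity) (by positivity), inv_div] at e6
      have e7 : 1 - ((m : ℝ) + 1) / (m + 2) = 1 / (m + 2) := by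
        field_simp
        ring
      linarith
    exact e3

end Pool.Agent.Q166.Ex
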