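import Pool.Agent.Q166.ExG

/-!
# Exceptional exponents: the number of free windows
-/

set_option autoImplicit false

namespace Pool.Agent.Q166.Ex

open Finset MeasureTheory Filter Topology Pool.Agent.Q120.ET Pool.Agent.Q120.MF Pool.Agent.Q120.AD Pool.Agent.Q166.Sq
open scoped ENNReal NNReal

variable {S : Set ℕ}

open Classical in
/-- the number of `1 ≤ n ≤ x` with a free window -/
noncomputable def cnt (S : Set ℕ) (c θ : ℝ) (x : ℕ) : ℕ :=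
  ((Icc 1 x).filter fun n : ℕ => FreeAt S ((n : ℝ) ^ θ) (c * Real.log n ^ 2)).card

theorem cnt_anti {c c' θ : ℝ} (h : c' ≤ c) (x : ℕ) : cnt S c θ x ≤ cnt S c' θ x := by
  classical
  unfold cnt
  apply card_le_card
  intro n hn
  rw [mem_filter] at hn ⊢
  exact ⟨hn.1, freeAt_mono (mul_le_mul_of_nonneg_right h (by positivity)) hn.2⟩

/-- the free windows of a block, for all exponents -/
theorem block_upper {c u v σ : ℝ} (hc : 0 < c) (hu : 1 < u) (huv : u < v)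
    (h : ∀ᶠ i : ℕ in atTop, ∀ j, tg u (⌈v⌉₊ + 1) (2 ^ i) j ≤ v → ∀ J ⊆ Ico ((2 : ℕ) ^ i) (2 * 2 ^ i),
      (∀ n ∈ J, ∀ k ∈ S, k ∉ WU c (tg u (⌈v⌉₊ + 1) (2 ^ i) j) (2 ^ i) n) → J.card < ⌈((2 ^ i : ℕ) : ℝ) ^ σ⌉₊) :
    ∀ᶠ i : ℕ in atTop, ∀ θ, u ≤ θ → θ ≤ v → ∀ J ⊆ Ico ((2 : ℕ) ^ i) (2 * 2 ^ i),
      (∀ n ∈ J, FreeAt S ((n : ℝ) ^ θ) (c * Real.log n ^ 2)) → (J.card : ℝ) < ((2 ^ i : ℕ) : ℝ) ^ σ := by
  filter_upwards [h, tendsto_two_pow.eventually (near_pow (b := v) (by linarith) one_pos),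
    tendsto_two_pow.eventually (eventually_ge_atTop 3)] with i h1 h2 h3 θ hθ1 hθ2 J hJ hJf
  obtain ⟨K, hKd⟩ : ∃ K : ℕ, K = 2 ^ i := ⟨_, rfl⟩
  rw [← hKd] at h1 h2 h3 hJ ⊢
  have hK3 : (3 : ℝ) ≤ K := by exact_mod_cast h3
  have hK : (0 : ℝ) < K := by linarith
  obtain ⟨j, hj1, hj2⟩ := exists_tg_le (B := ⌈v⌉₊ + 1) (show 1 ≤ K by omega) hθ1
  obtain ⟨x, hx⟩ : ∃ x : ℝ, x = tg u (⌈v⌉₊ + 1) K j := ⟨_, rfl⟩
  have hux : u ≤ x := by
    rw [hx]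
    unfold tg
    have : (0 : ℝ) ≤ j / (K : ℝ) ^ (⌈v⌉₊ + 1) := by positivity
    linarith
  have h4 := h1 j (by linarith) J hJ
  rw [← hx] at hj1 hj2 h4
  refine Nat.lt_ceil.1 (h4 ?_)
  intro n hn k hk hkW
  have hnK := mem_Ico.1 (hJ hn)
  have hKn : (K : ℝ) ≤ n := by exact_mod_cast hnK.1
  have hn2 : (n : ℝ) ≤ 2 * K := by exact_mod_cast hnK.2.le
  have h5 := (h2 θ x (by linarith) hj1 hθ2 hj2 n (by linarith) (by linarith)).1
  have h6 : (n : ℝ) ^ x ≤ (n : ℝ) ^ θ := Real.rpow_le_rpow_of_exponent_le (by linarith) hj1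
  apply hJf n hn k hk
  unfold WU at hkW
  rw [mem_Ioc] at hkW
  have hfl := Nat.floor_le (show 0 ≤ (n : ℝ) ^ x by positivity)
  have hfl2 := Nat.lt_floor_add_one ((n : ℝ) ^ x)
  constructor
  · have e1 : ((⌊(n : ℝ) ^ x⌋₊ + 2 : ℕ) : ℝ) ≤ k := by exact_mod_cast hkW.1
    push_cast at e1
    linarith
  · have e1 : (k : ℝ) ≤ ((⌊(n : ℝ) ^ x⌋₊ + 1 + hU c K : ℕ) : ℝ) := by exact_mod_cast hkW.2
    push_cast at e1
    have e2 : (hU c (K : ℝ) : ℝ) + 1 ≤ c * Real.log (K : ℝ) ^ 2 := by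
      have e21 : 1 ≤ hU c (K : ℝ) := by omega
      have e22 : hU c (K : ℝ) + 1 ≤ ⌊c * Real.log (K : ℝ) ^ 2⌋₊ := by
        unfold hU at e21 ⊢
        omega
      have e23 : ((hU c (K : ℝ) + 1 : ℕ) : ℝ) ≤ (⌊c * Real.log (K : ℝ) ^ 2⌋₊ : ℝ) := by exact_mod_cast e22
      push_cast at e23
      exact e23.trans (Nat.floor_le (by positivity))
    have e3 : c * Real.log (K : ℝ) ^ 2 ≤ c * Real.log (n : ℝ) ^ 2 := by
      apply mul_le_mul_of_nonneg_left _ hc.le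
      exact pow_le_pow_left₀ (Real.log_nonneg (by linarith)) (Real.log_le_log hK hKn) 2
    linarith

theorem block_lower {c u v ρ : ℝ} (hc : 0 < c) (hu : 1 < u) (huv : u < v)
    (h : ∀ᶠ i : ℕ in atTop, ∀ j, tg u (⌈v⌉₊ + 1) (2 ^ i) j ≤ v → ∀ e < 2 ^ i,
      (e + 1) * ⌈((2 ^ i : ℕ) : ℝ) ^ ρ⌉₊ ≤ 2 ^ i → ∃ n, 2 ^ i + e * ⌈((2 ^ i : ℕ) : ℝ) ^ ρ⌉₊ ≤ n ∧
        n < 2 ^ i + (e + 1) * ⌈((2 ^ i : ℕ) : ℝ) ^ ρ⌉₊ ∧
        ∀ k ∈ S, k ∉ WW c (tg u (⌈v⌉₊ + 1) (2 ^ i) j) (2 ^ i) n 0) :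
    ∀ᶠ i : ℕ in atTop, ∀ θ, u ≤ θ → θ ≤ v → ∃ J ⊆ Ico ((2 : ℕ) ^ i) (2 * 2 ^ i),
      (∀ n ∈ J, FreeAt S ((n : ℝ) ^ θ) (c * Real.log n ^ 2)) ∧
        2 ^ i / ⌈((2 ^ i : ℕ) : ℝ) ^ ρ⌉₊ ≤ J.card := by
  classical
  filter_upwards [h, tendsto_two_pow.eventually (near_pow (b := v) (by linarith) one_pos),
    tendsto_two_pow.eventually (eventually_ge_atTop 3)] with i h1 h2 h3 θ hθ1 hθ2
  obtain ⟨K, hKd⟩ : ∃ K : ℕ, K = 2 ^ i := ⟨_, rfl⟩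
  rw [← hKd] at h1 h2 h3 ⊢
  have hK3 : (3 : ℝ) ≤ K := by exact_mod_cast h3
  have hK : (0 : ℝ) < K := by linarith
  obtain ⟨j, hj1, hj2⟩ := exists_tg_le (B := ⌈v⌉₊ + 1) (show 1 ≤ K by omega) hθ1
  obtain ⟨x, hx⟩ : ∃ x : ℝ, x = tg u (⌈v⌉₊ + 1) K j := ⟨_, rfl⟩
  have hux : u ≤ x := by
    rw [hx]
    unfold tg
    have : (0 : ℝ) ≤ j / (K : ℝ) ^ (⌈v⌉₊ + 1) := by positivity
    linarith
  have h4 := h1 j (by linarith)
  rw [← hx] at hj1 hj2 h4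
  obtain ⟨R, hR⟩ : ∃ R : ℕ, R = ⌈(K : ℝ) ^ ρ⌉₊ := ⟨_, rfl⟩
  rw [← hR] at h4 ⊢
  have hRpos : 0 < R := by
    rw [hR]
    exact Nat.ceil_pos.2 (by positivity)
  have h5 : ∀ e, e < K / R → ∃ n, K + e * R ≤ n ∧ n < K + (e + 1) * R ∧ ∀ k ∈ S, k ∉ WW c x K n 0 := by
    intro e he
    have e1 : (e + 1) * R ≤ K := (Nat.mul_le_mul_right R he).trans (Nat.div_mul_le_self K R)
    refine h4 e ?_ e1
    have : e + 1 ≤ (e + 1) * R := Nat.le_mul_of_pos_right _ hRpos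
    omega
  choose! f hf1 hf2 hf3 using h5
  refine ⟨(range (K / R)).image f, ?_, ?_, ?_⟩
  · intro n hn
    rw [mem_image] at hn
    obtain ⟨e, he, rfl⟩ := hn
    rw [mem_range] at he
    have e1 : (e + 1) * R ≤ K := (Nat.mul_le_mul_right R he).trans (Nat.div_mul_le_self K R)
    have e2 := hf1 e he
    have e3 := hf2 e he
    rw [mem_Ico]
    constructor <;> omega
  · intro n hn
    rw [mem_image] at hn
    obtain ⟨e, he, rfl⟩ := hn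
    rw [mem_range] at he
    have e1 : (e + 1) * R ≤ K := (Nat.mul_le_mul_right R he).trans (Nat.div_mul_le_self K R)
    have e2 := hf1 e he
    have e3 := hf2 e he
    obtain ⟨n, hn⟩ : ∃ n, n = f e := ⟨_, rfl⟩
    have e4 := hf3 e he
    rw [← hn] at e2 e3 e4 ⊢
    have hKn : (K : ℝ) ≤ n := by
      have : K ≤ n := by omega
      exact_mod_cast this
    have hn2 : n < 2 * K := by omega
    have hn2' : (n : ℝ) ≤ 2 * K := by exact_mod_cast hn2.le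
    have h6 := (h2 θ x (by linarith) hj1 hθ2 hj2 n (by linarith) (by linarith)).1
    have h7 : (n : ℝ) ^ x ≤ (n : ℝ) ^ θ := Real.rpow_le_rpow_of_exponent_le (by linarith) hj1
    have hfl := Nat.floor_le (show 0 ≤ (n : ℝ) ^ x by positivity)
    have hfl2 := Nat.lt_floor_add_one ((n : ℝ) ^ x)
    refine free_of_Ioc hc.le (by omega) hn2 (m := ⌊(n : ℝ) ^ x⌋₊) (by linarith) (by linarith) ?_
    intro k hk hkW
    apply e4 k hk
    unfold WW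
    rw [zero_mul, add_zero]
    exact hkW
  · rw [card_image_of_injOn, card_range]
    intro e he e' he' hee
    rw [coe_range, Set.mem_Iio] at he he'
    have a1 := hf1 e he
    have a2 := hf2 e he
    have a3 := hf1 e' he'
    have a4 := hf2 e' he'
    have hee' : f e = f e' := hee
    rw [hee'] at a1 a2
    by_contra hne
    rcases Nat.lt_or_gt_of_ne hne with h | h
    · have : (e + 1) * R ≤ e' * R := Nat.mul_le_mul_right R h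
      omega
    · have : (e' + 1) * R ≤ e * R := Nat.mul_le_mul_right R h
      omega

/-- **The upper bound for the number.** -/
theorem cnt_upper {c θ σ η : ℝ} (hσ : 0 < σ) (hη : 0 < η)
    (h : ∀ᶠ i : ℕ in atTop, ∀ J ⊆ Ico ((2 : ℕ) ^ i) (2 * 2 ^ i),
      (∀ n ∈ J, FreeAt S ((n : ℝ) ^ θ) (c * Real.log n ^ 2)) → (J.card : ℝ) < ((2 ^ i : ℕ) : ℝ) ^ σ) :
    ∀ᶠ x : ℕ in atTop, (cnt S c θ x : ℝ) ≤ (x : ℝ) ^ (σ + η) := by
  classical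
  obtain ⟨i0, hi0⟩ := eventually_atTop.1 h
  filter_upwards [ev_pow (2 ^ i0 + 4) η hη, hl.eventually_ge_atTop 1, eventually_ge_atTop 3] with x h1 h2 h3
  have hx3 : (3 : ℝ) ≤ x := by exact_mod_cast h3
  have hx0 : (0 : ℝ) < x := by linarith
  obtain ⟨F, hF⟩ : ∃ F : ℕ → Finset ℕ, F = fun i => (Ico ((2 : ℕ) ^ i) (2 * 2 ^ i)).filter
    fun n : ℕ => FreeAt S ((n : ℝ) ^ θ) (c * Real.log n ^ 2) := ⟨_, rfl⟩
  have hsub : (Icc 1 x).filter (fun n : ℕ => FreeAt S ((n : ℝ) ^ θ) (c * Real.log n ^ 2)) ⊆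
      range (2 ^ i0) ∪ (Ico i0 (Nat.log 2 x + 1)).biUnion F := by
    intro n hn
    rw [mem_filter, mem_Icc] at hn
    rw [mem_union, mem_range, mem_biUnion]
    by_cases hni : n < 2 ^ i0
    · exact Or.inl hni
    · right
      obtain ⟨e1, e2⟩ := log_block hn.1.1
      refine ⟨Nat.log 2 n, ?_, ?_⟩
      · rw [mem_Ico]
        exact ⟨Nat.le_log_of_pow_le (by norm_num) (by omega), Nat.lt_succ_iff.2 (Nat.log_mono_right hn.1.2)⟩
      · rw [hF]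
        exact mem_filter.2 ⟨mem_Ico.2 ⟨e1, e2⟩, hn.2⟩
  have hFc : ∀ i ∈ Ico i0 (Nat.log 2 x + 1), ((F i).card : ℝ) ≤ (x : ℝ) ^ σ := by
    intro i hi
    rw [mem_Ico] at hi
    have e1 := hi0 i hi.1 (F i) (by rw [hF]; exact filter_subset _ _) (by
      rw [hF]
      intro n hn
      exact (mem_filter.1 hn).2)
    refine e1.le.trans (Real.rpow_le_rpow (by positivity) ?_ hσ.le)
    have e2 : 2 ^ i ≤ x := (Nat.pow_le_pow_right (by norm_num) (Nat.lt_succ_iff.1 hi.2)).trans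
      (Nat.pow_log_le_self 2 (by omega))
    exact_mod_cast e2
  have hcard : (cnt S c θ x : ℝ) ≤ 2 ^ i0 + (Nat.log 2 x + 1) * (x : ℝ) ^ σ := by
    have e1 : cnt S c θ x ≤ 2 ^ i0 + ∑ i ∈ Ico i0 (Nat.log 2 x + 1), (F i).card := by
      unfold cnt
      refine (card_le_card hsub).trans ((card_union_le _ _).trans ?_)
      rw [card_range]
      exact Nat.add_le_add_left card_biUnion_le _
    have e2 : (cnt S c θ x : ℝ) ≤ 2 ^ i0 + ∑ i ∈ Ico i0 (Nat.log 2 x + 1), ((F i).card : ℝ) := by exact_mod_cast e1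
    refine e2.trans ?_
    have e3 := sum_le_sum hFc
    rw [sum_const, nsmul_eq_mul, Nat.card_Ico] at e3
    have e4 : ((Nat.log 2 x + 1 - i0 : ℕ) : ℝ) ≤ Nat.log 2 x + 1 := by
      have : Nat.log 2 x + 1 - i0 ≤ Nat.log 2 x + 1 := Nat.sub_le _ _
      exact_mod_cast this
    have e5 := mul_le_mul_of_nonneg_right e4 (show 0 ≤ (x : ℝ) ^ σ by positivity)
    linarith
  have hlog : (Nat.log 2 x : ℝ) ≤ 2 * Real.log x := by
    have e1 : (2 : ℝ) ^ Nat.log 2 x ≤ x := by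
      exact_mod_cast Nat.pow_log_le_self 2 (show x ≠ 0 by omega)
    have e2 := Real.log_le_log (by positivity) e1
    rw [Real.log_pow] at e2
    have e3 : (1 : ℝ) / 2 ≤ Real.log 2 := by
      have := Real.log_two_gt_d9
      linarith
    have e4 : (0 : ℝ) ≤ Nat.log 2 x := Nat.cast_nonneg _
    nlinarith
  have hxσ : 1 ≤ (x : ℝ) ^ σ := Real.one_le_rpow (by linarith) hσ.le
  have hl3 : Real.log (x : ℝ) ≤ Real.log (x : ℝ) ^ 3 := by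
    calc Real.log (x : ℝ) = Real.log (x : ℝ) ^ 1 := (pow_one _).symm
      _ ≤ _ := pow_le_pow_right₀ h2 (by norm_num)
  refine hcard.trans ?_
  rw [add_comm σ η, Real.rpow_add hx0]
  calc (2 : ℝ) ^ i0 + (Nat.log 2 x + 1) * (x : ℝ) ^ σ ≤
        2 ^ i0 * Real.log (x : ℝ) ^ 3 * (x : ℝ) ^ σ + (4 * Real.log (x : ℝ) ^ 3) * (x : ℝ) ^ σ := by
        apply add_le_add
        · have e1 : (1 : ℝ) ≤ Real.log (x : ℝ) ^ 3 := by linarith
          have e2 : (0 : ℝ) < 2 ^ i0 := by positivity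
          calc (2 : ℝ) ^ i0 = 2 ^ i0 * 1 * 1 := by ring
            _ ≤ _ := mul_le_mul (mul_le_mul_of_nonneg_left e1 e2.le) hxσ zero_le_one (by positivity)
        · apply mul_le_mul_of_nonneg_right _ (by positivity)
          linarith
    _ = (2 ^ i0 + 4) * Real.log (x : ℝ) ^ 3 * (x : ℝ) ^ σ := by ring
    _ ≤ _ := mul_le_mul_of_nonneg_right h1 (by positivity)

/-- **The lower bound for the number.** -/
theorem cnt_lower {c θ ρ η : ℝ} (hρ0 : 0 ≤ ρ) (hρ : ρ < 1) (hη : 0 < η)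
    (h : ∀ᶠ i : ℕ in atTop, ∃ J ⊆ Ico ((2 : ℕ) ^ i) (2 * 2 ^ i),
      (∀ n ∈ J, FreeAt S ((n : ℝ) ^ θ) (c * Real.log n ^ 2)) ∧
        2 ^ i / ⌈((2 ^ i : ℕ) : ℝ) ^ ρ⌉₊ ≤ J.card) :
    ∀ᶠ x : ℕ in atTop, (x : ℝ) ^ (1 - ρ - η) ≤ (cnt S c θ x : ℝ) := by
  classical
  obtain ⟨i0, hi0⟩ := eventually_atTop.1 h
  have hbig : ∀ᶠ K : ℕ in atTop, (4 : ℝ) ≤ (K : ℝ) ^ (1 - ρ) :=
    ((tendsto_rpow_atTop (by linarith)).comp tendsto_natCast_atTop_atTop).eventually_ge_atTop _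
  obtain ⟨K0, hK0⟩ := eventually_atTop.1 hbig
  have hx1 : ∀ᶠ x : ℕ in atTop, (16 : ℝ) ≤ (x : ℝ) ^ η :=
    ((tendsto_rpow_atTop hη).comp tendsto_natCast_atTop_atTop).eventually_ge_atTop _
  filter_upwards [hx1, eventually_ge_atTop (2 ^ (i0 + 1)), eventually_ge_atTop (4 * K0), eventually_ge_atTop 4]
    with x h1 h2 h3 h4
  obtain ⟨L, hL⟩ : ∃ L : ℕ, L = Nat.log 2 x := ⟨_, rfl⟩
  obtain ⟨e1, e2⟩ := log_block (show 1 ≤ x by omega)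
  rw [← hL] at e1 e2
  have hLi : i0 + 1 ≤ L := by
    rw [hL]
    exact Nat.le_log_of_pow_le (by norm_num) h2
  obtain ⟨K, hK⟩ : ∃ K : ℕ, K = 2 ^ (L - 1) := ⟨_, rfl⟩
  have hKL : 2 ^ L = 2 * K := by
    rw [hK, ← pow_succ', Nat.sub_add_cancel (by omega)]
  rw [hKL] at e1 e2
  obtain ⟨J, hJ1, hJ2, hJ3⟩ := hi0 (L - 1) (by omega)
  rw [← hK] at hJ1 hJ3
  have hK1 : 1 ≤ K := by omega
  have hKr : (0 : ℝ) < K := by exact_mod_cast hK1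
  have hxr : (x : ℝ) ≤ 4 * K := by
    have : x ≤ 4 * K := by omega
    exact_mod_cast this
  have hcnt : J.card ≤ cnt S c θ x := by
    unfold cnt
    apply card_le_card
    intro n hn
    have e3 := mem_Ico.1 (hJ1 hn)
    rw [mem_filter, mem_Icc]
    exact ⟨⟨by omega, by omega⟩, hJ2 n hn⟩
  obtain ⟨R, hR⟩ : ∃ R : ℕ, R = ⌈(K : ℝ) ^ ρ⌉₊ := ⟨_, rfl⟩
  rw [← hR] at hJ3
  have hKρ : 1 ≤ (K : ℝ) ^ ρ := Real.one_le_rpow (by exact_mod_cast hK1) hρ0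
  have hR2 : (R : ℝ) ≤ 2 * (K : ℝ) ^ ρ := by
    rw [hR]
    have := Nat.ceil_lt_add_one (show 0 ≤ (K : ℝ) ^ ρ by positivity)
    linarith
  have hRpos : 0 < R := by
    rw [hR]
    exact Nat.ceil_pos.2 (by positivity)
  have hRr : (0 : ℝ) < R := by exact_mod_cast hRpos
  have hdiv : (K : ℝ) / R - 1 ≤ ((K / R : ℕ) : ℝ) := by
    have h5 : K < R * (K / R + 1) := by
      rw [Nat.mul_add, mul_one]
      have := Nat.mod_lt K hRpos
      have := Nat.div_add_mod K R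
      omega
    have h6 : (K : ℝ) < R * (((K / R : ℕ) : ℝ) + 1) := by exact_mod_cast h5
    rw [sub_le_iff_le_add, div_le_iff₀ hRr]
    linarith
  have h5 : (K : ℝ) ^ (1 - ρ) / 2 ≤ (K : ℝ) / R := by
    rw [le_div_iff₀ hRr]
    calc (K : ℝ) ^ (1 - ρ) / 2 * R ≤ (K : ℝ) ^ (1 - ρ) / 2 * (2 * (K : ℝ) ^ ρ) :=
          mul_le_mul_of_nonneg_left hR2 (by positivity)
      _ = (K : ℝ) ^ (1 - ρ) * (K : ℝ) ^ ρ := by ring
      _ = K := by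
          rw [← Real.rpow_add hKr, sub_add_cancel, Real.rpow_one]
  have h6 := hK0 K (by omega)
  have h7 : (K : ℝ) ^ (1 - ρ) / 4 ≤ (cnt S c θ x : ℝ) := by
    have : ((K / R : ℕ) : ℝ) ≤ (cnt S c θ x : ℝ) := by exact_mod_cast hJ3.trans hcnt
    linarith
  have hx0 : (0 : ℝ) < x := by
    have : 0 < x := by omega
    exact_mod_cast this
  have h8 : (x : ℝ) ^ (1 - ρ) ≤ 4 * (K : ℝ) ^ (1 - ρ) := by
    calc (x : ℝ) ^ (1 - ρ) ≤ (4 * (K : ℝ)) ^ (1 - ρ) := Real.rpow_le_rpow hx0.le hxr (by linarith)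
      _ = 4 ^ (1 - ρ) * (K : ℝ) ^ (1 - ρ) := Real.mul_rpow (by norm_num) hKr.le
      _ ≤ 4 * (K : ℝ) ^ (1 - ρ) := by
          apply mul_le_mul_of_nonneg_right _ (by positivity)
          calc (4 : ℝ) ^ (1 - ρ) ≤ 4 ^ (1 : ℝ) := Real.rpow_le_rpow_of_exponent_le (by norm_num) (by linarith)
            _ = 4 := Real.rpow_one _
  have h9 : (x : ℝ) ^ (1 - ρ - η) * 16 ≤ (x : ℝ) ^ (1 - ρ) := by
    calc (x : ℝ) ^ (1 - ρ - η) * 16 ≤ (x : ℝ) ^ (1 - ρ - η) * (x : ℝ) ^ η :=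
          mul_le_mul_of_nonneg_left h1 (by positivity)
      _ = _ := by
          rw [← Real.rpow_add hx0, sub_add_cancel]
  linarith

end Pool.Agent.Q166.Ex
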