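import Pool.Agent.Q166.ExH

/-!
# Exceptional exponents: one null set for all parameters
-/

set_option autoImplicit false

namespace Pool.Agent.Q166.Ex

open Finset MeasureTheory Filter Topology Pool.Agent.Q120.ET Pool.Agent.Q120.MF Pool.Agent.Q120.AD Pool.Agent.Q166.Sq
open scoped ENNReal NNReal

/-- the properties of almost every set, with rational parameters -/
structure Good (S : Set ℕ) : Prop where
  start : ∀ c v δ : ℚ, (0 : ℝ) < c → (1 : ℝ) ≤ v → (0 : ℝ) < δ → ∀ᶠ i : ℕ in atTop,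
    ((st S c v (2 ^ i)).card : ℝ) < (((2 ^ i : ℕ) : ℝ)) ^ ((v : ℝ) - c / v + δ)
  hits : ∀ c u v g ε : ℚ, (0 : ℝ) < c → (1 : ℝ) < u → (u : ℝ) < v → (0 : ℝ) ≤ g → (0 : ℝ) < ε →
    (c : ℝ) / u + 2 * ε ≤ 1 + g → (g : ℝ) + ε ≤ u - 1 → ∀ᶠ i : ℕ in atTop, ∀ w : ℝ, (u : ℝ) ≤ w →
      w + 3 * (((2 ^ i : ℕ) : ℝ)) ^ (-((u : ℝ) - g - ε)) ≤ v → ∃ w' : ℝ, w ≤ w' ∧
        w' + (((2 ^ i : ℕ) : ℝ)) ^ (-((v : ℝ) + ε)) ≤ w + 3 * (((2 ^ i : ℕ) : ℝ)) ^ (-((u : ℝ) - g - ε)) ∧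
        Set.Icc w' (w' + (((2 ^ i : ℕ) : ℝ)) ^ (-((v : ℝ) + ε))) ⊆ FS S c (2 ^ i)
  few : ∀ c u v σ : ℚ, (0 : ℝ) < c → (1 : ℝ) < u → (u : ℝ) < v → (0 : ℝ) < σ → 1 - (c : ℝ) / v < σ →
    ∀ᶠ i : ℕ in atTop, ∀ θ : ℝ, (u : ℝ) ≤ θ → θ ≤ v → ∀ J ⊆ Ico ((2 : ℕ) ^ i) (2 * 2 ^ i),
      (∀ n ∈ J, FreeAt S ((n : ℝ) ^ θ) (c * Real.log n ^ 2)) → (J.card : ℝ) < ((2 ^ i : ℕ) : ℝ) ^ (σ : ℝ)
  many : ∀ c u v ρ ε : ℚ, (0 : ℝ) < c → (1 : ℝ) < u → (u : ℝ) < v → (0 : ℝ) < ε →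
    (c : ℝ) / u + 2 * ε ≤ ρ → (ε : ℝ) ≤ u - 1 → ∀ᶠ i : ℕ in atTop, ∀ θ : ℝ, (u : ℝ) ≤ θ → θ ≤ v →
      ∃ J ⊆ Ico ((2 : ℕ) ^ i) (2 * 2 ^ i), (∀ n ∈ J, FreeAt S ((n : ℝ) ^ θ) (c * Real.log n ^ 2)) ∧
        2 ^ i / ⌈((2 ^ i : ℕ) : ℝ) ^ (ρ : ℝ)⌉₊ ≤ J.card

theorem ae_good {Ω : Type*} [MeasurableSpace Ω] {μ : Measure Ω} [IsProbabilityMeasure μ] {A : Ω → Set ℕ}
    (hA : IsCramer μ A) : ∀ᵐ ω ∂μ, Good (A ω) := by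
  have h1 : ∀ᵐ ω ∂μ, ∀ c v δ : ℚ, (0 : ℝ) < c → (1 : ℝ) ≤ v → (0 : ℝ) < δ → ∀ᶠ i : ℕ in atTop,
      ((st (A ω) c v (2 ^ i)).card : ℝ) < (((2 ^ i : ℕ) : ℝ)) ^ ((v : ℝ) - c / v + δ) := by
    simp only [ae_all_iff]
    intro c v δ hc hv hδ
    exact few_st hA hc hv hδ
  have h2 : ∀ᵐ ω ∂μ, ∀ c u v g ε : ℚ, (0 : ℝ) < c → (1 : ℝ) < u → (u : ℝ) < v → (0 : ℝ) ≤ g → (0 : ℝ) < ε →
      (c : ℝ) / u + 2 * ε ≤ 1 + g → (g : ℝ) + ε ≤ u - 1 → ∀ᶠ i : ℕ in atTop,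
        ∀ j, tg u ⌈(v : ℝ)⌉₊ (2 ^ i) j ≤ v → ∃ n t, 2 ^ i ≤ n ∧ n < 2 * 2 ^ i ∧
        t < ⌈((2 ^ i : ℕ) : ℝ) ^ (g : ℝ)⌉₊ ∧ ∀ k ∈ A ω, k ∉ WW c (tg u ⌈(v : ℝ)⌉₊ (2 ^ i) j) (2 ^ i) n t := by
    simp only [ae_all_iff]
    intro c u v g ε hc hu huv hg hε h1 h2
    exact hits_ae hA hc hu huv.le hg hε h1 h2 ⌈(v : ℝ)⌉₊
  have h3 : ∀ᵐ ω ∂μ, ∀ c u v σ : ℚ, (0 : ℝ) < c → (1 : ℝ) < u → (u : ℝ) < v → (0 : ℝ) < σ →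
      1 - (c : ℝ) / v < σ → ∀ᶠ i : ℕ in atTop, ∀ j, tg u (⌈(v : ℝ)⌉₊ + 1) (2 ^ i) j ≤ v →
        ∀ J ⊆ Ico ((2 : ℕ) ^ i) (2 * 2 ^ i), (∀ n ∈ J, ∀ k ∈ A ω,
          k ∉ WU c (tg u (⌈(v : ℝ)⌉₊ + 1) (2 ^ i) j) (2 ^ i) n) → J.card < ⌈((2 ^ i : ℕ) : ℝ) ^ (σ : ℝ)⌉₊ := by
    simp only [ae_all_iff]
    intro c u v σ hc hu huv hσ h1
    exact few_ae hA hc hu huv.le hσ h1 _
  have h4 : ∀ᵐ ω ∂μ, ∀ c u v ρ ε : ℚ, (0 : ℝ) < c → (1 : ℝ) < u → (u : ℝ) < v → (0 : ℝ) < ε →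
      (c : ℝ) / u + 2 * ε ≤ ρ → (ε : ℝ) ≤ u - 1 → ∀ᶠ i : ℕ in atTop,
        ∀ j, tg u (⌈(v : ℝ)⌉₊ + 1) (2 ^ i) j ≤ v → ∀ e < 2 ^ i,
        (e + 1) * ⌈((2 ^ i : ℕ) : ℝ) ^ (ρ : ℝ)⌉₊ ≤ 2 ^ i → ∃ n, 2 ^ i + e * ⌈((2 ^ i : ℕ) : ℝ) ^ (ρ : ℝ)⌉₊ ≤ n ∧
          n < 2 ^ i + (e + 1) * ⌈((2 ^ i : ℕ) : ℝ) ^ (ρ : ℝ)⌉₊ ∧
          ∀ k ∈ A ω, k ∉ WW c (tg u (⌈(v : ℝ)⌉₊ + 1) (2 ^ i) j) (2 ^ i) n 0 := by
    simp only [ae_all_iff]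
    intro c u v ρ ε hc hu huv hε h1 h2
    exact many_ae hA hc hu huv.le hε h1 h2 _
  filter_upwards [h1, h2, h3, h4] with ω g1 g2 g3 g4
  refine ⟨g1, ?_, ?_, ?_⟩
  · intro c u v g ε hc hu huv hg hε e1 e2
    filter_upwards [g2 c u v g ε hc hu huv hg hε e1 e2,
      tendsto_two_pow.eventually (hit_step (S := A ω) (v := (v : ℝ)) hc hu hg hε e2 (Nat.le_ceil (v : ℝ)))] with i hi1 hi2
    exact hi2 hi1
  · intro c u v σ hc hu huv hσ e1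
    exact block_upper hc hu huv (g3 c u v σ hc hu huv hσ e1)
  · intro c u v ρ ε hc hu huv hε e1 e2
    exact block_lower hc hu huv (g4 c u v ρ ε hc hu huv hε e1 e2)

variable {S : Set ℕ}

/-- **No exceptional exponent below the square root of `c`.** -/
theorem Good.notMem (hS : Good S) {c θ : ℝ} (hc : 0 < c) (hθ : θ ^ 2 < c) : θ ∉ Exc S c := by
  by_cases h1 : 1 < θ
  · have hcont : ContinuousAt (fun p : ℝ × ℝ × ℝ => p.2.1 - p.1 / p.2.1 + p.2.2) (c, θ, 0) := by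
      have h2 : (c, θ, (0 : ℝ)).2.1 ≠ 0 := by
        show θ ≠ 0
        linarith
      fun_prop (disch := assumption)
    have hneg : (fun p : ℝ × ℝ × ℝ => p.2.1 - p.1 / p.2.1 + p.2.2) (c, θ, 0) < 0 := by
      show θ - c / θ + 0 < 0
      have : θ < c / θ := by
        rw [lt_div_iff₀ (by linarith)]
        nlinarith
      linarith
    have hev := hcont.eventually_lt_const hneg
    rw [Metric.eventually_nhds_iff] at hev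
    obtain ⟨r, hr, hball⟩ := hev
    obtain ⟨c', hc1, hc2⟩ := exists_rat_btwn (show max (c - r) 0 < c from max_lt (by linarith) hc)
    obtain ⟨v, hv1, hv2⟩ := exists_rat_btwn (show θ < θ + r by linarith)
    obtain ⟨δ, hδ1, hδ2⟩ := exists_rat_btwn hr
    rw [max_lt_iff] at hc1
    have h3 : (v : ℝ) - c' / v + δ < 0 := by
      refine hball (y := ((c' : ℝ), (v : ℝ), (δ : ℝ))) ?_
      rw [Prod.dist_eq, Prod.dist_eq, max_lt_iff, max_lt_iff, Real.dist_eq, Real.dist_eq, Real.dist_eq]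
      simp only [abs_lt]
      refine ⟨⟨?_, ?_⟩, ⟨?_, ?_⟩, ⟨?_, ?_⟩⟩ <;> linarith [hc1.1]
    intro hmem
    exact exc_empty hc1.2.le h3.le (hS.start c' v δ hc1.2 (by linarith) hδ1) hv1.le (exc_anti hc2.le hmem)
  · intro hmem
    exact h1 hmem.1

/-- **The upper bound for the dimension.** -/
theorem Good.dim_le (hS : Good S) {c v : ℝ} (hc : 0 < c) (hv1 : 1 < v) (hvc : v ≤ c) (hcv : c < v ^ 2) (u : ℝ) :
    dimH (Exc S c ∩ Set.Ioo u v) ≤ ENNReal.ofReal (1 + 1 / v - c / v ^ 2) := by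
  have hv0 : 0 < v := by linarith
  have hD0 : 0 < 1 + 1 / v - c / v ^ 2 := by
    have e1 : c / v ^ 2 < 1 := by
      rw [div_lt_one (by positivity)]
      exact hcv
    have e2 : 0 < 1 / v := by positivity
    linarith
  -- it is enough to bound by every larger number
  refine le_of_forall_gt fun b hb => ?_
  obtain ⟨s', hs1, hs2⟩ := exists_between hb
  have hs'top : s' ≠ ⊤ := ne_top_of_lt hs2
  obtain ⟨s, hs⟩ : ∃ s : ℝ, s = s'.toReal := ⟨_, rfl⟩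
  have hsD : 1 + 1 / v - c / v ^ 2 < s := by
    rw [hs]
    exact (ENNReal.ofReal_lt_iff_lt_toReal hD0.le hs'top).1 hs1
  have hs0 : 0 < s := by linarith
  refine lt_of_le_of_lt ?_ hs2
  have hss : s' = ENNReal.ofReal s := by
    rw [hs, ENNReal.ofReal_toReal hs'top]
  rw [hss]
  -- the countable cover
  obtain ⟨Q, hQ⟩ : ∃ Q : Set (ℚ × ℚ × ℚ × ℚ), Q = {q | (0 : ℝ) < q.1 ∧ (q.1 : ℝ) ≤ c ∧ (1 : ℝ) ≤ q.2.1 ∧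
    (1 : ℝ) ≤ q.2.2.1 ∧ (0 : ℝ) < q.2.2.2 ∧
    1 + ((q.2.2.1 : ℝ) - q.1 / q.2.2.1 + q.2.2.2) < q.2.1 * s} := ⟨_, rfl⟩
  have hsub : Exc S c ∩ Set.Ioo u v ⊆ ⋃ q : Q, (Exc S q.1.1 ∩ Set.Icc (q.1.2.1 : ℝ) (q.1.2.2.1 : ℝ)) := by
    rintro θ ⟨hθ1, hθ2, hθ3⟩
    have h1 := hθ1.1
    -- continuity
    have hcont : ContinuousAt (fun p : ℝ × ℝ × ℝ × ℝ => 1 + (p.2.2.1 - p.1 / p.2.2.1 + p.2.2.2) - p.2.1 * s)
        (c, θ, θ, 0) := by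
      have h2 : (c, θ, θ, (0 : ℝ)).2.2.1 ≠ 0 := by
        show θ ≠ 0
        linarith
      fun_prop (disch := assumption)
    have hneg : (fun p : ℝ × ℝ × ℝ × ℝ => 1 + (p.2.2.1 - p.1 / p.2.2.1 + p.2.2.2) - p.2.1 * s) (c, θ, θ, 0) < 0 := by
      show 1 + (θ - c / θ + 0) - θ * s < 0
      have e1 : 1 / θ - c / θ ^ 2 ≤ 1 / v - c / v ^ 2 := by
        rw [← sub_nonneg]
        have e2 : 1 / v - c / v ^ 2 - (1 / θ - c / θ ^ 2) = (v - θ) * (c * (v + θ) - v * θ) / (v ^ 2 * θ ^ 2) := by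
          field_simp
          ring
        rw [e2]
        apply div_nonneg _ (by positivity)
        apply mul_nonneg (by linarith)
        nlinarith
      have e3 : 1 + (θ - c / θ + 0) = θ * (1 + (1 / θ - c / θ ^ 2)) := by
        field_simp
        ring
      have e4 : θ * (1 + (1 / θ - c / θ ^ 2)) < θ * s := mul_lt_mul_of_pos_left (by linarith) (by linarith)
      linarith
    have hev := hcont.eventually_lt_const hneg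
    rw [Metric.eventually_nhds_iff] at hev
    obtain ⟨r, hr, hball⟩ := hev
    obtain ⟨c', hc1, hc2⟩ := exists_rat_btwn (show max (c - r) 0 < c from max_lt (by linarith) hc)
    obtain ⟨p, hp1, hp2⟩ := exists_rat_btwn (show max (θ - r) 1 < θ from max_lt (by linarith) h1)
    obtain ⟨q, hq1, hq2⟩ := exists_rat_btwn (show θ < θ + r by linarith)
    obtain ⟨δ, hδ1, hδ2⟩ := exists_rat_btwn hr
    rw [max_lt_iff] at hc1 hp1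
    have h3 : 1 + ((q : ℝ) - c' / q + δ) - p * s < 0 := by
      refine hball (y := ((c' : ℝ), (p : ℝ), (q : ℝ), (δ : ℝ))) ?_
      rw [Prod.dist_eq, Prod.dist_eq, Prod.dist_eq, max_lt_iff, max_lt_iff, max_lt_iff, Real.dist_eq,
        Real.dist_eq, Real.dist_eq, Real.dist_eq]
      simp only [abs_lt]
      refine ⟨⟨?_, ?_⟩, ⟨?_, ?_⟩, ⟨?_, ?_⟩, ⟨?_, ?_⟩⟩ <;> linarith [hc1.1, hp1.1]
    rw [Set.mem_iUnion]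
    refine ⟨⟨(c', p, q, δ), ?_⟩, exc_anti hc2.le hθ1, hp2.le, hq1.le⟩
    rw [hQ]
    exact ⟨hc1.2, hc2.le, hp1.2.le, by show (1 : ℝ) ≤ q; linarith, hδ1, by
      show 1 + ((q : ℝ) - c' / q + δ) < p * s
      linarith⟩
  refine (dimH_mono hsub).trans ?_
  rw [dimH_iUnion]
  refine iSup_le ?_
  rintro ⟨q, hq⟩
  have hq' := hq
  rw [hQ] at hq'
  obtain ⟨a1, a2, a3, a4, a5, a6⟩ := hq'
  exact dimH_exc_le a1.le a3 hs0.le (by linarith) (hS.start q.1 q.2.2.1 q.2.2.2 a1 a4 a5)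

end Pool.Agent.Q166.Ex
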