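import Pool.Agent.Q166.ExI

/-!
# Exceptional exponents: the dimension, the numbers, the measure
-/

set_option autoImplicit false

namespace Pool.Agent.Q166.Ex

open Finset MeasureTheory Filter Topology Pool.Agent.Q120.ET Pool.Agent.Q120.MF Pool.Agent.Q120.AD Pool.Agent.Q166.Sq
open scoped ENNReal NNReal

variable {S : Set ℕ}

theorem mem_exc_of_FS {c θ : ℝ} (hθ : 1 < θ) (h : ∀ a : ℕ, ∃ i, a ≤ i ∧ θ ∈ FS S c (2 ^ i)) : θ ∈ Exc S c := by
  refine ⟨hθ, ?_⟩
  rw [frequently_atTop]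
  intro a
  obtain ⟨i, hi, n, hn1, _, hn3⟩ := h a
  exact ⟨n, by
    have : i < 2 ^ i := Nat.lt_two_pow_self
    omega, hn3⟩

/-- **The lower bound for the dimension.** -/
theorem Good.le_dim (hS : Good S) {c u v : ℝ} (hv1 : 1 < v) (hvc : v ≤ c) (hcv : c < v ^ 2) (huv : u < v) :
    ENNReal.ofReal (1 + 1 / v - c / v ^ 2) ≤ dimH (Exc S c ∩ Set.Ioo u v) := by
  have hv0 : 0 < v := by linarith
  have hc : 0 < c := by linarith
  refine le_of_forall_lt fun b hb => ?_
  obtain ⟨s', hs1, hs2⟩ := exists_between hb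
  have hs'top : s' ≠ ⊤ := ne_top_of_lt hs2
  obtain ⟨s, hs⟩ : ∃ s : ℝ, s = s'.toReal := ⟨_, rfl⟩
  have hss : s' = ENNReal.ofReal s := by
    rw [hs, ENNReal.ofReal_toReal hs'top]
  have hs0 : 0 ≤ s := by rw [hs]; exact ENNReal.toReal_nonneg
  have hsD : s < 1 + 1 / v - c / v ^ 2 := by
    rw [hss] at hs2
    exact (ENNReal.ofReal_lt_ofReal_iff_of_nonneg hs0).1 hs2
  refine lt_of_lt_of_le hs1 ?_
  rw [hss]
  -- the parameters
  have hcont1 : ContinuousAt (fun p : ℝ × ℝ × ℝ × ℝ => s * (p.2.2.1 + p.2.2.2) -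
      (p.2.1 - p.1 / p.2.1 + 1 - 4 * p.2.2.2)) (c, v, v, 0) := by
    have h2 : (c, v, v, (0 : ℝ)).2.1 ≠ 0 := hv0.ne'
    fun_prop (disch := assumption)
  have hneg1 : (fun p : ℝ × ℝ × ℝ × ℝ => s * (p.2.2.1 + p.2.2.2) -
      (p.2.1 - p.1 / p.2.1 + 1 - 4 * p.2.2.2)) (c, v, v, 0) < 0 := by
    show s * (v + 0) - (v - c / v + 1 - 4 * 0) < 0
    have e1 : v - c / v + 1 = v * (1 + 1 / v - c / v ^ 2) := by
      field_simp
      ring
    have e2 : v * s < v * (1 + 1 / v - c / v ^ 2) := mul_lt_mul_of_pos_left hsD hv0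
    linarith
  have hcont2 : ContinuousAt (fun p : ℝ × ℝ × ℝ × ℝ => p.1 / p.2.1 + 4 * p.2.2.2 - p.2.1) (c, v, v, 0) := by
    have h2 : (c, v, v, (0 : ℝ)).2.1 ≠ 0 := hv0.ne'
    fun_prop (disch := assumption)
  have hneg2 : (fun p : ℝ × ℝ × ℝ × ℝ => p.1 / p.2.1 + 4 * p.2.2.2 - p.2.1) (c, v, v, 0) < 0 := by
    show c / v + 4 * 0 - v < 0
    have : c / v < v := by
      rw [div_lt_iff₀ hv0]
      nlinarith
    linarith
  have hev := (hcont1.eventually_lt_const hneg1).and (hcont2.eventually_lt_const hneg2)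
  rw [Metric.eventually_nhds_iff] at hev
  obtain ⟨r, hr, hball⟩ := hev
  obtain ⟨c1, hc1, hc2⟩ := exists_rat_btwn (show c < c + r by linarith)
  obtain ⟨u0, hu1, hu2⟩ := exists_rat_btwn (show max (v - r) (max u 1) < v from
    max_lt (by linarith) (max_lt huv hv1))
  obtain ⟨v0, hv2, hv3⟩ := exists_rat_btwn hu2
  obtain ⟨ε, hε1, hε2⟩ := exists_rat_btwn hr
  rw [max_lt_iff, max_lt_iff] at hu1
  have h3 : s * ((v0 : ℝ) + ε) - (u0 - c1 / u0 + 1 - 4 * ε) < 0 ∧ (c1 : ℝ) / u0 + 4 * ε - u0 < 0 := by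
    refine hball (y := ((c1 : ℝ), (u0 : ℝ), (v0 : ℝ), (ε : ℝ))) ?_
    rw [Prod.dist_eq, Prod.dist_eq, Prod.dist_eq, max_lt_iff, max_lt_iff, max_lt_iff, Real.dist_eq,
      Real.dist_eq, Real.dist_eq, Real.dist_eq]
    simp only [abs_lt]
    refine ⟨⟨?_, ?_⟩, ⟨?_, ?_⟩, ⟨?_, ?_⟩, ⟨?_, ?_⟩⟩ <;> linarith [hu1.1]
  obtain ⟨h3a, h3b⟩ := h3
  obtain ⟨g, hg⟩ : ∃ g : ℚ, g = c1 / u0 - 1 + 2 * ε := ⟨_, rfl⟩
  have hgr : (g : ℝ) = c1 / u0 - 1 + 2 * ε := by
    rw [hg]
    push_cast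
    ring
  have hu00 : (0 : ℝ) < u0 := by linarith [hu1.2.2]
  have hcu : (1 : ℝ) ≤ c1 / u0 := by
    rw [le_div_iff₀ hu00]
    linarith
  have hhit := hS.hits c1 u0 v0 g ε (by linarith) hu1.2.2 hv2 (by rw [hgr]; linarith) hε1
    (by rw [hgr]; linarith) (by rw [hgr]; linarith)
  obtain ⟨i0, hi0⟩ := eventually_atTop.1 hhit
  obtain ⟨β, hβ⟩ : ∃ β : ℝ, β = (u0 : ℝ) - g - ε := ⟨_, rfl⟩
  rw [← hβ] at hi0
  have hβε : β - ε = u0 - c1 / u0 + 1 - 4 * ε := by
    rw [hβ, hgr]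
    ring
  have hp : (0 : ℝ) < v0 + ε := by linarith [hu1.2.2]
  obtain ⟨φ, hφ1, hφ2, hφ3, hφ4⟩ := exists_scales (p := (v0 : ℝ) + ε) hε1 (show (0 : ℝ) < v0 - u0 by linarith) i0
  have hyt : Tendsto (fun k => (((2 ^ φ k : ℕ) : ℝ))) atTop atTop :=
    tendsto_natCast_atTop_atTop.comp (tendsto_two_pow.comp hφ1.tendsto_atTop)
  have hres := le_dimH_of_scales (a := u0) (b := v0) (p := v0 + ε) (β := β) (ε := ε) hv2 hp
    (by linarith) (by linarith) (fun k => (((2 ^ φ k : ℕ) : ℝ)))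
    (fun k => by exact_mod_cast Nat.one_le_two_pow) hφ3 hφ4 hyt (fun k => FS S c1 (2 ^ φ k))
    (fun k w hw1 hw2 => hi0 (φ k) (hφ2 k) w hw1 hw2)
  have hsβ : s ≤ (β - ε) / (v0 + ε) := by
    rw [le_div_iff₀ hp]
    linarith
  refine (ENNReal.ofReal_le_ofReal hsβ).trans (hres.trans (dimH_mono ?_))
  rintro θ ⟨h4, h5, h6⟩
  refine ⟨exc_anti hc1.le (mem_exc_of_FS (by linarith [hu1.2.2]) fun a => ⟨φ a, hφ1.id_le a, h6 a⟩), ?_, ?_⟩
  · linarith [hu1.2.1]
  · linarith

/-- **All exponents above `c` are exceptional.** -/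
theorem Good.mem (hS : Good S) {c θ : ℝ} (hc : 0 < c) (hθ : 1 < θ) (hcθ : c < θ) : θ ∈ Exc S c := by
  obtain ⟨c1, hc1, hc2⟩ := exists_rat_btwn hcθ
  obtain ⟨u, hu1, hu2⟩ := exists_rat_btwn (show max (c1 : ℝ) 1 < θ from max_lt hc2 hθ)
  obtain ⟨v, hv1, _⟩ := exists_rat_btwn (show θ < θ + 1 by linarith)
  rw [max_lt_iff] at hu1
  have hu0 : (0 : ℝ) < u := by linarith [hu1.2]
  have hcu : (c1 : ℝ) / u < 1 := by
    rw [div_lt_one hu0]
    exact hu1.1
  obtain ⟨ε, hε1, hε2⟩ := exists_rat_btwn (show (0 : ℝ) < min ((1 - (c1 : ℝ) / u) / 2) ((u : ℝ) - 1) from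
    lt_min (by linarith) (by linarith [hu1.2]))
  rw [lt_min_iff] at hε2
  have h := hS.many c1 u v 1 ε (by linarith) hu1.2 (by linarith) hε1 (by push_cast; linarith) hε2.2.le
  refine exc_anti hc1.le (mem_exc_of_FS hθ fun a => ?_)
  obtain ⟨i, h1, h2⟩ := (h.and (eventually_ge_atTop a)).exists
  obtain ⟨J, hJ1, hJ2, hJ3⟩ := h1 θ hu2.le hv1.le
  have hJ : 1 ≤ J.card := by
    refine le_trans ?_ hJ3
    rw [Rat.cast_one, Real.rpow_one, Nat.ceil_natCast, Nat.div_self (by positivity)]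
  obtain ⟨n, hn⟩ := card_pos.1 (show 0 < J.card by omega)
  have hnJ := mem_Ico.1 (hJ1 hn)
  exact ⟨i, h2, n, hnJ.1, hnJ.2, hJ2 n hn⟩

/-- **The number of free windows**, for every exponent. -/
theorem Good.law (hS : Good S) {c θ : ℝ} (hc : 0 < c) (hθ : 1 < θ) :
    Tendsto (fun x : ℕ => Real.log (cnt S c θ x) / Real.log x) atTop (𝓝 (max 0 (1 - c / θ))) := by
  have hθ0 : 0 < θ := by linarith
  rw [Metric.tendsto_atTop']
  intro η hη
  obtain ⟨M, hM⟩ : ∃ M : ℝ, M = max 0 (1 - c / θ) := ⟨_, rfl⟩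
  have hM0 : 0 ≤ M := by rw [hM]; exact le_max_left _ _
  have hM1 : 1 - c / θ ≤ M := by rw [hM]; exact le_max_right _ _
  -- the upper bound
  have hup : ∀ᶠ x : ℕ in atTop, (cnt S c θ x : ℝ) ≤ (x : ℝ) ^ (M + η / 2) := by
    obtain ⟨σ, hσ1, hσ2⟩ := exists_rat_btwn (show M < M + η / 4 by linarith)
    have hcont : ContinuousAt (fun p : ℝ × ℝ => 1 - p.1 / p.2 - σ) (c, θ) := by
      have h2 : (c, θ).2 ≠ 0 := hθ0.ne'
      fun_prop (disch := assumption)
    have hneg : (fun p : ℝ × ℝ => 1 - p.1 / p.2 - σ) (c, θ) < 0 := by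
      show 1 - c / θ - σ < 0
      linarith
    have hev := hcont.eventually_lt_const hneg
    rw [Metric.eventually_nhds_iff] at hev
    obtain ⟨r, hr, hball⟩ := hev
    obtain ⟨c', hc1, hc2⟩ := exists_rat_btwn (show max (c - r) 0 < c from max_lt (by linarith) hc)
    obtain ⟨v, hv1, hv2⟩ := exists_rat_btwn (show θ < θ + r by linarith)
    obtain ⟨u, hu1, hu2⟩ := exists_rat_btwn hθ
    rw [max_lt_iff] at hc1
    have h3 : 1 - (c' : ℝ) / v - σ < 0 := by
      refine hball (y := ((c' : ℝ), (v : ℝ))) ?_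
      rw [Prod.dist_eq, max_lt_iff, Real.dist_eq, Real.dist_eq]
      simp only [abs_lt]
      refine ⟨⟨?_, ?_⟩, ⟨?_, ?_⟩⟩ <;> linarith [hc1.1]
    have h4 := hS.few c' u v σ hc1.2 hu1 (by linarith) (by linarith) (by linarith)
    have h5 := cnt_upper (S := S) (c := c') (θ := θ) (σ := σ) (η := η / 4) (by linarith) (by linarith) (by
      filter_upwards [h4] with i hi
      exact hi θ hu2.le hv1.le)
    filter_upwards [h5, eventually_ge_atTop 1] with x hx hx1
    have e1 : (cnt S c θ x : ℝ) ≤ (cnt S c' θ x : ℝ) := by exact_mod_cast cnt_anti hc2.le x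
    refine e1.trans (hx.trans ?_)
    exact Real.rpow_le_rpow_of_exponent_le (by exact_mod_cast hx1) (by linarith)
  -- the lower bound
  have hlow : ∀ᶠ x : ℕ in atTop, (M - η / 2) * Real.log x ≤ Real.log (cnt S c θ x) := by
    by_cases hcθ : c < θ
    · have hMe : M = 1 - c / θ := by
        rw [hM]
        apply max_eq_right
        have : c / θ < 1 := by rw [div_lt_one hθ0]; exact hcθ
        linarith
      have hc1 : c / θ < 1 := by rw [div_lt_one hθ0]; exact hcθ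
      have hcp : 0 < c / θ := by positivity
      obtain ⟨ρ, hρ1, hρ2⟩ := exists_rat_btwn (show c / θ < min 1 (c / θ + η / 4) from lt_min hc1 (by linarith))
      rw [lt_min_iff] at hρ2
      have hcont : ContinuousAt (fun p : ℝ × ℝ × ℝ => p.1 / p.2.1 + 2 * p.2.2 - ρ) (c, θ, 0) := by
        have h2 : (c, θ, (0 : ℝ)).2.1 ≠ 0 := hθ0.ne'
        fun_prop (disch := assumption)
      have hneg : (fun p : ℝ × ℝ × ℝ => p.1 / p.2.1 + 2 * p.2.2 - ρ) (c, θ, 0) < 0 := by
        show c / θ + 2 * 0 - ρ < 0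
        linarith
      have hev := hcont.eventually_lt_const hneg
      rw [Metric.eventually_nhds_iff] at hev
      obtain ⟨r, hr, hball⟩ := hev
      obtain ⟨c', hc1, hc2⟩ := exists_rat_btwn (show c < c + r by linarith)
      obtain ⟨u, hu1, hu2⟩ := exists_rat_btwn (show max (θ - r) 1 < θ from max_lt (by linarith) hθ)
      obtain ⟨v, hv1, hv2⟩ := exists_rat_btwn (show θ < θ + r by linarith)
      rw [max_lt_iff] at hu1
      obtain ⟨ε, hε1, hε2⟩ := exists_rat_btwn (show (0 : ℝ) < min r ((u : ℝ) - 1) from lt_min hr (by linarith [hu1.2]))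
      rw [lt_min_iff] at hε2
      have h3 : (c' : ℝ) / u + 2 * ε - ρ < 0 := by
        refine hball (y := ((c' : ℝ), (u : ℝ), (ε : ℝ))) ?_
        rw [Prod.dist_eq, Prod.dist_eq, max_lt_iff, max_lt_iff, Real.dist_eq, Real.dist_eq, Real.dist_eq]
        simp only [abs_lt]
        refine ⟨⟨?_, ?_⟩, ⟨?_, ?_⟩, ⟨?_, ?_⟩⟩ <;> linarith [hu1.1, hε2.1]
      have h4 := hS.many c' u v ρ ε (by linarith) hu1.2 (by linarith) hε1 (by linarith) hε2.2.le
      have h5 := cnt_lower (S := S) (c := c') (θ := θ) (ρ := ρ) (η := η / 4) (by linarith) hρ2.1 (by linarith) (by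
        filter_upwards [h4] with i hi
        exact hi θ hu2.le hv1.le)
      filter_upwards [h5, eventually_ge_atTop 1] with x hx hx1
      have hx0 : (0 : ℝ) < x := by exact_mod_cast hx1
      have e1 : (cnt S c' θ x : ℝ) ≤ (cnt S c θ x : ℝ) := by exact_mod_cast cnt_anti hc1.le x
      have e2 := Real.log_le_log (by positivity) (hx.trans e1)
      rw [Real.log_rpow hx0] at e2
      refine le_trans ?_ e2
      apply mul_le_mul_of_nonneg_right _ (Real.log_natCast_nonneg x)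
      rw [hMe]
      linarith
    · have hMe : M = 0 := by
        rw [hM]
        apply max_eq_left
        have : 1 ≤ c / θ := by rw [le_div_iff₀ hθ0]; linarith
        linarith
      filter_upwards with x
      have e1 : 0 ≤ Real.log (cnt S c θ x : ℝ) := Real.log_natCast_nonneg _
      have e2 : 0 ≤ Real.log (x : ℝ) := Real.log_natCast_nonneg _
      rw [hMe]
      nlinarith
  obtain ⟨x0, hx0⟩ := eventually_atTop.1 (hup.and (hlow.and (hl.eventually_ge_atTop 1)))
  refine ⟨x0, fun x hx => ?_⟩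
  obtain ⟨h1, h2, h3⟩ := hx0 x hx.le
  have hlx : 0 < Real.log (x : ℝ) := by linarith
  have hxpos : (0 : ℝ) < x := by
    by_contra hcon
    push Not at hcon
    have : (x : ℝ) = 0 := le_antisymm hcon (Nat.cast_nonneg x)
    rw [this, Real.log_zero] at h3
    linarith
  rw [← hM, Real.dist_eq, abs_lt]
  constructor
  · have : M - η / 2 ≤ Real.log (cnt S c θ x) / Real.log x := by
      rw [le_div_iff₀ hlx]
      exact h2
    linarith
  · have e1 : Real.log (cnt S c θ x) ≤ (M + η / 2) * Real.log x := by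
      rcases Nat.eq_zero_or_pos (cnt S c θ x) with h | h
      · rw [h, Nat.cast_zero, Real.log_zero]
        positivity
      · have e2 := Real.log_le_log (show (0 : ℝ) < cnt S c θ x by exact_mod_cast h) h1
        rwa [Real.log_rpow hxpos] at e2
    have : Real.log (cnt S c θ x) / Real.log x ≤ M + η / 2 := by
      rw [div_le_iff₀ hlx]
      exact e1
    linarith

/-- **Almost every exponent below `c` is not exceptional.** -/
theorem Good.null (hS : Good S) {c : ℝ} (hc : 0 < c) : volume (Exc S c ∩ Set.Iio c) = 0 := by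
  by_cases hc1 : c ≤ 1
  · have : Exc S c ∩ Set.Iio c = ∅ := by
      rw [Set.eq_empty_iff_forall_notMem]
      rintro θ ⟨h1, h2⟩
      have := h1.1
      rw [Set.mem_Iio] at h2
      linarith
    rw [this, measure_empty]
  · push Not at hc1
    have hsub : Exc S c ∩ Set.Iio c ⊆ ⋃ k : ℕ, (Exc S c ∩ Set.Ioo 0 (c - (c - √c) / (k + 2))) := by
      rintro θ ⟨h1, h2⟩
      rw [Set.mem_Iio] at h2
      rw [Set.mem_iUnion]
      obtain ⟨k, hk⟩ := exists_nat_gt ((c - √c) / (c - θ))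
      refine ⟨k, h1, by linarith [h1.1], ?_⟩
      have h3 : 0 < c - θ := by linarith
      rw [div_lt_iff₀ h3] at hk
      have h4 : (c - √c) / (k + 2) < c - θ := by
        rw [div_lt_iff₀ (by positivity)]
        nlinarith
      linarith
    refine measure_mono_null hsub (measure_iUnion_null fun k => ?_)
    obtain ⟨v, hv⟩ : ∃ v : ℝ, v = c - (c - √c) / (k + 2) := ⟨_, rfl⟩
    rw [← hv]
    have hsc : √c < c := by
      rw [Real.sqrt_lt' (by linarith)]
      nlinarith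
    have hsc1 : 1 < √c := by
      rw [Real.lt_sqrt (by norm_num)]
      linarith
    have hk0 : (0 : ℝ) ≤ k := Nat.cast_nonneg k
    have h1 : 0 < (c - √c) / (k + 2) := by
      apply div_pos (by linarith) (by positivity)
    have h2 : (c - √c) / (k + 2) < c - √c := by
      rw [div_lt_iff₀ (by positivity)]
      nlinarith
    have hvs : √c < v := by linarith
    have hvc : v < c := by linarith
    have hcv : c < v ^ 2 := by
      have := Real.sq_sqrt hc.le
      nlinarith [Real.sqrt_nonneg c]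
    have hd := hS.dim_le hc (by linarith) hvc.le hcv 0
    have hlt : dimH (Exc S c ∩ Set.Ioo 0 v) < 1 := by
      refine lt_of_le_of_lt hd ?_
      rw [← ENNReal.ofReal_one]
      rw [ENNReal.ofReal_lt_ofReal_iff one_pos]
      have hv0 : 0 < v := by linarith
      have : 1 / v < c / v ^ 2 := by
        rw [div_lt_div_iff₀ hv0 (by positivity)]
        nlinarith
      linarith
    have h3 := hausdorffMeasure_of_dimH_lt (d := 1) (by simpa using hlt)
    rw [NNReal.coe_one, hausdorffMeasure_real] at h3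
    exact h3

end Pool.Agent.Q166.Ex
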