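import Mathlib

/-!
The polynomials `G N` with `A_{N+1}(t) = (1 - t)^N G_N((1 + t)/(1 - t))` (`A_n` the Eulerian
polynomials), their alternation on `[0, 1)`, and the real-rootedness of `G N ± 1`.
-/

set_option autoImplicit false

namespace Q166.ExcRoots

open Polynomial

/-- `G_{N+1} = w G_N - (1/2) (1 - w^2) G_N'` -/
noncomputable def G : ℕ → ℝ[X]
  | 0 => 1
  | (N + 1) => X * G N - C (1 / 2) * ((1 - X ^ 2) * derivative (G N))

theorem G_succ (N : ℕ) : G (N + 1) = X * G N - C (1 / 2) * ((1 - X ^ 2) * derivative (G N)) := rfl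

theorem coeff_X_mul_derivative (p : ℝ[X]) (k : ℕ) :
    (X * derivative p).coeff k = k * p.coeff k := by
  cases k with
  | zero => simp
  | succ k => rw [coeff_X_mul, coeff_derivative]; push_cast; ring

theorem G_coeff_zero (N : ℕ) : (G (N + 1)).coeff 0 = -(1 / 2) * (G N).coeff 1 := by
  rw [G_succ, coeff_sub, coeff_C_mul]
  rw [show (1 - X ^ 2) * derivative (G N) = derivative (G N) - X * (X * derivative (G N)) by ring]
  rw [coeff_sub]
  simp [coeff_derivative]

theorem G_coeff_succ (N i : ℕ) : (G (N + 1)).coeff (i + 1) =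
    ((i : ℝ) + 2) / 2 * ((G N).coeff i - (G N).coeff (i + 2)) := by
  rw [G_succ, coeff_sub, coeff_C_mul]
  rw [show (1 - X ^ 2) * derivative (G N) = derivative (G N) - X * (X * derivative (G N)) by ring]
  rw [coeff_sub, coeff_X_mul, coeff_X_mul, coeff_X_mul_derivative, coeff_derivative]
  push_cast; ring

theorem G_coeff_big (N : ℕ) : ∀ i, N < i → (G N).coeff i = 0 := by
  induction N with
  | zero =>
    intro i hi
    rw [show G 0 = 1 from rfl, coeff_one, if_neg (by omega)]
  | succ N ih =>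
    intro i hi
    obtain ⟨j, rfl⟩ : ∃ j, i = j + 1 := ⟨i - 1, by omega⟩
    rw [G_coeff_succ, ih j (by omega), ih (j + 2) (by omega)]; ring

theorem G_natDegree (N : ℕ) : (G N).natDegree ≤ N := by
  rw [natDegree_le_iff_coeff_eq_zero]
  intro i hi
  exact G_coeff_big N i hi

theorem G_one (N : ℕ) : (G N).eval 1 = 1 := by
  induction N with
  | zero => rw [show G 0 = 1 from rfl]; simp
  | succ N ih => rw [G_succ]; simp [ih]

theorem G_comp_neg (N : ℕ) : (G N).comp (-X) = (-1) ^ N * G N := by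
  induction N with
  | zero => rw [show G 0 = 1 from rfl]; simp
  | succ N ih =>
    have h1 : derivative ((G N).comp (-X)) = -(derivative (G N)).comp (-X) := by
      rw [derivative_comp]; simp
    have h2 : (derivative (G N)).comp (-X) = -((-1) ^ N * derivative (G N)) := by
      have h3 : derivative ((G N).comp (-X)) = (-1) ^ N * derivative (G N) := by
        rw [ih]
        rw [show ((-1 : ℝ[X]) ^ N) = C ((-1) ^ N) by simp, derivative_C_mul]
      rw [h1] at h3
      linear_combination -h3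
    rw [G_succ]
    simp only [sub_comp, mul_comp, X_comp, C_comp, one_comp, pow_comp]
    rw [ih, h2]
    ring

theorem G_neg (N : ℕ) (x : ℝ) : (G N).eval (-x) = (-1) ^ N * (G N).eval x := by
  have h := congrArg (fun p : ℝ[X] => p.eval x) (G_comp_neg N)
  simpa [eval_comp] using h

/-! ### the central value -/

/-- the absolute values of the even coefficients of `G (2 k)` -/
noncomputable def e : ℕ → ℕ → ℝ
  | 0, i => if i = 0 then 1 else 0
  | (k + 1), 0 => 1 / 2 * (e k 0 + e k 1)
  | (k + 1), (i + 1) => (2 * (i : ℝ) + 3) / 2 * (((i : ℝ) + 1) * e k i +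
      (2 * (i : ℝ) + 3) * e k (i + 1) + ((i : ℝ) + 2) * e k (i + 2))

theorem e_nonneg (k : ℕ) : ∀ i, 0 ≤ e k i := by
  induction k with
  | zero => intro i; unfold e; split_ifs <;> norm_num
  | succ k ih =>
    intro i
    cases i with
    | zero => unfold e; have := ih 0; have := ih 1; positivity
    | succ i =>
      unfold e
      have := ih i; have := ih (i + 1); have := ih (i + 2)
      positivity

theorem G_even_coeff (k : ℕ) : ∀ i, (G (2 * k)).coeff (2 * i) = (-1) ^ (k + i) * e k i := by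
  induction k with
  | zero =>
    intro i
    rw [show G (2 * 0) = 1 from rfl, coeff_one]
    unfold e
    by_cases h : i = 0
    · subst h; simp
    · rw [if_neg (by omega), if_neg h]; simp
  | succ k ih =>
    intro i
    rw [show 2 * (k + 1) = (2 * k + 1) + 1 by ring]
    cases i with
    | zero =>
      have h0 := ih 0
      have h1 := ih 1
      have h2 := G_coeff_succ (2 * k) 0
      rw [Nat.mul_zero, add_zero] at h0
      rw [Nat.mul_one] at h1
      simp only [Nat.cast_zero, zero_add] at h2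
      rw [Nat.mul_zero, G_coeff_zero, h2, h0, h1,
        show e (k + 1) 0 = 1 / 2 * (e k 0 + e k 1) by rfl, add_zero, pow_succ]
      ring
    | succ i =>
      rw [show 2 * (i + 1) = (2 * i + 1) + 1 by ring, G_coeff_succ, G_coeff_succ,
        show 2 * i + 1 + 2 = (2 * i + 2) + 1 by ring, G_coeff_succ,
        show 2 * i + 2 = 2 * (i + 1) by ring, show 2 * (i + 1) + 2 = 2 * (i + 2) by ring, ih, ih, ih]
      rw [show e (k + 1) (i + 1) = (2 * (i : ℝ) + 3) / 2 * (((i : ℝ) + 1) * e k i +
        (2 * (i : ℝ) + 3) * e k (i + 1) + ((i : ℝ) + 2) * e k (i + 2)) by rfl]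
      rw [show k + (i + 1) = (k + i) + 1 by ring, show k + (i + 2) = (k + i) + 2 by ring,
        show k + 1 + (i + 1) = (k + i) + 2 by ring, pow_succ, pow_add]
      push_cast
      ring

theorem e_big (k : ℕ) (hk : 3 ≤ k) : 4 ≤ e k 0 ∧ 4 ≤ e k 1 := by
  induction k, hk using Nat.le_induction with
  | base =>
    constructor
    · norm_num [e]
    · norm_num [e]
  | succ k hk ih =>
    have h2 := e_nonneg k 2
    constructor
    · rw [show e (k + 1) 0 = 1 / 2 * (e k 0 + e k 1) by rfl]
      linarith [ih.1, ih.2]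
    · rw [show e (k + 1) 1 = (2 * ((0 : ℕ) : ℝ) + 3) / 2 * ((((0 : ℕ) : ℝ) + 1) * e k 0 +
        (2 * ((0 : ℕ) : ℝ) + 3) * e k (0 + 1) + (((0 : ℕ) : ℝ) + 2) * e k (0 + 2)) by rfl]
      simp only [Nat.cast_zero, zero_add, mul_zero]
      nlinarith [ih.1, ih.2]

theorem G_center (k : ℕ) (hk : 3 ≤ k) : 4 ≤ (-1) ^ k * (G (2 * k)).eval 0 := by
  have h := G_even_coeff k 0
  rw [Nat.mul_zero, coeff_zero_eq_eval_zero, add_zero] at h
  rw [h, ← mul_assoc, ← mul_pow]
  norm_num
  exact (e_big k hk).1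

/-! ### alternation -/

/-- `m` alternation points in `[0, 1)` with the weight `4/(1 + w)^2` -/
def Alt (N m : ℕ) (w : ℕ → ℝ) : Prop :=
  (∀ j, j < m → 0 ≤ w j ∧ w j < 1) ∧ (∀ j, j + 1 < m → w (j + 1) < w j) ∧
    ∀ j, j < m → 4 ≤ (-1) ^ (j + 1) * (G N).eval (w j) * (1 + w j) ^ 2

theorem deriv_aux (N : ℕ) : derivative ((1 - X ^ 2) * G N) = -2 * G (N + 1) := by
  rw [G_succ, derivative_mul]
  simp only [derivative_sub, derivative_one, derivative_X_pow, Nat.cast_ofNat, zero_sub]
  have h : (2 : ℝ[X]) * C (1 / 2) = 1 := by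
    rw [show (2 : ℝ[X]) = C 2 by rfl, ← C_mul]; norm_num
  rw [show -(2 : ℝ[X]) * (X * G N - C (1 / 2) * ((1 - X ^ 2) * derivative (G N))) =
    -(2 * X * G N) + (2 * C (1 / 2)) * ((1 - X ^ 2) * derivative (G N)) by ring, h]
  rw [show (C (2 : ℝ) : ℝ[X]) = 2 from rfl, show (2 - 1 : ℕ) = 1 from rfl, pow_one, one_mul]
  ring

/-- the auxiliary function -/
noncomputable def Phi (N : ℕ) (s : ℝ) (w : ℝ) : ℝ :=
  s * ((1 - X ^ 2) * G N).eval w + (8 / (1 + w) - 4)

theorem Phi_deriv (N : ℕ) (s w : ℝ) (hw : 0 ≤ w) :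
    HasDerivAt (Phi N s) (s * (-2 * (G (N + 1)).eval w) - 8 / (1 + w) ^ 2) w := by
  have h1 : HasDerivAt (fun w => ((1 - X ^ 2) * G N).eval w)
      (-2 * (G (N + 1)).eval w) w := by
    have := ((1 - X ^ 2) * G N).hasDerivAt w
    rw [deriv_aux] at this
    simpa using this
  have h2 : HasDerivAt (fun w : ℝ => 8 / (1 + w)) (-(8 / (1 + w) ^ 2)) w := by
    have h3 : HasDerivAt (fun w : ℝ => 1 + w) 1 w := by
      simpa using (hasDerivAt_id w).const_add 1
    have h4 := (h3.inv (by positivity : (1 : ℝ) + w ≠ 0)).const_mul 8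
    have e1 : (fun w : ℝ => 8 / (1 + w)) = fun w : ℝ => 8 * (1 + w)⁻¹ := by
      ext x; rw [div_eq_mul_inv]
    rw [e1]
    refine h4.congr_deriv ?_
    ring
  have h5 := (h1.const_mul s).add (h2.sub_const 4)
  exact h5

theorem Phi_neg (N : ℕ) (s a : ℝ) (ha : 0 ≤ a) (ha1 : a < 1)
    (h : 4 ≤ -s * (G N).eval a * (1 + a) ^ 2) : Phi N s a ≤ 0 := by
  unfold Phi
  rw [eval_mul]
  simp only [eval_sub, eval_one, eval_pow, eval_X]
  have h1 : (0 : ℝ) < 1 + a := by linarith
  have h2 : 4 / (1 + a) ^ 2 ≤ -s * (G N).eval a := by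
    rw [div_le_iff₀ (by positivity)]; exact h
  have h3 : (1 - a ^ 2) * (4 / (1 + a) ^ 2) ≤ (1 - a ^ 2) * (-s * (G N).eval a) :=
    mul_le_mul_of_nonneg_left h2 (by nlinarith)
  have h4 : (1 - a ^ 2) * (4 / (1 + a) ^ 2) = 8 / (1 + a) - 4 := by
    field_simp; ring
  nlinarith

theorem Phi_pos (N : ℕ) (s b : ℝ) (hb : 0 ≤ b) (hb1 : b < 1)
    (h : 0 < s * (G N).eval b) : 0 < Phi N s b := by
  unfold Phi
  rw [eval_mul]
  simp only [eval_sub, eval_one, eval_pow, eval_X]
  have h1 : (0 : ℝ) < 1 + b := by linarith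
  have h2 : 0 < 8 / (1 + b) - 4 := by
    rw [sub_pos, lt_div_iff₀ h1]; linarith
  have h3 : 0 < (1 - b ^ 2) * (s * (G N).eval b) := mul_pos (by nlinarith) h
  nlinarith

theorem step_core (N : ℕ) (s a b : ℝ) (ha : 0 ≤ a) (hab : a < b) (h1 : Phi N s a ≤ 0)
    (h2 : 0 < Phi N s b) : ∃ x, a < x ∧ x < b ∧
      4 ≤ -s * (G (N + 1)).eval x * (1 + x) ^ 2 := by
  obtain ⟨x, hx, hx2⟩ := exists_hasDerivAt_eq_slope (Phi N s)
    (fun w => s * (-2 * (G (N + 1)).eval w) - 8 / (1 + w) ^ 2) hab
    (fun w hw => (Phi_deriv N s w (by linarith [hw.1])).continuousAt.continuousWithinAt)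
    (fun w hw => Phi_deriv N s w (by linarith [hw.1]))
  refine ⟨x, hx.1, hx.2, ?_⟩
  have h3 : 0 < (Phi N s b - Phi N s a) / (b - a) := by
    apply div_pos <;> linarith
  rw [← hx2] at h3
  have h4 : (0 : ℝ) < 1 + x := by linarith [hx.1]
  have h5 : 8 / (1 + x) ^ 2 < s * (-2 * (G (N + 1)).eval x) := by linarith
  rw [div_lt_iff₀ (by positivity)] at h5
  nlinarith

theorem near_one (N : ℕ) (a : ℝ) (ha : 0 ≤ a) (ha1 : a < 1) : ∃ b, a < b ∧ b < 1 ∧
    0 < Phi N 1 b := by
  have hc : ContinuousAt (fun x : ℝ => (G N).eval x) 1 := (G N).continuous.continuousAt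
  have h1 : ∀ᶠ x in nhds (1 : ℝ), 0 < (G N).eval x := by
    apply hc.eventually (lt_mem_nhds (a := (0 : ℝ)) _)
    show (0 : ℝ) < (G N).eval 1
    rw [G_one]; norm_num
  rw [Metric.eventually_nhds_iff] at h1
  obtain ⟨δ, hδ, h2⟩ := h1
  refine ⟨max ((a + 1) / 2) (1 - δ / 2), ?_, ?_, ?_⟩
  · exact lt_max_of_lt_left (by linarith)
  · exact max_lt (by linarith) (by linarith)
  · apply Phi_pos
    · exact le_max_of_le_left (by linarith)
    · exact max_lt (by linarith) (by linarith)
    · rw [one_mul]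
      apply h2
      rw [Real.dist_eq, abs_lt]
      constructor
      · have := le_max_right ((a + 1) / 2) (1 - δ / 2)
        linarith
      · have : max ((a + 1) / 2) (1 - δ / 2) < 1 := max_lt (by linarith) (by linarith)
        linarith

theorem step (N m : ℕ) (w : ℕ → ℝ) (h : Alt N m w) : ∃ w' : ℕ → ℝ, Alt (N + 1) m w' ∧
    ∀ j, j < m → w j < w' j := by
  obtain ⟨h1, h2, h3⟩ := h
  have key : ∀ j, ∃ x : ℝ, j < m → w j < x ∧ x < 1 ∧ (0 < j → x < w (j - 1)) ∧
      4 ≤ (-1) ^ (j + 1) * (G (N + 1)).eval x * (1 + x) ^ 2 := by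
    intro j
    by_cases hj : j < m
    swap
    · exact ⟨0, fun h => absurd h hj⟩
    have hs : ∀ y : ℝ, (-1 : ℝ) ^ (j + 1) * y = -(-1) ^ j * y := by
      intro y; rw [pow_succ]; ring
    have hP : Phi N ((-1) ^ j) (w j) ≤ 0 := by
      apply Phi_neg _ _ _ (h1 j hj).1 (h1 j hj).2
      have := h3 j hj
      rwa [hs] at this
    rcases Nat.eq_zero_or_pos j with h0 | h0
    · subst h0
      obtain ⟨b, hb1, hb2, hb3⟩ := near_one N (w 0) (h1 0 hj).1 (h1 0 hj).2
      obtain ⟨x, hx1, hx2, hx3⟩ := step_core N ((-1) ^ 0) (w 0) b (h1 0 hj).1 hb1 hP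
        (by rw [pow_zero]; exact hb3)
      exact ⟨x, fun _ => ⟨hx1, by linarith, fun h => absurd h (lt_irrefl 0), by
        rw [hs]; exact hx3⟩⟩
    · obtain ⟨i, rfl⟩ : ∃ i, j = i + 1 := ⟨j - 1, by omega⟩
      have hi : i < m := by omega
      have hQ : 0 < Phi N ((-1) ^ (i + 1)) (w i) := by
        apply Phi_pos _ _ _ (h1 i hi).1 (h1 i hi).2
        have h4 := h3 i hi
        have h5 : (0 : ℝ) < (1 + w i) ^ 2 := by
          have := (h1 i hi).1
          positivity
        by_contra hc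
        push Not at hc
        have : (-1) ^ (i + 1) * (G N).eval (w i) * (1 + w i) ^ 2 ≤ 0 :=
          mul_nonpos_of_nonpos_of_nonneg hc h5.le
        linarith
      obtain ⟨x, hx1, hx2, hx3⟩ := step_core N ((-1) ^ (i + 1)) (w (i + 1)) (w i)
        (h1 (i + 1) hj).1 (h2 i hj) hP hQ
      exact ⟨x, fun _ => ⟨hx1, by linarith [(h1 i hi).2], fun _ => by
        rw [show i + 1 - 1 = i by omega]; exact hx2, by rw [hs]; exact hx3⟩⟩
  choose w' hw' using key
  refine ⟨w', ⟨?_, ?_, ?_⟩, fun j hj => (hw' j hj).1⟩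
  · intro j hj
    exact ⟨by linarith [(hw' j hj).1, (h1 j hj).1], (hw' j hj).2.1⟩
  · intro j hj
    have a1 := (hw' (j + 1) hj).2.2.1 (by omega)
    rw [show j + 1 - 1 = j by omega] at a1
    exact a1.trans (hw' j (by omega)).1
  · intro j hj
    exact (hw' j hj).2.2.2

theorem G6 : G 6 = C (315 / 4) * X ^ 6 - C (525 / 4) * X ^ 4 + C (231 / 4) * X ^ 2 - C (17 / 4) := by
  have h : ∀ i, (G 6).coeff i = (C (315 / 4 : ℝ) * X ^ 6 - C (525 / 4) * X ^ 4 +
      C (231 / 4) * X ^ 2 - C (17 / 4)).coeff i := by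
    intro i
    rcases Nat.lt_or_ge 6 i with hi | hi
    · rw [G_coeff_big 6 i hi]
      simp only [coeff_sub, coeff_add, coeff_C_mul, coeff_X_pow, coeff_C]
      rw [if_neg (by omega), if_neg (by omega), if_neg (by omega), if_neg (by omega)]
      ring
    · interval_cases i <;>
        simp [G_coeff_zero, G_coeff_succ, show G 0 = 1 from rfl, coeff_one, coeff_X_pow, coeff_C] <;>
        norm_num
  exact Polynomial.ext h

theorem base6 : Alt 6 3 (fun j => if j = 0 then 9 / 10 else if j = 1 then 11 / 20 else 0) := by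
  refine ⟨?_, ?_, ?_⟩
  · intro j hj
    interval_cases j <;> norm_num
  · intro j hj
    have : j < 2 := by omega
    interval_cases j <;> norm_num
  · intro j hj
    rw [G6]
    interval_cases j <;> norm_num

theorem main_alt (k : ℕ) (hk : 3 ≤ k) : (∃ w, Alt (2 * k) k w) ∧ (∃ w, Alt (2 * k + 1) k w) := by
  have odd_of_even : ∀ k, (∃ w, Alt (2 * k) k w) → (∃ w, Alt (2 * k + 1) k w) := by
    rintro k ⟨w, hw⟩
    obtain ⟨w', h1, _⟩ := step _ _ _ hw
    exact ⟨w', h1⟩
  suffices ∃ w, Alt (2 * k) k w from ⟨this, odd_of_even k this⟩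
  induction k, hk using Nat.le_induction with
  | base => exact ⟨_, base6⟩
  | succ k hk ih =>
    obtain ⟨w, hw⟩ := odd_of_even k ih
    obtain ⟨w', ⟨h1, h2, h3⟩, h4⟩ := step _ _ _ hw
    have hpos : ∀ j, j < k → 0 < w' j := fun j hj => lt_of_le_of_lt (hw.1 j hj).1 (h4 j hj)
    refine ⟨fun j => if j < k then w' j else 0, ?_, ?_, ?_⟩
    · intro j hj
      by_cases h : j < k
      · simp only [h, if_true]; exact h1 j h
      · simp only [h, if_false]; norm_num
    · intro j hj
      by_cases h : j + 1 < k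
      · simp only [h, if_true, show j < k by omega]; exact h2 j h
      · simp only [h, if_false, show j < k by omega, if_true]
        exact hpos j (by omega)
    · intro j hj
      by_cases h : j < k
      · simp only [h, if_true]
        exact h3 j h
      · have : j = k := by omega
        subst this
        simp only [h, if_false]
        have := G_center (j + 1) (by omega)
        norm_num
        exact this

/-! ### counting roots -/

theorem roots_right (N m : ℕ) (w : ℕ → ℝ) (h1 : ∀ j, j < m → 0 ≤ w j ∧ w j < 1)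
    (h2 : ∀ j, j + 1 < m → w (j + 1) < w j)
    (h3 : ∀ j, j < m → 1 < (-1) ^ (j + 1) * (G N).eval (w j)) (ε : ℝ) (hε : |ε| = 1) :
    ∃ S : Finset ℝ, S.card = m ∧ ∀ x ∈ S, 0 < x ∧ (G N).eval x + ε = 0 := by
  have hmono : ∀ i j, i < j → j < m → w j < w i := by
    intro i j hij
    induction j, hij using Nat.le_induction with
    | base => intro hj; exact h2 i hj
    | succ j hij ih => intro hj; exact (h2 j hj).trans (ih (by omega))
  have hb := abs_le.1 hε.le
  have key : ∀ j, ∃ x : ℝ, j < m → w j < x ∧ (0 < j → x < w (j - 1)) ∧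
      (G N).eval x + ε = 0 := by
    intro j
    by_cases hj : j < m
    swap
    · exact ⟨0, fun h => absurd h hj⟩
    have hcont : ∀ a b : ℝ, ContinuousOn (fun x : ℝ => (-1) ^ j * ((G N).eval x + ε))
        (Set.Icc a b) := by
      intro a b
      apply Continuous.continuousOn
      exact continuous_const.mul ((G N).continuous.add continuous_const)
    have hsq : ((-1 : ℝ) ^ j) * (-1) ^ j = 1 := by rw [← mul_pow]; norm_num
    have habs : |(-1 : ℝ) ^ j * ε| = 1 := by rw [abs_mul, hε, abs_pow]; simp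
    have hb2 := abs_le.1 habs.le
    have hleft : (-1) ^ j * ((G N).eval (w j) + ε) < 0 := by
      have := h3 j hj
      rw [pow_succ] at this
      nlinarith
    have conv : ∀ x : ℝ, (-1) ^ j * ((G N).eval x + ε) = 0 → (G N).eval x + ε = 0 := by
      intro x hx
      rcases mul_eq_zero.1 hx with h | h
      · rw [h] at hsq; norm_num at hsq
      · exact h
    rcases Nat.eq_zero_or_pos j with h0 | h0
    · subst h0
      have hright : 0 ≤ (-1) ^ 0 * ((G N).eval 1 + ε) := by
        rw [G_one]; norm_num; linarith [hb.1]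
      obtain ⟨x, hx1, hx2⟩ := intermediate_value_Icc (h1 0 hj).2.le (hcont (w 0) 1)
        ⟨hleft.le, hright⟩
      refine ⟨x, fun _ => ⟨?_, fun h => absurd h (lt_irrefl 0), conv x hx2⟩⟩
      rcases hx1.1.eq_or_lt with h | h
      · rw [← h] at hx2
        simp only at hx2
        rw [hx2] at hleft
        exact absurd hleft (lt_irrefl _)
      · exact h
    · obtain ⟨i, rfl⟩ : ∃ i, j = i + 1 := ⟨j - 1, by omega⟩
      have hright : 0 < (-1) ^ (i + 1) * ((G N).eval (w i) + ε) := by
        have := h3 i (by omega)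
        nlinarith
      obtain ⟨x, hx1, hx2⟩ := intermediate_value_Icc (h2 i hj).le (hcont (w (i + 1)) (w i))
        ⟨hleft.le, hright.le⟩
      refine ⟨x, fun _ => ⟨?_, fun _ => ?_, conv x hx2⟩⟩
      · rcases hx1.1.eq_or_lt with h | h
        · rw [← h] at hx2
          simp only at hx2
          rw [hx2] at hleft
          exact absurd hleft (lt_irrefl _)
        · exact h
      · rw [show i + 1 - 1 = i by omega]
        rcases hx1.2.eq_or_lt with h | h
        · rw [h] at hx2
          simp only at hx2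
          rw [hx2] at hright
          exact absurd hright (lt_irrefl _)
        · exact h
  choose r hr using key
  have hlt : ∀ i j, i < j → j < m → r j < r i := by
    intro i j hij hj
    have a1 := (hr j hj).2.1 (by omega)
    have a2 := (hr i (by omega)).1
    rcases Nat.eq_or_lt_of_le (show i + 1 ≤ j from hij) with h | h
    · subst h
      rw [show i + 1 - 1 = i by omega] at a1
      linarith
    · have a3 := hmono i (j - 1) (by omega) (by omega)
      linarith
  refine ⟨(Finset.range m).image r, ?_, ?_⟩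
  · rw [Finset.card_image_of_injOn, Finset.card_range]
    intro i hi j hj hij
    rw [Finset.coe_range, Set.mem_Iio] at hi hj
    by_contra hne
    rcases Nat.lt_or_gt_of_ne hne with h | h
    · have := hlt i j h hj; rw [hij] at this; exact lt_irrefl _ this
    · have := hlt j i h hi; rw [hij] at this; exact lt_irrefl _ this
  · intro x hx
    rw [Finset.mem_image] at hx
    obtain ⟨j, hj, rfl⟩ := hx
    rw [Finset.mem_range] at hj
    exact ⟨lt_of_le_of_lt (h1 j hj).1 (hr j hj).1, (hr j hj).2.2⟩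

theorem all_real (p : ℝ[X]) (hp : p ≠ 0) (S : Finset ℝ) (hS : ∀ x ∈ S, p.eval x = 0)
    (hc : p.natDegree ≤ S.card + 1) (z : ℂ) (hz : aeval z p = 0) : z.im = 0 := by
  obtain ⟨q, hq1, hq2, hq3⟩ := exists_prod_multiset_X_sub_C_mul p
  have h1 : S.card ≤ p.roots.card := by
    have : S ⊆ p.roots.toFinset := by
      intro x hx
      rw [Multiset.mem_toFinset, mem_roots hp]
      exact hS x hx
    exact (Finset.card_le_card this).trans (Multiset.toFinset_card_le _)
  have hq0 : q ≠ 0 := by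
    rintro rfl
    rw [mul_zero] at hq1
    exact hp hq1.symm
  have h2 : q.natDegree = 0 := by
    by_contra h
    have h3 : q.natDegree = 1 := by omega
    have h4 : q.degree = 1 := by rw [degree_eq_natDegree hq0, h3]; rfl
    obtain ⟨x, hx⟩ := exists_root_of_degree_eq_one h4
    have h5 : x ∈ q.roots := (mem_roots hq0).2 hx
    rw [hq3] at h5
    exact absurd h5 (Multiset.notMem_zero x)
  obtain ⟨c, hc⟩ : ∃ c, q = C c := ⟨_, eq_C_of_natDegree_eq_zero h2⟩
  rw [← hq1, map_mul] at hz
  rcases mul_eq_zero.1 hz with h | h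
  · rw [map_multiset_prod, Multiset.prod_eq_zero_iff, Multiset.map_map, Multiset.mem_map] at h
    obtain ⟨a, _, ha⟩ := h
    simp only [Function.comp_apply, map_sub, aeval_X, aeval_C, sub_eq_zero] at ha
    rw [ha]
    exact Complex.ofReal_im a
  · rw [hc, aeval_C] at h
    have hc0 : c = 0 := by
      have : ((c : ℝ) : ℂ) = 0 := h
      exact_mod_cast this
    rw [hc0, C_0] at hc
    exact absurd hc hq0

theorem G5 : G 5 = C (45 / 2) * X ^ 5 - C 30 * X ^ 3 + C (17 / 2) * X := by
  have h : ∀ i, (G 5).coeff i = (C (45 / 2 : ℝ) * X ^ 5 - C 30 * X ^ 3 + C (17 / 2) * X).coeff i := by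
    intro i
    rcases Nat.lt_or_ge 5 i with hi | hi
    · rw [G_coeff_big 5 i hi]
      simp only [coeff_sub, coeff_add, coeff_C_mul, coeff_X_pow, coeff_X]
      rw [if_neg (by omega), if_neg (by omega), if_neg (by omega)]
      ring
    · interval_cases i <;>
        simp [G_coeff_zero, G_coeff_succ, show G 0 = 1 from rfl, coeff_one, coeff_X_pow, coeff_X] <;>
        norm_num
  exact Polynomial.ext h

/-- weak alternation for `N ≥ 5` -/
theorem weak_alt (N : ℕ) (hN : 5 ≤ N) : ∃ (m : ℕ) (w : ℕ → ℝ), N ≤ 2 * m + 1 ∧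
    (∀ j, j < m → 0 ≤ w j ∧ w j < 1) ∧ (∀ j, j + 1 < m → w (j + 1) < w j) ∧
      (∀ j, j < m → 1 < (-1) ^ (j + 1) * (G N).eval (w j)) ∧ 0 < m := by
  have conv : ∀ N m w, Alt N m w → ∀ j, j < m → 1 < (-1) ^ (j + 1) * (G N).eval (w j) := by
    rintro N m w ⟨h1, _, h3⟩ j hj
    have a1 := h1 j hj
    have a3 := h3 j hj
    have a4 : (0 : ℝ) < (1 + w j) ^ 2 := by have := a1.1; positivity
    have a5 : (1 + w j) ^ 2 < 4 := by nlinarith [a1.1, a1.2]
    by_contra hc
    push Not at hc
    have : (-1) ^ (j + 1) * (G N).eval (w j) * (1 + w j) ^ 2 ≤ 1 * (1 + w j) ^ 2 :=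
      mul_le_mul_of_nonneg_right hc a4.le
    linarith
  rcases Nat.eq_or_lt_of_le hN with h | h
  · subst h
    refine ⟨2, fun j => if j = 0 then 83 / 100 else 33 / 100, by norm_num, ?_, ?_, ?_, by norm_num⟩
    · intro j hj; interval_cases j <;> norm_num
    · intro j hj
      have : j < 1 := by omega
      interval_cases j; norm_num
    · intro j hj
      rw [G5]
      interval_cases j <;> norm_num
  · obtain ⟨k, hk⟩ := Nat.even_or_odd' N
    rcases hk with hk | hk
    · obtain ⟨w, hw⟩ := (main_alt k (by omega)).1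
      rw [← hk] at hw
      exact ⟨k, w, by omega, hw.1, hw.2.1, conv _ _ _ hw, by omega⟩
    · obtain ⟨w, hw⟩ := (main_alt k (by omega)).2
      rw [← hk] at hw
      exact ⟨k, w, by omega, hw.1, hw.2.1, conv _ _ _ hw, by omega⟩

/-- for `N ≥ 5` and `ε = ±1` all roots of `G N + ε` are real -/
theorem G_real (N : ℕ) (hN : 5 ≤ N) (ε : ℝ) (hε : |ε| = 1) (z : ℂ)
    (hz : aeval z (G N + C ε) = 0) : z.im = 0 := by
  obtain ⟨m, w, hm, h1, h2, h3, hm0⟩ := weak_alt N hN
  obtain ⟨S, hS1, hS2⟩ := roots_right N m w h1 h2 h3 ε hε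
  have hε2 : |(-1 : ℝ) ^ N * ε| = 1 := by rw [abs_mul, hε, abs_pow]; simp
  obtain ⟨T, hT1, hT2⟩ := roots_right N m w h1 h2 h3 ((-1) ^ N * ε) hε2
  have hb := abs_le.1 hε.le
  have hp : G N + C ε ≠ 0 := by
    intro h
    have h4 := congrArg (fun p : ℝ[X] => p.eval (w 0)) h
    simp only [eval_add, eval_C, eval_zero] at h4
    have h5 := h3 0 hm0
    norm_num at h5
    linarith [hb.1, hb.2]
  apply all_real (G N + C ε) hp (S ∪ T.image (fun x => -x)) ?_ ?_ z hz
  · intro x hx
    rw [Finset.mem_union, Finset.mem_image] at hx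
    rw [eval_add, eval_C]
    rcases hx with hx | ⟨y, hy, rfl⟩
    · exact (hS2 x hx).2
    · rw [G_neg]
      have h4 := (hT2 y hy).2
      have h5 : ((-1 : ℝ) ^ N) * (-1) ^ N = 1 := by rw [← mul_pow]; norm_num
      calc (-1) ^ N * (G N).eval y + ε = (-1) ^ N * (G N).eval y + ((-1) ^ N * (-1) ^ N) * ε := by
            rw [h5, one_mul]
        _ = (-1) ^ N * ((G N).eval y + (-1) ^ N * ε) := by ring
        _ = 0 := by rw [h4, mul_zero]
  · rw [Finset.card_union_of_disjoint, hS1, Finset.card_image_of_injective _ neg_injective, hT1]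
    · have h4 : (G N + C ε).natDegree ≤ N := by
        apply (natDegree_add_le _ _).trans
        rw [natDegree_C]
        exact max_le (G_natDegree N) (Nat.zero_le _)
      omega
    · rw [Finset.disjoint_left]
      intro x hx hx2
      rw [Finset.mem_image] at hx2
      obtain ⟨y, hy, rfl⟩ := hx2
      have a1 := (hS2 _ hx).1
      have a2 := (hT2 y hy).1
      linarith

end Q166.ExcRoots
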