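import Mathlib
import Pool.Agent.Q166.EulULC

/-!
Descents, excedances and strong synchronisation: definitions and the link with the
Eulerian numbers.
-/

set_option autoImplicit false

namespace Q166.SyncCore

open Pool.Agent.H24R3.Eul Q166.SgnDes Q166.SyncIneq Q166.EulULC

/-- the number of descents of a permutation of `Fin n`: the places `i` with
`i + 1 < n` and `π (i + 1) < π i` -/
def desc {n : ℕ} (π : Equiv.Perm (Fin n)) : ℕ :=
  (Finset.univ.filter fun i : Fin n => ∃ h : i.val + 1 < n, π ⟨i.val + 1, h⟩ < π i).card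

/-- the number of excedances of a permutation of `Fin n` -/
def exc {n : ℕ} (π : Equiv.Perm (Fin n)) : ℕ :=
  (Finset.univ.filter fun i : Fin n => i < π i).card

/-- the number of even permutations of `n` elements with `k` descents -/
def APlus (n k : ℕ) : ℕ :=
  (Finset.univ.filter fun π : Equiv.Perm (Fin n) => Equiv.Perm.sign π = 1 ∧ desc π = k).card

/-- the number of odd permutations of `n` elements with `k` descents -/
def AMinus (n k : ℕ) : ℕ :=
  (Finset.univ.filter fun π : Equiv.Perm (Fin n) => Equiv.Perm.sign π ≠ 1 ∧ desc π = k).card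

/-- the number of even permutations of `n` elements with `k` excedances -/
def PExc (n k : ℕ) : ℕ :=
  (Finset.univ.filter fun π : Equiv.Perm (Fin n) => Equiv.Perm.sign π = 1 ∧ exc π = k).card

/-- the number of odd permutations of `n` elements with `k` excedances -/
def QExc (n k : ℕ) : ℕ :=
  (Finset.univ.filter fun π : Equiv.Perm (Fin n) => Equiv.Perm.sign π ≠ 1 ∧ exc π = k).card

/-- strong synchronisation of `(a_k)_{k=0}^N` and `(b_k)_{k=0}^N` -/
def StronglySynchronised (N : ℕ) (a b : ℕ → ℕ) : Prop :=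
  ∀ k, 1 ≤ k → k + 1 ≤ N →
    max (a (k + 1)) (b (k + 1)) * max (a (k - 1)) (b (k - 1)) ≤ (min (a k) (b k)) ^ 2

theorem desc_eq {n : ℕ} (τ : Equiv.Perm (Fin (n + 1))) : desc τ = des τ := by
  unfold desc des
  symm
  apply Finset.card_bij (fun j _ => Fin.castSucc j)
  · intro j hj
    simp only [Finset.mem_filter, Finset.mem_univ, true_and] at hj ⊢
    exact ⟨by simp, hj⟩
  · intro a _ b _ h
    exact Fin.castSucc_injective _ h
  · intro i hi
    simp only [Finset.mem_filter, Finset.mem_univ, true_and] at hi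
    obtain ⟨h, h1⟩ := hi
    refine ⟨⟨i.val, by omega⟩, ?_, by ext; simp⟩
    simp only [Finset.mem_filter, Finset.mem_univ, true_and]
    exact h1

/-- splitting by the sign -/
theorem split_sign {n : ℕ} (f : Equiv.Perm (Fin n) → ℕ) (k : ℕ) :
    2 * (((Finset.univ.filter fun π : Equiv.Perm (Fin n) =>
      Equiv.Perm.sign π = 1 ∧ f π = k).card : ℕ) : ℤ) =
      (∑ π : Equiv.Perm (Fin n), if f π = k then (1 : ℤ) else 0) +
      ∑ π : Equiv.Perm (Fin n), (Equiv.Perm.sign π : ℤ) * (if f π = k then 1 else 0) := by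
  rw [Finset.card_filter, ← Finset.sum_add_distrib]
  push_cast
  rw [Finset.mul_sum]
  apply Finset.sum_congr rfl
  intro π _
  rcases Int.units_eq_one_or (Equiv.Perm.sign π) with h | h
  · rw [h]
    by_cases h1 : f π = k <;> simp [h1]
  · rw [h]
    by_cases h1 : f π = k <;> simp [h1]

theorem split_sign' {n : ℕ} (f : Equiv.Perm (Fin n) → ℕ) (k : ℕ) :
    2 * (((Finset.univ.filter fun π : Equiv.Perm (Fin n) =>
      Equiv.Perm.sign π ≠ 1 ∧ f π = k).card : ℕ) : ℤ) =
      (∑ π : Equiv.Perm (Fin n), if f π = k then (1 : ℤ) else 0) -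
      ∑ π : Equiv.Perm (Fin n), (Equiv.Perm.sign π : ℤ) * (if f π = k then 1 else 0) := by
  rw [Finset.card_filter, ← Finset.sum_sub_distrib]
  push_cast
  rw [Finset.mul_sum]
  apply Finset.sum_congr rfl
  intro π _
  rcases Int.units_eq_one_or (Equiv.Perm.sign π) with h | h
  · rw [h]
    by_cases h1 : f π = k <;> simp [h1]
  · rw [h]
    by_cases h1 : f π = k <;> simp [h1]

theorem APlus_eq (n k : ℕ) : 2 * (APlus (n + 1) k : ℤ) = E n k + SD n k := by
  unfold APlus
  rw [split_sign desc k, E_sum]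
  unfold SD
  simp only [desc_eq]

theorem AMinus_eq (n k : ℕ) : 2 * (AMinus (n + 1) k : ℤ) = E n k - SD n k := by
  unfold AMinus
  rw [split_sign' desc k, E_sum]
  unfold SD
  simp only [desc_eq]

/-- the criterion -/
theorem sync_of (n : ℕ) (hn : 3 ≤ n) (a b : ℕ → ℕ) (s t D : ℕ → ℤ)
    (ha : ∀ k, 2 * (a k : ℤ) = E n k + s k) (hb : ∀ k, 2 * (b k : ℤ) = E n k + t k)
    (hs : ∀ k, |s k| ≤ D k) (ht : ∀ k, |t k| ≤ D k) (h1 : ∀ k, D k ≤ E n k)
    (h2 : ∀ k, 1 ≤ k → k + 1 ≤ n → ((n : ℤ) + 3) * D k ≤ E n k) :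
    StronglySynchronised n a b := by
  intro k hk1 hk2
  obtain ⟨j, rfl⟩ : ∃ j, k = j + 1 := ⟨k - 1, by omega⟩
  rw [show j + 1 - 1 = j by omega, show j + 1 + 1 = j + 2 by rfl]
  have h0 : ∀ k, 0 ≤ D k := fun k => (abs_nonneg _).trans (hs k)
  have hp := perturbed n hn D h0 h1 h2 j (by omega)
  have hmax : ∀ k, 2 * (max (a k) (b k) : ℤ) ≤ E n k + D k := by
    intro k
    have e1 := ha k
    have e2 := hb k
    have e3 := (abs_le.1 (hs k)).2
    have e4 := (abs_le.1 (ht k)).2
    rcases max_cases (a k : ℤ) (b k) with h | h <;> omega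
  have hmin : ∀ k, E n k - D k ≤ 2 * (min (a k) (b k) : ℤ) := by
    intro k
    have e1 := ha k
    have e2 := hb k
    have e3 := (abs_le.1 (hs k)).1
    have e4 := (abs_le.1 (ht k)).1
    rcases min_cases (a k : ℤ) (b k) with h | h <;> omega
  have m1 := hmax (j + 2)
  have m2 := hmax j
  have m3 := hmin (j + 1)
  have n1 : (0 : ℤ) ≤ max (a (j + 2) : ℤ) (b (j + 2)) := le_max_of_le_left (by positivity)
  have n2 : (0 : ℤ) ≤ max (a j : ℤ) (b j) := le_max_of_le_left (by positivity)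
  have n3 : 0 ≤ E n (j + 1) - D (j + 1) := by have := h1 (j + 1); omega
  have q1 : (2 * max (a (j + 2) : ℤ) (b (j + 2))) * (2 * max (a j : ℤ) (b j)) ≤
      (E n (j + 2) + D (j + 2)) * (E n j + D j) :=
    mul_le_mul m1 m2 (by positivity) (by linarith)
  have q2 : (E n (j + 1) - D (j + 1)) ^ 2 ≤ (2 * min (a (j + 1) : ℤ) (b (j + 1))) ^ 2 :=
    pow_le_pow_left₀ n3 m3 2
  have q3 : (max (a (j + 2) : ℤ) (b (j + 2))) * (max (a j : ℤ) (b j)) ≤
      (min (a (j + 1) : ℤ) (b (j + 1))) ^ 2 := by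
    nlinarith
  exact_mod_cast q3

end Q166.SyncCore
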