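import Mathlib
import Pool.Agent.Q166.SyncCore

/-!
Excedance numbers and signed excedance numbers.
-/

set_option autoImplicit false

namespace Q166.ExcSgn

open Pool.Agent.H24R3.Eul Q166.SgnDes Q166.SyncIneq Q166.EulULC Q166.SyncCore

theorem exc_sum {n : ℕ} (π : Equiv.Perm (Fin n)) :
    exc π = ∑ i : Fin n, if i < π i then 1 else 0 := by
  unfold exc; rw [Finset.card_filter]

theorem exc_zero {n : ℕ} (e : Equiv.Perm (Fin n)) :
    exc (Equiv.Perm.decomposeFin.symm (0, e)) = exc e := by
  rw [exc_sum, exc_sum, Fin.sum_univ_succ]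
  simp only [Equiv.Perm.decomposeFin_symm_apply_zero, Equiv.Perm.decomposeFin_symm_apply_succ,
    Equiv.swap_self, Equiv.refl_apply, Fin.succ_lt_succ_iff, lt_irrefl, if_false, zero_add]

theorem exc_succ {n : ℕ} (e : Equiv.Perm (Fin n)) (x : Fin n) :
    exc (Equiv.Perm.decomposeFin.symm ((e x).succ, e)) + (if x < e x then 1 else 0) =
      exc e + 1 := by
  rw [exc_sum, exc_sum, Fin.sum_univ_succ]
  simp only [Equiv.Perm.decomposeFin_symm_apply_zero, Equiv.Perm.decomposeFin_symm_apply_succ]
  rw [if_pos (Fin.succ_pos _)]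
  rw [← Finset.add_sum_erase Finset.univ (fun i => if i < e i then 1 else 0) (Finset.mem_univ x),
    ← Finset.add_sum_erase Finset.univ (fun i => if Fin.succ i < Equiv.swap 0 (e x).succ
      (e i).succ then 1 else 0) (Finset.mem_univ x)]
  have h1 : ∑ i ∈ Finset.univ.erase x, (if Fin.succ i < Equiv.swap 0 (e x).succ
      (e i).succ then 1 else 0) = ∑ i ∈ Finset.univ.erase x, (if i < e i then 1 else 0) := by
    apply Finset.sum_congr rfl
    intro i hi
    rw [Finset.mem_erase] at hi
    rw [Equiv.swap_apply_of_ne_of_ne (Fin.succ_ne_zero _)]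
    · simp only [Fin.succ_lt_succ_iff]
    · intro h
      exact hi.1 (e.injective (Fin.succ_injective _ h))
  rw [h1, Equiv.swap_apply_right, if_neg (Fin.not_lt_zero _)]
  omega

theorem sum_p {n : ℕ} (e : Equiv.Perm (Fin n)) (F : ℕ → ℤ) :
    ∑ y : Fin n, F (exc (Equiv.Perm.decomposeFin.symm (y.succ, e))) =
      (exc e : ℤ) * F (exc e) + ((n : ℤ) - exc e) * F (exc e + 1) := by
  rw [← Equiv.sum_comp e]
  have h : ∀ x : Fin n, F (exc (Equiv.Perm.decomposeFin.symm ((e x).succ, e))) =
      F (exc e + 1) + (if x < e x then (1 : ℤ) else 0) * (F (exc e) - F (exc e + 1)) := by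
    intro x
    have := exc_succ e x
    split_ifs at this ⊢ with h
    · have h1 : exc (Equiv.Perm.decomposeFin.symm ((e x).succ, e)) = exc e := by omega
      rw [h1]; ring
    · have h1 : exc (Equiv.Perm.decomposeFin.symm ((e x).succ, e)) = exc e + 1 := by omega
      rw [h1]; ring
  simp only [h]
  rw [Finset.sum_add_distrib, ← Finset.sum_mul, Finset.sum_const, Finset.card_univ,
    Fintype.card_fin]
  have h2 : ∑ x : Fin n, (if x < e x then (1 : ℤ) else 0) = (exc e : ℤ) := by
    rw [exc_sum]; push_cast; rfl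
  rw [h2]
  simp only [nsmul_eq_mul]
  ring

/-- excedance numbers for `n + 1` elements -/
def X (n k : ℕ) : ℤ := ∑ π : Equiv.Perm (Fin (n + 1)), if exc π = k then (1 : ℤ) else 0

/-- signed excedance numbers for `n + 1` elements -/
def SX (n k : ℕ) : ℤ :=
  ∑ π : Equiv.Perm (Fin (n + 1)), (Equiv.Perm.sign π : ℤ) * (if exc π = k then 1 else 0)

theorem exc_le {n : ℕ} (e : Equiv.Perm (Fin (n + 1))) : exc e ≤ n := by
  unfold exc
  have : (Finset.univ.filter fun i : Fin (n + 1) => i < e i) ⊆
      Finset.univ.erase (Fin.last n) := by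
    intro i hi
    simp only [Finset.mem_filter, Finset.mem_univ, true_and, Finset.mem_erase, and_true] at hi ⊢
    rintro rfl
    exact absurd hi (not_lt.2 (Fin.le_last _))
  have h := Finset.card_le_card this
  rw [Finset.card_erase_of_mem (Finset.mem_univ _), Finset.card_univ, Fintype.card_fin] at h
  omega

theorem X_big (n k : ℕ) (h : n < k) : X n k = 0 := by
  unfold X
  apply Finset.sum_eq_zero
  intro π _
  rw [if_neg]
  have := exc_le π
  omega

theorem SX_big (n k : ℕ) (h : n < k) : SX n k = 0 := by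
  unfold SX
  apply Finset.sum_eq_zero
  intro π _
  rw [if_neg, mul_zero]
  have := exc_le π
  omega

theorem X_succ (n m : ℕ) : X (n + 1) m = ∑ e : Equiv.Perm (Fin (n + 1)),
    ((1 + (exc e : ℤ)) * (if exc e = m then 1 else 0) +
      ((n : ℤ) + 1 - exc e) * (if exc e + 1 = m then 1 else 0)) := by
  unfold X
  rw [← Equiv.sum_comp Equiv.Perm.decomposeFin.symm, Fintype.sum_prod_type_right]
  apply Finset.sum_congr rfl
  intro e _
  rw [Fin.sum_univ_succ, exc_zero, sum_p e (fun x => if x = m then (1 : ℤ) else 0)]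
  push_cast
  ring

theorem SX_succ (n m : ℕ) : SX (n + 1) m = ∑ e : Equiv.Perm (Fin (n + 1)),
    (Equiv.Perm.sign e : ℤ) * ((1 - (exc e : ℤ)) * (if exc e = m then 1 else 0) -
      ((n : ℤ) + 1 - exc e) * (if exc e + 1 = m then 1 else 0)) := by
  unfold SX
  rw [← Equiv.sum_comp Equiv.Perm.decomposeFin.symm, Fintype.sum_prod_type_right]
  apply Finset.sum_congr rfl
  intro e _
  rw [Fin.sum_univ_succ, exc_zero]
  have h : ∀ y : Fin (n + 1), (Equiv.Perm.sign (Equiv.Perm.decomposeFin.symm (y.succ, e)) : ℤ) *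
      (if exc (Equiv.Perm.decomposeFin.symm (y.succ, e)) = m then 1 else 0) =
      -(Equiv.Perm.sign e : ℤ) *
      (if exc (Equiv.Perm.decomposeFin.symm (y.succ, e)) = m then 1 else 0) := by
    intro y
    rw [Equiv.Perm.decomposeFin.symm_sign, if_neg (Fin.succ_ne_zero _)]
    simp
  simp only [h]
  rw [← Finset.mul_sum, sum_p e (fun x => if x = m then (1 : ℤ) else 0),
    Equiv.Perm.decomposeFin.symm_sign, if_pos rfl]
  push_cast
  ring

theorem X_rec (n k : ℕ) : X (n + 1) (k + 1) = ((k : ℤ) + 2) * X n (k + 1) +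
    ((n : ℤ) + 1 - k) * X n k := by
  rw [X_succ]
  unfold X
  rw [Finset.mul_sum, Finset.mul_sum, ← Finset.sum_add_distrib]
  apply Finset.sum_congr rfl
  intro e _
  by_cases h1 : exc e = k + 1
  · rw [h1, if_pos rfl, if_neg (by omega), if_neg (by omega)]; push_cast; ring
  · by_cases h2 : exc e = k
    · rw [h2, if_neg (by omega), if_pos rfl, if_pos rfl]; ring
    · rw [if_neg h1, if_neg (by omega), if_neg h2]; ring

theorem X_rec0 (n : ℕ) : X (n + 1) 0 = X n 0 := by
  rw [X_succ]
  unfold X
  apply Finset.sum_congr rfl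
  intro e _
  by_cases h1 : exc e = 0
  · rw [h1]; simp
  · rw [if_neg h1, if_neg (by omega)]; ring

theorem SX_rec (n k : ℕ) : SX (n + 1) (k + 1) = -(k : ℤ) * SX n (k + 1) -
    ((n : ℤ) + 1 - k) * SX n k := by
  rw [SX_succ]
  unfold SX
  rw [Finset.mul_sum, Finset.mul_sum, ← Finset.sum_sub_distrib]
  apply Finset.sum_congr rfl
  intro e _
  by_cases h1 : exc e = k + 1
  · rw [h1, if_pos rfl, if_neg (by omega), if_neg (by omega)]; push_cast; ring
  · by_cases h2 : exc e = k
    · rw [h2, if_neg (by omega), if_pos rfl, if_pos rfl]; ring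
    · rw [if_neg h1, if_neg (by omega), if_neg h2]; ring

theorem SX_rec0 (n : ℕ) : SX (n + 1) 0 = SX n 0 := by
  rw [SX_succ]
  unfold SX
  apply Finset.sum_congr rfl
  intro e _
  by_cases h1 : exc e = 0
  · rw [h1]; simp
  · rw [if_neg h1, if_neg (by omega)]; ring

theorem exc_one (e : Equiv.Perm (Fin 1)) : exc e = 0 := by
  have := exc_le e
  omega

theorem X_0 : X 0 0 = 1 := by
  unfold X
  simp only [exc_one]
  simp

theorem SX_0 : SX 0 0 = 1 := by
  unfold SX
  simp only [exc_one]
  simp

/-- descents and excedances are equidistributed -/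
theorem X_eq (n : ℕ) : ∀ k, X n k = E n k := by
  induction n with
  | zero =>
    intro k
    rcases Nat.eq_zero_or_pos k with rfl | h
    · rw [X_0, E_zero]
    · rw [X_big 0 k h, E_big 0 k h]
  | succ n ih =>
    intro k
    cases k with
    | zero => rw [X_rec0, ih, E_zero, E_zero]
    | succ k => rw [X_rec, ih, ih, E_rec']

theorem SX_eq (n : ℕ) : ∀ k, SX n k = (-1) ^ k * (n.choose k : ℤ) := by
  induction n with
  | zero =>
    intro k
    rcases Nat.eq_zero_or_pos k with rfl | h
    · rw [SX_0]; simp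
    · rw [SX_big 0 k h, Nat.choose_eq_zero_of_lt h]; simp
  | succ n ih =>
    intro k
    cases k with
    | zero => rw [SX_rec0, ih]; simp
    | succ k =>
      rw [SX_rec, ih, ih, Nat.choose_succ_succ, pow_succ]
      have h : ((k : ℤ) + 1) * (n.choose (k + 1) : ℤ) = ((n : ℤ) - k) * (n.choose k : ℤ) := by
        rcases Nat.lt_or_ge n k with h1 | h1
        · rw [Nat.choose_eq_zero_of_lt h1, Nat.choose_eq_zero_of_lt (by omega : n < k + 1)]; simp
        · have := Nat.choose_succ_right_eq n k
          have h2 : ((n - k : ℕ) : ℤ) = (n : ℤ) - k := by omega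
          rw [← h2]
          have h3 : ((n.choose (k + 1) * (k + 1) : ℕ) : ℤ) = ((n.choose k * (n - k) : ℕ) : ℤ) := by
            rw [this]
          push_cast at h3
          push_cast
          linarith
      push_cast
      linear_combination ((-1 : ℤ) ^ k) * h

theorem PExc_eq (n k : ℕ) : 2 * (PExc (n + 1) k : ℤ) = E n k + (-1) ^ k * (n.choose k : ℤ) := by
  unfold PExc
  rw [split_sign exc k, ← X_eq, ← SX_eq]
  rfl

theorem QExc_eq (n k : ℕ) : 2 * (QExc (n + 1) k : ℤ) = E n k - (-1) ^ k * (n.choose k : ℤ) := by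
  unfold QExc
  rw [split_sign' exc k, ← X_eq, ← SX_eq]
  rfl

theorem choose_bound (n : ℕ) (hn : 5 ≤ n) : ∀ k, 1 ≤ k → k + 1 ≤ n →
    ((n : ℤ) + 3) * (n.choose k : ℤ) ≤ E n k := by
  induction n, hn using Nat.le_induction with
  | base =>
    intro k hk1 hk2
    have e11 : E 1 1 = 1 := E_top 1
    have e21 : E 2 1 = 4 := by rw [E_one, e11]; norm_num
    have e31 : E 3 1 = 11 := by rw [E_one, e21]; norm_num
    have e41 : E 4 1 = 26 := by rw [E_one, e31]; norm_num
    have e1 : E 5 1 = 57 := by rw [E_one, e41]; norm_num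
    have e22 : E 2 2 = 1 := E_top 2
    have e32 : E 3 2 = 11 := by rw [E_two, e22, e21]; norm_num
    have e42 : E 4 2 = 66 := by rw [E_two, e32, e31]; norm_num
    have e2 : E 5 2 = 302 := by rw [E_two, e42, e41]; norm_num
    have e3 : E 5 3 = 302 := by rw [← e2]; exact (E_symm 5 3 (by omega)).symm
    have e4 : E 5 4 = 57 := by rw [← e1]; exact (E_symm 5 4 (by omega)).symm
    have hk : k = 1 ∨ k = 2 ∨ k = 3 ∨ k = 4 := by omega
    rcases hk with rfl | rfl | rfl | rfl
    · rw [e1]; norm_num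
    · rw [e2]; norm_num [Nat.choose]
    · rw [e3]; norm_num [Nat.choose]
    · rw [e4]; norm_num [Nat.choose]
  | succ n hn ih =>
    intro k hk1 hk2
    have hnz : (5 : ℤ) ≤ n := by omega
    have hfirst : (((n + 1 : ℕ) : ℤ) + 3) * ((n + 1 : ℕ) : ℤ) ≤ E (n + 1) 1 := by
      rw [E_one]
      have h1 := ih 1 le_rfl (by omega)
      rw [Nat.choose_one_right] at h1
      push_cast
      nlinarith
    obtain ⟨j, rfl⟩ : ∃ j, k = j + 1 := ⟨k - 1, by omega⟩
    rcases Nat.eq_zero_or_pos j with h | h
    · subst h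
      rw [show 0 + 1 = 1 by rfl, Nat.choose_one_right]
      exact hfirst
    · rcases Nat.eq_or_lt_of_le (show j + 1 ≤ n by omega) with h' | h'
      · have e1 : E (n + 1) (j + 1) = E (n + 1) 1 := by
          have := E_symm (n + 1) 1 (by omega)
          rwa [show n + 1 - 1 = j + 1 by omega] at this
        have e2 : (n + 1).choose (j + 1) = n + 1 := by
          rw [h']; exact Nat.choose_succ_self_right n
        rw [e1, e2]
        exact hfirst
      · rw [E_rec', Nat.choose_succ_succ]
        have h1 := ih (j + 1) (by omega) (by omega)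
        have h2 := ih j h (by omega)
        have hjz : (j : ℤ) + 2 ≤ n := by omega
        have hj1 : (1 : ℤ) ≤ j := by omega
        have c1 : (0 : ℤ) ≤ (n.choose (j + 1) : ℤ) := by positivity
        have c2 : (0 : ℤ) ≤ (n.choose j : ℤ) := by positivity
        push_cast
        have a1 : ((n : ℤ) + 1 + 3) * (n.choose (j + 1) : ℤ) ≤ ((j : ℤ) + 2) * E n (j + 1) := by
          calc ((n : ℤ) + 1 + 3) * (n.choose (j + 1) : ℤ)
              ≤ (((j : ℤ) + 2) * (n + 3)) * (n.choose (j + 1) : ℤ) :=
                mul_le_mul_of_nonneg_right (by nlinarith) c1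
            _ = ((j : ℤ) + 2) * ((n + 3) * (n.choose (j + 1) : ℤ)) := by ring
            _ ≤ _ := mul_le_mul_of_nonneg_left h1 (by omega)
        have a2 : ((n : ℤ) + 1 + 3) * (n.choose j : ℤ) ≤ ((n : ℤ) + 1 - j) * E n j := by
          calc ((n : ℤ) + 1 + 3) * (n.choose j : ℤ)
              ≤ (((n : ℤ) + 1 - j) * (n + 3)) * (n.choose j : ℤ) :=
                mul_le_mul_of_nonneg_right (by nlinarith) c2
            _ = ((n : ℤ) + 1 - j) * ((n + 3) * (n.choose j : ℤ)) := by ring
            _ ≤ _ := mul_le_mul_of_nonneg_left h2 (by omega)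
        linarith

end Q166.ExcSgn
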