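import Mathlib

/-! Shortest odd closed walks in a weighted graph are geodesic cycles. -/

namespace Pool.Agent.Q166.Geo

open SimpleGraph

variable {V : Type} {G : SimpleGraph V}

/-- The length of a walk: the sum of the lengths of its edges. -/
def len (ℓ : Sym2 V → ℝ) {u v : V} (p : G.Walk u v) : ℝ := (p.edges.map ℓ).sum

/-- A cycle `c` is `ℓ`-geodesic: for all vertices `x, y` on `c` and every `x`-`y` path `p` of the
graph there is an `x`-`y` path `q` contained in `c` (an arc of `c`) which is not longer than `p`,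
i.e. no `x`-`y` path is shorter than both arcs. -/
def IsGeodesicCycle (ℓ : Sym2 V → ℝ) {v : V} (c : G.Walk v v) : Prop :=
  c.IsCycle ∧ ∀ x ∈ c.support, ∀ y ∈ c.support, ∀ p : G.Walk x y, p.IsPath →
    ∃ q : G.Walk x y, q.IsPath ∧ (∀ e ∈ q.edges, e ∈ c.edges) ∧ len ℓ q ≤ len ℓ p

/-- A cycle is peripheral if it has no chord and deleting its vertices leaves a connected
(possibly empty) graph. -/
def IsPeripheral {v : V} (c : G.Walk v v) : Prop :=
  c.IsCycle ∧ c.IsChordless ∧ (G.induce {x | x ∉ c.support}).Preconnected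

/-- A finite graph is 3-connected: more than 3 vertices and deleting at most 2 vertices leaves it
connected. -/
def ThreeConnected [Fintype V] (G : SimpleGraph V) : Prop :=
  3 < Fintype.card V ∧ ∀ S : Finset V, S.card ≤ 2 → (G.induce {x | x ∉ S}).Connected

/-- parity of a walk -/
def par (σ : Sym2 V → ZMod 2) {u v : V} (p : G.Walk u v) : ZMod 2 := (p.edges.map σ).sum

section basic

variable (ℓ : Sym2 V → ℝ) (σ : Sym2 V → ZMod 2)

@[simp] lemma len_nil (u : V) : len ℓ (Walk.nil : G.Walk u u) = 0 := by simp [len]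
@[simp] lemma len_cons {u v w : V} (h : G.Adj u v) (p : G.Walk v w) :
    len ℓ (Walk.cons h p) = ℓ s(u, v) + len ℓ p := by simp [len]
@[simp] lemma len_append {u v w : V} (p : G.Walk u v) (q : G.Walk v w) :
    len ℓ (p.append q) = len ℓ p + len ℓ q := by simp [len, Walk.edges_append]
@[simp] lemma len_reverse {u v : V} (p : G.Walk u v) : len ℓ p.reverse = len ℓ p := by
  simp [len, Walk.edges_reverse, List.sum_reverse]

@[simp] lemma par_nil (u : V) : par σ (Walk.nil : G.Walk u u) = 0 := by simp [par]
@[simp] lemma par_cons {u v w : V} (h : G.Adj u v) (p : G.Walk v w) :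
    par σ (Walk.cons h p) = σ s(u, v) + par σ p := by simp [par]
@[simp] lemma par_append {u v w : V} (p : G.Walk u v) (q : G.Walk v w) :
    par σ (p.append q) = par σ p + par σ q := by simp [par, Walk.edges_append]
@[simp] lemma par_reverse {u v : V} (p : G.Walk u v) : par σ p.reverse = par σ p := by
  simp [par, Walk.edges_reverse, List.sum_reverse]

lemma len_nonneg (hℓ : ∀ e ∈ G.edgeSet, 0 < ℓ e) {u v : V} (p : G.Walk u v) : 0 ≤ len ℓ p := by
  unfold len
  apply List.sum_nonneg
  intro x hx
  obtain ⟨e, he, rfl⟩ := List.mem_map.1 hx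
  exact (hℓ e (p.edges_subset_edgeSet he)).le

/-- a path between the ends of an edge containing that edge is the edge -/
lemma edges_of_path_mem {u u' : V} (hadj : G.Adj u u') (p : G.Walk u' u) (hp : p.IsPath)
    (h : s(u, u') ∈ p.edges) : p.edges = [s(u', u)] := by
  cases p with
  | nil => exact absurd rfl hadj.ne
  | cons h' p' =>
    rename_i w
    rw [Walk.cons_isPath_iff] at hp
    rw [Walk.edges_cons, List.mem_cons] at h
    rcases h with h | h
    · have hw : w = u := by
        rw [Sym2.eq_swap] at h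
        rw [Sym2.eq_iff] at h
        rcases h with ⟨_, h⟩ | ⟨h1, h2⟩
        · exact h.symm
        · exact absurd h2 hadj.ne
      subst hw
      have : p' = Walk.nil := (Walk.isPath_iff_nil.1 hp.1).eq_nil
      subst this
      simp
    · exfalso
      exact hp.2 (p'.snd_mem_support_of_mem_edges h)

end basic

section main

variable (ℓ : Sym2 V → ℝ) (σ : Sym2 V → ZMod 2)

lemma zmod2 (a : ZMod 2) : a = 0 ∨ a = 1 := by
  revert a; decide

lemma zmod2_add_self (a : ZMod 2) : a + a = 0 := by
  rcases zmod2 a with rfl | rfl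
  · rfl
  · decide

lemma path_or_cycle [DecidableEq V] (hℓ : ∀ e ∈ G.edgeSet, 0 < ℓ e) {u v : V} (p : G.Walk u v) :
    (∃ q : G.Walk u v, q.IsPath ∧ par σ q = par σ p ∧ len ℓ q ≤ len ℓ p) ∨
    (∃ (w : V) (c : G.Walk w w), c.IsCycle ∧ par σ c = 1 ∧ len ℓ c ≤ len ℓ p) := by
  induction p with
  | nil => exact Or.inl ⟨Walk.nil, Walk.IsPath.nil, rfl, le_rfl⟩
  | @cons u u' v h p ih =>
    rcases ih with ⟨q, hq, hqp, hql⟩ | ⟨w, c, hc, hcp, hcl⟩
    · by_cases hu : u ∈ q.support
      · have hspec := q.take_spec hu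
        have hlen : len ℓ (q.takeUntil u hu) + len ℓ (q.dropUntil u hu) = len ℓ q := by
          rw [← len_append, hspec]
        have hpar : par σ (q.takeUntil u hu) + par σ (q.dropUntil u hu) = par σ q := by
          rw [← par_append, hspec]
        have hh : 0 < ℓ s(u, u') := hℓ _ h
        rcases zmod2 (σ s(u, u') + par σ (q.takeUntil u hu)) with h0 | h1
        · left
          refine ⟨q.dropUntil u hu, hq.dropUntil hu, ?_, ?_⟩
          · rw [par_cons, ← hqp, ← hpar, ← add_assoc, h0, zero_add]
          · rw [len_cons]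
            have := len_nonneg ℓ hℓ (q.takeUntil u hu)
            linarith
        · right
          refine ⟨u, Walk.cons h (q.takeUntil u hu), ?_, ?_, ?_⟩
          · rw [Walk.cons_isCycle_iff]
            refine ⟨hq.takeUntil hu, fun hmem => ?_⟩
            have := edges_of_path_mem h _ (hq.takeUntil hu) hmem
            have h2 : par σ (q.takeUntil u hu) = σ s(u, u') := by
              unfold par
              rw [this]
              simp [Sym2.eq_swap]
            rw [h2, zmod2_add_self] at h1
            exact absurd h1 (by decide)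
          · rw [par_cons, h1]
          · rw [len_cons, len_cons]
            have := len_nonneg ℓ hℓ (q.dropUntil u hu)
            linarith
      · left
        refine ⟨Walk.cons h q, ?_, ?_, ?_⟩
        · rw [Walk.cons_isPath_iff]
          exact ⟨hq, hu⟩
        · rw [par_cons, par_cons, hqp]
        · rw [len_cons, len_cons]
          linarith
    · right
      refine ⟨w, c, hc, hcp, ?_⟩
      rw [len_cons]
      have hh : 0 < ℓ s(u, u') := hℓ _ h
      linarith

lemma len_bypass_le [DecidableEq V] (hℓ : ∀ e ∈ G.edgeSet, 0 < ℓ e) {s t : V} (q : G.Walk s t) :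
    len ℓ q.bypass ≤ len ℓ q := by
  induction q with
  | nil => simp [Walk.bypass]
  | @cons a b d h q ih =>
    have hh : 0 < ℓ s(a, b) := hℓ _ h
    rw [Walk.bypass]
    split_ifs with hb
    · have : len ℓ (q.bypass.takeUntil a hb) + len ℓ (q.bypass.dropUntil a hb)
          = len ℓ q.bypass := by
        rw [← len_append, Walk.take_spec]
      have := len_nonneg ℓ hℓ (q.bypass.takeUntil a hb)
      rw [len_cons]
      linarith
    · rw [len_cons, len_cons]
      linarith

/-- a shortest odd closed walk that is a geodesic cycle -/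
lemma exists_min_odd [Fintype V] [DecidableEq V] (hℓ : ∀ e ∈ G.edgeSet, 0 < ℓ e)
    (hodd : ∃ (v : V) (w : G.Walk v v), par σ w = 1) :
    ∃ (v : V) (c : G.Walk v v), IsGeodesicCycle ℓ c ∧ par σ c = 1 ∧
      ∀ (u : V) (w : G.Walk u u), par σ w = 1 → len ℓ c ≤ len ℓ w := by
  classical
  -- every odd closed walk dominates an odd cycle
  have hcyc : ∀ (u : V) (w : G.Walk u u), par σ w = 1 →
      ∃ (v : V) (c : G.Walk v v), c.IsCycle ∧ par σ c = 1 ∧ len ℓ c ≤ len ℓ w := by
    intro u w hw
    rcases path_or_cycle ℓ σ hℓ w with ⟨q, hq, hqp, _⟩ | h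
    · exfalso
      have hq := (Walk.isPath_iff_nil.1 hq).eq_nil
      subst hq
      rw [par_nil, hw] at hqp
      exact absurd hqp (by decide)
    · exact h
  -- the set of lengths of odd cycles is finite
  let S : Set ℝ := {r | ∃ (v : V) (c : G.Walk v v), c.IsCycle ∧ par σ c = 1 ∧ len ℓ c = r}
  have hfin : S.Finite := by
    apply Set.Finite.subset (Set.finite_range (fun s : Finset (Sym2 V) => ∑ e ∈ s, ℓ e))
    rintro r ⟨v, c, hc, _, rfl⟩
    refine ⟨c.edges.toFinset, ?_⟩
    have hnd : c.edges.Nodup := hc.isCircuit.isTrail.edges_nodup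
    show ∑ e ∈ c.edges.toFinset, ℓ e = len ℓ c
    unfold len
    rw [List.sum_toFinset _ hnd]
  have hne : S.Nonempty := by
    obtain ⟨v, w, hw⟩ := hodd
    obtain ⟨v', c, hc, hcp, _⟩ := hcyc v w hw
    exact ⟨_, v', c, hc, hcp, rfl⟩
  obtain ⟨r, hr, hmin⟩ := Set.exists_min_image S id hfin hne
  obtain ⟨v, c, hc, hcp, hcl⟩ := hr
  have hmin' : ∀ (u : V) (w : G.Walk u u), par σ w = 1 → len ℓ c ≤ len ℓ w := by
    intro u w hw
    obtain ⟨v', c', hc', hcp', hcl'⟩ := hcyc u w hw
    have := hmin _ ⟨v', c', hc', hcp', rfl⟩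
    simp only [id] at this
    rw [hcl]
    exact this.trans hcl'
  refine ⟨v, c, ⟨hc, ?_⟩, hcp, hmin'⟩
  intro x hx y hy p hp
  have hc' : (c.rotate x hx).IsCycle := hc.rotate hx
  have hy' : y ∈ (c.rotate x hx).support := by
    rw [Walk.mem_support_rotate_iff]; exact hy
  have hperm : (c.rotate x hx).edges.Perm c.edges := (c.rotate_edges x hx).perm
  have hlen' : len ℓ (c.rotate x hx) = len ℓ c := by
    unfold len
    exact (hperm.map ℓ).sum_eq
  have hpar' : par σ (c.rotate x hx) = 1 := by
    rw [← hcp]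
    unfold par
    exact (hperm.map σ).sum_eq
  set c' := c.rotate x hx with hc'def
  set a1 := c'.takeUntil y hy' with ha1
  set a2 := c'.dropUntil y hy' with ha2
  have hspec : a1.append a2 = c' := c'.take_spec hy'
  have hlen : len ℓ a1 + len ℓ a2 = len ℓ c := by rw [← hlen', ← hspec, len_append]
  have hpar : par σ a1 + par σ a2 = 1 := by rw [← hpar', ← hspec, par_append]
  have hsub1 : ∀ e ∈ a1.edges, e ∈ c.edges := fun e he =>
    hperm.mem_iff.1 (c'.edges_takeUntil_subset_edges hy' he)
  have hsub2 : ∀ e ∈ a2.edges, e ∈ c.edges := fun e he =>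
    hperm.mem_iff.1 (c'.edges_dropUntil_subset_edges hy' he)
  have hbyp : ∀ {s t : V} (q : G.Walk s t), len ℓ q.bypass ≤ len ℓ q :=
    fun q => len_bypass_le ℓ hℓ q
  rcases zmod2 (par σ p + par σ a2) with h0 | h1
  · -- p + a1 is odd
    have hodd1 : par σ (p.append a1.reverse) = 1 := by
      rw [par_append, par_reverse]
      have : (par σ p + par σ a1) + (par σ p + par σ a2) = 1 := by
        rw [add_add_add_comm, zmod2_add_self, zero_add, hpar]
      rw [h0, add_zero] at this
      exact this
    have := hmin' _ _ hodd1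
    rw [len_append, len_reverse] at this
    refine ⟨a2.reverse.bypass, Walk.bypass_isPath _, ?_, ?_⟩
    · intro e he
      have := (a2.reverse).edges_bypass_subset_edges he
      rw [Walk.edges_reverse, List.mem_reverse] at this
      exact hsub2 e this
    · refine (hbyp _).trans ?_
      rw [len_reverse]
      linarith
  · have hodd2 : par σ (p.append a2) = 1 := by rw [par_append, h1]
    have := hmin' _ _ hodd2
    rw [len_append] at this
    refine ⟨a1.bypass, Walk.bypass_isPath _, ?_, ?_⟩
    · intro e he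
      exact hsub1 e (a1.edges_bypass_subset_edges he)
    · refine (hbyp _).trans ?_
      linarith

/-- a cycle that is not geodesic has a shortcut -/
lemma exists_shortcut [DecidableEq V] (hℓ : ∀ e ∈ G.edgeSet, 0 < ℓ e) {v : V} {c : G.Walk v v}
    (hc : c.IsCycle) (hn : ¬ IsGeodesicCycle ℓ c) :
    ∃ x ∈ c.support, ∃ y ∈ c.support, ∃ p : G.Walk x y,
      ∀ q : G.Walk x y, (∀ e ∈ q.edges, e ∈ c.edges) → len ℓ p < len ℓ q := by
  unfold IsGeodesicCycle at hn
  push Not at hn
  obtain ⟨x, hx, y, hy, p, hp, h⟩ := hn hc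
  refine ⟨x, hx, y, hy, p, fun q hq => ?_⟩
  refine lt_of_lt_of_le (h q.bypass (Walk.bypass_isPath _) ?_) (len_bypass_le ℓ hℓ q)
  intro e he
  exact hq e (q.edges_bypass_subset_edges he)

end main

end Pool.Agent.Q166.Geo
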