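import Pool.Agent.Q166.GeoA

/-! Two consecutive triangles in a prism-like graph: if the three 4-cycles between them are
geodesic then some non-induced cycle or one of the triangles is geodesic. -/

namespace Pool.Agent.Q166.Geo

open SimpleGraph

set_option linter.unusedSimpArgs false

variable {V : Type} {G : SimpleGraph V} {ℓ : Sym2 V → ℝ}

/-- there is a walk from `x` to `y` shorter than both `r` and `s` -/
def Short (G : SimpleGraph V) (ℓ : Sym2 V → ℝ) (x y : V) (r s : ℝ) : Prop :=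
  ∃ p : G.Walk x y, len ℓ p < r ∧ len ℓ p < s

/-- what non-geodesicity of an explicit 3-cycle says -/
def NG3 (G : SimpleGraph V) (ℓ : Sym2 V → ℝ) (v0 v1 v2 : V) : Prop :=
  Short G ℓ v0 v1 (ℓ s(v0, v1)) (ℓ s(v1, v2) + ℓ s(v2, v0)) ∨
  Short G ℓ v1 v2 (ℓ s(v1, v2)) (ℓ s(v2, v0) + ℓ s(v0, v1)) ∨
  Short G ℓ v2 v0 (ℓ s(v2, v0)) (ℓ s(v0, v1) + ℓ s(v1, v2))

lemma ng3 [DecidableEq V] (hℓ : ∀ e ∈ G.edgeSet, 0 < ℓ e) {v0 v1 v2 : V}
    (h01 : G.Adj v0 v1)
    (h12 : G.Adj v1 v2)
    (h20 : G.Adj v2 v0)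
    (hc : (Walk.cons h01 (Walk.cons h12 (Walk.cons h20 Walk.nil))).IsCycle)
    (hn : ¬ IsGeodesicCycle ℓ (Walk.cons h01 (Walk.cons h12 (Walk.cons h20 Walk.nil)))) :
    NG3 G ℓ v0 v1 v2 := by
  obtain ⟨x, hx, y, hy, p, hp⟩ := exists_shortcut ℓ hℓ hc hn
  have e0 : ℓ s(v1, v0) = ℓ s(v0, v1) := by rw [Sym2.eq_swap]
  have e1 : ℓ s(v2, v1) = ℓ s(v1, v2) := by rw [Sym2.eq_swap]
  have e2 : ℓ s(v0, v2) = ℓ s(v2, v0) := by rw [Sym2.eq_swap]
  simp only [Walk.support_cons, Walk.support_nil, List.mem_cons, List.not_mem_nil, or_false] at hx hy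
  simp only [Walk.edges_cons, Walk.edges_nil] at hp
  have hx' : x = v0 ∨ x = v1 ∨ x = v2 := by tauto
  have hy' : y = v0 ∨ y = v1 ∨ y = v2 := by tauto
  clear hx hy
  unfold NG3
  rcases hx' with rfl | rfl | rfl
  · rcases hy' with rfl | rfl | rfl
    · exfalso
      have f := hp Walk.nil (by simp)
      have g := len_nonneg ℓ hℓ p
      rw [len_nil] at f
      linarith
    · have f := hp (Walk.cons h01 Walk.nil) (by simp [Sym2.eq_iff])
      have g := hp (Walk.cons h20.symm (Walk.cons h12.symm Walk.nil)) (by simp [Sym2.eq_iff])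
      simp only [len_cons, len_nil, add_zero] at f g
      exact Or.inl ⟨p, by linarith, by linarith⟩
    · have f := hp (Walk.cons h01 (Walk.cons h12 Walk.nil)) (by simp [Sym2.eq_iff])
      have g := hp (Walk.cons h20.symm Walk.nil) (by simp [Sym2.eq_iff])
      simp only [len_cons, len_nil, add_zero] at f g
      exact Or.inr (Or.inr (⟨p.reverse, by rw [len_reverse]; linarith, by rw [len_reverse]; linarith⟩))
  · rcases hy' with rfl | rfl | rfl
    · have f := hp (Walk.cons h12 (Walk.cons h20 Walk.nil)) (by simp [Sym2.eq_iff])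
      have g := hp (Walk.cons h01.symm Walk.nil) (by simp [Sym2.eq_iff])
      simp only [len_cons, len_nil, add_zero] at f g
      exact Or.inl ⟨p.reverse, by rw [len_reverse]; linarith, by rw [len_reverse]; linarith⟩
    · exfalso
      have f := hp Walk.nil (by simp)
      have g := len_nonneg ℓ hℓ p
      rw [len_nil] at f
      linarith
    · have f := hp (Walk.cons h12 Walk.nil) (by simp [Sym2.eq_iff])
      have g := hp (Walk.cons h01.symm (Walk.cons h20.symm Walk.nil)) (by simp [Sym2.eq_iff])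
      simp only [len_cons, len_nil, add_zero] at f g
      exact Or.inr (Or.inl ⟨p, by linarith, by linarith⟩)
  · rcases hy' with rfl | rfl | rfl
    · have f := hp (Walk.cons h20 Walk.nil) (by simp [Sym2.eq_iff])
      have g := hp (Walk.cons h12.symm (Walk.cons h01.symm Walk.nil)) (by simp [Sym2.eq_iff])
      simp only [len_cons, len_nil, add_zero] at f g
      exact Or.inr (Or.inr (⟨p, by linarith, by linarith⟩))
    · have f := hp (Walk.cons h20 (Walk.cons h01 Walk.nil)) (by simp [Sym2.eq_iff])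
      have g := hp (Walk.cons h12.symm Walk.nil) (by simp [Sym2.eq_iff])
      simp only [len_cons, len_nil, add_zero] at f g
      exact Or.inr (Or.inl ⟨p.reverse, by rw [len_reverse]; linarith, by rw [len_reverse]; linarith⟩)
    · exfalso
      have f := hp Walk.nil (by simp)
      have g := len_nonneg ℓ hℓ p
      rw [len_nil] at f
      linarith

/-- what non-geodesicity of an explicit 5-cycle says -/
def NG5 (G : SimpleGraph V) (ℓ : Sym2 V → ℝ) (v0 v1 v2 v3 v4 : V) : Prop :=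
  Short G ℓ v0 v1 (ℓ s(v0, v1)) (ℓ s(v1, v2) + ℓ s(v2, v3) + ℓ s(v3, v4) + ℓ s(v4, v0)) ∨
  Short G ℓ v1 v2 (ℓ s(v1, v2)) (ℓ s(v2, v3) + ℓ s(v3, v4) + ℓ s(v4, v0) + ℓ s(v0, v1)) ∨
  Short G ℓ v2 v3 (ℓ s(v2, v3)) (ℓ s(v3, v4) + ℓ s(v4, v0) + ℓ s(v0, v1) + ℓ s(v1, v2)) ∨
  Short G ℓ v3 v4 (ℓ s(v3, v4)) (ℓ s(v4, v0) + ℓ s(v0, v1) + ℓ s(v1, v2) + ℓ s(v2, v3)) ∨
  Short G ℓ v4 v0 (ℓ s(v4, v0)) (ℓ s(v0, v1) + ℓ s(v1, v2) + ℓ s(v2, v3) + ℓ s(v3, v4)) ∨
  Short G ℓ v0 v2 (ℓ s(v0, v1) + ℓ s(v1, v2)) (ℓ s(v2, v3) + ℓ s(v3, v4) + ℓ s(v4, v0)) ∨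
  Short G ℓ v1 v3 (ℓ s(v1, v2) + ℓ s(v2, v3)) (ℓ s(v3, v4) + ℓ s(v4, v0) + ℓ s(v0, v1)) ∨
  Short G ℓ v2 v4 (ℓ s(v2, v3) + ℓ s(v3, v4)) (ℓ s(v4, v0) + ℓ s(v0, v1) + ℓ s(v1, v2)) ∨
  Short G ℓ v3 v0 (ℓ s(v3, v4) + ℓ s(v4, v0)) (ℓ s(v0, v1) + ℓ s(v1, v2) + ℓ s(v2, v3)) ∨
  Short G ℓ v4 v1 (ℓ s(v4, v0) + ℓ s(v0, v1)) (ℓ s(v1, v2) + ℓ s(v2, v3) + ℓ s(v3, v4))

set_option maxHeartbeats 4000000 in
lemma ng5 [DecidableEq V] (hℓ : ∀ e ∈ G.edgeSet, 0 < ℓ e) {v0 v1 v2 v3 v4 : V}
    (h01 : G.Adj v0 v1)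
    (h12 : G.Adj v1 v2)
    (h23 : G.Adj v2 v3)
    (h34 : G.Adj v3 v4)
    (h40 : G.Adj v4 v0)
    (hc : (Walk.cons h01 (Walk.cons h12 (Walk.cons h23 (Walk.cons h34 (Walk.cons h40 Walk.nil))))).IsCycle)
    (hn : ¬ IsGeodesicCycle ℓ (Walk.cons h01 (Walk.cons h12 (Walk.cons h23 (Walk.cons h34 (Walk.cons h40 Walk.nil)))))) :
    NG5 G ℓ v0 v1 v2 v3 v4 := by
  obtain ⟨x, hx, y, hy, p, hp⟩ := exists_shortcut ℓ hℓ hc hn
  have e0 : ℓ s(v1, v0) = ℓ s(v0, v1) := by rw [Sym2.eq_swap]
  have e1 : ℓ s(v2, v1) = ℓ s(v1, v2) := by rw [Sym2.eq_swap]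
  have e2 : ℓ s(v3, v2) = ℓ s(v2, v3) := by rw [Sym2.eq_swap]
  have e3 : ℓ s(v4, v3) = ℓ s(v3, v4) := by rw [Sym2.eq_swap]
  have e4 : ℓ s(v0, v4) = ℓ s(v4, v0) := by rw [Sym2.eq_swap]
  simp only [Walk.support_cons, Walk.support_nil, List.mem_cons, List.not_mem_nil, or_false] at hx hy
  simp only [Walk.edges_cons, Walk.edges_nil] at hp
  have hx' : x = v0 ∨ x = v1 ∨ x = v2 ∨ x = v3 ∨ x = v4 := by tauto
  have hy' : y = v0 ∨ y = v1 ∨ y = v2 ∨ y = v3 ∨ y = v4 := by tauto
  clear hx hy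
  unfold NG5
  rcases hx' with rfl | rfl | rfl | rfl | rfl
  · rcases hy' with rfl | rfl | rfl | rfl | rfl
    · exfalso
      have f := hp Walk.nil (by simp)
      have g := len_nonneg ℓ hℓ p
      rw [len_nil] at f
      linarith
    · have f := hp (Walk.cons h01 Walk.nil) (by simp [Sym2.eq_iff])
      have g := hp (Walk.cons h40.symm (Walk.cons h34.symm (Walk.cons h23.symm (Walk.cons h12.symm Walk.nil)))) (by simp [Sym2.eq_iff])
      simp only [len_cons, len_nil, add_zero] at f g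
      exact Or.inl ⟨p, by linarith, by linarith⟩
    · have f := hp (Walk.cons h01 (Walk.cons h12 Walk.nil)) (by simp [Sym2.eq_iff])
      have g := hp (Walk.cons h40.symm (Walk.cons h34.symm (Walk.cons h23.symm Walk.nil))) (by simp [Sym2.eq_iff])
      simp only [len_cons, len_nil, add_zero] at f g
      exact Or.inr (Or.inr (Or.inr (Or.inr (Or.inr (Or.inl ⟨p, by linarith, by linarith⟩)))))
    · have f := hp (Walk.cons h01 (Walk.cons h12 (Walk.cons h23 Walk.nil))) (by simp [Sym2.eq_iff])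
      have g := hp (Walk.cons h40.symm (Walk.cons h34.symm Walk.nil)) (by simp [Sym2.eq_iff])
      simp only [len_cons, len_nil, add_zero] at f g
      exact Or.inr (Or.inr (Or.inr (Or.inr (Or.inr (Or.inr (Or.inr (Or.inr (Or.inl ⟨p.reverse, by rw [len_reverse]; linarith, by rw [len_reverse]; linarith⟩))))))))
    · have f := hp (Walk.cons h01 (Walk.cons h12 (Walk.cons h23 (Walk.cons h34 Walk.nil)))) (by simp [Sym2.eq_iff])
      have g := hp (Walk.cons h40.symm Walk.nil) (by simp [Sym2.eq_iff])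
      simp only [len_cons, len_nil, add_zero] at f g
      exact Or.inr (Or.inr (Or.inr (Or.inr (Or.inl ⟨p.reverse, by rw [len_reverse]; linarith, by rw [len_reverse]; linarith⟩))))
  · rcases hy' with rfl | rfl | rfl | rfl | rfl
    · have f := hp (Walk.cons h12 (Walk.cons h23 (Walk.cons h34 (Walk.cons h40 Walk.nil)))) (by simp [Sym2.eq_iff])
      have g := hp (Walk.cons h01.symm Walk.nil) (by simp [Sym2.eq_iff])
      simp only [len_cons, len_nil, add_zero] at f g
      exact Or.inl ⟨p.reverse, by rw [len_reverse]; linarith, by rw [len_reverse]; linarith⟩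
    · exfalso
      have f := hp Walk.nil (by simp)
      have g := len_nonneg ℓ hℓ p
      rw [len_nil] at f
      linarith
    · have f := hp (Walk.cons h12 Walk.nil) (by simp [Sym2.eq_iff])
      have g := hp (Walk.cons h01.symm (Walk.cons h40.symm (Walk.cons h34.symm (Walk.cons h23.symm Walk.nil)))) (by simp [Sym2.eq_iff])
      simp only [len_cons, len_nil, add_zero] at f g
      exact Or.inr (Or.inl ⟨p, by linarith, by linarith⟩)
    · have f := hp (Walk.cons h12 (Walk.cons h23 Walk.nil)) (by simp [Sym2.eq_iff])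
      have g := hp (Walk.cons h01.symm (Walk.cons h40.symm (Walk.cons h34.symm Walk.nil))) (by simp [Sym2.eq_iff])
      simp only [len_cons, len_nil, add_zero] at f g
      exact Or.inr (Or.inr (Or.inr (Or.inr (Or.inr (Or.inr (Or.inl ⟨p, by linarith, by linarith⟩))))))
    · have f := hp (Walk.cons h12 (Walk.cons h23 (Walk.cons h34 Walk.nil))) (by simp [Sym2.eq_iff])
      have g := hp (Walk.cons h01.symm (Walk.cons h40.symm Walk.nil)) (by simp [Sym2.eq_iff])
      simp only [len_cons, len_nil, add_zero] at f g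
      exact Or.inr (Or.inr (Or.inr (Or.inr (Or.inr (Or.inr (Or.inr (Or.inr (Or.inr (⟨p.reverse, by rw [len_reverse]; linarith, by rw [len_reverse]; linarith⟩)))))))))
  · rcases hy' with rfl | rfl | rfl | rfl | rfl
    · have f := hp (Walk.cons h23 (Walk.cons h34 (Walk.cons h40 Walk.nil))) (by simp [Sym2.eq_iff])
      have g := hp (Walk.cons h12.symm (Walk.cons h01.symm Walk.nil)) (by simp [Sym2.eq_iff])
      simp only [len_cons, len_nil, add_zero] at f g
      exact Or.inr (Or.inr (Or.inr (Or.inr (Or.inr (Or.inl ⟨p.reverse, by rw [len_reverse]; linarith, by rw [len_reverse]; linarith⟩)))))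
    · have f := hp (Walk.cons h23 (Walk.cons h34 (Walk.cons h40 (Walk.cons h01 Walk.nil)))) (by simp [Sym2.eq_iff])
      have g := hp (Walk.cons h12.symm Walk.nil) (by simp [Sym2.eq_iff])
      simp only [len_cons, len_nil, add_zero] at f g
      exact Or.inr (Or.inl ⟨p.reverse, by rw [len_reverse]; linarith, by rw [len_reverse]; linarith⟩)
    · exfalso
      have f := hp Walk.nil (by simp)
      have g := len_nonneg ℓ hℓ p
      rw [len_nil] at f
      linarith
    · have f := hp (Walk.cons h23 Walk.nil) (by simp [Sym2.eq_iff])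
      have g := hp (Walk.cons h12.symm (Walk.cons h01.symm (Walk.cons h40.symm (Walk.cons h34.symm Walk.nil)))) (by simp [Sym2.eq_iff])
      simp only [len_cons, len_nil, add_zero] at f g
      exact Or.inr (Or.inr (Or.inl ⟨p, by linarith, by linarith⟩))
    · have f := hp (Walk.cons h23 (Walk.cons h34 Walk.nil)) (by simp [Sym2.eq_iff])
      have g := hp (Walk.cons h12.symm (Walk.cons h01.symm (Walk.cons h40.symm Walk.nil))) (by simp [Sym2.eq_iff])
      simp only [len_cons, len_nil, add_zero] at f g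
      exact Or.inr (Or.inr (Or.inr (Or.inr (Or.inr (Or.inr (Or.inr (Or.inl ⟨p, by linarith, by linarith⟩)))))))
  · rcases hy' with rfl | rfl | rfl | rfl | rfl
    · have f := hp (Walk.cons h34 (Walk.cons h40 Walk.nil)) (by simp [Sym2.eq_iff])
      have g := hp (Walk.cons h23.symm (Walk.cons h12.symm (Walk.cons h01.symm Walk.nil))) (by simp [Sym2.eq_iff])
      simp only [len_cons, len_nil, add_zero] at f g
      exact Or.inr (Or.inr (Or.inr (Or.inr (Or.inr (Or.inr (Or.inr (Or.inr (Or.inl ⟨p, by linarith, by linarith⟩))))))))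
    · have f := hp (Walk.cons h34 (Walk.cons h40 (Walk.cons h01 Walk.nil))) (by simp [Sym2.eq_iff])
      have g := hp (Walk.cons h23.symm (Walk.cons h12.symm Walk.nil)) (by simp [Sym2.eq_iff])
      simp only [len_cons, len_nil, add_zero] at f g
      exact Or.inr (Or.inr (Or.inr (Or.inr (Or.inr (Or.inr (Or.inl ⟨p.reverse, by rw [len_reverse]; linarith, by rw [len_reverse]; linarith⟩))))))
    · have f := hp (Walk.cons h34 (Walk.cons h40 (Walk.cons h01 (Walk.cons h12 Walk.nil)))) (by simp [Sym2.eq_iff])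
      have g := hp (Walk.cons h23.symm Walk.nil) (by simp [Sym2.eq_iff])
      simp only [len_cons, len_nil, add_zero] at f g
      exact Or.inr (Or.inr (Or.inl ⟨p.reverse, by rw [len_reverse]; linarith, by rw [len_reverse]; linarith⟩))
    · exfalso
      have f := hp Walk.nil (by simp)
      have g := len_nonneg ℓ hℓ p
      rw [len_nil] at f
      linarith
    · have f := hp (Walk.cons h34 Walk.nil) (by simp [Sym2.eq_iff])
      have g := hp (Walk.cons h23.symm (Walk.cons h12.symm (Walk.cons h01.symm (Walk.cons h40.symm Walk.nil)))) (by simp [Sym2.eq_iff])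
      simp only [len_cons, len_nil, add_zero] at f g
      exact Or.inr (Or.inr (Or.inr (Or.inl ⟨p, by linarith, by linarith⟩)))
  · rcases hy' with rfl | rfl | rfl | rfl | rfl
    · have f := hp (Walk.cons h40 Walk.nil) (by simp [Sym2.eq_iff])
      have g := hp (Walk.cons h34.symm (Walk.cons h23.symm (Walk.cons h12.symm (Walk.cons h01.symm Walk.nil)))) (by simp [Sym2.eq_iff])
      simp only [len_cons, len_nil, add_zero] at f g
      exact Or.inr (Or.inr (Or.inr (Or.inr (Or.inl ⟨p, by linarith, by linarith⟩))))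
    · have f := hp (Walk.cons h40 (Walk.cons h01 Walk.nil)) (by simp [Sym2.eq_iff])
      have g := hp (Walk.cons h34.symm (Walk.cons h23.symm (Walk.cons h12.symm Walk.nil))) (by simp [Sym2.eq_iff])
      simp only [len_cons, len_nil, add_zero] at f g
      exact Or.inr (Or.inr (Or.inr (Or.inr (Or.inr (Or.inr (Or.inr (Or.inr (Or.inr (⟨p, by linarith, by linarith⟩)))))))))
    · have f := hp (Walk.cons h40 (Walk.cons h01 (Walk.cons h12 Walk.nil))) (by simp [Sym2.eq_iff])
      have g := hp (Walk.cons h34.symm (Walk.cons h23.symm Walk.nil)) (by simp [Sym2.eq_iff])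
      simp only [len_cons, len_nil, add_zero] at f g
      exact Or.inr (Or.inr (Or.inr (Or.inr (Or.inr (Or.inr (Or.inr (Or.inl ⟨p.reverse, by rw [len_reverse]; linarith, by rw [len_reverse]; linarith⟩)))))))
    · have f := hp (Walk.cons h40 (Walk.cons h01 (Walk.cons h12 (Walk.cons h23 Walk.nil)))) (by simp [Sym2.eq_iff])
      have g := hp (Walk.cons h34.symm Walk.nil) (by simp [Sym2.eq_iff])
      simp only [len_cons, len_nil, add_zero] at f g
      exact Or.inr (Or.inr (Or.inr (Or.inl ⟨p.reverse, by rw [len_reverse]; linarith, by rw [len_reverse]; linarith⟩)))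
    · exfalso
      have f := hp Walk.nil (by simp)
      have g := len_nonneg ℓ hℓ p
      rw [len_nil] at f
      linarith

end Pool.Agent.Q166.Geo
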