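import Pool.Agent.Q166.GeoB

/-! The contradiction for two consecutive triangles. -/

namespace Pool.Agent.Q166.Geo

open SimpleGraph

set_option linter.unusedSimpArgs false
set_option linter.unusedVariables false

variable {V : Type} {G : SimpleGraph V} {ℓ : Sym2 V → ℝ}

/-- lower bounds for walks between vertices of the 4-cycle `x y y' x'` -/
structure FaceG (G : SimpleGraph V) (ℓ : Sym2 V → ℝ) (x y x' y' : V) : Prop where
  top : ∀ p : G.Walk x y, min (ℓ s(x, y)) (ℓ s(x, x') + ℓ s(x', y') + ℓ s(y, y')) ≤ len ℓ p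
  bot : ∀ p : G.Walk x' y', min (ℓ s(x', y')) (ℓ s(x, x') + ℓ s(x, y) + ℓ s(y, y')) ≤ len ℓ p
  dg : ∀ p : G.Walk x y', min (ℓ s(x, y) + ℓ s(y, y')) (ℓ s(x, x') + ℓ s(x', y')) ≤ len ℓ p

/-- one half of the contradiction -/
lemma half {a b c a' b' c' : V} (haa : G.Adj a a') (hbb : G.Adj b b') (hcc : G.Adj c c')
    (hab' : G.Adj a' b') (hbc : G.Adj b c)
    (D1 : ∀ p : G.Walk a b, ℓ s(a, a') + ℓ s(a', b') + ℓ s(b, b') ≤ len ℓ p)
    (D2 : ∀ p : G.Walk b' c', ℓ s(b, b') + ℓ s(b, c) + ℓ s(c, c') ≤ len ℓ p)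
    (F1 : ∀ p : G.Walk a c, min (ℓ s(a, c)) (ℓ s(a, a') + ℓ s(a', c') + ℓ s(c, c')) ≤ len ℓ p)
    (F2 : ∀ p : G.Walk a' c, min (ℓ s(a, a') + ℓ s(a, c)) (ℓ s(a', c') + ℓ s(c, c')) ≤ len ℓ p)
    (hpos : 0 < ℓ s(a, a'))
    (N : NG5 G ℓ a c b b' a') :
    ℓ s(a', c') + ℓ s(c, c') < ℓ s(a, a') + ℓ s(a, c) := by
  have e1 : ℓ s(a', a) = ℓ s(a, a') := by rw [Sym2.eq_swap]
  have e2 : ℓ s(b', b) = ℓ s(b, b') := by rw [Sym2.eq_swap]
  have e3 : ℓ s(c', c) = ℓ s(c, c') := by rw [Sym2.eq_swap]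
  have e4 : ℓ s(b', a') = ℓ s(a', b') := by rw [Sym2.eq_swap]
  have e5 : ℓ s(c, b) = ℓ s(b, c) := by rw [Sym2.eq_swap]
  have e6 : ℓ s(c, a) = ℓ s(a, c) := by rw [Sym2.eq_swap]
  rcases N with ⟨p, h1, h2⟩ | ⟨p, h1, h2⟩ | ⟨p, h1, h2⟩ | ⟨p, h1, h2⟩ | ⟨p, h1, h2⟩ |
    ⟨p, h1, h2⟩ | ⟨p, h1, h2⟩ | ⟨p, h1, h2⟩ | ⟨p, h1, h2⟩ | ⟨p, h1, h2⟩
  · -- a c
    have := F1 p
    rcases min_le_iff.1 this with h | h
    · linarith
    · linarith
  · -- c b
    have := D2 (Walk.cons hbb.symm (p.reverse.append (Walk.cons hcc Walk.nil)))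
    simp only [len_cons, len_append, len_reverse, len_nil] at this
    linarith
  · -- b b'
    have := D1 (Walk.cons haa (Walk.cons hab' p.reverse))
    simp only [len_cons, len_append, len_reverse, len_nil] at this
    linarith
  · -- b' a'
    have := D1 (Walk.cons haa (p.reverse.append (Walk.cons hbb.symm Walk.nil)))
    simp only [len_cons, len_append, len_reverse, len_nil] at this
    linarith
  · -- a' a
    have := D1 (p.reverse.append (Walk.cons hab' (Walk.cons hbb.symm Walk.nil)))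
    simp only [len_cons, len_append, len_reverse, len_nil] at this
    linarith
  · -- a b
    have := D1 p
    linarith
  · -- c b'
    have := D2 (p.reverse.append (Walk.cons hcc Walk.nil))
    simp only [len_cons, len_append, len_reverse, len_nil] at this
    linarith
  · -- b a'
    have := D1 (Walk.cons haa p.reverse)
    simp only [len_cons, len_append, len_reverse, len_nil] at this
    linarith
  · -- b' a
    have := D1 (p.reverse.append (Walk.cons hbb.symm Walk.nil))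
    simp only [len_cons, len_append, len_reverse, len_nil] at this
    linarith
  · -- a' c
    have := F2 p
    rcases min_le_iff.1 this with h | h
    · linarith
    · linarith

/-- the core contradiction with fixed names -/
lemma core (f g : Fin 3 → V) (hf : ∀ x y, x ≠ y → G.Adj (f x) (f y))
    (hg : ∀ x y, x ≠ y → G.Adj (g x) (g y)) (hfg : ∀ x, G.Adj (f x) (g x))
    (hℓ : ∀ e ∈ G.edgeSet, 0 < ℓ e)
    (hface : ∀ x y, x ≠ y → FaceG G ℓ (f x) (f y) (g x) (g y))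
    (h5 : ∀ a b c, a ≠ b → b ≠ c → a ≠ c → NG5 G ℓ (f a) (f c) (f b) (g b) (g a))
    (h5' : ∀ a b c, a ≠ b → b ≠ c → a ≠ c → NG5 G ℓ (g a) (g c) (g b) (f b) (f a))
    (a b c : Fin 3) (hab : a ≠ b) (hbc : b ≠ c) (hac : a ≠ c)
    (D1 : ∀ p : G.Walk (f a) (f b), ℓ s(f a, g a) + ℓ s(g a, g b) + ℓ s(f b, g b) ≤ len ℓ p)
    (D2 : ∀ p : G.Walk (g b) (g c), ℓ s(f b, g b) + ℓ s(f b, f c) + ℓ s(f c, g c) ≤ len ℓ p) :
    False := by
  have e : ∀ x y : V, ℓ s(x, y) = ℓ s(y, x) := fun x y => by rw [Sym2.eq_swap]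
  have h1 := half (ℓ := ℓ) (hfg a) (hfg b) (hfg c) (hg a b hab) (hf b c hbc) D1 D2
    (hface a c hac).top
    (fun p => by
      have := (hface c a hac.symm).dg p.reverse
      rw [len_reverse] at this
      rw [e (f c) (f a), e (g c) (g a)] at this
      rw [add_comm (ℓ s(f a, g a)), add_comm (ℓ s(g a, g c))]
      exact this)
    (hℓ _ (hfg a)) (h5 a b c hab hbc hac)
  have h2 := half (ℓ := ℓ) (hfg c).symm (hfg b).symm (hfg a).symm (hf c b hbc.symm)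
    (hg b a hab.symm)
    (fun p => by
      have := D2 p.reverse
      rw [len_reverse] at this
      rw [e (g c) (f c), e (f c) (f b), e (g b) (f b)]
      linarith)
    (fun p => by
      have := D1 p.reverse
      rw [len_reverse] at this
      rw [e (g b) (f b), e (g b) (g a), e (g a) (f a)]
      linarith)
    (fun p => by
      have := (hface c a hac.symm).bot p
      rw [e (g c) (f c), e (g a) (f a)]
      exact this)
    (fun p => by
      have := (hface c a hac.symm).dg p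
      rw [e (g c) (f c), e (g a) (f a)]
      rw [min_comm, add_comm (ℓ s(f c, f a)), min_comm] at this
      rw [min_comm]
      rw [add_comm (ℓ s(f a, g a))] at this
      exact this)
    (by rw [e]; exact hℓ _ (hfg c)) (h5' c b a hbc.symm hab.symm hac.symm)
  rw [e (f c) (f a), e (g c) (f c), e (g a) (f a), e (g c) (g a)] at h2
  linarith

/-- two consecutive non-geodesic triangles with geodesic 4-cycles between them force a geodesic
5-cycle with a chord -/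
lemma two_triangles (f g : Fin 3 → V) (hf : ∀ x y, x ≠ y → G.Adj (f x) (f y))
    (hg : ∀ x y, x ≠ y → G.Adj (g x) (g y)) (hfg : ∀ x, G.Adj (f x) (g x))
    (hℓ : ∀ e ∈ G.edgeSet, 0 < ℓ e)
    (hface : ∀ x y, x ≠ y → FaceG G ℓ (f x) (f y) (g x) (g y))
    (h5 : ∀ a b c, a ≠ b → b ≠ c → a ≠ c → NG5 G ℓ (f a) (f c) (f b) (g b) (g a))
    (h5' : ∀ a b c, a ≠ b → b ≠ c → a ≠ c → NG5 G ℓ (g a) (g c) (g b) (f b) (f a))
    (hTf : NG3 G ℓ (f 0) (f 1) (f 2)) (hTg : NG3 G ℓ (g 0) (g 1) (g 2)) : False := by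
  have e : ∀ x y : V, ℓ s(x, y) = ℓ s(y, x) := fun x y => by rw [Sym2.eq_swap]
  have D1 : ∃ x y : Fin 3, x ≠ y ∧ ∀ p : G.Walk (f x) (f y),
      ℓ s(f x, g x) + ℓ s(g x, g y) + ℓ s(f y, g y) ≤ len ℓ p := by
    have key : ∀ x y : Fin 3, x ≠ y → (∃ P : G.Walk (f x) (f y), len ℓ P < ℓ s(f x, f y)) →
        ∀ p : G.Walk (f x) (f y), ℓ s(f x, g x) + ℓ s(g x, g y) + ℓ s(f y, g y) ≤ len ℓ p := by
      rintro x y hxy ⟨P, hP⟩ p
      have h1 := (hface x y hxy).top P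
      have h2 := (hface x y hxy).top p
      rcases min_le_iff.1 h1 with h1 | h1
      · linarith
      · rcases min_le_iff.1 h2 with h2 | h2 <;> linarith
    rcases hTf with ⟨P, h1, _⟩ | ⟨P, h1, _⟩ | ⟨P, h1, _⟩
    · exact ⟨0, 1, by decide, key 0 1 (by decide) ⟨P, h1⟩⟩
    · exact ⟨1, 2, by decide, key 1 2 (by decide) ⟨P, h1⟩⟩
    · exact ⟨2, 0, by decide, key 2 0 (by decide) ⟨P, h1⟩⟩
  have D2 : ∃ x y : Fin 3, x ≠ y ∧ ∀ p : G.Walk (g x) (g y),
      ℓ s(f x, g x) + ℓ s(f x, f y) + ℓ s(f y, g y) ≤ len ℓ p := by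
    have key : ∀ x y : Fin 3, x ≠ y → (∃ P : G.Walk (g x) (g y), len ℓ P < ℓ s(g x, g y)) →
        ∀ p : G.Walk (g x) (g y), ℓ s(f x, g x) + ℓ s(f x, f y) + ℓ s(f y, g y) ≤ len ℓ p := by
      rintro x y hxy ⟨P, hP⟩ p
      have h1 := (hface x y hxy).bot P
      have h2 := (hface x y hxy).bot p
      rcases min_le_iff.1 h1 with h1 | h1
      · linarith
      · rcases min_le_iff.1 h2 with h2 | h2 <;> linarith
    rcases hTg with ⟨P, h1, _⟩ | ⟨P, h1, _⟩ | ⟨P, h1, _⟩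
    · exact ⟨0, 1, by decide, key 0 1 (by decide) ⟨P, h1⟩⟩
    · exact ⟨1, 2, by decide, key 1 2 (by decide) ⟨P, h1⟩⟩
    · exact ⟨2, 0, by decide, key 2 0 (by decide) ⟨P, h1⟩⟩
  obtain ⟨x, y, hxy, D1⟩ := D1
  obtain ⟨x', y', hxy', D2⟩ := D2
  have D1s : ∀ p : G.Walk (f y) (f x),
      ℓ s(f y, g y) + ℓ s(g y, g x) + ℓ s(f x, g x) ≤ len ℓ p := by
    intro p
    have := D1 p.reverse
    rw [len_reverse] at this
    rw [e (g y) (g x)]
    linarith
  have D2s : ∀ p : G.Walk (g y') (g x'),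
      ℓ s(f y', g y') + ℓ s(f y', f x') + ℓ s(f x', g x') ≤ len ℓ p := by
    intro p
    have := D2 p.reverse
    rw [len_reverse] at this
    rw [e (f y') (f x')]
    linarith
  have same : ∀ x y : Fin 3, x ≠ y → (∀ p : G.Walk (f x) (f y),
      ℓ s(f x, g x) + ℓ s(g x, g y) + ℓ s(f y, g y) ≤ len ℓ p) → (∀ p : G.Walk (g x) (g y),
      ℓ s(f x, g x) + ℓ s(f x, f y) + ℓ s(f y, g y) ≤ len ℓ p) → False := by
    intro x y hxy D1 D2
    have h1 := D1 (Walk.cons (hf x y hxy) Walk.nil)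
    have h2 := D2 (Walk.cons (hg x y hxy) Walk.nil)
    simp only [len_cons, len_nil] at h1 h2
    have h3 : 0 < ℓ s(f x, g x) := hℓ _ (hfg x)
    have h4 : 0 < ℓ s(f y, g y) := hℓ _ (hfg y)
    linarith
  have hcases : (x = x' ∧ y = y') ∨ (x = y' ∧ y = x') ∨ (y = x' ∧ x ≠ y') ∨ (y = y' ∧ x ≠ x') ∨
      (x = x' ∧ y ≠ y') ∨ (x = y' ∧ y ≠ x') := by
    have : ∀ x y x' y' : Fin 3, x ≠ y → x' ≠ y' →
      (x = x' ∧ y = y') ∨ (x = y' ∧ y = x') ∨ (y = x' ∧ x ≠ y') ∨ (y = y' ∧ x ≠ x') ∨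
      (x = x' ∧ y ≠ y') ∨ (x = y' ∧ y ≠ x') := by decide
    exact this x y x' y' hxy hxy'
  rcases hcases with ⟨rfl, rfl⟩ | ⟨rfl, rfl⟩ | ⟨rfl, h⟩ | ⟨rfl, h⟩ | ⟨rfl, h⟩ | ⟨rfl, h⟩
  · exact same _ _ hxy D1 D2
  · exact same _ _ hxy D1 D2s
  · exact core f g hf hg hfg hℓ hface h5 h5' x y y' hxy hxy' h D1 D2
  · exact core f g hf hg hfg hℓ hface h5 h5' x y x' hxy hxy'.symm h D1 D2s
  · exact core f g hf hg hfg hℓ hface h5 h5' y x y' hxy.symm hxy' h D1s D2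
  · exact core f g hf hg hfg hℓ hface h5 h5' y x x' hxy.symm hxy'.symm h D1s D2s

end Pool.Agent.Q166.Geo
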