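import Pool.Agent.Q166.GeoC

/-! The graph `K₃ □ P₅` and its induced cycles. -/

namespace Pool.Agent.Q166.Geo

open SimpleGraph

set_option linter.unusedSimpArgs false
set_option linter.unusedVariables false

/-- The Cartesian product of a path with 5 vertices and a triangle. -/
def prism : SimpleGraph (Fin 5 × Fin 3) where
  Adj x y := (x.1 = y.1 ∧ x.2 ≠ y.2) ∨
    (x.2 = y.2 ∧ (x.1.val + 1 = y.1.val ∨ y.1.val + 1 = x.1.val))
  symm := ⟨fun x y h => by
    rcases h with ⟨h1, h2⟩ | ⟨h1, h2 | h2⟩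
    · exact Or.inl ⟨h1.symm, h2.symm⟩
    · exact Or.inr ⟨h1.symm, Or.inr h2⟩
    · exact Or.inr ⟨h1.symm, Or.inl h2⟩⟩
  loopless := ⟨fun x h => by
    rcases h with ⟨_, h⟩ | ⟨_, h | h⟩
    · exact h rfl
    · omega
    · omega⟩

instance : DecidableRel prism.Adj := fun x y => by
  unfold prism
  infer_instance

lemma avoid : ∀ (u v : Fin 5 × Fin 3) (i : Fin 4), ∃ s : Fin 3,
    (i.castSucc, s) ≠ u ∧ (i.castSucc, s) ≠ v ∧ (i.succ, s) ≠ u ∧ (i.succ, s) ≠ v := by
  decide +kernel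

lemma prism_connected (u v : Fin 5 × Fin 3) (S : Finset (Fin 5 × Fin 3))
    (hS : ∀ x ∈ S, x = u ∨ x = v) : (prism.induce {x | x ∉ S}).Connected := by
  have hav : ∀ i : Fin 4, ∃ s : Fin 3, (i.castSucc, s) ∉ S ∧ (i.succ, s) ∉ S := by
    intro i
    obtain ⟨s, h1, h2, h3, h4⟩ := avoid u v i
    refine ⟨s, fun h => ?_, fun h => ?_⟩
    · rcases hS _ h with h | h
      · exact h1 h
      · exact h2 h
    · rcases hS _ h with h | h
      · exact h3 h
      · exact h4 h
  have same : ∀ x y : {x : Fin 5 × Fin 3 // x ∉ S}, x.1.1 = y.1.1 →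
      (prism.induce {x | x ∉ S}).Reachable x y := by
    intro x y h
    by_cases hxy : x = y
    · rw [hxy]
    · apply SimpleGraph.Adj.reachable
      show prism.Adj x.1 y.1
      left
      refine ⟨h, fun h2 => hxy ?_⟩
      apply Subtype.ext
      exact Prod.ext h h2
  have down : ∀ (k : ℕ) (x : {x : Fin 5 × Fin 3 // x ∉ S}), x.1.1.val = k →
      ∀ y : {x : Fin 5 × Fin 3 // x ∉ S}, y.1.1.val = 0 →
      (prism.induce {x | x ∉ S}).Reachable x y := by
    intro k
    induction k with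
    | zero =>
      intro x hx y hy
      exact same x y (Fin.ext (by rw [hx, hy]))
    | succ k ih =>
      intro x hx y hy
      have hk : k < 4 := by have := x.1.1.isLt; omega
      obtain ⟨s, hs1, hs2⟩ := hav ⟨k, hk⟩
      have r1 := same x ⟨_, hs2⟩ (Fin.ext (by rw [hx]; rfl))
      have r2 : (prism.induce {x | x ∉ S}).Reachable (⟨_, hs2⟩ : {x : Fin 5 × Fin 3 // x ∉ S})
          ⟨_, hs1⟩ := by
        apply SimpleGraph.Adj.reachable
        show prism.Adj (Fin.succ ⟨k, hk⟩, s) (Fin.castSucc ⟨k, hk⟩, s)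
        right
        refine ⟨rfl, Or.inr ?_⟩
        simp
      have r3 := ih ⟨_, hs1⟩ (by simp) y hy
      exact r1.trans (r2.trans r3)
  obtain ⟨s, hs1, hs2⟩ := hav 0
  have : Nonempty {x : Fin 5 × Fin 3 // x ∉ S} := ⟨⟨_, hs1⟩⟩
  refine @SimpleGraph.Connected.mk _ _ ?_ this
  intro x y
  exact (down _ x rfl ⟨_, hs1⟩ rfl).trans (down _ y rfl ⟨_, hs1⟩ rfl).symm

theorem prism_threeConnected : ThreeConnected prism := by
  refine ⟨by simp, ?_⟩
  intro S hS
  have : ∃ u v, ∀ x ∈ S, x = u ∨ x = v := by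
    have h : S.card = 0 ∨ S.card = 1 ∨ S.card = 2 := by omega
    rcases h with h | h | h
    · rw [Finset.card_eq_zero] at h
      subst h
      exact ⟨(0, 0), (0, 0), by simp⟩
    · obtain ⟨a, rfl⟩ := Finset.card_eq_one.1 h
      exact ⟨a, a, by simp⟩
    · obtain ⟨a, b, _, rfl⟩ := Finset.card_eq_two.1 h
      exact ⟨a, b, by simp⟩
  obtain ⟨u, v, h⟩ := this
  exact prism_connected u v S h

/-- in an induced cycle every vertex has exactly two neighbours on the cycle -/
lemma two_nb {V : Type} {G : SimpleGraph V} {v : V} {c : G.Walk v v} (hc : c.IsCycle)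
    (hch : c.IsChordless) {x : V} (hx : x ∈ c.support) :
    ∃ y z, y ≠ z ∧ ∀ w, (G.Adj x w ∧ w ∈ c.support) ↔ (w = y ∨ w = z) := by
  have h := hc.ncard_neighborSet_toSubgraph_eq_two hx
  obtain ⟨y, z, hyz, hset⟩ := Set.ncard_eq_two.1 h
  refine ⟨y, z, hyz, fun w => ?_⟩
  have : w ∈ c.toSubgraph.neighborSet x ↔ w ∈ ({y, z} : Set V) := by rw [hset]
  rw [Subgraph.mem_neighborSet, Walk.adj_toSubgraph_iff_mem_edges] at this
  simp only [Set.mem_insert_iff, Set.mem_singleton_iff] at this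
  rw [← this]
  constructor
  · rintro ⟨h1, h2⟩
    exact hch.mem_edges hx h2 h1
  · intro h1
    exact ⟨c.adj_of_mem_edges h1, c.snd_mem_support_of_mem_edges h1⟩

lemma two_nb_eq {V : Type} {G : SimpleGraph V} {v : V} {c : G.Walk v v} (hc : c.IsCycle)
    (hch : c.IsChordless) {x : V} (hx : x ∈ c.support) {p q w : V} (hp : G.Adj x p)
    (hps : p ∈ c.support) (hq : G.Adj x q) (hqs : q ∈ c.support) (hpq : p ≠ q)
    (hw : G.Adj x w) (hws : w ∈ c.support) : w = p ∨ w = q := by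
  obtain ⟨y, z, hyz, h⟩ := two_nb hc hch hx
  have h1 := (h p).1 ⟨hp, hps⟩
  have h2 := (h q).1 ⟨hq, hqs⟩
  have h3 := (h w).1 ⟨hw, hws⟩
  rcases h1 with rfl | rfl <;> rcases h2 with rfl | rfl <;> rcases h3 with rfl | rfl <;> simp_all

lemma walk_closed {V : Type} {G : SimpleGraph V} (P : V → Prop) {u v : V} (w : G.Walk u v)
    (hu : P u) (h : ∀ x, P x → ∀ y ∈ w.support, G.Adj x y → P y) : ∀ y ∈ w.support, P y := by
  induction w with
  | nil =>
    intro y hy
    rw [Walk.support_nil, List.mem_singleton] at hy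
    rw [hy]; exact hu
  | @cons a b d hab p ih =>
    intro y hy
    rw [Walk.support_cons, List.mem_cons] at hy
    have hb : P b := h a hu b (by rw [Walk.support_cons]; simp) hab
    have ih' := ih hb (fun x hx y hy hxy => h x hx y (by rw [Walk.support_cons]; simp [hy]) hxy)
    rcases hy with rfl | hy
    · exact hu
    · exact ih' y hy

lemma cyc_closed {V : Type} [DecidableEq V] {G : SimpleGraph V} (P : V → Prop) {v : V}
    (c : G.Walk v v) {u : V} (hus : u ∈ c.support) (hu : P u)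
    (h : ∀ x, P x → ∀ y ∈ c.support, G.Adj x y → P y) : ∀ y ∈ c.support, P y := by
  intro y hy
  have := walk_closed P (c.rotate u hus) hu (fun x hx y hy hxy => h x hx y (by
    rwa [Walk.mem_support_rotate_iff] at hy) hxy)
  exact this y (by rw [Walk.mem_support_rotate_iff]; exact hy)

/-- the induced cycles of the prism are the triangles and the 4-cycles between them -/
lemma classify {v : Fin 5 × Fin 3} (c : prism.Walk v v) (hc : c.IsCycle) (hch : c.IsChordless) :
    (∃ j : Fin 5, ∀ x, x ∈ c.support ↔ x.1 = j) ∨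
    (∃ (j : Fin 4) (r : Fin 3), ∀ x, x ∈ c.support ↔
      (x.2 ≠ r ∧ (x.1 = j.castSucc ∨ x.1 = j.succ))) := by
  obtain ⟨x, hx, hmin⟩ := Finset.exists_min_image c.support.toFinset (fun x => x.1.val)
    ⟨v, by simp⟩
  simp only [List.mem_toFinset] at hx hmin
  -- the dichotomy at a vertex in the lowest layer
  have L : ∀ y ∈ c.support, y.1 = x.1 → (∀ s : Fin 3, (x.1, s) ∈ c.support) ∨
      (∃ z ∈ c.support, z.1 = y.1 ∧ z.2 ≠ y.2) ∧ (∃ z ∈ c.support, z.2 = y.2 ∧
        y.1.val + 1 = z.1.val) := by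
    intro y hy hyx
    obtain ⟨p, q, hpq, h⟩ := two_nb hc hch hy
    obtain ⟨hp, hps⟩ := (h p).2 (Or.inl rfl)
    obtain ⟨hq, hqs⟩ := (h q).2 (Or.inr rfl)
    have hpm := hmin p hps
    have hqm := hmin q hqs
    rcases hp with ⟨p1, p2⟩ | ⟨p1, p2 | p2⟩
    · rcases hq with ⟨q1, q2⟩ | ⟨q1, q2 | q2⟩
      · left
        have hpq2 : p.2 ≠ q.2 := fun h' => hpq (Prod.ext (p1.symm.trans q1) h')
        have hall : ∀ a b d s : Fin 3, a ≠ b → a ≠ d → b ≠ d → s = a ∨ s = b ∨ s = d := by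
          decide
        intro s
        rcases hall y.2 p.2 q.2 s p2 q2 hpq2 with hs | hs | hs
        · rw [hs, ← hyx]; exact hy
        · rw [hs, ← hyx, p1]; exact hps
        · rw [hs, ← hyx, q1]; exact hqs
      · right
        exact ⟨⟨p, hps, p1.symm, p2.symm⟩, ⟨q, hqs, q1.symm, q2⟩⟩
      · exfalso; rw [hyx] at q2; omega
    · rcases hq with ⟨q1, q2⟩ | ⟨q1, q2 | q2⟩
      · right
        exact ⟨⟨q, hqs, q1.symm, q2.symm⟩, ⟨p, hps, p1.symm, p2⟩⟩
      · exfalso
        apply hpq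
        apply Prod.ext
        · apply Fin.ext; omega
        · rw [← p1, ← q1]
      · exfalso; rw [hyx] at q2; omega
    · exfalso; rw [hyx] at p2; omega
  by_cases hT : ∀ s : Fin 3, (x.1, s) ∈ c.support
  · left
    refine ⟨x.1, fun y => ⟨?_, ?_⟩⟩
    · revert y
      apply cyc_closed (fun y => y.1 = x.1) c hx rfl
      intro y hy z hz hyz
      have hy' : y ∈ c.support := by
        have := hT y.2
        rw [← hy] at this
        exact this
      have e : ∀ s : Fin 3, s ≠ s + 1 ∧ s ≠ s + 2 ∧ s + 1 ≠ s + 2 := by decide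
      have := two_nb_eq hc hch hy' (p := (x.1, y.2 + 1)) (q := (x.1, y.2 + 2)) (w := z)
        (Or.inl ⟨hy, (e y.2).1⟩) (hT _) (Or.inl ⟨hy, (e y.2).2.1⟩) (hT _)
        (fun h => (e y.2).2.2 (Prod.ext_iff.1 h).2) hyz hz
      rcases this with h | h <;> rw [h]
    · intro hy
      have := hT y.2
      rw [← hy] at this
      exact this
  · right
    obtain ⟨⟨y, hy, hy1, hy2⟩, ⟨z, hz, hz1, hz2⟩⟩ := (L x hx rfl).resolve_left hT
    obtain ⟨_, ⟨t, ht, ht1, ht2⟩⟩ := (L y hy hy1).resolve_left hT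
    have hj : x.1.val < 4 := by have := z.1.isLt; omega
    let j : Fin 4 := ⟨x.1.val, hj⟩
    have hxj : x.1 = j.castSucc := by apply Fin.ext; rfl
    have hzj : z.1 = j.succ := by
      apply Fin.ext
      show z.1.val = x.1.val + 1
      omega
    have htj : t.1 = j.succ := by
      apply Fin.ext
      show t.1.val = x.1.val + 1
      rw [← hy1]
      omega
    have hex : ∃ r : Fin 3, ∀ s : Fin 3, s ≠ r ↔ (s = x.2 ∨ s = y.2) := by
      have : ∀ a b : Fin 3, b ≠ a → ∃ r : Fin 3, ∀ s : Fin 3, s ≠ r ↔ (s = a ∨ s = b) := by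
        decide
      exact this _ _ hy2
    obtain ⟨r, hr⟩ := hex
    -- the four vertices
    have hx' : x = (j.castSucc, x.2) := Prod.ext hxj rfl
    have hy' : y = (j.castSucc, y.2) := Prod.ext (hy1.trans hxj) rfl
    have hz' : z = (j.succ, x.2) := Prod.ext hzj hz1
    have ht' : t = (j.succ, y.2) := Prod.ext htj ht1
    have hmem : ∀ w : Fin 5 × Fin 3, (w.2 ≠ r ∧ (w.1 = j.castSucc ∨ w.1 = j.succ)) →
        w ∈ c.support := by
      rintro ⟨w1, w2⟩ ⟨h1, h2⟩
      simp only at h1 h2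
      rcases (hr w2).1 h1 with h1 | h1 <;> rcases h2 with h2 | h2 <;> rw [h1, h2]
      · rw [← hx']; exact hx
      · rw [← hz']; exact hz
      · rw [← hy']; exact hy
      · rw [← ht']; exact ht
    refine ⟨j, r, fun w => ⟨?_, hmem w⟩⟩
    revert w
    have hjs : (j.castSucc : Fin 5) ≠ j.succ := by
      intro h
      have := congrArg Fin.val h
      simp at this
    apply cyc_closed (fun w => w.2 ≠ r ∧ (w.1 = j.castSucc ∨ w.1 = j.succ)) c hx
      ⟨(hr _).2 (Or.inl rfl), Or.inl hxj⟩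
    intro w hw w' hw's hww'
    have hws := hmem w hw
    -- the two neighbours of w inside the 4-cycle
    have hother : ∃ s : Fin 3, s ≠ r ∧ s ≠ w.2 := by
      have : ∀ a b : Fin 3, ∃ s : Fin 3, s ≠ a ∧ s ≠ b := by decide
      exact this _ _
    obtain ⟨s, hs1, hs2⟩ := hother
    rcases hw with ⟨hw2, hw1 | hw1⟩
    · have hp := hmem (j.castSucc, s) ⟨hs1, Or.inl rfl⟩
      have hq := hmem (j.succ, w.2) ⟨hw2, Or.inr rfl⟩
      have := two_nb_eq hc hch hws (p := (j.castSucc, s)) (q := (j.succ, w.2)) (w := w')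
        (Or.inl ⟨hw1, hs2.symm⟩) hp (Or.inr ⟨rfl, Or.inl (by rw [hw1]; simp)⟩) hq
        (fun h => hs2 (Prod.ext_iff.1 h).2) hww' hw's
      rcases this with h | h <;> rw [h]
      · exact ⟨hs1, Or.inl rfl⟩
      · exact ⟨hw2, Or.inr rfl⟩
    · have hp := hmem (j.succ, s) ⟨hs1, Or.inr rfl⟩
      have hq := hmem (j.castSucc, w.2) ⟨hw2, Or.inl rfl⟩
      have := two_nb_eq hc hch hws (p := (j.succ, s)) (q := (j.castSucc, w.2)) (w := w')
        (Or.inl ⟨hw1, hs2.symm⟩) hp (Or.inr ⟨rfl, Or.inr (by rw [hw1]; simp)⟩) hq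
        (fun h => hs2 (Prod.ext_iff.1 h).2) hww' hw's
      rcases this with h | h <;> rw [h]
      · exact ⟨hs1, Or.inr rfl⟩
      · exact ⟨hw2, Or.inl rfl⟩

end Pool.Agent.Q166.Geo
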