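import Pool.Agent.Q166.GeoD

/-! `K₃ □ P₅` has no length assignment all of whose geodesic cycles are peripheral. -/

namespace Pool.Agent.Q166.Geo

open SimpleGraph

set_option linter.unusedSimpArgs false
set_option linter.unusedVariables false

section general

variable {V : Type} {G : SimpleGraph V} {ℓ : Sym2 V → ℝ}

lemma faceG_of_bound {x y x' y' : V} (hxy : G.Adj x y) (hyy : G.Adj y y') (hxx : G.Adj x x')
    (hxy' : G.Adj x' y') (σ : Sym2 V → ZMod 2)
    (hσ : σ s(x, y) + σ s(y, y') + σ s(x', y') + σ s(x, x') = 1)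
    (hb : ∀ (u : V) (w : G.Walk u u), par σ w = 1 →
      ℓ s(x, y) + ℓ s(y, y') + ℓ s(x', y') + ℓ s(x, x') ≤ len ℓ w) :
    FaceG G ℓ x y x' y' := by
  have e1 : ℓ s(y, x) = ℓ s(x, y) := by rw [Sym2.eq_swap]
  have e2 : ℓ s(y', y) = ℓ s(y, y') := by rw [Sym2.eq_swap]
  have e3 : ℓ s(y', x') = ℓ s(x', y') := by rw [Sym2.eq_swap]
  have e4 : ℓ s(x', x) = ℓ s(x, x') := by rw [Sym2.eq_swap]
  have t1 : σ s(y, x) = σ s(x, y) := by rw [Sym2.eq_swap]
  have t2 : σ s(y', y) = σ s(y, y') := by rw [Sym2.eq_swap]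
  have t3 : σ s(y', x') = σ s(x', y') := by rw [Sym2.eq_swap]
  have t4 : σ s(x', x) = σ s(x, x') := by rw [Sym2.eq_swap]
  have hz : ∀ P A B C D : ZMod 2, A + B + C + D = 1 →
      ((P + A = 1 ∨ P + (B + C + D) = 1) ∧ (P + (A + B) = 1 ∨ P + (C + D) = 1) ∧
       (P + C = 1 ∨ P + (A + B + D) = 1)) := by decide
  refine ⟨fun p => ?_, fun p => ?_, fun p => ?_⟩
  · rcases (hz (par σ p) _ _ _ _ hσ).1 with h | h
    · have := hb _ (p.append (Walk.cons hxy.symm Walk.nil)) (by
        rw [par_append, par_cons, par_nil, add_zero, t1]; exact h)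
      simp only [len_append, len_cons, len_nil] at this
      rw [min_le_iff]; right; linarith
    · have := hb _ (p.append (Walk.cons hyy (Walk.cons hxy'.symm (Walk.cons hxx.symm Walk.nil)))) (by
        rw [par_append, par_cons, par_cons, par_cons, par_nil, add_zero, t3, t4, ← add_assoc (σ s(y, y'))]
        exact h)
      simp only [len_append, len_cons, len_nil] at this
      rw [min_le_iff]; left; linarith
  · rcases (hz (par σ p) _ _ _ _ hσ).2.2 with h | h
    · have := hb _ (p.append (Walk.cons hxy'.symm Walk.nil)) (by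
        rw [par_append, par_cons, par_nil, add_zero, t3]; exact h)
      simp only [len_append, len_cons, len_nil] at this
      rw [min_le_iff]; right; linarith
    · have := hb _ (p.append (Walk.cons hyy.symm (Walk.cons hxy.symm (Walk.cons hxx Walk.nil)))) (by
        rw [par_append, par_cons, par_cons, par_cons, par_nil, add_zero, t1, t2,
          ← add_assoc (σ s(y, y')), add_comm (σ s(y, y'))]
        exact h)
      simp only [len_append, len_cons, len_nil] at this
      rw [min_le_iff]; left; linarith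
  · rcases (hz (par σ p) _ _ _ _ hσ).2.1 with h | h
    · have := hb _ (p.append (Walk.cons hyy.symm (Walk.cons hxy.symm Walk.nil))) (by
        rw [par_append, par_cons, par_cons, par_nil, add_zero, t1, t2, add_comm (σ s(y, y'))]
        exact h)
      simp only [len_append, len_cons, len_nil] at this
      rw [min_le_iff]; right; linarith
    · have := hb _ (p.append (Walk.cons hxy'.symm (Walk.cons hxx.symm Walk.nil))) (by
        rw [par_append, par_cons, par_cons, par_nil, add_zero, t3, t4]; exact h)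
      simp only [len_append, len_cons, len_nil] at this
      rw [min_le_iff]; left; linarith

lemma ng5_of_chord [DecidableEq V] (hℓ : ∀ e ∈ G.edgeSet, 0 < ℓ e)
    (H : ∀ (v : V) (c : G.Walk v v), IsGeodesicCycle ℓ c → IsPeripheral c)
    {v0 v1 v2 v3 v4 : V} (h01 : G.Adj v0 v1) (h12 : G.Adj v1 v2) (h23 : G.Adj v2 v3)
    (h34 : G.Adj v3 v4) (h40 : G.Adj v4 v0) (h02 : G.Adj v0 v2)
    (n03 : v0 ≠ v3) (n13 : v1 ≠ v3) (n14 : v1 ≠ v4) (n24 : v2 ≠ v4) :
    NG5 G ℓ v0 v1 v2 v3 v4 := by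
  have hc : (Walk.cons h01 (Walk.cons h12 (Walk.cons h23 (Walk.cons h34
      (Walk.cons h40 Walk.nil))))).IsCycle := by
    rw [Walk.cons_isCycle_iff]
    constructor
    · simp only [Walk.cons_isPath_iff, Walk.support_cons, Walk.support_nil, List.mem_cons,
        List.not_mem_nil, or_false, Walk.IsPath.nil, true_and]
      refine ⟨⟨⟨h40.ne, ?_⟩, ?_⟩, ?_⟩
      · rintro (h | h)
        · exact h34.ne h
        · exact n03 h.symm
      · rintro (h | h | h)
        · exact h23.ne h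
        · exact n24 h
        · exact h02.ne h.symm
      · rintro (h | h | h | h)
        · exact h12.ne h
        · exact n13 h
        · exact n14 h
        · exact h01.ne h.symm
    · simp only [Walk.edges_cons, Walk.edges_nil, List.mem_cons, List.not_mem_nil, or_false,
        Sym2.eq_iff]
      have := h01.ne
      have := h02.ne
      have := h12.ne
      have := h23.ne
      have := h34.ne
      have := h40.ne
      tauto
  refine ng5 hℓ h01 h12 h23 h34 h40 hc (fun hg => ?_)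
  have hch := (H _ _ hg).2.1
  have := hch.mem_edges (u' := v0) (v' := v2) (by simp) (by simp) h02
  simp only [Walk.edges_cons, Walk.edges_nil, List.mem_cons, List.not_mem_nil, or_false,
        Sym2.eq_iff] at this
  have := h01.ne
  have := h02.ne
  have := h12.ne
  have := h23.ne
  have := h34.ne
  have := h40.ne
  have := h40.ne.symm
  tauto

end general

/-- the edges of the triangle in layer `j` -/
def triE (j : Fin 5) : Finset (Sym2 (Fin 5 × Fin 3)) :=
  {s((j, 0), (j, 1)), s((j, 1), (j, 2)), s((j, 2), (j, 0))}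

/-- the edges of the 4-cycle between layers `j` and `j+1` avoiding column `r` -/
def faceE (j : Fin 4) (r : Fin 3) : Finset (Sym2 (Fin 5 × Fin 3)) :=
  {s((j.castSucc, r + 1), (j.castSucc, r + 2)), s((j.castSucc, r + 2), (j.succ, r + 2)),
   s((j.succ, r + 1), (j.succ, r + 2)), s((j.castSucc, r + 1), (j.succ, r + 1))}

/-- the edges crossed by a dual path from the 4-cycle `(1, s)` to the 4-cycle `(2, t)` -/
def sig (s t : Fin 3) (e : Sym2 (Fin 5 × Fin 3)) : ZMod 2 :=
  (if e = s((2, s + 1), (2, s + 2)) then 1 else 0) +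
  (if s ≠ t ∧ e = s((2, -s - t), (3, -s - t)) then 1 else 0)

lemma tri1 : ∀ (j : Fin 5) (x y : Fin 5 × Fin 3), prism.Adj x y → x.1 = j → y.1 = j →
    s(x, y) ∈ triE j := by decide +kernel

lemma tri2 : ∀ (j : Fin 5) (x y : Fin 5 × Fin 3), s(x, y) ∈ triE j →
    prism.Adj x y ∧ x.1 = j ∧ y.1 = j := by decide +kernel

lemma face1 : ∀ (j : Fin 4) (r : Fin 3) (x y : Fin 5 × Fin 3), prism.Adj x y →
    (x.2 ≠ r ∧ (x.1 = j.castSucc ∨ x.1 = j.succ)) →
    (y.2 ≠ r ∧ (y.1 = j.castSucc ∨ y.1 = j.succ)) → s(x, y) ∈ faceE j r := by decide +kernel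

lemma face2 : ∀ (j : Fin 4) (r : Fin 3) (x y : Fin 5 × Fin 3), s(x, y) ∈ faceE j r →
    prism.Adj x y ∧ (x.2 ≠ r ∧ (x.1 = j.castSucc ∨ x.1 = j.succ)) ∧
    (y.2 ≠ r ∧ (y.1 = j.castSucc ∨ y.1 = j.succ)) := by decide +kernel

lemma sum_tri : ∀ (s t : Fin 3) (j : Fin 5), ∑ e ∈ triE j, sig s t e = 1 → j = 2 := by
  decide +kernel

lemma sum_face : ∀ (s t : Fin 3) (j : Fin 4) (r : Fin 3), ∑ e ∈ faceE j r, sig s t e = 1 →
    (j = 1 ∧ r = s) ∨ (j = 2 ∧ r = t) := by
  decide +kernel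

lemma sum_face1 : ∀ (s t : Fin 3), ∑ e ∈ faceE 1 s, sig s t e = 1 := by
  decide +kernel

lemma sum_face2 : ∀ (s t : Fin 3), ∑ e ∈ faceE 2 t, sig s t e = 1 := by
  decide +kernel

lemma sum_faceE {R : Type} [AddCommMonoid R] (h : Sym2 (Fin 5 × Fin 3) → R) (j : Fin 4)
    (r : Fin 3) : ∑ e ∈ faceE j r, h e =
      h s((j.castSucc, r + 1), (j.castSucc, r + 2)) + h s((j.castSucc, r + 2), (j.succ, r + 2)) +
      h s((j.succ, r + 1), (j.succ, r + 2)) + h s((j.castSucc, r + 1), (j.succ, r + 1)) := by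
  unfold faceE
  rw [Finset.sum_insert, Finset.sum_insert, Finset.sum_insert, Finset.sum_singleton]
  · rw [add_assoc, add_assoc]
  · revert j r; decide +kernel
  · revert j r; decide +kernel
  · revert j r; decide +kernel

lemma edges_eq {v : Fin 5 × Fin 3} {c : prism.Walk v v} (hch : c.IsChordless)
    (P : Fin 5 × Fin 3 → Prop) (hP : ∀ x, x ∈ c.support ↔ P x)
    (E : Finset (Sym2 (Fin 5 × Fin 3)))
    (h1 : ∀ x y, prism.Adj x y → P x → P y → s(x, y) ∈ E)
    (h2 : ∀ x y, s(x, y) ∈ E → prism.Adj x y ∧ P x ∧ P y) : c.edges.toFinset = E := by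
  ext e
  induction e using Sym2.ind with
  | _ x y =>
    rw [List.mem_toFinset]
    constructor
    · intro h
      exact h1 x y (c.adj_of_mem_edges h) ((hP x).1 (c.fst_mem_support_of_mem_edges h))
        ((hP y).1 (c.snd_mem_support_of_mem_edges h))
    · intro h
      obtain ⟨ha, hx, hy⟩ := h2 x y h
      exact hch.mem_edges ((hP x).2 hx) ((hP y).2 hy) ha

/-- a triangle in a middle layer is not peripheral -/
lemma tri_not_peripheral {v : Fin 5 × Fin 3} {c : prism.Walk v v} (j : Fin 5) (h0 : 0 < j.val)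
    (h4 : j.val < 4) (hs : ∀ x, x ∈ c.support ↔ x.1 = j) : ¬ IsPeripheral c := by
  rintro ⟨_, _, hpre⟩
  have h0' : (0, 0) ∉ c.support := by
    rw [hs]
    intro h
    rw [← h] at h0
    simp at h0
  have h4' : (4, 0) ∉ c.support := by
    rw [hs]
    intro h
    rw [← h] at h4
    simp at h4
  obtain ⟨w⟩ := hpre ⟨(0, 0), h0'⟩ ⟨(4, 0), h4'⟩
  have key := walk_closed (fun x : {x : Fin 5 × Fin 3 // x ∉ c.support} => x.1.1.val < j.val) w
    (by simpa using h0) (by
      intro x hx y _ hxy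
      have hxy' : prism.Adj x.1 y.1 := hxy
      have hy : y.1.1 ≠ j := fun h => y.2 ((hs _).2 h)
      have hy' : y.1.1.val ≠ j.val := fun h => hy (Fin.ext h)
      rcases hxy' with ⟨h1, _⟩ | ⟨_, h1 | h1⟩
      · rw [← h1]; exact hx
      · omega
      · omega)
  have := key _ w.end_mem_support
  simp at this
  omega

/-- the face `(j, r)` is a shortest odd closed walk for some parity -/
def Bd (ℓ : Sym2 (Fin 5 × Fin 3) → ℝ) (j : Fin 4) (r : Fin 3) : Prop :=
  ∃ σ : Sym2 (Fin 5 × Fin 3) → ZMod 2, ∑ e ∈ faceE j r, σ e = 1 ∧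
    ∀ (u : Fin 5 × Fin 3) (w : prism.Walk u u), par σ w = 1 → ∑ e ∈ faceE j r, ℓ e ≤ len ℓ w

lemma adj_top (j : Fin 5) {a b : Fin 3} (h : a ≠ b) : prism.Adj (j, a) (j, b) := Or.inl ⟨rfl, h⟩

lemma adj_vert (j : Fin 4) (a : Fin 3) : prism.Adj (j.castSucc, a) (j.succ, a) :=
  Or.inr ⟨rfl, Or.inl (by simp)⟩

lemma claimB {ℓ : Sym2 (Fin 5 × Fin 3) → ℝ} (hℓ : ∀ e ∈ prism.edgeSet, 0 < ℓ e)
    (H : ∀ (v : Fin 5 × Fin 3) (c : prism.Walk v v), IsGeodesicCycle ℓ c → IsPeripheral c)
    (s t : Fin 3) : Bd ℓ 1 s ∨ Bd ℓ 2 t := by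
  have hne : ∀ s : Fin 3, s + 1 ≠ s + 2 := by decide
  have hex : ∃ (v : Fin 5 × Fin 3) (w : prism.Walk v v), par (sig s t) w = 1 := by
    refine ⟨_, Walk.cons (adj_top (1 : Fin 4).castSucc (hne s)) (Walk.cons (adj_vert 1 (s + 2))
      (Walk.cons (adj_top (1 : Fin 4).succ (hne s).symm)
        (Walk.cons (adj_vert 1 (s + 1)).symm Walk.nil))), ?_⟩
    simp only [par_cons, par_nil]
    revert s t
    decide +kernel
  obtain ⟨v, c, hg, hp, hmin⟩ := exists_min_odd ℓ (sig s t) hℓ hex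
  obtain ⟨hc, hch, hpre⟩ := H v c hg
  have hnd : c.edges.Nodup := hc.isCircuit.isTrail.edges_nodup
  have hpar : par (sig s t) c = ∑ e ∈ c.edges.toFinset, sig s t e := by
    unfold par
    rw [List.sum_toFinset _ hnd]
  have hlen : len ℓ c = ∑ e ∈ c.edges.toFinset, ℓ e := by
    unfold len
    rw [List.sum_toFinset _ hnd]
  rcases classify c hc hch with ⟨j, hj⟩ | ⟨j, r, hj⟩
  · exfalso
    have hE := edges_eq hch (fun x => x.1 = j) hj (triE j) (tri1 j) (tri2 j)
    rw [hpar, hE] at hp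
    have := sum_tri s t j hp
    subst this
    exact tri_not_peripheral 2 (by decide) (by decide) hj ⟨hc, hch, hpre⟩
  · have hE := edges_eq hch _ hj (faceE j r) (face1 j r) (face2 j r)
    rw [hpar, hE] at hp
    rw [hE] at hlen
    rcases sum_face s t j r hp with ⟨rfl, rfl⟩ | ⟨rfl, rfl⟩
    · left
      exact ⟨sig r t, sum_face1 r t, fun u w hw => by rw [← hlen]; exact hmin u w hw⟩
    · right
      exact ⟨sig s r, sum_face2 s r, fun u w hw => by rw [← hlen]; exact hmin u w hw⟩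

lemma claimA {ℓ : Sym2 (Fin 5 × Fin 3) → ℝ} (hℓ : ∀ e ∈ prism.edgeSet, 0 < ℓ e)
    (H : ∀ (v : Fin 5 × Fin 3) (c : prism.Walk v v), IsGeodesicCycle ℓ c → IsPeripheral c)
    (j : Fin 4) (h1 : 0 < j.val) (h2 : j.val < 3) (hB : ∀ r, Bd ℓ j r) : False := by
  have hjs : (j.castSucc : Fin 5) ≠ j.succ := by
    intro h
    have := congrArg Fin.val h
    simp at this
  have hne : ∀ (x y : Fin 3), ((j.castSucc : Fin 5), x) ≠ (j.succ, y) :=
    fun x y h => hjs (Prod.ext_iff.1 h).1
  have htri : ∀ i : Fin 5, 0 < i.val → i.val < 4 → NG3 prism ℓ (i, 0) (i, 1) (i, 2) := by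
    intro i hi0 hi4
    have h01 : prism.Adj (i, 0) (i, 1) := adj_top i (by decide)
    have h12 : prism.Adj (i, 1) (i, 2) := adj_top i (by decide)
    have h20 : prism.Adj (i, 2) (i, 0) := adj_top i (by decide)
    have hc : (Walk.cons h01 (Walk.cons h12 (Walk.cons h20 Walk.nil))).IsCycle := by
      rw [Walk.cons_isCycle_iff]
      constructor
      · simp [Walk.cons_isPath_iff]
      · simp [Sym2.eq_iff]
    refine ng3 hℓ h01 h12 h20 hc (fun hg => ?_)
    refine tri_not_peripheral i hi0 hi4 ?_ (H _ _ hg)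
    rintro ⟨x1, x2⟩
    simp only [Walk.support_cons, Walk.support_nil, List.mem_cons, List.not_mem_nil, or_false,
      Prod.mk.injEq]
    have : ∀ a : Fin 3, a = 0 ∨ a = 1 ∨ a = 2 := by decide
    have := this x2
    tauto
  refine two_triangles (G := prism) (ℓ := ℓ) (fun s => (j.castSucc, s)) (fun s => (j.succ, s))
    (fun x y h => adj_top _ h) (fun x y h => adj_top _ h) (fun x => adj_vert j x) hℓ ?_ ?_ ?_
    (htri _ (by rw [Fin.val_castSucc]; omega) (by rw [Fin.val_castSucc]; omega))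
    (htri _ (by rw [Fin.val_succ]; omega) (by rw [Fin.val_succ]; omega))
  · intro x y hxy
    have hr : ∀ x y : Fin 3, x ≠ y → ∃ r : Fin 3, (x = r + 1 ∧ y = r + 2) ∨
        (x = r + 2 ∧ y = r + 1) := by decide
    obtain ⟨r, hr⟩ := hr x y hxy
    obtain ⟨σ, hσ, hb⟩ := hB r
    rw [sum_faceE] at hσ
    simp only [sum_faceE] at hb
    rcases hr with ⟨rfl, rfl⟩ | ⟨rfl, rfl⟩
    · exact faceG_of_bound (adj_top _ hxy) (adj_vert _ _) (adj_vert _ _) (adj_top _ hxy) σ hσ hb
    · refine faceG_of_bound (adj_top _ hxy) (adj_vert _ _) (adj_vert _ _) (adj_top _ hxy) σ ?_ ?_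
      · rw [← hσ]
        rw [Sym2.eq_swap (a := ((j.castSucc : Fin 5), r + 2)),
          Sym2.eq_swap (a := ((j.succ : Fin 5), r + 2))]
        ring
      · intro u w hw
        refine le_of_eq_of_le ?_ (hb u w hw)
        rw [Sym2.eq_swap (a := ((j.castSucc : Fin 5), r + 2)) (b := ((j.castSucc : Fin 5), r + 1)),
          Sym2.eq_swap (a := ((j.succ : Fin 5), r + 2)) (b := ((j.succ : Fin 5), r + 1))]
        ring
  · intro a b c hab hbc hac
    exact ng5_of_chord hℓ H (adj_top _ hac) (adj_top _ hbc.symm) (adj_vert _ _)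
      (adj_top _ hab.symm) (adj_vert _ _).symm (adj_top _ hab) (hne _ _) (hne _ _) (hne _ _)
      (hne _ _)
  · intro a b c hab hbc hac
    exact ng5_of_chord hℓ H (adj_top _ hac) (adj_top _ hbc.symm) (adj_vert _ _).symm
      (adj_top _ hab.symm) (adj_vert _ _) (adj_top _ hab) (hne _ _).symm (hne _ _).symm
      (hne _ _).symm (hne _ _).symm

theorem main (ℓ : Sym2 (Fin 5 × Fin 3) → ℝ) (hℓ : ∀ e ∈ prism.edgeSet, 0 < ℓ e) :
    ∃ (v : Fin 5 × Fin 3) (c : prism.Walk v v), IsGeodesicCycle ℓ c ∧ ¬ IsPeripheral c := by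
  by_contra hcon
  push Not at hcon
  have H : ∀ (v : Fin 5 × Fin 3) (c : prism.Walk v v), IsGeodesicCycle ℓ c → IsPeripheral c :=
    hcon
  by_cases h : ∀ r, Bd ℓ 1 r
  · exact claimA hℓ H 1 (by decide) (by decide) h
  · push Not at h
    obtain ⟨s, hs⟩ := h
    exact claimA hℓ H 2 (by decide) (by decide) (fun t => (claimB hℓ H s t).resolve_left hs)

end Pool.Agent.Q166.Geo
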