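import Mathlib

/-!
# Row deletion and the excess of a Hadamard matrix of order 32 (for MP_ba6bee_co)

Explicit Hadamard matrix `H` of order 32 of doubled form and the bounds for the truncated excess.
-/

namespace Pool.Agent.Q166.HEx

open Finset

/-- parity of the four low bits -/
def par (x : ℕ) : Bool :=
  xor (xor (x.testBit 0) (x.testBit 1)) (xor (x.testBit 2) (x.testBit 3))

/-- Sylvester matrix of order 16 (entries for `i, j < 16`) -/
def sy (i j : ℕ) : ℤ := if par (i &&& j) then -1 else 1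

/-- the Sylvester matrix with a closed quadruple of rows switched -/
def bb0 (i j : ℕ) : ℤ := if i < 4 ∧ j % 4 = 0 then - sy i j else sy i j

/-- the previous matrix with rows `0` and `4` interchanged -/
def bb (i j : ℕ) : ℤ := bb0 (if i = 0 then 4 else if i = 4 then 0 else i) j

/-- entries of the doubled matrix `[[S, B], [S, -B]]` -/
def hh (i j : ℕ) : ℤ :=
  if j < 16 then sy (i % 16) j else if i < 16 then bb i (j - 16) else - bb (i - 16) (j - 16)

/-- the Hadamard matrix of order 32 -/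
def H : Matrix (Fin 32) (Fin 32) ℤ := fun i j => hh i.val j.val

theorem sum16 (f : Fin 16 → ℤ) : ∑ i, f i = f 0 + f 1 + f 2 + f 3 + f 4 + f 5 + f 6 + f 7 + f 8
    + f 9 + f 10 + f 11 + f 12 + f 13 + f 14 + f 15 := by
  simp only [Fin.sum_univ_castSucc]
  simp

theorem sgn_sum {n : ℕ} (m : ℤ) (f b : Fin n → ℤ) (hf : ∀ j, m ∣ f j)
    (hb : ∀ j, b j = 1 ∨ b j = -1) : 2 * m ∣ ∑ j, f j * b j - ∑ j, f j := by
  rw [← Finset.sum_sub_distrib]
  apply Finset.dvd_sum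
  intro j _
  rcases hb j with h | h
  · rw [h]
    simp
  · rw [h]
    obtain ⟨c, hc⟩ := hf j
    exact ⟨-c, by rw [hc]; ring⟩

theorem norm16 (M : Fin 16 → Fin 16 → ℤ)
    (hM : ∀ j k, ∑ i, M i j * M i k = if j = k then 16 else 0) (b : Fin 16 → ℤ)
    (hb : ∀ j, b j = 1 ∨ b j = -1) : ∑ i, (∑ j, M i j * b j) ^ 2 = 256 := by
  have h1 : ∀ i, (∑ j, M i j * b j) ^ 2 = ∑ j, ∑ k, (M i j * M i k) * (b j * b k) := by
    intro i
    rw [pow_two, Finset.sum_mul_sum]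
    refine Finset.sum_congr rfl fun j _ => Finset.sum_congr rfl fun k _ => ?_
    ring
  have h2 : ∀ j, b j * b j = 1 := by
    intro j
    rcases hb j with h | h <;> rw [h] <;> norm_num
  calc ∑ i, (∑ j, M i j * b j) ^ 2 = ∑ i, ∑ j, ∑ k, (M i j * M i k) * (b j * b k) :=
        Finset.sum_congr rfl fun i _ => h1 i
    _ = ∑ j, ∑ k, (∑ i, M i j * M i k) * (b j * b k) := by
        rw [Finset.sum_comm]
        refine Finset.sum_congr rfl fun j _ => ?_
        rw [Finset.sum_comm]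
        refine Finset.sum_congr rfl fun k _ => ?_
        rw [Finset.sum_mul]
    _ = ∑ j, 16 * (b j * b j) := by
        refine Finset.sum_congr rfl fun j _ => ?_
        simp only [hM, ite_mul, zero_mul, Finset.sum_ite_eq, Finset.mem_univ, if_true]
    _ = 256 := by
        simp [h2]

/-- the sum of four rows whose sum is divisible by 4 -/
theorem quad (M : Fin 16 → Fin 16 → ℤ) (i j k l : Fin 16)
    (h4 : ∀ c, (4 : ℤ) ∣ M i c + M j c + M k c + M l c)
    (h8 : (8 : ℤ) ∣ ∑ c, (M i c + M j c + M k c + M l c)) (b : Fin 16 → ℤ)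
    (hb : ∀ j, b j = 1 ∨ b j = -1) :
    (8 : ℤ) ∣ (∑ c, M i c * b c) + (∑ c, M j c * b c) + (∑ c, M k c * b c)
      + (∑ c, M l c * b c) := by
  have h := sgn_sum 4 (fun c => M i c + M j c + M k c + M l c) b h4 hb
  have e : ∑ c, (M i c + M j c + M k c + M l c) * b c = (∑ c, M i c * b c) + (∑ c, M j c * b c)
      + (∑ c, M k c * b c) + (∑ c, M l c * b c) := by
    simp only [add_mul, Finset.sum_add_distrib]
  rw [e] at h
  norm_num at h
  have := dvd_add h h8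
  simpa using this

/-- two rows -/
theorem pair4 (M : Fin 16 → Fin 16 → ℤ) (i j : Fin 16)
    (h2 : ∀ c, (2 : ℤ) ∣ M i c - M j c)
    (h4 : (4 : ℤ) ∣ ∑ c, (M i c - M j c)) (b : Fin 16 → ℤ)
    (hb : ∀ j, b j = 1 ∨ b j = -1) :
    (4 : ℤ) ∣ (∑ c, M i c * b c) - (∑ c, M j c * b c) := by
  have h := sgn_sum 2 (fun c => M i c - M j c) b h2 hb
  have e : ∑ c, (M i c - M j c) * b c = (∑ c, M i c * b c) - (∑ c, M j c * b c) := by
    simp only [sub_mul, Finset.sum_sub_distrib]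
  rw [e] at h
  norm_num at h
  have := dvd_add h h4
  simpa using this

/-- one row -/
theorem one2 (M : Fin 16 → Fin 16 → ℤ) (i : Fin 16)
    (h2 : (2 : ℤ) ∣ ∑ c, M i c) (b : Fin 16 → ℤ)
    (hb : ∀ j, b j = 1 ∨ b j = -1) : (2 : ℤ) ∣ ∑ c, M i c * b c := by
  have h := sgn_sum 1 (fun c => M i c) b (fun c => one_dvd _) hb
  simp only [mul_one] at h
  have := dvd_add h h2
  simpa using this

def SA : Fin 16 → Fin 16 → ℤ := fun i j => sy i.val j.val
def SB : Fin 16 → Fin 16 → ℤ := fun i j => bb i.val j.val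

theorem SA_orth : ∀ j k, ∑ i, SA i j * SA i k = if j = k then 16 else 0 := by decide +kernel
theorem SB_orth : ∀ j k, ∑ i, SB i j * SB i k = if j = k then 16 else 0 := by decide +kernel
theorem SA_pair : ∀ i j c, (2 : ℤ) ∣ SA i c - SA j c := by decide +kernel
theorem SB_pair : ∀ i j c, (2 : ℤ) ∣ SB i c - SB j c := by decide +kernel
theorem SA_pair4 : ∀ i j, (4 : ℤ) ∣ ∑ c, (SA i c - SA j c) := by decide +kernel
theorem SB_pair4 : ∀ i j, (4 : ℤ) ∣ ∑ c, (SB i c - SB j c) := by decide +kernel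
theorem SA_one : ∀ i, (2 : ℤ) ∣ ∑ c, SA i c := by decide +kernel
theorem SB_one : ∀ i, (2 : ℤ) ∣ ∑ c, SB i c := by decide +kernel

theorem eq3 {x a b c : ℤ} (hx : x = 0 ∨ x = 1) (ha : a = x) (hb : b = x) (hc : c = 0 ∨ c = 1)
    (h : (2 : ℤ) ∣ x + a + b + c) : c = x := by
  omega

theorem pr {x y a b : ℤ} (hxy : ¬ (2 : ℤ) ∣ x + y) (ha : a = 0 ∨ a = 1) (hb : b = 0 ∨ b = 1)
    (h : (2 : ℤ) ∣ x + y + a + b) : a + b = 1 := by
  omega

theorem eq2 {x a : ℤ} (hx : x = 0 ∨ x = 1) (ha : a = 0 ∨ a = 1)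
    (h : (2 : ℤ) ∣ x + a) : a = x := by
  omega

theorem pr0 {x a : ℤ} (hx : x = 0 ∨ x = 1) (ha : a = 0 ∨ a = 1)
    (h : ¬ (2 : ℤ) ∣ x + a) : x + a = 1 := by
  omega

/-- parity facts in the code of the Sylvester matrix -/
theorem codeA (X : Fin 16 → ℤ) (h01 : ∀ i, X i = 0 ∨ X i = 1)
    (hq : ∀ i j k l : Fin 16, i.val ^^^ j.val ^^^ k.val ^^^ l.val = 0 →
      (2 : ℤ) ∣ X i + X j + X k + X l) :
    ∑ i, X i = 0 ∨ ∑ i, X i = 8 ∨ ∑ i, X i = 16 := by
  rw [sum16]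
  by_cases c1 : (2 : ℤ) ∣ X 0 + X 1
  · by_cases c2 : (2 : ℤ) ∣ X 0 + X 2
    · by_cases c4 : (2 : ℤ) ∣ X 0 + X 4
      · by_cases c8 : (2 : ℤ) ∣ X 0 + X 8
        · have h0 := h01 0
          have e1 : X 1 = X 0 := eq2 h0 (h01 1) c1
          have e2 : X 2 = X 0 := eq2 h0 (h01 2) c2
          have e4 : X 4 = X 0 := eq2 h0 (h01 4) c4
          have e8 : X 8 = X 0 := eq2 h0 (h01 8) c8
          have e3 : X 3 = X 0 := eq3 h0 e1 e2 (h01 3) (hq 0 1 2 3 (by decide))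
          have e5 : X 5 = X 0 := eq3 h0 e1 e4 (h01 5) (hq 0 1 4 5 (by decide))
          have e6 : X 6 = X 0 := eq3 h0 e2 e4 (h01 6) (hq 0 2 4 6 (by decide))
          have e7 : X 7 = X 0 := eq3 h0 e3 e4 (h01 7) (hq 0 3 4 7 (by decide))
          have e9 : X 9 = X 0 := eq3 h0 e1 e8 (h01 9) (hq 0 1 8 9 (by decide))
          have e10 : X 10 = X 0 := eq3 h0 e2 e8 (h01 10) (hq 0 2 8 10 (by decide))
          have e11 : X 11 = X 0 := eq3 h0 e3 e8 (h01 11) (hq 0 3 8 11 (by decide))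
          have e12 : X 12 = X 0 := eq3 h0 e4 e8 (h01 12) (hq 0 4 8 12 (by decide))
          have e13 : X 13 = X 0 := eq3 h0 e5 e8 (h01 13) (hq 0 5 8 13 (by decide))
          have e14 : X 14 = X 0 := eq3 h0 e6 e8 (h01 14) (hq 0 6 8 14 (by decide))
          have e15 : X 15 = X 0 := eq3 h0 e7 e8 (h01 15) (hq 0 7 8 15 (by decide))
          rw [e1, e2, e3, e4, e5, e6, e7, e8, e9, e10, e11, e12, e13, e14, e15]
          rcases h0 with h | h <;> rw [h] <;> norm_num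
        · have p0 := pr0 (h01 0) (h01 8) c8
          have p1 := pr c8 (h01 1) (h01 9) (hq 0 8 1 9 (by decide))
          have p2 := pr c8 (h01 2) (h01 10) (hq 0 8 2 10 (by decide))
          have p3 := pr c8 (h01 3) (h01 11) (hq 0 8 3 11 (by decide))
          have p4 := pr c8 (h01 4) (h01 12) (hq 0 8 4 12 (by decide))
          have p5 := pr c8 (h01 5) (h01 13) (hq 0 8 5 13 (by decide))
          have p6 := pr c8 (h01 6) (h01 14) (hq 0 8 6 14 (by decide))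
          have p7 := pr c8 (h01 7) (h01 15) (hq 0 8 7 15 (by decide))
          right
          left
          linarith
      · have p0 := pr0 (h01 0) (h01 4) c4
        have p1 := pr c4 (h01 1) (h01 5) (hq 0 4 1 5 (by decide))
        have p2 := pr c4 (h01 2) (h01 6) (hq 0 4 2 6 (by decide))
        have p3 := pr c4 (h01 3) (h01 7) (hq 0 4 3 7 (by decide))
        have p4 := pr c4 (h01 8) (h01 12) (hq 0 4 8 12 (by decide))
        have p5 := pr c4 (h01 9) (h01 13) (hq 0 4 9 13 (by decide))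
        have p6 := pr c4 (h01 10) (h01 14) (hq 0 4 10 14 (by decide))
        have p7 := pr c4 (h01 11) (h01 15) (hq 0 4 11 15 (by decide))
        right
        left
        linarith
    · have p0 := pr0 (h01 0) (h01 2) c2
      have p1 := pr c2 (h01 1) (h01 3) (hq 0 2 1 3 (by decide))
      have p2 := pr c2 (h01 4) (h01 6) (hq 0 2 4 6 (by decide))
      have p3 := pr c2 (h01 5) (h01 7) (hq 0 2 5 7 (by decide))
      have p4 := pr c2 (h01 8) (h01 10) (hq 0 2 8 10 (by decide))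
      have p5 := pr c2 (h01 9) (h01 11) (hq 0 2 9 11 (by decide))
      have p6 := pr c2 (h01 12) (h01 14) (hq 0 2 12 14 (by decide))
      have p7 := pr c2 (h01 13) (h01 15) (hq 0 2 13 15 (by decide))
      right
      left
      linarith
  · have p0 := pr0 (h01 0) (h01 1) c1
    have p1 := pr c1 (h01 2) (h01 3) (hq 0 1 2 3 (by decide))
    have p2 := pr c1 (h01 4) (h01 5) (hq 0 1 4 5 (by decide))
    have p3 := pr c1 (h01 6) (h01 7) (hq 0 1 6 7 (by decide))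
    have p4 := pr c1 (h01 8) (h01 9) (hq 0 1 8 9 (by decide))
    have p5 := pr c1 (h01 10) (h01 11) (hq 0 1 10 11 (by decide))
    have p6 := pr c1 (h01 12) (h01 13) (hq 0 1 12 13 (by decide))
    have p7 := pr c1 (h01 14) (h01 15) (hq 0 1 14 15 (by decide))
    right
    left
    linarith

/-- parity facts in the code of the second matrix: the word of weight 4 through 8 -/
theorem codeB (Z : Fin 16 → ℤ) (h01 : ∀ i, Z i = 0 ∨ Z i = 1)
    (q1 : (2 : ℤ) ∣ Z 8 + Z 9 + Z 0 + Z 5) (q2 : (2 : ℤ) ∣ Z 8 + Z 9 + Z 1 + Z 4)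
    (q3 : (2 : ℤ) ∣ Z 8 + Z 9 + Z 2 + Z 3) (q4 : (2 : ℤ) ∣ Z 8 + Z 9 + Z 6 + Z 7)
    (q5 : (2 : ℤ) ∣ Z 8 + Z 9 + Z 10 + Z 11) (q6 : (2 : ℤ) ∣ Z 8 + Z 9 + Z 12 + Z 13)
    (q7 : (2 : ℤ) ∣ Z 8 + Z 9 + Z 14 + Z 15)
    (r1 : (2 : ℤ) ∣ Z 8 + Z 10 + Z 0 + Z 6) (r2 : (2 : ℤ) ∣ Z 8 + Z 10 + Z 2 + Z 4)
    (r3 : (2 : ℤ) ∣ Z 8 + Z 10 + Z 1 + Z 3) (r4 : (2 : ℤ) ∣ Z 8 + Z 10 + Z 5 + Z 7)
    (r5 : (2 : ℤ) ∣ Z 8 + Z 10 + Z 9 + Z 11) (r6 : (2 : ℤ) ∣ Z 8 + Z 10 + Z 12 + Z 14)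
    (r7 : (2 : ℤ) ∣ Z 8 + Z 10 + Z 13 + Z 15)
    (h8 : Z 8 = 1) (hs : ∑ i, Z i = 4) : Z 9 = 1 ∧ Z 10 = 1 ∧ Z 11 = 1 := by
  rw [sum16] at hs
  have e9 : Z 9 = 1 := by
    by_contra hne
    have c : ¬ (2 : ℤ) ∣ Z 8 + Z 9 := by
      rcases h01 9 with h | h
      · rw [h8, h]
        norm_num
      · exact absurd h hne
    have p0 := pr0 (h01 8) (h01 9) c
    have p1 := pr c (h01 0) (h01 5) q1
    have p2 := pr c (h01 1) (h01 4) q2
    have p3 := pr c (h01 2) (h01 3) q3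
    have p4 := pr c (h01 6) (h01 7) q4
    have p5 := pr c (h01 10) (h01 11) q5
    have p6 := pr c (h01 12) (h01 13) q6
    have p7 := pr c (h01 14) (h01 15) q7
    linarith
  have e10 : Z 10 = 1 := by
    by_contra hne
    have c : ¬ (2 : ℤ) ∣ Z 8 + Z 10 := by
      rcases h01 10 with h | h
      · rw [h8, h]
        norm_num
      · exact absurd h hne
    have p0 := pr0 (h01 8) (h01 10) c
    have p1 := pr c (h01 0) (h01 6) r1
    have p2 := pr c (h01 2) (h01 4) r2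
    have p3 := pr c (h01 1) (h01 3) r3
    have p4 := pr c (h01 5) (h01 7) r4
    have p5 := pr c (h01 9) (h01 11) r5
    have p6 := pr c (h01 12) (h01 14) r6
    have p7 := pr c (h01 13) (h01 15) r7
    linarith
  refine ⟨e9, e10, ?_⟩
  rw [h8, e9, e10] at q5
  rcases h01 11 with h | h
  · rw [h] at q5
    norm_num at q5
  · exact h

theorem abs_pm (x y : ℤ) : |x + y| + |x - y| = 2 * max |x| |y| := by
  rcases le_total |x| |y| with h | h
  · rw [max_eq_right h]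
    rcases abs_cases x with ⟨h1, _⟩ | ⟨h1, _⟩ <;> rcases abs_cases y with ⟨h2, _⟩ | ⟨h2, _⟩ <;>
    rcases abs_cases (x + y) with ⟨h3, _⟩ | ⟨h3, _⟩ <;>
    rcases abs_cases (x - y) with ⟨h4, _⟩ | ⟨h4, _⟩ <;> omega
  · rw [max_eq_left h]
    rcases abs_cases x with ⟨h1, _⟩ | ⟨h1, _⟩ <;> rcases abs_cases y with ⟨h2, _⟩ | ⟨h2, _⟩ <;>
    rcases abs_cases (x + y) with ⟨h3, _⟩ | ⟨h3, _⟩ <;>
    rcases abs_cases (x - y) with ⟨h4, _⟩ | ⟨h4, _⟩ <;> omega

theorem sq4 (t : ℤ) (h : t % 4 = 2) : 4 ≤ t ^ 2 := by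
  rcases le_or_gt 0 t with h0 | h0
  · have : 2 ≤ t := by omega
    nlinarith
  · have : t ≤ -2 := by omega
    nlinarith

theorem abs_mod2 (x : ℤ) (h : x % 4 = 2) : |x| % 4 = 2 := by
  rcases abs_cases x with ⟨h1, _⟩ | ⟨h1, _⟩ <;> omega

theorem abs_mod0 (x : ℤ) (h : x % 4 = 0) : |x| % 4 = 0 := by
  rcases abs_cases x with ⟨h1, _⟩ | ⟨h1, _⟩ <;> omega

theorem t22 (x y : ℤ) (hx : x % 4 = 2) (hy : y % 4 = 2) :
    8 * max |x| |y| ≤ x ^ 2 + y ^ 2 + 8 := by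
  have a1 := sq4 x hx
  have a2 := sq4 y hy
  have m1 := abs_mod2 x hx
  have m2 := abs_mod2 y hy
  have b1 := sq4 (|x| - 4) (by omega)
  have b2 := sq4 (|y| - 4) (by omega)
  have c1 := sq_abs x
  have c2 := sq_abs y
  rcases le_total |x| |y| with h | h
  · rw [max_eq_right h]
    nlinarith
  · rw [max_eq_left h]
    nlinarith

theorem t00 (x y : ℤ) (hx : x % 4 = 0) (hy : y % 4 = 0) :
    12 * max |x| |y| ≤ x ^ 2 + y ^ 2 + 32 := by
  have m1 := abs_mod0 x hx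
  have m2 := abs_mod0 y hy
  have b1 := sq4 (|x| - 6) (by omega)
  have b2 := sq4 (|y| - 6) (by omega)
  have c1 := sq_abs x
  have c2 := sq_abs y
  rcases le_total |x| |y| with h | h
  · rw [max_eq_right h]
    nlinarith [sq_nonneg x]
  · rw [max_eq_left h]
    nlinarith [sq_nonneg y]

theorem t02 (x y : ℤ) (hx : x % 4 = 0) (hy : y % 4 = 2) :
    48 * max |x| |y| ≤ 4 * x ^ 2 + 5 * y ^ 2 + 108 := by
  have m1 := abs_mod0 x hx
  have m2 := abs_mod2 y hy
  have a2 := sq4 y hy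
  have b1 := sq4 (|x| - 6) (by omega)
  have c1 := sq_abs x
  have c2 := sq_abs y
  have p := abs_nonneg y
  rcases le_total |x| |y| with h | h
  · rw [max_eq_right h]
    have q : |y| = 2 ∨ 6 ≤ |y| := by omega
    rcases q with q | q
    · rw [q] at c2 ⊢
      nlinarith [sq_nonneg x]
    · nlinarith [sq_nonneg x]
  · rw [max_eq_left h]
    nlinarith

theorem gnn (a b : ℤ) : 3 * max |a| |b| ≤ a ^ 2 + b ^ 2 + 2 := by
  have key : ∀ n : ℤ, 0 ≤ (n - 1) * (n - 2) := by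
    intro n
    rcases le_or_gt n 1 with h | h
    · nlinarith
    · nlinarith
  have c1 := sq_abs a
  have c2 := sq_abs b
  have k1 := key |a|
  have k2 := key |b|
  rcases le_total |a| |b| with h | h
  · rw [max_eq_right h]
    nlinarith [sq_nonneg a]
  · rw [max_eq_left h]
    nlinarith [sq_nonneg b]

theorem gzero (a b : ℤ) (h : a ^ 2 + b ^ 2 + 2 - 3 * max |a| |b| = 0) :
    (b = 0 ∧ (a = 1 ∨ a = -1 ∨ a = 2 ∨ a = -2)) ∨ (a = 0 ∧ (b = 1 ∨ b = -1 ∨ b = 2 ∨ b = -2)) := by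
  have key : ∀ n : ℤ, 0 ≤ (n - 1) * (n - 2) := by
    intro n
    rcases le_or_gt n 1 with h | h
    · nlinarith
    · nlinarith
  have c1 := sq_abs a
  have c2 := sq_abs b
  have k1 := key |a|
  have k2 := key |b|
  rcases le_total |a| |b| with h' | h'
  · rw [max_eq_right h'] at h
    right
    have ha : a = 0 := by
      have : a ^ 2 ≤ 0 := by nlinarith
      exact pow_eq_zero_iff (two_ne_zero) |>.1 (le_antisymm this (sq_nonneg a))
    have hb : (|b| - 1) * (|b| - 2) = 0 := by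
      rw [ha] at h
      nlinarith
    refine ⟨ha, ?_⟩
    rcases mul_eq_zero.1 hb with h2 | h2
    · rcases abs_cases b with ⟨h3, _⟩ | ⟨h3, _⟩ <;> omega
    · rcases abs_cases b with ⟨h3, _⟩ | ⟨h3, _⟩ <;> omega
  · rw [max_eq_left h'] at h
    left
    have hb0 : b = 0 := by
      have : b ^ 2 ≤ 0 := by nlinarith
      exact pow_eq_zero_iff (two_ne_zero) |>.1 (le_antisymm this (sq_nonneg b))
    have hb : (|a| - 1) * (|a| - 2) = 0 := by
      rw [hb0] at h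
      nlinarith
    refine ⟨hb0, ?_⟩
    rcases mul_eq_zero.1 hb with h2 | h2
    · rcases abs_cases a with ⟨h3, _⟩ | ⟨h3, _⟩ <;> omega
    · rcases abs_cases a with ⟨h3, _⟩ | ⟨h3, _⟩ <;> omega

/-- the coordinate where `b = -a` -/
theorem gopp (a b : ℤ) (hab : a + b = 0) : 1 ≤ a ^ 2 + b ^ 2 + 2 - 3 * max |a| |b| ∧
    (a ^ 2 + b ^ 2 + 2 - 3 * max |a| |b| = 1 → (a = 1 ∧ b = -1) ∨ (a = -1 ∧ b = 1)) := by
  obtain rfl : b = -a := by omega
  rw [abs_neg, max_self, neg_sq]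
  have c1 := sq_abs a
  have p := abs_nonneg a
  constructor
  · rcases le_or_gt |a| 1 with h | h
    · have : |a| = 0 ∨ |a| = 1 := by omega
      rcases this with h | h <;> rw [h] at c1 ⊢ <;> nlinarith
    · nlinarith
  · intro h
    have h1 : (|a| - 1) * (2 * |a| - 1) = 0 := by nlinarith
    rcases mul_eq_zero.1 h1 with h2 | h2
    · rcases abs_cases a with ⟨h3, _⟩ | ⟨h3, _⟩ <;> omega
    · omega

theorem core00 (w z : Fin 16 → ℤ) (hw : ∑ i, w i ^ 2 = 16) (hz : ∑ i, z i ^ 2 = 16)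
    (hm : ∑ i, max |w i| |z i| = 21) (h8 : w 8 + z 8 = 0)
    (hq : ∀ i j k l : Fin 16, i.val ^^^ j.val ^^^ k.val ^^^ l.val = 0 →
      (2 : ℤ) ∣ w i + w j + w k + w l)
    (q1 : (2 : ℤ) ∣ z 8 + z 9 + z 0 + z 5) (q2 : (2 : ℤ) ∣ z 8 + z 9 + z 1 + z 4)
    (q3 : (2 : ℤ) ∣ z 8 + z 9 + z 2 + z 3) (q4 : (2 : ℤ) ∣ z 8 + z 9 + z 6 + z 7)
    (q5 : (2 : ℤ) ∣ z 8 + z 9 + z 10 + z 11) (q6 : (2 : ℤ) ∣ z 8 + z 9 + z 12 + z 13)
    (q7 : (2 : ℤ) ∣ z 8 + z 9 + z 14 + z 15)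
    (r1 : (2 : ℤ) ∣ z 8 + z 10 + z 0 + z 6) (r2 : (2 : ℤ) ∣ z 8 + z 10 + z 2 + z 4)
    (r3 : (2 : ℤ) ∣ z 8 + z 10 + z 1 + z 3) (r4 : (2 : ℤ) ∣ z 8 + z 10 + z 5 + z 7)
    (r5 : (2 : ℤ) ∣ z 8 + z 10 + z 9 + z 11) (r6 : (2 : ℤ) ∣ z 8 + z 10 + z 12 + z 14)
    (r7 : (2 : ℤ) ∣ z 8 + z 10 + z 13 + z 15) : False := by
  have gs : ∑ i, (w i ^ 2 + z i ^ 2 + 2 - 3 * max |w i| |z i|) = 1 := by
    rw [Finset.sum_sub_distrib, Finset.sum_add_distrib, Finset.sum_add_distrib, ← Finset.mul_sum,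
      hw, hz, hm]
    simp
  have g0 : ∀ i, 0 ≤ w i ^ 2 + z i ^ 2 + 2 - 3 * max |w i| |z i| := fun i => by
    have := gnn (w i) (z i)
    omega
  obtain ⟨g8, g8'⟩ := gopp (w 8) (z 8) h8
  have hsplit := Finset.add_sum_erase Finset.univ
    (fun i => w i ^ 2 + z i ^ 2 + 2 - 3 * max |w i| |z i|) (Finset.mem_univ (8 : Fin 16))
  rw [gs] at hsplit
  have hnn : 0 ≤ ∑ i ∈ Finset.univ.erase (8 : Fin 16),
      (w i ^ 2 + z i ^ 2 + 2 - 3 * max |w i| |z i|) := Finset.sum_nonneg fun i _ => g0 i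
  have he8 : w 8 ^ 2 + z 8 ^ 2 + 2 - 3 * max |w 8| |z 8| = 1 := by omega
  have hzero : ∑ i ∈ Finset.univ.erase (8 : Fin 16),
      (w i ^ 2 + z i ^ 2 + 2 - 3 * max |w i| |z i|) = 0 := by omega
  have hall : ∀ i, i ≠ 8 → w i ^ 2 + z i ^ 2 + 2 - 3 * max |w i| |z i| = 0 := by
    intro i hi
    exact (Finset.sum_eq_zero_iff_of_nonneg (fun i _ => g0 i)).1 hzero i
      (Finset.mem_erase.2 ⟨hi, Finset.mem_univ i⟩)
  have hc8 := g8' he8
  -- parities
  have X01 : ∀ i, w i % 2 = 0 ∨ w i % 2 = 1 := fun i => by omega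
  have Z01 : ∀ i, z i % 2 = 0 ∨ z i % 2 = 1 := fun i => by omega
  have hS1 : ∀ i, w i ^ 2 + z i ^ 2 + 3 * (w i % 2 + z i % 2) = 4 + if i = 8 then 4 else 0 := by
    intro i
    by_cases hi : i = 8
    · subst hi
      rcases hc8 with ⟨a, b⟩ | ⟨a, b⟩ <;> rw [a, b] <;> norm_num
    · rw [if_neg hi]
      rcases gzero _ _ (hall i hi) with ⟨a, b⟩ | ⟨a, b⟩
      · rw [a]
        rcases b with b | b | b | b <;> rw [b] <;> norm_num
      · rw [a]
        rcases b with b | b | b | b <;> rw [b] <;> norm_num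
  have hS2 : ∀ i, (4 : ℤ) ∣ w i ^ 2 - w i % 2 := by
    intro i
    by_cases hi : i = 8
    · subst hi
      rcases hc8 with ⟨a, b⟩ | ⟨a, b⟩ <;> rw [a] <;> norm_num
    · rcases gzero _ _ (hall i hi) with ⟨a, b⟩ | ⟨a, b⟩
      · rcases b with b | b | b | b <;> rw [b] <;> norm_num
      · rw [a]
        norm_num
  have hS3 : ∀ i, i ≠ 8 → z i % 2 = 1 → w i % 2 = 0 := by
    intro i hi hz1
    rcases gzero _ _ (hall i hi) with ⟨a, b⟩ | ⟨a, b⟩
    · rw [a] at hz1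
      norm_num at hz1
    · rw [a]
      norm_num
  have hX8 : w 8 % 2 = 1 := by rcases hc8 with ⟨a, b⟩ | ⟨a, b⟩ <;> rw [a] <;> norm_num
  have hZ8 : z 8 % 2 = 1 := by rcases hc8 with ⟨a, b⟩ | ⟨a, b⟩ <;> rw [b] <;> norm_num
  have hsum : ∑ i, (w i % 2) + ∑ i, (z i % 2) = 12 := by
    have h := Finset.sum_congr (rfl : (Finset.univ : Finset (Fin 16)) = Finset.univ)
      (fun i (_ : i ∈ Finset.univ) => hS1 i)
    rw [Finset.sum_add_distrib, Finset.sum_add_distrib, Finset.sum_add_distrib, ← Finset.mul_sum,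
      Finset.sum_add_distrib, hw, hz, Finset.sum_ite_eq' Finset.univ (8 : Fin 16)] at h
    simp only [Finset.mem_univ, if_true, Finset.sum_const, Finset.card_univ, Fintype.card_fin,
      nsmul_eq_mul] at h
    push_cast at h
    omega
  have hdvd : (4 : ℤ) ∣ 16 - ∑ i, (w i % 2) := by
    have := Finset.dvd_sum (fun i (_ : i ∈ (Finset.univ : Finset (Fin 16))) => hS2 i)
    rwa [Finset.sum_sub_distrib, hw] at this
  have hXpos : 1 ≤ ∑ i, (w i % 2) := by
    have := Finset.single_le_sum (f := fun i => w i % 2)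
      (fun i (_ : i ∈ (Finset.univ : Finset (Fin 16))) => by
        rcases X01 i with h | h <;> simp only [h] <;> norm_num) (Finset.mem_univ (8 : Fin 16))
    omega
  have hZpos : 1 ≤ ∑ i, (z i % 2) := by
    have := Finset.single_le_sum (f := fun i => z i % 2)
      (fun i (_ : i ∈ (Finset.univ : Finset (Fin 16))) => by
        rcases Z01 i with h | h <;> simp only [h] <;> norm_num) (Finset.mem_univ (8 : Fin 16))
    omega
  have hA := codeA (fun i => w i % 2) X01 (fun i j k l h => by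
    have := hq i j k l h
    omega)
  have hX : ∑ i, (w i % 2) = 8 := by omega
  have hZ : ∑ i, (z i % 2) = 4 := by omega
  obtain ⟨z9, z10, z11⟩ := codeB (fun i => z i % 2) Z01 (by omega) (by omega)
    (by omega) (by omega) (by omega) (by omega)
    (by omega) (by omega) (by omega) (by omega)
    (by omega) (by omega) (by omega) (by omega)
    hZ8 hZ
  have x9 := hS3 9 (by decide) z9
  have x10 := hS3 10 (by decide) z10
  have x11 := hS3 11 (by decide) z11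
  have := hq 8 9 10 11 (by decide)
  omega

end Pool.Agent.Q166.HEx
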