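import Pool.Agent.Q166.HEx

/-!
# Bounds for the truncated excess of the matrix `H` (for MP_ba6bee_co)
-/

namespace Pool.Agent.Q166.HEx

open Finset

theorem sum_le_aux (f g : Fin 16 → ℤ) (h : ∀ i, f i ≤ g i) : ∑ i, f i ≤ ∑ i, g i :=
  Finset.sum_le_sum fun i _ => h i

theorem mainlem (u v : Fin 16 → ℤ) (hu : ∑ i, u i ^ 2 = 256) (hv : ∑ i, v i ^ 2 = 256)
    (u4 : ∀ i j, (4 : ℤ) ∣ u i - u j) (v4 : ∀ i j, (4 : ℤ) ∣ v i - v j)
    (u2 : (2 : ℤ) ∣ u 8) (v2 : (2 : ℤ) ∣ v 8)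
    (hq : ∀ i j k l : Fin 16, i.val ^^^ j.val ^^^ k.val ^^^ l.val = 0 →
      (8 : ℤ) ∣ u i + u j + u k + u l)
    (q1 : (8 : ℤ) ∣ v 8 + v 9 + v 0 + v 5) (q2 : (8 : ℤ) ∣ v 8 + v 9 + v 1 + v 4)
    (q3 : (8 : ℤ) ∣ v 8 + v 9 + v 2 + v 3) (q4 : (8 : ℤ) ∣ v 8 + v 9 + v 6 + v 7)
    (q5 : (8 : ℤ) ∣ v 8 + v 9 + v 10 + v 11) (q6 : (8 : ℤ) ∣ v 8 + v 9 + v 12 + v 13)
    (q7 : (8 : ℤ) ∣ v 8 + v 9 + v 14 + v 15)
    (r1 : (8 : ℤ) ∣ v 8 + v 10 + v 0 + v 6) (r2 : (8 : ℤ) ∣ v 8 + v 10 + v 2 + v 4)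
    (r3 : (8 : ℤ) ∣ v 8 + v 10 + v 1 + v 3) (r4 : (8 : ℤ) ∣ v 8 + v 10 + v 5 + v 7)
    (r5 : (8 : ℤ) ∣ v 8 + v 10 + v 9 + v 11) (r6 : (8 : ℤ) ∣ v 8 + v 10 + v 12 + v 14)
    (r7 : (8 : ℤ) ∣ v 8 + v 10 + v 13 + v 15) :
    ∑ i, (|u i + v i| + |u i - v i|) - |u 8 + v 8| ≤ 166 := by
  have hM : ∑ i, (|u i + v i| + |u i - v i|) = 2 * ∑ i, max |u i| |v i| := by
    rw [Finset.mul_sum]
    exact Finset.sum_congr rfl fun i _ => abs_pm _ _
  rw [hM]
  have hab := abs_nonneg (u 8 + v 8)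
  have cu : u 8 % 4 = 0 ∨ u 8 % 4 = 2 := by omega
  have cv : v 8 % 4 = 0 ∨ v 8 % 4 = 2 := by omega
  rcases cu with cu | cu <;> rcases cv with cv | cv
  · -- both divisible by 4
    have du : ∀ i, ∃ w, u i = 4 * w := fun i => ⟨u i / 4, by
      have := u4 i 8
      omega⟩
    have dv : ∀ i, ∃ w, v i = 4 * w := fun i => ⟨v i / 4, by
      have := v4 i 8
      omega⟩
    choose w hw using du
    choose z hz using dv
    have hmx : ∀ i, max |u i| |v i| = 4 * max |w i| |z i| := by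
      intro i
      rw [hw i, hz i, abs_mul, abs_mul]
      have h4 : |(4 : ℤ)| = 4 := by norm_num
      rw [h4]
      rcases le_total |w i| |z i| with h | h
      · rw [max_eq_right h, max_eq_right (by omega)]
      · rw [max_eq_left h, max_eq_left (by omega)]
    have hMs : ∑ i, max |u i| |v i| = 4 * ∑ i, max |w i| |z i| := by
      rw [Finset.mul_sum]
      exact Finset.sum_congr rfl fun i _ => hmx i
    have hw2 : ∑ i, w i ^ 2 = 16 := by
      have : ∑ i, u i ^ 2 = 16 * ∑ i, w i ^ 2 := by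
        rw [Finset.mul_sum]
        exact Finset.sum_congr rfl fun i _ => by rw [hw i]; ring
      omega
    have hz2 : ∑ i, z i ^ 2 = 16 := by
      have : ∑ i, v i ^ 2 = 16 * ∑ i, z i ^ 2 := by
        rw [Finset.mul_sum]
        exact Finset.sum_congr rfl fun i _ => by rw [hz i]; ring
      omega
    have h3 : 3 * ∑ i, max |w i| |z i| ≤ 64 := by
      have h := sum_le_aux (fun i => 3 * max |w i| |z i|) (fun i => w i ^ 2 + z i ^ 2 + 2)
        (fun i => gnn _ _)
      rw [Finset.sum_add_distrib, Finset.sum_add_distrib, ← Finset.mul_sum, hw2, hz2] at h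
      simp at h
      omega
    rw [hMs]
    by_cases h21 : ∑ i, max |w i| |z i| = 21
    · by_cases h0 : w 8 + z 8 = 0
      · exfalso
        have hd : ∀ i j k l : Fin 16, (8 : ℤ) ∣ v i + v j + v k + v l →
            (2 : ℤ) ∣ z i + z j + z k + z l := by
          intro i j k l h
          rw [hz i, hz j, hz k, hz l] at h
          omega
        refine core00 w z hw2 hz2 h21 h0 ?_ (hd _ _ _ _ q1) (hd _ _ _ _ q2) (hd _ _ _ _ q3)
          (hd _ _ _ _ q4) (hd _ _ _ _ q5) (hd _ _ _ _ q6) (hd _ _ _ _ q7) (hd _ _ _ _ r1)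
          (hd _ _ _ _ r2) (hd _ _ _ _ r3) (hd _ _ _ _ r4) (hd _ _ _ _ r5) (hd _ _ _ _ r6)
          (hd _ _ _ _ r7)
        intro i j k l h
        have := hq i j k l h
        rw [hw i, hw j, hw k, hw l] at this
        omega
      · have : 4 ≤ |u 8 + v 8| := by
          rw [hw 8, hz 8]
          rcases abs_cases (4 * w 8 + 4 * z 8) with ⟨h, _⟩ | ⟨h, _⟩ <;> rw [h] <;> omega
        omega
    · omega
  · -- u divisible by 4, v not
    have h := sum_le_aux (fun i => 48 * max |u i| |v i|)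
      (fun i => 4 * u i ^ 2 + 5 * v i ^ 2 + 108) (fun i => t02 _ _ (by
        have := u4 i 8
        omega) (by
        have := v4 i 8
        omega))
    rw [Finset.sum_add_distrib, Finset.sum_add_distrib, ← Finset.mul_sum, ← Finset.mul_sum,
      ← Finset.mul_sum, hu, hv] at h
    simp at h
    have : 2 ≤ |u 8 + v 8| := by
      rcases abs_cases (u 8 + v 8) with ⟨h, _⟩ | ⟨h, _⟩ <;> rw [h] <;> omega
    omega
  · have h := sum_le_aux (fun i => 48 * max |v i| |u i|)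
      (fun i => 4 * v i ^ 2 + 5 * u i ^ 2 + 108) (fun i => t02 _ _ (by
        have := v4 i 8
        omega) (by
        have := u4 i 8
        omega))
    rw [Finset.sum_add_distrib, Finset.sum_add_distrib, ← Finset.mul_sum, ← Finset.mul_sum,
      ← Finset.mul_sum, hu, hv] at h
    simp at h
    have hc : ∑ i, max |v i| |u i| = ∑ i, max |u i| |v i| :=
      Finset.sum_congr rfl fun i _ => max_comm _ _
    rw [hc] at h
    have : 2 ≤ |u 8 + v 8| := by
      rcases abs_cases (u 8 + v 8) with ⟨h, _⟩ | ⟨h, _⟩ <;> rw [h] <;> omega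
    omega
  · have h := sum_le_aux (fun i => 8 * max |u i| |v i|)
      (fun i => u i ^ 2 + v i ^ 2 + 8) (fun i => t22 _ _ (by
        have := u4 i 8
        omega) (by
        have := v4 i 8
        omega))
    rw [Finset.sum_add_distrib, Finset.sum_add_distrib, ← Finset.mul_sum, hu, hv] at h
    simp at h
    omega

/-! ### blocks -/

theorem blk11 : ∀ i j : Fin 16, H (Fin.castAdd 16 i) (Fin.castAdd 16 j) = SA i j := by
  decide +kernel
theorem blk12 : ∀ i j : Fin 16, H (Fin.castAdd 16 i) (Fin.natAdd 16 j) = SB i j := by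
  decide +kernel
theorem blk21 : ∀ i j : Fin 16, H (Fin.natAdd 16 i) (Fin.castAdd 16 j) = SA i j := by
  decide +kernel
theorem blk22 : ∀ i j : Fin 16, H (Fin.natAdd 16 i) (Fin.natAdd 16 j) = - SB i j := by
  decide +kernel

theorem SA_quad : ∀ i j k l : Fin 16, i.val ^^^ j.val ^^^ k.val ^^^ l.val = 0 →
    (∀ c, (4 : ℤ) ∣ SA i c + SA j c + SA k c + SA l c) ∧
    (8 : ℤ) ∣ ∑ c, (SA i c + SA j c + SA k c + SA l c) := by
  decide +kernel

/-- bound for the row sums, deleted row 8 -/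
theorem ybound (b : Fin 32 → ℤ) (hb : ∀ j, b j = 1 ∨ b j = -1) :
    ∑ i : Fin 32, |∑ j, H i j * b j| - |∑ j, H 8 j * b j| ≤ 166 := by
  set b1 : Fin 16 → ℤ := fun j => b (Fin.castAdd 16 j) with hb1
  set b2 : Fin 16 → ℤ := fun j => b (Fin.natAdd 16 j) with hb2
  have e1 : ∀ j, b1 j = 1 ∨ b1 j = -1 := fun j => hb _
  have e2 : ∀ j, b2 j = 1 ∨ b2 j = -1 := fun j => hb _
  set u : Fin 16 → ℤ := fun i => ∑ j, SA i j * b1 j with hu
  set v : Fin 16 → ℤ := fun i => ∑ j, SB i j * b2 j with hv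
  have y1 : ∀ i : Fin 16, ∑ j : Fin (16 + 16), H (Fin.castAdd 16 i) j * b j = u i + v i := by
    intro i
    rw [Fin.sum_univ_add]
    simp only [blk11, blk12]
    rfl
  have y2 : ∀ i : Fin 16, ∑ j : Fin (16 + 16), H (Fin.natAdd 16 i) j * b j = u i - v i := by
    intro i
    rw [Fin.sum_univ_add]
    simp only [blk21, blk22, neg_mul, Finset.sum_neg_distrib]
    rfl
  have hs : ∑ i : Fin 32, |∑ j, H i j * b j| = ∑ i : Fin 16, (|u i + v i| + |u i - v i|) := by
    have : ∑ i : Fin (16 + 16), |∑ j : Fin (16 + 16), H i j * b j|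
        = ∑ i : Fin 16, (|u i + v i| + |u i - v i|) := by
      rw [Fin.sum_univ_add, Finset.sum_add_distrib]
      simp only [y1, y2]
    exact this
  have h8 : ∑ j, H 8 j * b j = u 8 + v 8 := y1 8
  rw [hs, h8]
  have qq : ∀ i j k l : Fin 16, (∀ c, (4 : ℤ) ∣ SB i c + SB j c + SB k c + SB l c) →
      ((8 : ℤ) ∣ ∑ c, (SB i c + SB j c + SB k c + SB l c)) → (8 : ℤ) ∣ v i + v j + v k + v l :=
    fun i j k l h4 h8 => quad SB i j k l h4 h8 b2 e2
  apply mainlem u v (norm16 SA SA_orth b1 e1) (norm16 SB SB_orth b2 e2)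
    (fun i j => pair4 SA i j (SA_pair i j) (SA_pair4 i j) b1 e1)
    (fun i j => pair4 SB i j (SB_pair i j) (SB_pair4 i j) b2 e2)
    (one2 SA 8 (SA_one 8) b1 e1) (one2 SB 8 (SB_one 8) b2 e2)
    (fun i j k l h => quad SA i j k l (SA_quad i j k l h).1 (SA_quad i j k l h).2 b1 e1)
  all_goals exact qq _ _ _ _ (by decide +kernel) (by decide +kernel)

/-- the upper bound for the deleted row 8 -/
theorem upper (a : Fin 32 → ℤ) (ha : ∀ i, a i = 1 ∨ a i = -1) :
    ∑ j, |∑ i ∈ univ.erase 8, H i j * a i| ≤ 166 := by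
  set s : Fin 32 → ℤ := fun j => ∑ i ∈ univ.erase 8, H i j * a i with hs
  set b : Fin 32 → ℤ := fun j => if 0 ≤ s j then 1 else -1 with hb
  have hb1 : ∀ j, b j = 1 ∨ b j = -1 := by
    intro j
    simp only [hb]
    split_ifs <;> simp
  have hsb : ∀ j, |s j| = s j * b j := by
    intro j
    simp only [hb]
    split_ifs with h
    · rw [abs_of_nonneg h, mul_one]
    · rw [abs_of_neg (not_le.1 h)]
      ring
  have h1 : ∑ j, |s j| = ∑ i ∈ univ.erase 8, a i * ∑ j, H i j * b j := by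
    calc ∑ j, |s j| = ∑ j, s j * b j := Finset.sum_congr rfl fun j _ => hsb j
      _ = ∑ j, ∑ i ∈ univ.erase 8, H i j * a i * b j := by
          refine Finset.sum_congr rfl fun j _ => ?_
          simp only [hs]
          rw [Finset.sum_mul]
      _ = ∑ i ∈ univ.erase 8, ∑ j, H i j * a i * b j := Finset.sum_comm
      _ = ∑ i ∈ univ.erase 8, a i * ∑ j, H i j * b j := by
          refine Finset.sum_congr rfl fun i _ => ?_
          rw [Finset.mul_sum]
          refine Finset.sum_congr rfl fun j _ => ?_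
          ring
  have h2 : ∑ i ∈ univ.erase 8, a i * ∑ j, H i j * b j
      ≤ ∑ i ∈ univ.erase (8 : Fin 32), |∑ j, H i j * b j| := by
    refine Finset.sum_le_sum fun i _ => ?_
    rcases ha i with h | h <;> rw [h]
    · rw [one_mul]
      exact le_abs_self _
    · rw [neg_one_mul]
      exact neg_le_abs _
  have h3 := Finset.add_sum_erase Finset.univ (fun i => |∑ j, H i j * b j|)
    (Finset.mem_univ (8 : Fin 32))
  have h4 := ybound b hb1
  rw [h1]
  refine h2.trans ?_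
  have h5 : ∑ i ∈ univ.erase (8 : Fin 32), |∑ j, H i j * b j|
      = ∑ i : Fin 32, |∑ j, H i j * b j| - |∑ j, H 8 j * b j| := by
    rw [← h3]
    ring
  rw [h5]
  exact h4

end Pool.Agent.Q166.HEx
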