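import Mathlib

/-!
# Two counters and lazy transpositions: the potential rank + support
-/

namespace Q166.LazyS

open Matrix Finset

variable {n : ℕ}

/-- one lazy transposition `(a,b,p)` acting on the joint law of two counters -/
def stepM (a b : Fin n) (p : ℝ) (M : Matrix (Fin n) (Fin n) ℝ) : Matrix (Fin n) (Fin n) ℝ :=
  fun i j => (1 - p) * M i j + p * M (Equiv.swap a b i) (Equiv.swap a b j)

/-- the positions that can be occupied -/
noncomputable def supp (M : Matrix (Fin n) (Fin n) ℝ) : Finset (Fin n) :=
  open Classical in univ.filter fun i => ∃ j, M i j ≠ 0 ∨ M j i ≠ 0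

theorem mem_supp {M : Matrix (Fin n) (Fin n) ℝ} {i : Fin n} :
    i ∈ supp M ↔ ∃ j, M i j ≠ 0 ∨ M j i ≠ 0 := by
  simp [supp]

theorem not_mem_supp {M : Matrix (Fin n) (Fin n) ℝ} {i : Fin n} :
    i ∉ supp M ↔ ∀ j, M i j = 0 ∧ M j i = 0 := by
  rw [mem_supp]; push Not; rfl

theorem stepM_diag (a b : Fin n) (p : ℝ) (M : Matrix (Fin n) (Fin n) ℝ) (h : ∀ i, M i i = 0) :
    ∀ i, stepM a b p M i i = 0 := by
  intro i; simp [stepM, h]

theorem stepM_comm (a b : Fin n) (p : ℝ) (M : Matrix (Fin n) (Fin n) ℝ) :
    stepM a b p M = stepM b a p M := by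
  ext i j; simp [stepM, Equiv.swap_comm a b]

theorem rank_add_le' (A B : Matrix (Fin n) (Fin n) ℝ) : (A + B).rank ≤ A.rank + B.rank := by
  rw [Matrix.rank, Matrix.rank, Matrix.rank, Matrix.mulVecLin_add]
  calc Module.finrank ℝ (LinearMap.range (A.mulVecLin + B.mulVecLin))
      ≤ Module.finrank ℝ (LinearMap.range A.mulVecLin ⊔ LinearMap.range B.mulVecLin : Submodule ℝ _) := by
        apply Submodule.finrank_mono
        rintro x ⟨y, rfl⟩
        exact Submodule.add_mem_sup (LinearMap.mem_range_self _ y) (LinearMap.mem_range_self _ y)
    _ ≤ _ := Submodule.finrank_add_le_finrank_add_finrank _ _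

/-- any step raises the rank by at most one -/
theorem rank_step (a b : Fin n) (p : ℝ) (M : Matrix (Fin n) (Fin n) ℝ) :
    (stepM a b p M).rank ≤ M.rank + 1 := by
  have h : stepM a b p M =
      M * (Matrix.of fun i j => (1 - p) * (if i = j then 1 else 0)
        + p * (if i = Equiv.swap a b j then 1 else 0))
      + Matrix.vecMulVec (fun i => (if i = b then p else 0) - (if i = a then p else 0))
        (fun j => M a (Equiv.swap a b j) - M b (Equiv.swap a b j)) := by
    ext i j
    rw [Matrix.add_apply, Matrix.mul_apply, Matrix.vecMulVec_apply]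
    simp only [Matrix.of_apply]
    have e1 : ∑ k, M i k * ((1 - p) * (if k = j then 1 else 0)
        + p * (if k = Equiv.swap a b j then 1 else 0))
        = (1 - p) * M i j + p * M i (Equiv.swap a b j) := by
      simp only [mul_add, Finset.sum_add_distrib]
      congr 1
      · rw [Finset.sum_eq_single j]
        · simp; ring
        · intro k _ hk; simp [hk]
        · simp
      · rw [Finset.sum_eq_single (Equiv.swap a b j)]
        · simp; ring
        · intro k _ hk; simp [hk]
        · simp
    rw [e1]
    simp only [stepM]
    by_cases hia : i = a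
    · subst hia
      by_cases hab : i = b
      · subst hab; simp
      · simp [hab]; ring
    · by_cases hib : i = b
      · subst hib; simp [hia]; ring
      · rw [Equiv.swap_apply_of_ne_of_ne hia hib]; simp [hia, hib]
  rw [h]
  refine (rank_add_le' _ _).trans (add_le_add (Matrix.rank_mul_le_left _ _) (Matrix.rank_vecMulVec_le _ _))

/-- a step with `b` empty does not raise the rank -/
theorem rank_step_empty {a b : Fin n} (hab : a ≠ b) (p : ℝ) (M : Matrix (Fin n) (Fin n) ℝ)
    (h0 : ∀ i, M i i = 0) (hb : b ∉ supp M) :
    (stepM a b p M).rank ≤ M.rank := by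
  rw [not_mem_supp] at hb
  set E : Matrix (Fin n) (Fin n) ℝ := fun i j =>
    (if i = j then 1 else 0) + (if j = a then (if i = b then p else 0) - (if i = a then p else 0) else 0)
    with hE
  have key : ∀ (X : Matrix (Fin n) (Fin n) ℝ) i j, (E * X) i j
      = X i j + ((if i = b then p else 0) - (if i = a then p else 0)) * X a j := by
    intro X i j
    rw [Matrix.mul_apply]
    simp only [hE, add_mul, Finset.sum_add_distrib]
    congr 1
    · simp
    · rw [Finset.sum_eq_single a]
      · simp
      · intro k _ hk; simp [hk]
      · simp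
  have h : stepM a b p M = E * M * Eᵀ := by
    have e2 : E * M * Eᵀ = (E * (E * M)ᵀ)ᵀ := by
      rw [Matrix.transpose_mul, Matrix.transpose_transpose]
    rw [e2]
    ext i j
    rw [Matrix.transpose_apply, key, Matrix.transpose_apply, Matrix.transpose_apply, key, key]
    simp only [stepM]
    have hba : b ≠ a := hab.symm
    by_cases hia : i = a
    · subst hia
      by_cases hja : j = i
      · subst hja
        simp [h0, hab]
      · by_cases hjb : j = b
        · subst hjb
          have h1 := (hb i).1
          have h2 := (hb i).2
          simp [h0, hab, h1, h2]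
        · rw [Equiv.swap_apply_of_ne_of_ne hja hjb]
          simp [h0, hab, hb, hja, hjb]; ring
    · by_cases hib : i = b
      · subst hib
        by_cases hja : j = a
        · subst hja
          simp [h0, hb, hba]
        · by_cases hjb : j = i
          · subst hjb
            have h1 := (hb a).1
            have h2 := (hb a).2
            simp [h0, hba, h1, h2]
          · rw [Equiv.swap_apply_of_ne_of_ne hja hjb]
            simp [h0, hb, hja, hjb, hba]
      · rw [Equiv.swap_apply_of_ne_of_ne hia hib]
        by_cases hja : j = a
        · subst hja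
          simp [h0, hb, hia, hib, hab]; ring
        · by_cases hjb : j = b
          · subst hjb
            simp [h0, hb, hia, hib, hba]
          · rw [Equiv.swap_apply_of_ne_of_ne hja hjb]
            simp [hia, hib, hja, hjb]; ring
  rw [h]
  exact (Matrix.rank_mul_le_left _ _).trans (Matrix.rank_mul_le_right _ _)

theorem supp_step_subset (a b : Fin n) (p : ℝ) (M : Matrix (Fin n) (Fin n) ℝ) :
    supp (stepM a b p M) ⊆ insert a (insert b (supp M)) := by
  intro i hi
  by_contra hc
  simp only [Finset.mem_insert, not_or] at hc
  obtain ⟨h1, h2, h3⟩ := hc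
  rw [not_mem_supp] at h3
  revert hi
  rw [imp_false, not_mem_supp]
  intro j
  simp only [stepM]
  rw [Equiv.swap_apply_of_ne_of_ne h1 h2]
  simp [h3]

theorem supp_step_subset' {a b : Fin n} (p : ℝ) (M : Matrix (Fin n) (Fin n) ℝ)
    (ha : a ∉ supp M) (hb : b ∉ supp M) :
    supp (stepM a b p M) ⊆ supp M := by
  intro i hi
  by_contra h3
  rw [not_mem_supp] at h3 ha hb
  revert hi
  rw [imp_false, not_mem_supp]
  intro j
  have h4 : (∀ j, M (Equiv.swap a b i) j = 0 ∧ M j (Equiv.swap a b i) = 0) := by
    by_cases hia : i = a
    · subst hia; simpa using hb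
    · by_cases hib : i = b
      · subst hib; simpa using ha
      · rw [Equiv.swap_apply_of_ne_of_ne hia hib]; exact h3
  simp [stepM, h3, h4]

/-- the potential rises by at most one in each step -/
theorem potential_step {a b : Fin n} (hab : a ≠ b) (p : ℝ) (M : Matrix (Fin n) (Fin n) ℝ)
    (h0 : ∀ i, M i i = 0) :
    (stepM a b p M).rank + (supp (stepM a b p M)).card ≤ M.rank + (supp M).card + 1 := by
  by_cases hb : b ∈ supp M
  · by_cases ha : a ∈ supp M
    · have h1 := rank_step a b p M
      have h2 : (supp (stepM a b p M)).card ≤ (supp M).card := by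
        apply Finset.card_le_card
        have := supp_step_subset a b p M
        rwa [Finset.insert_eq_of_mem hb, Finset.insert_eq_of_mem ha] at this
      omega
    · have h1 : (stepM a b p M).rank ≤ M.rank := by
        rw [stepM_comm]; exact rank_step_empty hab.symm p M h0 ha
      have h2 : (supp (stepM a b p M)).card ≤ (supp M).card + 1 := by
        have := Finset.card_le_card (supp_step_subset a b p M)
        rw [Finset.insert_eq_of_mem hb] at this
        exact this.trans (Finset.card_insert_le _ _)
      omega
  · have h1 := rank_step_empty hab p M h0 hb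
    have h2 : (supp (stepM a b p M)).card ≤ (supp M).card + 1 := by
      by_cases ha : a ∈ supp M
      · have := Finset.card_le_card (supp_step_subset a b p M)
        rw [Finset.insert_comm, Finset.insert_eq_of_mem ha] at this
        exact this.trans (Finset.card_insert_le _ _)
      · have := Finset.card_le_card (supp_step_subset' p M ha hb)
        omega
    omega

/-- the uniform law on ordered pairs has rank `n` -/
theorem rank_final (hn : 2 ≤ n) (c : ℝ) (hc : c ≠ 0) :
    (Matrix.of fun i j : Fin n => if i = j then 0 else c).rank = n := by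
  have hn1 : (n : ℝ) - 1 ≠ 0 := by
    have : (2 : ℝ) ≤ n := by exact_mod_cast hn
    linarith
  have h : IsUnit (Matrix.of fun i j : Fin n => if i = j then 0 else c) := by
    have hmul : (Matrix.of fun i j : Fin n => if i = j then 0 else c)
        * (Matrix.of fun i j : Fin n => c⁻¹ * ((n - 1 : ℝ)⁻¹ - if i = j then 1 else 0)) = 1 := by
      ext i j
      rw [Matrix.mul_apply, Matrix.one_apply]
      simp only [Matrix.of_apply]
      have e1 : ∀ k, (if i = k then 0 else c) * (c⁻¹ * ((n - 1 : ℝ)⁻¹ - if k = j then 1 else 0))
          = (((n : ℝ) - 1)⁻¹ - (if k = j then 1 else 0)) - (if i = k then 1 else 0) *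
            (((n : ℝ) - 1)⁻¹ - (if k = j then 1 else 0)) := by
        intro k
        by_cases hik : i = k
        · simp [hik]
        · simp only [hik, if_false]
          rw [← mul_assoc, mul_inv_cancel₀ hc]; ring
      simp only [e1, Finset.sum_sub_distrib, Finset.sum_const, Finset.card_univ, Fintype.card_fin,
        nsmul_eq_mul, Finset.sum_ite_eq', Finset.mem_univ, if_true, ite_mul, one_mul, zero_mul,
        Finset.sum_ite_eq]
      by_cases hij : i = j
      · simp only [hij, if_true]; field_simp; ring
      · simp only [hij, if_false]; field_simp; ring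
    exact IsUnit.of_mul_eq_one _ hmul
  rw [Matrix.rank_of_isUnit _ h, Fintype.card_fin]

end Q166.LazyS
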