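import Pool.Agent.Q166.LazyA

/-!
# Two counters and lazy transpositions: evolution, lower bound, construction
-/

namespace Q166.LazyS

open Matrix Finset

variable {n : ℕ}

/-- the law of the two counters after a list of lazy transpositions, from the law `M` -/
def evol : List (Fin n × Fin n × ℝ) → Matrix (Fin n) (Fin n) ℝ → Matrix (Fin n) (Fin n) ℝ
  | [], M => M
  | s :: l, M => evol l (stepM s.1 s.2.1 s.2.2 M)

theorem evol_diag (l : List (Fin n × Fin n × ℝ)) : ∀ (M : Matrix (Fin n) (Fin n) ℝ),
    (∀ i, M i i = 0) → ∀ i, evol l M i i = 0 := by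
  induction l with
  | nil => intro M h; exact h
  | cons s l ih => intro M h; exact ih _ (stepM_diag _ _ _ _ h)

theorem evol_potential (l : List (Fin n × Fin n × ℝ)) : ∀ (M : Matrix (Fin n) (Fin n) ℝ),
    (∀ i, M i i = 0) → (∀ s ∈ l, s.1 ≠ s.2.1) →
    (evol l M).rank + (supp (evol l M)).card ≤ M.rank + (supp M).card + l.length := by
  induction l with
  | nil => intro M _ _; simp [evol]
  | cons s l ih =>
    intro M h hs
    have h1 := ih (stepM s.1 s.2.1 s.2.2 M) (stepM_diag _ _ _ _ h)
      (fun t ht => hs t (List.mem_cons_of_mem _ ht))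
    have h2 := potential_step (hs s List.mem_cons_self) s.2.2 M h
    simp only [evol, List.length_cons]
    omega

/-- lower bound -/
theorem lower (hn : 2 ≤ n) (u v : Fin n) (l : List (Fin n × Fin n × ℝ))
    (hs : ∀ s ∈ l, s.1 ≠ s.2.1) (huv : u ≠ v) (c : ℝ) (hc : c ≠ 0)
    (h : ∀ i j, i ≠ j → evol l (Matrix.single u v 1) i j = c) : 2 * n - 3 ≤ l.length := by
  have h0 : ∀ i, (Matrix.single u v (1 : ℝ)) i i = 0 := by
    intro i
    rw [Matrix.single_apply]
    by_cases h1 : u = i
    · have : v ≠ i := fun h2 => huv (h1.trans h2.symm)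
      simp [this]
    · simp [h1]
  have hp := evol_potential l (Matrix.single u v 1) h0 hs
  have e : evol l (Matrix.single u v 1) = Matrix.of fun i j : Fin n => if i = j then 0 else c := by
    ext i j
    by_cases hij : i = j
    · subst hij
      simp [evol_diag l _ h0]
    · simp [h i j hij, hij]
  have hr : (evol l (Matrix.single u v (1 : ℝ))).rank = n := by
    rw [e]; exact rank_final hn c hc
  have hsupp : (supp (evol l (Matrix.single u v (1 : ℝ)))).card = n := by
    have : supp (evol l (Matrix.single u v (1 : ℝ))) = Finset.univ := by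
      rw [Finset.eq_univ_iff_forall]
      intro i
      rw [mem_supp, e]
      obtain ⟨j, hj⟩ : ∃ j : Fin n, i ≠ j := by
        by_cases hi : i = u
        · exact ⟨v, by rw [hi]; exact huv⟩
        · exact ⟨u, hi⟩
      exact ⟨j, Or.inl (by simp [hj, hc])⟩
    rw [this, Finset.card_univ, Fintype.card_fin]
  have hr0 : (Matrix.single u v (1 : ℝ)).rank ≤ 1 := by
    have : Matrix.single u v (1 : ℝ) = Matrix.vecMulVec (Pi.single u 1) (Pi.single v 1) := by
      ext i j
      rw [Matrix.single_apply, Matrix.vecMulVec_apply]
      by_cases h1 : u = i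
      · by_cases h2 : v = j
        · subst h1; subst h2; simp
        · subst h1; simp [h2, Pi.single_apply, Ne.symm h2]
      · simp [h1, Pi.single_apply, Ne.symm h1]
    rw [this]; exact Matrix.rank_vecMulVec_le _ _
  have hs0 : (supp (Matrix.single u v (1 : ℝ))).card ≤ 2 := by
    have : supp (Matrix.single u v (1 : ℝ)) ⊆ {u, v} := by
      intro i hi
      rw [mem_supp] at hi
      obtain ⟨j, hj⟩ := hi
      simp only [Matrix.single_apply, Finset.mem_insert, Finset.mem_singleton] at hj ⊢
      by_contra hc'
      push Not at hc'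
      obtain ⟨h1, h2⟩ := hc'
      simp [Ne.symm h1, Ne.symm h2] at hj
    exact (Finset.card_le_card this).trans (Finset.card_le_two)
  rw [hr, hsupp] at hp
  omega

/-! ### the construction -/

theorem stepM_add (a b : Fin n) (p : ℝ) (M N : Matrix (Fin n) (Fin n) ℝ) :
    stepM a b p (M + N) = stepM a b p M + stepM a b p N := by
  ext i j; simp [stepM]; ring

theorem stepM_smul (a b : Fin n) (p c : ℝ) (M : Matrix (Fin n) (Fin n) ℝ) :
    stepM a b p (c • M) = c • stepM a b p M := by
  ext i j; simp [stepM]; ring

theorem evol_add (l : List (Fin n × Fin n × ℝ)) : ∀ (M N : Matrix (Fin n) (Fin n) ℝ),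
    evol l (M + N) = evol l M + evol l N := by
  induction l with
  | nil => intro M N; rfl
  | cons s l ih => intro M N; simp only [evol, stepM_add, ih]

theorem evol_smul (l : List (Fin n × Fin n × ℝ)) : ∀ (c : ℝ) (M : Matrix (Fin n) (Fin n) ℝ),
    evol l (c • M) = c • evol l M := by
  induction l with
  | nil => intro c M; rfl
  | cons s l ih => intro c M; simp only [evol, stepM_smul, ih]

theorem evol_transpose (l : List (Fin n × Fin n × ℝ)) : ∀ (M : Matrix (Fin n) (Fin n) ℝ),
    evol l Mᵀ = (evol l M)ᵀ := by
  induction l with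
  | nil => intro M; rfl
  | cons s l ih =>
    intro M
    simp only [evol]
    rw [← ih]
    rfl

theorem stepM_single (a b : Fin n) (p : ℝ) (x y : Fin n) :
    stepM a b p (Matrix.single x y 1) = (1 - p) • Matrix.single x y 1
      + p • Matrix.single (Equiv.swap a b x) (Equiv.swap a b y) 1 := by
  ext i j
  simp only [stepM, Matrix.single_apply, Matrix.add_apply, Matrix.smul_apply, smul_eq_mul]
  have h1 : (x = Equiv.swap a b i ∧ y = Equiv.swap a b j) ↔
      (Equiv.swap a b x = i ∧ Equiv.swap a b y = j) := by
    constructor
    · rintro ⟨rfl, rfl⟩; simp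
    · rintro ⟨rfl, rfl⟩; simp
  simp only [h1]

variable {m : ℕ}

/-- position `k` -/
def pos (m k : ℕ) : Fin (m + 2) := Fin.ofNat (m + 2) k

theorem pos_val {k : ℕ} (h : k < m + 2) : (pos m k).val = k := by
  simp [pos, Fin.ofNat, Nat.mod_eq_of_lt h]

/-- the sequence of the `2 j + 1` lazy transpositions for the positions `0, ..., j + 1` -/
noncomputable def seq (m : ℕ) : ℕ → List (Fin (m + 2) × Fin (m + 2) × ℝ)
  | 0 => [(pos m 0, pos m 1, 1 / 2)]
  | j + 1 => (pos m 0, pos m (j + 2), 1 / (j + 2 : ℝ)) :: (pos m 1, pos m (j + 2), 1 / (j + 3 : ℝ)) ::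
      seq m j

theorem seq_length (m j : ℕ) : (seq m j).length = 2 * j + 1 := by
  induction j with
  | zero => rfl
  | succ j ih => simp only [seq, List.length_cons, ih]; ring

theorem pos_ne {k l : ℕ} (hk : k < m + 2) (hl : l < m + 2) (h : k ≠ l) : pos m k ≠ pos m l := by
  intro h'
  apply h
  rw [← pos_val hk, ← pos_val hl, h']

/-- two settled counters stay where they are -/
theorem seq_fix (m : ℕ) : ∀ j ≤ m, ∀ c d : Fin (m + 2), j + 2 ≤ c.val → j + 2 ≤ d.val →
    evol (seq m j) (Matrix.single c d 1) = Matrix.single c d 1 := by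
  have aux : ∀ (k l : ℕ) (p : ℝ) (c d : Fin (m + 2)), k < m + 2 → l < m + 2 → k ≠ c.val → l ≠ c.val →
      k ≠ d.val → l ≠ d.val →
      stepM (pos m k) (pos m l) p (Matrix.single c d 1) = Matrix.single c d 1 := by
    intro k l p c d hk hl h1 h2 h3 h4
    rw [stepM_single, Equiv.swap_apply_of_ne_of_ne, Equiv.swap_apply_of_ne_of_ne, ← add_smul]
    · simp
    · intro h; apply h3; rw [h, pos_val hk]
    · intro h; apply h4; rw [h, pos_val hl]
    · intro h; apply h1; rw [h, pos_val hk]
    · intro h; apply h2; rw [h, pos_val hl]
  intro j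
  induction j with
  | zero =>
    intro _ c d hc hd
    simp only [seq, evol]
    apply aux <;> omega
  | succ j ih =>
    intro hj c d hc hd
    simp only [seq, evol]
    rw [aux 0 (j + 2) _ c d (by omega) (by omega) (by omega) (by omega) (by omega) (by omega),
      aux 1 (j + 2) _ c d (by omega) (by omega) (by omega) (by omega) (by omega) (by omega)]
    exact ih (by omega) c d (by omega) (by omega)

/-- one counter settled in `c`, the other one uniform on the first `k` positions -/
noncomputable def half (m k : ℕ) (c : Fin (m + 2)) : Matrix (Fin (m + 2)) (Fin (m + 2)) ℝ :=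
  Matrix.of fun x y => if x.val < k ∧ y = c then 1 / (k : ℝ) else 0

/-- both uniform on the first `k` positions -/
noncomputable def both (m k : ℕ) : Matrix (Fin (m + 2)) (Fin (m + 2)) ℝ :=
  Matrix.of fun x y => if x.val < k ∧ y.val < k ∧ x ≠ y then 1 / ((k : ℝ) * (k - 1)) else 0

theorem swap_pos {k l : ℕ} (c : Fin (m + 2)) (hk : k < m + 2) (hl : l < m + 2) (h1 : k ≠ c.val)
    (h2 : l ≠ c.val) : Equiv.swap (pos m k) (pos m l) c = c := by
  apply Equiv.swap_apply_of_ne_of_ne
  · intro h; apply h1; rw [h, pos_val hk]
  · intro h; apply h2; rw [h, pos_val hl]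

theorem seq_half (m : ℕ) : ∀ j ≤ m, ∀ c : Fin (m + 2), j + 2 ≤ c.val →
    evol (seq m j) (Matrix.single (pos m 0) c 1) = half m (j + 2) c ∧
    evol (seq m j) (Matrix.single (pos m 1) c 1) = half m (j + 2) c := by
  intro j
  induction j with
  | zero =>
    intro _ c hc
    simp only [seq, evol]
    rw [stepM_single, stepM_single, Equiv.swap_apply_left, Equiv.swap_apply_right,
      swap_pos c (by omega) (by omega) (by omega) (by omega)]
    have h0 : ∀ x : Fin (m + 2), pos m 0 = x ↔ x.val = 0 := by
      intro x; rw [Fin.ext_iff, pos_val (by omega)]; exact eq_comm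
    have h1 : ∀ x : Fin (m + 2), pos m 1 = x ↔ x.val = 1 := by
      intro x; rw [Fin.ext_iff, pos_val (by omega)]; exact eq_comm
    constructor
    all_goals
      ext x y
      simp only [half, Matrix.of_apply, Matrix.add_apply, Matrix.smul_apply, Matrix.single_apply,
        smul_eq_mul, h0, h1]
      by_cases hy : c = y
      · subst hy
        by_cases hx0 : x.val = 0
        · simp [hx0] <;> norm_num
        · by_cases hx1 : x.val = 1
          · simp [hx1] <;> norm_num
          · have : ¬ x.val < 2 := by omega
            simp [hx0, hx1, this]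
      · have hy' : ¬ y = c := fun h => hy h.symm
        simp [hy, hy']
  | succ j ih =>
    intro hj c hc
    have hk : (j : ℝ) + 2 ≠ 0 := by positivity
    have hk1 : (j : ℝ) + 3 ≠ 0 := by positivity
    have h01 : pos m 0 ≠ pos m 1 := pos_ne (by omega) (by omega) (by omega)
    have h0k : pos m 0 ≠ pos m (j + 2) := pos_ne (by omega) (by omega) (by omega)
    have h1k : pos m 1 ≠ pos m (j + 2) := pos_ne (by omega) (by omega) (by omega)
    obtain ⟨i0, i1⟩ := ih (by omega) c (by omega)
    have i2 := seq_fix m j (by omega) (pos m (j + 2)) c (by rw [pos_val (by omega)]) (by omega)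
    have hkk : ∀ x : Fin (m + 2), pos m (j + 2) = x ↔ x.val = j + 2 := by
      intro x; rw [Fin.ext_iff, pos_val (by omega)]; exact eq_comm
    have hx3 : ∀ x : Fin (m + 2), x.val < j + 1 + 2 ↔ (x.val < j + 2 ∨ x.val = j + 2) := by
      intro x; omega
    constructor
    · simp only [seq, evol]
      rw [stepM_single, Equiv.swap_apply_left, swap_pos c (by omega) (by omega) (by omega) (by omega),
        stepM_add, stepM_smul, stepM_smul, stepM_single, stepM_single, Equiv.swap_apply_right,
        Equiv.swap_apply_of_ne_of_ne h01 h0k,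
        swap_pos c (by omega) (by omega) (by omega) (by omega)]
      simp only [evol_add, evol_smul]
      rw [i0, i1, i2]
      ext x y
      simp only [half, Matrix.of_apply, Matrix.add_apply, Matrix.smul_apply, Matrix.single_apply,
        smul_eq_mul, hkk, hx3]
      push_cast
      by_cases hy : c = y
      · subst hy
        by_cases hx1 : x.val < j + 2
        · have : ¬ x.val = j + 2 := by omega
          simp only [hx1, this, true_and, true_or, if_true, false_and, if_false]
          field_simp; ring
        · by_cases hx2 : x.val = j + 2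
          · simp only [hx1, hx2, true_and, or_true, if_true, false_and, if_false, lt_irrefl]
            field_simp; ring
          · simp only [hx1, hx2, false_and, or_false, if_false]
            ring
      · have hy' : ¬ y = c := fun h => hy h.symm
        simp [hy, hy']
    · simp only [seq, evol]
      rw [stepM_single, Equiv.swap_apply_of_ne_of_ne h01.symm h1k,
        swap_pos c (by omega) (by omega) (by omega) (by omega),
        stepM_add, stepM_smul, stepM_smul, stepM_single, Equiv.swap_apply_left,
        swap_pos c (by omega) (by omega) (by omega) (by omega)]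
      simp only [evol_add, evol_smul]
      rw [i1, i2]
      ext x y
      simp only [half, Matrix.of_apply, Matrix.add_apply, Matrix.smul_apply, Matrix.single_apply,
        smul_eq_mul, hkk, hx3]
      push_cast
      by_cases hy : c = y
      · subst hy
        by_cases hx1 : x.val < j + 2
        · have : ¬ x.val = j + 2 := by omega
          simp only [hx1, this, true_and, true_or, if_true, false_and, if_false]
          field_simp; ring
        · by_cases hx2 : x.val = j + 2
          · simp only [hx1, hx2, true_and, or_true, if_true, false_and, if_false, lt_irrefl]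
            field_simp; ring
          · simp only [hx1, hx2, false_and, or_false, if_false]
            ring
      · have hy' : ¬ y = c := fun h => hy h.symm
        simp [hy, hy']

theorem seq_both (m : ℕ) : ∀ j ≤ m,
    evol (seq m j) (Matrix.single (pos m 0) (pos m 1) 1) = both m (j + 2) := by
  intro j
  induction j with
  | zero =>
    intro _
    simp only [seq, evol]
    rw [stepM_single, Equiv.swap_apply_left, Equiv.swap_apply_right]
    have h0 : ∀ x : Fin (m + 2), pos m 0 = x ↔ x.val = 0 := by
      intro x; rw [Fin.ext_iff, pos_val (by omega)]; exact eq_comm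
    have h1 : ∀ x : Fin (m + 2), pos m 1 = x ↔ x.val = 1 := by
      intro x; rw [Fin.ext_iff, pos_val (by omega)]; exact eq_comm
    ext x y
    simp only [both, Matrix.of_apply, Matrix.add_apply, Matrix.smul_apply, Matrix.single_apply,
      smul_eq_mul, h0, h1, ne_eq, Fin.ext_iff]
    push_cast
    by_cases hx0 : x.val = 0
    · by_cases hy0 : y.val = 0
      · simp [hx0, hy0]
      · by_cases hy1 : y.val = 1
        · simp [hx0, hy1]; norm_num
        · have : ¬ y.val < 2 := by omega
          simp [hx0, hy0, hy1, this]
    · by_cases hx1 : x.val = 1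
      · by_cases hy0 : y.val = 0
        · simp [hx1, hy0]; norm_num
        · by_cases hy1 : y.val = 1
          · simp [hx1, hy1]
          · have : ¬ y.val < 2 := by omega
            simp [hx1, hy0, hy1, this]
      · have : ¬ x.val < 2 := by omega
        simp [hx0, hx1, this]
  | succ j ih =>
    intro hj
    have hk : (j : ℝ) + 2 ≠ 0 := by positivity
    have hk1 : (j : ℝ) + 3 ≠ 0 := by positivity
    have hk2 : (j : ℝ) + 1 ≠ 0 := by positivity
    have h01 : pos m 0 ≠ pos m 1 := pos_ne (by omega) (by omega) (by omega)
    have h0k : pos m 0 ≠ pos m (j + 2) := pos_ne (by omega) (by omega) (by omega)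
    have h1k : pos m 1 ≠ pos m (j + 2) := pos_ne (by omega) (by omega) (by omega)
    obtain ⟨i0, i1⟩ := seq_half m j (by omega) (pos m (j + 2)) (by rw [pos_val (by omega)])
    have i2 : evol (seq m j) (Matrix.single (pos m (j + 2)) (pos m 1) 1)
        = (half m (j + 2) (pos m (j + 2)))ᵀ := by
      rw [← i1, ← evol_transpose, Matrix.transpose_single]
    have i3 := ih (by omega)
    have hkk : ∀ x : Fin (m + 2), x = pos m (j + 2) ↔ x.val = j + 2 := by
      intro x; rw [Fin.ext_iff, pos_val (by omega)]
    have hx3 : ∀ x : Fin (m + 2), x.val < j + 1 + 2 ↔ (x.val < j + 2 ∨ x.val = j + 2) := by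
      intro x; omega
    simp only [seq, evol]
    rw [stepM_single, Equiv.swap_apply_left, Equiv.swap_apply_of_ne_of_ne h01.symm h1k,
      stepM_add, stepM_smul, stepM_smul, stepM_single, stepM_single, Equiv.swap_apply_right,
      Equiv.swap_apply_left, Equiv.swap_apply_of_ne_of_ne h01 h0k]
    simp only [evol_add, evol_smul]
    rw [i0, i1, i2, i3]
    ext x y
    simp only [half, both, Matrix.of_apply, Matrix.add_apply, Matrix.smul_apply,
      Matrix.transpose_apply, smul_eq_mul, hkk, hx3, ne_eq, Fin.ext_iff]
    push_cast
    by_cases hx1 : x.val < j + 2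
    · have hx2 : ¬ x.val = j + 2 := by omega
      by_cases hy1 : y.val < j + 2
      · have hy2 : ¬ y.val = j + 2 := by omega
        by_cases hxy : x.val = y.val
        · simp [hx1, hx2, hy1, hy2, hxy]
        · simp only [hx1, hx2, hy1, hy2, hxy, true_and, and_true, not_false_eq_true, if_true,
            and_false, if_false, or_false]
          have : (j : ℝ) + 2 - 1 ≠ 0 := by ring_nf; ring_nf at hk2; exact hk2
          have : (j : ℝ) + 1 + 2 - 1 ≠ 0 := by ring_nf; ring_nf at hk; exact hk
          have : (j : ℝ) + 1 + 2 ≠ 0 := by ring_nf; ring_nf at hk1; exact hk1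
          field_simp; ring
      · by_cases hy2 : y.val = j + 2
        · have hxy : ¬ x.val = j + 2 := by omega
          simp only [hx1, hx2, hy2, lt_irrefl, true_and, and_true, not_false_eq_true, if_true,
            and_false, false_and, if_false, or_true, or_false]
          have : (j : ℝ) + 1 + 2 - 1 ≠ 0 := by ring_nf; ring_nf at hk; exact hk
          have : (j : ℝ) + 1 + 2 ≠ 0 := by ring_nf; ring_nf at hk1; exact hk1
          field_simp; ring
        · simp [hx1, hx2, hy1, hy2]
    · by_cases hx2 : x.val = j + 2
      · by_cases hy1 : y.val < j + 2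
        · have hy2 : ¬ y.val = j + 2 := by omega
          have hy3 : ¬ j + 2 = y.val := by omega
          simp only [hx2, hy1, hy2, hy3, lt_irrefl, true_and, and_true, not_false_eq_true, if_true,
            and_false, false_and, if_false, or_true, or_false]
          have : (j : ℝ) + 1 + 2 - 1 ≠ 0 := by ring_nf; ring_nf at hk; exact hk
          have : (j : ℝ) + 1 + 2 ≠ 0 := by ring_nf; ring_nf at hk1; exact hk1
          field_simp; ring
        · by_cases hy2 : y.val = j + 2
          · simp [hx2, hy2]
          · simp [hx2, hy1, hy2]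
      · simp [hx1, hx2]

end Q166.LazyS
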