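import Mathlib

set_option autoImplicit false
open Classical

namespace Q166.NuEuler

variable {V : Type*} [Fintype V]

/-- sign of the ordering `σ` -/
noncomputable def S (D : V → V → Prop) {n : ℕ} (σ : V ≃ Fin n) : ℤ :=
  ∏ u, ∏ w, (if D u w ∧ σ w < σ u then -1 else 1)

/-- signed sum over the orderings -/
noncomputable def A (D : V → V → Prop) (n : ℕ) : ℤ := ∑ σ : V ≃ Fin n, S D σ

def IsOr (D : V → V → Prop) (G : SimpleGraph V) : Prop :=
  ∀ u w, (G.Adj u w ↔ D u w ∨ D w u) ∧ ¬ (D u w ∧ D w u)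

/-- the digraph minus a vertex -/
def del (D : V → V → Prop) (v : V) : {u // u ≠ v} → {u // u ≠ v} → Prop := fun a b => D a.1 b.1

noncomputable def exLast {n : ℕ} (v : V) (τ : {u // u ≠ v} ≃ Fin n) : V ≃ Fin (n + 1) where
  toFun u := if h : u = v then Fin.last n else (τ ⟨u, h⟩).castSucc
  invFun k := if h : k = Fin.last n then v else (τ.symm (k.castPred h)).1
  left_inv u := by
    by_cases h : u = v
    · simp [h]
    · simp [h]
  right_inv k := by
    by_cases h : k = Fin.last n
    · simp [h]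
    · simp only [h, dif_neg, not_false_eq_true]
      rw [dif_neg (τ.symm (k.castPred h)).2]
      simp

noncomputable def exZero {n : ℕ} (v : V) (τ : {u // u ≠ v} ≃ Fin n) : V ≃ Fin (n + 1) where
  toFun u := if h : u = v then 0 else (τ ⟨u, h⟩).succ
  invFun k := if h : k = 0 then v else (τ.symm (k.pred h)).1
  left_inv u := by
    by_cases h : u = v
    · simp [h]
    · simp [h]
  right_inv k := by
    by_cases h : k = 0
    · simp [h]
    · simp only [h, dif_neg, not_false_eq_true]
      rw [dif_neg (τ.symm (k.pred h)).2]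
      simp

theorem exLast_rot {n : ℕ} (v : V) (τ : {u // u ≠ v} ≃ Fin n) :
    (exLast v τ).trans (finRotate (n + 1)) = exZero v τ := by
  ext u
  by_cases h : u = v
  · simp [exLast, exZero, h]
  · simp only [Equiv.trans_apply, exLast, exZero, Equiv.coe_fn_mk, h, dif_neg, not_false_eq_true]
    rw [finRotate_of_lt (by simp)]
    simp

theorem exLast_surj {n : ℕ} (v : V) (σ : V ≃ Fin (n + 1)) (h : σ v = Fin.last n) :
    ∃ τ : {u // u ≠ v} ≃ Fin n, exLast v τ = σ := by
  have h1 : ∀ u : {u // u ≠ v}, σ u.1 ≠ Fin.last n := by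
    intro u hu
    apply u.2
    apply σ.injective
    rw [hu, h]
  refine ⟨⟨fun u => (σ u.1).castPred (h1 u), fun k => ⟨σ.symm k.castSucc, ?_⟩, ?_, ?_⟩, ?_⟩
  · intro hk
    rw [Equiv.symm_apply_eq, h] at hk
    exact (Fin.castSucc_lt_last k).ne hk
  · intro u; simp
  · intro k; simp
  · ext u
    by_cases hu : u = v
    · simp [exLast, hu, h]
    · simp [exLast, hu]

theorem exLast_inj {n : ℕ} (v : V) : Function.Injective (exLast (n := n) v) := by
  intro τ τ' h
  ext u
  have := congrArg (fun σ => ((σ u.1 : Fin (n+1)) : ℕ)) h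
  simpa [exLast, u.2] using this

theorem S_split (D : V → V → Prop) (hD : ∀ u, ¬ D u u) {n : ℕ} (v : V) (σ : V ≃ Fin n) :
    S D σ = (∏ w : {u // u ≠ v}, (if D v w ∧ σ w < σ v then -1 else 1)) *
      (∏ u : {u // u ≠ v}, (if D u v ∧ σ v < σ u then -1 else 1)) *
      ∏ u : {u // u ≠ v}, ∏ w : {u // u ≠ v}, (if D u w ∧ σ w < σ u then -1 else 1) := by
  unfold S
  rw [Fintype.prod_eq_mul_prod_subtype_ne _ v]
  have h1 : ∀ u : V, ∏ w, (if D u w ∧ σ w < σ u then (-1:ℤ) else 1) =
      (if D u v ∧ σ v < σ u then -1 else 1) *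
        ∏ w : {w // w ≠ v}, (if D u w ∧ σ w < σ u then (-1:ℤ) else 1) := by
    intro u
    rw [Fintype.prod_eq_mul_prod_subtype_ne _ v]
  have h2 : ∏ u : {u // u ≠ v}, ∏ w, (if D u w ∧ σ w < σ u then (-1:ℤ) else 1) =
      ∏ u : {u // u ≠ v}, ((if D u v ∧ σ v < σ u then (-1:ℤ) else 1) *
        ∏ w : {w // w ≠ v}, (if D u w ∧ σ w < σ u then (-1:ℤ) else 1)) :=
    Finset.prod_congr rfl (fun u _ => h1 u.1)
  rw [h1 v, h2, Finset.prod_mul_distrib]
  simp only [lt_irrefl, and_false, if_false, one_mul]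
  ring

theorem S_exLast (D : V → V → Prop) (hD : ∀ u, ¬ D u u) {n : ℕ} (v : V)
    (τ : {u // u ≠ v} ≃ Fin n) :
    S D (exLast v τ) = (∏ w : {u // u ≠ v}, (if D v w then -1 else 1)) * S (del D v) τ := by
  rw [S_split D hD v]
  have h1 : ∀ w : {u // u ≠ v}, exLast v τ w.1 = (τ w).castSucc := by
    intro w; simp [exLast, w.2]
  have h2 : exLast v τ v = Fin.last n := by simp [exLast]
  have h3 : ∀ w : {u // u ≠ v}, exLast v τ w.1 < exLast v τ v := by
    intro w; rw [h1, h2]; exact Fin.castSucc_lt_last _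
  have h4 : ∀ w : {u // u ≠ v}, ¬ exLast v τ v < exLast v τ w.1 := fun w => (h3 w).not_gt
  simp only [h3, h4, and_true, and_false, if_false, Finset.prod_const_one, mul_one]
  congr 1
  unfold S del
  simp only [h1, Fin.castSucc_lt_castSucc_iff]

theorem S_exZero (D : V → V → Prop) (hD : ∀ u, ¬ D u u) {n : ℕ} (v : V)
    (τ : {u // u ≠ v} ≃ Fin n) :
    S D (exZero v τ) = (∏ w : {u // u ≠ v}, (if D w v then -1 else 1)) * S (del D v) τ := by
  rw [S_split D hD v]
  have h1 : ∀ w : {u // u ≠ v}, exZero v τ w.1 = (τ w).succ := by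
    intro w; simp [exZero, w.2]
  have h2 : exZero v τ v = 0 := by simp [exZero]
  have h3 : ∀ w : {u // u ≠ v}, exZero v τ v < exZero v τ w.1 := by
    intro w; rw [h1, h2]; exact Fin.succ_pos _
  have h4 : ∀ w : {u // u ≠ v}, ¬ exZero v τ w.1 < exZero v τ v := fun w => (h3 w).not_gt
  simp only [h3, h4, and_true, and_false, if_false, Finset.prod_const_one, one_mul]
  congr 1
  unfold S del
  simp only [h1, Fin.succ_lt_succ_iff]

theorem S_rot {D : V → V → Prop} {G : SimpleGraph V} (hD : IsOr D G)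
    (hG : ∀ v, Even (Nat.card (G.neighborSet v))) {n : ℕ} (σ : V ≃ Fin (n + 1)) :
    S D (σ.trans (finRotate (n + 1))) = S D σ := by
  have hD' : ∀ u, ¬ D u u := fun u h => (hD u u).2 ⟨h, h⟩
  obtain ⟨τ, hτ⟩ := exLast_surj (σ.symm (Fin.last n)) σ (by simp)
  rw [← hτ]
  set v := σ.symm (Fin.last n) with hv
  rw [exLast_rot, S_exLast D hD', S_exZero D hD']
  congr 1
  have h1 : (∏ w : {u // u ≠ v}, (if D w v then (-1:ℤ) else 1)) *
      (∏ w : {u // u ≠ v}, (if D v w then (-1:ℤ) else 1)) = 1 := by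
    rw [← Finset.prod_mul_distrib]
    have h2 : ∀ w : {u // u ≠ v}, (if D w v then (-1:ℤ) else 1) * (if D v w then (-1:ℤ) else 1) =
        if G.Adj v w then -1 else 1 := by
      intro w
      have := hD v w
      by_cases a : D w v <;> by_cases b : D v w <;> simp_all
    rw [Finset.prod_congr rfl (fun w _ => h2 w)]
    have h3 : ∏ w : V, (if G.Adj v w then (-1:ℤ) else 1) =
        (if G.Adj v v then (-1:ℤ) else 1) * ∏ w : {u // u ≠ v}, (if G.Adj v w then (-1:ℤ) else 1) :=
      Fintype.prod_eq_mul_prod_subtype_ne _ v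
    simp only [SimpleGraph.irrefl, if_false, one_mul] at h3
    rw [← h3, Finset.prod_ite, Finset.prod_const, Finset.prod_const_one, mul_one]
    have h4 : (Finset.univ.filter (fun w => G.Adj v w)).card = Nat.card (G.neighborSet v) := by
      rw [Nat.card_eq_fintype_card, ← Set.toFinset_card]
      congr 1
      ext w
      simp
    rw [h4]
    exact (hG v).neg_one_pow
  have h5 : (∏ w : {u // u ≠ v}, (if D v w then (-1:ℤ) else 1)) *
      (∏ w : {u // u ≠ v}, (if D v w then (-1:ℤ) else 1)) = 1 := by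
    rw [← Finset.prod_mul_distrib]
    apply Finset.prod_eq_one
    intro w _
    split_ifs <;> norm_num
  calc (∏ w : {u // u ≠ v}, (if D w v then (-1:ℤ) else 1))
      = (∏ w : {u // u ≠ v}, (if D w v then (-1:ℤ) else 1)) *
        ((∏ w : {u // u ≠ v}, (if D v w then (-1:ℤ) else 1)) *
          (∏ w : {u // u ≠ v}, (if D v w then (-1:ℤ) else 1))) := by rw [h5, mul_one]
    _ = _ := by rw [← mul_assoc, h1, one_mul]

noncomputable def hsum (D : V → V → Prop) {n : ℕ} (v : V) (k : Fin (n + 1)) : ℤ :=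
  ∑ σ : V ≃ Fin (n + 1), if σ v = k then S D σ else 0

theorem hsum_rot {D : V → V → Prop} {G : SimpleGraph V} (hD : IsOr D G)
    (hG : ∀ v, Even (Nat.card (G.neighborSet v))) {n : ℕ} (v : V) (k : Fin (n + 1)) :
    hsum D v (finRotate (n + 1) k) = hsum D v k := by
  unfold hsum
  have e : (V ≃ Fin (n + 1)) ≃ (V ≃ Fin (n + 1)) :=
    Equiv.equivCongr (Equiv.refl V) (finRotate (n + 1))
  rw [← Equiv.sum_comp (Equiv.equivCongr (Equiv.refl V) (finRotate (n + 1)))]
  apply Finset.sum_congr rfl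
  intro σ _
  have h1 : Equiv.equivCongr (Equiv.refl V) (finRotate (n + 1)) σ =
      σ.trans (finRotate (n + 1)) := by
    ext u; simp [Equiv.equivCongr]
  rw [h1, S_rot hD hG]
  simp

theorem hsum_const {D : V → V → Prop} {G : SimpleGraph V} (hD : IsOr D G)
    (hG : ∀ v, Even (Nat.card (G.neighborSet v))) {n : ℕ} (v : V) (k : Fin (n + 1)) :
    hsum D v k = hsum D v (Fin.last n) := by
  have h0 : hsum D v (0 : Fin (n + 1)) = hsum D v (Fin.last n) := by
    rw [← hsum_rot hD hG v (Fin.last n)]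
    simp
  rw [← h0]
  induction k using Fin.induction with
  | zero => rfl
  | succ i ih =>
    rw [← ih, ← hsum_rot hD hG v i.castSucc]
    congr 1
    rw [finRotate_of_lt (by simp)]
    ext; simp

theorem A_eq {D : V → V → Prop} {G : SimpleGraph V} (hD : IsOr D G)
    (hG : ∀ v, Even (Nat.card (G.neighborSet v))) {n : ℕ} (v : V) :
    A D (n + 1) = (n + 1) * hsum (n := n) D v (Fin.last n) := by
  have h1 : A D (n + 1) = ∑ k : Fin (n + 1), hsum D v k := by
    unfold A hsum
    rw [Finset.sum_comm]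
    apply Finset.sum_congr rfl
    intro σ _
    simp
  rw [h1, Finset.sum_congr rfl (fun k _ => hsum_const hD hG v k)]
  simp

theorem hsum_last (D : V → V → Prop) (hD : ∀ u, ¬ D u u) {n : ℕ} (v : V) :
    |hsum (n := n) D v (Fin.last n)| = |A (del D v) n| := by
  unfold hsum A
  rw [← Finset.sum_filter]
  have h1 : ∑ σ ∈ Finset.univ.filter (fun σ : V ≃ Fin (n + 1) => σ v = Fin.last n), S D σ =
      ∑ τ : {u // u ≠ v} ≃ Fin n, S D (exLast v τ) := by
    symm
    apply Finset.sum_nbij (exLast v)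
    · intro τ _
      simp [exLast]
    · exact (exLast_inj v).injOn
    · intro σ hσ
      simp only [Finset.coe_filter, Finset.mem_univ, true_and, Set.mem_ofPred_eq] at hσ
      obtain ⟨τ, hτ⟩ := exLast_surj v σ hσ
      exact ⟨τ, by simp, hτ⟩
    · intro τ _; rfl
  rw [h1, Finset.sum_congr rfl (fun τ _ => S_exLast D hD v τ), ← Finset.mul_sum, abs_mul]
  have h2 : |∏ w : {u // u ≠ v}, (if D v w then (-1:ℤ) else 1)| = 1 := by
    rw [Finset.abs_prod]
    apply Finset.prod_eq_one
    intro w _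
    split_ifs <;> simp
  rw [h2, one_mul]
  have h3 : ∀ (i1 i2 : Fintype ({u // u ≠ v} ≃ Fin n)),
      (@Finset.univ _ i1) = (@Finset.univ _ i2) := by
    intro i1 i2
    rw [Subsingleton.elim i1 i2]
  exact congrArg abs (Finset.sum_congr (h3 _ _) (fun _ _ => rfl))

/-- the value does not depend on the orientation -/
theorem A_indep {D D' : V → V → Prop} {G : SimpleGraph V} (hD : IsOr D G) (hD' : IsOr D' G)
    (n : ℕ) : |A D n| = |A D' n| := by
  by_cases hne : Nonempty (V ≃ Fin n)
  · obtain ⟨σ0⟩ := hne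
    have pair : ∀ f : V → V → ℤ, (∀ u, f u u = 1) → ∏ u, ∏ w, f u w =
        ∏ u, ∏ w, if σ0 u < σ0 w then f u w * f w u else 1 := by
      intro f hf
      have h1 : ∏ u, ∏ w, f u w = (∏ u, ∏ w, if σ0 u < σ0 w then f u w else 1) *
          (∏ u, ∏ w, if σ0 w < σ0 u then f u w else 1) := by
        rw [← Finset.prod_mul_distrib]
        apply Finset.prod_congr rfl
        intro u _
        rw [← Finset.prod_mul_distrib]
        apply Finset.prod_congr rfl
        intro w _
        rcases lt_trichotomy (σ0 u) (σ0 w) with h | h | h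
        · simp [h, h.not_gt]
        · have : u = w := σ0.injective h
          subst this
          simp [hf]
        · simp [h, h.not_gt]
      have h2 : (∏ u, ∏ w, if σ0 w < σ0 u then f u w else 1) =
          (∏ u, ∏ w, if σ0 u < σ0 w then f w u else 1) := by
        rw [Finset.prod_comm]
      rw [h1, h2, ← Finset.prod_mul_distrib]
      apply Finset.prod_congr rfl
      intro u _
      rw [← Finset.prod_mul_distrib]
      apply Finset.prod_congr rfl
      intro w _
      split_ifs <;> simp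
    have key : ∀ D : V → V → Prop, IsOr D G → ∀ σ : V ≃ Fin n, S D σ =
        (∏ u, ∏ w, if σ0 u < σ0 w ∧ D w u then (-1:ℤ) else 1) *
        (∏ u, ∏ w, if σ0 u < σ0 w ∧ G.Adj u w ∧ σ w < σ u then (-1:ℤ) else 1) := by
      intro D hD σ
      unfold S
      rw [pair (fun u w => if D u w ∧ σ w < σ u then (-1:ℤ) else 1) (by simp),
        ← Finset.prod_mul_distrib]
      apply Finset.prod_congr rfl
      intro u _
      rw [← Finset.prod_mul_distrib]
      apply Finset.prod_congr rfl
      intro w _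
      by_cases h : σ0 u < σ0 w
      · have huw : u ≠ w := by rintro rfl; exact lt_irrefl _ h
        have hs : σ w < σ u ↔ ¬ σ u < σ w := by
          have : σ u ≠ σ w := fun h => huw (σ.injective h)
          omega
        have := hD u w
        by_cases a : D u w <;> by_cases b : D w u <;> by_cases c : σ u < σ w <;> simp_all
      · simp [h]
    have hA : ∀ D : V → V → Prop, IsOr D G → |A D n| = |∑ σ : V ≃ Fin n,
        ∏ u, ∏ w, if σ0 u < σ0 w ∧ G.Adj u w ∧ σ w < σ u then (-1:ℤ) else 1| := by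
      intro D hD
      unfold A
      rw [Finset.sum_congr rfl (fun σ _ => key D hD σ), ← Finset.mul_sum, abs_mul]
      have h2 : |∏ u, ∏ w, if σ0 u < σ0 w ∧ D w u then (-1:ℤ) else 1| = 1 := by
        rw [Finset.abs_prod]
        apply Finset.prod_eq_one
        intro u _
        rw [Finset.abs_prod]
        apply Finset.prod_eq_one
        intro w _
        split_ifs <;> simp
      rw [h2, one_mul]
    rw [hA D hD, hA D' hD']
  · have : IsEmpty (V ≃ Fin n) := not_nonempty_iff.mp hne
    unfold A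
    simp

theorem del_isOr {D : V → V → Prop} {G : SimpleGraph V} (hD : IsOr D G) (v : V) :
    IsOr (del D v) (G.induce {u | u ≠ v}) := by
  intro a b
  exact hD a.1 b.1

theorem main {D : V → V → Prop} {G : SimpleGraph V} (hD : IsOr D G)
    (hG : ∀ v, Even (Nat.card (G.neighborSet v))) {n : ℕ} (hn : Fintype.card V = n + 1)
    (D' : ∀ v : V, {u // u ≠ v} → {u // u ≠ v} → Prop)
    (hD' : ∀ v, IsOr (D' v) (G.induce {u | u ≠ v})) :
    |A D (n + 1)| = ∑ v, |A (D' v) n| := by
  have h1 : ∀ v, |A D (n + 1)| = (n + 1) * |A (D' v) n| := by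
    intro v
    rw [A_eq hD hG v, abs_mul, hsum_last D (fun u h => (hD u u).2 ⟨h, h⟩) v,
      A_indep (del_isOr hD v) (hD' v)]
    congr 1
  have h2 : (n + 1 : ℤ) * |A D (n + 1)| = (n + 1 : ℤ) * ∑ v, |A (D' v) n| := by
    rw [Finset.mul_sum, ← Finset.sum_congr rfl (fun v _ => h1 v)]
    simp [hn]
  have h3 : (n + 1 : ℤ) ≠ 0 := by positivity
  exact mul_left_cancel₀ h3 h2

end Q166.NuEuler
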