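import Pool.Agent.Q88.PS.Stm

/-!
Project PS (helper88), job HSC: the Hausdorff measure of the image under a similitude (helper166).
-/

set_option autoImplicit false

open MeasureTheory Set Filter Topology
open scoped ENNReal NNReal Pointwise

noncomputable section

namespace Pool.Agent.Q88.PS

lemma eighth_rpow : (‖(1 / 8 : ℝ)‖₊ : ℝ≥0) ^ (4 / 3 : ℝ) = 1 / 16 := by
  have h : (‖(1 / 8 : ℝ)‖₊ : ℝ≥0) = (1 / 2) ^ 3 := by
    ext
    rw [coe_nnnorm, Real.norm_of_nonneg (by norm_num)]
    push_cast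
    norm_num
  rw [h, ← NNReal.rpow_natCast, ← NNReal.rpow_mul,
    show ((3 : ℕ) : ℝ) * (4 / 3) = ((4 : ℕ) : ℝ) by push_cast; ring, NNReal.rpow_natCast]
  ext
  push_cast
  norm_num

lemma psi_image (d : D) (A : Set E2) :
    μH[(4 / 3 : ℝ)] (psi d '' A) = (16 : ℝ≥0∞)⁻¹ * μH[(4 / 3 : ℝ)] A := by
  have h1 : psi d '' A = (1 / 8 : ℝ) • ((IsometryEquiv.addRight (dv d)) '' A) := by
    rw [← image_smul, image_image]
    rfl
  rw [h1, Measure.hausdorffMeasure_smul₀ (by norm_num) (by norm_num),
    IsometryEquiv.hausdorffMeasure_image, eighth_rpow]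
  rw [ENNReal.smul_def, smul_eq_mul]
  congr 1
  rw [one_div, ENNReal.coe_inv (by norm_num)]
  norm_num

theorem hsc : S_hsc := by
  intro w A
  induction w with
  | nil =>
    have : psw [] '' A = A := by
      have h : psw [] = id := rfl
      rw [h, image_id]
    rw [this, List.length_nil, pow_zero, one_mul]
  | cons d w ih =>
    have h : psw (d :: w) '' A = psi d '' (psw w '' A) := by
      rw [image_image]
      rfl
    rw [h, psi_image, ih, List.length_cons, pow_succ, ← mul_assoc, mul_comm (16 : ℝ≥0∞)⁻¹]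

end Pool.Agent.Q88.PS
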