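import Mathlib

/-!
Restricted growth functions avoiding 1221 and the statistic rb.
-/

set_option autoImplicit false

namespace Q166.RBStab

/-- restricted growth -/
def RG {n : ℕ} (w : Fin n → ℕ) : Prop :=
  ∀ i, 1 ≤ w i ∧ (w i = 1 ∨ ∃ j, j < i ∧ w i ≤ w j + 1)

def Avoids {n : ℕ} (w : Fin n → ℕ) : Prop :=
  ¬ ∃ a b c d : Fin n, a < b ∧ b < c ∧ c < d ∧ w a = w d ∧ w b = w c ∧ w a < w b

def rbAt {n : ℕ} (w : Fin n → ℕ) (j : Fin n) : ℕ :=
  ((Finset.univ.filter (fun i => j < i ∧ w j < w i)).image w).card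

def rb {n : ℕ} (w : Fin n → ℕ) : ℕ := ∑ j, rbAt w j

theorem exists_le {n : ℕ} {w : Fin n → ℕ} (hw : RG w) :
    ∀ k : ℕ, ∀ i : Fin n, i.val = k → ∀ v, 1 ≤ v → v ≤ w i → ∃ j, j ≤ i ∧ w j = v := by
  intro k
  induction k using Nat.strong_induction_on with
  | _ k ih =>
    intro i hi v h1 h2
    rcases eq_or_lt_of_le h2 with h | h
    · exact ⟨i, le_rfl, h.symm⟩
    · rcases (hw i).2 with h' | ⟨j, hj, h'⟩
      · omega
      · obtain ⟨l, hl, hl'⟩ := ih j.val (by rw [Fin.lt_def] at hj; omega) j rfl v h1 (by omega)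
        exact ⟨l, hl.trans hj.le, hl'⟩

/-- a smaller letter occurs strictly before -/
theorem exists_lt {n : ℕ} {w : Fin n → ℕ} (hw : RG w) (i : Fin n) (v : ℕ) (h1 : 1 ≤ v)
    (h2 : v < w i) : ∃ j, j < i ∧ w j = v := by
  obtain ⟨j, hj, hj'⟩ := exists_le hw i.val i rfl v h1 h2.le
  refine ⟨j, lt_of_le_of_ne hj ?_, hj'⟩
  rintro rfl
  omega

theorem sup_le_rb {n : ℕ} {w : Fin (n + 1) → ℕ} (hw : RG w) (i : Fin (n + 1)) :
    w i ≤ rb w + 1 := by
  have h0 : w 0 = 1 := by
    rcases (hw 0).2 with h | ⟨j, hj, _⟩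
    · exact h
    · exact absurd hj (Fin.not_lt_zero j)
  have h1 : w i - 1 ≤ rbAt w 0 := by
    unfold rbAt
    have h2 : Finset.Icc 2 (w i) ⊆
        (Finset.univ.filter (fun i => 0 < i ∧ w 0 < w i)).image w := by
      intro v hv
      rw [Finset.mem_Icc] at hv
      obtain ⟨j, _, hj⟩ := exists_le hw i.val i rfl v (by omega) hv.2
      rw [Finset.mem_image]
      refine ⟨j, ?_, hj⟩
      rw [Finset.mem_filter]
      refine ⟨Finset.mem_univ _, ?_, by omega⟩
      rw [Fin.pos_iff_ne_zero]
      rintro rfl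
      omega
    have h3 := Finset.card_le_card h2
    rw [Nat.card_Icc] at h3
    omega
  have h4 : rbAt w 0 ≤ rb w := Finset.single_le_sum (fun _ _ => Nat.zero_le _) (Finset.mem_univ _)
  omega

/-- in a long word the last two letters agree -/
theorem last_two {n : ℕ} {w : Fin (n + 2) → ℕ} (hw : RG w) (ha : Avoids w)
    (hn : 2 * rb w + 3 ≤ n + 2) : w (Fin.last n).castSucc = w (Fin.last (n + 1)) := by
  by_contra hne
  set l := Fin.last (n + 1) with hl
  set p := (Fin.last n).castSucc with hp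
  have hpl : p < l := Fin.castSucc_lt_last _
  have hlt : ∀ i : Fin (n + 2), i ≠ l → i ≤ p := by
    intro i hi
    rw [Fin.le_def, hp, Fin.val_castSucc, Fin.val_last]
    have h1 := Fin.val_ne_iff.2 hi
    rw [hl, Fin.val_last] at h1
    have := i.2
    omega
  have hx1 := (hw l).1
  have hy1 := (hw p).1
  let Z := Finset.univ.filter (fun j => rbAt w j = 0)
  have hZ : ∀ z ∈ Z, ∀ i, z < i → w i ≤ w z := by
    intro z hz i hi
    by_contra hc
    have h1 : rbAt w z = 0 := (Finset.mem_filter.1 hz).2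
    unfold rbAt at h1
    rw [Finset.card_eq_zero, Finset.image_eq_empty] at h1
    have h2 : i ∈ Finset.univ.filter (fun i => z < i ∧ w z < w i) :=
      Finset.mem_filter.2 ⟨Finset.mem_univ _, hi, not_le.1 hc⟩
    rw [h1] at h2
    exact absurd h2 (Finset.notMem_empty _)
  -- number of positions outside `Z`
  have h1 : n + 2 ≤ rb w + Z.card := by
    have h2 : (Finset.univ.filter (fun j => ¬ rbAt w j = 0)).card ≤ rb w := by
      unfold rb
      rw [Finset.card_eq_sum_ones]
      calc ∑ j ∈ Finset.univ.filter (fun j => ¬ rbAt w j = 0), 1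
          ≤ ∑ j ∈ Finset.univ.filter (fun j => ¬ rbAt w j = 0), rbAt w j := by
            apply Finset.sum_le_sum
            intro j hj
            have := (Finset.mem_filter.1 hj).2
            omega
        _ ≤ ∑ j, rbAt w j := Finset.sum_le_sum_of_subset (Finset.filter_subset _ _)
    have h3 := Finset.card_filter_add_card_filter_not (s := (Finset.univ : Finset (Fin (n + 2))))
      (fun j => rbAt w j = 0)
    rw [Finset.card_univ, Fintype.card_fin] at h3
    have h4 : Z.card = (Finset.univ.filter (fun j => rbAt w j = 0)).card := rfl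
    omega
  -- `w` is injective on `Z` without the last position
  have h2 : Set.InjOn w (Z.erase l : Finset (Fin (n + 2))) := by
    have key : ∀ z ∈ Z, ∀ z', z < z' → z' ∈ Z → z' ≠ l → w z ≠ w z' := by
      intro z hz z' hzz hz' hzl heq
      have hxl : w l ≤ w z := hZ z hz l (hzz.trans_le (Fin.le_last _))
      have hz'l : z' < l := lt_of_le_of_ne (Fin.le_last _) hzl
      rcases eq_or_lt_of_le hxl with h | h
      · have hz'p : z' ≠ p := by
          rintro rfl
          exact hne (by omega)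
        have hz'p' : z' < p := lt_of_le_of_ne (hlt z' hzl) hz'p
        have hyz : w p ≤ w z' := hZ z' hz' p hz'p'
        obtain ⟨a, ha1, ha2⟩ := exists_lt hw z (w p) hy1 (by omega)
        exact ha ⟨a, z, z', p, ha1, hzz, hz'p', ha2, heq, by omega⟩
      · obtain ⟨a, ha1, ha2⟩ := exists_lt hw z (w l) hx1 h
        exact ha ⟨a, z, z', l, ha1, hzz, hz'l, ha2, heq, by omega⟩
    intro z hz z' hz' heq
    simp only [Finset.coe_erase, Set.mem_sdiff, Finset.mem_coe, Set.mem_singleton_iff] at hz hz'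
    rcases lt_trichotomy z z' with h | h | h
    · exact absurd heq (key z hz.1 z' h hz'.1 hz'.2)
    · exact h
    · exact absurd heq.symm (key z' hz'.1 z h hz.1 hz.2)
  have h3 : (Z.erase l).card ≤ rb w + 1 := by
    rw [← Finset.card_image_of_injOn h2]
    have h4 : (Z.erase l).image w ⊆ Finset.Icc 1 (rb w + 1) := by
      intro v hv
      rw [Finset.mem_image] at hv
      obtain ⟨z, _, rfl⟩ := hv
      rw [Finset.mem_Icc]
      exact ⟨(hw z).1, sup_le_rb hw z⟩
    have := Finset.card_le_card h4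
    rw [Nat.card_Icc] at this
    omega
  have h4 := Finset.pred_card_le_card_erase (s := Z) (a := l)
  omega

/-- repeat the last letter -/
def ext {n : ℕ} (w : Fin (n + 1) → ℕ) : Fin (n + 2) → ℕ :=
  Fin.snoc (α := fun _ => ℕ) w (w (Fin.last n))

theorem ext_castSucc {n : ℕ} (w : Fin (n + 1) → ℕ) (i : Fin (n + 1)) : ext w i.castSucc = w i := by
  simp [ext]

theorem ext_last {n : ℕ} (w : Fin (n + 1) → ℕ) :
    ext w (Fin.last (n + 1)) = w (Fin.last n) := by
  simp [ext]

theorem RG_ext {n : ℕ} (w : Fin (n + 1) → ℕ) : RG (ext w) ↔ RG w := by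
  constructor
  · intro h i
    have h1 := h i.castSucc
    rw [ext_castSucc] at h1
    refine ⟨h1.1, ?_⟩
    rcases h1.2 with h2 | ⟨j, hj, h2⟩
    · exact Or.inl h2
    · induction j using Fin.lastCases with
      | last => exact absurd hj (by simp [Fin.lt_def])
      | cast j =>
        rw [ext_castSucc] at h2
        exact Or.inr ⟨j, by simpa using hj, h2⟩
  · intro h i
    induction i using Fin.lastCases with
    | last =>
      rw [ext_last]
      refine ⟨(h _).1, ?_⟩
      right
      exact ⟨(Fin.last n).castSucc, Fin.castSucc_lt_last _, by rw [ext_castSucc]; omega⟩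
    | cast i =>
      rw [ext_castSucc]
      refine ⟨(h i).1, ?_⟩
      rcases (h i).2 with h2 | ⟨j, hj, h2⟩
      · exact Or.inl h2
      · exact Or.inr ⟨j.castSucc, by simpa using hj, by rwa [ext_castSucc]⟩

theorem Avoids_ext {n : ℕ} (w : Fin (n + 1) → ℕ) : Avoids (ext w) ↔ Avoids w := by
  constructor
  · rintro h ⟨a, b, c, d, h1, h2, h3, h4, h5, h6⟩
    exact h ⟨a.castSucc, b.castSucc, c.castSucc, d.castSucc, by simpa, by simpa, by simpa,
      by simpa [ext_castSucc], by simpa [ext_castSucc], by simpa [ext_castSucc]⟩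
  · rintro h ⟨a, b, c, d, h1, h2, h3, h4, h5, h6⟩
    have hlast : ∀ i j : Fin (n + 2), i < j → ∃ i' : Fin (n + 1), i'.castSucc = i := by
      intro i j hij
      exact ⟨i.castPred (Fin.ne_last_of_lt hij), by simp⟩
    obtain ⟨a, rfl⟩ := hlast _ _ h1
    obtain ⟨b, rfl⟩ := hlast _ _ h2
    obtain ⟨c, rfl⟩ := hlast _ _ h3
    rw [ext_castSucc] at h4 h5 h6
    rw [ext_castSucc] at h5 h6
    rw [Fin.castSucc_lt_castSucc_iff] at h1 h2
    induction d using Fin.lastCases with
    | last =>
      rw [ext_last] at h4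
      have hcl : c ≠ Fin.last n := by
        rintro rfl
        omega
      exact h ⟨a, b, c, Fin.last n, h1, h2, lt_of_le_of_ne (Fin.le_last _) hcl, h4, h5, h6⟩
    | cast d =>
      rw [ext_castSucc] at h4
      rw [Fin.castSucc_lt_castSucc_iff] at h3
      exact h ⟨a, b, c, d, h1, h2, h3, h4, h5, h6⟩

theorem rb_ext {n : ℕ} (w : Fin (n + 1) → ℕ) : rb (ext w) = rb w := by
  unfold rb
  rw [Fin.sum_univ_castSucc]
  have h1 : rbAt (ext w) (Fin.last (n + 1)) = 0 := by
    unfold rbAt
    rw [Finset.card_eq_zero, Finset.image_eq_empty, Finset.filter_eq_empty_iff]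
    intro i _ hi
    exact absurd hi.1 (not_lt.2 (Fin.le_last i))
  rw [h1, add_zero]
  apply Finset.sum_congr rfl
  intro j _
  unfold rbAt
  congr 1
  ext v
  simp only [Finset.mem_image, Finset.mem_filter, Finset.mem_univ, true_and]
  constructor
  · rintro ⟨i, ⟨hi, hi'⟩, rfl⟩
    rw [ext_castSucc] at hi'
    induction i using Fin.lastCases with
    | last =>
      rw [ext_last] at hi' ⊢
      have hjl : j ≠ Fin.last n := by
        rintro rfl
        omega
      exact ⟨Fin.last n, ⟨lt_of_le_of_ne (Fin.le_last _) hjl, hi'⟩, rfl⟩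
    | cast i =>
      rw [ext_castSucc] at hi' ⊢
      rw [Fin.castSucc_lt_castSucc_iff] at hi
      exact ⟨i, ⟨hi, hi'⟩, rfl⟩
  · rintro ⟨i, ⟨hi, hi'⟩, rfl⟩
    exact ⟨i.castSucc, ⟨by simpa using hi, by simpa [ext_castSucc] using hi'⟩, ext_castSucc w i⟩

theorem ext_injective {n : ℕ} : Function.Injective (ext (n := n)) := by
  intro w w' h
  funext i
  have := congrFun h i.castSucc
  rwa [ext_castSucc, ext_castSucc] at this

theorem ext_surj {n : ℕ} {w : Fin (n + 2) → ℕ}
    (h : w (Fin.last n).castSucc = w (Fin.last (n + 1))) : ∃ w', ext w' = w := by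
  refine ⟨fun i => w i.castSucc, ?_⟩
  funext i
  induction i using Fin.lastCases with
  | last => rw [ext_last, h]
  | cast i => rw [ext_castSucc]

theorem RG_le {n : ℕ} {w : Fin n → ℕ} (hw : RG w) (i : Fin n) : w i ≤ n := by
  have key : ∀ k : ℕ, ∀ i : Fin n, i.val = k → w i ≤ k + 1 := by
    intro k
    induction k using Nat.strong_induction_on with
    | _ k ih =>
      intro i hi
      rcases (hw i).2 with h | ⟨j, hj, h⟩
      · omega
      · rw [Fin.lt_def] at hj
        have := ih j.val (by omega) j rfl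
        omega
  have := key i.val i rfl
  have := i.2
  omega

end Q166.RBStab
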