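import Mathlib

/-!
Restricted growth functions: the statistics copies of 1121 and copies of 1211 are
equidistributed.
-/

set_option autoImplicit false
open Classical

namespace Q166.RGFW

/-- restricted growth -/
def RG {α : Type} [LT α] (w : α → ℕ) : Prop :=
  ∀ i, 1 ≤ w i ∧ (w i = 1 ∨ ∃ j, j < i ∧ w i ≤ w j + 1)

abbrev R (α : Type) [LT α] : Type := {w : α → ℕ // RG w}

/-- the coordinate with the repeated letter -/
def sel {α : Type} (s : Bool) (t : α × α × α × α) : α := if s then t.2.2.1 else t.2.1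

/-- the coordinate with the large letter -/
def oth {α : Type} (s : Bool) (t : α × α × α × α) : α := if s then t.2.1 else t.2.2.1

def Chain {α : Type} [LT α] (t : α × α × α × α) : Prop :=
  t.1 < t.2.1 ∧ t.2.1 < t.2.2.1 ∧ t.2.2.1 < t.2.2.2

/-- copies of 1121 (`s = false`) and of 1211 (`s = true`) -/
def T {α : Type} [LT α] (s : Bool) (w : α → ℕ) : Set (α × α × α × α) :=
  {t | Chain t ∧ w t.1 = w t.2.2.2 ∧ w t.1 = w (sel s t) ∧ w t.1 < w (oth s t)}

noncomputable def N {α : Type} [LT α] (s : Bool) (w : α → ℕ) : ℕ := (T s w).ncard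

def q4 {α β : Type} (f : α → β) (t : α × α × α × α) : β × β × β × β :=
  (f t.1, f t.2.1, f t.2.2.1, f t.2.2.2)

theorem q4_inj {α β : Type} {f : α → β} (hf : Function.Injective f) :
    Function.Injective (q4 f) := by
  intro a b h
  simp only [q4, Prod.mk.injEq, hf.eq_iff] at h
  exact Prod.ext h.1 (Prod.ext h.2.1 (Prod.ext h.2.2.1 h.2.2.2))

theorem sel_q4 {α β : Type} (f : α → β) (s : Bool) (t : α × α × α × α) :
    sel s (q4 f t) = f (sel s t) := by
  cases s <;> rfl

theorem oth_q4 {α β : Type} (f : α → β) (s : Bool) (t : α × α × α × α) :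
    oth s (q4 f t) = f (oth s t) := by
  cases s <;> rfl

theorem N_comp {α β : Type} [LinearOrder α] [LinearOrder β] (e : α ≃o β) (s : Bool) (w : β → ℕ) :
    N s (w ∘ e) = N s w := by
  unfold N
  rw [← Set.ncard_image_of_injective _ (q4_inj e.injective)]
  congr 1
  ext t
  constructor
  · rintro ⟨u, hu, rfl⟩
    obtain ⟨⟨h1, h2, h3⟩, h4, h5, h6⟩ := hu
    refine ⟨⟨e.lt_iff_lt.2 h1, e.lt_iff_lt.2 h2, e.lt_iff_lt.2 h3⟩, h4, ?_, ?_⟩
    · rw [sel_q4]; exact h5
    · rw [oth_q4]; exact h6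
  · intro ht
    obtain ⟨⟨h1, h2, h3⟩, h4, h5, h6⟩ := ht
    have ht' : q4 e (q4 e.symm t) = t := by simp [q4]
    refine ⟨q4 e.symm t, ⟨⟨e.symm.lt_iff_lt.2 h1, e.symm.lt_iff_lt.2 h2, e.symm.lt_iff_lt.2 h3⟩,
      ?_, ?_, ?_⟩, ht'⟩
    · simpa [q4] using h4
    · rw [sel_q4]; simpa [q4] using h5
    · rw [oth_q4]; simpa [q4] using h6

theorem RG_comp {α β : Type} [LinearOrder α] [LinearOrder β] (e : α ≃o β) {w : β → ℕ}
    (hw : RG w) : RG (w ∘ e) := by
  intro i
  refine ⟨(hw (e i)).1, ?_⟩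
  rcases (hw (e i)).2 with h | ⟨j, hj, h⟩
  · exact Or.inl h
  · refine Or.inr ⟨e.symm j, ?_, ?_⟩
    · rw [← e.lt_iff_lt]; simpa using hj
    · simpa using h

/-- transport along an order isomorphism -/
def tr {α β : Type} [LinearOrder α] [LinearOrder β] (e : α ≃o β) : R β ≃ R α where
  toFun w := ⟨w.1 ∘ e, RG_comp e w.2⟩
  invFun w := ⟨w.1 ∘ e.symm, RG_comp e.symm w.2⟩
  left_inv w := by ext i; simp
  right_inv w := by ext i; simp

theorem N_tr {α β : Type} [LinearOrder α] [LinearOrder β] (e : α ≃o β) (s : Bool) (w : R β) :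
    N s (tr e w).1 = N s w.1 := N_comp e s w.1

/-- number of copies whose small letter is the smallest letter -/
noncomputable def C {α : Type} [LT α] (s : Bool) (S : Set α) : ℕ :=
  {t : α × α × α × α | Chain t ∧ t.1 ∉ S ∧ t.2.2.2 ∉ S ∧ sel s t ∉ S ∧ oth s t ∈ S}.ncard

theorem split {α : Type} [LinearOrder α] [Fintype α] (s : Bool) (w : α → ℕ) (hw : ∀ i, 1 ≤ w i)
    (S : Set α) (hS : ∀ i, i ∈ S ↔ 2 ≤ w i) :
    N s w = N s (fun i : S => w i - 1) + C s S := by
  have hfin : (T s w).Finite := Set.toFinite _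
  have h0 := Set.ncard_inter_add_ncard_sdiff_eq_ncard (T s w) {t | t.1 ∈ S} hfin
  unfold N C
  rw [← h0]
  congr 1
  · rw [← Set.ncard_image_of_injective _ (q4_inj (Subtype.val_injective (p := (· ∈ S))))]
    congr 1
    ext t
    constructor
    · rintro ⟨⟨⟨h1, h2, h3⟩, h4, h5, h6⟩, h7⟩
      simp only [Set.mem_ofPred_eq] at h7
      rw [hS] at h7
      have m4 : t.2.2.2 ∈ S := by rw [hS]; omega
      have ms : sel s t ∈ S := by rw [hS]; omega
      have mo : oth s t ∈ S := by rw [hS]; omega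
      have m2 : t.2.1 ∈ S := by cases s <;> simpa [sel, oth] using (by assumption)
      have m3 : t.2.2.1 ∈ S := by cases s <;> simpa [sel, oth] using (by assumption)
      have m1 : t.1 ∈ S := by rw [hS]; exact h7
      refine ⟨(⟨t.1, m1⟩, ⟨t.2.1, m2⟩, ⟨t.2.2.1, m3⟩, ⟨t.2.2.2, m4⟩), ⟨⟨h1, h2, h3⟩, ?_, ?_, ?_⟩,
        rfl⟩
      · simp only; omega
      · cases s <;> simp only [sel, oth] at h5 h6 ⊢ <;> simp_all
      · cases s <;> simp [sel, oth] at h5 h6 ms mo ⊢ <;> rw [hS] at ms mo <;> omega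
    · rintro ⟨u, ⟨⟨h1, h2, h3⟩, h4, h5, h6⟩, rfl⟩
      have a1 := (hS _).1 u.1.2
      have a2 := (hS _).1 u.2.1.2
      have a3 := (hS _).1 u.2.2.1.2
      have a4 := (hS _).1 u.2.2.2.2
      refine ⟨⟨⟨h1, h2, h3⟩, ?_, ?_, ?_⟩, u.1.2⟩
      · simp only [q4] at *; omega
      · cases s <;> simp [sel, oth, q4] at * <;> omega
      · cases s <;> simp [sel, oth, q4] at * <;> omega
  · congr 1
    ext t
    have b1 := hw t.1
    have b2 := hw t.2.2.2
    have b3 := hw (sel s t)
    have b4 := hw (oth s t)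
    constructor
    · rintro ⟨⟨hc, h4, h5, h6⟩, h7⟩
      simp only [Set.mem_ofPred_eq] at h7
      refine ⟨hc, h7, ?_, ?_, ?_⟩
      · rw [hS] at h7 ⊢; omega
      · rw [hS] at h7 ⊢; omega
      · rw [hS] at h7 ⊢; omega
    · rintro ⟨hc, h4, h5, h6, h7⟩
      rw [hS] at h4 h5 h6 h7
      refine ⟨⟨hc, by omega, by omega, by omega⟩, ?_⟩
      simp only [Set.mem_ofPred_eq]
      rw [hS]; omega

/-! ### reversal below the last position outside `S` -/

section rev

variable {n : ℕ}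

/-- last position outside `S` -/
noncomputable def L (S : Set (Fin (n + 1))) : Fin (n + 1) :=
  (Finset.univ.filter (· ∉ S)).sup id

theorem L_notMem {S : Set (Fin (n + 1))} (h0 : (0 : Fin (n + 1)) ∉ S) : L S ∉ S := by
  obtain ⟨i, hi, h⟩ := Finset.exists_mem_eq_sup (Finset.univ.filter (· ∉ S))
    ⟨0, by simp [h0]⟩ (id : Fin (n + 1) → Fin (n + 1))
  rw [L, h]
  simpa using hi

theorem le_L {S : Set (Fin (n + 1))} {i : Fin (n + 1)} (h : i ∉ S) : i ≤ L S :=
  Finset.le_sup (f := id) (by simp [h] : i ∈ Finset.univ.filter (· ∉ S))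

theorem L_eq {S : Set (Fin (n + 1))} {l : Fin (n + 1)} (h : l ∉ S) (h' : ∀ i, l < i → i ∈ S) :
    L S = l := by
  apply le_antisymm
  · apply Finset.sup_le
    intro i hi
    simp only [Finset.mem_filter, Finset.mem_univ, true_and] at hi
    by_contra hc
    exact hi (h' i (not_le.1 hc))
  · exact le_L h

/-- reversal of the interval `[0, l]` -/
def rv (l i : Fin (n + 1)) : Fin (n + 1) :=
  ⟨if i.1 ≤ l.1 then l.1 - i.1 else i.1, by split_ifs <;> omega⟩

theorem rv_rv (l i : Fin (n + 1)) : rv l (rv l i) = i := by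
  ext
  simp only [rv]
  split_ifs <;> omega

theorem rv_zero (l : Fin (n + 1)) : rv l 0 = l := by
  ext; simp [rv]

theorem rv_self (l : Fin (n + 1)) : rv l l = 0 := by
  ext; simp [rv]

theorem rv_gt {l i : Fin (n + 1)} (h : l < i) : rv l i = i := by
  ext
  simp only [rv]
  rw [Fin.lt_def] at h
  split_ifs <;> omega

theorem rv_lt {l i j : Fin (n + 1)} (hi : i ≤ l) (hj : j ≤ l) (h : i < j) : rv l j < rv l i := by
  rw [Fin.lt_def] at h ⊢
  rw [Fin.le_def] at hi hj
  simp only [rv]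
  split_ifs
  omega

def sg0 (S : Set (Fin (n + 1))) (l : Fin (n + 1)) : Set (Fin (n + 1)) := {i | rv l i ∈ S}

theorem sg0_L {S : Set (Fin (n + 1))} (h0 : (0 : Fin (n + 1)) ∉ S) : L (sg0 S (L S)) = L S := by
  apply L_eq
  · simp only [sg0, Set.mem_ofPred_eq, rv_self]
    exact h0
  · intro i hi
    simp only [sg0, Set.mem_ofPred_eq, rv_gt hi]
    by_contra hc
    exact absurd (le_L hc) (not_le.2 hi)

abbrev D (n : ℕ) : Type := {S : Set (Fin (n + 1)) // (0 : Fin (n + 1)) ∉ S}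

noncomputable def sg (S : D n) : D n := ⟨sg0 S.1 (L S.1), by
  simp only [sg0, Set.mem_ofPred_eq, rv_zero]
  exact L_notMem S.2⟩

theorem sg_sg (S : D n) : sg (sg S) = S := by
  apply Subtype.ext
  have h : L (sg S).1 = L S.1 := sg0_L S.2
  show sg0 (sg S).1 (L (sg S).1) = S.1
  rw [h]
  ext i
  simp only [sg, sg0, Set.mem_ofPred_eq, rv_rv]

def flip4 {α : Type} (f : α → α) (t : α × α × α × α) : α × α × α × α :=
  (f t.2.2.2, f t.2.2.1, f t.2.1, f t.1)

theorem C_sg (S : D n) : C true (sg S).1 = C false S.1 := by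
  unfold C
  have hinj : Function.Injective (flip4 (rv (L S.1))) := by
    apply Function.LeftInverse.injective (g := flip4 (rv (L S.1)))
    intro t
    simp [flip4, rv_rv]
  rw [← Set.ncard_image_of_injective {t | Chain t ∧ t.1 ∉ S.1 ∧ t.2.2.2 ∉ S.1 ∧
    sel false t ∉ S.1 ∧ oth false t ∈ S.1} hinj]
  congr 1
  ext t
  constructor
  · rintro ⟨⟨h1, h2, h3⟩, h4, h5, h6, h7⟩
    have hL : ∀ i, i ∉ (sg S).1 → i ≤ L S.1 := by
      intro i hi
      have := le_L hi
      rwa [show L (sg S).1 = L S.1 from sg0_L S.2] at this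
    have l4 := hL _ h5
    have l3 : t.2.2.1 ≤ L S.1 := h3.le.trans l4
    have l2 : t.2.1 ≤ L S.1 := h2.le.trans l3
    have l1 : t.1 ≤ L S.1 := h1.le.trans l2
    refine ⟨flip4 (rv (L S.1)) t, ⟨⟨rv_lt l3 l4 h3, rv_lt l2 l3 h2, rv_lt l1 l2 h1⟩, ?_, ?_, ?_, ?_⟩,
      by simp [flip4, rv_rv]⟩
    · exact h5
    · exact h4
    · exact h6
    · exact h7
  · rintro ⟨u, ⟨⟨h1, h2, h3⟩, h4, h5, h6, h7⟩, rfl⟩
    have l4 := le_L h5
    have l3 : u.2.2.1 ≤ L S.1 := h3.le.trans l4
    have l2 : u.2.1 ≤ L S.1 := h2.le.trans l3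
    have l1 : u.1 ≤ L S.1 := h1.le.trans l2
    refine ⟨⟨rv_lt l3 l4 h3, rv_lt l2 l3 h2, rv_lt l1 l2 h1⟩, ?_, ?_, ?_, ?_⟩
    · simp only [sg, sg0, flip4, Set.mem_ofPred_eq, rv_rv]; exact h5
    · simp only [sg, sg0, flip4, Set.mem_ofPred_eq, rv_rv]; exact h4
    · simp only [sel, sg, sg0, flip4, Set.mem_ofPred_eq, rv_rv, if_true]; exact h6
    · simp only [oth, sg, sg0, flip4, Set.mem_ofPred_eq, rv_rv, if_true]; exact h7

theorem card_sg (S : D n) : Fintype.card (sg S).1 = Fintype.card S.1 := by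
  apply Fintype.card_congr
  exact Equiv.subtypeEquiv (Function.Involutive.toPerm (rv (L S.1)) (rv_rv _)) (fun _ => Iff.rfl)

end rev

/-! ### decomposition -/

section dec

variable {n : ℕ}

theorem RG_zero {w : Fin (n + 1) → ℕ} (hw : RG w) : w 0 = 1 := by
  rcases (hw 0).2 with h | ⟨j, hj, _⟩
  · exact h
  · exact absurd hj (Fin.not_lt_zero j)

/-- positions of the letters different from 1 -/
def supp (w : R (Fin (n + 1))) : D n := ⟨{i | 2 ≤ w.1 i}, by
  simp [RG_zero w.2]⟩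

theorem fib_mem (S : D n) (w : {w : R (Fin (n + 1)) // supp w = S}) (i : Fin (n + 1)) :
    i ∈ S.1 ↔ 2 ≤ w.1.1 i := by
  obtain ⟨w, rfl⟩ := w
  exact Iff.rfl

noncomputable def fib (S : D n) : {w : R (Fin (n + 1)) // supp w = S} ≃ R S.1 where
  toFun w := ⟨fun i => w.1.1 i.1 - 1, by
    have hS := fib_mem S w
    intro i
    have hi := (hS i.1).1 i.2
    refine ⟨by simp only; omega, ?_⟩
    rcases (w.1.2 i.1).2 with h | ⟨j, hj, h⟩
    · omega
    · by_cases hj2 : j ∈ S.1
      · have := (hS j).1 hj2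
        exact Or.inr ⟨⟨j, hj2⟩, hj, by simp only; omega⟩
      · have : ¬ 2 ≤ w.1.1 j := fun hc => hj2 ((hS j).2 hc)
        left; simp only; omega⟩
  invFun w := ⟨⟨fun i => if h : i ∈ S.1 then w.1 ⟨i, h⟩ + 1 else 1, by
    intro i
    by_cases hi : i ∈ S.1
    · simp only [hi, dif_pos]
      refine ⟨by omega, ?_⟩
      right
      rcases (w.2 ⟨i, hi⟩).2 with h | ⟨j, hj, h⟩
      · refine ⟨0, ?_, ?_⟩
        · rw [Fin.pos_iff_ne_zero]
          rintro rfl
          exact S.2 hi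
        · rw [dif_neg S.2]; omega
      · refine ⟨j.1, hj, ?_⟩
        rw [dif_pos j.2]
        exact Nat.succ_le_succ h
    · simp [hi]⟩, by
    apply Subtype.ext
    ext i
    simp only [supp, Set.mem_ofPred_eq]
    by_cases hi : i ∈ S.1
    · have := (w.2 ⟨i, hi⟩).1
      simp [hi]; omega
    · simp [hi]⟩
  left_inv w := by
    have hS := fib_mem S w
    apply Subtype.ext
    apply Subtype.ext
    ext i
    simp only
    have h1 := (w.1.2 i).1
    by_cases hi : i ∈ S.1
    · rw [dif_pos hi]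
      have := (hS i).1 hi
      omega
    · rw [dif_neg hi]
      have : ¬ 2 ≤ w.1.1 i := fun hc => hi ((hS i).2 hc)
      omega
  right_inv w := by
    apply Subtype.ext
    ext i
    simp only
    rw [dif_pos i.2]
    simp

/-- RGFs of length `n + 1` correspond to a subset avoiding `0` and an RGF on it -/
noncomputable def E (n : ℕ) : R (Fin (n + 1)) ≃ Σ S : D n, R S.1 :=
  (Equiv.sigmaFiberEquiv supp).symm.trans (Equiv.sigmaCongrRight fib)

theorem N_E (s : Bool) (w : R (Fin (n + 1))) :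
    N s w.1 = N s (E n w).2.1 + C s (E n w).1.1 := by
  have h := split s w.1 (fun i => (w.2 i).1) (supp w).1 (fun i => Iff.rfl)
  exact h

theorem main : ∀ n : ℕ, ∃ e : R (Fin n) ≃ R (Fin n), ∀ w, N true (e w).1 = N false w.1 := by
  intro n
  induction n using Nat.strong_induction_on with
  | _ n ih =>
    rcases Nat.eq_zero_or_pos n with rfl | hn
    · refine ⟨Equiv.refl _, fun w => ?_⟩
      have : ∀ s : Bool, T s w.1 = ∅ := by
        intro s
        ext t
        exact t.1.elim0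
      simp [N, this]
    · obtain ⟨m, rfl⟩ := Nat.exists_eq_succ_of_ne_zero hn.ne'
      have key : ∀ S : D m, ∃ f : R S.1 ≃ R (sg S).1, ∀ w, N true (f w).1 = N false w.1 := by
        intro S
        have hcard : Fintype.card S.1 < m + 1 := by
          have := Fintype.card_subtype_lt (p := (· ∈ S.1)) S.2
          simpa using this
        obtain ⟨e, he⟩ := ih _ hcard
        refine ⟨(tr (Fintype.orderIsoFinOfCardEq S.1 rfl)).trans (e.trans
          (tr (Fintype.orderIsoFinOfCardEq (sg S).1 (card_sg S))).symm), fun w => ?_⟩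
        simp only [Equiv.trans_apply]
        rw [← N_tr (Fintype.orderIsoFinOfCardEq (sg S).1 (card_sg S)) true, Equiv.apply_symm_apply,
          he, N_tr]
      choose f hf using key
      have hsg : Function.Involutive (sg (n := m)) := sg_sg
      let F : (Σ S : D m, R S.1) ≃ Σ S : D m, R S.1 := Equiv.sigmaCongr hsg.toPerm f
      refine ⟨(E m).trans (F.trans (E m).symm), fun w => ?_⟩
      rw [N_E, N_E]
      have h1 : E m (((E m).trans (F.trans (E m).symm)) w) = F (E m w) := by simp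
      rw [h1]
      have h2 : F (E m w) = ⟨sg (E m w).1, f _ (E m w).2⟩ := rfl
      rw [h2]
      simp only
      rw [hf, C_sg]

end dec

end Q166.RGFW
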