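import Mathlib

/-!
# Rich words: general facts, windows of two-sided infinite words
-/

namespace Q166.Rich

/-- the palindromic factors of a word (the empty one included) -/
def Pal (w : List Bool) : Set (List Bool) := {u | u <:+: w ∧ u.reverse = u}

/-- a word is rich if it has `|w| + 1` palindromic factors -/
def IsRich (w : List Bool) : Prop := (Pal w).ncard = w.length + 1

theorem pal_finite (w : List Bool) : (Pal w).Finite := by
  apply Set.Finite.subset (w.sublists.toFinset : Finset (List Bool)).finite_toSet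
  intro u hu
  rw [Finset.mem_coe, List.mem_toFinset, List.mem_sublists]
  exact hu.1.sublist

theorem isRich_nil : IsRich [] := by
  have h : Pal [] = {[]} := by
    ext u
    simp only [Pal, Set.mem_ofPred_eq, Set.mem_singleton_iff, List.infix_nil]
    constructor
    · exact fun h => h.1
    · rintro rfl; simp
  rw [IsRich, h, Set.ncard_singleton]
  rfl

theorem suffix_of_proper {w u t q : List Bool} {x : Bool} (ht : t ≠ [])
    (h : q ++ (u ++ t) = w ++ [x]) : u <:+: w := by
  obtain ⟨t', y, rfl⟩ : ∃ t' y, t = t' ++ [y] := ⟨t.dropLast, t.getLast ht,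
    (List.dropLast_append_getLast ht).symm⟩
  have h2 : (q ++ u ++ t') ++ [y] = w ++ [x] := by
    rw [← h]; simp [List.append_assoc]
  have h3 := List.append_inj_left' h2 rfl
  exact ⟨q, t', h3⟩

/-- appending a letter which produces a new palindromic suffix preserves richness -/
theorem IsRich.snoc {w : List Bool} {x : Bool} (h : IsRich w) {p : List Bool}
    (hp1 : p <:+ w ++ [x]) (hp2 : p.reverse = p) (hp3 : ¬ p <:+: w) : IsRich (w ++ [x]) := by
  have e : Pal (w ++ [x]) = insert p (Pal w) := by
    ext u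
    simp only [Pal, Set.mem_insert_iff, Set.mem_ofPred_eq]
    constructor
    · rintro ⟨hu1, hu2⟩
      by_cases hu3 : u <:+: w
      · exact Or.inr ⟨hu3, hu2⟩
      · left
        have hu4 : u <:+ w ++ [x] := by
          rcases List.infix_concat_iff.1 hu1 with h | h
          · exact h
          · exact absurd h hu3
        have key : ∀ a b : List Bool, a.reverse = a → b.reverse = b → a <:+ b →
            b <:+ w ++ [x] → ¬ a <:+: w → a = b := by
          intro a b ha hb hab hbw haw
          have h1 : a.reverse <+: b.reverse := by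
            rw [List.reverse_prefix]; exact hab
          rw [ha, hb] at h1
          obtain ⟨t, ht⟩ := h1
          by_cases ht0 : t = []
          · rw [ht0, List.append_nil] at ht; exact ht
          · obtain ⟨q, hq⟩ := hbw
            rw [← ht] at hq
            exact absurd (suffix_of_proper ht0 hq) haw
        rcases List.suffix_or_suffix_of_suffix hu4 hp1 with h | h
        · exact key u p hu2 hp2 h hp1 hu3
        · exact (key p u hp2 hu2 h hu4 hp3).symm
    · rintro (rfl | ⟨hu1, hu2⟩)
      · exact ⟨hp1.isInfix, hp2⟩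
      · exact ⟨hu1.trans (List.infix_append' [] w [x]) |> fun h => by simpa using h, hu2⟩
  rw [IsRich, e, Set.ncard_insert_of_notMem (fun h => hp3 h.1) (pal_finite w), h,
    List.length_append, List.length_singleton]

theorem isRich_reverse {w : List Bool} (h : IsRich w) : IsRich w.reverse := by
  have e : Pal w.reverse = Pal w := by
    ext u
    simp only [Pal, Set.mem_ofPred_eq]
    constructor
    · rintro ⟨h1, h2⟩
      refine ⟨?_, h2⟩
      have h3 : u.reverse <:+: w.reverse := by rw [h2]; exact h1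
      exact List.reverse_infix.1 h3
    · rintro ⟨h1, h2⟩
      refine ⟨?_, h2⟩
      have h3 : u.reverse <:+: w.reverse := List.reverse_infix.2 h1
      rwa [h2] at h3
  rw [IsRich, e, List.length_reverse]
  exact h

/-- the window of length `n` starting at `a` -/
def win (W : ℤ → Bool) (a : ℤ) (n : ℕ) : List Bool := (List.range n).map fun k : ℕ => W (a + (k : ℤ))

theorem win_succ (W : ℤ → Bool) (a : ℤ) (n : ℕ) : win W a (n + 1) = win W a n ++ [W (a + n)] := by
  simp [win, List.range_succ]

theorem length_win (W : ℤ → Bool) (a : ℤ) (n : ℕ) : (win W a n).length = n := by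
  simp [win]

theorem win_congr {V W : ℤ → Bool} {a b : ℤ} {n : ℕ} (h : ∀ k : ℕ, k < n → V (a + k) = W (b + k)) :
    win V a n = win W b n := by
  unfold win
  apply List.map_congr_left
  intro k hk
  exact h k (List.mem_range.1 hk)

theorem win_add (W : ℤ → Bool) (a : ℤ) (m n : ℕ) :
    win W a (m + n) = win W a m ++ win W (a + m) n := by
  induction n with
  | zero => simp [win]
  | succ n ih =>
    rw [← Nat.add_assoc, win_succ, ih, win_succ, List.append_assoc]
    congr 3
    push_cast
    ring_nf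

theorem win_eq_iff {V W : ℤ → Bool} {a b : ℤ} {n : ℕ} :
    win V a n = win W b n ↔ ∀ k : ℕ, k < n → V (a + k) = W (b + k) := by
  constructor
  · intro h k hk
    have h1 : (win V a n)[k]? = (win W b n)[k]? := by rw [h]
    simpa [win, hk] using h1
  · exact win_congr

theorem win_reverse (W : ℤ → Bool) (a c : ℤ) (n : ℕ) :
    (win W a n).reverse = win (fun i => W (c - i)) (c - a - n + 1) n := by
  apply List.ext_getElem
  · simp [win]
  · intro k h1 h2
    simp only [win, List.length_reverse, List.length_map, List.length_range] at h1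
    simp only [win, List.getElem_reverse, List.getElem_map, List.getElem_range, List.length_map,
      List.length_range]
    congr 1
    omega

theorem infix_win {W : ℤ → Bool} {a s : ℤ} {n l : ℕ} (h : win W s l <:+: win W a n) :
    ∃ x : ℤ, a ≤ x ∧ x + l ≤ a + n ∧ ∀ k : ℕ, k < l → W (x + k) = W (s + k) := by
  obtain ⟨p, q, hpq⟩ := h
  have hlen := congrArg List.length hpq
  simp only [List.length_append, length_win] at hlen
  refine ⟨a + p.length, by omega, by omega, ?_⟩
  intro k hk
  have h1 : (p ++ win W s l ++ q)[p.length + k]? = (win W a n)[p.length + k]? := by rw [hpq]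
  rw [List.append_assoc, List.getElem?_append_right (by omega), Nat.add_sub_cancel_left,
    List.getElem?_append_left (by rw [length_win]; exact hk)] at h1
  have h2 : p.length + k < n := by omega
  simp only [win, List.getElem?_map, List.getElem?_range hk, List.getElem?_range h2,
    Option.map_some, Option.some.injEq] at h1
  rw [h1]
  congr 1
  push_cast
  ring

/-- the window `[a, N]` has a palindromic suffix which does not occur before -/
def U (W : ℤ → Bool) (a N : ℤ) : Prop := ∃ s, a ≤ s ∧ s ≤ N ∧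
  (∀ i, s ≤ i → i ≤ N → W i = W (s + N - i)) ∧
  ∀ x, a ≤ x → x < s → ∃ k, 0 ≤ k ∧ s + k ≤ N ∧ W (x + k) ≠ W (s + k)

/-- the window `[a, N]` is rich -/
def R (W : ℤ → Bool) (a N : ℤ) : Prop := IsRich (win W a (N + 1 - a).toNat)

theorem R_empty (W : ℤ → Bool) {a N : ℤ} (h : N < a) : R W a N := by
  unfold R
  rw [show (N + 1 - a).toNat = 0 by omega]
  exact isRich_nil

theorem R_step {W : ℤ → Bool} {a N : ℤ} (h : R W a (N - 1)) (hU : U W a N) : R W a N := by
  obtain ⟨s, h1, h2, h3, h4⟩ := hU
  obtain ⟨m, hm⟩ : ∃ m : ℕ, (m : ℤ) = N - a := ⟨(N - a).toNat, by omega⟩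
  obtain ⟨l, hl⟩ : ∃ l : ℕ, (l : ℤ) = N + 1 - s := ⟨(N + 1 - s).toNat, by omega⟩
  have e1 : (N + 1 - a).toNat = m + 1 := by omega
  have e2 : (N - 1 + 1 - a).toNat = m := by omega
  unfold R at h ⊢
  rw [e2] at h
  rw [e1, win_succ]
  refine h.snoc (p := win W s l) ?_ ?_ ?_
  · rw [← win_succ]
    obtain ⟨r, hr⟩ : ∃ r : ℕ, (r : ℤ) = s - a := ⟨(s - a).toNat, by omega⟩
    rw [show m + 1 = r + l by omega, win_add, show a + (r : ℤ) = s by omega]
    exact List.suffix_append _ _
  · rw [win_reverse W s (s + N) l, show s + N - s - (l : ℤ) + 1 = s by omega]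
    apply win_congr
    intro k hk
    have := h3 (s + k) (by omega) (by omega)
    rw [this]
  · intro hinf
    obtain ⟨x, hx1, hx2, hx3⟩ := infix_win hinf
    obtain ⟨k, hk1, hk2, hk3⟩ := h4 x hx1 (by omega)
    apply hk3
    have := hx3 k.toNat (by omega)
    rwa [show ((k.toNat : ℕ) : ℤ) = k by omega] at this

theorem R_reverse {V W : ℤ → Bool} {c a N : ℤ} (hV : ∀ i, V i = W (c - i)) (h : R W a N) :
    R V (c - N) (c - a) := by
  by_cases hle : N < a
  · exact R_empty _ (by omega)
  · unfold R at h ⊢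
    have h1 := isRich_reverse h
    rw [win_reverse W a c] at h1
    have e : V = fun i => W (c - i) := funext hV
    rw [e]
    rw [show c - a + 1 - (c - N) = N + 1 - a by ring]
    rwa [show c - a - ((N + 1 - a).toNat : ℤ) + 1 = c - N by omega] at h1

theorem R_shift {W : ℤ → Bool} {a N d : ℤ} (hd : ∀ i, a ≤ i → W (i + d) = W i) (h : R W a N) :
    R W (a + d) (N + d) := by
  unfold R at h ⊢
  rw [show N + d + 1 - (a + d) = N + 1 - a by ring]
  rw [win_congr (W := W) (b := a)]
  · exact h
  · intro k _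
    rw [show a + d + (k : ℤ) = a + k + d by ring]
    exact hd _ (by omega)

/-- like `U`, with the palindrome in a part where `W` has period 5 -/
def S (W : ℤ → Bool) (a N : ℤ) : Prop := ∃ s, a ≤ s ∧ 1 ≤ s ∧ s + 4 ≤ N ∧
  (∀ i, s ≤ i → W (i + 5) = W i) ∧ (∀ i, s ≤ i → i ≤ N → W i = W (s + N - i)) ∧
  ∀ x, a ≤ x → x < s → ∃ k, 0 ≤ k ∧ s + k ≤ N ∧ W (x + k) ≠ W (s + k)

theorem S.toU {W : ℤ → Bool} {a N : ℤ} (h : S W a N) : U W a N := by
  obtain ⟨s, h1, -, h2, -, h3, h4⟩ := h
  exact ⟨s, h1, by omega, h3, h4⟩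

theorem pal_extend {W : ℤ → Bool} {s N : ℤ} (h2 : s + 4 ≤ N) (hp : ∀ i, s ≤ i → W (i + 5) = W i)
    (h3 : ∀ i, s ≤ i → i ≤ N → W i = W (s + N - i)) (i : ℤ) (hi : s ≤ i) (hi2 : i ≤ N + 5) :
    W i = W (s + (N + 5) - i) := by
  by_cases h : s + 5 ≤ i
  · have e1 := hp (i - 5) (by omega)
    rw [show i - 5 + 5 = i by ring] at e1
    rw [e1, h3 (i - 5) (by omega) (by omega)]
    congr 1
    ring
  · rw [h3 i hi (by omega), ← hp (s + N - i) (by omega)]
    congr 1
    ring

theorem S.right {W : ℤ → Bool} {a N : ℤ} (h : S W a N) : S W a (N + 5) := by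
  obtain ⟨s, h1, hs, h2, hp, h3, h4⟩ := h
  refine ⟨s, h1, hs, by omega, hp, pal_extend h2 hp h3, ?_⟩
  intro x hx1 hx2
  obtain ⟨k, hk1, hk2, hk3⟩ := h4 x hx1 hx2
  exact ⟨k, hk1, by omega, hk3⟩

theorem S.diag {W : ℤ → Bool} {a N : ℤ} (ha : a ≤ -4) (h : S W a N) : S W (a - 5) (N + 5) := by
  obtain ⟨s, h1, hs, h2, hp, h3, h4⟩ := h
  refine ⟨s, by omega, hs, by omega, hp, pal_extend h2 hp h3, ?_⟩
  intro x hx1 hx2
  by_cases hx : a ≤ x
  · obtain ⟨k, hk1, hk2, hk3⟩ := h4 x hx hx2
    exact ⟨k, hk1, by omega, hk3⟩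
  · obtain ⟨k, hk1, hk2, hk3⟩ := h4 (x + 5) (by omega) (by omega)
    refine ⟨k + 5, by omega, by omega, ?_⟩
    intro hcon
    apply hk3
    rw [show x + 5 + k = x + (k + 5) by ring, hcon, ← hp (s + k) (by omega)]
    congr 1
    ring

theorem S.rights {W : ℤ → Bool} {a N : ℤ} (h : S W a N) (k : ℕ) : S W a (N + 5 * k) := by
  induction k with
  | zero => simpa using h
  | succ k ih =>
    have := ih.right
    rwa [show N + 5 * (k : ℤ) + 5 = N + 5 * ((k + 1 : ℕ) : ℤ) by push_cast; ring] at this

theorem S.diags {W : ℤ → Bool} {a N : ℤ} (ha : a ≤ -4) (h : S W a N) (k : ℕ) :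
    S W (a - 5 * k) (N + 5 * k) := by
  induction k with
  | zero => simpa using h
  | succ k ih =>
    have := S.diag (by omega) ih
    rwa [show N + 5 * (k : ℤ) + 5 = N + 5 * ((k + 1 : ℕ) : ℤ) by push_cast; ring,
      show a - 5 * (k : ℤ) - 5 = a - 5 * ((k + 1 : ℕ) : ℤ) by push_cast; ring] at this

/-- the window `[a, N]` is a palindrome -/
def G (W : ℤ → Bool) (a N : ℤ) : Prop := ∀ i, a ≤ i → i ≤ N → W i = W (a + N - i)

theorem G.toU {W : ℤ → Bool} {a N : ℤ} (h : G W a N) (haN : a ≤ N) : U W a N :=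
  ⟨a, le_rfl, haN, h, fun x h1 h2 => by omega⟩

theorem G.diags {W : ℤ → Bool} {a N : ℤ} (ha : a ≤ -4) (hN : 10 ≤ N)
    (hr : ∀ i, 2 ≤ i → W (i + 5) = W i) (hl : ∀ i, i ≤ 4 → W (i - 5) = W i)
    (h : G W a N) (k : ℕ) : G W (a - 5 * k) (N + 5 * k) := by
  induction k with
  | zero => simpa using h
  | succ k ih =>
    intro i hi1 hi2
    push_cast at hi1 hi2
    have e : a - 5 * ((k + 1 : ℕ) : ℤ) + (N + 5 * ((k + 1 : ℕ) : ℤ)) - i = a + N - i := by
      push_cast; ring
    rw [e]
    have ih' : ∀ i, a - 5 * k ≤ i → i ≤ N + 5 * k → W i = W (a + N - i) := by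
      intro j hj1 hj2
      rw [ih j hj1 hj2]
      congr 1
      ring
    by_cases c1 : a - 5 * k ≤ i
    · by_cases c2 : i ≤ N + 5 * k
      · exact ih' i c1 c2
      · have e1 := hr (i - 5) (by omega)
        rw [show i - 5 + 5 = i by ring] at e1
        rw [e1, ih' (i - 5) (by omega) (by omega)]
        have e2 := hl (a + N - (i - 5)) (by omega)
        rw [← e2]
        congr 1
        ring
    · have e1 := hl (i + 5) (by omega)
      rw [show i + 5 - 5 = i by ring] at e1
      rw [e1, ih' (i + 5) (by omega) (by omega)]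
      have e2 := hr (a + N - (i + 5)) (by omega)
      rw [← e2]
      congr 1
      ring

end Q166.Rich
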