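import Pool.Agent.Q166.RichA

/-!
# The words `(w₀⋯w₄)^ω w₀⋯w₆ (w₂⋯w₆)^ω`: finite checks
-/

namespace Q166.Rich

/-- the index map -/
def rho (i : ℤ) : ℕ := if i ≤ 4 then (i % 5).toNat else 2 + ((i - 2) % 5).toNat

/-- the two-sided infinite word belonging to the seven bits of `m` -/
def Wd (m : ℕ) (i : ℤ) : Bool := m.testBit (rho i)

theorem rho_lt (i : ℤ) : rho i < 7 := by
  unfold rho; split_ifs <;> omega

theorem rho_right {i : ℤ} (h : 2 ≤ i) : rho (i + 5) = rho i := by
  unfold rho; split_ifs <;> omega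

theorem rho_left {i : ℤ} (h : i ≤ 4) : rho (i - 5) = rho i := by
  unfold rho; split_ifs <;> omega

theorem rho_rev (i : ℤ) : rho (6 - i) = 6 - rho i := by
  unfold rho; split_ifs <;> omega

theorem rho_id {i : ℤ} (h0 : 0 ≤ i) (h1 : i < 7) : (rho i : ℤ) = i := by
  unfold rho; split_ifs <;> omega

theorem Wd_right (m : ℕ) {i : ℤ} (h : 2 ≤ i) : Wd m (i + 5) = Wd m i := by
  unfold Wd; rw [rho_right h]

theorem Wd_left (m : ℕ) {i : ℤ} (h : i ≤ 4) : Wd m (i - 5) = Wd m i := by
  unfold Wd; rw [rho_left h]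

/-- the index map for shifted indices -/
def rhoN (j : ℕ) : ℕ := if j ≤ 12 then (j + 2) % 5 else 2 + (j - 10) % 5

theorem rho_eq (j : ℕ) : rho ((j : ℤ) - 8) = rhoN j := by
  unfold rho rhoN; split_ifs <;> omega

/-- the number with given bits -/
def mk (f : ℕ → Bool) : ℕ → ℕ
  | 0 => 0
  | n + 1 => mk f n + (if f n then 2 ^ n else 0)

theorem mk_lt (f : ℕ → Bool) (n : ℕ) : mk f n < 2 ^ n := by
  induction n with
  | zero => simp [mk]
  | succ n ih =>
    unfold mk
    rw [pow_succ]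
    split_ifs <;> omega

theorem testBit_mk (f : ℕ → Bool) {n j : ℕ} (h : j < n) : (mk f n).testBit j = f j := by
  induction n with
  | zero => omega
  | succ n ih =>
    unfold mk
    have hlt := mk_lt f n
    rcases Nat.lt_succ_iff_lt_or_eq.1 h with h | rfl
    · split_ifs with hf
      · rw [Nat.add_comm, Nat.testBit_two_pow_add_gt h, ih h]
      · rw [Nat.add_zero, ih h]
    · split_ifs with hf
      · rw [Nat.add_comm, Nat.testBit_two_pow_add_eq, Nat.testBit_lt_two_pow hlt, hf]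
        rfl
      · rw [Nat.add_zero, Nat.testBit_lt_two_pow hlt]
        simpa using hf

/-- the bits of the word at the positions `-8, ..., 19` -/
def B (m : ℕ) : ℕ := mk (fun j => m.testBit (rhoN j)) 28

/-- the same in reversed order -/
def BR (m : ℕ) : ℕ := mk (fun j => m.testBit (rhoN (27 - j))) 28

theorem B_bit {m j : ℕ} (h : j < 28) : (B m).testBit j = Wd m ((j : ℤ) - 8) := by
  unfold B Wd
  rw [testBit_mk _ h, rho_eq]

theorem BR_bit {m j : ℕ} (h : j < 28) :
    (BR m).testBit j = Wd m (((27 - j : ℕ) : ℤ) - 8) := by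
  unfold BR Wd
  rw [testBit_mk _ h, rho_eq]

/-- a factor as a number -/
def fac (b x L : ℕ) : ℕ := (b >>> x) % 2 ^ L

theorem fac_eq {b b' x y L : ℕ} :
    fac b x L = fac b' y L ↔ ∀ k < L, b.testBit (x + k) = b'.testBit (y + k) := by
  unfold fac
  constructor
  · intro h k hk
    have h1 : ((b >>> x) % 2 ^ L).testBit k = ((b' >>> y) % 2 ^ L).testBit k := by rw [h]
    simpa [Nat.testBit_mod_two_pow, hk, Nat.testBit_shiftRight] using h1
  · intro h
    apply Nat.eq_of_testBit_eq
    intro k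
    rw [Nat.testBit_mod_two_pow, Nat.testBit_mod_two_pow, Nat.testBit_shiftRight,
      Nat.testBit_shiftRight]
    by_cases hk : k < L
    · simp [hk, h k hk]
    · simp [hk]

/-- the factor at `s` does not occur at `a, ..., s - 1` -/
def new (b a s L : ℕ) : Bool := (List.range (s - a)).all fun d => fac b (a + d) L != fac b s L

/-- the factor `[s, N]` is a palindrome -/
def pal (b br s N : ℕ) : Bool := fac b s (N + 1 - s) == fac br (27 - N) (N + 1 - s)

/-- check of `U` -/
def uchk (b br a N : ℕ) : Bool :=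
  (List.range (N + 1 - a)).any fun d => pal b br (a + d) N && new b a (a + d) (N + 1 - (a + d))

/-- check of `S` -/
def schk (b br a N : ℕ) : Bool :=
  (List.range (N + 1 - a)).any fun d => (decide (a + d + 4 ≤ N) && (decide (10 ≤ a + d) ||
    (decide (a + d = 9) && (b.testBit 14 == b.testBit 9)))) &&
    (pal b br (a + d) N && new b a (a + d) (N + 1 - (a + d)))

theorem pal_sound {m s N : ℕ} (hN : N < 28) (h : pal (B m) (BR m) s N = true) (i : ℤ)
    (h1 : (s : ℤ) - 8 ≤ i) (h2 : i ≤ (N : ℤ) - 8) :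
    Wd m i = Wd m ((s : ℤ) - 8 + ((N : ℤ) - 8) - i) := by
  unfold pal at h
  rw [beq_iff_eq, fac_eq] at h
  obtain ⟨k, hk⟩ : ∃ k : ℕ, (k : ℤ) = i + 8 - s := ⟨(i + 8 - s).toNat, by omega⟩
  have h3 := h k (by omega)
  rw [B_bit (by omega), BR_bit (by omega)] at h3
  rw [show i = ((s + k : ℕ) : ℤ) - 8 by push_cast; omega, h3]
  congr 1
  omega

theorem new_sound {m a s N : ℕ} (hN : N < 28) (hsN : s ≤ N)
    (h : new (B m) a s (N + 1 - s) = true) (x : ℤ) (h1 : (a : ℤ) - 8 ≤ x)
    (h2 : x < (s : ℤ) - 8) :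
    ∃ k, 0 ≤ k ∧ (s : ℤ) - 8 + k ≤ (N : ℤ) - 8 ∧ Wd m (x + k) ≠ Wd m ((s : ℤ) - 8 + k) := by
  unfold new at h
  rw [List.all_eq_true] at h
  obtain ⟨d, hd⟩ : ∃ d : ℕ, (d : ℤ) = x + 8 - a := ⟨(x + 8 - a).toNat, by omega⟩
  have h3 := h d (List.mem_range.2 (by omega))
  rw [bne_iff_ne, ne_eq, fac_eq] at h3
  push Not at h3
  obtain ⟨k, hk, hk2⟩ := h3
  rw [B_bit (by omega), B_bit (by omega)] at hk2
  refine ⟨k, by omega, by omega, ?_⟩
  rw [show x + (k : ℤ) = ((a + d + k : ℕ) : ℤ) - 8 by push_cast; omega,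
    show (s : ℤ) - 8 + (k : ℤ) = ((s + k : ℕ) : ℤ) - 8 by push_cast; omega]
  exact hk2

theorem uchk_sound {m a N : ℕ} (hN : N < 28) (h : uchk (B m) (BR m) a N = true) :
    U (Wd m) ((a : ℤ) - 8) ((N : ℤ) - 8) := by
  unfold uchk at h
  rw [List.any_eq_true] at h
  obtain ⟨d, hd, h2⟩ := h
  rw [List.mem_range] at hd
  rw [Bool.and_eq_true] at h2
  refine ⟨((a + d : ℕ) : ℤ) - 8, by omega, by omega, pal_sound hN h2.1, ?_⟩
  intro x hx1 hx2
  exact new_sound hN (by omega) h2.2 x hx1 hx2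

theorem schk_sound {m a N : ℕ} (hN : N < 28) (h : schk (B m) (BR m) a N = true) :
    S (Wd m) ((a : ℤ) - 8) ((N : ℤ) - 8) := by
  unfold schk at h
  rw [List.any_eq_true] at h
  obtain ⟨d, hd, h2⟩ := h
  rw [List.mem_range] at hd
  simp only [Bool.and_eq_true, Bool.or_eq_true, decide_eq_true_eq, beq_iff_eq] at h2
  obtain ⟨⟨h3, h4⟩, h5, h6⟩ := h2
  refine ⟨((a + d : ℕ) : ℤ) - 8, by omega, by omega, by omega, ?_, pal_sound hN h5, ?_⟩
  · intro i hi
    rcases h4 with h4 | ⟨h4, h7⟩
    · exact Wd_right m (by omega)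
    · by_cases hi2 : 2 ≤ i
      · exact Wd_right m hi2
      · have hi1 : i = 1 := by omega
        subst hi1
        rw [B_bit (by omega), B_bit (by omega)] at h7
        exact h7
  · intro x hx1 hx2
    exact new_sound hN (by omega) h6 x hx1 hx2

/-- the reversed word -/
def rev (m : ℕ) : ℕ := mk (fun j => m.testBit (6 - j)) 7

theorem rev_lt (m : ℕ) : rev m < 128 := mk_lt _ 7

theorem Wd_rev (m : ℕ) (i : ℤ) : Wd (rev m) i = Wd m (6 - i) := by
  unfold Wd rev
  rw [testBit_mk _ (rho_lt i), rho_rev]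

/-- the word is periodic -/
def per (m : ℕ) : Bool := (m.testBit 5 == m.testBit 0) && (m.testBit 6 == m.testBit 1)

/-- first group of checks -/
def c1 (m : ℕ) : Bool := (List.range 5).all fun x =>
  ((List.range (12 - x)).all fun d => uchk (B m) (BR m) (10 + x) (10 + x + d)) &&
  ((List.range 5).all fun d => schk (B m) (BR m) (10 + x) (22 + d))

/-- second group of checks -/
def c2 (m : ℕ) : Bool := per m || (((List.range 5).all fun x =>
  ((List.range (4 + x)).all fun d => uchk (B m) (BR m) (5 + x) (18 - x + d)) &&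
  ((List.range 5).all fun d => schk (B m) (BR m) (5 + x) (22 + d))) &&
  ((List.range 5).all fun x => (List.range 5).all fun d =>
    schk (B m) (BR m) x (23 - x + d)))

/-- third group of checks -/
def c3 (m : ℕ) : Bool := per m || (((List.range 7).all fun x =>
  uchk (B m) (BR m) (5 + x) (17 - x) || uchk (B (rev m)) (BR (rev m)) (5 + x) (17 - x)) &&
  ((List.range 5).all fun x => schk (B m) (BR m) x (22 - x) ||
    (schk (B (rev m)) (BR (rev m)) x (22 - x) || pal (B m) (BR m) x (22 - x))))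

theorem c1_all : (List.range 128).all c1 = true := by decide +kernel

theorem c2_all : (List.range 128).all c2 = true := by decide +kernel

theorem c3_all : (List.range 128).all c3 = true := by decide +kernel

end Q166.Rich
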