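import Pool.Agent.Q166.RichB

/-!
# All factors of the words `(w₀⋯w₄)^ω w₀⋯w₆ (w₂⋯w₆)^ω` are rich
-/

namespace Q166.Rich

theorem all_range {n : ℕ} {f : ℕ → Bool} (h : (List.range n).all f = true) {x : ℕ} (hx : x < n) :
    f x = true := by
  rw [List.all_eq_true] at h
  exact h x (List.mem_range.2 hx)

/-- windows in the right part, base -/
theorem base1 {m : ℕ} (hm : m < 128) {a N : ℤ} (h2 : 2 ≤ a) (h6 : a ≤ 6) :
    (a ≤ N → N ≤ 13 → U (Wd m) a N) ∧ (14 ≤ N → S (Wd m) a N) := by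
  have h := all_range c1_all hm
  unfold c1 at h
  obtain ⟨x, hx⟩ : ∃ x : ℕ, (x : ℤ) = a - 2 := ⟨(a - 2).toNat, by omega⟩
  have h3 := all_range h (x := x) (by omega)
  rw [Bool.and_eq_true] at h3
  refine ⟨fun h4 h5 => ?_, fun h4 => ?_⟩
  · obtain ⟨d, hd⟩ : ∃ d : ℕ, (d : ℤ) = N - a := ⟨(N - a).toNat, by omega⟩
    have h6 := uchk_sound (by omega) (all_range h3.1 (x := d) (by omega))
    rwa [show ((10 + x : ℕ) : ℤ) - 8 = a by push_cast; omega,
      show ((10 + x + d : ℕ) : ℤ) - 8 = N by push_cast; omega] at h6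
  · obtain ⟨q, d, hq, hd⟩ : ∃ q d : ℕ, N = 14 + d + 5 * q ∧ d < 5 :=
      ⟨((N - 14) / 5).toNat, ((N - 14) % 5).toNat, by omega, by omega⟩
    have h6 := (schk_sound (by omega) (all_range h3.2 (x := d) hd)).rights q
    rwa [show ((10 + x : ℕ) : ℤ) - 8 = a by push_cast; omega,
      show ((22 + d : ℕ) : ℤ) - 8 + 5 * (q : ℤ) = N by push_cast; omega] at h6

theorem base1' {m : ℕ} (hm : m < 128) {a N : ℤ} (h2 : 2 ≤ a) (h6 : a ≤ 6) (h : a ≤ N) :
    U (Wd m) a N := by
  by_cases hN : N ≤ 13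
  · exact (base1 hm h2 h6).1 h hN
  · exact ((base1 hm h2 h6).2 (by omega)).toU

theorem U_shift {W : ℤ → Bool} {a N d : ℤ} (hd : ∀ i, a ≤ i → W (i + d) = W i) (h : U W a N) :
    U W (a + d) (N + d) := by
  obtain ⟨s, h1, h2, h3, h4⟩ := h
  refine ⟨s + d, by omega, by omega, ?_, ?_⟩
  · intro i hi1 hi2
    have e1 := hd (i - d) (by omega)
    rw [show i - d + d = i by ring] at e1
    rw [e1, h3 (i - d) (by omega) (by omega), ← hd (s + N - (i - d)) (by omega)]
    congr 1
    ring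
  · intro x hx1 hx2
    obtain ⟨k, hk1, hk2, hk3⟩ := h4 (x - d) (by omega) (by omega)
    refine ⟨k, hk1, by omega, ?_⟩
    have e1 := hd (x - d + k) (by omega)
    have e2 := hd (s + k) (by omega)
    rw [show x - d + k + d = x + k by ring] at e1
    rw [show s + k + d = s + d + k by ring] at e2
    rw [e1, e2]
    exact hk3

theorem right_pow (m : ℕ) (k : ℕ) {i : ℤ} (h : 2 ≤ i) : Wd m (i + 5 * k) = Wd m i := by
  induction k with
  | zero => simp
  | succ k ih =>
    rw [show i + 5 * ((k + 1 : ℕ) : ℤ) = i + 5 * k + 5 by push_cast; ring,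
      Wd_right m (by omega), ih]

/-- windows in the right part -/
theorem U_right {m : ℕ} (hm : m < 128) {a N : ℤ} (h2 : 2 ≤ a) (h : a ≤ N) : U (Wd m) a N := by
  obtain ⟨q, b, hq, hb1, hb2⟩ : ∃ (q : ℕ) (b : ℤ), a = b + 5 * q ∧ 2 ≤ b ∧ b ≤ 6 :=
    ⟨((a - 2) / 5).toNat, 2 + (a - 2) % 5, by omega, by omega, by omega⟩
  have h1 := base1' hm hb1 hb2 (show b ≤ N - 5 * q by omega)
  have h2 := U_shift (d := 5 * (q : ℤ)) (fun i hi => right_pow m q (by omega)) h1
  rwa [← hq, show N - 5 * (q : ℤ) + 5 * q = N by ring] at h2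

theorem per_all {m : ℕ} (h : per m = true) (i : ℤ) : Wd m (i + 5) = Wd m i := by
  unfold per at h
  rw [Bool.and_eq_true, beq_iff_eq, beq_iff_eq] at h
  by_cases h2 : 2 ≤ i
  · exact Wd_right m h2
  · by_cases h3 : i ≤ -1
    · have := Wd_left m (show i + 5 ≤ 4 by omega)
      rw [show i + 5 - 5 = i by ring] at this
      exact this.symm
    · rcases (show i = 0 ∨ i = 1 by omega) with rfl | rfl
      · exact h.1
      · exact h.2

/-- periodic words -/
theorem U_per {m : ℕ} (hm : m < 128) (hp : per m = true) {a N : ℤ} (h : a ≤ N) :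
    U (Wd m) a N := by
  by_cases h2 : 2 ≤ a
  · exact U_right hm h2 h
  · obtain ⟨q, hq⟩ : ∃ q : ℕ, (q : ℤ) = (6 - a) / 5 := ⟨((6 - a) / 5).toNat, by omega⟩
    have h1 := U_right hm (a := a + 5 * q) (N := N + 5 * q) (by omega) (by omega)
    have key : ∀ (k : ℕ) (i : ℤ), Wd m (i + 5 * k) = Wd m i := by
      intro k
      induction k with
      | zero => intro i; simp
      | succ k ih =>
        intro i
        rw [show i + 5 * ((k + 1 : ℕ) : ℤ) = i + 5 * k + 5 by push_cast; ring, per_all hp, ih]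
    have h2 := U_shift (d := -(5 * (q : ℤ))) (fun i _ => ?_) h1
    · rwa [show a + 5 * (q : ℤ) + -(5 * (q : ℤ)) = a by ring,
        show N + 5 * (q : ℤ) + -(5 * (q : ℤ)) = N by ring] at h2
    · have := key q (i + -(5 * (q : ℤ)))
      rw [show i + -(5 * (q : ℤ)) + 5 * (q : ℤ) = i by ring] at this
      exact this.symm

/-- windows `[a, N]` with `a + N ≥ 7` -/
theorem U_seven {m : ℕ} (hm : m < 128) {a N : ℤ} (haN : a ≤ N) (h7 : 7 ≤ a + N) :
    U (Wd m) a N := by
  by_cases hp : per m = true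
  · exact U_per hm hp haN
  by_cases h2 : 2 ≤ a
  · exact U_right hm h2 haN
  have h := all_range c2_all hm
  unfold c2 at h
  rw [Bool.or_eq_true, Bool.and_eq_true] at h
  rcases h with h | ⟨hA, hB⟩
  · exact absurd h hp
  by_cases h3 : -3 ≤ a
  · obtain ⟨x, hx⟩ : ∃ x : ℕ, (x : ℤ) = a + 3 := ⟨(a + 3).toNat, by omega⟩
    have h4 := all_range hA (x := x) (by omega)
    rw [Bool.and_eq_true] at h4
    by_cases hN : N ≤ 13
    · obtain ⟨d, hd⟩ : ∃ d : ℕ, (d : ℤ) = N - (7 - a) := ⟨(N - (7 - a)).toNat, by omega⟩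
      have h6 := uchk_sound (by omega) (all_range h4.1 (x := d) (by omega))
      rwa [show ((5 + x : ℕ) : ℤ) - 8 = a by push_cast; omega,
        show ((18 - x + d : ℕ) : ℤ) - 8 = N by omega] at h6
    · obtain ⟨q, d, hq, hd⟩ : ∃ q d : ℕ, N = 14 + d + 5 * q ∧ d < 5 :=
        ⟨((N - 14) / 5).toNat, ((N - 14) % 5).toNat, by omega, by omega⟩
      have h6 := ((schk_sound (by omega) (all_range h4.2 (x := d) hd)).rights q).toU
      rwa [show ((5 + x : ℕ) : ℤ) - 8 = a by push_cast; omega,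
        show ((22 + d : ℕ) : ℤ) - 8 + 5 * (q : ℤ) = N by push_cast; omega] at h6
  · -- `a ≤ -4`
    obtain ⟨q, x, hq, hx⟩ : ∃ q x : ℕ, a = (x : ℤ) - 8 - 5 * q ∧ x < 5 :=
      ⟨((-4 - a) / 5).toNat, (4 - ((-4 - a) % 5)).toNat, by omega, by omega⟩
    obtain ⟨r, d, hr, hd⟩ : ∃ r d : ℕ, N - 5 * q = 7 - (a + 5 * q) + d + 5 * r ∧ d < 5 :=
      ⟨((N + a - 7) / 5).toNat, ((N + a - 7) % 5).toNat, by omega, by omega⟩
    have h4 := all_range (all_range hB (x := x) hx) (x := d) hd
    have h5 := ((schk_sound (by omega) h4).rights r).diags (by omega) q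
    have h6 := h5.toU
    rwa [show (x : ℤ) - 8 - 5 * (q : ℤ) = a by omega,
      show ((23 - x + d : ℕ) : ℤ) - 8 + 5 * (r : ℤ) + 5 * (q : ℤ) = N by omega] at h6

/-- windows `[a, N]` with `a + N = 6` -/
theorem U_six {m : ℕ} (hm : m < 128) {a N : ℤ} (haN : a ≤ N) (h6 : a + N = 6) :
    U (Wd m) a N ∨ U (Wd (rev m)) a N := by
  by_cases hp : per m = true
  · exact Or.inl (U_per hm hp haN)
  have h := all_range c3_all hm
  unfold c3 at h
  rw [Bool.or_eq_true, Bool.and_eq_true] at h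
  rcases h with h | ⟨hA, hB⟩
  · exact absurd h hp
  by_cases h3 : -3 ≤ a
  · obtain ⟨x, hx⟩ : ∃ x : ℕ, (x : ℤ) = a + 3 := ⟨(a + 3).toNat, by omega⟩
    have h4 := all_range hA (x := x) (by omega)
    rw [Bool.or_eq_true] at h4
    rcases h4 with h4 | h4
    · left
      have h5 := uchk_sound (by omega) h4
      rwa [show ((5 + x : ℕ) : ℤ) - 8 = a by push_cast; omega,
        show ((17 - x : ℕ) : ℤ) - 8 = N by omega] at h5
    · right
      have h5 := uchk_sound (by omega) h4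
      rwa [show ((5 + x : ℕ) : ℤ) - 8 = a by push_cast; omega,
        show ((17 - x : ℕ) : ℤ) - 8 = N by omega] at h5
  · obtain ⟨q, x, hq, hx⟩ : ∃ q x : ℕ, a = (x : ℤ) - 8 - 5 * q ∧ x < 5 :=
      ⟨((-4 - a) / 5).toNat, (4 - ((-4 - a) % 5)).toNat, by omega, by omega⟩
    have h4 := all_range hB (x := x) hx
    rw [Bool.or_eq_true, Bool.or_eq_true] at h4
    rcases h4 with h4 | h4 | h4
    · left
      have h5 := ((schk_sound (by omega) h4).diags (by omega) q).toU
      rwa [show (x : ℤ) - 8 - 5 * (q : ℤ) = a by omega,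
        show ((22 - x : ℕ) : ℤ) - 8 + 5 * (q : ℤ) = N by omega] at h5
    · right
      have h5 := ((schk_sound (by omega) h4).diags (by omega) q).toU
      rwa [show (x : ℤ) - 8 - 5 * (q : ℤ) = a by omega,
        show ((22 - x : ℕ) : ℤ) - 8 + 5 * (q : ℤ) = N by omega] at h5
    · left
      have h5 : G (Wd m) ((x : ℤ) - 8) (((22 - x : ℕ) : ℤ) - 8) :=
        fun i hi1 hi2 => pal_sound (by omega) h4 i hi1 hi2
      have h6 := (h5.diags (by omega) (by omega) (fun i hi => Wd_right m hi)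
        (fun i hi => Wd_left m hi) q).toU (by omega)
      rwa [show (x : ℤ) - 8 - 5 * (q : ℤ) = a by omega,
        show ((22 - x : ℕ) : ℤ) - 8 + 5 * (q : ℤ) = N by omega] at h6

theorem R_rev {m : ℕ} {a N : ℤ} (h : R (Wd (rev m)) (6 - N) (6 - a)) : R (Wd m) a N := by
  have h1 := R_reverse (V := Wd m) (W := Wd (rev m)) (c := 6) (fun i => by
    rw [Wd_rev]; congr 1; ring) h
  rwa [show (6 : ℤ) - (6 - a) = a by ring, show (6 : ℤ) - (6 - N) = N by ring] at h1

/-- all windows are rich -/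
theorem rich_all (n : ℕ) : ∀ m < 128, ∀ a N : ℤ, N + 1 - a ≤ n → R (Wd m) a N := by
  induction n with
  | zero =>
    intro m _ a N h
    exact R_empty _ (by push_cast at h; omega)
  | succ n ih =>
    intro m hm a N h
    push_cast at h
    by_cases haN : N < a
    · exact R_empty _ haN
    · by_cases h7 : 7 ≤ a + N
      · exact R_step (ih m hm a (N - 1) (by omega)) (U_seven hm (by omega) h7)
      · by_cases h6 : a + N = 6
        · rcases U_six hm (by omega) h6 with hU | hU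
          · exact R_step (ih m hm a (N - 1) (by omega)) hU
          · apply R_rev
            rw [show 6 - N = a by omega, show 6 - a = N by omega]
            exact R_step (ih _ (rev_lt m) a (N - 1) (by omega)) hU
        · apply R_rev
          exact R_step (ih _ (rev_lt m) _ _ (by omega))
            (U_seven (rev_lt m) (by omega) (by omega))

theorem exists_bits (w : ℕ → Bool) : ∃ m < 128, ∀ k < 7, m.testBit k = w k :=
  ⟨mk w 7, mk_lt w 7, fun _ hk => testBit_mk w hk⟩

/-- all factors of `w ∘ rho` are rich -/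
theorem rich_word (w : ℕ → Bool) (a : ℤ) (n : ℕ) : IsRich (win (fun i => w (rho i)) a n) := by
  obtain ⟨m, hm, hb⟩ := exists_bits w
  have h := rich_all n m hm a (a + n - 1) (by omega)
  unfold R at h
  rw [show (a + (n : ℤ) - 1 + 1 - a).toNat = n by omega] at h
  rw [win_congr (V := fun i => w (rho i)) (W := Wd m) (b := a)]
  · exact h
  · intro k _
    exact (hb _ (rho_lt _)).symm

end Q166.Rich
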