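import Mathlib

set_option autoImplicit false

namespace Pool.Agent.Q166.Sep

/-- The words `s` and `t` are order isomorphic. -/
def OrdIso (s t : List ℕ) : Prop :=
  s.length = t.length ∧ ∀ i j, i < s.length → j < s.length →
    (s.getD i 0 < s.getD j 0 ↔ t.getD i 0 < t.getD j 0)

/-- The word `w` contains the pattern `p`. -/
def Contains (w p : List ℕ) : Prop := ∃ s, s.Sublist w ∧ OrdIso s p

/-- `w` is a permutation of `0, …, n - 1` in one-line notation, `n` the length of `w`. -/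
def IsPerm (w : List ℕ) : Prop := w.Perm (List.range w.length)

lemma OrdIso.refl (s : List ℕ) : OrdIso s s := ⟨rfl, fun _ _ _ _ => Iff.rfl⟩

lemma OrdIso.symm {s t : List ℕ} (h : OrdIso s t) : OrdIso t s :=
  ⟨h.1.symm, fun i j hi hj => (h.2 i j (h.1 ▸ hi) (h.1 ▸ hj)).symm⟩

lemma OrdIso.trans {s t u : List ℕ} (h : OrdIso s t) (h' : OrdIso t u) : OrdIso s u :=
  ⟨h.1.trans h'.1, fun i j hi hj => (h.2 i j hi hj).trans (h'.2 i j (h.1 ▸ hi) (h.1 ▸ hj))⟩

lemma Contains.iso {w p q : List ℕ} (h : OrdIso p q) : Contains w p ↔ Contains w q :=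
  ⟨fun ⟨s, h1, h2⟩ => ⟨s, h1, h2.trans h⟩, fun ⟨s, h1, h2⟩ => ⟨s, h1, h2.trans h.symm⟩⟩

lemma Contains.mono {w w' p : List ℕ} (h : w.Sublist w') (hc : Contains w p) : Contains w' p := by
  obtain ⟨s, h1, h2⟩ := hc
  exact ⟨s, h1.trans h, h2⟩

lemma getD_of_mem_take {t : List ℕ} {k a : ℕ} (h : a ∈ t.take k) :
    ∃ i, i < k ∧ i < t.length ∧ t.getD i 0 = a := by
  obtain ⟨i, hi, he⟩ := List.mem_iff_getElem.1 h
  rw [List.length_take] at hi
  rw [List.getElem_take] at he
  refine ⟨i, by omega, by omega, ?_⟩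
  rw [List.getD_eq_getElem _ _ (by omega)]
  exact he

lemma getD_of_mem_drop {t : List ℕ} {k b : ℕ} (h : b ∈ t.drop k) :
    ∃ j, k ≤ j ∧ j < t.length ∧ t.getD j 0 = b := by
  obtain ⟨i, hi, he⟩ := List.mem_iff_getElem.1 h
  rw [List.length_drop] at hi
  rw [List.getElem_drop] at he
  refine ⟨k + i, by omega, by omega, ?_⟩
  rw [List.getD_eq_getElem _ _ (by omega)]
  exact he

lemma getD_mem {t : List ℕ} {i : ℕ} (h : i < t.length) : t.getD i 0 ∈ t := by
  rw [List.getD_eq_getElem _ _ h]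
  exact List.getElem_mem h

lemma getD_app_left {s t : List ℕ} {i : ℕ} (h : i < s.length) : (s ++ t).getD i 0 = s.getD i 0 :=
  List.getD_append _ _ _ _ h

lemma getD_app_right {s t : List ℕ} {i : ℕ} (h : s.length ≤ i) :
    (s ++ t).getD i 0 = t.getD (i - s.length) 0 :=
  List.getD_append_right _ _ _ _ h

lemma OrdIso.append_lt {s1 s2 t1 t2 : List ℕ} (h1 : OrdIso s1 t1) (h2 : OrdIso s2 t2)
    (hs : ∀ a ∈ s1, ∀ b ∈ s2, a < b) (ht : ∀ a ∈ t1, ∀ b ∈ t2, a < b) :
    OrdIso (s1 ++ s2) (t1 ++ t2) := by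
  have hl1 := h1.1
  have hl2 := h2.1
  refine ⟨by simp [hl1, hl2], ?_⟩
  intro i j hi hj
  rw [List.length_append] at hi hj
  rcases Nat.lt_or_ge i s1.length with hi1 | hi1 <;> rcases Nat.lt_or_ge j s1.length with hj1 | hj1
  · rw [getD_app_left hi1, getD_app_left hj1, getD_app_left (hl1 ▸ hi1), getD_app_left (hl1 ▸ hj1)]
    exact h1.2 i j hi1 hj1
  · rw [getD_app_left hi1, getD_app_right hj1, getD_app_left (hl1 ▸ hi1),
      getD_app_right (hl1 ▸ hj1)]
    refine iff_of_true (hs _ (getD_mem hi1) _ (getD_mem (by omega)))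
      (ht _ (getD_mem (by omega)) _ (getD_mem (by omega)))
  · rw [getD_app_right hi1, getD_app_left hj1, getD_app_right (hl1 ▸ hi1),
      getD_app_left (hl1 ▸ hj1)]
    have e1 := hs _ (getD_mem hj1) _ (getD_mem (t := s2) (i := i - s1.length) (by omega))
    have e2 := ht _ (getD_mem (t := t1) (i := j) (by omega)) _
      (getD_mem (t := t2) (i := i - t1.length) (by omega))
    exact iff_of_false (by omega) (by omega)
  · rw [getD_app_right hi1, getD_app_right hj1, getD_app_right (hl1 ▸ hi1),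
      getD_app_right (hl1 ▸ hj1), ← hl1]
    exact h2.2 _ _ (by omega) (by omega)

lemma OrdIso.append_gt {s1 s2 t1 t2 : List ℕ} (h1 : OrdIso s1 t1) (h2 : OrdIso s2 t2)
    (hs : ∀ a ∈ s1, ∀ b ∈ s2, b < a) (ht : ∀ a ∈ t1, ∀ b ∈ t2, b < a) :
    OrdIso (s1 ++ s2) (t1 ++ t2) := by
  have hl1 := h1.1
  have hl2 := h2.1
  refine ⟨by simp [hl1, hl2], ?_⟩
  intro i j hi hj
  rw [List.length_append] at hi hj
  rcases Nat.lt_or_ge i s1.length with hi1 | hi1 <;> rcases Nat.lt_or_ge j s1.length with hj1 | hj1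
  · rw [getD_app_left hi1, getD_app_left hj1, getD_app_left (hl1 ▸ hi1), getD_app_left (hl1 ▸ hj1)]
    exact h1.2 i j hi1 hj1
  · rw [getD_app_left hi1, getD_app_right hj1, getD_app_left (hl1 ▸ hi1),
      getD_app_right (hl1 ▸ hj1)]
    have e1 := hs _ (getD_mem hi1) _ (getD_mem (t := s2) (i := j - s1.length) (by omega))
    have e2 := ht _ (getD_mem (t := t1) (i := i) (by omega)) _
      (getD_mem (t := t2) (i := j - t1.length) (by omega))
    exact iff_of_false (by omega) (by omega)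
  · rw [getD_app_right hi1, getD_app_left hj1, getD_app_right (hl1 ▸ hi1),
      getD_app_left (hl1 ▸ hj1)]
    refine iff_of_true (hs _ (getD_mem hj1) _ (getD_mem (by omega)))
      (ht _ (getD_mem (by omega)) _ (getD_mem (by omega)))
  · rw [getD_app_right hi1, getD_app_right hj1, getD_app_right (hl1 ▸ hi1),
      getD_app_right (hl1 ▸ hj1), ← hl1]
    exact h2.2 _ _ (by omega) (by omega)

lemma getD_take {t : List ℕ} {k i : ℕ} (h : i < k) (h' : i < t.length) :
    (t.take k).getD i 0 = t.getD i 0 := by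
  rw [List.getD_eq_getElem _ _ h', List.getD_eq_getElem _ _ (by rw [List.length_take]; omega),
    List.getElem_take]

lemma getD_drop {t : List ℕ} {k i : ℕ} (h : k + i < t.length) :
    (t.drop k).getD i 0 = t.getD (k + i) 0 := by
  rw [List.getD_eq_getElem _ _ h, List.getD_eq_getElem _ _ (by rw [List.length_drop]; omega),
    List.getElem_drop]

lemma OrdIso.split {s1 s2 t : List ℕ} (h : OrdIso (s1 ++ s2) t) :
    OrdIso s1 (t.take s1.length) ∧ OrdIso s2 (t.drop s1.length) := by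
  have hl := h.1
  rw [List.length_append] at hl
  have key : ∀ i j, i < s1.length + s2.length → j < s1.length + s2.length →
      ((s1 ++ s2).getD i 0 < (s1 ++ s2).getD j 0 ↔ t.getD i 0 < t.getD j 0) :=
    fun i j hi hj => h.2 i j (by rwa [List.length_append]) (by rwa [List.length_append])
  constructor
  · refine ⟨by rw [List.length_take]; omega, ?_⟩
    intro i j hi hj
    have := key i j (by omega) (by omega)
    rw [getD_app_left hi, getD_app_left hj] at this
    rw [this, getD_take hi (by omega), getD_take hj (by omega)]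
  · refine ⟨by rw [List.length_drop]; omega, ?_⟩
    intro i j hi hj
    have := key (s1.length + i) (s1.length + j) (by omega) (by omega)
    rw [getD_app_right (by omega), getD_app_right (by omega), Nat.add_sub_cancel_left,
      Nat.add_sub_cancel_left] at this
    rw [this, getD_drop (by omega), getD_drop (by omega)]

lemma OrdIso.split_lt {s1 s2 t : List ℕ} (h : OrdIso (s1 ++ s2) t)
    (hs : ∀ a ∈ s1, ∀ b ∈ s2, a < b) :
    ∀ a ∈ t.take s1.length, ∀ b ∈ t.drop s1.length, a < b := by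
  intro a ha b hb
  have hl := h.1
  rw [List.length_append] at hl
  obtain ⟨i, hi, hi', rfl⟩ := getD_of_mem_take ha
  obtain ⟨j, hj, hj', rfl⟩ := getD_of_mem_drop hb
  rw [← h.2 i j (by rw [List.length_append]; omega) (by rw [List.length_append]; omega),
    getD_app_left hi, getD_app_right hj]
  exact hs _ (getD_mem hi) _ (getD_mem (by omega))

lemma OrdIso.split_gt {s1 s2 t : List ℕ} (h : OrdIso (s1 ++ s2) t)
    (hs : ∀ a ∈ s1, ∀ b ∈ s2, b < a) :
    ∀ a ∈ t.take s1.length, ∀ b ∈ t.drop s1.length, b < a := by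
  intro a ha b hb
  have hl := h.1
  rw [List.length_append] at hl
  obtain ⟨i, hi, hi', rfl⟩ := getD_of_mem_take ha
  obtain ⟨j, hj, hj', rfl⟩ := getD_of_mem_drop hb
  rw [← h.2 j i (by rw [List.length_append]; omega) (by rw [List.length_append]; omega),
    getD_app_left hi, getD_app_right hj]
  exact hs _ (getD_mem hi) _ (getD_mem (by omega))

lemma contains_append_lt {u v : List ℕ} (h : ∀ a ∈ u, ∀ b ∈ v, a < b) (p : List ℕ) :
    Contains (u ++ v) p ↔ ∃ k, k ≤ p.length ∧ (∀ a ∈ p.take k, ∀ b ∈ p.drop k, a < b) ∧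
      Contains u (p.take k) ∧ Contains v (p.drop k) := by
  constructor
  · rintro ⟨s, h1, h2⟩
    obtain ⟨s1, s2, rfl, hs1, hs2⟩ := List.sublist_append_iff.1 h1
    have hlt : ∀ a ∈ s1, ∀ b ∈ s2, a < b := fun a ha b hb => h a (hs1.subset ha) b (hs2.subset hb)
    refine ⟨s1.length, ?_, h2.split_lt hlt, ⟨s1, hs1, h2.split.1⟩, ⟨s2, hs2, h2.split.2⟩⟩
    rw [← h2.1, List.length_append]
    omega
  · rintro ⟨k, -, hk, ⟨s1, hs1, ho1⟩, ⟨s2, hs2, ho2⟩⟩
    refine ⟨s1 ++ s2, hs1.append hs2, ?_⟩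
    have := ho1.append_lt ho2 (fun a ha b hb => h a (hs1.subset ha) b (hs2.subset hb)) hk
    rwa [List.take_append_drop] at this

lemma contains_append_gt {u v : List ℕ} (h : ∀ a ∈ u, ∀ b ∈ v, b < a) (p : List ℕ) :
    Contains (u ++ v) p ↔ ∃ k, k ≤ p.length ∧ (∀ a ∈ p.take k, ∀ b ∈ p.drop k, b < a) ∧
      Contains u (p.take k) ∧ Contains v (p.drop k) := by
  constructor
  · rintro ⟨s, h1, h2⟩
    obtain ⟨s1, s2, rfl, hs1, hs2⟩ := List.sublist_append_iff.1 h1
    have hlt : ∀ a ∈ s1, ∀ b ∈ s2, b < a := fun a ha b hb => h a (hs1.subset ha) b (hs2.subset hb)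
    refine ⟨s1.length, ?_, h2.split_gt hlt, ⟨s1, hs1, h2.split.1⟩, ⟨s2, hs2, h2.split.2⟩⟩
    rw [← h2.1, List.length_append]
    omega
  · rintro ⟨k, -, hk, ⟨s1, hs1, ho1⟩, ⟨s2, hs2, ho2⟩⟩
    refine ⟨s1 ++ s2, hs1.append hs2, ?_⟩
    have := ho1.append_gt ho2 (fun a ha b hb => h a (hs1.subset ha) b (hs2.subset hb)) hk
    rwa [List.take_append_drop] at this

lemma contains_nil (w : List ℕ) : Contains w [] := ⟨[], List.nil_sublist _, OrdIso.refl _⟩

lemma contains_one {w : List ℕ} (a : ℕ) : Contains w [a] ↔ w ≠ [] := by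
  constructor
  · rintro ⟨s, h1, h2⟩ rfl
    rw [List.sublist_nil] at h1
    subst h1
    exact absurd h2.1 (by simp)
  · intro h
    obtain ⟨b, t, rfl⟩ := List.exists_cons_of_ne_nil h
    refine ⟨[b], by simp, by simp, ?_⟩
    intro i j hi hj
    simp only [List.length_singleton, Nat.lt_one_iff] at hi hj
    subst hi
    subst hj
    simp

lemma OrdIso.map_add (s : List ℕ) (k : ℕ) : OrdIso (s.map (· + k)) s := by
  refine ⟨by simp, ?_⟩
  intro i j hi hj
  rw [List.length_map] at hi hj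
  rw [List.getD_eq_getElem _ _ (by rwa [List.length_map]),
    List.getD_eq_getElem _ _ (by rwa [List.length_map]), List.getD_eq_getElem _ _ hi,
    List.getD_eq_getElem _ _ hj, List.getElem_map, List.getElem_map]
  omega

lemma OrdIso.sublist {u v t : List ℕ} (h : OrdIso u v) (ht : t.Sublist v) :
    ∃ s, s.Sublist u ∧ OrdIso s t := by
  obtain ⟨f, hf⟩ := List.sublist_iff_exists_fin_orderEmbedding_get_eq.1 ht
  have hl := h.1
  refine ⟨List.ofFn (fun i : Fin t.length => u.get ((f i).cast hl.symm)), ?_, ?_⟩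
  · rw [List.sublist_iff_exists_fin_orderEmbedding_get_eq]
    refine ⟨OrderEmbedding.ofStrictMono (fun i => (f (i.cast (by simp))).cast hl.symm) ?_, ?_⟩
    · intro i j hij
      have : (i.cast (by simp) : Fin t.length) < j.cast (by simp) := hij
      have h2 := f.strictMono this
      exact h2
    · intro i
      simp
      rfl
  · refine ⟨by simp, ?_⟩
    intro i j hi hj
    rw [List.length_ofFn] at hi hj
    have e1 := h.2 (f ⟨i, hi⟩) (f ⟨j, hj⟩) (by have := (f ⟨i, hi⟩).2; omega)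
      (by have := (f ⟨j, hj⟩).2; omega)
    have g1 := hf ⟨i, hi⟩
    have g2 := hf ⟨j, hj⟩
    rw [List.getD_eq_getElem _ _ (by rwa [List.length_ofFn]),
      List.getD_eq_getElem _ _ (by rwa [List.length_ofFn]), List.getD_eq_getElem _ _ hi,
      List.getD_eq_getElem _ _ hj, List.getElem_ofFn, List.getElem_ofFn]
    rw [List.getD_eq_getElem _ _ (by have := (f ⟨i, hi⟩).2; omega),
      List.getD_eq_getElem _ _ (by have := (f ⟨j, hj⟩).2; omega),
      List.getD_eq_getElem _ _ (f ⟨i, hi⟩).2, List.getD_eq_getElem _ _ (f ⟨j, hj⟩).2] at e1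
    simp only [List.get_eq_getElem] at g1 g2 ⊢
    rw [g1, g2]
    exact e1

lemma Contains.trans {u v p : List ℕ} (h : Contains u v) (h' : Contains v p) : Contains u p := by
  obtain ⟨s, h1, h2⟩ := h
  obtain ⟨t, h3, h4⟩ := h'
  obtain ⟨s', h5, h6⟩ := h2.sublist h3
  exact ⟨s', h5.trans h1, h6.trans h4⟩

lemma contains_map_add (w p : List ℕ) (k : ℕ) : Contains (w.map (· + k)) p ↔ Contains w p := by
  constructor
  · intro h
    exact Contains.trans ⟨_, List.Sublist.refl _, (OrdIso.map_add w k).symm⟩ h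
  · intro h
    exact Contains.trans ⟨_, List.Sublist.refl _, OrdIso.map_add w k⟩ h

end Pool.Agent.Q166.Sep
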