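import Mathlib
import Pool.Agent.Q166.SepA

set_option autoImplicit false

namespace Pool.Agent.Q166.Sep

/-- direct sum of words -/
def dsum (u v : List ℕ) : List ℕ := u ++ v.map (· + u.length)

/-- skew sum of words -/
def ssum (u v : List ℕ) : List ℕ := u.map (· + v.length) ++ v

def SumDec (w : List ℕ) : Prop :=
  ∃ u v, u ≠ [] ∧ v ≠ [] ∧ w = u ++ v ∧ ∀ a ∈ u, ∀ b ∈ v, a < b

def SkewDec (w : List ℕ) : Prop :=
  ∃ u v, u ≠ [] ∧ v ≠ [] ∧ w = u ++ v ∧ ∀ a ∈ u, ∀ b ∈ v, b < a

lemma IsPerm.nodup {w : List ℕ} (h : IsPerm w) : w.Nodup :=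
  (List.Perm.nodup_iff h).2 List.nodup_range

lemma IsPerm.mem_iff {w : List ℕ} (h : IsPerm w) (x : ℕ) : x ∈ w ↔ x < w.length := by
  rw [List.Perm.mem_iff h, List.mem_range]

lemma isPerm_iff {w : List ℕ} : IsPerm w ↔ w.Nodup ∧ ∀ x ∈ w, x < w.length := by
  constructor
  · intro h
    exact ⟨h.nodup, fun x hx => (h.mem_iff x).1 hx⟩
  · rintro ⟨h1, h2⟩
    unfold IsPerm
    refine (List.subperm_of_subset h1 ?_).perm_of_length_le ?_
    · intro x hx
      rw [List.mem_range]
      exact h2 x hx
    · simp

lemma isPerm_nil : IsPerm [] := List.Perm.refl _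

lemma isPerm_zero : IsPerm [0] := List.Perm.refl _

lemma dsum_length (u v : List ℕ) : (dsum u v).length = u.length + v.length := by
  simp [dsum]

lemma ssum_length (u v : List ℕ) : (ssum u v).length = u.length + v.length := by
  simp [ssum]

lemma dsum_lt {u v : List ℕ} (hu : IsPerm u) :
    ∀ a ∈ u, ∀ b ∈ v.map (· + u.length), a < b := by
  intro a ha b hb
  rw [List.mem_map] at hb
  obtain ⟨c, -, rfl⟩ := hb
  have := (hu.mem_iff a).1 ha
  omega

lemma ssum_gt {u v : List ℕ} (hv : IsPerm v) :
    ∀ a ∈ u.map (· + v.length), ∀ b ∈ v, b < a := by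
  intro a ha b hb
  rw [List.mem_map] at ha
  obtain ⟨c, -, rfl⟩ := ha
  have := (hv.mem_iff b).1 hb
  omega

lemma IsPerm.dsum {u v : List ℕ} (hu : IsPerm u) (hv : IsPerm v) : IsPerm (dsum u v) := by
  rw [isPerm_iff]
  constructor
  · unfold Sep.dsum
    rw [List.nodup_append]
    refine ⟨hu.nodup, hv.nodup.map (add_left_injective _), ?_⟩
    intro a ha b hb
    exact (dsum_lt hu a ha b hb).ne
  · intro x hx
    rw [dsum_length]
    unfold Sep.dsum at hx
    rw [List.mem_append, List.mem_map] at hx
    rcases hx with hx | ⟨c, hc, rfl⟩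
    · have := (hu.mem_iff x).1 hx
      omega
    · have := (hv.mem_iff c).1 hc
      omega

lemma IsPerm.ssum {u v : List ℕ} (hu : IsPerm u) (hv : IsPerm v) : IsPerm (ssum u v) := by
  rw [isPerm_iff]
  constructor
  · unfold Sep.ssum
    rw [List.nodup_append]
    refine ⟨hu.nodup.map (add_left_injective _), hv.nodup, ?_⟩
    intro a ha b hb
    exact (ssum_gt hv a ha b hb).ne'
  · intro x hx
    rw [ssum_length]
    unfold Sep.ssum at hx
    rw [List.mem_append, List.mem_map] at hx
    rcases hx with ⟨c, hc, rfl⟩ | hx
    · have := (hu.mem_iff c).1 hc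
      omega
    · have := (hv.mem_iff x).1 hx
      omega

/-- the values of a lower prefix -/
lemma prefix_lt {u v : List ℕ} (h : IsPerm (u ++ v)) (hlt : ∀ a ∈ u, ∀ b ∈ v, a < b) :
    IsPerm u ∧ ∃ v', IsPerm v' ∧ v = v'.map (· + u.length) := by
  have hnd := h.nodup
  rw [List.nodup_append] at hnd
  obtain ⟨hu, hv, hd⟩ := hnd
  have hlen : (u ++ v).length = u.length + v.length := List.length_append
  -- the elements of u are exactly those below |u|
  have hsub : ∀ x ∈ u, x < u.length := by
    intro x hx
    have h1 : Finset.range (x + 1) ⊆ u.toFinset := by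
      intro y hy
      rw [Finset.mem_range] at hy
      rw [List.mem_toFinset]
      have hxl := (h.mem_iff x).1 (List.mem_append_left _ hx)
      have hy' : y ∈ u ++ v := (h.mem_iff y).2 (by omega)
      rcases List.mem_append.1 hy' with h2 | h2
      · exact h2
      · have := hlt x hx y h2
        omega
    have h2 := Finset.card_le_card h1
    rw [Finset.card_range, List.toFinset_card_of_nodup hu] at h2
    omega
  have hup : IsPerm u := isPerm_iff.2 ⟨hu, hsub⟩
  refine ⟨hup, v.map (· - u.length), ?_, ?_⟩
  · have hge : ∀ x ∈ v, u.length ≤ x := by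
      intro x hx
      by_contra hcon
      have : x ∈ u := (hup.mem_iff x).2 (by omega)
      exact hd x this x hx rfl
    rw [isPerm_iff]
    constructor
    · refine List.Nodup.map_on ?_ hv
      intro x hx y hy hxy
      have := hge x hx
      have := hge y hy
      omega
    · intro x hx
      rw [List.mem_map] at hx
      obtain ⟨y, hy, rfl⟩ := hx
      rw [List.length_map]
      have h1 := hge y hy
      have h2 := (h.mem_iff y).1 (List.mem_append_right _ hy)
      rw [hlen] at h2
      omega
  · rw [List.map_map]
    have hge : ∀ x ∈ v, u.length ≤ x := by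
      intro x hx
      by_contra hcon
      have : x ∈ u := (hup.mem_iff x).2 (by omega)
      exact hd x this x hx rfl
    symm
    conv_rhs => rw [← List.map_id v]
    refine List.map_congr_left ?_
    intro x hx
    have := hge x hx
    simp only [Function.comp, id]
    omega

lemma prefix_gt {u v : List ℕ} (h : IsPerm (u ++ v)) (hlt : ∀ a ∈ u, ∀ b ∈ v, b < a) :
    IsPerm v ∧ ∃ u', IsPerm u' ∧ u = u'.map (· + v.length) := by
  have h1 : IsPerm (v ++ u) := by
    unfold IsPerm at h ⊢
    have e : (v ++ u).length = (u ++ v).length := by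
      rw [List.length_append, List.length_append, Nat.add_comm]
    rw [e]
    exact List.perm_append_comm.trans h
  obtain ⟨h2, u', h3, h4⟩ := prefix_lt h1 (fun a ha b hb => hlt b hb a ha)
  exact ⟨h2, u', h3, h4⟩

lemma sumDec_iff {w : List ℕ} (hw : IsPerm w) :
    SumDec w ↔ ∃ u v, IsPerm u ∧ IsPerm v ∧ u ≠ [] ∧ v ≠ [] ∧ ¬ SumDec u ∧ w = dsum u v := by
  constructor
  · intro h
    -- choose the shortest prefix
    have hex : ∃ n, ∃ u v : List ℕ, u.length = n ∧ u ≠ [] ∧ v ≠ [] ∧ w = u ++ v ∧
        ∀ a ∈ u, ∀ b ∈ v, a < b := by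
      obtain ⟨u, v, h1⟩ := h
      exact ⟨u.length, u, v, rfl, h1⟩
    classical
    obtain ⟨u, v, hn, hu, hv, he, hlt⟩ := Nat.find_spec hex
    have hmin := fun m hm => Nat.find_min hex (m := m) hm
    have hw' : IsPerm (u ++ v) := he ▸ hw
    obtain ⟨hup, v', hvp, hve⟩ := prefix_lt hw' hlt
    refine ⟨u, v', hup, hvp, hu, ?_, ?_, ?_⟩
    · rintro rfl
      exact hv (by simpa using hve)
    · rintro ⟨a, b, ha, hb, hab, hl⟩
      refine hmin a.length ?_ ⟨a, b ++ v, rfl, ha, by simp [hb], ?_, ?_⟩
      · rw [← hn, hab, List.length_append]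
        have : 0 < b.length := List.length_pos_iff.2 hb
        omega
      · rw [he, hab, List.append_assoc]
      · intro x hx y hy
        rcases List.mem_append.1 hy with h2 | h2
        · exact hl x hx y h2
        · exact hlt x (by rw [hab]; exact List.mem_append_left _ hx) y h2
    · rw [he, hve, dsum]
  · rintro ⟨u, v, hu, hv, hu0, hv0, -, rfl⟩
    exact ⟨u, v.map (· + u.length), hu0, by simpa using hv0, rfl, dsum_lt hu⟩

lemma skewDec_iff {w : List ℕ} (hw : IsPerm w) :
    SkewDec w ↔ ∃ u v, IsPerm u ∧ IsPerm v ∧ u ≠ [] ∧ v ≠ [] ∧ ¬ SkewDec u ∧ w = ssum u v := by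
  constructor
  · intro h
    have hex : ∃ n, ∃ u v : List ℕ, u.length = n ∧ u ≠ [] ∧ v ≠ [] ∧ w = u ++ v ∧
        ∀ a ∈ u, ∀ b ∈ v, b < a := by
      obtain ⟨u, v, h1⟩ := h
      exact ⟨u.length, u, v, rfl, h1⟩
    classical
    obtain ⟨u, v, hn, hu, hv, he, hlt⟩ := Nat.find_spec hex
    have hmin := fun m hm => Nat.find_min hex (m := m) hm
    have hw' : IsPerm (u ++ v) := he ▸ hw
    obtain ⟨hvp, u', hup, hue⟩ := prefix_gt hw' hlt
    refine ⟨u', v, hup, hvp, ?_, hv, ?_, ?_⟩
    · rintro rfl
      exact hu (by simpa using hue)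
    · rintro ⟨a, b, ha, hb, hab, hl⟩
      refine hmin a.length ?_ ⟨a.map (· + v.length), b.map (· + v.length) ++ v, by simp,
        by simpa using ha, by simp [hb], ?_, ?_⟩
      · rw [← hn, hue, hab, List.length_map, List.length_append]
        have : 0 < b.length := List.length_pos_iff.2 hb
        omega
      · rw [he, hue, hab, List.map_append, List.append_assoc]
      · intro x hx y hy
        rcases List.mem_append.1 hy with h2 | h2
        · rw [List.mem_map] at hx h2
          obtain ⟨x', hx', rfl⟩ := hx
          obtain ⟨y', hy', rfl⟩ := h2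
          have := hl x' hx' y' hy'
          omega
        · refine hlt x ?_ y h2
          rw [hue, hab, List.map_append]
          exact List.mem_append_left _ hx
    · rw [he, hue, ssum]
  · rintro ⟨u, v, hu, hv, hu0, hv0, -, rfl⟩
    exact ⟨u.map (· + v.length), v, by simpa using hu0, hv0, rfl, ssum_gt hv⟩

lemma skewDec_map {w : List ℕ} (k : ℕ) (h : SkewDec (w.map (· + k))) : SkewDec w := by
  obtain ⟨u, v, hu, hv, he, hl⟩ := h
  obtain ⟨u', v', rfl, rfl, rfl⟩ := List.map_eq_append_iff.1 he
  refine ⟨u', v', by simpa using hu, by simpa using hv, rfl, ?_⟩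
  intro a ha b hb
  have := hl (a + k) (List.mem_map_of_mem ha) (b + k) (List.mem_map_of_mem hb)
  omega

lemma dsum_inj {u v u' v' : List ℕ} (hu : IsPerm u) (hu' : IsPerm u')
    (hu0 : u ≠ []) (hu0' : u' ≠ []) (hd : ¬ SumDec u) (hd' : ¬ SumDec u')
    (h : dsum u v = dsum u' v') : u = u' ∧ v = v' := by
  have key : ∀ {u v u' v' : List ℕ}, IsPerm u → u ≠ [] → ¬ SumDec u' →
      dsum u v = dsum u' v' → u.length < u'.length → False := by
    intro u v u' v' hu hu0 hd' h hl
    unfold dsum at h
    have h1 : u' = u ++ (u'.drop u.length) := by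
      have h2 : u = u'.take u.length := by
        have := congrArg (List.take u.length) h
        rw [List.take_left', List.take_append_of_le_length hl.le] at this
        · exact this
        · rfl
      conv_lhs => rw [← List.take_append_drop u.length u', ← h2]
    refine hd' ⟨u, u'.drop u.length, hu0, ?_, h1, ?_⟩
    · intro h2
      have := congrArg List.length h2
      rw [List.length_drop] at this
      simp at this
      omega
    · intro a ha b hb
      have h3 : v.map (· + u.length) = u'.drop u.length ++ v'.map (· + u'.length) := by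
        have := congrArg (List.drop u.length) h
        rw [List.drop_left', List.drop_append_of_le_length hl.le] at this
        · exact this
        · rfl
      exact dsum_lt (v := v) hu a ha b (by rw [h3]; exact List.mem_append_left _ hb)
  rcases lt_trichotomy u.length u'.length with hl | hl | hl
  · exact (key hu hu0 hd' h hl).elim
  · unfold dsum at h
    obtain ⟨h1, h2⟩ := List.append_inj h hl
    refine ⟨h1, ?_⟩
    rw [hl] at h2
    exact List.map_injective_iff.2 (add_left_injective _) h2
  · exact (key hu' hu0' hd h.symm hl).elim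

lemma ssum_inj {u v u' v' : List ℕ} (hv : IsPerm v) (hv' : IsPerm v')
    (hu0 : u ≠ []) (hu0' : u' ≠ []) (hd : ¬ SkewDec u) (hd' : ¬ SkewDec u')
    (h : ssum u v = ssum u' v') : u = u' ∧ v = v' := by
  have key : ∀ {u v u' v' : List ℕ}, IsPerm v → u ≠ [] → ¬ SkewDec u' →
      ssum u v = ssum u' v' → u.length < u'.length → False := by
    intro u v u' v' hv hu0 hd' h hl
    unfold ssum at h
    have hl1 : (u.map (· + v.length)).length ≤ (u'.map (· + v'.length)).length := by
      rw [List.length_map, List.length_map]
      exact hl.le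
    have h1 : u'.map (· + v'.length) =
        u.map (· + v.length) ++ ((u'.map (· + v'.length)).drop u.length) := by
      have h2 : u.map (· + v.length) = (u'.map (· + v'.length)).take u.length := by
        have := congrArg (List.take u.length) h
        rw [List.take_left' (by simp), List.take_append_of_le_length (by simpa using hl.le)] at this
        exact this
      conv_lhs => rw [← List.take_append_drop u.length (u'.map (· + v'.length)), ← h2]
    refine hd' (skewDec_map v'.length ⟨_, _, by simpa using hu0, ?_, h1, ?_⟩)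
    · intro h2
      have := congrArg List.length h2
      rw [List.length_drop, List.length_map] at this
      simp at this
      omega
    · intro a ha b hb
      have h3 : v = (u'.map (· + v'.length)).drop u.length ++ v' := by
        have := congrArg (List.drop u.length) h
        rw [List.drop_left' (by simp), List.drop_append_of_le_length (by simpa using hl.le)] at this
        exact this
      exact ssum_gt (u := u) hv a ha b (by rw [h3]; exact List.mem_append_left _ hb)
  rcases lt_trichotomy u.length u'.length with hl | hl | hl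
  · exact (key hv hu0 hd' h hl).elim
  · unfold ssum at h
    obtain ⟨h1, h2⟩ := List.append_inj h (by simpa using hl)
    subst h2
    exact ⟨List.map_injective_iff.2 (add_left_injective _) h1, rfl⟩
  · exact (key hv' hu0' hd h.symm hl).elim

end Pool.Agent.Q166.Sep
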