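import Mathlib
import Pool.Agent.Q166.SepB

set_option autoImplicit false

namespace Pool.Agent.Q166.Sep

lemma lt_12 {u v : List ℕ} (h : ∀ a ∈ u, ∀ b ∈ v, a < b) :
    Contains (u ++ v) [1, 2] ↔
      Contains v [1, 2] ∨ (Contains u [1] ∧ Contains v [2]) ∨ Contains u [1, 2] := by
  rw [contains_append_lt h]
  constructor
  · rintro ⟨k, hk, hs, h1, h2⟩
    simp only [List.length_cons, List.length_nil] at hk
    interval_cases k
    · exact Or.inl h2
    · exact Or.inr <| Or.inl ⟨h1, h2⟩
    · exact Or.inr <| Or.inr h1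
  · rintro (h1 | ⟨h1, h2⟩ | h1)
    · exact ⟨0, by decide, by decide, contains_nil _, h1⟩
    · exact ⟨1, by decide, by decide, h1, h2⟩
    · exact ⟨2, by decide, by decide, h1, contains_nil _⟩

lemma lt_21 {u v : List ℕ} (h : ∀ a ∈ u, ∀ b ∈ v, a < b) :
    Contains (u ++ v) [2, 1] ↔
      Contains v [2, 1] ∨ Contains u [2, 1] := by
  rw [contains_append_lt h]
  constructor
  · rintro ⟨k, hk, hs, h1, h2⟩
    simp only [List.length_cons, List.length_nil] at hk
    interval_cases k
    · exact Or.inl h2
    · exact absurd hs (by decide)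
    · exact Or.inr h1
  · rintro (h1 | h1)
    · exact ⟨0, by decide, by decide, contains_nil _, h1⟩
    · exact ⟨2, by decide, by decide, h1, contains_nil _⟩

lemma lt_231 {u v : List ℕ} (h : ∀ a ∈ u, ∀ b ∈ v, a < b) :
    Contains (u ++ v) [2, 3, 1] ↔
      Contains v [2, 3, 1] ∨ Contains u [2, 3, 1] := by
  rw [contains_append_lt h]
  constructor
  · rintro ⟨k, hk, hs, h1, h2⟩
    simp only [List.length_cons, List.length_nil] at hk
    interval_cases k
    · exact Or.inl h2
    · exact absurd hs (by decide)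
    · exact absurd hs (by decide)
    · exact Or.inr h1
  · rintro (h1 | h1)
    · exact ⟨0, by decide, by decide, contains_nil _, h1⟩
    · exact ⟨3, by decide, by decide, h1, contains_nil _⟩

lemma lt_132 {u v : List ℕ} (h : ∀ a ∈ u, ∀ b ∈ v, a < b) :
    Contains (u ++ v) [1, 3, 2] ↔
      Contains v [1, 3, 2] ∨ (Contains u [1] ∧ Contains v [3, 2]) ∨ Contains u [1, 3, 2] := by
  rw [contains_append_lt h]
  constructor
  · rintro ⟨k, hk, hs, h1, h2⟩
    simp only [List.length_cons, List.length_nil] at hk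
    interval_cases k
    · exact Or.inl h2
    · exact Or.inr <| Or.inl ⟨h1, h2⟩
    · exact absurd hs (by decide)
    · exact Or.inr <| Or.inr h1
  · rintro (h1 | ⟨h1, h2⟩ | h1)
    · exact ⟨0, by decide, by decide, contains_nil _, h1⟩
    · exact ⟨1, by decide, by decide, h1, h2⟩
    · exact ⟨3, by decide, by decide, h1, contains_nil _⟩

lemma lt_2413 {u v : List ℕ} (h : ∀ a ∈ u, ∀ b ∈ v, a < b) :
    Contains (u ++ v) [2, 4, 1, 3] ↔
      Contains v [2, 4, 1, 3] ∨ Contains u [2, 4, 1, 3] := by
  rw [contains_append_lt h]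
  constructor
  · rintro ⟨k, hk, hs, h1, h2⟩
    simp only [List.length_cons, List.length_nil] at hk
    interval_cases k
    · exact Or.inl h2
    · exact absurd hs (by decide)
    · exact absurd hs (by decide)
    · exact absurd hs (by decide)
    · exact Or.inr h1
  · rintro (h1 | h1)
    · exact ⟨0, by decide, by decide, contains_nil _, h1⟩
    · exact ⟨4, by decide, by decide, h1, contains_nil _⟩

lemma lt_3142 {u v : List ℕ} (h : ∀ a ∈ u, ∀ b ∈ v, a < b) :
    Contains (u ++ v) [3, 1, 4, 2] ↔
      Contains v [3, 1, 4, 2] ∨ Contains u [3, 1, 4, 2] := by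
  rw [contains_append_lt h]
  constructor
  · rintro ⟨k, hk, hs, h1, h2⟩
    simp only [List.length_cons, List.length_nil] at hk
    interval_cases k
    · exact Or.inl h2
    · exact absurd hs (by decide)
    · exact absurd hs (by decide)
    · exact absurd hs (by decide)
    · exact Or.inr h1
  · rintro (h1 | h1)
    · exact ⟨0, by decide, by decide, contains_nil _, h1⟩
    · exact ⟨4, by decide, by decide, h1, contains_nil _⟩

lemma lt_1342 {u v : List ℕ} (h : ∀ a ∈ u, ∀ b ∈ v, a < b) :
    Contains (u ++ v) [1, 3, 4, 2] ↔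
      Contains v [1, 3, 4, 2] ∨ (Contains u [1] ∧ Contains v [3, 4, 2]) ∨ Contains u [1, 3, 4, 2] := by
  rw [contains_append_lt h]
  constructor
  · rintro ⟨k, hk, hs, h1, h2⟩
    simp only [List.length_cons, List.length_nil] at hk
    interval_cases k
    · exact Or.inl h2
    · exact Or.inr <| Or.inl ⟨h1, h2⟩
    · exact absurd hs (by decide)
    · exact absurd hs (by decide)
    · exact Or.inr <| Or.inr h1
  · rintro (h1 | ⟨h1, h2⟩ | h1)
    · exact ⟨0, by decide, by decide, contains_nil _, h1⟩
    · exact ⟨1, by decide, by decide, h1, h2⟩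
    · exact ⟨4, by decide, by decide, h1, contains_nil _⟩

lemma lt_3412 {u v : List ℕ} (h : ∀ a ∈ u, ∀ b ∈ v, a < b) :
    Contains (u ++ v) [3, 4, 1, 2] ↔
      Contains v [3, 4, 1, 2] ∨ Contains u [3, 4, 1, 2] := by
  rw [contains_append_lt h]
  constructor
  · rintro ⟨k, hk, hs, h1, h2⟩
    simp only [List.length_cons, List.length_nil] at hk
    interval_cases k
    · exact Or.inl h2
    · exact absurd hs (by decide)
    · exact absurd hs (by decide)
    · exact absurd hs (by decide)
    · exact Or.inr h1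
  · rintro (h1 | h1)
    · exact ⟨0, by decide, by decide, contains_nil _, h1⟩
    · exact ⟨4, by decide, by decide, h1, contains_nil _⟩

lemma lt_12453 {u v : List ℕ} (h : ∀ a ∈ u, ∀ b ∈ v, a < b) :
    Contains (u ++ v) [1, 2, 4, 5, 3] ↔
      Contains v [1, 2, 4, 5, 3] ∨ (Contains u [1] ∧ Contains v [2, 4, 5, 3]) ∨ (Contains u [1, 2] ∧ Contains v [4, 5, 3]) ∨ Contains u [1, 2, 4, 5, 3] := by
  rw [contains_append_lt h]
  constructor
  · rintro ⟨k, hk, hs, h1, h2⟩
    simp only [List.length_cons, List.length_nil] at hk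
    interval_cases k
    · exact Or.inl h2
    · exact Or.inr <| Or.inl ⟨h1, h2⟩
    · exact Or.inr <| Or.inr <| Or.inl ⟨h1, h2⟩
    · exact absurd hs (by decide)
    · exact absurd hs (by decide)
    · exact Or.inr <| Or.inr <| Or.inr h1
  · rintro (h1 | ⟨h1, h2⟩ | ⟨h1, h2⟩ | h1)
    · exact ⟨0, by decide, by decide, contains_nil _, h1⟩
    · exact ⟨1, by decide, by decide, h1, h2⟩
    · exact ⟨2, by decide, by decide, h1, h2⟩
    · exact ⟨5, by decide, by decide, h1, contains_nil _⟩

lemma lt_14523 {u v : List ℕ} (h : ∀ a ∈ u, ∀ b ∈ v, a < b) :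
    Contains (u ++ v) [1, 4, 5, 2, 3] ↔
      Contains v [1, 4, 5, 2, 3] ∨ (Contains u [1] ∧ Contains v [4, 5, 2, 3]) ∨ Contains u [1, 4, 5, 2, 3] := by
  rw [contains_append_lt h]
  constructor
  · rintro ⟨k, hk, hs, h1, h2⟩
    simp only [List.length_cons, List.length_nil] at hk
    interval_cases k
    · exact Or.inl h2
    · exact Or.inr <| Or.inl ⟨h1, h2⟩
    · exact absurd hs (by decide)
    · exact absurd hs (by decide)
    · exact absurd hs (by decide)
    · exact Or.inr <| Or.inr h1
  · rintro (h1 | ⟨h1, h2⟩ | h1)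
    · exact ⟨0, by decide, by decide, contains_nil _, h1⟩
    · exact ⟨1, by decide, by decide, h1, h2⟩
    · exact ⟨5, by decide, by decide, h1, contains_nil _⟩

lemma lt_35412 {u v : List ℕ} (h : ∀ a ∈ u, ∀ b ∈ v, a < b) :
    Contains (u ++ v) [3, 5, 4, 1, 2] ↔
      Contains v [3, 5, 4, 1, 2] ∨ Contains u [3, 5, 4, 1, 2] := by
  rw [contains_append_lt h]
  constructor
  · rintro ⟨k, hk, hs, h1, h2⟩
    simp only [List.length_cons, List.length_nil] at hk
    interval_cases k
    · exact Or.inl h2
    · exact absurd hs (by decide)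
    · exact absurd hs (by decide)
    · exact absurd hs (by decide)
    · exact absurd hs (by decide)
    · exact Or.inr h1
  · rintro (h1 | h1)
    · exact ⟨0, by decide, by decide, contains_nil _, h1⟩
    · exact ⟨5, by decide, by decide, h1, contains_nil _⟩

lemma gt_12 {u v : List ℕ} (h : ∀ a ∈ u, ∀ b ∈ v, b < a) :
    Contains (u ++ v) [1, 2] ↔
      Contains v [1, 2] ∨ Contains u [1, 2] := by
  rw [contains_append_gt h]
  constructor
  · rintro ⟨k, hk, hs, h1, h2⟩
    simp only [List.length_cons, List.length_nil] at hk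
    interval_cases k
    · exact Or.inl h2
    · exact absurd hs (by decide)
    · exact Or.inr h1
  · rintro (h1 | h1)
    · exact ⟨0, by decide, by decide, contains_nil _, h1⟩
    · exact ⟨2, by decide, by decide, h1, contains_nil _⟩

lemma gt_21 {u v : List ℕ} (h : ∀ a ∈ u, ∀ b ∈ v, b < a) :
    Contains (u ++ v) [2, 1] ↔
      Contains v [2, 1] ∨ (Contains u [2] ∧ Contains v [1]) ∨ Contains u [2, 1] := by
  rw [contains_append_gt h]
  constructor
  · rintro ⟨k, hk, hs, h1, h2⟩
    simp only [List.length_cons, List.length_nil] at hk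
    interval_cases k
    · exact Or.inl h2
    · exact Or.inr <| Or.inl ⟨h1, h2⟩
    · exact Or.inr <| Or.inr h1
  · rintro (h1 | ⟨h1, h2⟩ | h1)
    · exact ⟨0, by decide, by decide, contains_nil _, h1⟩
    · exact ⟨1, by decide, by decide, h1, h2⟩
    · exact ⟨2, by decide, by decide, h1, contains_nil _⟩

lemma gt_231 {u v : List ℕ} (h : ∀ a ∈ u, ∀ b ∈ v, b < a) :
    Contains (u ++ v) [2, 3, 1] ↔
      Contains v [2, 3, 1] ∨ (Contains u [2, 3] ∧ Contains v [1]) ∨ Contains u [2, 3, 1] := by
  rw [contains_append_gt h]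
  constructor
  · rintro ⟨k, hk, hs, h1, h2⟩
    simp only [List.length_cons, List.length_nil] at hk
    interval_cases k
    · exact Or.inl h2
    · exact absurd hs (by decide)
    · exact Or.inr <| Or.inl ⟨h1, h2⟩
    · exact Or.inr <| Or.inr h1
  · rintro (h1 | ⟨h1, h2⟩ | h1)
    · exact ⟨0, by decide, by decide, contains_nil _, h1⟩
    · exact ⟨2, by decide, by decide, h1, h2⟩
    · exact ⟨3, by decide, by decide, h1, contains_nil _⟩

lemma gt_132 {u v : List ℕ} (h : ∀ a ∈ u, ∀ b ∈ v, b < a) :
    Contains (u ++ v) [1, 3, 2] ↔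
      Contains v [1, 3, 2] ∨ Contains u [1, 3, 2] := by
  rw [contains_append_gt h]
  constructor
  · rintro ⟨k, hk, hs, h1, h2⟩
    simp only [List.length_cons, List.length_nil] at hk
    interval_cases k
    · exact Or.inl h2
    · exact absurd hs (by decide)
    · exact absurd hs (by decide)
    · exact Or.inr h1
  · rintro (h1 | h1)
    · exact ⟨0, by decide, by decide, contains_nil _, h1⟩
    · exact ⟨3, by decide, by decide, h1, contains_nil _⟩

lemma gt_2413 {u v : List ℕ} (h : ∀ a ∈ u, ∀ b ∈ v, b < a) :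
    Contains (u ++ v) [2, 4, 1, 3] ↔
      Contains v [2, 4, 1, 3] ∨ Contains u [2, 4, 1, 3] := by
  rw [contains_append_gt h]
  constructor
  · rintro ⟨k, hk, hs, h1, h2⟩
    simp only [List.length_cons, List.length_nil] at hk
    interval_cases k
    · exact Or.inl h2
    · exact absurd hs (by decide)
    · exact absurd hs (by decide)
    · exact absurd hs (by decide)
    · exact Or.inr h1
  · rintro (h1 | h1)
    · exact ⟨0, by decide, by decide, contains_nil _, h1⟩
    · exact ⟨4, by decide, by decide, h1, contains_nil _⟩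

lemma gt_3142 {u v : List ℕ} (h : ∀ a ∈ u, ∀ b ∈ v, b < a) :
    Contains (u ++ v) [3, 1, 4, 2] ↔
      Contains v [3, 1, 4, 2] ∨ Contains u [3, 1, 4, 2] := by
  rw [contains_append_gt h]
  constructor
  · rintro ⟨k, hk, hs, h1, h2⟩
    simp only [List.length_cons, List.length_nil] at hk
    interval_cases k
    · exact Or.inl h2
    · exact absurd hs (by decide)
    · exact absurd hs (by decide)
    · exact absurd hs (by decide)
    · exact Or.inr h1
  · rintro (h1 | h1)
    · exact ⟨0, by decide, by decide, contains_nil _, h1⟩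
    · exact ⟨4, by decide, by decide, h1, contains_nil _⟩

lemma gt_1342 {u v : List ℕ} (h : ∀ a ∈ u, ∀ b ∈ v, b < a) :
    Contains (u ++ v) [1, 3, 4, 2] ↔
      Contains v [1, 3, 4, 2] ∨ Contains u [1, 3, 4, 2] := by
  rw [contains_append_gt h]
  constructor
  · rintro ⟨k, hk, hs, h1, h2⟩
    simp only [List.length_cons, List.length_nil] at hk
    interval_cases k
    · exact Or.inl h2
    · exact absurd hs (by decide)
    · exact absurd hs (by decide)
    · exact absurd hs (by decide)
    · exact Or.inr h1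
  · rintro (h1 | h1)
    · exact ⟨0, by decide, by decide, contains_nil _, h1⟩
    · exact ⟨4, by decide, by decide, h1, contains_nil _⟩

lemma gt_3412 {u v : List ℕ} (h : ∀ a ∈ u, ∀ b ∈ v, b < a) :
    Contains (u ++ v) [3, 4, 1, 2] ↔
      Contains v [3, 4, 1, 2] ∨ (Contains u [3, 4] ∧ Contains v [1, 2]) ∨ Contains u [3, 4, 1, 2] := by
  rw [contains_append_gt h]
  constructor
  · rintro ⟨k, hk, hs, h1, h2⟩
    simp only [List.length_cons, List.length_nil] at hk
    interval_cases k
    · exact Or.inl h2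
    · exact absurd hs (by decide)
    · exact Or.inr <| Or.inl ⟨h1, h2⟩
    · exact absurd hs (by decide)
    · exact Or.inr <| Or.inr h1
  · rintro (h1 | ⟨h1, h2⟩ | h1)
    · exact ⟨0, by decide, by decide, contains_nil _, h1⟩
    · exact ⟨2, by decide, by decide, h1, h2⟩
    · exact ⟨4, by decide, by decide, h1, contains_nil _⟩

lemma gt_12453 {u v : List ℕ} (h : ∀ a ∈ u, ∀ b ∈ v, b < a) :
    Contains (u ++ v) [1, 2, 4, 5, 3] ↔
      Contains v [1, 2, 4, 5, 3] ∨ Contains u [1, 2, 4, 5, 3] := by
  rw [contains_append_gt h]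
  constructor
  · rintro ⟨k, hk, hs, h1, h2⟩
    simp only [List.length_cons, List.length_nil] at hk
    interval_cases k
    · exact Or.inl h2
    · exact absurd hs (by decide)
    · exact absurd hs (by decide)
    · exact absurd hs (by decide)
    · exact absurd hs (by decide)
    · exact Or.inr h1
  · rintro (h1 | h1)
    · exact ⟨0, by decide, by decide, contains_nil _, h1⟩
    · exact ⟨5, by decide, by decide, h1, contains_nil _⟩

lemma gt_14523 {u v : List ℕ} (h : ∀ a ∈ u, ∀ b ∈ v, b < a) :
    Contains (u ++ v) [1, 4, 5, 2, 3] ↔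
      Contains v [1, 4, 5, 2, 3] ∨ Contains u [1, 4, 5, 2, 3] := by
  rw [contains_append_gt h]
  constructor
  · rintro ⟨k, hk, hs, h1, h2⟩
    simp only [List.length_cons, List.length_nil] at hk
    interval_cases k
    · exact Or.inl h2
    · exact absurd hs (by decide)
    · exact absurd hs (by decide)
    · exact absurd hs (by decide)
    · exact absurd hs (by decide)
    · exact Or.inr h1
  · rintro (h1 | h1)
    · exact ⟨0, by decide, by decide, contains_nil _, h1⟩
    · exact ⟨5, by decide, by decide, h1, contains_nil _⟩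

lemma gt_35412 {u v : List ℕ} (h : ∀ a ∈ u, ∀ b ∈ v, b < a) :
    Contains (u ++ v) [3, 5, 4, 1, 2] ↔
      Contains v [3, 5, 4, 1, 2] ∨ (Contains u [3, 5, 4] ∧ Contains v [1, 2]) ∨ Contains u [3, 5, 4, 1, 2] := by
  rw [contains_append_gt h]
  constructor
  · rintro ⟨k, hk, hs, h1, h2⟩
    simp only [List.length_cons, List.length_nil] at hk
    interval_cases k
    · exact Or.inl h2
    · exact absurd hs (by decide)
    · exact absurd hs (by decide)
    · exact Or.inr <| Or.inl ⟨h1, h2⟩
    · exact absurd hs (by decide)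
    · exact Or.inr <| Or.inr h1
  · rintro (h1 | ⟨h1, h2⟩ | h1)
    · exact ⟨0, by decide, by decide, contains_nil _, h1⟩
    · exact ⟨3, by decide, by decide, h1, h2⟩
    · exact ⟨5, by decide, by decide, h1, contains_nil _⟩

end Pool.Agent.Q166.Sep
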