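import Mathlib
import Pool.Agent.Q166.SepC

set_option autoImplicit false

namespace Pool.Agent.Q166.Sep

instance decOrdIso (s t : List ℕ) : Decidable (OrdIso s t) :=
  decidable_of_iff (s.length = t.length ∧ ∀ i, i < s.length → ∀ j, j < s.length →
    (s.getD i 0 < s.getD j 0 ↔ t.getD i 0 < t.getD j 0))
    ⟨fun h => ⟨h.1, fun i j hi hj => h.2 i hi j hj⟩, fun h => ⟨h.1, fun i hi j hj => h.2 i j hi hj⟩⟩

def Dec (w : List ℕ) : Prop := ¬ Contains w [1, 2]
def Inc (w : List ℕ) : Prop := ¬ Contains w [2, 1]
def A (w : List ℕ) : Prop := ¬ Contains w [2, 3, 1]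
def V (w : List ℕ) : Prop := ¬ Contains w [1, 3, 2]
/-- separable -/
def S (w : List ℕ) : Prop := ¬ Contains w [2, 4, 1, 3] ∧ ¬ Contains w [3, 1, 4, 2]
def E (w : List ℕ) : Prop := S w ∧ ¬ Contains w [1, 3, 4, 2] ∧ ¬ Contains w [3, 4, 1, 2]
def C (w : List ℕ) : Prop := S w ∧ ¬ Contains w [1, 2, 4, 5, 3] ∧ ¬ Contains w [1, 4, 5, 2, 3] ∧
  ¬ Contains w [3, 5, 4, 1, 2]

lemma sub_of {p q s : List ℕ} (h1 : s.Sublist p) (h2 : OrdIso s q) {w : List ℕ}
    (h : Contains w p) : Contains w q := h.trans ⟨s, h1, h2⟩

lemma A.e {w : List ℕ} (h : A w) : E w := by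
  refine ⟨⟨fun h1 => h ?_, fun h1 => h ?_⟩, fun h1 => h ?_, fun h1 => h ?_⟩
  · exact sub_of (s := [2, 4, 1]) (by decide) (by decide) h1
  · exact sub_of (s := [3, 4, 2]) (by decide) (by decide) h1
  · exact sub_of (s := [3, 4, 2]) (by decide) (by decide) h1
  · exact sub_of (s := [3, 4, 1]) (by decide) (by decide) h1

lemma E.c {w : List ℕ} (h : E w) : C w := by
  refine ⟨h.1, fun h1 => h.2.1 ?_, fun h1 => h.2.2 ?_, fun h1 => h.2.2 ?_⟩
  · exact sub_of (s := [1, 4, 5, 3]) (by decide) (by decide) h1
  · exact sub_of (s := [4, 5, 2, 3]) (by decide) (by decide) h1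
  · exact sub_of (s := [3, 5, 1, 2]) (by decide) (by decide) h1

lemma V.c {w : List ℕ} (h : V w) : C w := by
  refine ⟨⟨fun h1 => h ?_, fun h1 => h ?_⟩, fun h1 => h ?_, fun h1 => h ?_, fun h1 => h ?_⟩
  · exact sub_of (s := [2, 4, 3]) (by decide) (by decide) h1
  · exact sub_of (s := [1, 4, 2]) (by decide) (by decide) h1
  · exact sub_of (s := [1, 5, 3]) (by decide) (by decide) h1
  · exact sub_of (s := [1, 5, 3]) (by decide) (by decide) h1
  · exact sub_of (s := [3, 5, 4]) (by decide) (by decide) h1

lemma Dec.a {w : List ℕ} (h : Dec w) : A w :=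
  fun h1 => h (sub_of (s := [2, 3]) (by decide) (by decide) h1)

lemma Dec.v {w : List ℕ} (h : Dec w) : V w :=
  fun h1 => h (sub_of (s := [1, 3]) (by decide) (by decide) h1)

lemma Inc.v {w : List ℕ} (h : Inc w) : V w :=
  fun h1 => h (sub_of (s := [3, 2]) (by decide) (by decide) h1)

section rules

variable {u v : List ℕ}

/-! ### sums -/

lemma Dec_lt (h : ∀ a ∈ u, ∀ b ∈ v, a < b) (hu : u ≠ []) (hv : v ≠ []) : ¬ Dec (u ++ v) := by
  unfold Dec
  rw [lt_12 h, contains_one, contains_one]
  tauto

lemma Inc_lt (h : ∀ a ∈ u, ∀ b ∈ v, a < b) : Inc (u ++ v) ↔ Inc u ∧ Inc v := by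
  unfold Inc
  rw [lt_21 h]
  tauto

lemma A_lt (h : ∀ a ∈ u, ∀ b ∈ v, a < b) : A (u ++ v) ↔ A u ∧ A v := by
  unfold A
  rw [lt_231 h]
  tauto

lemma V_lt (h : ∀ a ∈ u, ∀ b ∈ v, a < b) (hu : u ≠ []) : V (u ++ v) ↔ V u ∧ Inc v := by
  have h1 : Contains v [3, 2] ↔ Contains v [2, 1] := Contains.iso (by decide)
  have h2 := fun h : Inc v => h.v
  unfold V Inc at *
  rw [lt_132 h, contains_one, h1]
  tauto

lemma S_lt (h : ∀ a ∈ u, ∀ b ∈ v, a < b) : S (u ++ v) ↔ S u ∧ S v := by
  unfold S
  rw [lt_2413 h, lt_3142 h]
  tauto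

lemma E_lt (h : ∀ a ∈ u, ∀ b ∈ v, a < b) (hu : u ≠ []) : E (u ++ v) ↔ E u ∧ A v := by
  have h1 : Contains v [3, 4, 2] ↔ Contains v [2, 3, 1] := Contains.iso (by decide)
  have h2 := fun h : A v => h.e
  unfold E
  rw [S_lt h, lt_1342 h, lt_3412 h, contains_one, h1]
  unfold A E at *
  tauto

lemma C_lt (h : ∀ a ∈ u, ∀ b ∈ v, a < b) (hu : u ≠ []) :
    C (u ++ v) ↔ C u ∧ E v ∧ (Dec u ∨ A v) := by
  have h1 : Contains v [4, 5, 3] ↔ Contains v [2, 3, 1] := Contains.iso (by decide)
  have h3 : Contains v [2, 4, 5, 3] ↔ Contains v [1, 3, 4, 2] := Contains.iso (by decide)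
  have h4 : Contains v [4, 5, 2, 3] ↔ Contains v [3, 4, 1, 2] := Contains.iso (by decide)
  have h2 := fun h : E v => h.c
  unfold C
  rw [S_lt h, lt_12453 h, lt_14523 h, lt_35412 h, contains_one, h1, h3, h4]
  constructor
  · rintro ⟨⟨s1, s2⟩, a, b, c⟩
    refine ⟨⟨s1, fun h => a (Or.inr (Or.inr (Or.inr h))), fun h => b (Or.inr (Or.inr h)),
      fun h => c (Or.inr h)⟩, ⟨s2, fun h => a (Or.inr (Or.inl ⟨hu, h⟩)),
      fun h => b (Or.inr (Or.inl ⟨hu, h⟩))⟩, ?_⟩
    by_cases hd : Contains u [1, 2]
    · exact Or.inr fun h => a (Or.inr (Or.inr (Or.inl ⟨hd, h⟩)))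
    · exact Or.inl hd
  · rintro ⟨⟨s1, a1, b1, c1⟩, hE, hh⟩
    obtain ⟨s2, a2, b2, c2⟩ := h2 hE
    obtain ⟨-, e1, e2⟩ := hE
    refine ⟨⟨s1, s2⟩, ?_, ?_, ?_⟩
    · rintro (h | ⟨-, h⟩ | ⟨h, h'⟩ | h)
      · exact a2 h
      · exact e1 h
      · rcases hh with hh | hh
        · exact hh h
        · exact hh h'
      · exact a1 h
    · rintro (h | ⟨-, h⟩ | h)
      · exact b2 h
      · exact e2 h
      · exact b1 h
    · rintro (h | h)
      · exact c2 h
      · exact c1 h

/-! ### skew sums -/

lemma Dec_gt (h : ∀ a ∈ u, ∀ b ∈ v, b < a) : Dec (u ++ v) ↔ Dec u ∧ Dec v := by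
  unfold Dec
  rw [gt_12 h]
  tauto

lemma Inc_gt (h : ∀ a ∈ u, ∀ b ∈ v, b < a) (hu : u ≠ []) (hv : v ≠ []) : ¬ Inc (u ++ v) := by
  unfold Inc
  rw [gt_21 h, contains_one, contains_one]
  tauto

lemma A_gt (h : ∀ a ∈ u, ∀ b ∈ v, b < a) (hv : v ≠ []) : A (u ++ v) ↔ Dec u ∧ A v := by
  have h1 : Contains u [2, 3] ↔ Contains u [1, 2] := Contains.iso (by decide)
  have h2 := fun h : Dec u => h.a
  unfold A
  rw [gt_231 h, contains_one, h1]
  unfold Dec A at *
  tauto

lemma V_gt (h : ∀ a ∈ u, ∀ b ∈ v, b < a) : V (u ++ v) ↔ V u ∧ V v := by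
  unfold V
  rw [gt_132 h]
  tauto

lemma S_gt (h : ∀ a ∈ u, ∀ b ∈ v, b < a) : S (u ++ v) ↔ S u ∧ S v := by
  unfold S
  rw [gt_2413 h, gt_3142 h]
  tauto

lemma E_gt (h : ∀ a ∈ u, ∀ b ∈ v, b < a) :
    E (u ++ v) ↔ E u ∧ E v ∧ (Dec u ∨ Dec v) := by
  have h1 : Contains u [3, 4] ↔ Contains u [1, 2] := Contains.iso (by decide)
  unfold E
  rw [S_gt h, gt_1342 h, gt_3412 h, h1]
  unfold Dec at *
  tauto

lemma C_gt (h : ∀ a ∈ u, ∀ b ∈ v, b < a) :
    C (u ++ v) ↔ C u ∧ C v ∧ (V u ∨ Dec v) := by
  have h1 : Contains u [3, 5, 4] ↔ Contains u [1, 3, 2] := Contains.iso (by decide)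
  unfold C
  rw [S_gt h, gt_12453 h, gt_14523 h, gt_35412 h, h1]
  unfold Dec V at *
  tauto

end rules

/-! ### the structure of separable words -/

lemma cont4 {w p : List ℕ} {a b c d : ℕ} (h : [a, b, c, d].Sublist w)
    (ho : OrdIso [a, b, c, d] p) : Contains w p := ⟨_, h, ho⟩

lemma iso3142 {a b c d : ℕ} (h1 : b < d) (h2 : d < a) (h3 : a < c) :
    OrdIso [a, b, c, d] [3, 1, 4, 2] := by
  refine ⟨rfl, ?_⟩
  intro i j hi hj
  simp only [List.length_cons, List.length_nil] at hi hj
  interval_cases i <;> interval_cases j <;> simp <;> omega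

lemma iso2413 {a b c d : ℕ} (h1 : c < a) (h2 : a < d) (h3 : d < b) :
    OrdIso [a, b, c, d] [2, 4, 1, 3] := by
  refine ⟨rfl, ?_⟩
  intro i j hi hj
  simp only [List.length_cons, List.length_nil] at hi hj
  interval_cases i <;> interval_cases j <;> simp <;> omega

lemma sumDec_min {w : List ℕ} (h : SumDec w) :
    ∃ u v, u ≠ [] ∧ v ≠ [] ∧ w = u ++ v ∧ (∀ a ∈ u, ∀ b ∈ v, a < b) ∧ ¬ SumDec u := by
  have hex : ∃ n, ∃ u v : List ℕ, u.length = n ∧ u ≠ [] ∧ v ≠ [] ∧ w = u ++ v ∧
      ∀ a ∈ u, ∀ b ∈ v, a < b := by
    obtain ⟨u, v, h1⟩ := h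
    exact ⟨u.length, u, v, rfl, h1⟩
  classical
  obtain ⟨u, v, hn, hu, hv, he, hlt⟩ := Nat.find_spec hex
  have hmin := fun m hm => Nat.find_min hex (m := m) hm
  refine ⟨u, v, hu, hv, he, hlt, ?_⟩
  rintro ⟨a, b, ha, hb, hab, hl⟩
  refine hmin a.length ?_ ⟨a, b ++ v, rfl, ha, by simp [hb], ?_, ?_⟩
  · rw [← hn, hab, List.length_append]
    have : 0 < b.length := List.length_pos_iff.2 hb
    omega
  · rw [he, hab, List.append_assoc]
  · intro x hx y hy
    rcases List.mem_append.1 hy with h2 | h2
    · exact hl x hx y h2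
    · exact hlt x (by rw [hab]; exact List.mem_append_left _ hx) y h2

lemma skewDec_min {w : List ℕ} (h : SkewDec w) :
    ∃ u v, u ≠ [] ∧ v ≠ [] ∧ w = u ++ v ∧ (∀ a ∈ u, ∀ b ∈ v, b < a) ∧ ¬ SkewDec u := by
  have hex : ∃ n, ∃ u v : List ℕ, u.length = n ∧ u ≠ [] ∧ v ≠ [] ∧ w = u ++ v ∧
      ∀ a ∈ u, ∀ b ∈ v, b < a := by
    obtain ⟨u, v, h1⟩ := h
    exact ⟨u.length, u, v, rfl, h1⟩
  classical
  obtain ⟨u, v, hn, hu, hv, he, hlt⟩ := Nat.find_spec hex
  have hmin := fun m hm => Nat.find_min hex (m := m) hm
  refine ⟨u, v, hu, hv, he, hlt, ?_⟩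
  rintro ⟨a, b, ha, hb, hab, hl⟩
  refine hmin a.length ?_ ⟨a, b ++ v, rfl, ha, by simp [hb], ?_, ?_⟩
  · rw [← hn, hab, List.length_append]
    have : 0 < b.length := List.length_pos_iff.2 hb
    omega
  · rw [he, hab, List.append_assoc]
  · intro x hx y hy
    rcases List.mem_append.1 hy with h2 | h2
    · exact hl x hx y h2
    · exact hlt x (by rw [hab]; exact List.mem_append_left _ hx) y h2

lemma takeWhile_prop {u : List ℕ} {q : ℕ → Bool} : ∀ a ∈ u.takeWhile q, q a = true := by
  intro a ha
  exact List.mem_takeWhile_imp ha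

/-- a separable word of length at least two is a sum or a skew sum -/
theorem separable (w : List ℕ) (hn : w.Nodup) (h2 : 2 ≤ w.length) (hS : S w) :
    SumDec w ∨ SkewDec w := by
  induction w using List.reverseRecOn with
  | nil => simp at h2
  | append_singleton w x ih =>
    have hn' := hn
    rw [List.nodup_append] at hn
    obtain ⟨hw, -, hd⟩ := hn
    have hxw : ∀ a ∈ w, a ≠ x := fun a ha => hd a ha x (by simp)
    have hS' : S w := ⟨fun h => hS.1 (h.mono (List.sublist_append_left _ _)),
      fun h => hS.2 (h.mono (List.sublist_append_left _ _))⟩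
    rw [List.length_append, List.length_singleton] at h2
    have hw0 : w ≠ [] := by
      rintro rfl
      simp at h2
    -- the extreme cases
    by_cases c1 : ∀ a ∈ w, a < x
    · left
      exact ⟨w, [x], hw0, by simp, rfl, by simpa using c1⟩
    by_cases c2 : ∀ a ∈ w, x < a
    · right
      exact ⟨w, [x], hw0, by simp, rfl, by simpa using c2⟩
    have h2' : 2 ≤ w.length := by
      by_contra hcon
      have : w.length = 1 := by
        have : 0 < w.length := List.length_pos_iff.2 hw0
        omega
      obtain ⟨a, rfl⟩ := List.length_eq_one_iff.1 this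
      have := hxw a (by simp)
      push Not at c1 c2
      simp at c1 c2
      omega
    rcases ih hw h2' hS' with h | h
    · obtain ⟨u, r, hu, hr, he, hlt, hind⟩ := sumDec_min h
      left
      have hmem : ∀ z ∈ u, z ∈ w := fun z hz => by
        rw [he]
        exact List.mem_append_left _ hz
      by_cases c3 : ∀ a ∈ u, a < x
      · refine ⟨u, r ++ [x], hu, by simp, by rw [he, List.append_assoc], ?_⟩
        intro a ha b hb
        rcases List.mem_append.1 hb with hb | hb
        · exact hlt a ha b hb
        · rw [List.mem_singleton] at hb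
          subst hb
          exact c3 a ha
      exfalso
      -- no x before y with y < x0 < x
      obtain ⟨c, hc⟩ := List.exists_mem_of_ne_nil r hr
      have hno : ∀ a b, [a, b].Sublist u → ¬ (b < x ∧ x < a) := by
        rintro a b hab ⟨h3, h4⟩
        refine hS.2 (cont4 (a := a) (b := b) (c := c) (d := x) ?_
          (iso3142 h3 h4 (hlt a (hab.subset (by simp)) c hc)))
        have h5 : [a, b, c, x] = ([a, b] ++ [c]) ++ [x] := rfl
        rw [h5, he]
        exact (hab.append (List.singleton_sublist.2 hc)).append (List.Sublist.refl _)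
      apply hind
      refine ⟨u.takeWhile (fun a => decide (a < x)), u.dropWhile (fun a => decide (a < x)),
        ?_, ?_, (List.takeWhile_append_dropWhile).symm, ?_⟩
      · -- nonempty since some element of u is below x
        intro h3
        have hall : ∀ a ∈ u, x < a := by
          intro a ha
          obtain ⟨b, t, rfl⟩ := List.exists_cons_of_ne_nil hu
          have hb : ¬ b < x := by
            intro hb
            rw [List.takeWhile_cons_of_pos (by simpa using hb)] at h3
            exact absurd h3 (by simp)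
          have hbx : x < b := by
            have := hxw b (by rw [he]; simp)
            omega
          rcases List.mem_cons.1 ha with rfl | ha
          · exact hbx
          · by_contra hcon
            have hax : a < x := by
              have := hxw a (by rw [he]; simp [ha])
              omega
            exact hno b a (List.Sublist.cons_cons b (List.singleton_sublist.2 ha)) ⟨hax, hbx⟩
        apply c2
        intro a ha
        rw [he] at ha
        rcases List.mem_append.1 ha with ha | ha
        · exact hall a ha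
        · obtain ⟨b, hb⟩ := List.exists_mem_of_ne_nil u hu
          exact (hall b hb).trans (hlt b hb a ha)
      · intro h3
        apply c3
        intro a ha
        rw [← List.takeWhile_append_dropWhile (p := fun a => decide (a < x)) (l := u), h3,
          List.append_nil] at ha
        simpa using takeWhile_prop a ha
      · intro a ha b hb
        have h3 : a < x := by simpa using takeWhile_prop a ha
        have h4 : x < b := by
          set d := u.dropWhile (fun a => decide (a < x)) with hdd
          have hdne : d ≠ [] := List.ne_nil_of_mem hb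
          have hhead : ¬ (d.head hdne < x) := by
            have := List.head_dropWhile_not (fun a => decide (a < x)) (l := u) hdne
            simpa using this
          have hsub : d.Sublist u := List.dropWhile_sublist _
          have hhd : x < d.head hdne := by
            have := hxw (d.head hdne) (hmem _ (hsub.subset (List.head_mem hdne)))
            omega
          by_contra hcon
          have hbx : b < x := by
            have := hxw b (hmem _ (hsub.subset hb))
            omega
          obtain ⟨e, t, hdt⟩ := List.exists_cons_of_ne_nil hdne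
          have he1 : d.head hdne = e := by simp [hdt]
          rw [he1] at hhd
          rw [hdt] at hb
          rcases List.mem_cons.1 hb with rfl | hb
          · omega
          · refine hno e b ?_ ⟨hbx, hhd⟩
            refine List.Sublist.trans ?_ hsub
            rw [hdt]
            exact List.Sublist.cons_cons e (List.singleton_sublist.2 hb)
        omega
    · obtain ⟨u, r, hu, hr, he, hlt, hind⟩ := skewDec_min h
      right
      have hmem : ∀ z ∈ u, z ∈ w := fun z hz => by
        rw [he]
        exact List.mem_append_left _ hz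
      by_cases c3 : ∀ a ∈ u, x < a
      · refine ⟨u, r ++ [x], hu, by simp, by rw [he, List.append_assoc], ?_⟩
        intro a ha b hb
        rcases List.mem_append.1 hb with hb | hb
        · exact hlt a ha b hb
        · rw [List.mem_singleton] at hb
          subst hb
          exact c3 a ha
      exfalso
      obtain ⟨c, hc⟩ := List.exists_mem_of_ne_nil r hr
      have hno : ∀ a b, [a, b].Sublist u → ¬ (a < x ∧ x < b) := by
        rintro a b hab ⟨h3, h4⟩
        refine hS.1 (cont4 (a := a) (b := b) (c := c) (d := x) ?_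
          (iso2413 (hlt a (hab.subset (by simp)) c hc) h3 h4))
        have h5 : [a, b, c, x] = ([a, b] ++ [c]) ++ [x] := rfl
        rw [h5, he]
        exact (hab.append (List.singleton_sublist.2 hc)).append (List.Sublist.refl _)
      apply hind
      refine ⟨u.takeWhile (fun a => decide (x < a)), u.dropWhile (fun a => decide (x < a)),
        ?_, ?_, (List.takeWhile_append_dropWhile).symm, ?_⟩
      · intro h3
        have hall : ∀ a ∈ u, a < x := by
          intro a ha
          obtain ⟨b, t, rfl⟩ := List.exists_cons_of_ne_nil hu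
          have hb : ¬ x < b := by
            intro hb
            rw [List.takeWhile_cons_of_pos (by simpa using hb)] at h3
            exact absurd h3 (by simp)
          have hbx : b < x := by
            have := hxw b (by rw [he]; simp)
            omega
          rcases List.mem_cons.1 ha with rfl | ha
          · exact hbx
          · by_contra hcon
            have hax : x < a := by
              have := hxw a (by rw [he]; simp [ha])
              omega
            exact hno b a (List.Sublist.cons_cons b (List.singleton_sublist.2 ha)) ⟨hbx, hax⟩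
        apply c1
        intro a ha
        rw [he] at ha
        rcases List.mem_append.1 ha with ha | ha
        · exact hall a ha
        · obtain ⟨b, hb⟩ := List.exists_mem_of_ne_nil u hu
          exact (hlt b hb a ha).trans (hall b hb)
      · intro h3
        apply c3
        intro a ha
        rw [← List.takeWhile_append_dropWhile (p := fun a => decide (x < a)) (l := u), h3,
          List.append_nil] at ha
        simpa using takeWhile_prop a ha
      · intro a ha b hb
        have h3 : x < a := by simpa using takeWhile_prop a ha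
        have h4 : b < x := by
          set d := u.dropWhile (fun a => decide (x < a)) with hdd
          have hdne : d ≠ [] := List.ne_nil_of_mem hb
          have hhead : ¬ (x < d.head hdne) := by
            have := List.head_dropWhile_not (fun a => decide (x < a)) (l := u) hdne
            simpa using this
          have hsub : d.Sublist u := List.dropWhile_sublist _
          have hhd : d.head hdne < x := by
            have := hxw (d.head hdne) (hmem _ (hsub.subset (List.head_mem hdne)))
            omega
          by_contra hcon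
          have hbx : x < b := by
            have := hxw b (hmem _ (hsub.subset hb))
            omega
          obtain ⟨e, t, hdt⟩ := List.exists_cons_of_ne_nil hdne
          have he1 : d.head hdne = e := by simp [hdt]
          rw [he1] at hhd
          rw [hdt] at hb
          rcases List.mem_cons.1 hb with rfl | hb
          · omega
          · refine hno e b ?_ ⟨hhd, hbx⟩
            refine List.Sublist.trans ?_ hsub
            rw [hdt]
            exact List.Sublist.cons_cons e (List.singleton_sublist.2 hb)
        omega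

lemma not_both {w : List ℕ} (h1 : SumDec w) (h2 : SkewDec w) : False := by
  obtain ⟨u, v, hu, hv, he, hl⟩ := h1
  obtain ⟨u', v', hu', hv', he', hl'⟩ := h2
  have hw : w ≠ [] := by rw [he]; simp [hu]
  have a1 : w.head hw ∈ u := by
    have : w.head hw = u.head hu := by simp [he, List.head_append_of_ne_nil hu]
    rw [this]
    exact List.head_mem hu
  have a2 : w.head hw ∈ u' := by
    have : w.head hw = u'.head hu' := by simp [he', List.head_append_of_ne_nil hu']
    rw [this]
    exact List.head_mem hu'
  have b1 : w.getLast hw ∈ v := by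
    have : w.getLast hw = v.getLast hv := by simp [he, List.getLast_append_of_ne_nil _ hv]
    rw [this]
    exact List.getLast_mem hv
  have b2 : w.getLast hw ∈ v' := by
    have : w.getLast hw = v'.getLast hv' := by simp [he', List.getLast_append_of_ne_nil _ hv']
    rw [this]
    exact List.getLast_mem hv'
  have := hl _ a1 _ b1
  have := hl' _ a2 _ b2
  omega

lemma Dec.skew {w : List ℕ} (h : Dec w) (hn : w.Nodup) (h2 : 2 ≤ w.length) : SkewDec w := by
  match w, h2 with
  | a :: b :: t, _ =>
    refine ⟨[a], b :: t, by simp, by simp, rfl, ?_⟩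
    intro x hx y hy
    rw [List.mem_singleton] at hx
    subst hx
    have hxy : x ≠ y := by
      rintro rfl
      exact (List.nodup_cons.1 hn).1 hy
    by_contra hcon
    refine h ⟨[x, y], List.Sublist.cons_cons x (List.singleton_sublist.2 hy), rfl, ?_⟩
    intro i j hi hj
    simp only [List.length_cons, List.length_nil] at hi hj
    interval_cases i <;> interval_cases j <;> simp <;> omega

lemma Inc.sum {w : List ℕ} (h : Inc w) (hn : w.Nodup) (h2 : 2 ≤ w.length) : SumDec w := by
  match w, h2 with
  | a :: b :: t, _ =>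
    refine ⟨[a], b :: t, by simp, by simp, rfl, ?_⟩
    intro x hx y hy
    rw [List.mem_singleton] at hx
    subst hx
    have hxy : x ≠ y := by
      rintro rfl
      exact (List.nodup_cons.1 hn).1 hy
    by_contra hcon
    refine h ⟨[x, y], List.Sublist.cons_cons x (List.singleton_sublist.2 hy), rfl, ?_⟩
    intro i j hi hj
    simp only [List.length_cons, List.length_nil] at hi hj
    interval_cases i <;> interval_cases j <;> simp <;> omega

lemma Dec.not_sum {w : List ℕ} (h : Dec w) : ¬ SumDec w := by
  rintro ⟨u, v, hu, hv, rfl, hl⟩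
  exact Dec_lt hl hu hv h

lemma Inc.not_skew {w : List ℕ} (h : Inc w) : ¬ SkewDec w := by
  rintro ⟨u, v, hu, hv, rfl, hl⟩
  exact Inc_gt hl hu hv h

lemma perm_one {w : List ℕ} (h : IsPerm w) (h0 : w ≠ []) (h1 : w.length < 2) : w = [0] := by
  have : 0 < w.length := List.length_pos_iff.2 h0
  have h2 : w.length = 1 := by omega
  unfold IsPerm at h
  rw [h2] at h
  exact List.perm_singleton.1 h

end Pool.Agent.Q166.Sep
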