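import Mathlib
import Pool.Agent.Q166.SepD

set_option autoImplicit false

namespace Pool.Agent.Q166.Sep

open PowerSeries

/-- nonempty permutations of length `n` with the property `P` -/
def cls (P : List ℕ → Prop) (n : ℕ) : Set (List ℕ) :=
  {w : List ℕ | IsPerm w ∧ w.length = n ∧ w ≠ [] ∧ P w}

lemma perms_finite (n : ℕ) : {w : List ℕ | IsPerm w ∧ w.length = n}.Finite := by
  refine Set.Finite.subset (List.finite_toSet (List.range n).permutations) ?_
  rintro w ⟨h1, h2⟩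
  simp only [Set.mem_ofPred_eq]
  rw [List.mem_permutations, ← h2]
  exact h1

lemma cls_finite (P : List ℕ → Prop) (n : ℕ) : (cls P n).Finite :=
  (perms_finite n).subset fun _ hw => ⟨hw.1, hw.2.1⟩

noncomputable def G (P : List ℕ → Prop) : PowerSeries ℤ :=
  PowerSeries.mk fun n => ((cls P n).ncard : ℤ)

lemma G_congr {P Q : List ℕ → Prop} (h : ∀ w, IsPerm w → w ≠ [] → (P w ↔ Q w)) : G P = G Q := by
  have : ∀ n, cls P n = cls Q n := by
    intro n
    ext w
    simp only [cls, Set.mem_ofPred_eq]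
    constructor
    · rintro ⟨h1, h2, h3, h4⟩
      exact ⟨h1, h2, h3, (h w h1 h3).1 h4⟩
    · rintro ⟨h1, h2, h3, h4⟩
      exact ⟨h1, h2, h3, (h w h1 h3).2 h4⟩
  unfold G
  simp only [this]

lemma G_add {P Q : List ℕ → Prop} (h : ∀ w, IsPerm w → w ≠ [] → P w → Q w → False) :
    G (fun w => P w ∨ Q w) = G P + G Q := by
  ext n
  rw [map_add]
  unfold G
  rw [coeff_mk, coeff_mk, coeff_mk]
  have h1 : cls (fun w => P w ∨ Q w) n = cls P n ∪ cls Q n := by
    ext w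
    simp only [cls, Set.mem_ofPred_eq, Set.mem_union]
    tauto
  rw [h1, Set.ncard_union_eq _ (cls_finite _ _) (cls_finite _ _)]
  · push_cast
    rfl
  · rw [Set.disjoint_left]
    rintro w ⟨h2, h3, h4, h5⟩ ⟨-, -, -, h6⟩
    exact h w h2 h4 h5 h6

lemma G_split (P D : List ℕ → Prop) :
    G P = G (fun w => P w ∧ D w) + G (fun w => ¬ D w ∧ P w) := by
  rw [← G_add]
  · refine G_congr fun w _ _ => ?_
    tauto
  · intro w _ _ h1 h2
    exact h2.1 h1.2

lemma G_false : G (fun _ => False) = 0 := by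
  ext n
  unfold G
  rw [coeff_mk]
  have : cls (fun _ => False) n = ∅ := by
    ext w
    simp [cls]
  rw [this]
  simp

lemma G_one : G (fun w => w = [0]) = X := by
  ext n
  unfold G
  rw [coeff_mk, coeff_X]
  split_ifs with h
  · subst h
    have : cls (fun w => w = [0]) 1 = {[0]} := by
      ext w
      simp only [cls, Set.mem_ofPred_eq, Set.mem_singleton_iff]
      constructor
      · exact fun h => h.2.2.2
      · rintro rfl
        exact ⟨isPerm_zero, rfl, by simp, rfl⟩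
    rw [this]
    simp
  · have : cls (fun w => w = [0]) n = ∅ := by
      ext w
      simp only [cls, Set.mem_ofPred_eq, Set.mem_empty_iff_false, iff_false]
      rintro ⟨h1, h2, h3, rfl⟩
      exact h h2.symm
    rw [this]
    simp

lemma G_const (P : List ℕ → Prop) : constantCoeff (G P) = 0 := by
  rw [← coeff_zero_eq_constantCoeff_apply]
  unfold G
  rw [coeff_mk]
  have : cls P 0 = ∅ := by
    ext w
    simp only [cls, Set.mem_ofPred_eq, Set.mem_empty_iff_false, iff_false]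
    rintro ⟨h1, h2, h3, h4⟩
    exact h3 (List.length_eq_zero_iff.1 h2)
  rw [this]
  simp

/-- the product rule -/
lemma G_op (op : List ℕ → List ℕ → List ℕ) (D F H : List ℕ → Prop)
    (hlen : ∀ u v, (op u v).length = u.length + v.length)
    (hperm : ∀ u v, IsPerm u → IsPerm v → IsPerm (op u v))
    (hinj : ∀ u v u' v', IsPerm u → IsPerm v → IsPerm u' → IsPerm v' → u ≠ [] → u' ≠ [] →
      ¬ D u → ¬ D u' → op u v = op u' v' → u = u' ∧ v = v') :
    G (fun w => ∃ u v, IsPerm u ∧ IsPerm v ∧ u ≠ [] ∧ v ≠ [] ∧ ¬ D u ∧ F u ∧ H v ∧ w = op u v) =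
      G (fun u => ¬ D u ∧ F u) * G H := by
  classical
  ext n
  rw [coeff_mul]
  unfold G
  simp only [coeff_mk]
  set S : ℕ → Finset (List ℕ) := fun i => (cls_finite (fun u => ¬ D u ∧ F u) i).toFinset with hS
  set R : ℕ → Finset (List ℕ) := fun i => (cls_finite H i).toFinset with hR
  set T := (cls_finite (fun w => ∃ u v, IsPerm u ∧ IsPerm v ∧ u ≠ [] ∧ v ≠ [] ∧ ¬ D u ∧ F u ∧
    H v ∧ w = op u v) n).toFinset with hT
  have hSm : ∀ i u, u ∈ S i ↔ IsPerm u ∧ u.length = i ∧ u ≠ [] ∧ ¬ D u ∧ F u := by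
    intro i u
    rw [hS, Set.Finite.mem_toFinset]
    rfl
  have hRm : ∀ i u, u ∈ R i ↔ IsPerm u ∧ u.length = i ∧ u ≠ [] ∧ H u := by
    intro i u
    rw [hR, Set.Finite.mem_toFinset]
    rfl
  have hTm : ∀ w, w ∈ T ↔ IsPerm w ∧ w.length = n ∧ w ≠ [] ∧ ∃ u v, IsPerm u ∧ IsPerm v ∧
      u ≠ [] ∧ v ≠ [] ∧ ¬ D u ∧ F u ∧ H v ∧ w = op u v := by
    intro w
    rw [hT, Set.Finite.mem_toFinset]
    rfl
  have e1 : (cls (fun w => ∃ u v, IsPerm u ∧ IsPerm v ∧ u ≠ [] ∧ v ≠ [] ∧ ¬ D u ∧ F u ∧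
    H v ∧ w = op u v) n).ncard = T.card := Set.ncard_eq_toFinset_card _ _
  have e2 : ∀ i, (cls (fun u => ¬ D u ∧ F u) i).ncard = (S i).card :=
    fun i => Set.ncard_eq_toFinset_card _ _
  have e3 : ∀ i, (cls H i).ncard = (R i).card := fun i => Set.ncard_eq_toFinset_card _ _
  rw [e1]
  simp only [e2, e3]
  have key : T.card = ∑ p ∈ Finset.HasAntidiagonal.antidiagonal n, (S p.1).card * (R p.2).card := by
    have h1 : ((Finset.HasAntidiagonal.antidiagonal n).sigma (fun p => S p.1 ×ˢ R p.2)).card =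
        ∑ p ∈ Finset.HasAntidiagonal.antidiagonal n, (S p.1).card * (R p.2).card := by
      rw [Finset.card_sigma]
      exact Finset.sum_congr rfl fun p _ => Finset.card_product _ _
    rw [← h1]
    symm
    refine Finset.card_bij (fun q _ => op q.2.1 q.2.2) ?_ ?_ ?_
    · rintro ⟨p, u, v⟩ hq
      rw [Finset.mem_sigma, Finset.mem_product, Finset.HasAntidiagonal.mem_antidiagonal] at hq
      obtain ⟨h2, h3, h4⟩ := hq
      simp only at h2 h3 h4
      rw [hSm] at h3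
      rw [hRm] at h4
      obtain ⟨a1, a2, a3, a4, a5⟩ := h3
      obtain ⟨b1, b2, b3, b4⟩ := h4
      rw [hTm]
      refine ⟨hperm u v a1 b1, ?_, ?_, u, v, a1, b1, a3, b3, a4, a5, b4, rfl⟩
      · simp only
        rw [hlen]
        omega
      · intro h5
        have h6 := congrArg List.length h5
        simp only [List.length_nil] at h6
        rw [hlen] at h6
        have : 0 < u.length := List.length_pos_iff.2 a3
        omega
    · rintro ⟨⟨i, j⟩, u, v⟩ hq ⟨⟨i', j'⟩, u', v'⟩ hq' heq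
      rw [Finset.mem_sigma, Finset.mem_product, Finset.HasAntidiagonal.mem_antidiagonal] at hq hq'
      obtain ⟨h2, h3, h4⟩ := hq
      obtain ⟨h2', h3', h4'⟩ := hq'
      simp only at h2 h3 h4 h2' h3' h4' heq
      rw [hSm] at h3 h3'
      rw [hRm] at h4 h4'
      obtain ⟨a1, a2, a3, a4, a5⟩ := h3
      obtain ⟨b1, b2, b3, b4⟩ := h4
      obtain ⟨a1', a2', a3', a4', a5'⟩ := h3'
      obtain ⟨b1', b2', b3', b4'⟩ := h4'
      obtain ⟨r1, r2⟩ := hinj u v u' v' a1 b1 a1' b1' a3 a3' a4 a4' heq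
      subst r1
      subst r2
      rw [a2] at a2'
      rw [b2] at b2'
      subst a2'
      subst b2'
      rfl
    · intro w hw
      rw [hTm] at hw
      obtain ⟨h1, h2, h3, u, v, h4, h5, h6, h7, h8, h9, h10, rfl⟩ := hw
      refine ⟨⟨(u.length, v.length), (u, v)⟩, ?_, rfl⟩
      rw [Finset.mem_sigma, Finset.mem_product, Finset.HasAntidiagonal.mem_antidiagonal]
      refine ⟨?_, ?_, ?_⟩
      · simp only
        rw [← h2, hlen]
      · rw [hSm]
        exact ⟨h4, rfl, h6, h8, h9⟩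
      · rw [hRm]
        exact ⟨h5, rfl, h7, h10⟩
  rw [key]
  push_cast
  rfl

/-- the decomposition rule -/
lemma G_dec (op : List ℕ → List ℕ → List ℕ) (D P F1 H1 F2 H2 : List ℕ → Prop)
    (hlen : ∀ u v, (op u v).length = u.length + v.length)
    (hperm : ∀ u v, IsPerm u → IsPerm v → IsPerm (op u v))
    (hinj : ∀ u v u' v', IsPerm u → IsPerm v → IsPerm u' → IsPerm v' → u ≠ [] → u' ≠ [] →
      ¬ D u → ¬ D u' → op u v = op u' v' → u = u' ∧ v = v')
    (hD : ∀ w, IsPerm w → (D w ↔ ∃ u v, IsPerm u ∧ IsPerm v ∧ u ≠ [] ∧ v ≠ [] ∧ ¬ D u ∧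
      w = op u v))
    (hP : ∀ u v, IsPerm u → IsPerm v → u ≠ [] → v ≠ [] → ¬ D u →
      (P (op u v) ↔ (F1 u ∧ H1 v) ∨ (F2 u ∧ H2 v)))
    (hdisj : ∀ u, F1 u → F2 u → False) :
    G (fun w => P w ∧ D w) = G (fun u => ¬ D u ∧ F1 u) * G H1 + G (fun u => ¬ D u ∧ F2 u) * G H2 := by
  rw [← G_op op D F1 H1 hlen hperm hinj, ← G_op op D F2 H2 hlen hperm hinj, ← G_add]
  · refine G_congr fun w hw hw0 => ?_
    rw [hD w hw]
    constructor
    · rintro ⟨h1, u, v, a1, a2, a3, a4, a5, rfl⟩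
      rcases (hP u v a1 a2 a3 a4 a5).1 h1 with ⟨h2, h3⟩ | ⟨h2, h3⟩
      · exact Or.inl ⟨u, v, a1, a2, a3, a4, a5, h2, h3, rfl⟩
      · exact Or.inr ⟨u, v, a1, a2, a3, a4, a5, h2, h3, rfl⟩
    · rintro (⟨u, v, a1, a2, a3, a4, a5, h2, h3, rfl⟩ | ⟨u, v, a1, a2, a3, a4, a5, h2, h3, rfl⟩)
      · exact ⟨(hP u v a1 a2 a3 a4 a5).2 (Or.inl ⟨h2, h3⟩), u, v, a1, a2, a3, a4, a5, rfl⟩
      · exact ⟨(hP u v a1 a2 a3 a4 a5).2 (Or.inr ⟨h2, h3⟩), u, v, a1, a2, a3, a4, a5, rfl⟩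
  · rintro w hw hw0 ⟨u, v, a1, a2, a3, a4, a5, h2, h3, rfl⟩ ⟨u', v', b1, b2, b3, b4, b5, k2, k3, he⟩
    obtain ⟨r1, r2⟩ := hinj u v u' v' a1 a2 b1 b2 a3 b3 a5 b5 he
    subst r1
    exact hdisj u h2 k2

lemma G_sum (P F1 H1 F2 H2 : List ℕ → Prop)
    (hP : ∀ u v, IsPerm u → IsPerm v → u ≠ [] → v ≠ [] → ¬ SumDec u →
      (P (dsum u v) ↔ (F1 u ∧ H1 v) ∨ (F2 u ∧ H2 v)))
    (hdisj : ∀ u, F1 u → F2 u → False) :
    G (fun w => P w ∧ SumDec w) =
      G (fun u => ¬ SumDec u ∧ F1 u) * G H1 + G (fun u => ¬ SumDec u ∧ F2 u) * G H2 :=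
  G_dec dsum SumDec P F1 H1 F2 H2 dsum_length (fun _ _ h1 h2 => h1.dsum h2)
    (fun _ _ _ _ a1 _ a3 _ a5 a6 a7 a8 a9 => dsum_inj a1 a3 a5 a6 a7 a8 a9)
    (fun _ hw => sumDec_iff hw) hP hdisj

lemma G_skew (P F1 H1 F2 H2 : List ℕ → Prop)
    (hP : ∀ u v, IsPerm u → IsPerm v → u ≠ [] → v ≠ [] → ¬ SkewDec u →
      (P (ssum u v) ↔ (F1 u ∧ H1 v) ∨ (F2 u ∧ H2 v)))
    (hdisj : ∀ u, F1 u → F2 u → False) :
    G (fun w => P w ∧ SkewDec w) =
      G (fun u => ¬ SkewDec u ∧ F1 u) * G H1 + G (fun u => ¬ SkewDec u ∧ F2 u) * G H2 :=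
  G_dec ssum SkewDec P F1 H1 F2 H2 ssum_length (fun _ _ h1 h2 => h1.ssum h2)
    (fun _ _ _ _ _ a2 _ a4 a5 a6 a7 a8 a9 => ssum_inj a2 a4 a5 a6 a7 a8 a9)
    (fun _ hw => skewDec_iff hw) hP hdisj

lemma G_total (P : List ℕ → Prop) (h0 : P [0]) (hS : ∀ w, P w → S w) :
    G P = X + G (fun w => P w ∧ SumDec w) + G (fun w => P w ∧ SkewDec w) := by
  rw [← G_one, ← G_add, ← G_add]
  · refine G_congr fun w hw hw0 => ?_
    constructor
    · intro h
      rcases Nat.lt_or_ge w.length 2 with h1 | h1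
      · exact Or.inl (Or.inl (perm_one hw hw0 h1))
      · rcases separable w hw.nodup h1 (hS w h) with h2 | h2
        · exact Or.inl (Or.inr ⟨h, h2⟩)
        · exact Or.inr ⟨h, h2⟩
    · rintro ((rfl | h) | h)
      · exact h0
      · exact h.1
      · exact h.1
  · rintro w _ _ (rfl | h) h'
    · obtain ⟨-, u, v, hu, hv, he, -⟩ := h'
      have := congrArg List.length he
      rw [List.length_append] at this
      have := List.length_pos_iff.2 hu
      have := List.length_pos_iff.2 hv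
      simp at *
      omega
    · exact not_both h.2 h'.2
  · rintro w _ _ rfl ⟨-, u, v, hu, hv, he, -⟩
    have := congrArg List.length he
    rw [List.length_append] at this
    have := List.length_pos_iff.2 hu
    have := List.length_pos_iff.2 hv
    simp at *
    omega

end Pool.Agent.Q166.Sep
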