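import Mathlib
import Pool.Agent.Q166.SepE

set_option autoImplicit false

namespace Pool.Agent.Q166.Sep

open PowerSeries

lemma Inc_map (v : List ℕ) (k : ℕ) : Inc (v.map (· + k)) ↔ Inc v := by
  unfold Inc; rw [contains_map_add]
lemma Dec_map (v : List ℕ) (k : ℕ) : Dec (v.map (· + k)) ↔ Dec v := by
  unfold Dec; rw [contains_map_add]
lemma A_map (v : List ℕ) (k : ℕ) : A (v.map (· + k)) ↔ A v := by
  unfold A; rw [contains_map_add]
lemma V_map (v : List ℕ) (k : ℕ) : V (v.map (· + k)) ↔ V v := by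
  unfold V; rw [contains_map_add]
lemma S_map (v : List ℕ) (k : ℕ) : S (v.map (· + k)) ↔ S v := by
  unfold S; rw [contains_map_add, contains_map_add]
lemma E_map (v : List ℕ) (k : ℕ) : E (v.map (· + k)) ↔ E v := by
  unfold E; rw [contains_map_add, contains_map_add, S_map]
lemma C_map (v : List ℕ) (k : ℕ) : C (v.map (· + k)) ↔ C v := by
  unfold C; rw [contains_map_add, contains_map_add, contains_map_add, S_map]

lemma map_ne {v : List ℕ} {k : ℕ} (h : v ≠ []) : v.map (· + k) ≠ [] := by simpa using h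

lemma small (w p : List ℕ) (h : w.length < p.length) : ¬ Contains w p := by
  rintro ⟨s, h1, h2⟩
  have := h1.length_le
  have := h2.1
  omega

lemma Dec_zero : Dec [0] := small _ _ (by simp)
lemma Inc_zero : Inc [0] := small _ _ (by simp)
lemma A_zero : A [0] := small _ _ (by simp)
lemma V_zero : V [0] := small _ _ (by simp)
lemma E_zero : E [0] := A_zero.e
lemma C_zero : C [0] := E_zero.c

lemma skewI (P : List ℕ → Prop) (hP : ∀ w, P w → Dec w) (h0 : P [0]) :
    G (fun u => ¬ SkewDec u ∧ P u) = X := by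
  rw [← G_one]
  refine G_congr fun w hw hw0 => ?_
  constructor
  · rintro ⟨h1, h2⟩
    by_contra hcon
    refine h1 ((hP w h2).skew hw.nodup ?_)
    by_contra h3
    exact hcon (perm_one hw hw0 (by omega))
  · rintro rfl
    refine ⟨?_, h0⟩
    rintro ⟨u, v, hu, hv, he, -⟩
    have := congrArg List.length he
    rw [List.length_append, List.length_singleton] at this
    have := List.length_pos_iff.2 hu
    have := List.length_pos_iff.2 hv
    omega

lemma sumI : G (fun u => ¬ SumDec u ∧ Inc u) = X := by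
  rw [← G_one]
  refine G_congr fun w hw hw0 => ?_
  constructor
  · rintro ⟨h1, h2⟩
    by_contra hcon
    refine h1 (h2.sum hw.nodup ?_)
    by_contra h3
    exact hcon (perm_one hw hw0 (by omega))
  · rintro rfl
    refine ⟨?_, Inc_zero⟩
    rintro ⟨u, v, hu, hv, he, -⟩
    have := congrArg List.length he
    rw [List.length_append, List.length_singleton] at this
    have := List.length_pos_iff.2 hu
    have := List.length_pos_iff.2 hv
    omega

lemma G_zero {P : List ℕ → Prop} (h : ∀ w, IsPerm w → w ≠ [] → ¬ P w) : G P = 0 := by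
  rw [← G_false]
  exact G_congr fun w hw hw0 => iff_of_false (h w hw hw0) id

lemma G_compl (P D : List ℕ → Prop) :
    G (fun w => ¬ D w ∧ P w) = G P - G (fun w => P w ∧ D w) := by
  rw [G_split P D]
  ring

/-- `Q` inside `P` -/
lemma G_diff (D P Q : List ℕ → Prop) (h : ∀ w, Q w → P w) :
    G (fun w => ¬ D w ∧ (P w ∧ ¬ Q w)) = G (fun w => ¬ D w ∧ P w) - G (fun w => ¬ D w ∧ Q w) := by
  rw [G_split (fun w => ¬ D w ∧ P w) Q]
  have h1 : G (fun w => (¬ D w ∧ P w) ∧ Q w) = G (fun w => ¬ D w ∧ Q w) :=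
    G_congr fun w _ _ => ⟨fun h => ⟨h.1.1, h.2⟩, fun h' => ⟨⟨h'.1, h w h'.2⟩, h'.2⟩⟩
  have h2 : G (fun w => ¬ Q w ∧ (¬ D w ∧ P w)) = G (fun w => ¬ D w ∧ (P w ∧ ¬ Q w)) :=
    G_congr fun w _ _ => by tauto
  rw [h1, h2]
  ring

/-! ### the equations -/

lemma eq_dec : G Dec = X + X * G Dec := by
  have h1 := G_total Dec Dec_zero (fun w h => h.a.e.1)
  have h2 : G (fun w => Dec w ∧ SumDec w) = 0 := G_zero fun w _ _ h => h.1.not_sum h.2
  have h3 := G_skew Dec Dec Dec (fun _ => False) (fun _ => False) (fun u v hu hv hu0 hv0 hd => by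
    unfold ssum
    rw [Dec_gt (ssum_gt hv), Dec_map]
    tauto) (fun _ _ h => h)
  rw [skewI Dec (fun _ h => h) Dec_zero, G_false] at h3
  rw [h2, h3] at h1
  linear_combination h1

lemma eq_inc : G Inc = X + X * G Inc := by
  have h1 := G_total Inc Inc_zero (fun w h => h.v.c.1)
  have h2 : G (fun w => Inc w ∧ SkewDec w) = 0 := G_zero fun w _ _ h => h.1.not_skew h.2
  have h3 := G_sum Inc Inc Inc (fun _ => False) (fun _ => False) (fun u v hu hv hu0 hv0 hd => by
    unfold dsum
    rw [Inc_lt (dsum_lt hu), Inc_map]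
    tauto) (fun _ _ h => h)
  rw [sumI, G_false] at h3
  rw [h2, h3] at h1
  linear_combination h1

lemma Dec.e {w : List ℕ} (h : Dec w) : E w := h.a.e
lemma Dec.c {w : List ℕ} (h : Dec w) : C w := h.a.e.c

lemma eq_A1 : G (fun w => A w ∧ SumDec w) = (G A - G (fun w => A w ∧ SumDec w)) * G A := by
  have h3 := G_sum A A A (fun _ => False) (fun _ => False) (fun u v hu hv hu0 hv0 hd => by
    unfold dsum
    rw [A_lt (dsum_lt hu), A_map]
    tauto) (fun _ _ h => h)
  rw [G_compl A SumDec, G_false] at h3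
  linear_combination h3

lemma eq_A2 : G A = X + G (fun w => A w ∧ SumDec w) + X * G A := by
  have h1 := G_total A A_zero (fun w h => h.e.1)
  have h3 := G_skew A Dec A (fun _ => False) (fun _ => False) (fun u v hu hv hu0 hv0 hd => by
    unfold ssum
    rw [A_gt (ssum_gt hv) hv0, Dec_map]
    tauto) (fun _ _ h => h)
  rw [skewI Dec (fun _ h => h) Dec_zero, G_false] at h3
  rw [h3] at h1
  linear_combination h1

lemma eq_V1 : G (fun w => V w ∧ SumDec w) = (G V - G (fun w => V w ∧ SumDec w)) * G Inc := by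
  have h3 := G_sum V V Inc (fun _ => False) (fun _ => False) (fun u v hu hv hu0 hv0 hd => by
    unfold dsum
    rw [V_lt (dsum_lt hu) hu0, Inc_map]
    tauto) (fun _ _ h => h)
  rw [G_compl V SumDec, G_false] at h3
  linear_combination h3

lemma eq_V2 : G (fun w => V w ∧ SkewDec w) = (G V - G (fun w => V w ∧ SkewDec w)) * G V := by
  have h3 := G_skew V V V (fun _ => False) (fun _ => False) (fun u v hu hv hu0 hv0 hd => by
    unfold ssum
    rw [V_gt (ssum_gt hv), V_map]
    tauto) (fun _ _ h => h)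
  rw [G_compl V SkewDec, G_false] at h3
  linear_combination h3

lemma eq_V3 : G V = X + G (fun w => V w ∧ SumDec w) + G (fun w => V w ∧ SkewDec w) :=
  G_total V V_zero (fun w h => h.c.1)

lemma eq_E1 : G (fun w => E w ∧ SumDec w) = (G E - G (fun w => E w ∧ SumDec w)) * G A := by
  have h3 := G_sum E E A (fun _ => False) (fun _ => False) (fun u v hu hv hu0 hv0 hd => by
    unfold dsum
    rw [E_lt (dsum_lt hu) hu0, A_map]
    tauto) (fun _ _ h => h)
  rw [G_compl E SumDec, G_false] at h3
  linear_combination h3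

lemma eq_E2 : G (fun w => E w ∧ SkewDec w) =
    X * G E + ((G E - G (fun w => E w ∧ SkewDec w)) - X) * G Dec := by
  have h3 := G_skew E Dec E (fun u => E u ∧ ¬ Dec u) Dec (fun u v hu hv hu0 hv0 hd => by
    have e1 := fun h : Dec u => h.e
    have e2 := fun h : Dec v => h.e
    unfold ssum
    rw [E_gt (ssum_gt hv), Dec_map, E_map]
    tauto) (fun _ h h' => h'.2 h)
  rw [skewI Dec (fun _ h => h) Dec_zero, G_diff SkewDec E Dec (fun _ h => h.e),
    skewI Dec (fun _ h => h) Dec_zero, G_compl E SkewDec] at h3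
  exact h3

lemma eq_E3 : G E = X + G (fun w => E w ∧ SumDec w) + G (fun w => E w ∧ SkewDec w) :=
  G_total E E_zero (fun w h => h.1)

lemma sumD : G (fun u => ¬ SumDec u ∧ Dec u) = G Dec :=
  G_congr fun w _ _ => ⟨fun h => h.2, fun h => ⟨h.not_sum, h⟩⟩

lemma eq_C1 : G (fun w => C w ∧ SumDec w) =
    G Dec * G E + ((G C - G (fun w => C w ∧ SumDec w)) - G Dec) * G A := by
  have h3 := G_sum C Dec E (fun u => C u ∧ ¬ Dec u) A (fun u v hu hv hu0 hv0 hd => by
    have e1 := fun h : Dec u => h.c
    have e2 := fun h : A v => h.e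
    unfold dsum
    rw [C_lt (dsum_lt hu) hu0, E_map, A_map]
    tauto) (fun _ h h' => h'.2 h)
  rw [sumD, G_diff SumDec C Dec (fun _ h => h.c), sumD, G_compl C SumDec] at h3
  exact h3

lemma eq_C2 : G (fun w => C w ∧ SkewDec w) =
    (G V - G (fun w => V w ∧ SkewDec w)) * G C +
      ((G C - G (fun w => C w ∧ SkewDec w)) - (G V - G (fun w => V w ∧ SkewDec w))) * G Dec := by
  have h3 := G_skew C V C (fun u => C u ∧ ¬ V u) Dec (fun u v hu hv hu0 hv0 hd => by
    have e1 := fun h : V u => h.c
    have e2 := fun h : Dec v => h.c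
    unfold ssum
    rw [C_gt (ssum_gt hv), V_map, C_map]
    tauto) (fun _ h h' => h'.2 h)
  rw [G_diff SkewDec C V (fun _ h => h.c), G_compl V SkewDec, G_compl C SkewDec] at h3
  exact h3

lemma eq_C3 : G C = X + G (fun w => C w ∧ SumDec w) + G (fun w => C w ∧ SkewDec w) :=
  G_total C C_zero (fun w h => h.1)

/-- the algebra -/
lemma algebra (x d i a aS v vS vK e eS eK c cS cK : PowerSeries ℤ)
    (hx : x = X) (ha0 : constantCoeff a = 0) (hv0 : constantCoeff v = 0)
    (hd : d = x + x * d) (hi : i = x + x * i)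
    (hA1 : aS = (a - aS) * a) (hA2 : a = x + aS + x * a)
    (hV1 : vS = (v - vS) * i) (hV2 : vK = (v - vK) * v) (hV3 : v = x + vS + vK)
    (hE1 : eS = (e - eS) * a) (hE2 : eK = x * e + ((e - eK) - x) * d) (hE3 : e = x + eS + eK)
    (hC1 : cS = d * e + ((c - cS) - d) * a)
    (hC2 : cK = (v - vK) * c + ((c - cK) - (v - vK)) * d) (hC3 : c = x + cS + cK) :
    (1 - 6 * x + 9 * x ^ 2 - 5 * x ^ 3 + x ^ 4) * c = x - 4 * x ^ 2 + 3 * x ^ 3 - x ^ 4 := by
  have cx : constantCoeff x = 0 := by rw [hx]; simp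
  have hne : ∀ f : PowerSeries ℤ, constantCoeff f = 1 → f ≠ 0 := by
    rintro f hf rfl
    simp at hf
  have a1 : a = x * (1 + a) ^ 2 := by
    have h1 : aS * (1 + a) = a * a := by linear_combination hA1
    linear_combination (1 + a) * hA2 + h1
  have v1 : v = x * (1 + v) ^ 2 := by
    have h1 : vK * (1 + v) = v * v := by linear_combination hV2
    have h2 : vS = v * x := by
      have h3 : (1 - x) * (1 + i) = 1 := by linear_combination hi
      have h4 : vS * (1 + i) = v * i := by linear_combination hV1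
      have h5 : (1 - x) * i = x := by linear_combination hi
      linear_combination (1 - x) * h4 - vS * h3 + v * h5
    linear_combination (1 + v) * hV3 + h1 + (1 + v) * h2
  have hva : v = a := by
    have h1 : (v - a) * (1 - x * (2 + v + a)) = 0 := by linear_combination v1 - a1
    have h2 : (1 - x * (2 + v + a)) ≠ 0 := hne _ (by simp [cx])
    have h3 := (mul_eq_zero.1 h1).resolve_right h2
    linear_combination h3
  have hw : v - vK = x * (1 + a) := by
    have h1 : (v - vK) * (1 + v) = v := by linear_combination -hV2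
    rw [hva] at h1 ⊢
    have h2 : (a - vK - x * (1 + a)) * (1 + a) = 0 := by linear_combination h1 + a1
    have h3 : (1 + a) ≠ 0 := hne _ (by simp [ha0])
    have h4 := (mul_eq_zero.1 h2).resolve_right h3
    linear_combination h4
  have hd1 : (1 - x) * d = x := by linear_combination hd
  have hd2 : (1 - x) * (1 + d) = 1 := by linear_combination hd
  have e1 : e = (1 + a) * (x + 2 * x * e - x ^ 2 * e - x ^ 2) := by
    have h1 : eK = 2 * x * e - x ^ 2 * e - x ^ 2 := by
      have h2 : eK * (1 + d) = x * e + (e - x) * d := by linear_combination hE2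
      linear_combination (1 - x) * h2 - eK * hd2 + (e - x) * hd1
    have h3 : (e - eS) * (1 + a) = e := by linear_combination -hE1
    have h4 : e - eS = x + eK := by linear_combination hE3
    rw [h4, h1] at h3
    linear_combination -h3
  have c1 : (1 - x) * (1 - a - x) * c = (1 - x) * x + x * (e - a) := by
    have h1 : cK = (1 - x) * (v - vK) * c + (c - (v - vK)) * x := by
      have h2 : cK * (1 + d) = (v - vK) * c + (c - (v - vK)) * d := by linear_combination hC2
      linear_combination (1 - x) * h2 - cK * hd2 + (c - (v - vK)) * hd1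
    rw [hw] at h1
    have h3 : (c - cS) * (1 + a) = c - d * e + d * a := by linear_combination -hC1
    have h4 : c - cS = x + cK := by linear_combination hC3
    rw [h4, h1] at h3
    linear_combination (-(1 - x)) * h3 + (e - a) * hd1
      - (1 - x) * ((1 - x) * c - x) * a1
  set K := 1 + a with hK
  have hKK : K = 1 + x * K ^ 2 := by rw [hK]; linear_combination a1
  have e2 : e * (1 - (2 * x - x ^ 2) * K) = x * (1 - x) * K := by linear_combination e1
  have c2 : (1 - x) * (2 - x - K) * c = (1 - x) * x + x * (e - (K - 1)) := by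
    rw [hK]; linear_combination c1
  have hfac : (1 - x) * (2 - x - K) * (1 - (2 * x - x ^ 2) * K) ≠ 0 :=
    hne _ (by
      have h2 : constantCoeff (2 : PowerSeries ℤ) = 2 := map_ofNat _ 2
      rw [hK]
      simp [cx, ha0, h2])
  refine mul_left_cancel₀ hfac ?_
  linear_combination (1 - 6 * x + 9 * x ^ 2 - 5 * x ^ 3 + x ^ 4) * (1 - (2 * x - x ^ 2) * K) * c2 +
    (1 - 6 * x + 9 * x ^ 2 - 5 * x ^ 3 + x ^ 4) * x * e2 + (x ^ 2 * (2 - x) * (1 - x) ^ 2) * hKK

theorem main : (1 - 6 * X + 9 * X ^ 2 - 5 * X ^ 3 + X ^ 4) * G C =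
    X - 4 * X ^ 2 + 3 * X ^ 3 - X ^ 4 :=
  algebra X (G Dec) (G Inc) (G A) _ (G V) _ _ (G E) _ _ (G C) _ _ rfl (G_const _) (G_const _)
    eq_dec eq_inc eq_A1 eq_A2 eq_V1 eq_V2 eq_V3 eq_E1 eq_E2 eq_E3 eq_C1 eq_C2 eq_C3

end Pool.Agent.Q166.Sep
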