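import Mathlib

/-!
Prepending a letter to a permutation; shaded patterns of length 4; descents.
-/

set_option autoImplicit false

namespace Q166.Shade

open Equiv

/-- the number of descents of a permutation -/
def des {n : ℕ} (σ : Perm (Fin n)) : ℕ :=
  (Finset.univ.filter fun i : Fin n => ∃ h : i.val + 1 < n, σ ⟨i.val + 1, h⟩ < σ i).card

/-- `σ` contains the shaded pattern `p`: there is an occurrence of the classical pattern `p`
in `σ` whose first two letters are adjacent in `σ` -/
def Contains {n : ℕ} (p : Fin 4 → ℕ) (σ : Perm (Fin n)) : Prop :=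
  ∃ f : Fin 4 → Fin n, StrictMono f ∧ (f 1).val = (f 0).val + 1 ∧
    ∀ a b : Fin 4, σ (f a) < σ (f b) ↔ p a < p b

/-- the number of ascents -/
def asc {n : ℕ} (σ : Perm (Fin n)) : ℕ :=
  (Finset.univ.filter fun i : Fin n => ∃ h : i.val + 1 < n, σ i < σ ⟨i.val + 1, h⟩).card

/-- prepend the letter `y` -/
def pre {n : ℕ} (x : Fin (n + 1) × Perm (Fin n)) : Perm (Fin (n + 1)) :=
  ((finSuccEquiv' 0).trans (Equiv.optionCongr x.2)).trans (finSuccEquiv' x.1).symm

theorem pre_zero {n : ℕ} (y : Fin (n + 1)) (τ : Perm (Fin n)) : pre (y, τ) 0 = y := by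
  simp [pre]

theorem pre_succ {n : ℕ} (y : Fin (n + 1)) (τ : Perm (Fin n)) (i : Fin n) :
    pre (y, τ) i.succ = y.succAbove (τ i) := by
  have h : i.succ = (0 : Fin (n + 1)).succAbove i := by simp
  rw [h]
  simp only [pre, Equiv.trans_apply, finSuccEquiv'_succAbove, Equiv.optionCongr_apply,
    Option.map_some, finSuccEquiv'_symm_some]

theorem pre_bij {n : ℕ} : Function.Bijective (pre (n := n)) := by
  rw [Fintype.bijective_iff_injective_and_card]
  constructor
  · rintro ⟨p, τ⟩ ⟨p', τ'⟩ h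
    have h1 : p = p' := by
      rw [← pre_zero p τ, h, pre_zero]
    subst h1
    have h2 : τ = τ' := by
      apply Equiv.ext
      intro i
      have h3 : pre (p, τ) i.succ = pre (p, τ') i.succ := by rw [h]
      rw [pre_succ, pre_succ] at h3
      exact Fin.succAbove_right_injective h3
    rw [h2]
  · simp [Fintype.card_perm, Nat.factorial_succ]

theorem exists_pre {n : ℕ} (σ : Perm (Fin (n + 1))) : ∃ y τ, σ = pre (y, τ) := by
  obtain ⟨⟨y, τ⟩, h⟩ := pre_bij.2 σ
  exact ⟨y, τ, h.symm⟩

/-- ascents after prepending -/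
theorem asc_pre {n : ℕ} (y : Fin (n + 2)) (τ : Perm (Fin (n + 1))) :
    asc (pre (y, τ)) = asc τ + if y.val ≤ (τ 0).val then 1 else 0 := by
  unfold asc
  rw [Finset.card_filter, Finset.card_filter, Fin.sum_univ_succ, add_comm]
  congr 1
  · apply Finset.sum_congr rfl
    intro i _
    have : (∃ h : i.succ.val + 1 < n + 1 + 1,
        (pre (y, τ)) i.succ < (pre (y, τ)) ⟨i.succ.val + 1, h⟩) ↔
        ∃ h : i.val + 1 < n + 1, τ i < τ ⟨i.val + 1, h⟩ := by
      constructor
      · rintro ⟨h, h2⟩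
        rw [Fin.val_succ] at h
        refine ⟨by omega, ?_⟩
        have e : (⟨i.succ.val + 1, by rw [Fin.val_succ]; omega⟩ : Fin (n + 1 + 1))
          = (⟨i.val + 1, by omega⟩ : Fin (n + 1)).succ := by
          apply Fin.ext; simp
        rw [e, pre_succ, pre_succ, Fin.succAbove_lt_succAbove_iff] at h2
        exact h2
      · rintro ⟨h, h2⟩
        refine ⟨by rw [Fin.val_succ]; omega, ?_⟩
        have e : (⟨i.succ.val + 1, by rw [Fin.val_succ]; omega⟩ : Fin (n + 1 + 1))
          = (⟨i.val + 1, by omega⟩ : Fin (n + 1)).succ := by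
          apply Fin.ext; simp
        rw [e, pre_succ, pre_succ, Fin.succAbove_lt_succAbove_iff]
        exact h2
    simp only [this]
  · have : (∃ h : (0 : Fin (n + 1 + 1)).val + 1 < n + 1 + 1,
        (pre (y, τ)) 0 < (pre (y, τ)) ⟨(0 : Fin (n + 1 + 1)).val + 1, h⟩) ↔
        y.val ≤ (τ 0).val := by
      have e : ∀ h : (0 : Fin (n + 1 + 1)).val + 1 < n + 1 + 1,
          (⟨(0 : Fin (n + 1 + 1)).val + 1, h⟩ : Fin (n + 1 + 1)) = (0 : Fin (n + 1)).succ := by
        intro h; apply Fin.ext; simp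
      constructor
      · rintro ⟨h, h2⟩
        rw [e h, pre_zero, pre_succ, Fin.lt_succAbove_iff_le_castSucc] at h2
        exact h2
      · intro h2
        refine ⟨by simp, ?_⟩
        rw [e, pre_zero, pre_succ, Fin.lt_succAbove_iff_le_castSucc]
        exact h2
    simp only [this]

/-- descents after prepending -/
theorem des_pre {n : ℕ} (y : Fin (n + 2)) (τ : Perm (Fin (n + 1))) :
    des (pre (y, τ)) = des τ + if (τ 0).val < y.val then 1 else 0 := by
  unfold des
  rw [Finset.card_filter, Finset.card_filter, Fin.sum_univ_succ, add_comm]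
  congr 1
  · apply Finset.sum_congr rfl
    intro i _
    have : (∃ h : i.succ.val + 1 < n + 1 + 1,
        (pre (y, τ)) ⟨i.succ.val + 1, h⟩ < (pre (y, τ)) i.succ) ↔
        ∃ h : i.val + 1 < n + 1, τ ⟨i.val + 1, h⟩ < τ i := by
      constructor
      · rintro ⟨h, h2⟩
        rw [Fin.val_succ] at h
        refine ⟨by omega, ?_⟩
        have e : (⟨i.succ.val + 1, by rw [Fin.val_succ]; omega⟩ : Fin (n + 1 + 1))
          = (⟨i.val + 1, by omega⟩ : Fin (n + 1)).succ := by
          apply Fin.ext; simp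
        rw [e, pre_succ, pre_succ, Fin.succAbove_lt_succAbove_iff] at h2
        exact h2
      · rintro ⟨h, h2⟩
        refine ⟨by rw [Fin.val_succ]; omega, ?_⟩
        have e : (⟨i.succ.val + 1, by rw [Fin.val_succ]; omega⟩ : Fin (n + 1 + 1))
          = (⟨i.val + 1, by omega⟩ : Fin (n + 1)).succ := by
          apply Fin.ext; simp
        rw [e, pre_succ, pre_succ, Fin.succAbove_lt_succAbove_iff]
        exact h2
    simp only [this]
  · have : (∃ h : (0 : Fin (n + 1 + 1)).val + 1 < n + 1 + 1,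
        (pre (y, τ)) ⟨(0 : Fin (n + 1 + 1)).val + 1, h⟩ < (pre (y, τ)) 0) ↔
        (τ 0).val < y.val := by
      have e : ∀ h : (0 : Fin (n + 1 + 1)).val + 1 < n + 1 + 1,
          (⟨(0 : Fin (n + 1 + 1)).val + 1, h⟩ : Fin (n + 1 + 1)) = (0 : Fin (n + 1)).succ := by
        intro h; apply Fin.ext; simp
      constructor
      · rintro ⟨h, h2⟩
        rw [e h, pre_zero, pre_succ, Fin.succAbove_lt_iff_castSucc_lt] at h2
        exact h2
      · intro h2
        refine ⟨by simp, ?_⟩
        rw [e, pre_zero, pre_succ, Fin.succAbove_lt_iff_castSucc_lt]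
        exact h2
    simp only [this]

/-- the values below `m` appear in decreasing order -/
def Dec {n : ℕ} (τ : Perm (Fin n)) (m : ℕ) : Prop :=
  ∀ a b : Fin n, a < b → (τ a).val < m → (τ b).val < m → τ b < τ a

theorem Dec.mono {n : ℕ} {τ : Perm (Fin n)} {m m' : ℕ} (h : Dec τ m) (hm : m' ≤ m) : Dec τ m' :=
  fun a b hab h1 h2 => h a b hab (by omega) (by omega)

theorem Dec_zero {n : ℕ} (τ : Perm (Fin n)) : Dec τ 0 := fun _ _ _ h _ => absurd h (by omega)

theorem val_succAbove_lt {n : ℕ} (y : Fin (n + 1)) (x : Fin n) (m : ℕ) (hm : m ≤ y.val) :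
    (y.succAbove x).val < m ↔ x.val < m := by
  by_cases h : x.castSucc < y
  · rw [Fin.succAbove_of_castSucc_lt _ _ h]; simp
  · rw [Fin.succAbove_of_le_castSucc _ _ (not_lt.mp h)]
    have : y.val ≤ x.val := by
      have := not_lt.mp h
      exact this
    simp only [Fin.val_succ]
    constructor <;> intro h' <;> omega

theorem val_succAbove_lt' {n : ℕ} (y : Fin (n + 1)) (x : Fin n) :
    (y.succAbove x).val < y.val + 1 ↔ x.val < y.val := by
  by_cases h : x.castSucc < y
  · rw [Fin.succAbove_of_castSucc_lt _ _ h]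
    have : x.val < y.val := h
    simp only [Fin.val_castSucc]; omega
  · rw [Fin.succAbove_of_le_castSucc _ _ (not_lt.mp h)]
    have : y.val ≤ x.val := by
      have := not_lt.mp h
      exact this
    simp only [Fin.val_succ]
    constructor <;> intro h' <;> omega

theorem Dec_pre_le {n : ℕ} (y : Fin (n + 1)) (τ : Perm (Fin n)) (m : ℕ) (hm : m ≤ y.val) :
    Dec (pre (y, τ)) m ↔ Dec τ m := by
  constructor
  · intro h a b hab h1 h2
    have h3 := h a.succ b.succ (Fin.succ_lt_succ_iff.mpr hab)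
    rw [pre_succ, pre_succ, val_succAbove_lt _ _ _ hm, val_succAbove_lt _ _ _ hm,
      Fin.succAbove_lt_succAbove_iff] at h3
    exact h3 h1 h2
  · intro h a b hab h1 h2
    rcases Fin.eq_zero_or_eq_succ a with rfl | ⟨a', rfl⟩
    · rw [pre_zero] at h1; omega
    rcases Fin.eq_zero_or_eq_succ b with rfl | ⟨b', rfl⟩
    · rw [pre_zero] at h2; omega
    rw [pre_succ, val_succAbove_lt _ _ _ hm] at h1 h2
    rw [pre_succ, pre_succ, Fin.succAbove_lt_succAbove_iff]
    exact h a' b' (Fin.succ_lt_succ_iff.mp hab) h1 h2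

theorem Dec_pre_succ {n : ℕ} (y : Fin (n + 1)) (τ : Perm (Fin n)) :
    Dec (pre (y, τ)) (y.val + 1) ↔ Dec τ y.val := by
  constructor
  · intro h
    exact (Dec_pre_le y τ y.val le_rfl).mp (h.mono (by omega))
  · intro h a b hab h1 h2
    rcases Fin.eq_zero_or_eq_succ b with rfl | ⟨b', rfl⟩
    · exact absurd hab (by simp)
    rw [pre_succ, val_succAbove_lt'] at h2
    rcases Fin.eq_zero_or_eq_succ a with rfl | ⟨a', rfl⟩
    · rw [pre_zero, pre_succ, Fin.succAbove_lt_iff_castSucc_lt]
      exact h2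
    rw [pre_succ, val_succAbove_lt'] at h1
    rw [pre_succ, pre_succ, Fin.succAbove_lt_succAbove_iff]
    exact h a' b' (Fin.succ_lt_succ_iff.mp hab) h1 h2

theorem not_Dec_pre {n : ℕ} (y : Fin (n + 1)) (τ : Perm (Fin n)) (m : ℕ) (h1 : y.val + 1 < m)
    (h2 : m ≤ n + 1) : ¬ Dec (pre (y, τ)) m := by
  intro h
  set σ := pre (y, τ)
  set b := σ.symm ⟨y.val + 1, by omega⟩ with hb
  have hσb : σ b = ⟨y.val + 1, by omega⟩ := by rw [hb]; simp
  have h0 : σ 0 = y := pre_zero y τ
  have hb0 : (0 : Fin (n + 1)) < b := by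
    rw [Fin.pos_iff_ne_zero]
    intro h3
    rw [h3, h0] at hσb
    have := congrArg Fin.val hσb
    simp at this
  have h4 := h 0 b hb0 (by rw [h0]; omega) (by rw [hσb]; exact h1)
  rw [h0, hσb] at h4
  have : y.val + 1 < y.val := h4
  omega

/-- the largest `m ≤ n` such that the values below `m` appear in decreasing order -/
noncomputable def M {n : ℕ} (τ : Perm (Fin n)) : ℕ :=
  @Nat.findGreatest (fun m => Dec τ m) (Classical.decPred _) n

theorem M_le {n : ℕ} (τ : Perm (Fin n)) : M τ ≤ n :=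
  @Nat.findGreatest_le (fun m => Dec τ m) (Classical.decPred _) n

theorem Dec_M {n : ℕ} (τ : Perm (Fin n)) : Dec τ (M τ) := by
  classical
  unfold M
  exact Nat.findGreatest_spec (P := fun m => Dec τ m) (Nat.zero_le n) (Dec_zero τ)

theorem Dec_iff {n : ℕ} (τ : Perm (Fin n)) (m : ℕ) (hm : m ≤ n) : Dec τ m ↔ m ≤ M τ := by
  classical
  constructor
  · intro h
    unfold M
    exact Nat.le_findGreatest hm h
  · intro h
    exact (Dec_M τ).mono h

theorem M_pre {n : ℕ} (y : Fin (n + 1)) (τ : Perm (Fin n)) :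
    M (pre (y, τ)) = if y.val ≤ M τ then y.val + 1 else M τ := by
  have hy := y.2
  have hM := M_le (pre (y, τ))
  have hMt := M_le τ
  have hD := Dec_M (pre (y, τ))
  split_ifs with h
  · have h1 : y.val + 1 ≤ M (pre (y, τ)) := by
      rw [← Dec_iff _ _ (by omega), Dec_pre_succ, Dec_iff _ _ (by omega)]
      exact h
    by_contra h2
    exact not_Dec_pre y τ (M (pre (y, τ))) (by omega) hM hD
  · have h1 : M τ ≤ M (pre (y, τ)) := by
      rw [← Dec_iff _ _ (by omega), Dec_pre_le _ _ _ (by omega)]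
      exact Dec_M τ
    have h2 : M (pre (y, τ)) ≤ y.val := by
      by_contra h3
      have h4 : Dec (pre (y, τ)) (y.val + 1) := hD.mono (by omega)
      rw [Dec_pre_succ, Dec_iff _ _ (by omega)] at h4
      exact h h4
    have h5 : M (pre (y, τ)) ≤ M τ := by
      rw [← Dec_iff _ _ (by omega), ← Dec_pre_le y τ _ h2]
      exact hD
    omega

/-- the state facts -/
theorem state {n : ℕ} (σ : Perm (Fin (n + 1))) :
    1 ≤ M σ ∧ (σ 0).val ≤ n ∧ (M σ = (σ 0).val + 1 ∨ M σ < (σ 0).val) := by
  obtain ⟨y, τ, rfl⟩ := exists_pre σ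
  rw [M_pre, pre_zero]
  have hy := y.2
  split_ifs with h
  · omega
  · refine ⟨?_, by omega, by omega⟩
    -- M τ ≥ 1 since n ≥ 1
    have hn : 1 ≤ n := by omega
    rw [← Dec_iff _ _ hn]
    intro a b hab h1 h2
    exfalso
    have : τ a = τ b := Fin.ext (by omega)
    exact absurd (τ.injective this) (ne_of_lt hab)

end Q166.Shade
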