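import Mathlib
import Pool.Agent.Q166.ShadePre

/-!
Avoidance of the shaded patterns 43-1-2 and 34-1-2 under prepending.
-/

set_option autoImplicit false

namespace Q166.Shade

open Equiv

/-- `σ` avoids 34-1-2 (first two letters adjacent) -/
def Av2 {n : ℕ} (σ : Perm (Fin n)) : Prop :=
  ∀ (i a b : Fin n) (h : i.val + 1 < n), i.val + 1 < a.val → a < b → σ a < σ b → σ b < σ i →
    σ i < σ ⟨i.val + 1, h⟩ → False

/-- `σ` avoids 43-1-2 (first two letters adjacent) -/
def Av1 {n : ℕ} (σ : Perm (Fin n)) : Prop :=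
  ∀ (i a b : Fin n) (h : i.val + 1 < n), i.val + 1 < a.val → a < b → σ a < σ b →
    σ b < σ ⟨i.val + 1, h⟩ → σ ⟨i.val + 1, h⟩ < σ i → False

theorem Av2_pre {n : ℕ} (y : Fin (n + 2)) (τ : Perm (Fin (n + 1))) :
    Av2 (pre (y, τ)) ↔ Av2 τ ∧ ((τ 0).val < y.val ∨ y.val ≤ M τ) := by
  have hyM : y.val ≤ M τ ↔ Dec τ y.val := (Dec_iff τ y.val (by omega)).symm
  constructor
  · intro H
    constructor
    · intro i a b h h1 h2 h3 h4 h5
      refine H i.succ a.succ b.succ (by rw [Fin.val_succ]; omega)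
        (by rw [Fin.val_succ, Fin.val_succ]; omega) (Fin.succ_lt_succ_iff.mpr h2) ?_ ?_ ?_
      · rw [pre_succ, pre_succ, Fin.succAbove_lt_succAbove_iff]; exact h3
      · rw [pre_succ, pre_succ, Fin.succAbove_lt_succAbove_iff]; exact h4
      · have e : (⟨i.succ.val + 1, by rw [Fin.val_succ]; omega⟩ : Fin (n + 1 + 1))
          = (⟨i.val + 1, by omega⟩ : Fin (n + 1)).succ := by
          apply Fin.ext; simp
        rw [e, pre_succ, pre_succ, Fin.succAbove_lt_succAbove_iff]; exact h5
    · by_contra hc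
      rw [not_or, hyM] at hc
      obtain ⟨hc1, hc2⟩ := hc
      unfold Dec at hc2
      push Not at hc2
      obtain ⟨a, b, hab, h1, h2, h3⟩ := hc2
      have h3' : τ a < τ b := lt_of_le_of_ne h3 (fun h => absurd (τ.injective h) (ne_of_lt hab))
      have ha : 0 < a.val := by
        rcases Nat.eq_zero_or_pos a.val with h0 | h0
        · have : a = 0 := Fin.ext h0
          rw [this] at h1
          omega
        · exact h0
      refine H 0 a.succ b.succ (by simp) (by rw [Fin.val_succ]; show 0 + 1 < a.val + 1; omega)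
        (Fin.succ_lt_succ_iff.mpr hab) ?_ ?_ ?_
      · rw [pre_succ, pre_succ, Fin.succAbove_lt_succAbove_iff]; exact h3'
      · rw [pre_succ, pre_zero, Fin.succAbove_lt_iff_castSucc_lt]; exact h2
      · have e : (⟨(0 : Fin (n + 1 + 1)).val + 1, by simp⟩ : Fin (n + 1 + 1))
          = (0 : Fin (n + 1)).succ := by
          apply Fin.ext; simp
        rw [e, pre_succ, pre_zero, Fin.lt_succAbove_iff_le_castSucc]
        exact not_lt.mp hc1
  · rintro ⟨H, hok⟩ i a b h h1 h2 h3 h4 h5
    have ha0 : a ≠ 0 := by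
      intro h'; rw [h'] at h1; simp at h1
    obtain ⟨a', rfl⟩ := Fin.exists_succ_eq.mpr ha0
    have hb0 : b ≠ 0 := by
      intro h'; rw [h'] at h2; simp at h2
    obtain ⟨b', rfl⟩ := Fin.exists_succ_eq.mpr hb0
    rw [pre_succ, pre_succ, Fin.succAbove_lt_succAbove_iff] at h3
    rw [Fin.succ_lt_succ_iff] at h2
    rw [Fin.val_succ] at h1
    rcases Fin.eq_zero_or_eq_succ i with rfl | ⟨i', rfl⟩
    · have e : (⟨(0 : Fin (n + 1 + 1)).val + 1, h⟩ : Fin (n + 1 + 1))
          = (0 : Fin (n + 1)).succ := by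
          apply Fin.ext; simp
      rw [e, pre_succ, pre_zero, Fin.lt_succAbove_iff_le_castSucc] at h5
      rw [pre_succ, pre_zero, Fin.succAbove_lt_iff_castSucc_lt] at h4
      have h5' : y.val ≤ (τ 0).val := h5
      have h4' : (τ b').val < y.val := h4
      have h3' : (τ a').val < (τ b').val := h3
      rcases hok with hok | hok
      · omega
      · rw [hyM] at hok
        have := hok a' b' h2 (by omega) h4'
        have h6 : (τ b').val < (τ a').val := this
        omega
    · have e : (⟨i'.succ.val + 1, h⟩ : Fin (n + 1 + 1))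
          = (⟨i'.val + 1, by rw [Fin.val_succ] at h; omega⟩ : Fin (n + 1)).succ := by
          apply Fin.ext; simp
      rw [e, pre_succ, pre_succ, Fin.succAbove_lt_succAbove_iff] at h5
      rw [pre_succ, pre_succ, Fin.succAbove_lt_succAbove_iff] at h4
      rw [Fin.val_succ] at h1
      exact H i' a' b' (by rw [Fin.val_succ] at h; omega) (by omega) h2 h3 h4 h5

theorem Av1_pre {n : ℕ} (y : Fin (n + 2)) (τ : Perm (Fin (n + 1))) :
    Av1 (pre (y, τ)) ↔ Av1 τ ∧ (y.val ≤ (τ 0).val ∨ (τ 0).val ≤ M τ) := by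
  have hyM : (τ 0).val ≤ M τ ↔ Dec τ (τ 0).val := (Dec_iff τ _ (by omega)).symm
  constructor
  · intro H
    constructor
    · intro i a b h h1 h2 h3 h4 h5
      have e : (⟨i.succ.val + 1, by rw [Fin.val_succ]; omega⟩ : Fin (n + 1 + 1))
          = (⟨i.val + 1, by omega⟩ : Fin (n + 1)).succ := by
          apply Fin.ext; simp
      refine H i.succ a.succ b.succ (by rw [Fin.val_succ]; omega)
        (by rw [Fin.val_succ, Fin.val_succ]; omega) (Fin.succ_lt_succ_iff.mpr h2) ?_ ?_ ?_
      · rw [pre_succ, pre_succ, Fin.succAbove_lt_succAbove_iff]; exact h3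
      · rw [e, pre_succ, pre_succ, Fin.succAbove_lt_succAbove_iff]; exact h4
      · rw [e, pre_succ, pre_succ, Fin.succAbove_lt_succAbove_iff]; exact h5
    · by_contra hc
      rw [not_or, hyM] at hc
      obtain ⟨hc1, hc2⟩ := hc
      unfold Dec at hc2
      push Not at hc2
      obtain ⟨a, b, hab, h1, h2, h3⟩ := hc2
      have h3' : τ a < τ b := lt_of_le_of_ne h3 (fun h => absurd (τ.injective h) (ne_of_lt hab))
      have ha : 0 < a.val := by
        rcases Nat.eq_zero_or_pos a.val with h0 | h0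
        · have : a = 0 := Fin.ext h0
          rw [this] at h1
          omega
        · exact h0
      have e : (⟨(0 : Fin (n + 1 + 1)).val + 1, by simp⟩ : Fin (n + 1 + 1))
          = (0 : Fin (n + 1)).succ := by
          apply Fin.ext; simp
      refine H 0 a.succ b.succ (by simp) (by rw [Fin.val_succ]; show 0 + 1 < a.val + 1; omega)
        (Fin.succ_lt_succ_iff.mpr hab) ?_ ?_ ?_
      · rw [pre_succ, pre_succ, Fin.succAbove_lt_succAbove_iff]; exact h3'
      · rw [e, pre_succ, pre_succ, Fin.succAbove_lt_succAbove_iff]; exact h2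
      · rw [e, pre_succ, pre_zero, Fin.succAbove_lt_iff_castSucc_lt]
        exact not_le.mp hc1
  · rintro ⟨H, hok⟩ i a b h h1 h2 h3 h4 h5
    have ha0 : a ≠ 0 := by
      intro h'; rw [h'] at h1; simp at h1
    obtain ⟨a', rfl⟩ := Fin.exists_succ_eq.mpr ha0
    have hb0 : b ≠ 0 := by
      intro h'; rw [h'] at h2; simp at h2
    obtain ⟨b', rfl⟩ := Fin.exists_succ_eq.mpr hb0
    rw [pre_succ, pre_succ, Fin.succAbove_lt_succAbove_iff] at h3
    rw [Fin.succ_lt_succ_iff] at h2
    rw [Fin.val_succ] at h1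
    rcases Fin.eq_zero_or_eq_succ i with rfl | ⟨i', rfl⟩
    · have e : (⟨(0 : Fin (n + 1 + 1)).val + 1, h⟩ : Fin (n + 1 + 1))
          = (0 : Fin (n + 1)).succ := by
          apply Fin.ext; simp
      rw [e, pre_succ, pre_zero, Fin.succAbove_lt_iff_castSucc_lt] at h5
      rw [e, pre_succ, pre_succ, Fin.succAbove_lt_succAbove_iff] at h4
      have h5' : (τ 0).val < y.val := h5
      have h4' : (τ b').val < (τ 0).val := h4
      have h3' : (τ a').val < (τ b').val := h3
      rcases hok with hok | hok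
      · omega
      · rw [hyM] at hok
        have := hok a' b' h2 (by omega) h4'
        have h6 : (τ b').val < (τ a').val := this
        omega
    · have e : (⟨i'.succ.val + 1, h⟩ : Fin (n + 1 + 1))
          = (⟨i'.val + 1, by rw [Fin.val_succ] at h; omega⟩ : Fin (n + 1)).succ := by
          apply Fin.ext; simp
      rw [e, pre_succ, pre_succ, Fin.succAbove_lt_succAbove_iff] at h5
      rw [e, pre_succ, pre_succ, Fin.succAbove_lt_succAbove_iff] at h4
      rw [Fin.val_succ] at h1
      exact H i' a' b' (by rw [Fin.val_succ] at h; omega) (by omega) h2 h3 h4 h5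

theorem four2 (a b c d : ℕ) (h1 : c < d) (h2 : d < a) (h3 : a < b) (k l : Fin 4) :
    ((![a, b, c, d] : Fin 4 → ℕ) k < (![a, b, c, d] : Fin 4 → ℕ) l) ↔
      ((![3, 4, 1, 2] : Fin 4 → ℕ) k < (![3, 4, 1, 2] : Fin 4 → ℕ) l) := by
  fin_cases k <;> fin_cases l <;> simp <;> omega

theorem four1 (a b c d : ℕ) (h1 : d < c) (h2 : b < d) (h3 : a < b) (k l : Fin 4) :
    ((![a, b, c, d] : Fin 4 → ℕ) k < (![a, b, c, d] : Fin 4 → ℕ) l) ↔
      ((![1, 2, 4, 3] : Fin 4 → ℕ) k < (![1, 2, 4, 3] : Fin 4 → ℕ) l) := by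
  fin_cases k <;> fin_cases l <;> simp <;> omega

/-- containment of 34-1-2 -/
theorem contains_3412 {n : ℕ} (σ : Perm (Fin n)) : Contains ![3, 4, 1, 2] σ ↔ ¬ Av2 σ := by
  constructor
  · rintro ⟨f, hf, h01, hp⟩ H
    have e : (⟨(f 0).val + 1, by omega⟩ : Fin n) = f 1 := Fin.ext h01.symm
    refine H (f 0) (f 2) (f 3) (by omega) ?_ (hf (by decide)) ((hp 2 3).mpr (by decide))
      ((hp 3 0).mpr (by decide)) ?_
    · have : f 1 < f 2 := hf (by decide)
      have : (f 1).val < (f 2).val := this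
      omega
    · rw [e]; exact (hp 0 1).mpr (by decide)
  · intro H
    unfold Av2 at H
    push Not at H
    obtain ⟨i, a, b, h, h1, h2, h3, h4, h5, -⟩ := H
    refine ⟨![i, ⟨i.val + 1, h⟩, a, b], ?_, rfl, ?_⟩
    · rw [Fin.strictMono_iff_lt_succ]
      intro k
      fin_cases k
      · show i < ⟨i.val + 1, h⟩
        rw [Fin.lt_def]; simp
      · show (⟨i.val + 1, h⟩ : Fin n) < a
        exact h1
      · exact h2
    · have h13 : (σ a).val < (σ b).val := h3
      have h14 : (σ b).val < (σ i).val := h4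
      have h15 : (σ i).val < (σ ⟨i.val + 1, h⟩).val := h5
      intro k l
      have hv : ∀ k : Fin 4, (σ ((![i, ⟨i.val + 1, h⟩, a, b] : Fin 4 → Fin n) k)).val =
          (![(σ i).val, (σ ⟨i.val + 1, h⟩).val, (σ a).val, (σ b).val] : Fin 4 → ℕ) k := by
        intro k
        fin_cases k <;> rfl
      rw [Fin.lt_def, hv, hv]
      exact four2 _ _ _ _ h13 h14 h15 k l

/-- containment of 12-4-3 and the complement -/
theorem contains_1243 {n : ℕ} (σ : Perm (Fin n)) :
    Contains ![1, 2, 4, 3] σ ↔ ¬ Av1 (σ.trans Fin.revPerm) := by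
  constructor
  · rintro ⟨f, hf, h01, hp⟩ H
    have e : (⟨(f 0).val + 1, by omega⟩ : Fin n) = f 1 := Fin.ext h01.symm
    refine H (f 0) (f 2) (f 3) (by omega) ?_ (hf (by decide)) ?_ ?_ ?_
    · have : f 1 < f 2 := hf (by decide)
      have : (f 1).val < (f 2).val := this
      omega
    · simp only [Equiv.trans_apply, Fin.revPerm_apply, Fin.rev_lt_rev]
      exact (hp 3 2).mpr (by decide)
    · rw [e]
      simp only [Equiv.trans_apply, Fin.revPerm_apply, Fin.rev_lt_rev]
      exact (hp 1 3).mpr (by decide)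
    · rw [e]
      simp only [Equiv.trans_apply, Fin.revPerm_apply, Fin.rev_lt_rev]
      exact (hp 0 1).mpr (by decide)
  · intro H
    unfold Av1 at H
    push Not at H
    obtain ⟨i, a, b, h, h1, h2, h3, h4, h5, -⟩ := H
    simp only [Equiv.trans_apply, Fin.revPerm_apply, Fin.rev_lt_rev] at h3 h4 h5
    refine ⟨![i, ⟨i.val + 1, h⟩, a, b], ?_, rfl, ?_⟩
    · rw [Fin.strictMono_iff_lt_succ]
      intro k
      fin_cases k
      · show i < ⟨i.val + 1, h⟩
        rw [Fin.lt_def]; simp
      · show (⟨i.val + 1, h⟩ : Fin n) < a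
        exact h1
      · exact h2
    · have h13 : (σ b).val < (σ a).val := h3
      have h14 : (σ ⟨i.val + 1, h⟩).val < (σ b).val := h4
      have h15 : (σ i).val < (σ ⟨i.val + 1, h⟩).val := h5
      intro k l
      have hv : ∀ k : Fin 4, (σ ((![i, ⟨i.val + 1, h⟩, a, b] : Fin 4 → Fin n) k)).val =
          (![(σ i).val, (σ ⟨i.val + 1, h⟩).val, (σ a).val, (σ b).val] : Fin 4 → ℕ) k := by
        intro k
        fin_cases k <;> rfl
      rw [Fin.lt_def, hv, hv]
      exact four1 _ _ _ _ h13 h14 h15 k l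

theorem des_compl {n : ℕ} (σ : Perm (Fin n)) : des σ = asc (σ.trans Fin.revPerm) := by
  unfold des asc
  congr 1
  apply Finset.filter_congr
  intro i _
  simp only [Equiv.trans_apply, Fin.revPerm_apply, Fin.rev_lt_rev]

end Q166.Shade
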