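import Mathlib
import Pool.Agent.Q166.ShadeAv

/-!
Weighted sums over avoiding permutations and their recursions.
-/

set_option autoImplicit false

namespace Q166.Shade

open Equiv Finset

variable {R : Type*} [CommRing R] (q : R)

/-- update of the statistic `M` -/
def upd (m y : ℕ) : ℕ := if y ≤ m then y + 1 else m

open Classical in
noncomputable def E1 (N : ℕ) (f : ℕ → ℕ → R) : R :=
  ∑ τ : Perm (Fin (N + 1)), if Av1 τ then q ^ asc τ * f (τ 0).val (M τ) else 0

open Classical in
noncomputable def E2 (N : ℕ) (f : ℕ → ℕ → R) : R :=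
  ∑ τ : Perm (Fin (N + 1)), if Av2 τ then q ^ des τ * f (τ 0).val (M τ) else 0

theorem E1_succ (N : ℕ) (f : ℕ → ℕ → R) :
    E1 q (N + 1) f = E1 q N (fun b m => ∑ y ∈ range (N + 2),
      if y ≤ b then q * f y (upd m y) else if b ≤ m then f y (upd m y) else 0) := by
  classical
  unfold E1
  rw [← Function.Bijective.sum_comp pre_bij, Fintype.sum_prod_type, Finset.sum_comm]
  apply Finset.sum_congr rfl
  intro τ _
  by_cases hA : Av1 τ
  · rw [if_pos hA, Finset.mul_sum, Finset.sum_range]
    apply Finset.sum_congr rfl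
    intro y _
    have hA' := Av1_pre y τ
    rw [asc_pre, M_pre, pre_zero]
    unfold upd
    by_cases h1 : y.val ≤ (τ 0).val
    · rw [if_pos (hA'.mpr ⟨hA, Or.inl h1⟩), if_pos h1, if_pos h1, pow_add, pow_one]
      ring
    · rw [if_neg h1, if_neg h1, add_zero]
      by_cases h2 : (τ 0).val ≤ M τ
      · rw [if_pos (hA'.mpr ⟨hA, Or.inr h2⟩), if_pos h2]
      · rw [if_neg (fun h => by
          rcases (hA'.mp h).2 with h3 | h3
          · exact h1 h3
          · exact h2 h3), if_neg h2, mul_zero]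
  · rw [if_neg hA]
    apply Finset.sum_eq_zero
    intro y _
    rw [if_neg (fun h => hA ((Av1_pre y τ).mp h).1)]

theorem E2_succ (N : ℕ) (f : ℕ → ℕ → R) :
    E2 q (N + 1) f = E2 q N (fun b m => ∑ y ∈ range (N + 2),
      if b < y then q * f y (upd m y) else if y ≤ m then f y (upd m y) else 0) := by
  classical
  unfold E2
  rw [← Function.Bijective.sum_comp pre_bij, Fintype.sum_prod_type, Finset.sum_comm]
  apply Finset.sum_congr rfl
  intro τ _
  by_cases hA : Av2 τ
  · rw [if_pos hA, Finset.mul_sum, Finset.sum_range]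
    apply Finset.sum_congr rfl
    intro y _
    have hA' := Av2_pre y τ
    rw [des_pre, M_pre, pre_zero]
    unfold upd
    by_cases h1 : (τ 0).val < y.val
    · rw [if_pos (hA'.mpr ⟨hA, Or.inl h1⟩), if_pos h1, if_pos h1, pow_add, pow_one]
      ring
    · rw [if_neg h1, if_neg h1, add_zero]
      by_cases h2 : y.val ≤ M τ
      · rw [if_pos (hA'.mpr ⟨hA, Or.inr h2⟩), if_pos h2, if_pos h2]
      · rw [if_neg (fun h => by
          rcases (hA'.mp h).2 with h3 | h3
          · exact h1 h3
          · exact h2 h3), if_neg h2, mul_zero]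
  · rw [if_neg hA]
    apply Finset.sum_eq_zero
    intro y _
    rw [if_neg (fun h => hA ((Av2_pre y τ).mp h).1)]

variable {q}

theorem E1_congr {N : ℕ} {f g : ℕ → ℕ → R}
    (h : ∀ b m, 1 ≤ m → b ≤ N → (m = b + 1 ∨ m < b) → f b m = g b m) : E1 q N f = E1 q N g := by
  unfold E1
  apply Finset.sum_congr rfl
  intro τ _
  obtain ⟨h1, h2, h3⟩ := state τ
  rw [h _ _ h1 h2 h3]

theorem E2_congr {N : ℕ} {f g : ℕ → ℕ → R}
    (h : ∀ b m, 1 ≤ m → b ≤ N → (m = b + 1 ∨ m < b) → f b m = g b m) : E2 q N f = E2 q N g := by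
  unfold E2
  apply Finset.sum_congr rfl
  intro τ _
  obtain ⟨h1, h2, h3⟩ := state τ
  rw [h _ _ h1 h2 h3]

theorem E1_add (N : ℕ) (f g : ℕ → ℕ → R) :
    E1 q N (fun b m => f b m + g b m) = E1 q N f + E1 q N g := by
  unfold E1
  rw [← Finset.sum_add_distrib]
  apply Finset.sum_congr rfl
  intro τ _
  split_ifs <;> ring

theorem E2_add (N : ℕ) (f g : ℕ → ℕ → R) :
    E2 q N (fun b m => f b m + g b m) = E2 q N f + E2 q N g := by
  unfold E2
  rw [← Finset.sum_add_distrib]
  apply Finset.sum_congr rfl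
  intro τ _
  split_ifs <;> ring

theorem E1_mul (N : ℕ) (c : R) (f : ℕ → ℕ → R) :
    E1 q N (fun b m => c * f b m) = c * E1 q N f := by
  unfold E1
  rw [Finset.mul_sum]
  apply Finset.sum_congr rfl
  intro τ _
  split_ifs <;> ring

theorem E2_mul (N : ℕ) (c : R) (f : ℕ → ℕ → R) :
    E2 q N (fun b m => c * f b m) = c * E2 q N f := by
  unfold E2
  rw [Finset.mul_sum]
  apply Finset.sum_congr rfl
  intro τ _
  split_ifs <;> ring

theorem E1_zero (f : ℕ → ℕ → R) : E1 q 0 f = f 0 1 := by
  unfold E1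
  have hu : (Finset.univ : Finset (Perm (Fin (0 + 1)))) = {1} := by decide
  rw [hu, Finset.sum_singleton]
  have h1 : Av1 (1 : Perm (Fin (0 + 1))) := by
    intro i a b h; omega
  have h2 : asc (1 : Perm (Fin (0 + 1))) = 0 := by
    unfold asc
    rw [Finset.card_eq_zero, Finset.filter_eq_empty_iff]
    rintro i - ⟨h, -⟩
    omega
  have h3 : M (1 : Perm (Fin (0 + 1))) = 1 := by
    have := (state (1 : Perm (Fin (0 + 1)))).1
    have := M_le (1 : Perm (Fin (0 + 1)))
    omega
  have h4 : ((1 : Perm (Fin (0 + 1))) 0).val = 0 := by omega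
  rw [if_pos h1, h2, h3, h4, pow_zero, one_mul]

theorem E2_zero (f : ℕ → ℕ → R) : E2 q 0 f = f 0 1 := by
  unfold E2
  have hu : (Finset.univ : Finset (Perm (Fin (0 + 1)))) = {1} := by decide
  rw [hu, Finset.sum_singleton]
  have h1 : Av2 (1 : Perm (Fin (0 + 1))) := by
    intro i a b h; omega
  have h2 : des (1 : Perm (Fin (0 + 1))) = 0 := by
    unfold des
    rw [Finset.card_eq_zero, Finset.filter_eq_empty_iff]
    rintro i - ⟨h, -⟩
    omega
  have h3 : M (1 : Perm (Fin (0 + 1))) = 1 := by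
    have := (state (1 : Perm (Fin (0 + 1)))).1
    have := M_le (1 : Perm (Fin (0 + 1)))
    omega
  have h4 : ((1 : Perm (Fin (0 + 1))) 0).val = 0 := by omega
  rw [if_pos h1, h2, h3, h4, pow_zero, one_mul]

/-! ### system 1 -/

variable (q)

/-- good states, system 1 -/
noncomputable def G1 (N j : ℕ) : R := E1 q N (fun b m => if b = j ∧ m = b + 1 then 1 else 0)

noncomputable def S1 (N k c : ℕ) : R :=
  E1 q N (fun b m => if m = k ∧ m < b ∧ c ≤ b then 1 else 0)

noncomputable def G2 (N j : ℕ) : R := E2 q N (fun b m => if b = j ∧ m = b + 1 then 1 else 0)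

noncomputable def S2 (N k c : ℕ) : R :=
  E2 q N (fun b m => if m = k ∧ m < b ∧ b < c then 1 else 0)

variable {q}

theorem sum_range_single {n y : ℕ} (hy : y < n) (F : ℕ → R) (hF : ∀ z, z ≠ y → F z = 0) :
    ∑ z ∈ range n, F z = F y :=
  Finset.sum_eq_single y (fun z _ hz => hF z hz) (fun h => absurd (Finset.mem_range.mpr hy) h)

theorem G1_succ (N j : ℕ) (hj : j ≤ N + 1) :
    G1 q (N + 1) j = E1 q N (fun b m => if j ≤ m then
      (if j ≤ b then q else if b ≤ m then 1 else 0) else 0) := by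
  unfold G1
  rw [E1_succ]
  apply E1_congr
  intro b m h1 h2 h3
  rw [sum_range_single (y := j) (by omega)]
  · unfold upd
    by_cases hm : j ≤ m
    · simp [hm]
    · have : ¬ (m = j + 1) := by omega
      simp [hm, this]
  · intro z hz
    simp [hz]

theorem G2_succ (N j : ℕ) (hj : j ≤ N + 1) :
    G2 q (N + 1) j = E2 q N (fun b m => if j ≤ m then (if b < j then q else 1) else 0) := by
  unfold G2
  rw [E2_succ]
  apply E2_congr
  intro b m h1 h2 h3
  rw [sum_range_single (y := j) (by omega)]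
  · unfold upd
    by_cases hm : j ≤ m
    · simp [hm]
    · have : ¬ (m = j + 1) := by omega
      simp [hm, this]
  · intro z hz
    simp [hz]

/-- first difference equation, system 1 -/
theorem G1_diff (N j : ℕ) (hj : j + 1 ≤ N) :
    G1 q (N + 1) (j + 1) = G1 q (N + 1) (j + 1 + 1) + (q - 1) * G1 q N (j + 1)
      + G1 q N j + q * S1 q N (j + 1) 0 := by
  rw [G1_succ N (j + 1) (by omega), G1_succ N (j + 1 + 1) (by omega)]
  unfold G1 S1
  rw [← E1_mul, ← E1_mul, ← E1_add, ← E1_add, ← E1_add]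
  apply E1_congr
  intro b m h1 h2 h3
  split_ifs <;> first | (exfalso; omega) | ring

theorem G1_diff0 (N : ℕ) :
    G1 q (N + 1) 0 = G1 q (N + 1) 1 + (q - 1) * G1 q N 0 := by
  rw [G1_succ N 0 (by omega), G1_succ N 1 (by omega)]
  unfold G1
  rw [← E1_mul, ← E1_add]
  apply E1_congr
  intro b m h1 h2 h3
  split_ifs <;> first | (exfalso; omega) | ring

theorem G2_diff (N j : ℕ) (hj : j + 1 ≤ N) :
    G2 q (N + 1) (j + 1) = G2 q (N + 1) (j + 1 + 1) + (1 - q) * G2 q N (j + 1)
      + q * G2 q N j + S2 q N (j + 1) (N + 1) := by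
  rw [G2_succ N (j + 1) (by omega), G2_succ N (j + 1 + 1) (by omega)]
  unfold G2 S2
  rw [← E2_mul, ← E2_mul, ← E2_add, ← E2_add, ← E2_add]
  apply E2_congr
  intro b m h1 h2 h3
  split_ifs <;> first | (exfalso; omega) | ring

theorem G2_diff0 (N : ℕ) :
    G2 q (N + 1) 0 = G2 q (N + 1) 1 + (1 - q) * G2 q N 0 := by
  rw [G2_succ N 0 (by omega), G2_succ N 1 (by omega)]
  unfold G2
  rw [← E2_mul, ← E2_add]
  apply E2_congr
  intro b m h1 h2 h3
  split_ifs <;> first | (exfalso; omega) | ring

theorem G1_top (N : ℕ) : G1 q N N = 1 := by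
  induction N with
  | zero => unfold G1; rw [E1_zero]; simp
  | succ N ih =>
    rw [G1_succ N (N + 1) le_rfl]
    refine Eq.trans ?_ ih
    unfold G1
    apply E1_congr
    intro b m h1 h2 h3
    split_ifs <;> first | (exfalso; omega) | ring

theorem G2_top (N : ℕ) : G2 q N N = q ^ N := by
  induction N with
  | zero => unfold G2; rw [E2_zero]; simp
  | succ N ih =>
    rw [G2_succ N (N + 1) le_rfl, pow_succ', ← ih]
    unfold G2
    rw [← E2_mul]
    apply E2_congr
    intro b m h1 h2 h3
    split_ifs <;> first | (exfalso; omega) | ring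

/-- difference equation for the bad states, system 1 -/
theorem S1_succ (N k c : ℕ) (h1 : k + 1 < c) (h2 : c ≤ N + 1) :
    S1 q (N + 1) (k + 1) c = S1 q (N + 1) (k + 1) (c + 1) + G1 q N k + q * S1 q N (k + 1) c := by
  unfold S1 G1
  rw [E1_succ, E1_succ, ← E1_mul, ← E1_add, ← E1_add]
  apply E1_congr
  intro b m hm hb hs
  have key : ∀ F : ℕ → R, (∑ y ∈ range (N + 2), (if y ≤ b then
      q * (if upd m y = k + 1 ∧ upd m y < y ∧ c ≤ y then 1 else 0) else
      if b ≤ m then (if upd m y = k + 1 ∧ upd m y < y ∧ c ≤ y then 1 else 0) else 0)) -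
      (∑ y ∈ range (N + 2), (if y ≤ b then
      q * (if upd m y = k + 1 ∧ upd m y < y ∧ c + 1 ≤ y then 1 else 0) else
      if b ≤ m then (if upd m y = k + 1 ∧ upd m y < y ∧ c + 1 ≤ y then 1 else 0) else 0)) =
      (if c ≤ b then
      q * (if upd m c = k + 1 ∧ upd m c < c then 1 else 0) else
      if b ≤ m then (if upd m c = k + 1 ∧ upd m c < c then 1 else 0) else 0) := by
    intro F
    rw [← Finset.sum_sub_distrib, sum_range_single (y := c) (by omega)]
    · simp
    · intro z hz
      by_cases h : c + 1 ≤ z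
      · have : c ≤ z := by omega
        simp [h, this]
      · have : ¬ c ≤ z := by omega
        simp [h, this]
  have := key (fun _ => 0)
  rw [sub_eq_iff_eq_add] at this
  rw [this, add_comm]
  rw [add_assoc]
  congr 1
  unfold upd
  split_ifs <;> first | (exfalso; omega) | ring

theorem S2_succ (N k c : ℕ) (h1 : k + 1 < c) (h2 : c ≤ N + 1) :
    S2 q (N + 1) (k + 1) (c + 1) = S2 q (N + 1) (k + 1) c +
      q * (G2 q N k + S2 q N (k + 1) c) := by
  unfold S2 G2
  rw [E2_succ, E2_succ, ← E2_add, ← E2_mul, ← E2_add]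
  apply E2_congr
  intro b m hm hb hs
  have key : (∑ y ∈ range (N + 2), (if b < y then
      q * (if upd m y = k + 1 ∧ upd m y < y ∧ y < c + 1 then 1 else 0) else
      if y ≤ m then (if upd m y = k + 1 ∧ upd m y < y ∧ y < c + 1 then 1 else 0) else 0)) -
      (∑ y ∈ range (N + 2), (if b < y then
      q * (if upd m y = k + 1 ∧ upd m y < y ∧ y < c then 1 else 0) else
      if y ≤ m then (if upd m y = k + 1 ∧ upd m y < y ∧ y < c then 1 else 0) else 0)) =
      (if b < c then
      q * (if upd m c = k + 1 ∧ upd m c < c then 1 else 0) else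
      if c ≤ m then (if upd m c = k + 1 ∧ upd m c < c then 1 else 0) else 0) := by
    rw [← Finset.sum_sub_distrib, sum_range_single (y := c) (by omega)]
    · simp
    · intro z hz
      by_cases h : z < c
      · have : z < c + 1 := by omega
        simp [h, this]
      · have : ¬ z < c + 1 := by omega
        simp [h, this]
  rw [sub_eq_iff_eq_add] at key
  rw [key, add_comm]
  congr 1
  unfold upd
  split_ifs <;> first | (exfalso; omega) | ring

theorem S1_top (N k c : ℕ) (h : N < c) : S1 q N k c = 0 := by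
  have : S1 q N k c = E1 q N (fun b m => (0 : R) * 0) := by
    unfold S1
    apply E1_congr
    intro b m h1 h2 h3
    split_ifs <;> first | (exfalso; omega) | ring
  rw [this, E1_mul, zero_mul]

theorem S2_bot (N k : ℕ) : S2 q N k (k + 1) = 0 := by
  have : S2 q N k (k + 1) = E2 q N (fun b m => (0 : R) * 0) := by
    unfold S2
    apply E2_congr
    intro b m h1 h2 h3
    split_ifs <;> first | (exfalso; omega) | ring
  rw [this, E2_mul, zero_mul]

theorem S1_low (N k : ℕ) : S1 q N k 0 = S1 q N k (k + 1) := by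
  unfold S1
  apply E1_congr
  intro b m h1 h2 h3
  split_ifs <;> first | (exfalso; omega) | ring

end Q166.Shade
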