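import Mathlib

/-!
Spin Kostka polynomials: definitions and the computation of `K^-_{(4,2),(3,2,1)}(t)`.
-/

set_option autoImplicit false

namespace Q166.SpinKostka

/-- the coefficient ring `ℤ[t]` -/
abbrev R : Type := Polynomial ℤ

/-- the field of rational functions in `x_1, …, x_N` over `ℤ[t]` -/
abbrev Frac (N : ℕ) : Type := FractionRing (MvPolynomial (Fin N) R)

/-- the inclusion of polynomials into the rational functions -/
noncomputable def inc (N : ℕ) : MvPolynomial (Fin N) R →+* Frac N := algebraMap _ _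

/-- a scalar (an element of `ℤ[t]`) as a rational function -/
noncomputable def sc (N : ℕ) (c : R) : Frac N := inc N (MvPolynomial.C c)

/-- the variable `x_i` as a rational function -/
noncomputable def vr (N : ℕ) (i : Fin N) : Frac N := inc N (MvPolynomial.X i)

/-- `v_m(t) = ∏_{i=1}^m (1 - t^i)/(1 - t) = ∏_{i=1}^m (1 + t + ⋯ + t^{i-1})` -/
noncomputable def vm (m : ℕ) : R :=
  ∏ i ∈ Finset.range m, ∑ j ∈ Finset.range (i + 1), (Polynomial.X : R) ^ j

/-- `v_μ(t) = ∏_{i ≥ 0} v_{m_i}(t)`, where `m_i` is the number of parts equal to `i` and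
`m_0 = N - ℓ(μ)` -/
noncomputable def vmu (N : ℕ) (mu : List ℕ) : R :=
  vm (N - mu.length) * ∏ i ∈ mu.toFinset, vm (mu.count i)

/-- the Hall-Littlewood polynomial `P_μ(x_1, …, x_N; t)` (Macdonald's definition) -/
noncomputable def HLP (N : ℕ) (mu : List ℕ) : Frac N :=
  (sc N (vmu N mu))⁻¹ * ∑ w : Equiv.Perm (Fin N),
    (∏ i : Fin N, vr N (w i) ^ (mu.getD i 0)) *
      ∏ i : Fin N, ∏ j : Fin N, if i < j then
        (vr N (w i) - sc N Polynomial.X * vr N (w j)) / (vr N (w i) - vr N (w j)) else 1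

/-- a partition, as the list of its positive parts in weakly decreasing order -/
def IsPart (mu : List ℕ) : Prop := mu.Pairwise (· ≥ ·) ∧ ∀ a ∈ mu, 0 < a

/-- a strict partition -/
def IsStrict (xi : List ℕ) : Prop := xi.Pairwise (· > ·) ∧ ∀ a ∈ xi, 0 < a

/-- the shifted diagram `ξ^*` (rows and columns numbered from `0`) -/
def cells (xi : List ℕ) : Finset (ℕ × ℕ) :=
  (Finset.range xi.length ×ˢ Finset.range (xi.sum + xi.length)).filter
    fun c => c.1 ≤ c.2 ∧ c.2 < xi.getD c.1 0 + c.1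

/-- the place of a letter in the alphabet `1' < 1 < 2' < 2 < ⋯`; the letter `(k, false)` is `k'`
and the letter `(k, true)` is `k` -/
def code {N : ℕ} (a : Fin N × Bool) : ℕ := 2 * a.1.val + (if a.2 = true then 1 else 0)

/-- marked shifted tableaux of shape `ξ` -/
def IsMST {N : ℕ} (xi : List ℕ) (T : {c // c ∈ cells xi} → Fin N × Bool) : Prop :=
  (∀ c d, c.1.1 = d.1.1 → c.1.2 < d.1.2 →
    code (T c) ≤ code (T d) ∧ (T c = T d → (T c).2 = true)) ∧
  (∀ c d, c.1.2 = d.1.2 → c.1.1 < d.1.1 →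
    code (T c) ≤ code (T d) ∧ (T c = T d → (T c).2 = false))

instance {N : ℕ} (xi : List ℕ) (T : {c // c ∈ cells xi} → Fin N × Bool) :
    Decidable (IsMST xi T) := by unfold IsMST; infer_instance

/-- the Schur `Q`-polynomial `Q_ξ(x_1, …, x_N)` -/
noncomputable def SQ (N : ℕ) (xi : List ℕ) : MvPolynomial (Fin N) R :=
  ∑ T : {c // c ∈ cells xi} → Fin N × Bool,
    if IsMST xi T then ∏ c, MvPolynomial.X (T c).1 else 0

/-- `K` is the family of the spin Kostka polynomials: in any number `N` of variables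
`Q_ξ(x) = Σ_μ K_{ξμ}(t) P_μ(x;t)`, the sum over the partitions `μ` of `|ξ|` with at most `N`
parts (the polynomials `P_μ(x_1, …, x_N; t)` vanish for the other partitions `μ`). -/
def IsSpinKostka (K : List ℕ → List ℕ → R) : Prop :=
  ∀ xi, IsStrict xi → ∀ N : ℕ, inc N (SQ N xi) =
    ∑ᶠ mu ∈ {mu : List ℕ | IsPart mu ∧ mu.sum = xi.sum ∧ mu.length ≤ N},
      sc N (K xi mu) * HLP N mu

/-! ### the Hall-Littlewood polynomials in three variables -/

/-- the antisymmetrised numerator, as a polynomial expression -/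
def num {A : Type*} [CommRing A] (t x y z : A) (a b c : ℕ) : A :=
  x ^ a * y ^ b * z ^ c * ((x - t * y) * (x - t * z) * (y - t * z)) -
  y ^ a * x ^ b * z ^ c * ((y - t * x) * (y - t * z) * (x - t * z)) -
  z ^ a * y ^ b * x ^ c * ((z - t * y) * (z - t * x) * (y - t * x)) -
  x ^ a * z ^ b * y ^ c * ((x - t * z) * (x - t * y) * (z - t * y)) +
  y ^ a * z ^ b * x ^ c * ((y - t * z) * (y - t * x) * (z - t * x)) +
  z ^ a * x ^ b * y ^ c * ((z - t * x) * (z - t * y) * (x - t * y))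

theorem univ_perm3 : (Finset.univ : Finset (Equiv.Perm (Fin 3))) =
    {1, Equiv.swap 0 1, Equiv.swap 0 2, Equiv.swap 1 2, Equiv.swap 0 1 * Equiv.swap 1 2,
      Equiv.swap 1 2 * Equiv.swap 0 1} := by decide

theorem sum_perm3 {A : Type*} [AddCommMonoid A] (f : Equiv.Perm (Fin 3) → A) :
    ∑ w : Equiv.Perm (Fin 3), f w = f 1 + (f (Equiv.swap 0 1) + (f (Equiv.swap 0 2) +
      (f (Equiv.swap 1 2) + (f (Equiv.swap 0 1 * Equiv.swap 1 2) +
        f (Equiv.swap 1 2 * Equiv.swap 0 1))))) := by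
  rw [univ_perm3, Finset.sum_insert (by decide), Finset.sum_insert (by decide),
    Finset.sum_insert (by decide), Finset.sum_insert (by decide), Finset.sum_insert (by decide),
    Finset.sum_singleton]

theorem field_id {F : Type*} [Field F] (t : F) (v : Fin 3 → F) (e : Fin 3 → ℕ)
    (h01 : v 0 ≠ v 1) (h02 : v 0 ≠ v 2) (h12 : v 1 ≠ v 2) :
    ((v 0 - v 1) * (v 0 - v 2) * (v 1 - v 2)) * ∑ w : Equiv.Perm (Fin 3),
      (∏ i : Fin 3, v (w i) ^ e i) * (∏ i : Fin 3, ∏ j : Fin 3, if i < j then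
        (v (w i) - t * v (w j)) / (v (w i) - v (w j)) else 1) =
      num t (v 0) (v 1) (v 2) (e 0) (e 1) (e 2) := by
  have a01 : v 0 - v 1 ≠ 0 := sub_ne_zero.2 h01
  have a02 : v 0 - v 2 ≠ 0 := sub_ne_zero.2 h02
  have a12 : v 1 - v 2 ≠ 0 := sub_ne_zero.2 h12
  have a10 : v 1 - v 0 ≠ 0 := sub_ne_zero.2 h01.symm
  have a20 : v 2 - v 0 ≠ 0 := sub_ne_zero.2 h02.symm
  have a21 : v 2 - v 1 ≠ 0 := sub_ne_zero.2 h12.symm
  have c1 : (Equiv.swap 0 1 * Equiv.swap 1 2 : Equiv.Perm (Fin 3)) 0 = 1 := by decide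
  have c2 : (Equiv.swap 0 1 * Equiv.swap 1 2 : Equiv.Perm (Fin 3)) 1 = 2 := by decide
  have c3 : (Equiv.swap 0 1 * Equiv.swap 1 2 : Equiv.Perm (Fin 3)) 2 = 0 := by decide
  have c4 : (Equiv.swap 1 2 * Equiv.swap 0 1 : Equiv.Perm (Fin 3)) 0 = 2 := by decide
  have c5 : (Equiv.swap 1 2 * Equiv.swap 0 1 : Equiv.Perm (Fin 3)) 1 = 0 := by decide
  have c6 : (Equiv.swap 1 2 * Equiv.swap 0 1 : Equiv.Perm (Fin 3)) 2 = 1 := by decide
  have d1 : (Equiv.swap (0 : Fin 3) 1) 0 = 1 := by decide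
  have d2 : (Equiv.swap (0 : Fin 3) 1) 1 = 0 := by decide
  have d3 : (Equiv.swap (0 : Fin 3) 1) 2 = 2 := by decide
  have d4 : (Equiv.swap (0 : Fin 3) 2) 0 = 2 := by decide
  have d5 : (Equiv.swap (0 : Fin 3) 2) 1 = 1 := by decide
  have d6 : (Equiv.swap (0 : Fin 3) 2) 2 = 0 := by decide
  have d7 : (Equiv.swap (1 : Fin 3) 2) 0 = 0 := by decide
  have d8 : (Equiv.swap (1 : Fin 3) 2) 1 = 2 := by decide
  have d9 : (Equiv.swap (1 : Fin 3) 2) 2 = 1 := by decide
  have l00 : ¬ ((0 : Fin 3) < 0) := by decide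
  have l01 : ((0 : Fin 3) < 1) := by decide
  have l02 : ((0 : Fin 3) < 2) := by decide
  have l10 : ¬ ((1 : Fin 3) < 0) := by decide
  have l11 : ¬ ((1 : Fin 3) < 1) := by decide
  have l12 : ((1 : Fin 3) < 2) := by decide
  have l20 : ¬ ((2 : Fin 3) < 0) := by decide
  have l21 : ¬ ((2 : Fin 3) < 1) := by decide
  have l22 : ¬ ((2 : Fin 3) < 2) := by decide
  have hprod : ∀ w : Equiv.Perm (Fin 3), (∏ i : Fin 3, ∏ j : Fin 3, if i < j then
        (v (w i) - t * v (w j)) / (v (w i) - v (w j)) else 1) =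
      (v (w 0) - t * v (w 1)) / (v (w 0) - v (w 1)) *
      ((v (w 0) - t * v (w 2)) / (v (w 0) - v (w 2))) *
      ((v (w 1) - t * v (w 2)) / (v (w 1) - v (w 2))) := by
    intro w
    simp only [Fin.prod_univ_three, l00, l01, l02, l10, l11, l12, l20, l21, l22, if_true, if_false,
      one_mul, mul_one]
  simp only [hprod]
  simp only [Fin.prod_univ_three]
  rw [sum_perm3]
  simp only [c1, c2, c3, c4, c5, c6, d1, d2, d3, d4, d5, d6, d7, d8, d9, Equiv.Perm.one_apply]
  unfold num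
  generalize v 0 = x at *
  generalize v 1 = y at *
  generalize v 2 = z at *
  have k1 : ∀ p u1 u2 u3 : F, (x - y) * (x - z) * (y - z) * (p * (u1 / (x - y) * (u2 / (x - z)) *
      (u3 / (y - z)))) = p * (u1 * u2 * u3) := by
    intro p u1 u2 u3; field_simp
  have k2 : ∀ p u1 u2 u3 : F, (x - y) * (x - z) * (y - z) * (p * (u1 / (y - x) * (u2 / (y - z)) *
      (u3 / (x - z)))) = -(p * (u1 * u2 * u3)) := by
    intro p u1 u2 u3
    rw [show y - x = -(x - y) by ring]
    field_simp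
  have k3 : ∀ p u1 u2 u3 : F, (x - y) * (x - z) * (y - z) * (p * (u1 / (z - y) * (u2 / (z - x)) *
      (u3 / (y - x)))) = -(p * (u1 * u2 * u3)) := by
    intro p u1 u2 u3
    rw [show y - x = -(x - y) by ring, show z - y = -(y - z) by ring,
      show z - x = -(x - z) by ring]
    field_simp
  have k4 : ∀ p u1 u2 u3 : F, (x - y) * (x - z) * (y - z) * (p * (u1 / (x - z) * (u2 / (x - y)) *
      (u3 / (z - y)))) = -(p * (u1 * u2 * u3)) := by
    intro p u1 u2 u3
    rw [show z - y = -(y - z) by ring]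
    field_simp
  have k5 : ∀ p u1 u2 u3 : F, (x - y) * (x - z) * (y - z) * (p * (u1 / (y - z) * (u2 / (y - x)) *
      (u3 / (z - x)))) = p * (u1 * u2 * u3) := by
    intro p u1 u2 u3
    rw [show y - x = -(x - y) by ring, show z - x = -(x - z) by ring]
    field_simp
  have k6 : ∀ p u1 u2 u3 : F, (x - y) * (x - z) * (y - z) * (p * (u1 / (z - x) * (u2 / (z - y)) *
      (u3 / (x - y)))) = p * (u1 * u2 * u3) := by
    intro p u1 u2 u3
    rw [show z - y = -(y - z) by ring, show z - x = -(x - z) by ring]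
    field_simp
  simp only [mul_add]
  rw [k1, k2, k3, k4, k5, k6]
  ring

/-! ### the tableaux of shape `(4,2)` -/

/-- the weights of the Kronecker substitution -/
def wgt (i : Fin 3) : ℕ := if i = 0 then 100 else if i = 1 then 10 else 1

def okR (x y : Fin 3 × Bool) : Prop := code x ≤ code y ∧ (x = y → x.2 = true)

def okC (x y : Fin 3 × Bool) : Prop := code x ≤ code y ∧ (x = y → x.2 = false)

instance (x y : Fin 3 × Bool) : Decidable (okR x y) := by unfold okR; infer_instance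

instance (x y : Fin 3 × Bool) : Decidable (okC x y) := by unfold okC; infer_instance

/-- the number of the tableaux of shape `(4,2)` of a given weight -/
def cnt (k : ℕ) : ℕ := ∑ a : Fin 3 × Bool, ∑ b : Fin 3 × Bool, if okR a b then
  ∑ c : Fin 3 × Bool, if okR b c then ∑ d : Fin 3 × Bool, if okR c d then
    ∑ e : Fin 3 × Bool, if okC b e then ∑ f : Fin 3 × Bool,
      if okR e f ∧ okC c f ∧ k = wgt a.1 + wgt b.1 + wgt c.1 + wgt d.1 + wgt e.1 + wgt f.1
        then 1 else 0 else 0 else 0 else 0 else 0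

def pos : Fin 6 → ℕ × ℕ := ![(0, 0), (0, 1), (0, 2), (0, 3), (1, 1), (1, 2)]

theorem pos_mem : ∀ i, pos i ∈ cells [4, 2] := by decide

theorem pos_bij : Function.Bijective
    (fun i : Fin 6 => (⟨pos i, pos_mem i⟩ : {c // c ∈ cells [4, 2]})) := by
  constructor
  · intro i j h
    simp only [Subtype.mk.injEq] at h
    revert i j
    decide
  · rintro ⟨c, hc⟩
    have : ∀ c ∈ cells [4, 2], ∃ i, pos i = c := by decide
    obtain ⟨i, hi⟩ := this c hc
    exact ⟨i, Subtype.ext hi⟩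

noncomputable def eqv : Fin 6 ≃ {c // c ∈ cells [4, 2]} := Equiv.ofBijective _ pos_bij

theorem eqv_val (i : Fin 6) : (eqv i).1 = pos i := rfl

theorem code_inj (x y : Fin 3 × Bool) (h : code x = code y) : x = y := by
  revert x y
  decide

theorem okR_trans (x y z : Fin 3 × Bool) (h1 : okR x y) (h2 : okR y z) : okR x z := by
  refine ⟨h1.1.trans h2.1, fun h => ?_⟩
  subst h
  have := code_inj x y (le_antisymm h1.1 h2.1)
  exact h1.2 this

theorem isMST_iff (T : Fin 6 → Fin 3 × Bool) :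
    IsMST [4, 2] (fun c => T (eqv.symm c)) ↔
      okR (T 0) (T 1) ∧ okR (T 1) (T 2) ∧ okR (T 2) (T 3) ∧ okR (T 4) (T 5) ∧
        okC (T 1) (T 4) ∧ okC (T 2) (T 5) := by
  constructor
  · rintro ⟨h1, h2⟩
    have a1 := h1 (eqv 0) (eqv 1) rfl (by decide)
    have a2 := h1 (eqv 1) (eqv 2) rfl (by decide)
    have a3 := h1 (eqv 2) (eqv 3) rfl (by decide)
    have a4 := h1 (eqv 4) (eqv 5) rfl (by decide)
    have a5 := h2 (eqv 1) (eqv 4) rfl (by decide)
    have a6 := h2 (eqv 2) (eqv 5) rfl (by decide)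
    simp only [Equiv.symm_apply_apply] at a1 a2 a3 a4 a5 a6
    exact ⟨a1, a2, a3, a4, a5, a6⟩
  · rintro ⟨a1, a2, a3, a4, a5, a6⟩
    have b1 := okR_trans _ _ _ a1 a2
    have b2 := okR_trans _ _ _ a2 a3
    have b3 := okR_trans _ _ _ b1 a3
    constructor
    · intro c d
      obtain ⟨i, rfl⟩ := eqv.surjective c
      obtain ⟨j, rfl⟩ := eqv.surjective d
      simp only [eqv_val, Equiv.symm_apply_apply]
      intro h1 h2
      have key : (i = 0 ∧ j = 1) ∨ (i = 0 ∧ j = 2) ∨ (i = 0 ∧ j = 3) ∨ (i = 1 ∧ j = 2) ∨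
          (i = 1 ∧ j = 3) ∨ (i = 2 ∧ j = 3) ∨ (i = 4 ∧ j = 5) := by
        revert i j
        decide
      rcases key with ⟨rfl, rfl⟩ | ⟨rfl, rfl⟩ | ⟨rfl, rfl⟩ | ⟨rfl, rfl⟩ | ⟨rfl, rfl⟩ |
        ⟨rfl, rfl⟩ | ⟨rfl, rfl⟩
      · exact a1
      · exact b1
      · exact b3
      · exact a2
      · exact b2
      · exact a3
      · exact a4
    · intro c d
      obtain ⟨i, rfl⟩ := eqv.surjective c
      obtain ⟨j, rfl⟩ := eqv.surjective d
      simp only [eqv_val, Equiv.symm_apply_apply]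
      intro h1 h2
      have key : (i = 1 ∧ j = 4) ∨ (i = 2 ∧ j = 5) := by
        revert i j
        decide
      rcases key with ⟨rfl, rfl⟩ | ⟨rfl, rfl⟩
      · exact a5
      · exact a6

theorem sum_fun_succ {A : Type*} [AddCommMonoid A] {B : Type*} [Fintype B] (n : ℕ)
    (G : (Fin (n + 1) → B) → A) :
    ∑ T : Fin (n + 1) → B, G T = ∑ a : B, ∑ T : Fin n → B, G (Fin.cons a T) := by
  rw [← Equiv.sum_comp (Fin.consEquiv (fun _ : Fin (n + 1) => B)), Fintype.sum_prod_type]
  rfl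

theorem sum_fun_six {A : Type*} [AddCommMonoid A] {B : Type*} [Fintype B]
    (G : B → B → B → B → B → B → A) :
    ∑ T : Fin 6 → B, G (T 0) (T 1) (T 2) (T 3) (T 4) (T 5) =
      ∑ a : B, ∑ b : B, ∑ c : B, ∑ d : B, ∑ e : B, ∑ f : B, G a b c d e f := by
  rw [sum_fun_succ]
  apply Finset.sum_congr rfl; intro a _
  rw [sum_fun_succ]
  apply Finset.sum_congr rfl; intro b _
  rw [sum_fun_succ]
  apply Finset.sum_congr rfl; intro c _
  rw [sum_fun_succ]
  apply Finset.sum_congr rfl; intro d _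
  rw [sum_fun_succ]
  apply Finset.sum_congr rfl; intro e _
  rw [sum_fun_succ]
  apply Finset.sum_congr rfl; intro f _
  rw [Fintype.sum_unique]
  rfl

/-- the Kronecker substitution -/
noncomputable def phi : MvPolynomial (Fin 3) R →ₐ[R] Polynomial R :=
  MvPolynomial.aeval (fun i => (Polynomial.X : Polynomial R) ^ wgt i)

theorem coeff_SQ (k : ℕ) : (phi (SQ 3 [4, 2])).coeff k = ((cnt k : ℕ) : R) := by
  unfold SQ
  rw [map_sum, Polynomial.finsetSum_coeff]
  rw [← Equiv.sum_comp (Equiv.arrowCongr eqv (Equiv.refl (Fin 3 × Bool)))]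
  have h1 : ∀ T : Fin 6 → Fin 3 × Bool,
      (phi (if IsMST [4, 2] ((Equiv.arrowCongr eqv (Equiv.refl (Fin 3 × Bool))) T) then
        ∏ c, MvPolynomial.X (((Equiv.arrowCongr eqv (Equiv.refl (Fin 3 × Bool))) T) c).1
          else 0)).coeff k =
      (fun a b c d e f : Fin 3 × Bool => if okR a b ∧ okR b c ∧ okR c d ∧ okR e f ∧ okC b e ∧ okC c f
        then (if k = wgt a.1 + wgt b.1 + wgt c.1 + wgt d.1 + wgt e.1 + wgt f.1 then (1 : R) else 0)
        else 0) (T 0) (T 1) (T 2) (T 3) (T 4) (T 5) := by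
    intro T
    have h2 : ((Equiv.arrowCongr eqv (Equiv.refl (Fin 3 × Bool))) T) =
      fun c => T (eqv.symm c) := rfl
    rw [h2]
    by_cases h : IsMST [4, 2] (fun c => T (eqv.symm c))
    · rw [if_pos h]
      simp only
      rw [if_pos ((isMST_iff T).1 h), map_prod, ← Equiv.prod_comp eqv]
      simp only [Equiv.symm_apply_apply, phi, MvPolynomial.aeval_X]
      rw [Fin.prod_univ_six, ← pow_add, ← pow_add, ← pow_add, ← pow_add, ← pow_add,
        Polynomial.coeff_X_pow]
    · rw [if_neg h]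
      simp only
      rw [if_neg (fun h' => h ((isMST_iff T).2 h'))]
      simp
  simp only [h1]
  rw [sum_fun_six (fun a b c d e f : Fin 3 × Bool => if okR a b ∧ okR b c ∧ okR c d ∧ okR e f ∧ okC b e ∧ okC c f
        then (if k = wgt a.1 + wgt b.1 + wgt c.1 + wgt d.1 + wgt e.1 + wgt f.1 then (1 : R) else 0)
        else 0)]
  unfold cnt
  rw [Nat.cast_sum]
  apply Finset.sum_congr rfl; intro a _
  rw [Nat.cast_sum]
  apply Finset.sum_congr rfl; intro b _
  by_cases p1 : okR a b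
  swap
  · simp [p1]
  rw [if_pos p1, Nat.cast_sum]
  apply Finset.sum_congr rfl; intro c _
  by_cases p2 : okR b c
  swap
  · simp [p2]
  rw [if_pos p2, Nat.cast_sum]
  apply Finset.sum_congr rfl; intro d _
  by_cases p3 : okR c d
  swap
  · simp [p3]
  rw [if_pos p3, Nat.cast_sum]
  apply Finset.sum_congr rfl; intro e _
  by_cases p4 : okC b e
  swap
  · simp [p4]
  rw [if_pos p4, Nat.cast_sum]
  apply Finset.sum_congr rfl; intro f _
  by_cases p5 : okR e f
  swap
  · simp [p5]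
  by_cases p6 : okC c f
  swap
  · simp [p6]
  simp only [p1, p2, p3, p4, p5, p6, and_true, if_true, true_and]
  split_ifs <;> simp

/-! ### the identity in three variables -/

/-- the antisymmetrised monomial after the Kronecker substitution -/
noncomputable def M (a b c : ℕ) : Polynomial R :=
  Polynomial.X ^ (100 * a + 10 * b + c) - Polynomial.X ^ (10 * a + 100 * b + c) -
  Polynomial.X ^ (a + 10 * b + 100 * c) - Polynomial.X ^ (100 * a + b + 10 * c) +
  Polynomial.X ^ (10 * a + b + 100 * c) + Polynomial.X ^ (a + 100 * b + 10 * c)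

theorem num_eq (T : Polynomial R) (a b c : ℕ) :
    num T ((Polynomial.X : Polynomial R) ^ 100) (Polynomial.X ^ 10) (Polynomial.X ^ 1) a b c =
      M (a + 2) (b + 1) c - T * M (a + 2) b (c + 1) + (T ^ 2 - T) * M (a + 1) (b + 1) (c + 1) +
        T ^ 2 * M (a + 1) b (c + 2) - T * M (a + 1) (b + 2) c + T ^ 2 * M a (b + 2) (c + 1) -
          T ^ 3 * M a (b + 1) (c + 2) := by
  unfold num M
  ring

/-- the coefficients of `M` -/
def cM (a b c k : ℕ) : ℤ :=
  (if k = 100 * a + 10 * b + c then 1 else 0) - (if k = 10 * a + 100 * b + c then 1 else 0) -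
  (if k = a + 10 * b + 100 * c then 1 else 0) - (if k = 100 * a + b + 10 * c then 1 else 0) +
  (if k = 10 * a + b + 100 * c then 1 else 0) + (if k = a + 100 * b + 10 * c then 1 else 0)

theorem coeff_M (a b c k : ℕ) : (M a b c).coeff k = ((cM a b c k : ℤ) : R) := by
  unfold M cM
  simp only [Polynomial.coeff_add, Polynomial.coeff_sub, Polynomial.coeff_X_pow]
  push_cast
  simp only [Int.cast_ite, Int.cast_one, Int.cast_zero]

/-- the coefficients of the numerators -/
noncomputable def cN (a b c k : ℕ) : R :=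
  (cM (a + 2) (b + 1) c k : R) - Polynomial.X * (cM (a + 2) b (c + 1) k : R) +
    (Polynomial.X ^ 2 - Polynomial.X) * (cM (a + 1) (b + 1) (c + 1) k : R) +
    Polynomial.X ^ 2 * (cM (a + 1) b (c + 2) k : R) - Polynomial.X * (cM (a + 1) (b + 2) c k : R) +
    Polynomial.X ^ 2 * (cM a (b + 2) (c + 1) k : R) -
    Polynomial.X ^ 3 * (cM a (b + 1) (c + 2) k : R)

theorem coeff_num (a b c k : ℕ) :
    (num (Polynomial.C (Polynomial.X : R)) ((Polynomial.X : Polynomial R) ^ 100)
      (Polynomial.X ^ 10) (Polynomial.X ^ 1) a b c).coeff k = cN a b c k := by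
  rw [num_eq]
  have e1 : (Polynomial.C (Polynomial.X : R)) ^ 2 - Polynomial.C (Polynomial.X : R) =
      Polynomial.C ((Polynomial.X : R) ^ 2 - Polynomial.X) := by
    rw [Polynomial.C_sub, Polynomial.C_pow]
  rw [e1, ← Polynomial.C_pow, ← Polynomial.C_pow]
  simp only [Polynomial.coeff_add, Polynomial.coeff_sub, Polynomial.coeff_C_mul, coeff_M]
  rfl

theorem phi_num (a b c : ℕ) :
    phi (num (MvPolynomial.C (Polynomial.X : R)) (MvPolynomial.X 0) (MvPolynomial.X 1)
      (MvPolynomial.X 2) a b c) =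
    num (Polynomial.C (Polynomial.X : R)) ((Polynomial.X : Polynomial R) ^ 100)
      (Polynomial.X ^ 10) (Polynomial.X ^ 1) a b c := by
  have h0 : phi (MvPolynomial.X 0) = (Polynomial.X : Polynomial R) ^ 100 := by
    unfold phi; rw [MvPolynomial.aeval_X]; rfl
  have h1 : phi (MvPolynomial.X 1) = (Polynomial.X : Polynomial R) ^ 10 := by
    unfold phi; rw [MvPolynomial.aeval_X]; rfl
  have h2 : phi (MvPolynomial.X 2) = (Polynomial.X : Polynomial R) ^ 1 := by
    unfold phi; rw [MvPolynomial.aeval_X]; rfl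
  have h3 : phi (MvPolynomial.C (Polynomial.X : R)) = Polynomial.C (Polynomial.X : R) := by
    unfold phi; rw [MvPolynomial.aeval_C]; rfl
  unfold num
  simp only [map_add, map_sub, map_mul, map_pow, h0, h1, h2, h3]

/-- the Vandermonde product -/
noncomputable def Del : MvPolynomial (Fin 3) R :=
  (MvPolynomial.X 0 - MvPolynomial.X 1) * (MvPolynomial.X 0 - MvPolynomial.X 2) *
    (MvPolynomial.X 1 - MvPolynomial.X 2)

theorem phi_Del : phi Del = (Polynomial.X : Polynomial R) ^ 210 - Polynomial.X ^ 201 +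
    Polynomial.X ^ 102 - Polynomial.X ^ 120 + Polynomial.X ^ 21 - Polynomial.X ^ 12 := by
  have h0 : phi (MvPolynomial.X 0) = (Polynomial.X : Polynomial R) ^ 100 := by
    unfold phi; rw [MvPolynomial.aeval_X]; rfl
  have h1 : phi (MvPolynomial.X 1) = (Polynomial.X : Polynomial R) ^ 10 := by
    unfold phi; rw [MvPolynomial.aeval_X]; rfl
  have h2 : phi (MvPolynomial.X 2) = (Polynomial.X : Polynomial R) ^ 1 := by
    unfold phi; rw [MvPolynomial.aeval_X]; rfl
  unfold Del
  simp only [map_sub, map_mul, h0, h1, h2]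
  ring

theorem inc_inj (N : ℕ) : Function.Injective (inc N) := IsFractionRing.injective _ _

theorem vr_ne {N : ℕ} (i j : Fin N) (h : i ≠ j) : vr N i ≠ vr N j := by
  intro h'
  exact h (MvPolynomial.X_injective (inc_inj N h'))

theorem inc_num (a b c : ℕ) : inc 3 (num (MvPolynomial.C (Polynomial.X : R)) (MvPolynomial.X 0)
      (MvPolynomial.X 1) (MvPolynomial.X 2) a b c) =
    num (sc 3 Polynomial.X) (vr 3 0) (vr 3 1) (vr 3 2) a b c := by
  unfold num
  simp only [map_add, map_sub, map_mul, map_pow]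
  rfl

theorem HLP_three (mu : List ℕ) (h : vmu 3 mu ≠ 0) :
    inc 3 Del * (sc 3 (vmu 3 mu) * HLP 3 mu) =
      inc 3 (num (MvPolynomial.C (Polynomial.X : R)) (MvPolynomial.X 0)
        (MvPolynomial.X 1) (MvPolynomial.X 2) (mu.getD 0 0) (mu.getD 1 0) (mu.getD 2 0)) := by
  have h1 : sc 3 (vmu 3 mu) ≠ 0 := by
    unfold sc
    intro h2
    apply h
    have h3 := inc_inj 3 (h2.trans (map_zero (inc 3)).symm)
    exact MvPolynomial.C_injective _ _ (h3.trans (map_zero MvPolynomial.C).symm)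
  unfold HLP
  rw [← mul_assoc (sc 3 (vmu 3 mu)), mul_inv_cancel₀ h1, one_mul, inc_num]
  have h2 := field_id (sc 3 Polynomial.X) (vr 3) (fun i : Fin 3 => mu.getD i 0)
    (vr_ne 0 1 (by decide)) (vr_ne 0 2 (by decide)) (vr_ne 1 2 (by decide))
  have h3 : inc 3 Del = (vr 3 0 - vr 3 1) * (vr 3 0 - vr 3 2) * (vr 3 1 - vr 3 2) := by
    unfold Del
    simp only [map_sub, map_mul]
    rfl
  rw [h3]
  exact h2

/-! ### partitions of `6` with at most three parts -/

theorem parts_six : {mu : List ℕ | IsPart mu ∧ mu.sum = ([4, 2] : List ℕ).sum ∧ mu.length ≤ 3} =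
    (({[6], [5, 1], [4, 2], [4, 1, 1], [3, 3], [3, 2, 1], [2, 2, 2]} : Finset (List ℕ)) :
      Set (List ℕ)) := by
  ext mu
  simp only [Set.mem_setOf_eq, Finset.coe_insert, Finset.coe_singleton, Set.mem_insert_iff,
    Set.mem_singleton_iff]
  constructor
  · rintro ⟨⟨h1, h2⟩, h3, h4⟩
    match mu, h1, h2, h3, h4 with
    | [], _, _, h3, _ => simp at h3
    | [a], _, _, h3, _ =>
      simp at h3
      subst h3
      simp
    | [a, b], h1, h2, h3, _ =>
      simp only [List.pairwise_cons, List.mem_singleton, forall_eq, List.mem_cons, List.sum_cons,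
        List.sum_nil, forall_eq_or_imp] at h1 h2 h3
      have hb : b = 1 ∨ b = 2 ∨ b = 3 := by omega
      rcases hb with rfl | rfl | rfl
      · have : a = 5 := by omega
        subst this; simp
      · have : a = 4 := by omega
        subst this; simp
      · have : a = 3 := by omega
        subst this; simp
    | [a, b, c], h1, h2, h3, _ =>
      simp only [List.pairwise_cons, List.mem_singleton, forall_eq, List.mem_cons, List.sum_cons,
        List.sum_nil, forall_eq_or_imp] at h1 h2 h3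
      have hb : (b = 1 ∧ c = 1 ∧ a = 4) ∨ (b = 2 ∧ c = 1 ∧ a = 3) ∨ (b = 2 ∧ c = 2 ∧ a = 2) := by
        omega
      rcases hb with ⟨rfl, rfl, rfl⟩ | ⟨rfl, rfl, rfl⟩ | ⟨rfl, rfl, rfl⟩ <;> simp
    | (a :: b :: c :: d :: l), _, _, _, h4 => simp at h4; omega
  · rintro (rfl | rfl | rfl | rfl | rfl | rfl | rfl) <;> simp [IsPart]

end Q166.SpinKostka
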