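import Mathlib
import Pool.Agent.Q166.SpinKostka

/-!
Spin Kostka polynomials: solving the linear system in three variables.
-/

set_option autoImplicit false

namespace Q166.SpinKostka

theorem cN_600_810 : cN 6 0 0 810 = 1 + Polynomial.X := by
  unfold cN; norm_num [cM] <;> ring

theorem cN_600_720 : cN 6 0 0 720 = -Polynomial.X - Polynomial.X ^ 2 := by
  unfold cN; norm_num [cM] <;> ring

theorem cN_600_630 : cN 6 0 0 630 = 0 := by
  unfold cN; norm_num [cM] <;> ring

theorem cN_600_621 : cN 6 0 0 621 = Polynomial.X ^ 2 + Polynomial.X ^ 3 := by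
  unfold cN; norm_num [cM] <;> ring

theorem cN_600_540 : cN 6 0 0 540 = 0 := by
  unfold cN; norm_num [cM] <;> ring

theorem cN_600_531 : cN 6 0 0 531 = 0 := by
  unfold cN; norm_num [cM] <;> ring

theorem cN_510_810 : cN 5 1 0 810 = 0 := by
  unfold cN; norm_num [cM] <;> ring

theorem cN_510_720 : cN 5 1 0 720 = 1 := by
  unfold cN; norm_num [cM] <;> ring

theorem cN_510_630 : cN 5 1 0 630 = -Polynomial.X := by
  unfold cN; norm_num [cM] <;> ring

theorem cN_510_621 : cN 5 1 0 621 = -Polynomial.X := by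
  unfold cN; norm_num [cM] <;> ring

theorem cN_510_540 : cN 5 1 0 540 = 0 := by
  unfold cN; norm_num [cM] <;> ring

theorem cN_510_531 : cN 5 1 0 531 = Polynomial.X ^ 2 := by
  unfold cN; norm_num [cM] <;> ring

theorem cN_420_810 : cN 4 2 0 810 = 0 := by
  unfold cN; norm_num [cM] <;> ring

theorem cN_420_720 : cN 4 2 0 720 = 0 := by
  unfold cN; norm_num [cM] <;> ring

theorem cN_420_630 : cN 4 2 0 630 = 1 := by
  unfold cN; norm_num [cM] <;> ring

theorem cN_420_621 : cN 4 2 0 621 = -Polynomial.X := by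
  unfold cN; norm_num [cM] <;> ring

theorem cN_420_540 : cN 4 2 0 540 = -Polynomial.X := by
  unfold cN; norm_num [cM] <;> ring

theorem cN_420_531 : cN 4 2 0 531 = -Polynomial.X + Polynomial.X ^ 2 := by
  unfold cN; norm_num [cM] <;> ring

theorem cN_411_810 : cN 4 1 1 810 = 0 := by
  unfold cN; norm_num [cM] <;> ring

theorem cN_411_720 : cN 4 1 1 720 = 0 := by
  unfold cN; norm_num [cM] <;> ring

theorem cN_411_630 : cN 4 1 1 630 = 0 := by
  unfold cN; norm_num [cM] <;> ring

theorem cN_411_621 : cN 4 1 1 621 = 1 + Polynomial.X := by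
  unfold cN; norm_num [cM] <;> ring

theorem cN_411_540 : cN 4 1 1 540 = 0 := by
  unfold cN; norm_num [cM] <;> ring

theorem cN_411_531 : cN 4 1 1 531 = -Polynomial.X - Polynomial.X ^ 2 := by
  unfold cN; norm_num [cM] <;> ring

theorem cN_330_810 : cN 3 3 0 810 = 0 := by
  unfold cN; norm_num [cM] <;> ring

theorem cN_330_720 : cN 3 3 0 720 = 0 := by
  unfold cN; norm_num [cM] <;> ring

theorem cN_330_630 : cN 3 3 0 630 = 0 := by
  unfold cN; norm_num [cM] <;> ring

theorem cN_330_621 : cN 3 3 0 621 = 0 := by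
  unfold cN; norm_num [cM] <;> ring

theorem cN_330_540 : cN 3 3 0 540 = 1 + Polynomial.X := by
  unfold cN; norm_num [cM] <;> ring

theorem cN_330_531 : cN 3 3 0 531 = -Polynomial.X - Polynomial.X ^ 2 := by
  unfold cN; norm_num [cM] <;> ring

theorem cN_321_810 : cN 3 2 1 810 = 0 := by
  unfold cN; norm_num [cM] <;> ring

theorem cN_321_720 : cN 3 2 1 720 = 0 := by
  unfold cN; norm_num [cM] <;> ring

theorem cN_321_630 : cN 3 2 1 630 = 0 := by
  unfold cN; norm_num [cM] <;> ring

theorem cN_321_621 : cN 3 2 1 621 = 0 := by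
  unfold cN; norm_num [cM] <;> ring

theorem cN_321_540 : cN 3 2 1 540 = 0 := by
  unfold cN; norm_num [cM] <;> ring

theorem cN_321_531 : cN 3 2 1 531 = 1 := by
  unfold cN; norm_num [cM] <;> ring

theorem cN_222_810 : cN 2 2 2 810 = 0 := by
  unfold cN; norm_num [cM] <;> ring

theorem cN_222_720 : cN 2 2 2 720 = 0 := by
  unfold cN; norm_num [cM] <;> ring

theorem cN_222_630 : cN 2 2 2 630 = 0 := by
  unfold cN; norm_num [cM] <;> ring

theorem cN_222_621 : cN 2 2 2 621 = 0 := by
  unfold cN; norm_num [cM] <;> ring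

theorem cN_222_540 : cN 2 2 2 540 = 0 := by
  unfold cN; norm_num [cM] <;> ring

theorem cN_222_531 : cN 2 2 2 531 = 0 := by
  unfold cN; norm_num [cM] <;> ring

/-- `V = v_3(t)` -/
noncomputable def V : R := (1 + Polynomial.X) * (1 + Polynomial.X + Polynomial.X ^ 2)

theorem vm_0 : vm 0 = 1 := by unfold vm; simp

theorem vm_1 : vm 1 = 1 := by unfold vm; simp

theorem vm_2 : vm 2 = 1 + Polynomial.X := by
  unfold vm; simp [Finset.prod_range_succ, Finset.sum_range_succ]

theorem vm_3 : vm 3 = V := by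
  unfold vm V; simp [Finset.prod_range_succ, Finset.sum_range_succ]

theorem v6 : vmu 3 [6] = 1 + Polynomial.X := by
  unfold vmu
  rw [show ([6] : List ℕ).toFinset = {6} by decide, Finset.prod_singleton]
  simp [vm_1, vm_2]

theorem v51 : vmu 3 [5, 1] = 1 := by
  unfold vmu
  rw [show ([5, 1] : List ℕ).toFinset = {5, 1} by decide, Finset.prod_pair (by decide)]
  simp [vm_1]

theorem v42 : vmu 3 [4, 2] = 1 := by
  unfold vmu
  rw [show ([4, 2] : List ℕ).toFinset = {4, 2} by decide, Finset.prod_pair (by decide)]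
  simp [vm_1]

theorem v411 : vmu 3 [4, 1, 1] = 1 + Polynomial.X := by
  unfold vmu
  rw [show ([4, 1, 1] : List ℕ).toFinset = {4, 1} by decide, Finset.prod_pair (by decide)]
  simp [vm_1, vm_2, vm_0]

theorem v33 : vmu 3 [3, 3] = 1 + Polynomial.X := by
  unfold vmu
  rw [show ([3, 3] : List ℕ).toFinset = {3} by decide, Finset.prod_singleton]
  simp [vm_1, vm_2]

theorem v321 : vmu 3 [3, 2, 1] = 1 := by
  unfold vmu
  rw [show ([3, 2, 1] : List ℕ).toFinset = {3, 2, 1} by decide, Finset.prod_insert (by decide),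
    Finset.prod_pair (by decide)]
  simp [vm_1, vm_0]

theorem v222 : vmu 3 [2, 2, 2] = V := by
  unfold vmu
  rw [show ([2, 2, 2] : List ℕ).toFinset = {2} by decide, Finset.prod_singleton]
  simp [vm_3, vm_0]

theorem W_ne : (1 + Polynomial.X : R) ≠ 0 := by
  intro h
  have := congrArg (fun p : R => p.coeff 1) h
  simp [Polynomial.coeff_one] at this

theorem V_ne : V ≠ 0 := by
  intro h
  have h1 := congrArg (fun p : R => p.coeff 0) h
  unfold V at h1
  rw [show ((1 + Polynomial.X) * (1 + Polynomial.X + Polynomial.X ^ 2) : R) =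
    Polynomial.X * (2 + 2 * Polynomial.X + Polynomial.X ^ 2) + 1 by ring] at h1
  simp [Polynomial.coeff_one] at h1

/-- one numerator, in three variables -/
noncomputable def nm (mu : List ℕ) : MvPolynomial (Fin 3) R :=
  num (MvPolynomial.C (Polynomial.X : R)) (MvPolynomial.X 0)
        (MvPolynomial.X 1) (MvPolynomial.X 2) (mu.getD 0 0) (mu.getD 1 0) (mu.getD 2 0)

theorem term_eq (mu : List ℕ) (k cof : R) (h : vmu 3 mu ≠ 0) (hV : V = cof * vmu 3 mu) :
    (sc 3 V * inc 3 Del) * (sc 3 k * HLP 3 mu) = inc 3 (MvPolynomial.C (k * cof) * nm mu) := by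
  have h1 := HLP_three mu h
  have h2 : sc 3 V = sc 3 cof * sc 3 (vmu 3 mu) := by
    unfold sc
    rw [hV, MvPolynomial.C_mul, map_mul]
  rw [h2, map_mul, MvPolynomial.C_mul, map_mul]
  unfold nm
  rw [← h1]
  unfold sc
  ring

theorem identity3 (K : List ℕ → R)
    (hK : inc 3 (SQ 3 [4, 2]) = ∑ᶠ mu ∈ {mu : List ℕ | IsPart mu ∧
      mu.sum = ([4, 2] : List ℕ).sum ∧ mu.length ≤ 3}, sc 3 (K mu) * HLP 3 mu) :
    MvPolynomial.C V * Del * SQ 3 [4, 2] =
      MvPolynomial.C (K [6] * (1 + Polynomial.X + Polynomial.X ^ 2)) * nm [6] +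
      (MvPolynomial.C (K [5, 1] * V) * nm [5, 1] +
      (MvPolynomial.C (K [4, 2] * V) * nm [4, 2] +
      (MvPolynomial.C (K [4, 1, 1] * (1 + Polynomial.X + Polynomial.X ^ 2)) * nm [4, 1, 1] +
      (MvPolynomial.C (K [3, 3] * (1 + Polynomial.X + Polynomial.X ^ 2)) * nm [3, 3] +
      (MvPolynomial.C (K [3, 2, 1] * V) * nm [3, 2, 1] +
      (MvPolynomial.C (K [2, 2, 2] * 1) * nm [2, 2, 2])))))) := by
  rw [parts_six, finsum_mem_coe_finset, Finset.sum_insert (by decide),
    Finset.sum_insert (by decide), Finset.sum_insert (by decide), Finset.sum_insert (by decide),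
    Finset.sum_insert (by decide), Finset.sum_insert (by decide), Finset.sum_singleton] at hK
  have e6 := term_eq [6] (K [6]) (1 + Polynomial.X + Polynomial.X ^ 2)
    (by rw [v6]; exact W_ne) (by rw [v6]; unfold V; ring)
  have e51 := term_eq [5, 1] (K [5, 1]) V (by rw [v51]; exact one_ne_zero) (by rw [v51, mul_one])
  have e42 := term_eq [4, 2] (K [4, 2]) V (by rw [v42]; exact one_ne_zero) (by rw [v42, mul_one])
  have e411 := term_eq [4, 1, 1] (K [4, 1, 1]) (1 + Polynomial.X + Polynomial.X ^ 2)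
    (by rw [v411]; exact W_ne) (by rw [v411]; unfold V; ring)
  have e33 := term_eq [3, 3] (K [3, 3]) (1 + Polynomial.X + Polynomial.X ^ 2)
    (by rw [v33]; exact W_ne) (by rw [v33]; unfold V; ring)
  have e321 := term_eq [3, 2, 1] (K [3, 2, 1]) V (by rw [v321]; exact one_ne_zero)
    (by rw [v321, mul_one])
  have e222 := term_eq [2, 2, 2] (K [2, 2, 2]) 1 (by rw [v222]; exact V_ne)
    (by rw [v222, one_mul])
  apply inc_inj 3
  rw [map_add, map_add, map_add, map_add, map_add, map_add, ← e6, ← e51, ← e42, ← e411, ← e33,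
    ← e321, ← e222, ← mul_add, ← mul_add, ← mul_add, ← mul_add, ← mul_add, ← mul_add, ← hK,
    map_mul, map_mul]
  rfl

theorem coeff_left (k : ℕ) (hk : 210 ≤ k) :
    (phi (MvPolynomial.C V * Del * SQ 3 [4, 2])).coeff k =
      V * (((cnt (k - 210) : ℤ) - cnt (k - 201) + cnt (k - 102) - cnt (k - 120) + cnt (k - 21) -
        cnt (k - 12) : ℤ) : R) := by
  have h3 : phi (MvPolynomial.C V) = Polynomial.C V := by
    unfold phi; rw [MvPolynomial.aeval_C]; rfl
  have key : (((Polynomial.X : Polynomial R) ^ 210 - Polynomial.X ^ 201 +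
    Polynomial.X ^ 102 - Polynomial.X ^ 120 + Polynomial.X ^ 21 - Polynomial.X ^ 12) *
      phi (SQ 3 [4, 2])).coeff k =
      (((cnt (k - 210) : ℤ) - cnt (k - 201) + cnt (k - 102) - cnt (k - 120) + cnt (k - 21) -
        cnt (k - 12) : ℤ) : R) := by
    rw [show ((Polynomial.X : Polynomial R) ^ 210 - Polynomial.X ^ 201 +
      Polynomial.X ^ 102 - Polynomial.X ^ 120 + Polynomial.X ^ 21 - Polynomial.X ^ 12) *
        phi (SQ 3 [4, 2]) = Polynomial.X ^ 210 * phi (SQ 3 [4, 2]) -
        Polynomial.X ^ 201 * phi (SQ 3 [4, 2]) + Polynomial.X ^ 102 * phi (SQ 3 [4, 2]) -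
        Polynomial.X ^ 120 * phi (SQ 3 [4, 2]) + Polynomial.X ^ 21 * phi (SQ 3 [4, 2]) -
        Polynomial.X ^ 12 * phi (SQ 3 [4, 2]) by ring]
    simp only [Polynomial.coeff_add, Polynomial.coeff_sub, Polynomial.coeff_X_pow_mul', coeff_SQ]
    rw [if_pos (by omega), if_pos (by omega), if_pos (by omega), if_pos (by omega),
      if_pos (by omega), if_pos (by omega)]
    push_cast
    ring
  rw [map_mul, map_mul, h3, phi_Del, mul_assoc, Polynomial.coeff_C_mul, key]

theorem coeff_right (a : R) (mu : List ℕ) (k : ℕ) :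
    (phi (MvPolynomial.C a * nm mu)).coeff k =
      a * cN (mu.getD 0 0) (mu.getD 1 0) (mu.getD 2 0) k := by
  have h3 : phi (MvPolynomial.C a) = Polynomial.C a := by
    unfold phi; rw [MvPolynomial.aeval_C]; rfl
  rw [map_mul, h3, Polynomial.coeff_C_mul]
  unfold nm
  rw [phi_num, coeff_num]

theorem eq_coeff (K : List ℕ → R)
    (hK : inc 3 (SQ 3 [4, 2]) = ∑ᶠ mu ∈ {mu : List ℕ | IsPart mu ∧
      mu.sum = ([4, 2] : List ℕ).sum ∧ mu.length ≤ 3}, sc 3 (K mu) * HLP 3 mu)
    (k : ℕ) (hk : 210 ≤ k) :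
    V * (((cnt (k - 210) : ℤ) - cnt (k - 201) + cnt (k - 102) - cnt (k - 120) + cnt (k - 21) -
        cnt (k - 12) : ℤ) : R) =
      (K [6] * (1 + Polynomial.X + Polynomial.X ^ 2)) * cN 6 0 0 k +
      ((K [5, 1] * V) * cN 5 1 0 k +
      ((K [4, 2] * V) * cN 4 2 0 k +
      ((K [4, 1, 1] * (1 + Polynomial.X + Polynomial.X ^ 2)) * cN 4 1 1 k +
      ((K [3, 3] * (1 + Polynomial.X + Polynomial.X ^ 2)) * cN 3 3 0 k +
      ((K [3, 2, 1] * V) * cN 3 2 1 k +
      ((K [2, 2, 2] * 1) * cN 2 2 2 k)))))) := by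
  have h := congrArg (fun p => (phi p).coeff k) (identity3 K hK)
  rw [coeff_left k hk] at h
  simp only [map_add, Polynomial.coeff_add] at h
  simp only [coeff_right] at h
  exact h

theorem cntL (k : ℕ) (a b c d e f : ℕ) (h1 : cnt (k - 210) = a) (h2 : cnt (k - 201) = b)
    (h3 : cnt (k - 102) = c) (h4 : cnt (k - 120) = d) (h5 : cnt (k - 21) = e)
    (h6 : cnt (k - 12) = f) :
    (((cnt (k - 210) : ℤ) - cnt (k - 201) + cnt (k - 102) - cnt (k - 120) + cnt (k - 21) -
        cnt (k - 12) : ℤ) : R) = (((a : ℤ) - b + c - d + e - f : ℤ) : R) := by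
  rw [h1, h2, h3, h4, h5, h6]

theorem cntL_810 : (((cnt (810 - 210) : ℤ) - cnt (810 - 201) + cnt (810 - 102) - cnt (810 - 120) +
    cnt (810 - 21) - cnt (810 - 12) : ℤ) : R) = 0 := by
  rw [cntL 810 0 0 0 0 0 0 (by decide +kernel) (by decide +kernel)
    (by decide +kernel) (by decide +kernel) (by decide +kernel) (by decide +kernel)]
  norm_num

theorem cntL_720 : (((cnt (720 - 210) : ℤ) - cnt (720 - 201) + cnt (720 - 102) - cnt (720 - 120) +
    cnt (720 - 21) - cnt (720 - 12) : ℤ) : R) = 0 := by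
  rw [cntL 720 0 0 0 0 0 0 (by decide +kernel) (by decide +kernel)
    (by decide +kernel) (by decide +kernel) (by decide +kernel) (by decide +kernel)]
  norm_num

theorem cntL_630 : (((cnt (630 - 210) : ℤ) - cnt (630 - 201) + cnt (630 - 102) - cnt (630 - 120) +
    cnt (630 - 21) - cnt (630 - 12) : ℤ) : R) = 4 := by
  rw [cntL 630 4 0 0 0 0 0 (by decide +kernel) (by decide +kernel)
    (by decide +kernel) (by decide +kernel) (by decide +kernel) (by decide +kernel)]
  norm_num

theorem cntL_621 : (((cnt (621 - 210) : ℤ) - cnt (621 - 201) + cnt (621 - 102) - cnt (621 - 120) +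
    cnt (621 - 21) - cnt (621 - 12) : ℤ) : R) = 4 := by
  rw [cntL 621 8 4 0 0 0 0 (by decide +kernel) (by decide +kernel)
    (by decide +kernel) (by decide +kernel) (by decide +kernel) (by decide +kernel)]
  norm_num

theorem cntL_540 : (((cnt (540 - 210) : ℤ) - cnt (540 - 201) + cnt (540 - 102) - cnt (540 - 120) +
    cnt (540 - 21) - cnt (540 - 12) : ℤ) : R) = 4 := by
  rw [cntL 540 8 0 0 4 0 0 (by decide +kernel) (by decide +kernel)
    (by decide +kernel) (by decide +kernel) (by decide +kernel) (by decide +kernel)]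
  norm_num

theorem cntL_531 : (((cnt (531 - 210) : ℤ) - cnt (531 - 201) + cnt (531 - 102) - cnt (531 - 120) +
    cnt (531 - 21) - cnt (531 - 12) : ℤ) : R) = 8 := by
  rw [cntL 531 24 8 0 8 0 0 (by decide +kernel) (by decide +kernel)
    (by decide +kernel) (by decide +kernel) (by decide +kernel) (by decide +kernel)]
  norm_num


theorem solve (K : List ℕ → R)
    (hK : inc 3 (SQ 3 [4, 2]) = ∑ᶠ mu ∈ {mu : List ℕ | IsPart mu ∧
      mu.sum = ([4, 2] : List ℕ).sum ∧ mu.length ≤ 3}, sc 3 (K mu) * HLP 3 mu) :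
    K [3, 2, 1] = 8 + 12 * Polynomial.X + 4 * Polynomial.X ^ 2 := by
  have q1 := eq_coeff K hK 810 (by norm_num)
  have q2 := eq_coeff K hK 720 (by norm_num)
  have q3 := eq_coeff K hK 630 (by norm_num)
  have q4 := eq_coeff K hK 621 (by norm_num)
  have q5 := eq_coeff K hK 540 (by norm_num)
  have q6 := eq_coeff K hK 531 (by norm_num)
  rw [cntL_810, cN_600_810, cN_510_810, cN_420_810, cN_411_810, cN_330_810, cN_321_810,
    cN_222_810] at q1
  rw [cntL_720, cN_600_720, cN_510_720, cN_420_720, cN_411_720, cN_330_720, cN_321_720,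
    cN_222_720] at q2
  rw [cntL_630, cN_600_630, cN_510_630, cN_420_630, cN_411_630, cN_330_630, cN_321_630,
    cN_222_630] at q3
  rw [cntL_621, cN_600_621, cN_510_621, cN_420_621, cN_411_621, cN_330_621, cN_321_621,
    cN_222_621] at q4
  rw [cntL_540, cN_600_540, cN_510_540, cN_420_540, cN_411_540, cN_330_540, cN_321_540,
    cN_222_540] at q5
  rw [cntL_531, cN_600_531, cN_510_531, cN_420_531, cN_411_531, cN_330_531, cN_321_531,
    cN_222_531] at q6
  have hV : V = (1 + Polynomial.X) * (1 + Polynomial.X + Polynomial.X ^ 2) := rfl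
  have k6 : K [6] = 0 := by
    apply mul_left_cancel₀ V_ne
    rw [mul_zero, hV]
    linear_combination -q1
  rw [k6] at q2 q3 q4 q5 q6
  have k51 : K [5, 1] = 0 := by
    apply mul_left_cancel₀ V_ne
    linear_combination -q2
  rw [k51] at q3 q4 q5 q6
  have k42 : K [4, 2] = 4 := by
    apply mul_left_cancel₀ V_ne
    linear_combination -q3
  rw [k42] at q4 q5 q6
  have k411 : K [4, 1, 1] = 4 + 4 * Polynomial.X := by
    apply mul_left_cancel₀ V_ne
    have : V * K [4, 1, 1] = K [4, 1, 1] * (1 + Polynomial.X + Polynomial.X ^ 2) *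
      (1 + Polynomial.X) := by rw [hV]; ring
    rw [this]
    linear_combination -q4
  have k33 : K [3, 3] = 4 + 4 * Polynomial.X := by
    apply mul_left_cancel₀ V_ne
    have : V * K [3, 3] = K [3, 3] * (1 + Polynomial.X + Polynomial.X ^ 2) *
      (1 + Polynomial.X) := by rw [hV]; ring
    rw [this]
    linear_combination -q5
  rw [k411, k33] at q6
  apply mul_left_cancel₀ V_ne
  rw [hV] at q6 ⊢
  linear_combination -q6

end Q166.SpinKostka
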