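import Pool.Agent.Q120.TD.Family
import Pool.Agent.Q120.MF.Exists

/-!
# Tail bounds for the number of elements of a window in Cramér's model
-/

set_option autoImplicit false

namespace Pool.Agent.Q166.Sq

open Finset MeasureTheory Filter Pool.Agent.Q120.ET Pool.Agent.Q120.MF Pool.Agent.Q120.AD Pool.Agent.Q120.NC
  Pool.Agent.Q120.TD
open scoped Topology

variable {Ω : Type*} [MeasurableSpace Ω] {μ : Measure Ω} [IsProbabilityMeasure μ] {A : Ω → Set ℕ}

theorem exp_quad {l : ℝ} (h0 : 0 ≤ l) (h1 : l ≤ 1) : Real.exp l ≤ 1 + l + l ^ 2 / 2 * (1 + l) := by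
  have h := Real.exp_bound' h0 h1 (n := 3) (by norm_num)
  simp only [sum_range_succ, sum_range_zero, Nat.factorial] at h
  norm_num at h
  nlinarith [pow_nonneg h0 3]

/-- the sum over the sets above a level -/
theorem up_sum {W : Finset ℕ} (hW : ∀ n ∈ W, 3 ≤ n) {M' t : ℝ} (hM : mu W ≤ M') (ht0 : 0 < t)
    (ht : t ≤ M') : ∑ T ∈ W.powerset with mu W + t < (T.card : ℝ), cramerOn W T ≤
      3 * Real.exp (-(t ^ 2 / (2 * M') * (1 - t / M'))) := by
  have hM' : 0 < M' := by linarith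
  obtain ⟨l, hl⟩ : ∃ l : ℝ, l = t / M' := ⟨_, rfl⟩
  have hl0 : 0 ≤ l := by rw [hl]; positivity
  have hl1 : l ≤ 1 := by rw [hl, div_le_one hM']; exact ht
  have hμ := mu_nonneg (W := W)
  obtain ⟨m, hm⟩ : ∃ m : ℕ, m = ⌊mu W + t⌋₊ := ⟨_, rfl⟩
  have h1 := upper_tail hW (show 1 ≤ Real.exp l from Real.one_le_exp hl0) m
  have h2 : ∑ T ∈ W.powerset with mu W + t < (T.card : ℝ), cramerOn W T ≤
      ∑ T ∈ W.powerset with ¬ T.card ≤ m, cramerOn W T := by
    refine sum_le_sum_of_subset_of_nonneg ?_ ?_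
    · intro T hT
      rw [mem_filter] at hT ⊢
      refine ⟨hT.1, fun hcon => ?_⟩
      have h3 : (T.card : ℝ) ≤ m := by exact_mod_cast hcon
      have h4 : (m : ℝ) ≤ mu W + t := by
        rw [hm]
        exact Nat.floor_le (by linarith)
      linarith [hT.2]
    · intro T hT _
      exact cramerOn_nonneg hW (mem_powerset.1 (mem_filter.1 hT).1)
  refine h2.trans (h1.trans ?_)
  have h3 : (1 / Real.exp l) ^ m = Real.exp (-(l * m)) := by
    rw [one_div, ← Real.exp_neg, ← Real.exp_nat_mul]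
    congr 1
    ring
  have h4 : mu W + t - 1 ≤ m := by
    rw [hm]
    have := Nat.lt_floor_add_one (mu W + t)
    linarith
  have h5 : ∑ n ∈ W, 1 / Real.log (n : ℝ) = mu W := rfl
  rw [h3, h5, ← Real.exp_add]
  have h6 := exp_quad hl0 hl1
  have h7 : -(l * m) + -((1 - Real.exp l) * mu W) ≤ 1 + -(t ^ 2 / (2 * M') * (1 - t / M')) := by
    have e1 : l * (mu W + t - 1) ≤ l * m := mul_le_mul_of_nonneg_left h4 hl0
    have e2 : (Real.exp l - 1 - l) * mu W ≤ l ^ 2 / 2 * (1 + l) * M' := by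
      calc (Real.exp l - 1 - l) * mu W ≤ (l ^ 2 / 2 * (1 + l)) * mu W :=
            mul_le_mul_of_nonneg_right (by linarith) hμ
        _ ≤ _ := mul_le_mul_of_nonneg_left hM (by positivity)
    have e3 : t = l * M' := by rw [hl]; field_simp
    have e4 : t ^ 2 / (2 * M') * (1 - t / M') = l * t - l ^ 2 / 2 * (1 + l) * M' := by
      rw [← hl, e3]
      field_simp
      ring
    rw [e4]
    nlinarith
  calc Real.exp (-(l * m) + -((1 - Real.exp l) * mu W)) ≤
        Real.exp (1 + -(t ^ 2 / (2 * M') * (1 - t / M'))) := Real.exp_le_exp.2 h7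
    _ = Real.exp 1 * Real.exp (-(t ^ 2 / (2 * M') * (1 - t / M'))) := Real.exp_add _ _
    _ ≤ _ := mul_le_mul_of_nonneg_right (by linarith [Real.exp_one_lt_d9]) (Real.exp_pos _).le

theorem down_sum {W : Finset ℕ} (hW : ∀ n ∈ W, 3 ≤ n) {M' t : ℝ} (hM : mu W ≤ M') (ht0 : 0 < t) :
    ∑ T ∈ W.powerset with (T.card : ℝ) < mu W - t, cramerOn W T ≤
      Real.exp (-(t ^ 2 / (2 * M'))) := by
  have hμ := mu_nonneg (W := W)
  by_cases h : mu W ≤ t
  · have h1 : W.powerset.filter (fun T => (T.card : ℝ) < mu W - t) = ∅ := by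
      rw [filter_eq_empty_iff]
      intro T _ hT
      have : (0 : ℝ) ≤ T.card := Nat.cast_nonneg _
      linarith
    rw [h1, sum_empty]
    exact (Real.exp_pos _).le
  · push Not at h
    have hμ0 : 0 < mu W := by linarith
    have h1 := tail_down hW (η := t / mu W) (by positivity) (by rw [div_lt_one hμ0]; exact h)
    have h2 : (1 - t / mu W) * mu W = mu W - t := by field_simp
    rw [h2] at h1
    refine h1.trans (Real.exp_le_exp.2 (neg_le_neg ?_))
    have h3 : (t / mu W) ^ 2 / 2 * mu W = t ^ 2 / (2 * mu W) := by field_simp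
    rw [h3]
    exact div_le_div_of_nonneg_left (by positivity) (by positivity) (by linarith)

/-- **The two-sided tail**, with an upper bound for the mean. -/
theorem tail_two (hA : IsCramer μ A) {W : Finset ℕ} (hW : ∀ n ∈ W, 3 ≤ n) {M' t : ℝ} (hM : mu W ≤ M')
    (ht0 : 0 < t) (ht : t ≤ M') : μ.real {ω | t < |((tr A W ω).card : ℝ) - mu W|} ≤
      4 * Real.exp (-(t ^ 2 / (2 * M') * (1 - t / M'))) := by
  classical
  have hM' : 0 < M' := by linarith
  have hsub : {ω | t < |((tr A W ω).card : ℝ) - mu W|} ⊆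
      {ω | mu W + t < ((tr A W ω).card : ℝ)} ∪ {ω | ((tr A W ω).card : ℝ) < mu W - t} := by
    intro ω hω
    have hω' : t < |((tr A W ω).card : ℝ) - mu W| := hω
    rw [lt_abs] at hω'
    rcases hω' with h | h
    · left
      show mu W + t < ((tr A W ω).card : ℝ)
      linarith
    · right
      show ((tr A W ω).card : ℝ) < mu W - t
      linarith
  have e1 := up_sum hW hM ht0 ht
  have e2 := down_sum hW hM ht0
  rw [← real_pred hA hW (fun T => mu W + t < (T.card : ℝ))] at e1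
  rw [← real_pred hA hW (fun T => (T.card : ℝ) < mu W - t)] at e2
  have e3 := (measureReal_mono (μ := μ) hsub (measure_ne_top _ _)).trans (measureReal_union_le _ _)
  have e4 : Real.exp (-(t ^ 2 / (2 * M'))) ≤ Real.exp (-(t ^ 2 / (2 * M') * (1 - t / M'))) := by
    refine Real.exp_le_exp.2 (neg_le_neg ?_)
    have h1 : 0 ≤ t / M' := by positivity
    have h2 : 0 ≤ t ^ 2 / (2 * M') := by positivity
    nlinarith
  linarith

/-- **Lower bound for the probability of a deviation in a given window**, upwards. -/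
theorem window_up {c ε : ℝ} (hc0 : 0 ≤ c) (hc1 : c ≤ 1) (hε : 0 < ε) (hε1 : ε ≤ 1) :
    ∃ L0 : ℝ, 1 ≤ L0 ∧ ∀ (W : Finset ℕ) (L : ℝ), (∀ n ∈ W, 3 ≤ n) →
      (∀ n ∈ W, 1 / Real.log (n : ℝ) ≤ 1 / L0) → L0 ≤ L → L0 * L ≤ mu W →
      Real.exp (-((c + ε) ^ 2 * L)) ≤
        ∑ T ∈ W.powerset with (mu W + c * √(2 * mu W * L) ≤ (T.card : ℝ) ∧
          (T.card : ℝ) ≤ mu W + (c + 2 * ε) * √(2 * mu W * L)), cramerOn W T := by
  refine ⟨8000 / ε ^ 4, ?_, ?_⟩
  · rw [le_div_iff₀ (by positivity)]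
    have : ε ^ 4 ≤ 1 := pow_le_one₀ hε.le hε1
    linarith
  intro W L hW hlog hL0 hL
  have hε4 : 0 < ε ^ 4 := by positivity
  have hε2 : ε ^ 2 ≤ 1 := pow_le_one₀ hε.le hε1
  have hε2' : 0 < ε ^ 2 := by positivity
  have hεε : ε ^ 2 ≤ ε := by
    rw [sq]
    exact mul_le_of_le_one_left hε.le hε1
  have hε42 : ε ^ 4 ≤ ε ^ 2 := by nlinarith
  have hLε : 8000 ≤ L * ε ^ 4 := by rwa [div_le_iff₀ hε4] at hL0
  have hLpos : 0 < L := by
    by_contra hcon
    push Not at hcon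
    nlinarith
  have hL2000 : 8000 ≤ L := by nlinarith
  obtain ⟨m, hm⟩ : ∃ m : ℝ, m = mu W := ⟨_, rfl⟩
  have hmL : 8000 * L ≤ m * ε ^ 4 := by
    rw [div_mul_eq_mul_div, div_le_iff₀ hε4, ← hm] at hL
    exact hL
  have hm0 : 0 < m := by
    by_contra hcon
    push Not at hcon
    nlinarith
  rw [← hm]
  -- the square roots
  obtain ⟨q, hq⟩ : ∃ q : ℝ, q = √(2 * L) := ⟨_, rfl⟩
  obtain ⟨r, hr⟩ : ∃ r : ℝ, r = √m := ⟨_, rfl⟩
  have hq0 : 0 < q := by rw [hq]; exact Real.sqrt_pos.2 (by linarith)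
  have hr0 : 0 < r := by rw [hr]; exact Real.sqrt_pos.2 hm0
  have hq2 : q ^ 2 = 2 * L := by rw [hq]; exact Real.sq_sqrt (by linarith)
  have hr2 : r ^ 2 = m := by rw [hr]; exact Real.sq_sqrt hm0.le
  have hs : √(2 * m * L) = r * q := by
    rw [show 2 * m * L = (r * q) ^ 2 by rw [mul_pow, hq2, hr2]; ring]
    exact Real.sqrt_sq (by positivity)
  rw [hs]
  -- q / r is small
  have hqr : q * 40 ≤ r * ε ^ 2 := by
    apply le_of_sq_le_sq _ (by positivity)
    rw [mul_pow, mul_pow, hq2, hr2]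
    nlinarith
  have hqbig : 60 ≤ q * ε ^ 2 := by
    apply le_of_sq_le_sq _ (by positivity)
    rw [mul_pow, hq2]
    nlinarith
  obtain ⟨a, ha⟩ : ∃ a : ℝ, a = c + ε / 2 := ⟨_, rfl⟩
  have ha0 : 0 < a := by rw [ha]; linarith
  have ha1 : a ≤ 3 / 2 := by rw [ha]; linarith
  obtain ⟨η, hη⟩ : ∃ η : ℝ, η = a * (q / r) := ⟨_, rfl⟩
  have hη0 : 0 < η := by rw [hη]; positivity
  have hqr' : q / r ≤ ε ^ 2 / 40 := by
    rw [div_le_div_iff₀ hr0 (by norm_num)]
    linarith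
  have hη1 : η ≤ 3 / 80 * ε ^ 2 := by
    rw [hη]
    calc a * (q / r) ≤ 3 / 2 * (ε ^ 2 / 40) := mul_le_mul ha1 hqr' (by positivity) (by norm_num)
      _ = _ := by ring
  have hηm : η * m = a * (r * q) := by
    rw [hη, ← hr2]
    field_simp
  have hηm2 : η ^ 2 / 2 * m = a ^ 2 * L := by
    rw [hη, ← hr2, show L = q ^ 2 / 2 by rw [hq2]; ring]
    field_simp
  have hηr : η * r = a * q := by
    rw [hη]
    field_simp
  obtain ⟨δ, hδ⟩ : ∃ δ : ℝ, δ = ε ^ 4 / 8000 := ⟨_, rfl⟩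
  have hδ0 : 0 < δ := by rw [hδ]; positivity
  have hδ1 : δ ≤ ε ^ 2 / 8000 := by rw [hδ]; linarith
  have hlog' : ∀ n ∈ W, 1 / Real.log (n : ℝ) ≤ δ := by
    intro n hn
    refine (hlog n hn).trans (le_of_eq ?_)
    rw [hδ]
    field_simp
  have h1 := dev_up hW hlog' (by linarith) hη0 (by linarith) (by rw [← hm]; exact hm0)
  rw [← hm, ← hr] at h1
  -- the level
  have h2 : m + c * (r * q) ≤ (1 + η) * (1 - η * δ) * m - 2 * r := by
    have e1 : (1 + η) * (1 - η * δ) * m = m + η * m - δ * (1 + η) * (η * m) := by ring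
    rw [e1, hηm]
    have e2 : δ * (1 + η) ≤ ε / 1000 := by
      calc δ * (1 + η) ≤ δ * 2 := mul_le_mul_of_nonneg_left (by linarith) hδ0.le
        _ ≤ ε / 1000 := by linarith
    have e3 : δ * (1 + η) * (a * (r * q)) ≤ ε / 1000 * (3 / 2 * (r * q)) := by
      apply mul_le_mul e2 (mul_le_mul_of_nonneg_right ha1 (by positivity)) (by positivity) (by positivity)
    have e4 : 2 * r ≤ ε / 30 * (r * q) := by
      have e41 : 60 ≤ q * ε := by
        have : q * ε ^ 2 ≤ q * ε := mul_le_mul_of_nonneg_left hεε hq0.le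
        linarith
      have e42 := mul_le_mul_of_nonneg_left e41 hr0.le
      linarith
    have e5 : a * (r * q) = c * (r * q) + ε / 2 * (r * q) := by rw [ha]; ring
    have e6 : 0 < ε * (r * q) := by positivity
    linarith
  have h3 : 2 * Real.exp (-((c + ε) ^ 2 * L)) ≤
      1 / 2 * Real.exp (-(η ^ 2 / 2 * (1 + δ) * m) - 2 * η * r) := by
    have e1 : η ^ 2 / 2 * (1 + δ) * m = a ^ 2 * L * (1 + δ) := by rw [← hηm2]; ring
    have e2 : 2 * η * r = 2 * (a * q) := by rw [← hηr]; ring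
    rw [e1, e2]
    have e3 : (4 : ℝ) ≤ Real.exp 2 := by
      have := Real.quadratic_le_exp_of_nonneg (show (0 : ℝ) ≤ 2 by norm_num)
      linarith
    have e4 : -((c + ε) ^ 2 * L) + 2 ≤ -(a ^ 2 * L * (1 + δ)) - 2 * (a * q) := by
      have g1 : (c + ε) ^ 2 - a ^ 2 = ε / 2 * (2 * c + 3 / 2 * ε) := by rw [ha]; ring
      have g2 : 3 / 4 * ε ^ 2 ≤ (c + ε) ^ 2 - a ^ 2 := by
        rw [g1]
        have : 0 ≤ ε * c := mul_nonneg hε.le hc0
        linarith
      have g3 : a ^ 2 * δ ≤ ε ^ 2 / 800 := by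
        have g31 : a ^ 2 ≤ 9 / 4 := by
          rw [sq]
          exact (mul_le_mul ha1 ha1 ha0.le (by norm_num)).trans (by norm_num)
        calc a ^ 2 * δ ≤ 9 / 4 * (ε ^ 2 / 8000) := mul_le_mul g31 hδ1 hδ0.le (by norm_num)
          _ ≤ _ := by linarith
      have g4 : 2 * (a * q) ≤ 3 * q := by
        have := mul_le_mul_of_nonneg_right ha1 hq0.le
        linarith
      have g5 : L = q ^ 2 / 2 := by rw [hq2]; ring
      have g51 : 60 * q ≤ q * ε ^ 2 * q := mul_le_mul_of_nonneg_right hqbig hq0.le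
      have g52 : 60 ≤ q := hqbig.trans (mul_le_of_le_one_right hq0.le hε2)
      have g6 : 3 * q + 2 ≤ (3 / 4 * ε ^ 2 - ε ^ 2 / 800) * L := by
        rw [g5]
        have : (3 / 4 * ε ^ 2 - ε ^ 2 / 800) * (q ^ 2 / 2) = (3 / 8 - 1 / 1600) * (q * ε ^ 2 * q) := by ring
        rw [this]
        linarith
      have g7 : (3 / 4 * ε ^ 2 - ε ^ 2 / 800) * L ≤ ((c + ε) ^ 2 - a ^ 2 - a ^ 2 * δ) * L :=
        mul_le_mul_of_nonneg_right (by linarith) hLpos.le
      linarith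
    calc 2 * Real.exp (-((c + ε) ^ 2 * L)) = 1 / 2 * (4 * Real.exp (-((c + ε) ^ 2 * L))) := by ring
      _ ≤ 1 / 2 * (Real.exp 2 * Real.exp (-((c + ε) ^ 2 * L))) := by
          apply mul_le_mul_of_nonneg_left _ (by norm_num)
          exact mul_le_mul_of_nonneg_right e3 (Real.exp_pos _).le
      _ = 1 / 2 * Real.exp (-((c + ε) ^ 2 * L) + 2) := by rw [Real.exp_add]; ring
      _ ≤ _ := by
          apply mul_le_mul_of_nonneg_left _ (by norm_num)
          exact Real.exp_le_exp.2 e4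
  -- the tail
  have ht0 : 0 < (c + 2 * ε) * (r * q) := by positivity
  have htm : (c + 2 * ε) * (r * q) / m ≤ 3 / 40 * ε ^ 2 := by
    have e1 : (c + 2 * ε) * (r * q) / m = (c + 2 * ε) * (q / r) := by
      rw [← hr2]
      field_simp
    rw [e1]
    calc (c + 2 * ε) * (q / r) ≤ 3 * (ε ^ 2 / 40) := mul_le_mul (by linarith) hqr' (by positivity) (by norm_num)
      _ = _ := by ring
  have h4 := up_sum hW (M' := m) (t := (c + 2 * ε) * (r * q)) (le_of_eq hm.symm) ht0 (by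
    have e1 : (c + 2 * ε) * (r * q) / m ≤ 1 := by linarith
    rwa [div_le_one hm0] at e1)
  rw [← hm] at h4
  have h5 : 3 * Real.exp (-(((c + 2 * ε) * (r * q)) ^ 2 / (2 * m) * (1 - (c + 2 * ε) * (r * q) / m))) ≤
      Real.exp (-((c + ε) ^ 2 * L)) := by
    have e1 : ((c + 2 * ε) * (r * q)) ^ 2 / (2 * m) = (c + 2 * ε) ^ 2 * L := by
      rw [mul_pow, mul_pow, hr2, hq2]
      field_simp
    rw [e1]
    have e3 : (3 : ℝ) ≤ Real.exp 2 := by
      have := Real.quadratic_le_exp_of_nonneg (show (0 : ℝ) ≤ 2 by norm_num)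
      linarith
    have e4 : 2 + -((c + 2 * ε) ^ 2 * L * (1 - (c + 2 * ε) * (r * q) / m)) ≤ -((c + ε) ^ 2 * L) := by
      have g1 : (c + 2 * ε) ^ 2 - (c + ε) ^ 2 = ε * (2 * c + 3 * ε) := by ring
      have g2 : 3 * ε ^ 2 ≤ (c + 2 * ε) ^ 2 - (c + ε) ^ 2 := by
        rw [g1]
        have : 0 ≤ ε * c := mul_nonneg hε.le hc0
        linarith
      have g3 : (c + 2 * ε) ^ 2 ≤ 9 := by
        rw [sq]
        exact (mul_le_mul (show c + 2 * ε ≤ 3 by linarith) (show c + 2 * ε ≤ 3 by linarith)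
          (by positivity) (by norm_num)).trans (by norm_num)
      have g4 : (c + 2 * ε) ^ 2 * ((c + 2 * ε) * (r * q) / m) ≤ 9 * (3 / 40 * ε ^ 2) :=
        mul_le_mul g3 htm (by positivity) (by norm_num)
      have g5 : 2 ≤ ε ^ 2 * L := by
        have := mul_le_mul_of_nonneg_left hε42 hLpos.le
        linarith
      have g6 : ε ^ 2 ≤ (c + 2 * ε) ^ 2 - (c + 2 * ε) ^ 2 * ((c + 2 * ε) * (r * q) / m) - (c + ε) ^ 2 := by
        linarith
      have g7 := mul_le_mul_of_nonneg_right g6 hLpos.le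
      linarith
    calc _ ≤ Real.exp 2 * Real.exp (-((c + 2 * ε) ^ 2 * L * (1 - (c + 2 * ε) * (r * q) / m))) :=
          mul_le_mul_of_nonneg_right e3 (Real.exp_pos _).le
      _ = Real.exp (2 + -((c + 2 * ε) ^ 2 * L * (1 - (c + 2 * ε) * (r * q) / m))) := by rw [Real.exp_add]
      _ ≤ _ := Real.exp_le_exp.2 e4
  -- subtraction
  have h6 : ∑ T ∈ W.powerset with (1 + η) * (1 - η * δ) * m - 2 * r ≤ (T.card : ℝ), cramerOn W T ≤
      ∑ T ∈ W.powerset with (m + c * (r * q) ≤ (T.card : ℝ) ∧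
          (T.card : ℝ) ≤ m + (c + 2 * ε) * (r * q)), cramerOn W T +
      ∑ T ∈ W.powerset with m + (c + 2 * ε) * (r * q) < (T.card : ℝ), cramerOn W T := by
    rw [← sum_union]
    · refine sum_le_sum_of_subset_of_nonneg ?_ ?_
      · intro T hT
        rw [mem_filter] at hT
        rw [mem_union, mem_filter, mem_filter]
        by_cases h : (T.card : ℝ) ≤ m + (c + 2 * ε) * (r * q)
        · left
          exact ⟨hT.1, h2.trans hT.2, h⟩
        · right
          exact ⟨hT.1, not_le.1 h⟩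
      · intro T hT _
        rw [mem_union, mem_filter, mem_filter] at hT
        rcases hT with hT | hT <;> exact cramerOn_nonneg hW (mem_powerset.1 hT.1)
    · rw [Finset.disjoint_left]
      intro T hT hT'
      rw [mem_filter] at hT hT'
      exact absurd hT'.2 (not_lt.2 hT.2.2)
  linarith

/-- **Lower bound for the probability of a deviation in a given window**, downwards. -/
theorem window_down {c ε : ℝ} (hc0 : 0 ≤ c) (hc1 : c ≤ 1) (hε : 0 < ε) (hε1 : ε ≤ 1) :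
    ∃ L0 : ℝ, 1 ≤ L0 ∧ ∀ (W : Finset ℕ) (L : ℝ), (∀ n ∈ W, 3 ≤ n) →
      (∀ n ∈ W, 1 / Real.log (n : ℝ) ≤ 1 / L0) → L0 ≤ L → L0 * L ≤ mu W →
      Real.exp (-((c + ε) ^ 2 * L)) ≤
        ∑ T ∈ W.powerset with ((T.card : ℝ) ≤ mu W - c * √(2 * mu W * L) ∧
          mu W - (c + 2 * ε) * √(2 * mu W * L) ≤ (T.card : ℝ)), cramerOn W T := by
  refine ⟨8000 / ε ^ 4, ?_, ?_⟩
  · rw [le_div_iff₀ (by positivity)]
    have : ε ^ 4 ≤ 1 := pow_le_one₀ hε.le hε1
    linarith
  intro W L hW hlog hL0 hL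
  have hε4 : 0 < ε ^ 4 := by positivity
  have hε2 : ε ^ 2 ≤ 1 := pow_le_one₀ hε.le hε1
  have hε2' : 0 < ε ^ 2 := by positivity
  have hεε : ε ^ 2 ≤ ε := by
    rw [sq]
    exact mul_le_of_le_one_left hε.le hε1
  have hε42 : ε ^ 4 ≤ ε ^ 2 := by nlinarith
  have hLε : 8000 ≤ L * ε ^ 4 := by rwa [div_le_iff₀ hε4] at hL0
  have hLpos : 0 < L := by
    by_contra hcon
    push Not at hcon
    nlinarith
  have hL2000 : 8000 ≤ L := by nlinarith
  obtain ⟨m, hm⟩ : ∃ m : ℝ, m = mu W := ⟨_, rfl⟩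
  have hmL : 8000 * L ≤ m * ε ^ 4 := by
    rw [div_mul_eq_mul_div, div_le_iff₀ hε4, ← hm] at hL
    exact hL
  have hm0 : 0 < m := by
    by_contra hcon
    push Not at hcon
    nlinarith
  have hm16 : 16 ≤ m := by nlinarith
  rw [← hm]
  obtain ⟨q, hq⟩ : ∃ q : ℝ, q = √(2 * L) := ⟨_, rfl⟩
  obtain ⟨r, hr⟩ : ∃ r : ℝ, r = √m := ⟨_, rfl⟩
  have hq0 : 0 < q := by rw [hq]; exact Real.sqrt_pos.2 (by linarith)
  have hr0 : 0 < r := by rw [hr]; exact Real.sqrt_pos.2 hm0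
  have hq2 : q ^ 2 = 2 * L := by rw [hq]; exact Real.sq_sqrt (by linarith)
  have hr2 : r ^ 2 = m := by rw [hr]; exact Real.sq_sqrt hm0.le
  have hs : √(2 * m * L) = r * q := by
    rw [show 2 * m * L = (r * q) ^ 2 by rw [mul_pow, hq2, hr2]; ring]
    exact Real.sqrt_sq (by positivity)
  rw [hs]
  have hqr : q * 60 ≤ r * ε ^ 2 := by
    apply le_of_sq_le_sq _ (by positivity)
    rw [mul_pow, mul_pow, hq2, hr2]
    nlinarith
  have hqbig : 120 ≤ q * ε ^ 2 := by
    apply le_of_sq_le_sq _ (by positivity)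
    rw [mul_pow, hq2]
    nlinarith
  obtain ⟨a, ha⟩ : ∃ a : ℝ, a = c + ε / 2 := ⟨_, rfl⟩
  have ha0 : 0 < a := by rw [ha]; linarith
  have ha1 : a ≤ 3 / 2 := by rw [ha]; linarith
  obtain ⟨η, hη⟩ : ∃ η : ℝ, η = a * (q / r) := ⟨_, rfl⟩
  have hη0 : 0 < η := by rw [hη]; positivity
  have hqr' : q / r ≤ ε ^ 2 / 60 := by
    rw [div_le_div_iff₀ hr0 (by norm_num)]
    linarith
  have hη1 : η ≤ 1 / 40 * ε ^ 2 := by
    rw [hη]
    calc a * (q / r) ≤ 3 / 2 * (ε ^ 2 / 60) := mul_le_mul ha1 hqr' (by positivity) (by norm_num)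
      _ = _ := by ring
  have hηm : η * m = a * (r * q) := by
    rw [hη, ← hr2]
    field_simp
  have hηm2 : η ^ 2 / 2 * m = a ^ 2 * L := by
    rw [hη, ← hr2, show L = q ^ 2 / 2 by rw [hq2]; ring]
    field_simp
  have hηr : η * r = a * q := by
    rw [hη]
    field_simp
  obtain ⟨δ, hδ⟩ : ∃ δ : ℝ, δ = ε ^ 4 / 8000 := ⟨_, rfl⟩
  have hδ0 : 0 < δ := by rw [hδ]; positivity
  have hδ1 : δ ≤ ε ^ 2 / 8000 := by rw [hδ]; linarith
  have hlog' : ∀ n ∈ W, 1 / Real.log (n : ℝ) ≤ δ := by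
    intro n hn
    refine (hlog n hn).trans (le_of_eq ?_)
    rw [hδ]
    field_simp
  have h1 := dev_down hW hlog' (by linarith) hη0 (by linarith) (by rw [← hm]; exact hm16)
  rw [← hm, ← hr] at h1
  have h2 : (1 - η) * (1 + 2 * η * δ) * m + 2 * r ≤ m - c * (r * q) := by
    have e1 : (1 - η) * (1 + 2 * η * δ) * m = m - η * m + 2 * δ * (1 - η) * (η * m) := by ring
    rw [e1, hηm]
    have e2 : 2 * δ * (1 - η) ≤ ε / 1000 := by
      calc 2 * δ * (1 - η) ≤ 2 * δ * 1 := mul_le_mul_of_nonneg_left (by linarith) (by linarith)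
        _ ≤ ε / 1000 := by linarith
    have e3 : 2 * δ * (1 - η) * (a * (r * q)) ≤ ε / 1000 * (3 / 2 * (r * q)) := by
      apply mul_le_mul e2 (mul_le_mul_of_nonneg_right ha1 (by positivity)) (by positivity) (by positivity)
    have e4 : 2 * r ≤ ε / 30 * (r * q) := by
      have e41 : 60 ≤ q * ε := by
        have : q * ε ^ 2 ≤ q * ε := mul_le_mul_of_nonneg_left hεε hq0.le
        linarith
      have e42 := mul_le_mul_of_nonneg_left e41 hr0.le
      linarith
    have e5 : a * (r * q) = c * (r * q) + ε / 2 * (r * q) := by rw [ha]; ring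
    have e6 : 0 < ε * (r * q) := by positivity
    linarith
  have h3 : 2 * Real.exp (-((c + ε) ^ 2 * L)) ≤
      1 / 2 * Real.exp (-(η ^ 2 / 2 * (1 + 4 * δ + η) * m) - 4 * η * r) := by
    have e1 : η ^ 2 / 2 * (1 + 4 * δ + η) * m = a ^ 2 * L * (1 + 4 * δ + η) := by rw [← hηm2]; ring
    have e2 : 4 * η * r = 4 * (a * q) := by rw [← hηr]; ring
    rw [e1, e2]
    have e3 : (4 : ℝ) ≤ Real.exp 2 := by
      have := Real.quadratic_le_exp_of_nonneg (show (0 : ℝ) ≤ 2 by norm_num)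
      linarith
    have e4 : -((c + ε) ^ 2 * L) + 2 ≤ -(a ^ 2 * L * (1 + 4 * δ + η)) - 4 * (a * q) := by
      have g1 : (c + ε) ^ 2 - a ^ 2 = ε / 2 * (2 * c + 3 / 2 * ε) := by rw [ha]; ring
      have g2 : 3 / 4 * ε ^ 2 ≤ (c + ε) ^ 2 - a ^ 2 := by
        rw [g1]
        have : 0 ≤ ε * c := mul_nonneg hε.le hc0
        linarith
      have g3 : a ^ 2 * (4 * δ + η) ≤ ε ^ 2 / 10 := by
        have g31 : a ^ 2 ≤ 9 / 4 := by
          rw [sq]
          exact (mul_le_mul ha1 ha1 ha0.le (by norm_num)).trans (by norm_num)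
        have g32 : 4 * δ + η ≤ ε ^ 2 / 35 := by linarith
        calc a ^ 2 * (4 * δ + η) ≤ 9 / 4 * (ε ^ 2 / 35) := mul_le_mul g31 g32 (by positivity) (by norm_num)
          _ ≤ _ := by linarith
      have g4 : 4 * (a * q) ≤ 6 * q := by
        have := mul_le_mul_of_nonneg_right ha1 hq0.le
        linarith
      have g5 : L = q ^ 2 / 2 := by rw [hq2]; ring
      have g51 : 120 * q ≤ q * ε ^ 2 * q := mul_le_mul_of_nonneg_right hqbig hq0.le
      have g52 : 120 ≤ q := hqbig.trans (mul_le_of_le_one_right hq0.le hε2)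
      have g6 : 6 * q + 2 ≤ (3 / 4 * ε ^ 2 - ε ^ 2 / 10) * L := by
        rw [g5]
        have : (3 / 4 * ε ^ 2 - ε ^ 2 / 10) * (q ^ 2 / 2) = (13 / 40) * (q * ε ^ 2 * q) := by ring
        rw [this]
        linarith
      have g7 : (3 / 4 * ε ^ 2 - ε ^ 2 / 10) * L ≤ ((c + ε) ^ 2 - a ^ 2 - a ^ 2 * (4 * δ + η)) * L :=
        mul_le_mul_of_nonneg_right (by linarith) hLpos.le
      linarith
    calc 2 * Real.exp (-((c + ε) ^ 2 * L)) = 1 / 2 * (4 * Real.exp (-((c + ε) ^ 2 * L))) := by ring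
      _ ≤ 1 / 2 * (Real.exp 2 * Real.exp (-((c + ε) ^ 2 * L))) := by
          apply mul_le_mul_of_nonneg_left _ (by norm_num)
          exact mul_le_mul_of_nonneg_right e3 (Real.exp_pos _).le
      _ = 1 / 2 * Real.exp (-((c + ε) ^ 2 * L) + 2) := by rw [Real.exp_add]; ring
      _ ≤ _ := by
          apply mul_le_mul_of_nonneg_left _ (by norm_num)
          exact Real.exp_le_exp.2 e4
  have ht0 : 0 < (c + 2 * ε) * (r * q) := by positivity
  have h4 := down_sum hW (M' := m) (t := (c + 2 * ε) * (r * q)) (le_of_eq hm.symm) ht0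
  rw [← hm] at h4
  have h5 : Real.exp (-(((c + 2 * ε) * (r * q)) ^ 2 / (2 * m))) ≤ Real.exp (-((c + ε) ^ 2 * L)) := by
    have e1 : ((c + 2 * ε) * (r * q)) ^ 2 / (2 * m) = (c + 2 * ε) ^ 2 * L := by
      rw [mul_pow, mul_pow, hr2, hq2]
      field_simp
    rw [e1]
    refine Real.exp_le_exp.2 (neg_le_neg (mul_le_mul_of_nonneg_right ?_ hLpos.le))
    exact pow_le_pow_left₀ (by positivity) (by linarith) 2
  have h6 : ∑ T ∈ W.powerset with (T.card : ℝ) ≤ (1 - η) * (1 + 2 * η * δ) * m + 2 * r, cramerOn W T ≤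
      ∑ T ∈ W.powerset with ((T.card : ℝ) ≤ m - c * (r * q) ∧
          m - (c + 2 * ε) * (r * q) ≤ (T.card : ℝ)), cramerOn W T +
      ∑ T ∈ W.powerset with (T.card : ℝ) < m - (c + 2 * ε) * (r * q), cramerOn W T := by
    rw [← sum_union]
    · refine sum_le_sum_of_subset_of_nonneg ?_ ?_
      · intro T hT
        rw [mem_filter] at hT
        rw [mem_union, mem_filter, mem_filter]
        by_cases h : m - (c + 2 * ε) * (r * q) ≤ (T.card : ℝ)
        · left
          exact ⟨hT.1, hT.2.trans h2, h⟩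
        · right
          exact ⟨hT.1, not_le.1 h⟩
      · intro T hT _
        rw [mem_union, mem_filter, mem_filter] at hT
        rcases hT with hT | hT <;> exact cramerOn_nonneg hW (mem_powerset.1 hT.1)
    · rw [Finset.disjoint_left]
      intro T hT hT'
      rw [mem_filter] at hT hT'
      exact absurd hT'.2 (not_lt.2 hT.2.2)
  linarith

end Pool.Agent.Q166.Sq
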