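import Pool.Agent.Q166.SqA

/-!
# The deviations between powers: the upper bound, uniformly in the exponent
-/

set_option autoImplicit false

namespace Pool.Agent.Q166.Sq

open Finset MeasureTheory Filter Pool.Agent.Q120.ET Pool.Agent.Q120.MF Pool.Agent.Q120.AD Pool.Agent.Q120.NC
  Pool.Agent.Q120.TD
open scoped Topology

variable {Ω : Type*} {A : Ω → Set ℕ}

/-- the deviation on `(u, v]` -/
noncomputable def dv (A : Ω → Set ℕ) (ω : Ω) (u v : ℕ) : ℝ :=
  ((tr A (Ioc u v) ω).card : ℝ) - mu (Ioc u v)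

theorem dv_add (ω : Ω) {u w v : ℕ} (h1 : u ≤ w) (h2 : w ≤ v) : dv A ω u v = dv A ω u w + dv A ω w v := by
  classical
  have e : Ioc u v = Ioc u w ∪ Ioc w v := (Ioc_union_Ioc_eq_Ioc h1 h2).symm
  have hd : Disjoint (Ioc u w) (Ioc w v) := by
    rw [Finset.disjoint_left]
    intro n hn hn'
    rw [mem_Ioc] at hn hn'
    omega
  have e1 : (tr A (Ioc u v) ω).card = (tr A (Ioc u w) ω).card + (tr A (Ioc w v) ω).card := by
    unfold tr
    rw [e, filter_union, card_union_of_disjoint (disjoint_filter_filter hd)]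
  have e2 : mu (Ioc u v) = mu (Ioc u w) + mu (Ioc w v) := by
    unfold mu
    rw [e, sum_union hd]
  unfold dv
  rw [e1, e2]
  push_cast
  ring

theorem dv_self (ω : Ω) (u : ℕ) : dv A ω u u = 0 := by
  unfold dv mu tr
  simp

theorem dv_succ (ω : Ω) {u : ℕ} (hu : 2 ≤ u) : |dv A ω u (u + 1)| ≤ 1 := by
  classical
  have h1 : (tr A (Ioc u (u + 1)) ω).card ≤ 1 := by
    unfold tr
    refine (card_filter_le _ _).trans ?_
    simp
  have h2 : mu (Ioc u (u + 1)) ≤ 1 := by
    unfold mu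
    have e : Ioc u (u + 1) = {u + 1} := by
      ext n
      rw [mem_Ioc, mem_singleton]
      omega
    rw [e, sum_singleton]
    exact (Pool.Agent.Q120.TD.inv_log_mem (show 3 ≤ u + 1 by omega)).2.le
  have h3 := mu_nonneg (W := Ioc u (u + 1))
  have h4 : ((tr A (Ioc u (u + 1)) ω).card : ℝ) ≤ 1 := by exact_mod_cast h1
  have h5 : (0 : ℝ) ≤ ((tr A (Ioc u (u + 1)) ω).card : ℝ) := Nat.cast_nonneg _
  unfold dv
  rw [abs_le]
  constructor <;> linarith

theorem dv_near_left (ω : Ω) {u u' v : ℕ} (hu : 2 ≤ u) (h1 : u ≤ u') (h2 : u' ≤ u + 1) (h3 : u' ≤ v) :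
    |dv A ω u v - dv A ω u' v| ≤ 1 := by
  rw [dv_add ω h1 h3, add_sub_cancel_right]
  rcases Nat.eq_or_lt_of_le h1 with h | h
  · rw [← h, dv_self, abs_zero]
    exact zero_le_one
  · have : u' = u + 1 := by omega
    rw [this]
    exact dv_succ ω hu

theorem dv_near_right (ω : Ω) {u v v' : ℕ} (hu : 2 ≤ u) (h1 : v ≤ v') (h2 : v' ≤ v + 1) (h3 : u ≤ v) :
    |dv A ω u v' - dv A ω u v| ≤ 1 := by
  rw [dv_add ω h3 h1, add_sub_cancel_left]
  rcases Nat.eq_or_lt_of_le h1 with h | h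
  · rw [← h, dv_self, abs_zero]
    exact zero_le_one
  · have : v' = v + 1 := by omega
    rw [this]
    exact dv_succ ω (hu.trans h3)

variable [MeasurableSpace Ω] {μ : Measure Ω} [IsProbabilityMeasure μ]

/-- the union bound and Borel-Cantelli -/
theorem ae_all_grid {τ : Type*} (T : ℕ → Finset τ) (B : ℕ → τ → Set Ω) (β : ℕ → ℝ) (hs : Summable β)
    (h : ∀ᶠ i in atTop, ∑ t ∈ T i, μ.real (B i t) ≤ β i) :
    ∀ᵐ ω ∂μ, ∀ᶠ i in atTop, ∀ t ∈ T i, ω ∉ B i t := by
  have h1 := ae_eventually_notMem (tsum_ne_top_of_real (μ := μ) hs (f := fun i => ⋃ t ∈ T i, B i t) (by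
    filter_upwards [h] with i hi
    exact (measureReal_biUnion_finset_le _ _).trans hi))
  filter_upwards [h1] with ω hω
  filter_upwards [hω] with i hi t ht hB
  exact hi (Set.mem_biUnion ht hB)

theorem card_Ioc_floor {x y : ℝ} (hx : 0 ≤ x) (hxy : x ≤ y) :
    ((Ioc ⌊x⌋₊ ⌊y⌋₊).card : ℝ) ≤ y - x + 1 ∧ y - x - 1 ≤ ((Ioc ⌊x⌋₊ ⌊y⌋₊).card : ℝ) := by
  rw [Nat.card_Ioc, Nat.cast_sub (Nat.floor_le_floor hxy)]
  have h1 := Nat.floor_le hx
  have h2 := Nat.lt_floor_add_one x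
  have h3 := Nat.floor_le (hx.trans hxy)
  have h4 := Nat.lt_floor_add_one y
  constructor <;> linarith

theorem mu_le {x y : ℝ} (hx : 1 < x) (hxy : x ≤ y) : mu (Ioc ⌊x⌋₊ ⌊y⌋₊) ≤ (y - x + 1) / Real.log x := by
  have hl : 0 < Real.log x := Real.log_pos hx
  have h1 : ∀ n ∈ Ioc ⌊x⌋₊ ⌊y⌋₊, 1 / Real.log (n : ℝ) ≤ 1 / Real.log x := by
    intro n hn
    rw [mem_Ioc, Nat.floor_lt (by linarith)] at hn
    exact one_div_le_one_div_of_le hl (Real.log_le_log (by linarith) hn.1.le)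
  unfold mu
  refine (sum_le_sum h1).trans ?_
  rw [sum_const, nsmul_eq_mul, mul_one_div]
  exact div_le_div_of_nonneg_right (card_Ioc_floor (by linarith) hxy).1 hl.le

theorem le_mu {x y : ℝ} (hx : 1 < x) (hxy : x ≤ y) : (y - x - 1) / Real.log y ≤ mu (Ioc ⌊x⌋₊ ⌊y⌋₊) := by
  have hl : 0 < Real.log y := Real.log_pos (by linarith)
  have h1 : ∀ n ∈ Ioc ⌊x⌋₊ ⌊y⌋₊, 1 / Real.log y ≤ 1 / Real.log (n : ℝ) := by
    intro n hn
    rw [mem_Ioc, Nat.floor_lt (by linarith), Nat.le_floor_iff (by linarith)] at hn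
    exact one_div_le_one_div_of_le (Real.log_pos (by linarith)) (Real.log_le_log (by linarith) hn.2)
  unfold mu
  refine le_trans ?_ (sum_le_sum h1)
  rw [sum_const, nsmul_eq_mul, mul_one_div]
  exact div_le_div_of_nonneg_right (card_Ioc_floor (by linarith) hxy).2 hl.le

/-- the growth of the powers -/
theorem rpow_diff {m q : ℝ} (hm : 0 < m) (hq : 0 ≤ q) {θ : ℝ} (hθ : 1 ≤ θ) :
    θ * q * m ^ (θ - 1) ≤ (m + q) ^ θ - m ^ θ ∧
      (m + q) ^ θ - m ^ θ ≤ θ * q * (m + q) ^ (θ - 1) := by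
  have hmq : 0 < m + q := by linarith
  constructor
  · have h1 := one_add_mul_self_le_rpow_one_add (s := q / m) (by
      have : 0 ≤ q / m := by positivity
      linarith) hθ
    have h2 : (m + q) ^ θ = m ^ θ * (1 + q / m) ^ θ := by
      rw [← Real.mul_rpow hm.le (by positivity)]
      congr 1
      field_simp
    have h3 : m ^ θ = m * m ^ (θ - 1) := by
      nth_rewrite 2 [← Real.rpow_one m]
      rw [← Real.rpow_add hm]
      congr 1
      ring
    rw [h2]
    have h4 := mul_le_mul_of_nonneg_left h1 (Real.rpow_nonneg hm.le θ)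
    have h5 : m ^ θ * (1 + θ * (q / m)) = m ^ θ + θ * q * m ^ (θ - 1) := by
      rw [h3]
      field_simp
    linarith
  · have h1 := one_add_mul_self_le_rpow_one_add (s := -(q / (m + q))) (by
      have : q / (m + q) ≤ 1 := by
        rw [div_le_one hmq]
        linarith
      linarith) hθ
    have h2 : m ^ θ = (m + q) ^ θ * (1 + -(q / (m + q))) ^ θ := by
      rw [← Real.mul_rpow hmq.le (by
        have : q / (m + q) ≤ 1 := by
          rw [div_le_one hmq]
          linarith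
        linarith)]
      congr 1
      field_simp
      ring
    have h3 : (m + q) ^ θ = (m + q) * (m + q) ^ (θ - 1) := by
      nth_rewrite 2 [← Real.rpow_one (m + q)]
      rw [← Real.rpow_add hmq]
      congr 1
      ring
    rw [h2]
    have h4 := mul_le_mul_of_nonneg_left h1 (Real.rpow_nonneg hmq.le θ)
    have h5 : (m + q) ^ θ * (1 + θ * -(q / (m + q))) = (m + q) ^ θ - θ * q * (m + q) ^ (θ - 1) := by
      rw [h3]
      field_simp
      ring
    linarith

end Pool.Agent.Q166.Sq
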