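import Pool.Agent.Q166.SqB

/-!
# The deviations on a grid of windows
-/

set_option autoImplicit false

namespace Pool.Agent.Q166.Sq

open Finset MeasureTheory Filter Pool.Agent.Q120.ET Pool.Agent.Q120.MF Pool.Agent.Q120.AD Pool.Agent.Q120.NC
  Pool.Agent.Q120.TD
open scoped Topology

variable {Ω : Type*} {A : Ω → Set ℕ} [MeasurableSpace Ω] {μ : Measure Ω} [IsProbabilityMeasure μ]

theorem prob_le (hA : IsCramer μ A) {W : Finset ℕ} (hW : ∀ n ∈ W, 3 ≤ n) {M' c L τ : ℝ} (hM : mu W ≤ M')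
    (hM' : 0 < M') (hc : 0 < c) (hL : 0 < L) (hτ0 : 0 < τ) (hτ1 : τ ≤ 1) (h : 2 * c * L ≤ τ ^ 2 * M') :
    μ.real {ω | √(2 * c * M' * L) < |((tr A W ω).card : ℝ) - mu W|} ≤ 4 * Real.exp (-(c * L * (1 - τ))) := by
  have hpos : 0 < 2 * c * M' * L := by positivity
  have ht0 : 0 < √(2 * c * M' * L) := Real.sqrt_pos.2 hpos
  have ht1 : √(2 * c * M' * L) ≤ τ * M' := by
    rw [Real.sqrt_le_iff]
    refine ⟨by positivity, ?_⟩
    have := mul_le_mul_of_nonneg_right h hM'.le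
    nlinarith
  have ht2 : √(2 * c * M' * L) ≤ M' := ht1.trans (mul_le_of_le_one_left hM'.le hτ1)
  refine (tail_two hA hW hM ht0 ht2).trans ?_
  apply mul_le_mul_of_nonneg_left _ (by norm_num)
  refine Real.exp_le_exp.2 (neg_le_neg ?_)
  have e1 : √(2 * c * M' * L) ^ 2 / (2 * M') = c * L := by
    rw [Real.sq_sqrt hpos.le]
    field_simp
  rw [e1]
  apply mul_le_mul_of_nonneg_left _ (by positivity)
  have e2 : √(2 * c * M' * L) / M' ≤ τ := by
    rw [div_le_iff₀ hM']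
    exact ht1
  linarith

/-- the points of the grid -/
noncomputable def gx (δ κ : ℝ) (u : ℕ) : ℝ := Real.exp (u * δ / κ)

theorem gx_add (δ κ : ℝ) (u w : ℕ) : gx δ κ (u + w) = gx δ κ u * Real.exp (w * δ / κ) := by
  unfold gx
  rw [← Real.exp_add]
  congr 1
  push_cast
  ring

theorem gx_pos (δ κ : ℝ) (u : ℕ) : 0 < gx δ κ u := Real.exp_pos _

theorem gx_mono {δ κ : ℝ} (hδ : 0 ≤ δ) (hκ : 0 ≤ κ) {u v : ℕ} (h : u ≤ v) : gx δ κ u ≤ gx δ κ v := by
  unfold gx
  refine Real.exp_le_exp.2 (div_le_div_of_nonneg_right ?_ hκ)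
  exact mul_le_mul_of_nonneg_right (by exact_mod_cast h) hδ

/-- the upper bound for the mean of the windows of the grid -/
noncomputable def Mp (δ κ : ℝ) (u w : ℕ) : ℝ :=
  (gx δ κ u * (Real.exp (w * δ / κ) - 1) + 1) / (u * δ / κ)

theorem mu_grid_le {δ κ : ℝ} (hδ : 0 ≤ δ) (hκ : 0 ≤ κ) {u w n : ℕ} (hu : 1 < gx δ κ u)
    (hn : n ≤ ⌊gx δ κ (u + w)⌋₊) : mu (Ioc ⌊gx δ κ u⌋₊ n) ≤ Mp δ κ u w := by
  have h1 : mu (Ioc ⌊gx δ κ u⌋₊ n) ≤ mu (Ioc ⌊gx δ κ u⌋₊ ⌊gx δ κ (u + w)⌋₊) := by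
    unfold mu
    refine sum_le_sum_of_subset_of_nonneg (Ioc_subset_Ioc le_rfl hn) (fun n _ _ => ?_)
    have := Real.log_natCast_nonneg n
    positivity
  refine h1.trans ((mu_le hu (gx_mono hδ hκ (Nat.le_add_right u w))).trans (le_of_eq ?_))
  unfold Mp
  rw [gx_add]
  have : Real.log (gx δ κ u) = u * δ / κ := by
    unfold gx
    exact Real.log_exp _
  rw [this]
  congr 1
  ring

theorem Mp_ge {δ κ Λ a : ℝ} (hδ : 0 < δ) (hκ : 0 < κ) {u w : ℕ} (hu : κ ^ a ≤ 3 * gx δ κ u)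
    (hu0 : 0 < u * δ / κ) (hΛ : u * δ / κ ≤ Λ) (hw : 1 ≤ w) :
    δ * κ ^ (a - 1) / (3 * Λ) ≤ Mp δ κ u w := by
  have hΛ0 : 0 < Λ := by linarith
  have h1 : δ / κ ≤ Real.exp (w * δ / κ) - 1 := by
    have e1 := Real.add_one_le_exp (w * δ / κ)
    have e2 : δ / κ ≤ w * δ / κ := by
      apply div_le_div_of_nonneg_right _ hκ.le
      have : (1 : ℝ) ≤ w := by exact_mod_cast hw
      nlinarith
    linarith
  have h2 : κ ^ a / 3 * (δ / κ) ≤ gx δ κ u * (Real.exp (w * δ / κ) - 1) :=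
    mul_le_mul (by linarith) h1 (by positivity) (gx_pos _ _ _).le
  have h3 : κ ^ a / 3 * (δ / κ) = δ * κ ^ (a - 1) / 3 := by
    rw [Real.rpow_sub_one hκ.ne']
    field_simp
  unfold Mp
  calc δ * κ ^ (a - 1) / (3 * Λ) = (κ ^ a / 3 * (δ / κ)) / Λ := by
        rw [h3]
        field_simp
    _ ≤ (gx δ κ u * (Real.exp (w * δ / κ) - 1) + 1) / Λ := by
        apply div_le_div_of_nonneg_right _ hΛ0.le
        linarith
    _ ≤ _ := by
        apply div_le_div_of_nonneg_left _ hu0 hΛ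
        have : 0 ≤ κ ^ a / 3 * (δ / κ) := by positivity
        linarith

/-- the upper end of the logarithms of the grid points -/
noncomputable def La (b : ℝ) (κ : ℝ) : ℝ := b * Real.log (4 * κ) + 1

theorem ev_La (b C s : ℝ) (hs : 0 < s) (hb : 0 < b) :
    ∀ᶠ K : ℕ in atTop, C * (1 + La b K) * (1 + Real.log K) ≤ (K : ℝ) ^ s := by
  filter_upwards [ev_pow (|C| * (3 * b + 3) * 2) s hs, hl.eventually_ge_atTop 2, eventually_ge_atTop 1]
    with K h1 h2 h3
  have hK : (0 : ℝ) < K := by exact_mod_cast h3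
  refine le_trans ?_ h1
  have e1 : Real.log (4 * K) = Real.log 4 + Real.log K := Real.log_mul (by norm_num) hK.ne'
  have e2 : Real.log 4 ≤ 2 := by
    have : Real.log 4 = 2 * Real.log 2 := by
      rw [show (4 : ℝ) = 2 ^ 2 by norm_num, Real.log_pow]
      norm_num
    rw [this]
    have := Real.log_two_lt_d9
    linarith
  have e3 : 1 + La b K ≤ (3 * b + 3) * Real.log K := by
    unfold La
    rw [e1]
    nlinarith
  have e4 : 1 + Real.log K ≤ 2 * Real.log (K : ℝ) := by linarith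
  have e5 : 0 ≤ 1 + La b K := by
    unfold La
    rw [e1]
    have : 0 ≤ Real.log 4 := Real.log_nonneg (by norm_num)
    positivity
  calc C * (1 + La b K) * (1 + Real.log K) ≤ |C| * (1 + La b K) * (1 + Real.log K) := by
        apply mul_le_mul_of_nonneg_right _ (by linarith)
        exact mul_le_mul_of_nonneg_right (le_abs_self C) e5
    _ ≤ |C| * ((3 * b + 3) * Real.log K) * (2 * Real.log K) := by
        apply mul_le_mul (mul_le_mul_of_nonneg_left e3 (abs_nonneg C)) e4 (by linarith)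
        have : 0 ≤ |C| := abs_nonneg C
        positivity
    _ = |C| * (3 * b + 3) * 2 * Real.log K ^ 2 := by ring
    _ ≤ _ := by
        apply mul_le_mul_of_nonneg_left
        · have : Real.log (K : ℝ) ^ 3 = Real.log K ^ 2 * Real.log K := by ring
          rw [this]
          nlinarith [sq_nonneg (Real.log (K : ℝ))]
        · have : 0 ≤ |C| := abs_nonneg C
          positivity

end Pool.Agent.Q166.Sq
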