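import Pool.Agent.Q166.SqC

/-!
# Almost sure bounds on the grid
-/

set_option autoImplicit false

namespace Pool.Agent.Q166.Sq

open Finset MeasureTheory Filter Pool.Agent.Q120.ET Pool.Agent.Q120.MF Pool.Agent.Q120.AD Pool.Agent.Q120.NC
  Pool.Agent.Q120.TD
open scoped Topology

variable {Ω : Type*} {A : Ω → Set ℕ} [MeasurableSpace Ω] {μ : Measure Ω} [IsProbabilityMeasure μ]

theorem tendsto_two_pow : Tendsto (fun i : ℕ => 2 ^ i) atTop atTop :=
  tendsto_pow_atTop_atTop_of_one_lt (by norm_num)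

/-- the number of grid points -/
theorem card_range_le {δ κ Λ : ℝ} (hδ : 0 < δ) (hκ : 0 < κ) (hΛ : 0 ≤ Λ) :
    ((range (⌊κ * Λ / δ⌋₊ + 1)).card : ℝ) ≤ κ * Λ / δ + 1 := by
  rw [card_range]
  push_cast
  have := Nat.floor_le (show 0 ≤ κ * Λ / δ by positivity)
  linarith

theorem mem_range_grid {δ κ Λ : ℝ} (hδ : 0 < δ) (hκ : 0 < κ) {u : ℕ} (h : u * δ / κ ≤ Λ) :
    u ∈ range (⌊κ * Λ / δ⌋₊ + 1) := by
  rw [mem_range, Nat.lt_succ_iff]
  apply Nat.le_floor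
  rw [le_div_iff₀ hδ]
  rw [div_le_iff₀ hκ] at h
  linarith

open Classical in
/-- the relevant indices -/
noncomputable def Ti (a b δ : ℝ) (K : ℕ) : Finset ℕ :=
  (range (⌊(K : ℝ) * La b K / δ⌋₊ + 1)).filter fun u =>
    (K : ℝ) ^ a ≤ 3 * gx δ K u ∧ (u : ℝ) * δ / K ≤ La b K

theorem ev_Ti (hA : IsCramer μ A) {a b δ : ℝ} (ha : 1 < a) (hb : 0 < b) (hδ : 0 < δ) {c τ : ℝ} (hc : 0 < c)
    (hτ0 : 0 < τ) (hτ1 : τ ≤ 1) :
    ∀ᶠ K : ℕ in atTop, ∀ u ∈ Ti a b δ K, ∀ w : ℕ, 1 ≤ w → ∀ n, n ≤ ⌊gx δ K (u + w)⌋₊ →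
      μ.real {ω | √(2 * c * Mp δ K u w * Real.log K) < |dv A ω ⌊gx δ K u⌋₊ n|} ≤
        4 * (K : ℝ) ^ (-(c * (1 - τ))) := by
  have h1 := ev_La b (6 * c / (τ ^ 2 * δ)) (a - 1) (by linarith) hb
  have h2 : ∀ᶠ K : ℕ in atTop, (9 : ℝ) ≤ (K : ℝ) ^ a :=
    ((tendsto_rpow_atTop (by linarith)).comp tendsto_natCast_atTop_atTop).eventually_ge_atTop _
  filter_upwards [h1, h2, hl.eventually_ge_atTop 1, eventually_ge_atTop 1] with K h1 h2 h3 h4 u hu w hw n hn
  unfold Ti at hu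
  rw [mem_filter] at hu
  obtain ⟨_, hu1, hu2⟩ := hu
  have hK : (0 : ℝ) < K := by exact_mod_cast h4
  have hX : 3 ≤ gx δ K u := by linarith
  have hlogX : Real.log (gx δ K u) = u * δ / K := by
    unfold gx
    exact Real.log_exp _
  have hu0 : 0 < (u : ℝ) * δ / K := by
    rw [← hlogX]
    exact Real.log_pos (by linarith)
  have hΛ : 0 < La b K := by linarith
  have hL : 0 < Real.log (K : ℝ) := by linarith
  have h5 := Mp_ge (a := a) hδ hK hu1 hu0 hu2 hw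
  have h6 : 0 < δ * (K : ℝ) ^ (a - 1) / (3 * La b K) := by positivity
  have h7 : 0 < Mp δ K u w := by linarith
  have h8 : 2 * c * Real.log K ≤ τ ^ 2 * Mp δ K u w := by
    refine le_trans ?_ (mul_le_mul_of_nonneg_left h5 (by positivity))
    have e1 : τ ^ 2 * (δ * (K : ℝ) ^ (a - 1) / (3 * La b K)) = τ ^ 2 * δ * (K : ℝ) ^ (a - 1) / (3 * La b K) := by
      ring
    rw [e1, le_div_iff₀ (by positivity)]
    have e2 : 6 * c / (τ ^ 2 * δ) * (La b K * Real.log K) ≤ (K : ℝ) ^ (a - 1) := by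
      refine le_trans ?_ h1
      rw [mul_assoc]
      apply mul_le_mul_of_nonneg_left _ (by positivity)
      nlinarith
    have e3 := mul_le_mul_of_nonneg_left e2 (show 0 ≤ τ ^ 2 * δ by positivity)
    have e4 : τ ^ 2 * δ * (6 * c / (τ ^ 2 * δ) * (La b K * Real.log K)) = 6 * c * (La b K * Real.log K) := by
      field_simp
    rw [e4] at e3
    linarith
  have hW : ∀ m ∈ Ioc ⌊gx δ K u⌋₊ n, 3 ≤ m := by
    intro m hm
    rw [mem_Ioc] at hm
    have : 3 ≤ ⌊gx δ K u⌋₊ := Nat.le_floor (by exact_mod_cast hX)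
    omega
  have h9 := prob_le hA hW (mu_grid_le hδ.le hK.le (by linarith) hn) h7 hc hL hτ0 hτ1 h8
  refine h9.trans (le_of_eq ?_)
  rw [Real.rpow_def_of_pos hK]
  congr 2
  ring

theorem summable_two_pow {s : ℝ} (hs : 0 < s) : Summable fun i : ℕ => (((2 ^ i : ℕ) : ℝ)) ^ (-s) := by
  have h : (fun i : ℕ => (((2 ^ i : ℕ) : ℝ)) ^ (-s)) = fun i : ℕ => ((2 : ℝ) ^ (-s)) ^ i := by
    funext i
    push_cast
    rw [← Real.rpow_natCast, ← Real.rpow_natCast, ← Real.rpow_mul (by norm_num), ← Real.rpow_mul (by norm_num)]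
    congr 1
    ring
  rw [h]
  refine summable_geometric_of_lt_one (by positivity) ?_
  exact Real.rpow_lt_one_of_one_lt_of_neg (by norm_num) (by linarith)

/-- **The windows of bounded length.** -/
theorem grid_main (hA : IsCramer μ A) {a b δ ε : ℝ} (ha : 1 < a) (hb : 0 < b) (hδ : 0 < δ) (hε : 0 < ε)
    (hε1 : ε ≤ 1) (w0 : ℕ) : ∀ᵐ ω ∂μ, ∀ᶠ i : ℕ in atTop, ∀ u ∈ Ti a b δ (2 ^ i), ∀ w ∈ Icc 1 w0,
      |dv A ω ⌊gx δ ((2 ^ i : ℕ) : ℝ) u⌋₊ ⌊gx δ ((2 ^ i : ℕ) : ℝ) (u + w)⌋₊| ≤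
        √(2 * (1 + ε) ^ 2 * Mp δ ((2 ^ i : ℕ) : ℝ) u w * Real.log ((2 ^ i : ℕ) : ℝ)) := by
  classical
  have h1 := tendsto_two_pow.eventually (ev_Ti hA ha hb hδ (c := (1 + ε) ^ 2) (τ := ε / 2) (by positivity)
    (by positivity) (by linarith))
  have h2 := tendsto_two_pow.eventually (ev_La b (4 * (w0 + 1) * (1 / δ + 1)) (ε / 2) (by positivity) hb)
  have h3 := ae_all_grid (μ := μ) (τ := ℕ × ℕ) (fun i => Ti a b δ (2 ^ i) ×ˢ Icc 1 w0)
    (fun i t => {ω | √(2 * (1 + ε) ^ 2 * Mp δ ((2 ^ i : ℕ) : ℝ) t.1 t.2 * Real.log ((2 ^ i : ℕ) : ℝ)) <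
      |dv A ω ⌊gx δ ((2 ^ i : ℕ) : ℝ) t.1⌋₊ ⌊gx δ ((2 ^ i : ℕ) : ℝ) (t.1 + t.2)⌋₊|})
    (fun i => (((2 ^ i : ℕ) : ℝ)) ^ (-(ε / 2))) (summable_two_pow (by positivity)) (by
      filter_upwards [h1, h2, tendsto_two_pow.eventually (hl.eventually_ge_atTop 1)] with i h1 h2 h3
      obtain ⟨K, hK⟩ : ∃ K : ℕ, K = 2 ^ i := ⟨_, rfl⟩
      rw [← hK] at h1 h2 h3 ⊢
      have hK1 : 1 ≤ K := by rw [hK]; exact Nat.one_le_two_pow
      have hK0 : (0 : ℝ) < K := by exact_mod_cast hK1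
      have hKK : (1 : ℝ) ≤ K := by exact_mod_cast hK1
      have hbound : ∀ t ∈ Ti a b δ K ×ˢ Icc 1 w0,
          μ.real {ω | √(2 * (1 + ε) ^ 2 * Mp δ (K : ℝ) t.1 t.2 * Real.log (K : ℝ)) <
            |dv A ω ⌊gx δ (K : ℝ) t.1⌋₊ ⌊gx δ (K : ℝ) (t.1 + t.2)⌋₊|} ≤ 4 * (K : ℝ) ^ (-(1 + ε)) := by
        intro t ht
        rw [mem_product, mem_Icc] at ht
        refine (h1 t.1 ht.1 t.2 ht.2.1 _ le_rfl).trans ?_
        apply mul_le_mul_of_nonneg_left _ (by norm_num)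
        apply Real.rpow_le_rpow_of_exponent_le hKK
        have e1 : 1 ≤ (1 + ε) * (1 - ε / 2) := by nlinarith
        have e2 := mul_le_mul_of_nonneg_left e1 (show 0 ≤ 1 + ε by linarith)
        linarith
      refine (sum_le_sum hbound).trans ?_
      rw [sum_const, nsmul_eq_mul, card_product, Nat.card_Icc, Nat.add_sub_cancel]
      have hΛ : 0 < La b K := by
        unfold La
        have : 0 ≤ Real.log (4 * K) := Real.log_nonneg (by linarith)
        positivity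
      have h4 : ((Ti a b δ K).card : ℝ) ≤ K * La b K / δ + 1 := by
        refine le_trans ?_ (card_range_le hδ hK0 hΛ.le)
        exact_mod_cast card_filter_le _ _
      have h5 : (((Ti a b δ K).card * w0 : ℕ) : ℝ) * 4 ≤ K * (K : ℝ) ^ (ε / 2) := by
        push_cast
        have e1 : K * La b K / δ + 1 ≤ K * ((1 / δ + 1) * (1 + La b K)) := by
          have e11 : 1 ≤ (K : ℝ) * 1 := by linarith
          have e12 : K * La b K / δ = K * (1 / δ * La b K) := by ring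
          rw [e12]
          have e13 : (1 : ℝ) / δ * La b K + 1 ≤ (1 / δ + 1) * (1 + La b K) := by
            have : 0 < 1 / δ := by positivity
            nlinarith
          calc (K : ℝ) * (1 / δ * La b K) + 1 ≤ K * (1 / δ * La b K + 1) := by linarith
            _ ≤ _ := mul_le_mul_of_nonneg_left e13 hK0.le
        have e2 : (w0 : ℝ) * 4 ≤ 4 * (w0 + 1) := by linarith
        calc ((Ti a b δ K).card : ℝ) * w0 * 4 = (Ti a b δ K).card * (w0 * 4) := by ring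
          _ ≤ (K * ((1 / δ + 1) * (1 + La b K))) * (4 * (w0 + 1)) :=
              mul_le_mul (h4.trans e1) e2 (by positivity) (by positivity)
          _ = K * (4 * (w0 + 1) * (1 / δ + 1) * (1 + La b K) * 1) := by ring
          _ ≤ K * (4 * (w0 + 1) * (1 / δ + 1) * (1 + La b K) * (1 + Real.log K)) := by
              apply mul_le_mul_of_nonneg_left _ hK0.le
              apply mul_le_mul_of_nonneg_left (by linarith)
              positivity
          _ ≤ _ := mul_le_mul_of_nonneg_left h2 hK0.le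
      calc (((Ti a b δ K).card * w0 : ℕ) : ℝ) * (4 * (K : ℝ) ^ (-(1 + ε))) =
            (((Ti a b δ K).card * w0 : ℕ) : ℝ) * 4 * (K : ℝ) ^ (-(1 + ε)) := by ring
        _ ≤ (K * (K : ℝ) ^ (ε / 2)) * (K : ℝ) ^ (-(1 + ε)) := mul_le_mul_of_nonneg_right h5 (by positivity)
        _ = (K : ℝ) ^ (-(ε / 2)) := by
            nth_rewrite 1 [← Real.rpow_one (K : ℝ)]
            rw [← Real.rpow_add hK0, ← Real.rpow_add hK0]
            congr 1
            ring)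
  filter_upwards [h3] with ω hω
  filter_upwards [hω] with i hi u hu w hw
  have := hi (u, w) (mem_product.2 ⟨hu, hw⟩)
  exact not_lt.1 this

/-- **The short windows.** -/
theorem grid_short (hA : IsCramer μ A) {a b δ : ℝ} (ha : 1 < a) (hb : 0 < b) (hδ : 0 < δ) (hδ1 : δ ≤ 1) :
    ∀ᵐ ω ∂μ, ∀ᶠ i : ℕ in atTop, ∀ u ∈ Ti a b δ (2 ^ i), ∀ n ≤ ⌊gx δ ((2 ^ i : ℕ) : ℝ) (u + 1)⌋₊,
      |dv A ω ⌊gx δ ((2 ^ i : ℕ) : ℝ) u⌋₊ n| ≤
        √(2 * (2 * (b + 4)) * Mp δ ((2 ^ i : ℕ) : ℝ) u 1 * Real.log ((2 ^ i : ℕ) : ℝ)) := by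
  classical
  have h1 := tendsto_two_pow.eventually (ev_Ti hA ha hb hδ (c := 2 * (b + 4)) (τ := 1 / 2) (by positivity)
    (by positivity) (by norm_num))
  have h2 := tendsto_two_pow.eventually (ev_La b (1 / δ + 1) 1 (by positivity) hb)
  have hbig : ∀ᶠ K : ℕ in atTop, 4 * (Real.exp 2 * 4 ^ b + 1) ≤ (K : ℝ) ^ (1 : ℝ) :=
    ((tendsto_rpow_atTop (by norm_num)).comp tendsto_natCast_atTop_atTop).eventually_ge_atTop _
  have h2' := tendsto_two_pow.eventually hbig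
  have h3 := ae_all_grid (μ := μ) (τ := ℕ × ℕ)
    (fun i => (Ti a b δ (2 ^ i) ×ˢ range (⌊Real.exp (La b ((2 ^ i : ℕ) : ℝ) + 1)⌋₊ + 1)).filter fun t =>
      t.2 ≤ ⌊gx δ ((2 ^ i : ℕ) : ℝ) (t.1 + 1)⌋₊)
    (fun i t => {ω | √(2 * (2 * (b + 4)) * Mp δ ((2 ^ i : ℕ) : ℝ) t.1 1 * Real.log ((2 ^ i : ℕ) : ℝ)) <
      |dv A ω ⌊gx δ ((2 ^ i : ℕ) : ℝ) t.1⌋₊ t.2|})
    (fun i => (((2 ^ i : ℕ) : ℝ)) ^ (-(1 : ℝ))) (summable_two_pow (by positivity)) (by
      filter_upwards [h1, h2, h2', tendsto_two_pow.eventually (hl.eventually_ge_atTop 1)] with i h1 h2 h2' h3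
      obtain ⟨K, hK⟩ : ∃ K : ℕ, K = 2 ^ i := ⟨_, rfl⟩
      rw [← hK] at h1 h2 h2' h3 ⊢
      have hK1 : 1 ≤ K := by rw [hK]; exact Nat.one_le_two_pow
      have hK0 : (0 : ℝ) < K := by exact_mod_cast hK1
      have hKK : (1 : ℝ) ≤ K := by exact_mod_cast hK1
      obtain ⟨R, hR⟩ : ∃ R : ℕ, R = ⌊Real.exp (La b (K : ℝ) + 1)⌋₊ + 1 := ⟨_, rfl⟩
      rw [← hR]
      have hbound : ∀ t ∈ (Ti a b δ K ×ˢ range R).filter fun t => t.2 ≤ ⌊gx δ (K : ℝ) (t.1 + 1)⌋₊,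
          μ.real {ω | √(2 * (2 * (b + 4)) * Mp δ (K : ℝ) t.1 1 * Real.log (K : ℝ)) <
            |dv A ω ⌊gx δ (K : ℝ) t.1⌋₊ t.2|} ≤ 4 * (K : ℝ) ^ (-(b + 4)) := by
        intro t ht
        rw [mem_filter, mem_product] at ht
        refine (h1 t.1 ht.1.1 1 le_rfl _ ht.2).trans (le_of_eq ?_)
        congr 2
        ring
      refine (sum_le_sum hbound).trans ?_
      rw [sum_const, nsmul_eq_mul]
      have hΛ : 0 < La b K := by
        unfold La
        have : 0 ≤ Real.log (4 * K) := Real.log_nonneg (by linarith)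
        positivity
      have h4 : ((Ti a b δ K).card : ℝ) ≤ K * K := by
        have e0 : ((Ti a b δ K).card : ℝ) ≤ K * La b K / δ + 1 := by
          refine le_trans ?_ (card_range_le hδ hK0 hΛ.le)
          exact_mod_cast card_filter_le _ _
        refine e0.trans ?_
        have e1 : K * La b K / δ + 1 ≤ K * ((1 / δ + 1) * (1 + La b K)) := by
          have e11 : 1 ≤ (K : ℝ) * 1 := by linarith
          have e12 : K * La b K / δ = K * (1 / δ * La b K) := by ring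
          rw [e12]
          have e13 : (1 : ℝ) / δ * La b K + 1 ≤ (1 / δ + 1) * (1 + La b K) := by
            have : 0 < 1 / δ := by positivity
            nlinarith
          calc (K : ℝ) * (1 / δ * La b K) + 1 ≤ K * (1 / δ * La b K + 1) := by linarith
            _ ≤ _ := mul_le_mul_of_nonneg_left e13 hK0.le
        refine e1.trans (mul_le_mul_of_nonneg_left ?_ hK0.le)
        rw [Real.rpow_one] at h2
        refine le_trans ?_ h2
        have : 0 ≤ (1 / δ + 1) * (1 + La b K) := by positivity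
        nlinarith
      have h5 : (R : ℝ) * 4 ≤ K * (K : ℝ) ^ b := by
        rw [Real.rpow_one] at h2'
        have e1 : (R : ℝ) ≤ Real.exp (La b (K : ℝ) + 1) + 1 := by
          rw [hR]
          push_cast
          have := Nat.floor_le (Real.exp_pos (La b (K : ℝ) + 1)).le
          linarith
        have e2 : Real.exp (La b (K : ℝ) + 1) = Real.exp 2 * 4 ^ b * (K : ℝ) ^ b := by
          unfold La
          rw [show b * Real.log (4 * K) + 1 + 1 = 2 + Real.log (4 * K) * b by ring, Real.exp_add,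
            ← Real.rpow_def_of_pos (by positivity), Real.mul_rpow (by norm_num) hK0.le]
          ring
        have e3 : 1 ≤ (K : ℝ) ^ b := Real.one_le_rpow hKK hb.le
        calc (R : ℝ) * 4 ≤ (Real.exp 2 * 4 ^ b * (K : ℝ) ^ b + (K : ℝ) ^ b) * 4 := by
              rw [e2] at e1
              linarith
          _ = 4 * (Real.exp 2 * 4 ^ b + 1) * (K : ℝ) ^ b := by ring
          _ ≤ K * (K : ℝ) ^ b := mul_le_mul_of_nonneg_right h2' (by positivity)
      have h6 : (((Ti a b δ K ×ˢ range R).filter fun t => t.2 ≤ ⌊gx δ (K : ℝ) (t.1 + 1)⌋₊).card : ℝ) * 4 ≤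
          (K * K) * (K * (K : ℝ) ^ b) := by
        have e1 : ((Ti a b δ K ×ˢ range R).filter fun t => t.2 ≤ ⌊gx δ (K : ℝ) (t.1 + 1)⌋₊).card ≤
            (Ti a b δ K).card * R := by
          refine (card_filter_le _ _).trans ?_
          rw [card_product, card_range]
        have e2 : (((Ti a b δ K ×ˢ range R).filter fun t => t.2 ≤ ⌊gx δ (K : ℝ) (t.1 + 1)⌋₊).card : ℝ) ≤
            (Ti a b δ K).card * R := by exact_mod_cast e1
        calc _ ≤ ((Ti a b δ K).card : ℝ) * R * 4 := mul_le_mul_of_nonneg_right e2 (by norm_num)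
          _ = ((Ti a b δ K).card : ℝ) * (R * 4) := by ring
          _ ≤ _ := mul_le_mul h4 h5 (by positivity) (by positivity)
      calc (((Ti a b δ K ×ˢ range R).filter fun t => t.2 ≤ ⌊gx δ (K : ℝ) (t.1 + 1)⌋₊).card : ℝ) *
            (4 * (K : ℝ) ^ (-(b + 4))) =
            (((Ti a b δ K ×ˢ range R).filter fun t => t.2 ≤ ⌊gx δ (K : ℝ) (t.1 + 1)⌋₊).card : ℝ) * 4 *
              (K : ℝ) ^ (-(b + 4)) := by ring
        _ ≤ ((K * K) * (K * (K : ℝ) ^ b)) * (K : ℝ) ^ (-(b + 4)) :=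
            mul_le_mul_of_nonneg_right h6 (by positivity)
        _ = (K : ℝ) ^ (3 : ℝ) * (K : ℝ) ^ b * (K : ℝ) ^ (-(b + 4)) := by
            rw [show (3 : ℝ) = ((3 : ℕ) : ℝ) by norm_num, Real.rpow_natCast]
            ring
        _ = (K : ℝ) ^ (-(1 : ℝ)) := by
            rw [← Real.rpow_add hK0, ← Real.rpow_add hK0]
            congr 1
            ring)
  filter_upwards [h3] with ω hω
  filter_upwards [hω] with i hi u hu n hn
  have hmem : (u, n) ∈ (Ti a b δ (2 ^ i) ×ˢ range (⌊Real.exp (La b ((2 ^ i : ℕ) : ℝ) + 1)⌋₊ + 1)).filter fun t =>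
      t.2 ≤ ⌊gx δ ((2 ^ i : ℕ) : ℝ) (t.1 + 1)⌋₊ := by
    rw [mem_filter, mem_product, mem_range]
    refine ⟨⟨hu, Nat.lt_succ_of_le (hn.trans (Nat.floor_le_floor ?_))⟩, hn⟩
    unfold Ti at hu
    rw [mem_filter] at hu
    unfold gx
    refine Real.exp_le_exp.2 ?_
    have h4 : ((1 : ℕ) : ℝ) ≤ ((2 ^ i : ℕ) : ℝ) := by exact_mod_cast Nat.one_le_two_pow
    have h5 : δ / ((2 ^ i : ℕ) : ℝ) ≤ 1 := by
      rw [div_le_one (by
        push_cast at h4 ⊢
        linarith)]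
      push_cast at h4 ⊢
      linarith
    have h6 : ((u + 1 : ℕ) : ℝ) * δ / ((2 ^ i : ℕ) : ℝ) = u * δ / ((2 ^ i : ℕ) : ℝ) + δ / ((2 ^ i : ℕ) : ℝ) := by
      push_cast
      ring
    rw [h6]
    linarith [hu.2.2]
  exact not_lt.1 (hi (u, n) hmem)

end Pool.Agent.Q166.Sq
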