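import Pool.Agent.Q166.SqD

/-!
# The upper bound for the deviations between powers, uniformly in the exponent
-/

set_option autoImplicit false

namespace Pool.Agent.Q166.Sq

open Finset MeasureTheory Filter Pool.Agent.Q120.ET Pool.Agent.Q120.MF Pool.Agent.Q120.AD Pool.Agent.Q120.NC
  Pool.Agent.Q120.TD
open scoped Topology

variable {Ω : Type*} {A : Ω → Set ℕ}

/-- a grid point below a real number -/
theorem grid_point {δ κ x : ℝ} (hδ : 0 < δ) (hκ : 0 < κ) (hx : 1 ≤ x) :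
    gx δ κ ⌊κ * Real.log x / δ⌋₊ ≤ x ∧ x ≤ gx δ κ (⌊κ * Real.log x / δ⌋₊ + 1) ∧
      ((⌊κ * Real.log x / δ⌋₊ : ℕ) : ℝ) * δ / κ ≤ Real.log x ∧
      Real.log x ≤ ((⌊κ * Real.log x / δ⌋₊ : ℕ) : ℝ) * δ / κ + δ / κ := by
  have hx0 : 0 < x := by linarith
  have hl : 0 ≤ Real.log x := Real.log_nonneg hx
  have h1 := Nat.floor_le (show 0 ≤ κ * Real.log x / δ by positivity)
  have h2 := (Nat.lt_floor_add_one (κ * Real.log x / δ)).le
  obtain ⟨u, hu⟩ : ∃ u : ℕ, u = ⌊κ * Real.log x / δ⌋₊ := ⟨_, rfl⟩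
  rw [← hu] at h1 h2 ⊢
  rw [le_div_iff₀ hδ] at h1
  rw [div_le_iff₀ hδ] at h2
  have h3 : (u : ℝ) * δ / κ ≤ Real.log x := by
    rw [div_le_iff₀ hκ]
    linarith
  have h4 : Real.log x ≤ (u : ℝ) * δ / κ + δ / κ := by
    rw [← add_div, le_div_iff₀ hκ]
    linarith
  refine ⟨?_, ?_, h3, h4⟩
  · unfold gx
    rw [← Real.le_log_iff_exp_le hx0]
    exact h3
  · unfold gx
    rw [← Real.log_le_iff_le_exp hx0]
    refine h4.trans (le_of_eq ?_)
    push_cast
    ring

theorem det_upper {ω : Ω} {a b ε δ θ : ℝ} {q K m w0 : ℕ} (ha : 1 < a) (haθ : a ≤ θ) (hθb : θ ≤ b)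
    (hε : 0 < ε) (hε1 : ε ≤ 1) (hδ : δ = ε ^ 2 / (36 * (b + 4))) (hq : 1 ≤ q) (hqK : q ≤ K)
    (hm1 : K ≤ m) (hm2 : m ≤ 2 * K) (hL : 1 ≤ Real.log (K : ℝ)) (hb1 : (1 + (q : ℝ) / K) ^ b ≤ 1 + ε)
    (hb2 : 1 ≤ δ * (K : ℝ) ^ (a - 1)) (hw0 : b * q / δ + 1 ≤ w0)
    (h1 : ∀ u ∈ Ti a b δ K, ∀ w ∈ Icc 1 w0, |dv A ω ⌊gx δ (K : ℝ) u⌋₊ ⌊gx δ (K : ℝ) (u + w)⌋₊| ≤
        √(2 * (1 + ε) ^ 2 * Mp δ (K : ℝ) u w * Real.log (K : ℝ)))
    (h2 : ∀ u ∈ Ti a b δ K, ∀ n ≤ ⌊gx δ (K : ℝ) (u + 1)⌋₊, |dv A ω ⌊gx δ (K : ℝ) u⌋₊ n| ≤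
        √(2 * (2 * (b + 4)) * Mp δ (K : ℝ) u 1 * Real.log (K : ℝ))) :
    |dv A ω ⌊(m : ℝ) ^ θ⌋₊ ⌊((m : ℝ) + q) ^ θ⌋₊| ≤ (1 + 9 * ε) * √(2 * q * (m : ℝ) ^ (θ - 1)) := by
  have hb : 1 < b := by linarith
  have hθ0 : 0 < θ := by linarith
  have hK1 : 1 ≤ K := hq.trans hqK
  have hK : (0 : ℝ) < K := by exact_mod_cast hK1
  have hKK : (1 : ℝ) ≤ K := by exact_mod_cast hK1
  have hmK : (K : ℝ) ≤ m := by exact_mod_cast hm1
  have hm2' : (m : ℝ) ≤ 2 * K := by exact_mod_cast hm2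
  have hm : (0 : ℝ) < m := by linarith
  have hqq : (1 : ℝ) ≤ q := by exact_mod_cast hq
  have hqK' : (q : ℝ) ≤ K := by exact_mod_cast hqK
  have hb4 : 0 < b + 4 := by linarith
  have hδ0 : 0 < δ := by rw [hδ]; positivity
  have hδ1 : δ ≤ ε / 180 := by
    rw [hδ, div_le_div_iff₀ (by positivity) (by norm_num)]
    nlinarith
  have hδb : 72 * (b + 4) * δ ≤ 2 * ε ^ 2 := by
    rw [hδ]
    have : 72 * (b + 4) * (ε ^ 2 / (36 * (b + 4))) = 2 * ε ^ 2 := by
      field_simp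
      norm_num
    rw [this]
  have hδK : δ / K ≤ δ := div_le_self hδ0.le hKK
  obtain ⟨x, hx⟩ : ∃ x : ℝ, x = (m : ℝ) ^ θ := ⟨_, rfl⟩
  obtain ⟨y, hy⟩ : ∃ y : ℝ, y = ((m : ℝ) + q) ^ θ := ⟨_, rfl⟩
  obtain ⟨z, hz⟩ : ∃ z : ℝ, z = (m : ℝ) ^ (θ - 1) := ⟨_, rfl⟩
  rw [← hx, ← hy, ← hz]
  have hz0 : 0 < z := by rw [hz]; positivity
  have hxz : x = m * z := by
    rw [hx, hz]
    nth_rewrite 2 [← Real.rpow_one (m : ℝ)]
    rw [← Real.rpow_add hm]
    congr 1
    ring
  have hm1' : (1 : ℝ) ≤ m := by linarith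
  have hx1 : 1 ≤ x := by rw [hx]; exact Real.one_le_rpow hm1' (by linarith)
  have hδz : 1 ≤ δ * z := by
    refine hb2.trans (mul_le_mul_of_nonneg_left ?_ hδ0.le)
    rw [hz]
    calc (K : ℝ) ^ (a - 1) ≤ (K : ℝ) ^ (θ - 1) := Real.rpow_le_rpow_of_exponent_le hKK (by linarith)
      _ ≤ _ := Real.rpow_le_rpow hK.le hmK (by linarith)
  have hqm : (q : ℝ) / m ≤ q / K := div_le_div_of_nonneg_left (by linarith) hK hmK
  have hfac : (m : ℝ) + q = m * (1 + q / m) := by field_simp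
  have hpw : ∀ s : ℝ, 0 ≤ s → s ≤ b → (1 + (q : ℝ) / m) ^ s ≤ 1 + ε := by
    intro s hs0 hsb
    refine le_trans ?_ hb1
    have e1 : (1 : ℝ) ≤ 1 + q / m := by
      have : 0 ≤ (q : ℝ) / m := by positivity
      linarith
    calc (1 + (q : ℝ) / m) ^ s ≤ (1 + (q : ℝ) / m) ^ b := Real.rpow_le_rpow_of_exponent_le e1 hsb
      _ ≤ _ := Real.rpow_le_rpow (by linarith) (by linarith) (by linarith)
  have hyx : y ≤ 2 * x := by
    rw [hy, hfac, Real.mul_rpow hm.le (by positivity), ← hx]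
    have := hpw θ (by linarith) hθb
    nlinarith
  obtain ⟨hd1, hd2⟩ := rpow_diff (q := (q : ℝ)) hm (by linarith) (show 1 ≤ θ by linarith)
  rw [← hx, ← hy] at hd1 hd2
  have hxy : x ≤ y := by
    have : 0 ≤ θ * q * (m : ℝ) ^ (θ - 1) := by positivity
    linarith
  have hd3 : y - x ≤ θ * q * z * (1 + ε) := by
    refine hd2.trans ?_
    rw [hfac, Real.mul_rpow hm.le (by positivity), ← hz]
    have := hpw (θ - 1) (by linarith) (by linarith)
    have e1 : 0 ≤ θ * q * z := by positivity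
    calc θ * q * (z * (1 + q / m) ^ (θ - 1)) = θ * q * z * (1 + q / m) ^ (θ - 1) := by ring
      _ ≤ _ := mul_le_mul_of_nonneg_left this e1
  have hy1 : 1 ≤ y := hx1.trans hxy
  obtain ⟨gu1, gu2, gu3, gu4⟩ := grid_point hδ0 hK hx1
  obtain ⟨gv1, gv2, gv3, gv4⟩ := grid_point hδ0 hK hy1
  have huv : ⌊(K : ℝ) * Real.log x / δ⌋₊ ≤ ⌊(K : ℝ) * Real.log y / δ⌋₊ := by
    apply Nat.floor_le_floor
    apply div_le_div_of_nonneg_right _ hδ0.le
    exact mul_le_mul_of_nonneg_left (Real.log_le_log (by linarith) hxy) hK.le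
  obtain ⟨u, hu⟩ : ∃ u : ℕ, u = ⌊(K : ℝ) * Real.log x / δ⌋₊ := ⟨_, rfl⟩
  obtain ⟨v, hv⟩ : ∃ v : ℕ, v = ⌊(K : ℝ) * Real.log y / δ⌋₊ := ⟨_, rfl⟩
  rw [← hu] at gu1 gu2 gu3 gu4 huv
  rw [← hv] at gv1 gv2 gv3 gv4 huv
  have hlx : Real.log x = θ * Real.log m := by rw [hx, Real.log_rpow hm]
  have hly : Real.log y = θ * Real.log ((m : ℝ) + q) := by rw [hy, Real.log_rpow (by linarith)]
  have hlm : Real.log K ≤ Real.log (m : ℝ) := Real.log_le_log hK hmK
  -- the point below x is close to x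
  have hXu : x * (1 - δ / K) ≤ gx δ K u := by
    have e1 : x ≤ gx δ K u * Real.exp (δ / K) := by
      have := gx_add δ (K : ℝ) u 1
      rw [this] at gu2
      push_cast at gu2
      rw [one_mul] at gu2
      exact gu2
    have e2 := Real.one_sub_le_exp_neg (δ / K)
    have e3 : gx δ K u * Real.exp (δ / K) * Real.exp (-(δ / K)) = gx δ K u := by
      rw [mul_assoc, ← Real.exp_add, add_neg_cancel, Real.exp_zero, mul_one]
    calc x * (1 - δ / K) ≤ x * Real.exp (-(δ / K)) := mul_le_mul_of_nonneg_left e2 (by linarith)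
      _ ≤ gx δ K u * Real.exp (δ / K) * Real.exp (-(δ / K)) :=
          mul_le_mul_of_nonneg_right e1 (Real.exp_pos _).le
      _ = _ := e3
  have hKa : (K : ℝ) ^ a ≤ x := by
    rw [hx]
    calc (K : ℝ) ^ a ≤ (K : ℝ) ^ θ := Real.rpow_le_rpow_of_exponent_le hKK haθ
      _ ≤ _ := Real.rpow_le_rpow hK.le hmK (by linarith)
  have hXu3 : (K : ℝ) ^ a ≤ 3 * gx δ K u := by nlinarith
  have hl4 : Real.log ((m : ℝ) + q) ≤ Real.log (4 * K) := Real.log_le_log (by linarith) (by linarith)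
  have hl40 : 0 ≤ Real.log ((m : ℝ) + q) := Real.log_nonneg (by linarith)
  have hlyLa : Real.log y ≤ La b K := by
    rw [hly]
    unfold La
    have : θ * Real.log ((m : ℝ) + q) ≤ b * Real.log (4 * K) :=
      mul_le_mul hθb hl4 hl40 (by linarith)
    linarith
  have hlxy : Real.log x ≤ Real.log y := Real.log_le_log (by linarith) hxy
  have huT : u ∈ Ti a b δ K := by
    unfold Ti
    rw [mem_filter]
    have e1 : (u : ℝ) * δ / K ≤ La b K := by linarith
    exact ⟨mem_range_grid hδ0 hK e1, hXu3, e1⟩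
  have hvT : v ∈ Ti a b δ K := by
    unfold Ti
    rw [mem_filter]
    have e1 : (v : ℝ) * δ / K ≤ La b K := by linarith
    have e2 := gx_mono hδ0.le hK.le huv
    exact ⟨mem_range_grid hδ0 hK e1, by linarith, e1⟩
  -- the denominators
  have hden : ∀ t : ℕ, Real.log x - δ / K ≤ t * δ / K → 0 < (t : ℝ) * δ / K ∧
      θ * Real.log K ≤ (1 + ε) * ((t : ℝ) * δ / K) := by
    intro t ht
    rw [hlx] at ht
    have e1 : θ * Real.log K ≤ θ * Real.log m := mul_le_mul_of_nonneg_left hlm (by linarith)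
    have e2 : 1 ≤ θ * Real.log K := one_le_mul_of_one_le_of_one_le (by linarith) hL
    obtain ⟨D, hD⟩ : ∃ D : ℝ, D = (t : ℝ) * δ / K := ⟨_, rfl⟩
    rw [← hD] at ht ⊢
    have e3 : θ * Real.log K - ε / 180 ≤ D := by linarith
    constructor
    · linarith
    · have e4 : (1 + ε) * (θ * Real.log K - ε / 180) ≤ (1 + ε) * D := mul_le_mul_of_nonneg_left e3 (by linarith)
      have e5 : ε * 1 ≤ ε * (θ * Real.log K) := mul_le_mul_of_nonneg_left e2 hε.le
      have e6 : ε * ε ≤ ε := mul_le_of_le_one_left hε.le hε1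
      linarith
  have hdu := hden u (by linarith)
  have hdv := hden v (by linarith)
  -- the short windows
  have hshort : ∀ t : ℕ, t ∈ Ti a b δ K → gx δ K t ≤ 2 * x → 0 < (t : ℝ) * δ / K →
      θ * Real.log K ≤ (1 + ε) * ((t : ℝ) * δ / K) →
      √(2 * (2 * (b + 4)) * Mp δ (K : ℝ) t 1 * Real.log (K : ℝ)) ≤ ε * √(2 * q * z) := by
    intro t _ ht2 ht3 ht4
    have e1 : Real.exp (((1 : ℕ) : ℝ) * δ / K) - 1 ≤ 2 * (δ / K) := by
      have e11 := exp_quad (l := δ / K) (by positivity) (by linarith)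
      rw [Nat.cast_one, one_mul]
      have e12 : 0 ≤ δ / K := by positivity
      nlinarith
    have e2 : gx δ K t * (Real.exp (((1 : ℕ) : ℝ) * δ / K) - 1) + 1 ≤ 9 * (δ * z) := by
      have e21 : gx δ K t * (Real.exp (((1 : ℕ) : ℝ) * δ / K) - 1) ≤ 2 * x * (2 * (δ / K)) := by
        apply mul_le_mul ht2 e1 _ (by linarith)
        have := Real.one_le_exp (show 0 ≤ ((1 : ℕ) : ℝ) * δ / K by positivity)
        linarith
      have e22 : 2 * x * (2 * (δ / K)) = 4 * (m / K) * (δ * z) := by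
        rw [hxz]
        field_simp
        ring
      have e23 : (m : ℝ) / K ≤ 2 := by rwa [div_le_iff₀ hK]
      have e24 : 4 * ((m : ℝ) / K) * (δ * z) ≤ 8 * (δ * z) := by
        apply mul_le_mul_of_nonneg_right _ (by positivity)
        linarith
      linarith
    have e3 : Mp δ (K : ℝ) t 1 * Real.log K ≤ 18 * (δ * z) := by
      unfold Mp
      rw [div_mul_eq_mul_div, div_le_iff₀ ht3]
      have e31 : Real.log K ≤ 2 * ((t : ℝ) * δ / K) := by
        have e32 : Real.log K ≤ θ * Real.log K := le_mul_of_one_le_left (by linarith) (by linarith)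
        have e33 : (1 + ε) * ((t : ℝ) * δ / K) ≤ 2 * ((t : ℝ) * δ / K) :=
          mul_le_mul_of_nonneg_right (by linarith) ht3.le
        linarith
      calc (gx δ K t * (Real.exp (((1 : ℕ) : ℝ) * δ / K) - 1) + 1) * Real.log K ≤
            9 * (δ * z) * Real.log K := mul_le_mul_of_nonneg_right e2 (by linarith)
        _ ≤ 9 * (δ * z) * (2 * ((t : ℝ) * δ / K)) := mul_le_mul_of_nonneg_left e31 (by positivity)
        _ = _ := by ring
    rw [Real.sqrt_le_iff]
    refine ⟨by positivity, ?_⟩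
    rw [mul_pow, Real.sq_sqrt (by positivity)]
    calc 2 * (2 * (b + 4)) * Mp δ (K : ℝ) t 1 * Real.log (K : ℝ) =
          4 * (b + 4) * (Mp δ (K : ℝ) t 1 * Real.log K) := by ring
      _ ≤ 4 * (b + 4) * (18 * (δ * z)) := mul_le_mul_of_nonneg_left e3 (by linarith)
      _ = 72 * (b + 4) * δ * z := by ring
      _ ≤ 2 * ε ^ 2 * z := mul_le_mul_of_nonneg_right hδb hz0.le
      _ = ε ^ 2 * (2 * 1 * z) := by ring
      _ ≤ ε ^ 2 * (2 * q * z) := by
          apply mul_le_mul_of_nonneg_left _ (by positivity)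
          apply mul_le_mul_of_nonneg_right _ hz0.le
          linarith
  -- the long window
  have hlong : |dv A ω ⌊gx δ (K : ℝ) u⌋₊ ⌊gx δ (K : ℝ) v⌋₊| ≤ (1 + 7 * ε) * √(2 * q * z) := by
    obtain ⟨w, hw⟩ := Nat.exists_eq_add_of_le huv
    rcases Nat.eq_zero_or_pos w with h | h
    · rw [hw, h, add_zero, dv_self, abs_zero]
      positivity
    · have hwle : w ≤ w0 := by
        have e1 : (w : ℝ) * δ / K ≤ b * q / K + δ / K := by
          have e11 : (v : ℝ) = u + w := by rw [hw]; push_cast; ring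
          have e12 : (v : ℝ) * δ / K = u * δ / K + w * δ / K := by rw [e11]; ring
          have e13 : Real.log y - Real.log x ≤ b * q / K := by
            rw [hlx, hly, ← mul_sub]
            have e14 : Real.log ((m : ℝ) + q) - Real.log m ≤ q / K := by
              have e15 : Real.log ((m : ℝ) + q) - Real.log m = Real.log (1 + q / m) := by
                rw [hfac, Real.log_mul hm.ne' (by positivity)]
                ring
              rw [e15]
              have := Real.log_le_sub_one_of_pos (show 0 < 1 + (q : ℝ) / m by positivity)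
              linarith
            have e16 : 0 ≤ Real.log ((m : ℝ) + q) - Real.log m := by
              have := Real.log_le_log hm (show (m : ℝ) ≤ m + q by linarith)
              linarith
            calc θ * (Real.log ((m : ℝ) + q) - Real.log m) ≤ b * (q / K) :=
                  mul_le_mul hθb e14 e16 (by linarith)
              _ = _ := by ring
          linarith
        have e2 : (w : ℝ) ≤ b * q / δ + 1 := by
          rw [← add_div, div_le_div_iff_of_pos_right hK] at e1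
          have e3 : (w : ℝ) ≤ (b * q + δ) / δ := by
            rw [le_div_iff₀ hδ0]
            exact e1
          rw [add_div, div_self hδ0.ne'] at e3
          exact e3
        exact_mod_cast e2.trans hw0
      have e1 := h1 u huT w (mem_Icc.2 ⟨h, hwle⟩)
      rw [← hw] at e1
      refine e1.trans ?_
      have e2 : gx δ K u * (Real.exp ((w : ℝ) * δ / K) - 1) + 1 ≤ θ * q * z * (1 + 2 * ε) := by
        have e21 := gx_add δ (K : ℝ) u w
        rw [← hw] at e21
        have e22 : gx δ K u * (Real.exp ((w : ℝ) * δ / K) - 1) = gx δ K v - gx δ K u := by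
          rw [e21]
          ring
        rw [e22]
        have e23 : x * (δ / K) ≤ 2 * (δ * z) := by
          have e24 : x * (δ / K) = m / K * (δ * z) := by
            rw [hxz]
            field_simp
          rw [e24]
          apply mul_le_mul_of_nonneg_right _ (by positivity)
          rwa [div_le_iff₀ hK]
        have e25 : gx δ K v - gx δ K u ≤ (y - x) + x * (δ / K) := by
          have : x * (1 - δ / K) = x - x * (δ / K) := by ring
          linarith
        have e26 : 3 * (δ * z) ≤ θ * q * z * ε := by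
          have e27 : 3 * δ ≤ θ * q * ε := by
            have e28 : 1 ≤ θ * q := one_le_mul_of_one_le_of_one_le (by linarith) hqq
            have e29 : 1 * ε ≤ θ * q * ε := mul_le_mul_of_nonneg_right e28 hε.le
            linarith
          calc 3 * (δ * z) = 3 * δ * z := by ring
            _ ≤ θ * q * ε * z := mul_le_mul_of_nonneg_right e27 hz0.le
            _ = _ := by ring
        linarith
      have e3 : Mp δ (K : ℝ) u w * Real.log K ≤ q * z * ((1 + 2 * ε) * (1 + ε)) := by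
        unfold Mp
        rw [div_mul_eq_mul_div, div_le_iff₀ hdu.1]
        have e31 : 0 ≤ Real.log (K : ℝ) := by linarith
        calc (gx δ K u * (Real.exp ((w : ℝ) * δ / K) - 1) + 1) * Real.log K ≤
              θ * q * z * (1 + 2 * ε) * Real.log K := mul_le_mul_of_nonneg_right e2 e31
          _ = q * z * (1 + 2 * ε) * (θ * Real.log K) := by ring
          _ ≤ q * z * (1 + 2 * ε) * ((1 + ε) * ((u : ℝ) * δ / K)) :=
              mul_le_mul_of_nonneg_left hdu.2 (by positivity)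
          _ = _ := by ring
      rw [Real.sqrt_le_iff]
      refine ⟨by positivity, ?_⟩
      rw [mul_pow, Real.sq_sqrt (by positivity)]
      have e4 : (1 + ε) ^ 2 * ((1 + 2 * ε) * (1 + ε)) ≤ (1 + 7 * ε) ^ 2 := by
        have e41 : ε ^ 2 ≤ ε := by
          rw [sq]
          exact mul_le_of_le_one_left hε.le hε1
        have e42 : 0 ≤ ε ^ 2 := sq_nonneg ε
        have e43 : (1 + ε) ^ 2 ≤ 1 + 3 * ε := by linarith
        have e44 : (1 + 2 * ε) * (1 + ε) ≤ 1 + 5 * ε := by linarith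
        calc (1 + ε) ^ 2 * ((1 + 2 * ε) * (1 + ε)) ≤ (1 + 3 * ε) * (1 + 5 * ε) :=
              mul_le_mul e43 e44 (by positivity) (by positivity)
          _ ≤ _ := by linarith
      calc 2 * (1 + ε) ^ 2 * Mp δ (K : ℝ) u w * Real.log (K : ℝ) =
            2 * (1 + ε) ^ 2 * (Mp δ (K : ℝ) u w * Real.log K) := by ring
        _ ≤ 2 * (1 + ε) ^ 2 * (q * z * ((1 + 2 * ε) * (1 + ε))) :=
            mul_le_mul_of_nonneg_left e3 (by positivity)
        _ = (1 + ε) ^ 2 * ((1 + 2 * ε) * (1 + ε)) * (2 * q * z) := by ring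
        _ ≤ _ := mul_le_mul_of_nonneg_right e4 (by positivity)
  -- decomposition
  have hfu : ⌊gx δ (K : ℝ) u⌋₊ ≤ ⌊x⌋₊ := Nat.floor_le_floor gu1
  have hfv : ⌊gx δ (K : ℝ) v⌋₊ ≤ ⌊y⌋₊ := Nat.floor_le_floor gv1
  have hfxy : ⌊x⌋₊ ≤ ⌊y⌋₊ := Nat.floor_le_floor hxy
  have hfuv : ⌊gx δ (K : ℝ) u⌋₊ ≤ ⌊gx δ (K : ℝ) v⌋₊ := Nat.floor_le_floor (gx_mono hδ0.le hK.le huv)
  have s1 := dv_add (A := A) ω hfu hfxy
  have s2 := dv_add (A := A) ω hfuv hfv
  have s3 := (h2 u huT ⌊x⌋₊ (Nat.floor_le_floor gu2)).trans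
    (hshort u huT (by linarith) hdu.1 hdu.2)
  have s4 := (h2 v hvT ⌊y⌋₊ (Nat.floor_le_floor gv2)).trans
    (hshort v hvT (by linarith) hdv.1 hdv.2)
  rw [abs_le] at s3 s4 hlong ⊢
  constructor <;> linarith [s3.1, s3.2, s4.1, s4.2, hlong.1, hlong.2]

end Pool.Agent.Q166.Sq
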