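import Pool.Agent.Q166.SqE

/-!
# Independent windows between the powers of the members of a residue class
-/

set_option autoImplicit false

namespace Pool.Agent.Q166.Sq

open Finset MeasureTheory Filter Pool.Agent.Q120.ET Pool.Agent.Q120.MF Pool.Agent.Q120.AD Pool.Agent.Q120.NC
  Pool.Agent.Q120.TD
open scoped Topology

variable {Ω : Type*} {A : Ω → Set ℕ} [MeasurableSpace Ω] {μ : Measure Ω} [IsProbabilityMeasure μ]

/-- none of some independent events -/
theorem none_le {ι : Type*} [DecidableEq ι] (hA : IsCramer μ A) (I : Finset ι) (W : ι → Finset ℕ)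
    (hW3 : ∀ i ∈ I, ∀ n ∈ W i, 3 ≤ n) (hd : ∀ i ∈ I, ∀ j ∈ I, i ≠ j → Disjoint (W i) (W j))
    (F : ι → Finset ℕ → Prop) [∀ i, DecidablePred (F i)] {p : ℝ}
    (hp : ∀ i ∈ I, p ≤ ∑ T ∈ (W i).powerset with F i T, cramerOn (W i) T) :
    μ.real {ω | ∀ i ∈ I, ¬ F i (tr A (W i) ω)} ≤ Real.exp (-(I.card * p)) := by
  rw [real_all hA I W hW3 hd (fun i T => ¬ F i T)]
  have h1 : ∀ i ∈ I, ∑ T ∈ (W i).powerset with ¬ F i T, cramerOn (W i) T ≤ Real.exp (-p) := by
    intro i hi
    have e1 := sum_filter_add_sum_filter_not (W i).powerset (F i) (fun T => cramerOn (W i) T)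
    rw [sum_cramerOn] at e1
    have e2 := hp i hi
    have e3 := Real.one_sub_le_exp_neg p
    linarith
  refine (prod_le_prod (fun i hi => sum_nonneg fun T hT => ?_) h1).trans (le_of_eq ?_)
  · exact cramerOn_nonneg (hW3 i hi) (mem_powerset.1 (mem_filter.1 hT).1)
  · rw [prod_const, ← Real.exp_nat_mul]
    congr 1
    ring

/-- the window between two powers -/
noncomputable def Wn (q : ℕ) (θ : ℝ) (m : ℕ) : Finset ℕ := Ioc ⌊(m : ℝ) ^ θ⌋₊ ⌊((m : ℝ) + q) ^ θ⌋₊

/-- the members of a residue class in a dyadic block -/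
def Sn (q r K : ℕ) : Finset ℕ := (Ico K (2 * K)).filter fun m => m % q = r % q

theorem Sn_card {q r K : ℕ} (hq : 1 ≤ q) (hK : 2 * q ≤ K) : (K : ℝ) / (2 * q) ≤ ((Sn q r K).card : ℝ) := by
  have h1 : K / q ≤ (Sn q r K).card := by
    have h2 : ((range (K / q)).image fun j => K + (r + (q - K % q)) % q + q * j) ⊆ Sn q r K := by
      intro m hm
      rw [mem_image] at hm
      obtain ⟨j, hj, rfl⟩ := hm
      rw [mem_range] at hj
      have e1 : (r + (q - K % q)) % q < q := Nat.mod_lt _ (by omega)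
      have e2 : q * (j + 1) ≤ q * (K / q) := Nat.mul_le_mul_left q hj
      have e3 : q * (K / q) ≤ K := Nat.mul_div_le K q
      unfold Sn
      rw [mem_filter, mem_Ico]
      refine ⟨⟨by omega, ?_⟩, ?_⟩
      · rw [Nat.mul_add, mul_one] at e2
        omega
      · rw [Nat.add_mul_mod_self_left]
        have e4 : K % q < q := Nat.mod_lt _ (by omega)
        rw [Nat.add_mod, Nat.mod_mod, ← Nat.add_mod]
        have e5 : K + (r + (q - K % q)) = r + q * (K / q + 1) := by
          have := Nat.div_add_mod K q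
          rw [Nat.mul_add, mul_one]
          omega
        rw [e5, Nat.add_mul_mod_self_left]
    refine le_trans (le_of_eq ?_) (card_le_card h2)
    have hinj : Function.Injective fun j => K + (r + (q - K % q)) % q + q * j := by
      intro i j hij
      have h3 : K + (r + (q - K % q)) % q + q * i = K + (r + (q - K % q)) % q + q * j := hij
      exact Nat.eq_of_mul_eq_mul_left (by omega) (Nat.add_left_cancel h3)
    rw [card_image_of_injective _ hinj, card_range]
  have hq0 : (0 : ℝ) < q := by exact_mod_cast hq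
  have h2 : (K : ℝ) / q - 1 ≤ ((K / q : ℕ) : ℝ) := by
    have := Nat.div_add_mod K q
    have h3 : K < q * (K / q + 1) := by
      rw [Nat.mul_add, mul_one]
      have := Nat.mod_lt K (show 0 < q by omega)
      omega
    have h4 : (K : ℝ) < q * (((K / q : ℕ) : ℝ) + 1) := by exact_mod_cast h3
    rw [sub_le_iff_le_add, div_le_iff₀ hq0]
    linarith
  have h3 : (((K / q : ℕ)) : ℝ) ≤ ((Sn q r K).card : ℝ) := by exact_mod_cast h1
  have h4 : (2 : ℝ) ≤ K / q := by
    rw [le_div_iff₀ hq0]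
    exact_mod_cast hK
  have h5 : (K : ℝ) / (2 * q) = K / q / 2 := by
    field_simp
  rw [h5]
  linarith

theorem Wn_disjoint {q r K : ℕ} {θ : ℝ} (hθ : 0 ≤ θ) {m m' : ℕ} (hm : m ∈ Sn q r K) (hm' : m' ∈ Sn q r K)
    (h : m ≠ m') : Disjoint (Wn q θ m) (Wn q θ m') := by
  have key : ∀ m m' : ℕ, m ∈ Sn q r K → m' ∈ Sn q r K → m < m' →
      ⌊((m : ℝ) + q) ^ θ⌋₊ ≤ ⌊(m' : ℝ) ^ θ⌋₊ := by
    intro m m' hm hm' hlt
    unfold Sn at hm hm'
    rw [mem_filter] at hm hm'
    have h1 : q ∣ m' - m := (Nat.modEq_iff_dvd' hlt.le).1 (by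
      show m % q = m' % q
      rw [hm.2, hm'.2])
    have h2 : m + q ≤ m' := by
      have := Nat.le_of_dvd (by omega) h1
      omega
    have h3 : (m : ℝ) + q ≤ m' := by exact_mod_cast h2
    exact Nat.floor_le_floor (Real.rpow_le_rpow (by positivity) h3 hθ)
  rw [Finset.disjoint_left]
  intro n hn hn'
  unfold Wn at hn hn'
  rw [mem_Ioc] at hn hn'
  rcases Nat.lt_or_gt_of_ne h with h | h
  · have := key m m' hm hm' h
    omega
  · have := key m' m hm' hm h
    omega

/-- **The mean of the windows**, uniformly in the exponent. -/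
theorem mu_asymp {a b ε : ℝ} (ha : 1 < a) (hε : 0 < ε) {q : ℕ} (hq : 1 ≤ q) :
    ∀ᶠ m : ℕ in atTop, ∀ θ : ℝ, a ≤ θ → θ ≤ b →
      (1 - ε) * (q * (m : ℝ) ^ (θ - 1)) ≤ mu (Wn q θ m) * Real.log m ∧
        mu (Wn q θ m) * Real.log m ≤ (1 + ε) * (q * (m : ℝ) ^ (θ - 1)) := by
  have h1 : ∀ᶠ m : ℕ in atTop, (8 * q : ℝ) / ε ≤ (m : ℝ) ^ (a - 1) :=
    ((tendsto_rpow_atTop (by linarith)).comp tendsto_natCast_atTop_atTop).eventually_ge_atTop _
  have h2 : ∀ᶠ m : ℕ in atTop, (1 + (q : ℝ) / m) ^ b ≤ 1 + ε / 2 := by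
    have e1 : Tendsto (fun m : ℕ => (1 + (q : ℝ) / m) ^ b) atTop (𝓝 ((1 + 0) ^ b)) := by
      apply Tendsto.rpow_const
      · exact tendsto_const_nhds.add (tendsto_const_div_atTop_nhds_zero_nat (q : ℝ))
      · left
        norm_num
    rw [add_zero, Real.one_rpow] at e1
    exact e1.eventually_le_const (by linarith)
  have h3 : ∀ᶠ m : ℕ in atTop, (8 * q : ℝ) / ε ≤ (m : ℝ) :=
    tendsto_natCast_atTop_atTop.eventually_ge_atTop _
  filter_upwards [h1, h2, h3, eventually_ge_atTop 3] with m h1 h2 h3 h4 θ ha' hb'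
  have hθ1 : 1 < θ := by linarith
  have hθ0 : 0 < θ := by linarith
  have hq1 : (1 : ℝ) ≤ q := by exact_mod_cast hq
  have hm3 : (3 : ℝ) ≤ m := by exact_mod_cast h4
  have hm : (0 : ℝ) < m := by linarith
  have hL : 1 < Real.log (m : ℝ) := one_lt_log h4
  obtain ⟨z, hz⟩ : ∃ z : ℝ, z = (m : ℝ) ^ (θ - 1) := ⟨_, rfl⟩
  have hz1 : (m : ℝ) ^ (a - 1) ≤ z := by
    rw [hz]
    exact Real.rpow_le_rpow_of_exponent_le (by linarith) (by linarith)
  have hz8 : 8 * q ≤ ε * z := by
    rw [div_le_iff₀ hε] at h1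
    nlinarith
  have hm8 : 8 * q ≤ ε * m := by
    rw [div_le_iff₀ hε] at h3
    linarith
  rw [← hz]
  have hz0 : 0 < z := by rw [hz]; positivity
  obtain ⟨x, hx⟩ : ∃ x : ℝ, x = (m : ℝ) ^ θ := ⟨_, rfl⟩
  obtain ⟨y, hy⟩ : ∃ y : ℝ, y = ((m : ℝ) + q) ^ θ := ⟨_, rfl⟩
  obtain ⟨hd1, hd2⟩ := rpow_diff (q := (q : ℝ)) hm (by linarith) hθ1.le
  rw [← hx, ← hy] at hd1 hd2
  rw [← hz] at hd1
  have hxy : x ≤ y := by
    have : 0 ≤ θ * q * z := by positivity
    linarith
  have hx1 : 1 < x := by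
    rw [hx]
    exact Real.one_lt_rpow (by linarith) hθ0
  have hlx : Real.log x = θ * Real.log m := by rw [hx, Real.log_rpow hm]
  have hly : Real.log y = θ * Real.log ((m : ℝ) + q) := by rw [hy, Real.log_rpow (by linarith)]
  have hfac : (m : ℝ) + q = m * (1 + q / m) := by field_simp
  have hW : Wn q θ m = Ioc ⌊x⌋₊ ⌊y⌋₊ := by
    unfold Wn
    rw [hx, hy]
  have hup := mu_le hx1 hxy
  have hlo := le_mu hx1 hxy
  rw [← hW] at hup hlo
  constructor
  · have hlmq : 0 < Real.log ((m : ℝ) + q) := Real.log_pos (by linarith)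
    have e1 : Real.log ((m : ℝ) + q) ≤ Real.log m * (1 + ε / 8) := by
      have e11 : Real.log ((m : ℝ) + q) = Real.log m + Real.log (1 + q / m) := by
        rw [hfac, Real.log_mul hm.ne' (by positivity)]
      have e12 := Real.log_le_sub_one_of_pos (show 0 < 1 + (q : ℝ) / m by positivity)
      have e13 : (q : ℝ) / m ≤ ε / 8 := by
        rw [div_le_div_iff₀ hm (by norm_num)]
        linarith
      nlinarith
    have e2 : (θ * q * z - 1) / (θ * Real.log ((m : ℝ) + q)) ≤ mu (Wn q θ m) := by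
      refine le_trans ?_ hlo
      rw [hly]
      apply div_le_div_of_nonneg_right _ (by positivity)
      linarith
    rw [div_le_iff₀ (by positivity)] at e2
    have hμ := mu_nonneg (W := Wn q θ m)
    have e3 : q * z - 1 ≤ mu (Wn q θ m) * Real.log ((m : ℝ) + q) := by
      have : θ * (q * z - 1) ≤ θ * (mu (Wn q θ m) * Real.log ((m : ℝ) + q)) := by
        have : θ * (q * z - 1) ≤ θ * q * z - 1 := by nlinarith
        linarith
      exact le_of_mul_le_mul_left this hθ0
    have e4 : mu (Wn q θ m) * Real.log ((m : ℝ) + q) ≤ mu (Wn q θ m) * Real.log m * (1 + ε / 8) := by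
      rw [mul_assoc]
      exact mul_le_mul_of_nonneg_left e1 hμ
    have e5 : 1 ≤ ε / 8 * (q * z) := by nlinarith
    have e6 : 0 < q * z := by positivity
    have e7 : (1 - ε / 8) * (q * z) ≤ mu (Wn q θ m) * Real.log m * (1 + ε / 8) := by linarith
    have e8 : (1 - ε) * (q * z) * (1 + ε / 8) ≤ (1 - ε / 8) * (q * z) := by
      have : (1 - ε) * (1 + ε / 8) ≤ 1 - ε / 8 := by nlinarith
      nlinarith
    exact le_of_mul_le_mul_right (e8.trans e7) (by linarith)
  · rw [hlx] at hup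
    have e1 : mu (Wn q θ m) * Real.log m ≤ (y - x + 1) / θ := by
      have := mul_le_mul_of_nonneg_right hup (show 0 ≤ Real.log (m : ℝ) by linarith)
      refine this.trans (le_of_eq ?_)
      field_simp
    refine e1.trans ?_
    rw [div_le_iff₀ hθ0]
    have e2 : ((m : ℝ) + q) ^ (θ - 1) ≤ z * (1 + ε / 2) := by
      rw [hfac, Real.mul_rpow hm.le (by positivity), ← hz]
      apply mul_le_mul_of_nonneg_left _ hz0.le
      refine le_trans ?_ h2
      apply Real.rpow_le_rpow_of_exponent_le _ (by linarith)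
      have : 0 ≤ (q : ℝ) / m := by positivity
      linarith
    have e3 : θ * q * ((m : ℝ) + q) ^ (θ - 1) ≤ θ * q * (z * (1 + ε / 2)) :=
      mul_le_mul_of_nonneg_left e2 (by positivity)
    have e4 : 1 ≤ θ * q * z * (ε / 2) := by
      have e41 : 1 ≤ θ * q := by nlinarith
      have e42 : 1 ≤ z * (ε / 2) := by nlinarith
      nlinarith
    nlinarith

end Pool.Agent.Q166.Sq
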