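import Pool.Agent.Q166.SqF

/-!
# Every deviation occurs in every block, uniformly in the exponent
-/

set_option autoImplicit false

namespace Pool.Agent.Q166.Sq

open Finset MeasureTheory Filter Pool.Agent.Q120.ET Pool.Agent.Q120.MF Pool.Agent.Q120.AD Pool.Agent.Q120.NC
  Pool.Agent.Q120.TD
open scoped Topology

variable {Ω : Type*} {A : Ω → Set ℕ} [MeasurableSpace Ω] {μ : Measure Ω} [IsProbabilityMeasure μ]

/-- a stretched exponential beats the powers -/
theorem ev_exp (C D s κ : ℝ) (hs : 0 < s) (hκ : 0 < κ) :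
    ∀ᶠ K : ℕ in atTop, C * (K : ℝ) ^ D * Real.exp (-(κ * (K : ℝ) ^ s)) ≤ 1 := by
  have h1 := ev_pow (D / κ) (s / 2) (by positivity)
  have h2 : ∀ᶠ K : ℕ in atTop, (1 + Real.log (|C| + 1) / κ) ≤ (K : ℝ) ^ (s / 2) :=
    ((tendsto_rpow_atTop (by positivity)).comp tendsto_natCast_atTop_atTop).eventually_ge_atTop _
  filter_upwards [h1, h2, hl.eventually_ge_atTop 1, eventually_ge_atTop 1] with K h1 h2 h3 h4
  have hK : (0 : ℝ) < K := by exact_mod_cast h4
  have hC : 0 < |C| + 1 := by positivity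
  have hlC : 0 ≤ Real.log (|C| + 1) := Real.log_nonneg (by linarith [abs_nonneg C])
  obtain ⟨p, hp⟩ : ∃ p : ℝ, p = (K : ℝ) ^ (s / 2) := ⟨_, rfl⟩
  have hp2 : (K : ℝ) ^ s = p * p := by
    rw [hp, ← Real.rpow_add hK]
    congr 1
    ring
  rw [← hp] at h1 h2
  have hp1 : 1 ≤ p := by
    have : 0 ≤ Real.log (|C| + 1) / κ := by positivity
    linarith
  have e1 : D * Real.log K ≤ κ * p := by
    have e11 : D / κ * Real.log K ≤ p := by
      by_cases hD : 0 ≤ D / κ
      · refine le_trans (mul_le_mul_of_nonneg_left ?_ hD) h1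
        have : 1 ≤ Real.log (K : ℝ) ^ 2 := one_le_pow₀ h3
        nlinarith
      · push Not at hD
        have : D / κ * Real.log K ≤ 0 := mul_nonpos_of_nonpos_of_nonneg hD.le (by linarith)
        linarith
    have e12 := mul_le_mul_of_nonneg_left e11 hκ.le
    have e13 : κ * (D / κ * Real.log K) = D * Real.log K := by field_simp
    linarith
  have e2 : Real.log (|C| + 1) ≤ κ * (p - 1) := by
    have e21 : Real.log (|C| + 1) / κ ≤ p - 1 := by linarith
    rw [div_le_iff₀ hκ] at e21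
    linarith
  have e3 : Real.log (|C| + 1) + D * Real.log K ≤ κ * (K : ℝ) ^ s := by
    rw [hp2]
    have : κ * (p - 1) + κ * p ≤ κ * (p * p) := by
      have : (p - 1) + p ≤ p * p := by nlinarith
      nlinarith
    linarith
  calc C * (K : ℝ) ^ D * Real.exp (-(κ * (K : ℝ) ^ s)) ≤
        (|C| + 1) * (K : ℝ) ^ D * Real.exp (-(κ * (K : ℝ) ^ s)) := by
          apply mul_le_mul_of_nonneg_right _ (Real.exp_pos _).le
          apply mul_le_mul_of_nonneg_right _ (by positivity)
          linarith [le_abs_self C]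
    _ = Real.exp (Real.log (|C| + 1) + D * Real.log K + -(κ * (K : ℝ) ^ s)) := by
          rw [Real.exp_add, Real.exp_add, Real.exp_log hC, Real.rpow_def_of_pos hK, mul_comm D]
    _ ≤ 1 := by
          rw [Real.exp_le_one_iff]
          linarith

/-- the grid of exponents -/
noncomputable def tg (a : ℝ) (B K j : ℕ) : ℝ := a + j / (K : ℝ) ^ B

/-- **Independence**: each window event of sufficiently large probability occurs in every block, for all the
exponents of the grid. -/
theorem lower_grid (hA : IsCramer μ A) {a b : ℝ} (ha : 1 < a) (hab : a ≤ b) (B : ℕ) {q r : ℕ} (hq : 1 ≤ q)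
    {c' L0 : ℝ} (hc0 : 0 ≤ c') (hc : c' < 1) (hL0 : 1 ≤ L0) (G : Finset ℕ → ℝ → Finset ℕ → Prop)
    [∀ W L, DecidablePred (G W L)]
    (hG : ∀ (W : Finset ℕ) (L : ℝ), (∀ n ∈ W, 3 ≤ n) → (∀ n ∈ W, 1 / Real.log (n : ℝ) ≤ 1 / L0) → L0 ≤ L →
      L0 * L ≤ mu W → Real.exp (-(c' * L)) ≤ ∑ T ∈ W.powerset with G W L T, cramerOn W T) :
    ∀ᵐ ω ∂μ, ∀ᶠ i : ℕ in atTop, ∀ j : ℕ, tg a B (2 ^ i) j ≤ b → ∃ m ∈ Sn q r (2 ^ i),
      G (Wn q (tg a B (2 ^ i) j) m) (Real.log m) (tr A (Wn q (tg a B (2 ^ i) j) m) ω) := by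
  classical
  -- the windows are good for the lemma
  have hgood : ∀ᶠ m : ℕ in atTop, ∀ θ : ℝ, a ≤ θ → θ ≤ b → (∀ n ∈ Wn q θ m, 3 ≤ n) ∧
      (∀ n ∈ Wn q θ m, 1 / Real.log (n : ℝ) ≤ 1 / L0) ∧ L0 ≤ Real.log m ∧ L0 * Real.log m ≤ mu (Wn q θ m) := by
    have h1 := mu_asymp (b := b) ha (show (0 : ℝ) < 1 / 2 by norm_num) hq
    have h2 := ev_pow (2 * L0) (a - 1) (by linarith)
    filter_upwards [h1, h2, hl.eventually_ge_atTop L0, eventually_ge_atTop 3] with m h1 h2 h3 h4 θ ha' hb'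
    have hm3 : (3 : ℝ) ≤ m := by exact_mod_cast h4
    have hmx : (m : ℝ) ≤ (m : ℝ) ^ θ := by
      calc (m : ℝ) = (m : ℝ) ^ (1 : ℝ) := (Real.rpow_one _).symm
        _ ≤ _ := Real.rpow_le_rpow_of_exponent_le (by linarith) (by linarith)
    have hn : ∀ n ∈ Wn q θ m, m ≤ n := by
      intro n hn
      unfold Wn at hn
      rw [mem_Ioc, Nat.floor_lt (by positivity)] at hn
      have : (m : ℝ) < n := by linarith
      exact_mod_cast this.le
    refine ⟨fun n h => by have := hn n h; omega, fun n h => ?_, h3, ?_⟩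
    · apply one_div_le_one_div_of_le (by linarith)
      refine h3.trans (Real.log_le_log (by linarith) ?_)
      exact_mod_cast hn n h
    · have e1 := (h1 θ ha' hb').1
      have hL : 1 < Real.log (m : ℝ) := one_lt_log h4
      have e2 : (m : ℝ) ^ (a - 1) ≤ q * (m : ℝ) ^ (θ - 1) := by
        have e21 : (m : ℝ) ^ (a - 1) ≤ (m : ℝ) ^ (θ - 1) :=
          Real.rpow_le_rpow_of_exponent_le (by linarith) (by linarith)
        have e22 : (1 : ℝ) ≤ q := by exact_mod_cast hq
        have e23 : 0 ≤ (m : ℝ) ^ (θ - 1) := by positivity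
        nlinarith
      have e3 : L0 * Real.log m ^ 3 ≤ mu (Wn q θ m) * Real.log m := by linarith
      have e4 : L0 * Real.log m ^ 3 = L0 * Real.log m ^ 2 * Real.log m := by ring
      rw [e4] at e3
      have e5 := le_of_mul_le_mul_right e3 (by linarith)
      have e6 : L0 * Real.log m ≤ L0 * Real.log m ^ 2 := by
        apply mul_le_mul_of_nonneg_left _ (by linarith)
        nlinarith
      linarith
  obtain ⟨m0, hm0⟩ := eventually_atTop.1 hgood
  have hq0 : (0 : ℝ) < q := by exact_mod_cast hq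
  have h2 := tendsto_two_pow.eventually (ev_exp (b - a + 2) (B + 1) (1 - c') (1 / (4 * q)) (by linarith)
    (by positivity))
  have h3 := ae_all_grid (μ := μ) (τ := ℕ) (fun i => (range (⌊(b - a) * ((2 ^ i : ℕ) : ℝ) ^ B⌋₊ + 1)).filter
      fun j => tg a B (2 ^ i) j ≤ b)
    (fun i j => {ω | ∀ m ∈ Sn q r (2 ^ i),
      ¬ G (Wn q (tg a B (2 ^ i) j) m) (Real.log m) (tr A (Wn q (tg a B (2 ^ i) j) m) ω)})
    (fun i => (((2 ^ i : ℕ) : ℝ)) ^ (-(1 : ℝ))) (summable_two_pow (by positivity)) (by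
      filter_upwards [h2, tendsto_two_pow.eventually (eventually_ge_atTop (max m0 (2 * q))),
        tendsto_two_pow.eventually (eventually_ge_atTop 1)] with i h2 h3 h4
      obtain ⟨K, hK⟩ : ∃ K : ℕ, K = 2 ^ i := ⟨_, rfl⟩
      rw [← hK] at h2 h3 h4 ⊢
      have hK0 : (0 : ℝ) < K := by exact_mod_cast h4
      have hKK : (1 : ℝ) ≤ K := by exact_mod_cast h4
      have hKm : m0 ≤ K := (le_max_left _ _).trans h3
      have hKq : 2 * q ≤ K := (le_max_right _ _).trans h3
      have hbound : ∀ j ∈ (range (⌊(b - a) * (K : ℝ) ^ B⌋₊ + 1)).filter fun j => tg a B K j ≤ b,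
          μ.real {ω | ∀ m ∈ Sn q r K,
            ¬ G (Wn q (tg a B K j) m) (Real.log m) (tr A (Wn q (tg a B K j) m) ω)} ≤
          Real.exp (-(1 / (4 * q) * (K : ℝ) ^ (1 - c'))) := by
        intro j hj
        rw [mem_filter] at hj
        have hta : a ≤ tg a B K j := by
          unfold tg
          have : (0 : ℝ) ≤ j / (K : ℝ) ^ B := by positivity
          linarith
        have hmm : ∀ m ∈ Sn q r K, m0 ≤ m ∧ K ≤ m ∧ m ≤ 2 * K := by
          intro m hm
          unfold Sn at hm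
          rw [mem_filter, mem_Ico] at hm
          omega
        have e1 := none_le hA (Sn q r K) (fun m => Wn q (tg a B K j) m)
          (fun m hm => (hm0 m (hmm m hm).1 _ hta hj.2).1)
          (fun m hm m' hm' h => Wn_disjoint (by linarith) hm hm' h)
          (fun m T => G (Wn q (tg a B K j) m) (Real.log m) T) (p := (2 * (K : ℝ)) ^ (-c')) (by
            intro m hm
            obtain ⟨g1, g2, g3, g4⟩ := hm0 m (hmm m hm).1 _ hta hj.2
            refine le_trans ?_ (hG _ _ g1 g2 g3 g4)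
            rw [Real.rpow_def_of_pos (by positivity), Real.exp_le_exp]
            have e11 : Real.log (m : ℝ) ≤ Real.log (2 * K) := by
              have e12 : (m : ℝ) ≤ 2 * K := by exact_mod_cast (hmm m hm).2.2
              have e13 : (K : ℝ) ≤ m := by exact_mod_cast (hmm m hm).2.1
              exact Real.log_le_log (by linarith) e12
            nlinarith)
        refine e1.trans (Real.exp_le_exp.2 (neg_le_neg ?_))
        have e2 := Sn_card (r := r) hq hKq
        have e3 : (K : ℝ) ^ (-c') / 2 ≤ (2 * (K : ℝ)) ^ (-c') := by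
          rw [Real.mul_rpow (by norm_num) hK0.le]
          have e31 : (1 : ℝ) / 2 ≤ 2 ^ (-c') := by
            calc (1 : ℝ) / 2 = 2 ^ (-(1 : ℝ)) := by rw [Real.rpow_neg_one]; norm_num
              _ ≤ _ := Real.rpow_le_rpow_of_exponent_le (by norm_num) (by linarith)
          have e32 : 0 ≤ (K : ℝ) ^ (-c') := by positivity
          nlinarith
        calc 1 / (4 * q) * (K : ℝ) ^ (1 - c') = (K : ℝ) / (2 * q) * ((K : ℝ) ^ (-c') / 2) := by
              rw [sub_eq_add_neg, Real.rpow_add hK0, Real.rpow_one]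
              field_simp
              norm_num
          _ ≤ _ := mul_le_mul e2 e3 (by positivity) (Nat.cast_nonneg _)
      refine (sum_le_sum hbound).trans ?_
      rw [sum_const, nsmul_eq_mul]
      have e1 : (((range (⌊(b - a) * (K : ℝ) ^ B⌋₊ + 1)).filter fun j => tg a B K j ≤ b).card : ℝ) ≤
          (b - a + 2) * (K : ℝ) ^ ((B : ℝ)) := by
        have e11 : (((range (⌊(b - a) * (K : ℝ) ^ B⌋₊ + 1)).filter fun j => tg a B K j ≤ b).card : ℝ) ≤
            ((⌊(b - a) * (K : ℝ) ^ B⌋₊ + 1 : ℕ) : ℝ) := by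
          have := card_filter_le (range (⌊(b - a) * (K : ℝ) ^ B⌋₊ + 1)) (fun j => tg a B K j ≤ b)
          rw [card_range] at this
          exact_mod_cast this
        refine e11.trans ?_
        push_cast
        have e12 : 0 ≤ (b - a) * (K : ℝ) ^ B := mul_nonneg (by linarith) (by positivity)
        have e13 := Nat.floor_le e12
        have e14 : (1 : ℝ) ≤ (K : ℝ) ^ B := one_le_pow₀ hKK
        rw [Real.rpow_natCast]
        nlinarith
      have e2 : (K : ℝ) ^ ((B : ℝ)) = (K : ℝ) ^ ((B : ℝ) + 1) * (K : ℝ) ^ (-(1 : ℝ)) := by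
        rw [← Real.rpow_add hK0]
        congr 1
        ring
      calc _ ≤ (b - a + 2) * (K : ℝ) ^ ((B : ℝ)) * Real.exp (-(1 / (4 * q) * (K : ℝ) ^ (1 - c'))) :=
            mul_le_mul_of_nonneg_right e1 (Real.exp_pos _).le
        _ = ((b - a + 2) * (K : ℝ) ^ ((B : ℝ) + 1) * Real.exp (-(1 / (4 * q) * (K : ℝ) ^ (1 - c')))) *
              (K : ℝ) ^ (-(1 : ℝ)) := by
            rw [e2]
            ring
        _ ≤ 1 * (K : ℝ) ^ (-(1 : ℝ)) := mul_le_mul_of_nonneg_right h2 (by positivity)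
        _ = _ := one_mul _)
  filter_upwards [h3] with ω hω
  filter_upwards [hω, tendsto_two_pow.eventually (eventually_ge_atTop 1)] with i hi hK j hj
  obtain ⟨K, hKe⟩ : ∃ K : ℕ, K = 2 ^ i := ⟨_, rfl⟩
  rw [← hKe] at hi hj hK ⊢
  have hK0 : (0 : ℝ) < K := by exact_mod_cast hK
  have hmem : j ∈ (range (⌊(b - a) * (K : ℝ) ^ B⌋₊ + 1)).filter fun j => tg a B K j ≤ b := by
    rw [mem_filter, mem_range, Nat.lt_succ_iff]
    refine ⟨Nat.le_floor ?_, hj⟩
    unfold tg at hj
    have h5 : (j : ℝ) / (K : ℝ) ^ B ≤ b - a := by linarith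
    rwa [div_le_iff₀ (by positivity)] at h5
  have h5 := hi j hmem
  have h6 : ¬ ∀ m ∈ Sn q r K,
      ¬ G (Wn q (tg a B K j) m) (Real.log m) (tr A (Wn q (tg a B K j) m) ω) := h5
  push Not at h6
  exact h6

end Pool.Agent.Q166.Sq
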