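import Pool.Agent.Q166.SqG

/-!
# The two uniform laws
-/

set_option autoImplicit false

namespace Pool.Agent.Q166.Sq

open Finset MeasureTheory Filter Pool.Agent.Q120.ET Pool.Agent.Q120.MF Pool.Agent.Q120.AD Pool.Agent.Q120.NC
  Pool.Agent.Q120.TD
open scoped Topology

variable {Ω : Type*} {A : Ω → Set ℕ} [MeasurableSpace Ω] {μ : Measure Ω} [IsProbabilityMeasure μ]

theorem tendsto_log_two : Tendsto (Nat.log 2) atTop atTop := by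
  rw [tendsto_atTop]
  intro N
  filter_upwards [eventually_ge_atTop (2 ^ N)] with m hm
  exact Nat.le_log_of_pow_le (by norm_num) hm

/-- **The upper bound**, for all exponents at once. -/
theorem upper_ae (hA : IsCramer μ A) {a b : ℝ} (ha : 1 < a) (hab : a ≤ b) {q : ℕ} (hq : 1 ≤ q) {ε : ℝ}
    (hε : 0 < ε) (hε1 : ε ≤ 1) : ∀ᵐ ω ∂μ, ∀ᶠ m : ℕ in atTop, ∀ θ : ℝ, a ≤ θ → θ ≤ b →
      |dv A ω ⌊(m : ℝ) ^ θ⌋₊ ⌊((m : ℝ) + q) ^ θ⌋₊| ≤ (1 + 9 * ε) * √(2 * q * (m : ℝ) ^ (θ - 1)) := by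
  obtain ⟨δ, hδ⟩ : ∃ δ : ℝ, δ = ε ^ 2 / (36 * (b + 4)) := ⟨_, rfl⟩
  have hb : 1 < b := by linarith
  have hδ0 : 0 < δ := by rw [hδ]; positivity
  have hδ1 : δ ≤ 1 := by
    rw [hδ, div_le_one (by positivity)]
    nlinarith
  have h2 : ∀ᶠ K : ℕ in atTop, (1 + (q : ℝ) / K) ^ b ≤ 1 + ε := by
    have e1 : Tendsto (fun m : ℕ => (1 + (q : ℝ) / m) ^ b) atTop (𝓝 ((1 + 0) ^ b)) := by
      apply Tendsto.rpow_const
      · exact tendsto_const_nhds.add (tendsto_const_div_atTop_nhds_zero_nat (q : ℝ))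
      · left
        norm_num
    rw [add_zero, Real.one_rpow] at e1
    exact e1.eventually_le_const (by linarith)
  have h3 : ∀ᶠ K : ℕ in atTop, 1 / δ ≤ (K : ℝ) ^ (a - 1) :=
    ((tendsto_rpow_atTop (by linarith)).comp tendsto_natCast_atTop_atTop).eventually_ge_atTop _
  filter_upwards [grid_main hA ha (b := b) (by linarith) hδ0 hε hε1 (⌈b * q / δ + 1⌉₊),
    grid_short hA ha (b := b) (by linarith) hδ0 hδ1] with ω h4 h5
  have h6 : ∀ᶠ i : ℕ in atTop, ∀ m : ℕ, 2 ^ i ≤ m → m < 2 ^ (i + 1) → ∀ θ : ℝ, a ≤ θ → θ ≤ b →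
      |dv A ω ⌊(m : ℝ) ^ θ⌋₊ ⌊((m : ℝ) + q) ^ θ⌋₊| ≤ (1 + 9 * ε) * √(2 * q * (m : ℝ) ^ (θ - 1)) := by
    filter_upwards [h4, h5, tendsto_two_pow.eventually h2, tendsto_two_pow.eventually h3,
      tendsto_two_pow.eventually (eventually_ge_atTop q),
      tendsto_two_pow.eventually (hl.eventually_ge_atTop 1)] with i h4 h5 h2 h3 hqK hL m hm1 hm2 θ ha' hb'
    refine det_upper (K := 2 ^ i) ha ha' hb' hε hε1 hδ hq hqK hm1 (by rw [pow_succ] at hm2; omega) hL h2 ?_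
      (Nat.le_ceil _) h4 h5
    rw [div_le_iff₀ hδ0] at h3
    linarith
  filter_upwards [tendsto_log_two.eventually h6, eventually_ge_atTop 1] with m hm hm1 θ ha' hb'
  exact hm m (Nat.pow_log_le_self 2 (by omega)) (Nat.lt_pow_succ_log_self (by norm_num) m) θ ha' hb'

/-- the powers with near exponents -/
theorem near_pow {b : ℝ} (hb : 1 < b) {ε : ℝ} (hε : 0 < ε) : ∀ᶠ K : ℕ in atTop, ∀ θ θ' : ℝ, 0 ≤ θ' → θ' ≤ θ → θ ≤ b →
    θ ≤ θ' + 1 / (K : ℝ) ^ (⌈b⌉₊ + 1) → ∀ x : ℝ, 1 ≤ x → x ≤ 3 * K →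
      x ^ θ ≤ x ^ θ' + 1 ∧ x ^ (θ - θ') ≤ 1 + ε := by
  have h1 := ev_pow (2 * (3 ^ b + 1 / ε + 1) * 2) 1 one_pos
  filter_upwards [h1, hl.eventually_ge_atTop 2, eventually_ge_atTop 3] with K h1 h2 h3 θ θ' h4 h5 h6 h7 x h8 h9
  have hK3 : (3 : ℝ) ≤ K := by exact_mod_cast h3
  have hK : (0 : ℝ) < K := by linarith
  have hx0 : 0 < x := by linarith
  rw [Real.rpow_one] at h1
  have hlx0 : 0 ≤ Real.log x := Real.log_nonneg h8
  have hlx : Real.log x ≤ 2 * Real.log K := by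
    have e1 : Real.log x ≤ Real.log (3 * K) := Real.log_le_log hx0 h9
    have e2 : Real.log (3 * K) ≤ Real.log (K * K) := Real.log_le_log (by linarith) (by nlinarith)
    have e3 : Real.log ((K : ℝ) * K) = 2 * Real.log K := by
      rw [Real.log_mul hK.ne' hK.ne']
      ring
    linarith
  obtain ⟨t, ht⟩ : ∃ t : ℝ, t = (θ - θ') * Real.log x := ⟨_, rfl⟩
  have ht0 : 0 ≤ t := by
    rw [ht]
    exact mul_nonneg (by linarith) hlx0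
  have h3b : (0 : ℝ) < 3 ^ b := by positivity
  have hB : (K : ℝ) ^ (⌈b⌉₊ + 1) = K * (K : ℝ) ^ ⌈b⌉₊ := by rw [pow_succ]; ring
  have hB2 : (K : ℝ) ^ b ≤ (K : ℝ) ^ ⌈b⌉₊ := by
    rw [← Real.rpow_natCast]
    exact Real.rpow_le_rpow_of_exponent_le (by linarith) (Nat.le_ceil b)
  have hB3 : (1 : ℝ) ≤ (K : ℝ) ^ ⌈b⌉₊ := one_le_pow₀ (by linarith)
  have hlog3 : 2 * Real.log K ≤ Real.log (K : ℝ) ^ 3 * 2 := by nlinarith [sq_nonneg (Real.log (K : ℝ))]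
  -- t is small
  have ht1 : t * (2 * (3 ^ b + 1 / ε + 1)) * (K : ℝ) ^ ⌈b⌉₊ ≤ 1 := by
    have e1 : t ≤ 1 / (K : ℝ) ^ (⌈b⌉₊ + 1) * (2 * Real.log K) := by
      rw [ht]
      exact mul_le_mul (by linarith) hlx hlx0 (by positivity)
    have e2 : t * (K : ℝ) ^ ⌈b⌉₊ ≤ 1 / K * (2 * Real.log K) := by
      calc t * (K : ℝ) ^ ⌈b⌉₊ ≤ 1 / (K : ℝ) ^ (⌈b⌉₊ + 1) * (2 * Real.log K) * (K : ℝ) ^ ⌈b⌉₊ :=
            mul_le_mul_of_nonneg_right e1 (by positivity)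
        _ = _ := by
            rw [hB]
            field_simp
    have e3 : 0 < 2 * (3 ^ b + 1 / ε + 1) := by positivity
    calc t * (2 * (3 ^ b + 1 / ε + 1)) * (K : ℝ) ^ ⌈b⌉₊ = (t * (K : ℝ) ^ ⌈b⌉₊) * (2 * (3 ^ b + 1 / ε + 1)) := by ring
      _ ≤ (1 / K * (2 * Real.log K)) * (2 * (3 ^ b + 1 / ε + 1)) := mul_le_mul_of_nonneg_right e2 e3.le
      _ = (2 * (3 ^ b + 1 / ε + 1)) * (2 * Real.log K) / K := by ring
      _ ≤ 1 := by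
          rw [div_le_one hK]
          refine le_trans ?_ h1
          calc (2 * (3 ^ b + 1 / ε + 1)) * (2 * Real.log K) ≤ (2 * (3 ^ b + 1 / ε + 1)) * (Real.log (K : ℝ) ^ 3 * 2) :=
                mul_le_mul_of_nonneg_left hlog3 e3.le
            _ = _ := by ring
  have ht2 : t * (2 * (3 ^ b + 1 / ε + 1)) ≤ 1 := by
    refine le_trans ?_ ht1
    have : 0 ≤ t * (2 * (3 ^ b + 1 / ε + 1)) := by positivity
    nlinarith
  have hε' : 0 < 1 / ε := by positivity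
  have ht3 : t ≤ 1 := by nlinarith
  have ht4 : 2 * t ≤ ε := by
    have : t * (2 * (1 / ε)) ≤ 1 := by
      refine le_trans (mul_le_mul_of_nonneg_left ?_ ht0) ht2
      linarith
    have e1 : t * (2 * (1 / ε)) * ε = 2 * t := by field_simp
    nlinarith
  have hexp : Real.exp t ≤ 1 + 2 * t := by
    have := exp_quad ht0 ht3
    nlinarith
  have hpow : x ^ (θ - θ') = Real.exp t := by
    rw [Real.rpow_def_of_pos hx0, ht, mul_comm]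
  constructor
  · have e1 : x ^ θ = x ^ θ' * x ^ (θ - θ') := by
      rw [← Real.rpow_add hx0]
      congr 1
      ring
    rw [e1, hpow]
    have e2 : x ^ θ' ≤ 3 ^ b * (K : ℝ) ^ ⌈b⌉₊ := by
      calc x ^ θ' ≤ x ^ b := Real.rpow_le_rpow_of_exponent_le h8 (by linarith)
        _ ≤ (3 * (K : ℝ)) ^ b := Real.rpow_le_rpow hx0.le h9 (by linarith)
        _ = 3 ^ b * (K : ℝ) ^ b := Real.mul_rpow (by norm_num) hK.le
        _ ≤ _ := mul_le_mul_of_nonneg_left hB2 h3b.le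
    have e3 : x ^ θ' * (2 * t) ≤ 1 := by
      calc x ^ θ' * (2 * t) ≤ 3 ^ b * (K : ℝ) ^ ⌈b⌉₊ * (2 * t) := mul_le_mul_of_nonneg_right e2 (by linarith)
        _ = t * (2 * 3 ^ b) * (K : ℝ) ^ ⌈b⌉₊ := by ring
        _ ≤ t * (2 * (3 ^ b + 1 / ε + 1)) * (K : ℝ) ^ ⌈b⌉₊ := by
            apply mul_le_mul_of_nonneg_right _ (by positivity)
            apply mul_le_mul_of_nonneg_left _ ht0
            linarith
        _ ≤ 1 := ht1
    have e4 : 0 ≤ x ^ θ' := by positivity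
    nlinarith
  · rw [hpow]
    linarith

/-- the floors of near powers -/
theorem floor_near {x y : ℝ} (h1 : x ≤ y) (h2 : y ≤ x + 1) (h0 : 0 ≤ x) : ⌊x⌋₊ ≤ ⌊y⌋₊ ∧ ⌊y⌋₊ ≤ ⌊x⌋₊ + 1 := by
  refine ⟨Nat.floor_le_floor h1, ?_⟩
  rw [← Nat.floor_add_one h0]
  exact Nat.floor_le_floor h2

omit [MeasurableSpace Ω] in
theorem det_lower {ω : Ω} {ε c s θ θ' : ℝ} {q m : ℕ} (hε : 0 < ε) (hε1 : ε ≤ 1) (hc0 : 0 ≤ c)
    (hc1 : c ≤ 1) (hs : s = 1 ∨ s = -1) (hm : 3 ≤ m) (hθ' : 1 ≤ θ') (h1 : θ' ≤ θ)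
    (hp1 : (m : ℝ) ^ θ ≤ (m : ℝ) ^ θ' + 1) (hp2 : ((m : ℝ) + q) ^ θ ≤ ((m : ℝ) + q) ^ θ' + 1)
    (hp3 : (m : ℝ) ^ (θ - θ') ≤ 1 + ε)
    (hmu1 : (1 - ε) * (q * (m : ℝ) ^ (θ' - 1)) ≤ mu (Wn q θ' m) * Real.log m)
    (hmu2 : mu (Wn q θ' m) * Real.log m ≤ (1 + ε) * (q * (m : ℝ) ^ (θ' - 1)))
    (hS : 2 ≤ ε * √(2 * q * (m : ℝ) ^ (θ - 1))) (hfl : ⌊(m : ℝ) ^ θ⌋₊ ≤ ⌊((m : ℝ) + q) ^ θ'⌋₊)
    (hG1 : c * √(2 * mu (Wn q θ' m) * Real.log m) ≤ s * (((tr A (Wn q θ' m) ω).card : ℝ) - mu (Wn q θ' m)))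
    (hG2 : s * (((tr A (Wn q θ' m) ω).card : ℝ) - mu (Wn q θ' m)) ≤
      (c + 2 * ε) * √(2 * mu (Wn q θ' m) * Real.log m)) :
    |dv A ω ⌊(m : ℝ) ^ θ⌋₊ ⌊((m : ℝ) + q) ^ θ⌋₊ - s * c * √(2 * q * (m : ℝ) ^ (θ - 1))| ≤
      6 * ε * √(2 * q * (m : ℝ) ^ (θ - 1)) := by
  have hm3 : (3 : ℝ) ≤ m := by exact_mod_cast hm
  have hm0 : (0 : ℝ) < m := by linarith
  have hq0 : (0 : ℝ) ≤ q := Nat.cast_nonneg q
  obtain ⟨S, hSd⟩ : ∃ S : ℝ, S = √(2 * q * (m : ℝ) ^ (θ - 1)) := ⟨_, rfl⟩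
  obtain ⟨S', hS'd⟩ : ∃ S' : ℝ, S' = √(2 * q * (m : ℝ) ^ (θ' - 1)) := ⟨_, rfl⟩
  obtain ⟨R, hR⟩ : ∃ R : ℝ, R = √(2 * mu (Wn q θ' m) * Real.log m) := ⟨_, rfl⟩
  have hS0 : 0 ≤ S := by rw [hSd]; positivity
  have hS'0 : 0 ≤ S' := by rw [hS'd]; positivity
  have hR0 : 0 ≤ R := by rw [hR]; positivity
  have hz' : 0 ≤ q * (m : ℝ) ^ (θ' - 1) := by positivity
  have hS'2 : S' ^ 2 = 2 * (q * (m : ℝ) ^ (θ' - 1)) := by
    rw [hS'd, Real.sq_sqrt (by positivity)]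
    ring
  have hμ := mu_nonneg (W := Wn q θ' m)
  have hlm : 0 ≤ Real.log (m : ℝ) := Real.log_natCast_nonneg m
  have hR2 : R ^ 2 = 2 * (mu (Wn q θ' m) * Real.log m) := by
    rw [hR, Real.sq_sqrt (by positivity)]
    ring
  have hRup : R ≤ (1 + ε) * S' := by
    apply le_of_sq_le_sq _ (by positivity)
    rw [mul_pow, hS'2, hR2]
    nlinarith
  have hRlo : (1 - ε) * S' ≤ R := by
    apply le_of_sq_le_sq _ hR0
    rw [mul_pow, hS'2, hR2]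
    have : (1 - ε) ^ 2 ≤ 1 - ε := by nlinarith
    nlinarith
  have hS2 : S ^ 2 = S' ^ 2 * (m : ℝ) ^ (θ - θ') := by
    have e1 : (m : ℝ) ^ (θ - 1) = (m : ℝ) ^ (θ' - 1) * (m : ℝ) ^ (θ - θ') := by
      rw [← Real.rpow_add hm0]
      congr 1
      ring
    rw [hSd, Real.sq_sqrt (by positivity), hS'2, e1]
    ring
  have hpge : 1 ≤ (m : ℝ) ^ (θ - θ') := Real.one_le_rpow (by linarith) (by linarith)
  have hSS' : S' ≤ S := by
    apply le_of_sq_le_sq _ hS0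
    rw [hS2]
    nlinarith [sq_nonneg S']
  have hSS'2 : S ≤ (1 + ε) * S' := by
    apply le_of_sq_le_sq _ (by positivity)
    rw [hS2, mul_pow, mul_comm]
    apply mul_le_mul_of_nonneg_right _ (sq_nonneg S')
    nlinarith
  rw [← hR] at hG1 hG2
  rw [← hSd] at hS ⊢
  -- the two deviations
  obtain ⟨D', hD'⟩ : ∃ D' : ℝ, D' = ((tr A (Wn q θ' m) ω).card : ℝ) - mu (Wn q θ' m) := ⟨_, rfl⟩
  rw [← hD'] at hG1 hG2
  have hfx := floor_near (Real.rpow_le_rpow_of_exponent_le (by linarith : (1 : ℝ) ≤ m) h1) hp1 (by positivity)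
  have hfy := floor_near (Real.rpow_le_rpow_of_exponent_le (by linarith : (1 : ℝ) ≤ (m : ℝ) + q) h1) hp2
    (by positivity)
  have hx2 : 2 ≤ ⌊(m : ℝ) ^ θ'⌋₊ := by
    apply Nat.le_floor
    push_cast
    calc (2 : ℝ) ≤ (m : ℝ) ^ (1 : ℝ) := by rw [Real.rpow_one]; linarith
      _ ≤ _ := Real.rpow_le_rpow_of_exponent_le (by linarith) hθ'
  have hDD : |dv A ω ⌊(m : ℝ) ^ θ⌋₊ ⌊((m : ℝ) + q) ^ θ⌋₊ - D'| ≤ 2 := by
    have e0 : D' = dv A ω ⌊(m : ℝ) ^ θ'⌋₊ ⌊((m : ℝ) + q) ^ θ'⌋₊ := hD'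
    have e1 := dv_near_left (A := A) ω hx2 hfx.1 hfx.2 (hfl.trans hfy.1)
    have e2 := dv_near_right (A := A) ω hx2 hfy.1 hfy.2 (hfx.1.trans hfl)
    rw [e0]
    rw [abs_le] at e1 e2 ⊢
    constructor <;> linarith [e1.1, e1.2, e2.1, e2.2]
  have hc2 : 0 ≤ c * ε := mul_nonneg hc0 hε.le
  have hup : s * D' ≤ c * S + 5 * ε * S := by
    have e1 : s * D' ≤ (c + 2 * ε) * ((1 + ε) * S') :=
      hG2.trans (mul_le_mul_of_nonneg_left hRup (by positivity))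
    have e2 : (c + 2 * ε) * ((1 + ε) * S') ≤ (c + 2 * ε) * ((1 + ε) * S) := by
      apply mul_le_mul_of_nonneg_left _ (by positivity)
      exact mul_le_mul_of_nonneg_left hSS' (by positivity)
    have e3 : (c + 2 * ε) * (1 + ε) ≤ c + 5 * ε := by nlinarith
    have e4 := mul_le_mul_of_nonneg_right e3 hS0
    linarith
  have hlo : c * S - 2 * ε * S ≤ s * D' := by
    have e1 : c * ((1 - ε) * S') ≤ s * D' := (mul_le_mul_of_nonneg_left hRlo hc0).trans hG1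
    have e2 : S - 2 * ε * S' ≤ (1 - ε) * S' := by nlinarith
    have e3 := mul_le_mul_of_nonneg_left e2 hc0
    have e4 : c * (2 * ε * S') ≤ 2 * ε * S := by
      have e41 : c * (2 * ε * S') ≤ 1 * (2 * ε * S') := mul_le_mul_of_nonneg_right hc1 (by positivity)
      have e42 : 2 * ε * S' ≤ 2 * ε * S := mul_le_mul_of_nonneg_left hSS' (by positivity)
      linarith
    linarith
  have h5 : 0 ≤ ε * S := by positivity
  rw [abs_le] at hDD ⊢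
  rcases hs with rfl | rfl
  · constructor <;> linarith [hDD.1, hDD.2]
  · constructor <;> linarith [hDD.1, hDD.2]

end Pool.Agent.Q166.Sq
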