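import Pool.Agent.Q166.SqH

/-!
# The lower law, and the law for the odd squares
-/

set_option autoImplicit false

namespace Pool.Agent.Q166.Sq

open Finset MeasureTheory Filter Pool.Agent.Q120.ET Pool.Agent.Q120.MF Pool.Agent.Q120.AD Pool.Agent.Q120.NC
  Pool.Agent.Q120.TD
open scoped Topology

variable {Ω : Type*} {A : Ω → Set ℕ} [MeasurableSpace Ω] {μ : Measure Ω} [IsProbabilityMeasure μ]

/-- **The lower law**, for all exponents at once. -/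
theorem lower_ae (hA : IsCramer μ A) {a b : ℝ} (ha : 1 < a) (hab : a ≤ b) {q : ℕ} (r : ℕ) (hq : 1 ≤ q)
    {c ε s : ℝ} (hc0 : 0 ≤ c) (hε : 0 < ε) (hcε : c + ε < 1) (hs : s = 1 ∨ s = -1) :
    ∀ᵐ ω ∂μ, ∀ᶠ i : ℕ in atTop, ∀ θ : ℝ, a ≤ θ → θ ≤ b → ∃ m ∈ Sn q r (2 ^ i),
      |dv A ω ⌊(m : ℝ) ^ θ⌋₊ ⌊((m : ℝ) + q) ^ θ⌋₊ - s * c * √(2 * q * (m : ℝ) ^ (θ - 1))| ≤
        6 * ε * √(2 * q * (m : ℝ) ^ (θ - 1)) := by
  classical
  have hb : 1 < b := by linarith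
  have hε1 : ε ≤ 1 := by linarith
  obtain ⟨L0, hL0, hG⟩ : ∃ L0 : ℝ, 1 ≤ L0 ∧ ∀ (W : Finset ℕ) (L : ℝ), (∀ n ∈ W, 3 ≤ n) →
      (∀ n ∈ W, 1 / Real.log (n : ℝ) ≤ 1 / L0) → L0 ≤ L → L0 * L ≤ mu W →
      Real.exp (-((c + ε) ^ 2 * L)) ≤ ∑ T ∈ W.powerset with (c * √(2 * mu W * L) ≤ s * ((T.card : ℝ) - mu W) ∧
        s * ((T.card : ℝ) - mu W) ≤ (c + 2 * ε) * √(2 * mu W * L)), cramerOn W T := by
    rcases hs with rfl | rfl
    · obtain ⟨L0, h1, h2⟩ := window_up hc0 (by linarith : c ≤ 1) hε hε1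
      refine ⟨L0, h1, fun W L g1 g2 g3 g4 => (h2 W L g1 g2 g3 g4).trans (le_of_eq ?_)⟩
      refine sum_congr (filter_congr fun T _ => ?_) fun _ _ => rfl
      constructor
      · rintro ⟨e1, e2⟩
        constructor <;> linarith
      · rintro ⟨e1, e2⟩
        constructor <;> linarith
    · obtain ⟨L0, h1, h2⟩ := window_down hc0 (by linarith : c ≤ 1) hε hε1
      refine ⟨L0, h1, fun W L g1 g2 g3 g4 => (h2 W L g1 g2 g3 g4).trans (le_of_eq ?_)⟩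
      refine sum_congr (filter_congr fun T _ => ?_) fun _ _ => rfl
      constructor
      · rintro ⟨e1, e2⟩
        constructor <;> linarith
      · rintro ⟨e1, e2⟩
        constructor <;> linarith
  have hmain := lower_grid hA ha hab (⌈b⌉₊ + 1) (r := r) hq (c' := (c + ε) ^ 2) (by positivity)
    (by nlinarith) hL0 (fun W L T => c * √(2 * mu W * L) ≤ s * ((T.card : ℝ) - mu W) ∧
        s * ((T.card : ℝ) - mu W) ≤ (c + 2 * ε) * √(2 * mu W * L)) hG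
  have hS : ∀ᶠ m : ℕ in atTop, ∀ θ : ℝ, a ≤ θ → 2 ≤ ε * √(2 * q * (m : ℝ) ^ (θ - 1)) := by
    have h3 : ∀ᶠ K : ℕ in atTop, 4 / ε ^ 2 ≤ (K : ℝ) ^ (a - 1) :=
      ((tendsto_rpow_atTop (by linarith)).comp tendsto_natCast_atTop_atTop).eventually_ge_atTop _
    filter_upwards [h3, eventually_ge_atTop 1] with m h3 h4 θ ha'
    have hm1 : (1 : ℝ) ≤ m := by exact_mod_cast h4
    have hq1 : (1 : ℝ) ≤ q := by exact_mod_cast hq
    have e1 : (m : ℝ) ^ (a - 1) ≤ (m : ℝ) ^ (θ - 1) := Real.rpow_le_rpow_of_exponent_le hm1 (by linarith)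
    have e2 : 2 / ε ≤ √(2 * q * (m : ℝ) ^ (θ - 1)) := by
      apply Real.le_sqrt_of_sq_le
      have e3 : (2 / ε) ^ 2 = 4 / ε ^ 2 := by ring
      rw [e3]
      have e4 : 0 ≤ (m : ℝ) ^ (θ - 1) := by positivity
      nlinarith
    rw [div_le_iff₀ hε] at e2
    linarith
  have hall : ∀ᶠ m : ℕ in atTop, 3 ≤ m ∧ (∀ θ : ℝ, a ≤ θ → 2 ≤ ε * √(2 * q * (m : ℝ) ^ (θ - 1))) ∧
      ∀ θ : ℝ, a ≤ θ → θ ≤ b → (1 - ε) * (q * (m : ℝ) ^ (θ - 1)) ≤ mu (Wn q θ m) * Real.log m ∧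
        mu (Wn q θ m) * Real.log m ≤ (1 + ε) * (q * (m : ℝ) ^ (θ - 1)) := by
    filter_upwards [eventually_ge_atTop 3, hS, mu_asymp (b := b) ha hε hq] with m h1 h2 h3
    exact ⟨h1, h2, h3⟩
  obtain ⟨m0, hm0⟩ := eventually_atTop.1 hall
  filter_upwards [hmain] with ω hω
  filter_upwards [hω, tendsto_two_pow.eventually (near_pow hb hε),
    tendsto_two_pow.eventually (eventually_ge_atTop (max m0 q)),
    tendsto_two_pow.eventually (eventually_ge_atTop 1)] with i hi hnear hK1 hK2 θ ha' hb'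
  obtain ⟨K, hKe⟩ : ∃ K : ℕ, K = 2 ^ i := ⟨_, rfl⟩
  rw [← hKe] at hi hnear hK1 hK2 ⊢
  have hKm0 : m0 ≤ K := (le_max_left _ _).trans hK1
  have hKq : q ≤ K := (le_max_right _ _).trans hK1
  have hK0 : (0 : ℝ) < K := by exact_mod_cast hK2
  have hB0 : (0 : ℝ) < (K : ℝ) ^ (⌈b⌉₊ + 1) := by positivity
  obtain ⟨j, hj⟩ : ∃ j : ℕ, j = ⌊(θ - a) * (K : ℝ) ^ (⌈b⌉₊ + 1)⌋₊ := ⟨_, rfl⟩
  have hj1 : (j : ℝ) / (K : ℝ) ^ (⌈b⌉₊ + 1) ≤ θ - a := by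
    rw [div_le_iff₀ hB0, hj]
    exact Nat.floor_le (mul_nonneg (by linarith) hB0.le)
  have hj2 : θ - a ≤ (j : ℝ) / (K : ℝ) ^ (⌈b⌉₊ + 1) + 1 / (K : ℝ) ^ (⌈b⌉₊ + 1) := by
    rw [← add_div, le_div_iff₀ hB0, hj]
    exact (Nat.lt_floor_add_one _).le
  obtain ⟨θ', hθ'⟩ : ∃ θ' : ℝ, θ' = tg a (⌈b⌉₊ + 1) K j := ⟨_, rfl⟩
  have hθ1 : θ' ≤ θ := by rw [hθ']; unfold tg; linarith
  have hθ2 : θ ≤ θ' + 1 / (K : ℝ) ^ (⌈b⌉₊ + 1) := by rw [hθ']; unfold tg; linarith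
  have hθ3 : a ≤ θ' := by
    rw [hθ']
    unfold tg
    have : (0 : ℝ) ≤ (j : ℝ) / (K : ℝ) ^ (⌈b⌉₊ + 1) := by positivity
    linarith
  obtain ⟨m, hm, hmG⟩ := hi j (by rw [← hθ']; linarith)
  rw [← hθ'] at hmG
  refine ⟨m, hm, ?_⟩
  have hmK : K ≤ m ∧ m < 2 * K := by
    unfold Sn at hm
    rw [mem_filter, mem_Ico] at hm
    exact hm.1
  obtain ⟨g1, g2, g3⟩ := hm0 m (hKm0.trans hmK.1)
  have hm3 : (3 : ℝ) ≤ m := by exact_mod_cast g1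
  have hq1 : (1 : ℝ) ≤ q := by exact_mod_cast hq
  have hmK2 : (m : ℝ) ≤ 2 * K := by exact_mod_cast hmK.2.le
  have hqK : (q : ℝ) ≤ K := by exact_mod_cast hKq
  obtain ⟨n1, n2⟩ := hnear θ θ' (by linarith) hθ1 hb' hθ2 m (by linarith) (by linarith)
  obtain ⟨n3, _⟩ := hnear θ θ' (by linarith) hθ1 hb' hθ2 ((m : ℝ) + q) (by linarith) (by linarith)
  obtain ⟨g4, g5⟩ := g3 θ' hθ3 (by linarith)
  refine det_lower hε hε1 hc0 (by linarith) hs g1 (by linarith) hθ1 n1 n3 n2 g4 g5 (g2 θ ha') ?_ hmG.1 hmG.2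
  apply Nat.floor_le_floor
  refine n1.trans ?_
  have e1 := (rpow_diff (m := (m : ℝ)) (q := (q : ℝ)) (by linarith) (by linarith) (show 1 ≤ θ' by linarith)).1
  have e2 : 1 ≤ θ' * q * (m : ℝ) ^ (θ' - 1) := by
    have e21 : 1 ≤ (m : ℝ) ^ (θ' - 1) := Real.one_le_rpow (by linarith) (by linarith)
    have e22 : 1 ≤ θ' * q := one_le_mul_of_one_le_of_one_le (by linarith) hq1
    exact one_le_mul_of_one_le_of_one_le e22 e21
  linarith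

end Pool.Agent.Q166.Sq
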