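import Pool.Agent.Q166.SqI

/-!
# The normalized deviations and their limit points
-/

set_option autoImplicit false

namespace Pool.Agent.Q166.Sq

open Finset MeasureTheory Filter Pool.Agent.Q120.ET Pool.Agent.Q120.MF Pool.Agent.Q120.AD Pool.Agent.Q120.NC
  Pool.Agent.Q120.TD
open scoped Topology

/-- the number of elements of `A` strictly between `x` and `y` -/
noncomputable def cnt (A : Set ℕ) (x y : ℝ) : ℝ := ((A ∩ {n : ℕ | x < n ∧ (n : ℝ) < y}).ncard : ℝ)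

/-- the sum of `1 / log n` over the integers strictly between `x` and `y` -/
noncomputable def mean (x y : ℝ) : ℝ := ∑ n ∈ (range ⌈y⌉₊).filter (fun n : ℕ => x < n), 1 / Real.log n

/-- the normalized deviation -/
noncomputable def dev (A : Set ℕ) (q : ℕ) (θ : ℝ) (m : ℕ) : ℝ :=
  (cnt A ((m : ℝ) ^ θ) (((m : ℝ) + q) ^ θ) - mean ((m : ℝ) ^ θ) (((m : ℝ) + q) ^ θ)) /
    √(2 * q * (m : ℝ) ^ (θ - 1))

variable {Ω : Type*} {A : Ω → Set ℕ}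

theorem open_eq {ω : Ω} {x y : ℝ} (hx : 0 ≤ x) (hxy : x < y) :
    cnt (A ω) x y - mean x y = dv A ω ⌊x⌋₊ (⌈y⌉₊ - 1) := by
  classical
  have hc : 1 ≤ ⌈y⌉₊ := Nat.one_le_ceil_iff.2 (by linarith)
  have h1 : (range ⌈y⌉₊).filter (fun n : ℕ => x < n) = Ioc ⌊x⌋₊ (⌈y⌉₊ - 1) := by
    ext n
    rw [mem_filter, mem_range, mem_Ioc, Nat.floor_lt hx]
    constructor
    · rintro ⟨e1, e2⟩
      exact ⟨e2, by omega⟩
    · rintro ⟨e1, e2⟩
      exact ⟨by omega, e1⟩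
  have h2 : A ω ∩ {n : ℕ | x < n ∧ (n : ℝ) < y} = ((tr A (Ioc ⌊x⌋₊ (⌈y⌉₊ - 1)) ω : Finset ℕ) : Set ℕ) := by
    ext n
    unfold tr
    rw [Finset.mem_coe, mem_filter, ← h1, mem_filter, mem_range, Nat.lt_ceil, Set.mem_inter_iff,
      Set.mem_ofPred_eq]
    tauto
  unfold cnt mean dv mu
  rw [h1, h2, Set.ncard_coe_finset]

theorem open_near {ω : Ω} {x y : ℝ} (hx : 2 ≤ x) (hxy : x < y) :
    |cnt (A ω) x y - mean x y - dv A ω ⌊x⌋₊ ⌊y⌋₊| ≤ 1 := by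
  rw [open_eq (by linarith) hxy, abs_sub_comm]
  have hc : 1 ≤ ⌈y⌉₊ := Nat.one_le_ceil_iff.2 (by linarith)
  have h1 : ⌈y⌉₊ ≤ ⌊y⌋₊ + 1 := Nat.ceil_le_floor_add_one y
  have h2 : ⌊y⌋₊ ≤ ⌈y⌉₊ := Nat.floor_le_ceil y
  have h3 : ⌊x⌋₊ < ⌈y⌉₊ := by
    rw [Nat.lt_ceil]
    exact (Nat.floor_le (by linarith)).trans_lt hxy
  exact dv_near_right ω (Nat.le_floor (by exact_mod_cast hx)) (by omega) (by omega) (by omega)

theorem dev_near {ω : Ω} {q m : ℕ} {θ t s η : ℝ} (hq : 1 ≤ q) (hm : 2 ≤ m) (hθ : 1 ≤ θ)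
    (hη : 1 ≤ η * √(2 * q * (m : ℝ) ^ (θ - 1)))
    (h : |dv A ω ⌊(m : ℝ) ^ θ⌋₊ ⌊((m : ℝ) + q) ^ θ⌋₊ - s * √(2 * q * (m : ℝ) ^ (θ - 1))| ≤
      t * √(2 * q * (m : ℝ) ^ (θ - 1))) : |dev (A ω) q θ m - s| ≤ t + η := by
  have hm2 : (2 : ℝ) ≤ m := by exact_mod_cast hm
  have hq1 : (1 : ℝ) ≤ q := by exact_mod_cast hq
  have h1 := open_near (A := A) (ω := ω) (x := (m : ℝ) ^ θ) (y := ((m : ℝ) + q) ^ θ) (by
    calc (2 : ℝ) ≤ (m : ℝ) ^ (1 : ℝ) := by rw [Real.rpow_one]; exact hm2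
      _ ≤ _ := Real.rpow_le_rpow_of_exponent_le (by linarith) hθ)
    (Real.rpow_lt_rpow (by positivity) (by linarith) (by linarith))
  obtain ⟨S, hS⟩ : ∃ S : ℝ, S = √(2 * q * (m : ℝ) ^ (θ - 1)) := ⟨_, rfl⟩
  have hS0 : 0 < S := by rw [hS]; positivity
  unfold dev
  rw [← hS] at h hη ⊢
  have h2 : (cnt (A ω) ((m : ℝ) ^ θ) (((m : ℝ) + q) ^ θ) - mean ((m : ℝ) ^ θ) (((m : ℝ) + q) ^ θ)) / S - s =
      (cnt (A ω) ((m : ℝ) ^ θ) (((m : ℝ) + q) ^ θ) - mean ((m : ℝ) ^ θ) (((m : ℝ) + q) ^ θ) - s * S) / S := by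
    field_simp
  rw [h2, abs_div, abs_of_pos hS0, div_le_iff₀ hS0]
  rw [abs_le] at h h1 ⊢
  constructor <;> nlinarith [h.1, h.2, h1.1, h1.2]

variable [MeasurableSpace Ω] {μ : Measure Ω} [IsProbabilityMeasure μ]

theorem ev_S {a η : ℝ} (ha : 1 < a) (hη : 0 < η) {q : ℕ} (hq : 1 ≤ q) :
    ∀ᶠ m : ℕ in atTop, ∀ θ : ℝ, a ≤ θ → 1 ≤ η * √(2 * q * (m : ℝ) ^ (θ - 1)) := by
  have h3 : ∀ᶠ K : ℕ in atTop, 1 / η ^ 2 ≤ (K : ℝ) ^ (a - 1) :=
    ((tendsto_rpow_atTop (by linarith)).comp tendsto_natCast_atTop_atTop).eventually_ge_atTop _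
  filter_upwards [h3, eventually_ge_atTop 1] with m h3 h4 θ ha'
  have hm1 : (1 : ℝ) ≤ m := by exact_mod_cast h4
  have hq1 : (1 : ℝ) ≤ q := by exact_mod_cast hq
  have e1 : (m : ℝ) ^ (a - 1) ≤ (m : ℝ) ^ (θ - 1) := Real.rpow_le_rpow_of_exponent_le hm1 (by linarith)
  have e2 : 1 / η ≤ √(2 * q * (m : ℝ) ^ (θ - 1)) := by
    apply Real.le_sqrt_of_sq_le
    rw [div_pow, one_pow]
    have e4 : 0 ≤ (m : ℝ) ^ (θ - 1) := by positivity
    nlinarith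
  rw [div_le_iff₀ hη] at e2
  linarith

/-- **No deviation is larger**, uniformly in the exponent. -/
theorem dev_upper (hA : IsCramer μ A) : ∀ᵐ ω ∂μ, ∀ a b : ℝ, 1 < a → a ≤ b → ∀ q : ℕ, 1 ≤ q → ∀ ε : ℝ, 0 < ε →
    ∀ᶠ m : ℕ in atTop, ∀ θ : ℝ, a ≤ θ → θ ≤ b → |dev (A ω) q θ m| ≤ 1 + ε := by
  have h1 : ∀ᵐ ω ∂μ, ∀ N q k : ℕ, ∀ᶠ m : ℕ in atTop, ∀ θ : ℝ, 1 + 1 / ((N : ℝ) + 1) ≤ θ → θ ≤ N + 2 →
      |dv A ω ⌊(m : ℝ) ^ θ⌋₊ ⌊((m : ℝ) + (q + 1 : ℕ)) ^ θ⌋₊| ≤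
        (1 + 9 * (1 / ((k : ℝ) + 1))) * √(2 * (q + 1 : ℕ) * (m : ℝ) ^ (θ - 1)) := by
    rw [ae_all_iff]
    intro N
    rw [ae_all_iff]
    intro q
    rw [ae_all_iff]
    intro k
    have hN : (0 : ℝ) ≤ N := Nat.cast_nonneg N
    have hk : (0 : ℝ) ≤ k := Nat.cast_nonneg k
    have e1 : 0 < 1 / ((N : ℝ) + 1) := by positivity
    have e2 : 1 / ((N : ℝ) + 1) ≤ 1 := by
      rw [div_le_one (by positivity)]
      linarith
    have e3 : 1 / ((k : ℝ) + 1) ≤ 1 := by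
      rw [div_le_one (by positivity)]
      linarith
    exact upper_ae hA (by linarith) (by linarith) (by omega) (by positivity) e3
  filter_upwards [h1] with ω hω a b ha hab q hq ε hε
  obtain ⟨N1, hN1⟩ := exists_nat_one_div_lt (show 0 < a - 1 by linarith)
  obtain ⟨N2, hN2⟩ := exists_nat_ge b
  obtain ⟨k, hk⟩ := exists_nat_one_div_lt (show 0 < ε / 18 by linarith)
  obtain ⟨q', rfl⟩ : ∃ q', q = q' + 1 := ⟨q - 1, by omega⟩
  filter_upwards [hω (max N1 N2) q' k, ev_S ha (show 0 < ε / 2 by linarith) hq, eventually_ge_atTop 2]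
    with m h1 h2 h3 θ ha' hb'
  have e1 : 1 + 1 / (((max N1 N2 : ℕ) : ℝ) + 1) ≤ θ := by
    have : 1 / (((max N1 N2 : ℕ) : ℝ) + 1) ≤ 1 / ((N1 : ℝ) + 1) := by
      apply one_div_le_one_div_of_le (by positivity)
      have : (N1 : ℝ) ≤ ((max N1 N2 : ℕ) : ℝ) := by exact_mod_cast le_max_left _ _
      linarith
    linarith
  have e2 : θ ≤ ((max N1 N2 : ℕ) : ℝ) + 2 := by
    have : (N2 : ℝ) ≤ ((max N1 N2 : ℕ) : ℝ) := by exact_mod_cast le_max_right _ _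
    linarith
  have e3 := h1 θ e1 e2
  have e4 := dev_near (A := A) (ω := ω) (s := 0) (t := 1 + 9 * (1 / ((k : ℝ) + 1))) hq h3 (by linarith)
    (h2 θ ha') (by rw [zero_mul, sub_zero]; exact e3)
  rw [sub_zero] at e4
  linarith

/-- **Every deviation occurs in every block**, uniformly in the exponent. -/
theorem dev_lower (hA : IsCramer μ A) : ∀ᵐ ω ∂μ, ∀ a b : ℝ, 1 < a → a ≤ b → ∀ q r : ℕ, 1 ≤ q →
    ∀ c : ℝ, |c| ≤ 1 → ∀ ε : ℝ, 0 < ε → ∀ᶠ i : ℕ in atTop, ∀ θ : ℝ, a ≤ θ → θ ≤ b →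
      ∃ m : ℕ, 2 ^ i ≤ m ∧ m < 2 ^ (i + 1) ∧ m % q = r % q ∧ |dev (A ω) q θ m - c| ≤ ε := by
  have h1 : ∀ᵐ ω ∂μ, ∀ N q r k j : ℕ, j ≤ k → ∀ s : ℝ, (s = 1 ∨ s = -1) → ∀ᶠ i : ℕ in atTop, ∀ θ : ℝ,
      1 + 1 / ((N : ℝ) + 1) ≤ θ → θ ≤ N + 2 → ∃ m ∈ Sn (q + 1) r (2 ^ i),
      |dv A ω ⌊(m : ℝ) ^ θ⌋₊ ⌊((m : ℝ) + (q + 1 : ℕ)) ^ θ⌋₊ -
        s * ((j : ℝ) / (k + 2)) * √(2 * (q + 1 : ℕ) * (m : ℝ) ^ (θ - 1))| ≤
        6 * (1 / ((k : ℝ) + 2)) * √(2 * (q + 1 : ℕ) * (m : ℝ) ^ (θ - 1)) := by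
    rw [ae_all_iff]
    intro N
    rw [ae_all_iff]
    intro q
    rw [ae_all_iff]
    intro r
    rw [ae_all_iff]
    intro k
    rw [ae_all_iff]
    intro j
    by_cases hjk : j ≤ k
    · have hN : (0 : ℝ) ≤ N := Nat.cast_nonneg N
      have hk : (0 : ℝ) ≤ k := Nat.cast_nonneg k
      have e1 : 0 < 1 / ((N : ℝ) + 1) := by positivity
      have e2 : 1 / ((N : ℝ) + 1) ≤ 1 := by
        rw [div_le_one (by positivity)]
        linarith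
      have e3 : (j : ℝ) / (k + 2) + 1 / ((k : ℝ) + 2) < 1 := by
        rw [← add_div, div_lt_one (by positivity)]
        have : (j : ℝ) ≤ k := by exact_mod_cast hjk
        linarith
      filter_upwards [lower_ae hA (a := 1 + 1 / ((N : ℝ) + 1)) (b := N + 2) (by linarith) (by linarith) r
          (show 1 ≤ q + 1 by omega) (c := (j : ℝ) / (k + 2)) (ε := 1 / ((k : ℝ) + 2)) (s := 1) (by positivity)
          (by positivity) e3 (Or.inl rfl),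
        lower_ae hA (a := 1 + 1 / ((N : ℝ) + 1)) (b := N + 2) (by linarith) (by linarith) r
          (show 1 ≤ q + 1 by omega) (c := (j : ℝ) / (k + 2)) (ε := 1 / ((k : ℝ) + 2)) (s := -1) (by positivity)
          (by positivity) e3 (Or.inr rfl)] with ω h1 h2 _ s hs
      rcases hs with rfl | rfl
      · exact h1
      · exact h2
    · exact Eventually.of_forall fun ω h => absurd h hjk
  filter_upwards [h1] with ω hω a b ha hab q r hq c hc ε hε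
  obtain ⟨N1, hN1⟩ := exists_nat_one_div_lt (show 0 < a - 1 by linarith)
  obtain ⟨N2, hN2⟩ := exists_nat_ge b
  obtain ⟨k, hk⟩ := exists_nat_one_div_lt (show 0 < ε / 18 by linarith)
  obtain ⟨q', rfl⟩ : ∃ q', q = q' + 1 := ⟨q - 1, by omega⟩
  have hk0 : (0 : ℝ) ≤ k := Nat.cast_nonneg k
  have hk2 : 1 / ((k : ℝ) + 2) < ε / 18 := by
    refine lt_of_le_of_lt ?_ hk
    exact one_div_le_one_div_of_le (by positivity) (by linarith)
  -- the approximation of c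
  obtain ⟨j, hj⟩ : ∃ j : ℕ, j = min ⌊|c| * (k + 2)⌋₊ k := ⟨_, rfl⟩
  have hjk : j ≤ k := by rw [hj]; exact min_le_right _ _
  obtain ⟨s, hs, hsc⟩ : ∃ s : ℝ, (s = 1 ∨ s = -1) ∧ c = s * |c| := by
    rcases le_total 0 c with h | h
    · exact ⟨1, Or.inl rfl, by rw [abs_of_nonneg h, one_mul]⟩
    · exact ⟨-1, Or.inr rfl, by rw [abs_of_nonpos h]; ring⟩
  have hcj : |s * ((j : ℝ) / (k + 2)) - c| ≤ 2 * (1 / ((k : ℝ) + 2)) := by
    have e1 : |s * ((j : ℝ) / (k + 2)) - c| = |(j : ℝ) / (k + 2) - (|c|)| := by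
      have e11 : s * ((j : ℝ) / (k + 2)) - c = s * ((j : ℝ) / (k + 2) - |c|) := by
        nth_rewrite 1 [hsc]
        ring
      rw [e11, abs_mul]
      rcases hs with rfl | rfl <;> simp
    rw [e1]
    have h5 : |c| * (k + 2) ≤ k + 2 := mul_le_of_le_one_left (by positivity) hc
    have h6 : (j : ℝ) ≤ |c| * (k + 2) := by
      have : (j : ℝ) ≤ ⌊|c| * (k + 2)⌋₊ := by
        rw [hj]
        exact_mod_cast min_le_left _ _
      exact this.trans (Nat.floor_le (by positivity))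
    have h7 : |c| * (k + 2) ≤ j + 2 := by
      rcases le_total ⌊|c| * (k + 2)⌋₊ k with h | h
      · rw [min_eq_left h] at hj
        have := (Nat.lt_floor_add_one (|c| * ((k : ℝ) + 2))).le
        rw [← hj] at this
        linarith
      · rw [min_eq_right h] at hj
        rw [hj]
        linarith
    have h8 : (j : ℝ) / (k + 2) - |c| = (j - |c| * (k + 2)) / (k + 2) := by field_simp
    rw [h8, abs_div, abs_of_pos (show (0 : ℝ) < k + 2 by positivity), div_le_iff₀ (by positivity)]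
    have h9 : 2 * (1 / ((k : ℝ) + 2)) * (k + 2) = 2 := by field_simp
    rw [h9, abs_le]
    constructor <;> linarith
  filter_upwards [hω (max N1 N2) q' r k j hjk s hs,
    tendsto_two_pow.eventually (eventually_ge_atTop (max 2 (Classical.choose (eventually_atTop.1
      (ev_S ha (show 0 < ε / 2 by linarith) hq)))))] with i h1 h2 θ ha' hb'
  have hspec := Classical.choose_spec (eventually_atTop.1 (ev_S ha (show 0 < ε / 2 by linarith) hq))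
  have e1 : 1 + 1 / (((max N1 N2 : ℕ) : ℝ) + 1) ≤ θ := by
    have : 1 / (((max N1 N2 : ℕ) : ℝ) + 1) ≤ 1 / ((N1 : ℝ) + 1) := by
      apply one_div_le_one_div_of_le (by positivity)
      have : (N1 : ℝ) ≤ ((max N1 N2 : ℕ) : ℝ) := by exact_mod_cast le_max_left _ _
      linarith
    linarith
  have e2 : θ ≤ ((max N1 N2 : ℕ) : ℝ) + 2 := by
    have : (N2 : ℝ) ≤ ((max N1 N2 : ℕ) : ℝ) := by exact_mod_cast le_max_right _ _
    linarith
  obtain ⟨m, hm, hdv⟩ := h1 θ e1 e2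
  unfold Sn at hm
  rw [mem_filter, mem_Ico] at hm
  refine ⟨m, hm.1.1, by rw [pow_succ]; omega, hm.2, ?_⟩
  have hm2 : 2 ≤ m := (le_max_left _ _).trans (h2.trans hm.1.1)
  have e4 := dev_near (A := A) (ω := ω) (s := s * ((j : ℝ) / (k + 2))) (t := 6 * (1 / ((k : ℝ) + 2))) hq hm2
    (by linarith) (hspec m ((le_max_right _ _).trans (h2.trans hm.1.1)) θ ha') hdv
  have e5 := abs_sub_le (dev (A ω) (q' + 1) θ m) (s * ((j : ℝ) / (k + 2))) c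
  linarith

end Pool.Agent.Q166.Sq
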