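import Mathlib

/-!
A spine with finite trees attached: tree property, number of copies of the blocks, linear upper
bound for the number of connected vertex sets of size `k`.
-/

set_option autoImplicit false

open scoped Classical

namespace Q166.UnivTree

/-- blocks `H i` on `{i} × ℕ`, joined along the spine `(i, 0)` -/
def T (H : ℕ → SimpleGraph ℕ) : SimpleGraph (ℕ × ℕ) where
  Adj p q := (p.1 = q.1 ∧ (H p.1).Adj p.2 q.2) ∨
    (p.2 = 0 ∧ q.2 = 0 ∧ (q.1 = p.1 + 1 ∨ p.1 = q.1 + 1))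
  symm := ⟨by
    rintro ⟨i, x⟩ ⟨j, y⟩ (⟨h1, h2⟩ | ⟨h1, h2, h3⟩)
    · simp only at h1 h2
      subst h1
      exact Or.inl ⟨rfl, h2.symm⟩
    · exact Or.inr ⟨h2, h1, h3.symm⟩⟩
  loopless := ⟨by
    rintro ⟨i, x⟩ (⟨_, h2⟩ | ⟨_, _, h3⟩)
    · exact h2.ne rfl
    · simp only at h3; omega⟩

theorem T_adj (H : ℕ → SimpleGraph ℕ) (p q : ℕ × ℕ) : (T H).Adj p q ↔
    ((p.1 = q.1 ∧ (H p.1).Adj p.2 q.2) ∨
      (p.2 = 0 ∧ q.2 = 0 ∧ (q.1 = p.1 + 1 ∨ p.1 = q.1 + 1))) := Iff.rfl

def Vn (m : ℕ → ℕ) (N : ℕ) : Set (ℕ × ℕ) := {p | p.1 < N ∧ p.2 ≤ m p.1}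

def TN (m : ℕ → ℕ) (H : ℕ → SimpleGraph ℕ) (N : ℕ) : SimpleGraph (Vn m N) :=
  (T H).induce (Vn m N)

theorem Vn_finite (m : ℕ → ℕ) (N : ℕ) : (Vn m N).Finite := by
  apply Set.Finite.subset (((Finset.range N) ×ˢ
    (Finset.range ((Finset.range N).sup m + 1)) : Finset (ℕ × ℕ)).finite_toSet)
  rintro ⟨i, x⟩ ⟨h1, h2⟩
  simp only [Finset.coe_product, Set.mem_prod, Finset.mem_coe, Finset.mem_range] at h1 h2 ⊢
  refine ⟨h1, ?_⟩
  have : m i ≤ (Finset.range N).sup m := Finset.le_sup (Finset.mem_range.2 h1)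
  omega

theorem reach_proj {V V' : Type} {G : SimpleGraph V} {G' : SimpleGraph V'} (ρ : V → V')
    (h : ∀ a b, G.Adj a b → ρ a = ρ b ∨ G'.Adj (ρ a) (ρ b)) {a b : V} (hab : G.Reachable a b) :
    G'.Reachable (ρ a) (ρ b) := by
  obtain ⟨w⟩ := hab
  induction w with
  | nil => exact SimpleGraph.Reachable.refl _
  | cons hadj _ ih =>
    rcases h _ _ hadj with h1 | h1
    · rw [h1]; exact ih
    · exact h1.reachable.trans ih

section tree

variable {m : ℕ → ℕ} {H : ℕ → SimpleGraph ℕ}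
  (hH : ∀ i, ((H i).induce {x | x ≤ m i}).IsTree)

include hH

theorem TN_connected (N : ℕ) : (TN m H (N + 1)).Connected := by
  have hz : (0, 0) ∈ Vn m (N + 1) := ⟨by omega, by simp⟩
  have hreach : ∀ p : Vn m (N + 1), (TN m H (N + 1)).Reachable p ⟨(0, 0), hz⟩ := by
    -- spine
    have hs : ∀ i (hi : (i, 0) ∈ Vn m (N + 1)),
        (TN m H (N + 1)).Reachable ⟨(i, 0), hi⟩ ⟨(0, 0), hz⟩ := by
      intro i
      induction i with
      | zero => intro _; exact SimpleGraph.Reachable.refl _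
      | succ i ih =>
        intro hi
        have hi' : (i, 0) ∈ Vn m (N + 1) := ⟨by have := hi.1; simp only at this ⊢; omega, by simp⟩
        refine SimpleGraph.Reachable.trans ?_ (ih hi')
        apply SimpleGraph.Adj.reachable
        show (T H).Adj (i + 1, 0) (i, 0)
        exact Or.inr ⟨rfl, rfl, Or.inr rfl⟩
    rintro ⟨⟨i, x⟩, hp⟩
    have hi : (i, 0) ∈ Vn m (N + 1) := ⟨hp.1, by simp⟩
    refine SimpleGraph.Reachable.trans ?_ (hs i hi)
    have h1 := (hH i).1.preconnected ⟨x, hp.2⟩ ⟨0, by simp⟩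
    let f : ((H i).induce {x | x ≤ m i}) →g (TN m H (N + 1)) :=
      ⟨fun y => ⟨(i, y.1), ⟨hp.1, y.2⟩⟩, fun {a b} hab => Or.inl ⟨rfl, hab⟩⟩
    exact h1.map f
  have : Nonempty (Vn m (N + 1)) := ⟨⟨(0, 0), hz⟩⟩
  exact ⟨fun p q => (hreach p).trans (hreach q).symm⟩

theorem TN_acyclic (N : ℕ) : (TN m H N).IsAcyclic := by
  rw [SimpleGraph.isAcyclic_iff_forall_adj_isBridge]
  rintro ⟨⟨i, x⟩, hu⟩ ⟨⟨j, y⟩, hv⟩ hadj
  rw [SimpleGraph.isBridge_iff]
  intro hreach
  have hadj' : (T H).Adj (i, x) (j, y) := hadj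
  rw [T_adj] at hadj'
  rcases hadj' with ⟨h1, h2⟩ | ⟨h1, h2, h3⟩
  · simp only at h1 h2
    subst h1
    have hb := (SimpleGraph.isAcyclic_iff_forall_adj_isBridge.1 (hH i).2)
      (show ((H i).induce {x | x ≤ m i}).Adj ⟨x, hu.2⟩ ⟨y, hv.2⟩ from h2)
    rw [SimpleGraph.isBridge_iff] at hb
    apply hb
    let ρ : Vn m N → {x | x ≤ m i} := fun p =>
      if h : p.1.1 = i then ⟨p.1.2, by have := p.2.2; rw [h] at this; exact this⟩ else ⟨0, by simp⟩
    have key := reach_proj (G' := ((H i).induce {x | x ≤ m i}).deleteEdges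
      {s(⟨x, hu.2⟩, ⟨y, hv.2⟩)}) ρ ?_ hreach
    · simpa [ρ] using key
    · rintro ⟨⟨a, a'⟩, ha⟩ ⟨⟨b, b'⟩, hb'⟩ hab
      rw [SimpleGraph.deleteEdges_adj] at hab
      obtain ⟨hab1, hab2⟩ := hab
      have hab1' : (T H).Adj (a, a') (b, b') := hab1
      rw [T_adj] at hab1'
      rcases hab1' with ⟨h3, h4⟩ | ⟨h3, h4, h5⟩
      · simp only at h3 h4
        subst h3
        by_cases hai : a = i
        · subst hai
          right
          rw [SimpleGraph.deleteEdges_adj]
          refine ⟨?_, ?_⟩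
          · simpa [ρ] using h4
          · intro hc
            apply hab2
            simp only [ρ, dif_pos, Set.mem_singleton_iff, Sym2.eq_iff, Subtype.mk.injEq] at hc ⊢
            rcases hc with ⟨e1, e2⟩ | ⟨e1, e2⟩
            · left; exact ⟨by rw [e1], by rw [e2]⟩
            · right; exact ⟨by rw [e1], by rw [e2]⟩
        · left
          simp [ρ, hai]
      · simp only at h3 h4
        left
        subst h3
        subst h4
        simp only [ρ]
        split_ifs <;> rfl
  · simp only at h1 h2 h3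
    subst h1
    subst h2
    -- crossing argument
    let l := min i j
    let ρ : Vn m N → Prop := fun p => p.1.1 ≤ l
    have key := reach_proj (G' := (⊥ : SimpleGraph Prop)) ρ ?_ hreach
    · rw [SimpleGraph.reachable_bot] at key
      simp only [ρ, l, eq_iff_iff] at key
      omega
    · rintro ⟨⟨a, a'⟩, ha⟩ ⟨⟨b, b'⟩, hb'⟩ hab
      rw [SimpleGraph.deleteEdges_adj] at hab
      obtain ⟨hab1, hab2⟩ := hab
      left
      simp only [ρ, eq_iff_iff]
      have hab1' : (T H).Adj (a, a') (b, b') := hab1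
      rw [T_adj] at hab1'
      rcases hab1' with ⟨h4, h5⟩ | ⟨h4, h5, h6⟩
      · simp only at h4
        rw [h4]
      · simp only at h4 h5 h6
        subst h4
        subst h5
        by_contra hc
        apply hab2
        simp only [Set.mem_singleton_iff, Sym2.eq_iff, Subtype.mk.injEq, Prod.mk.injEq, and_true]
        omega

theorem TN_isTree (N : ℕ) : (TN m H (N + 1)).IsTree := ⟨TN_connected hH N, TN_acyclic hH (N + 1)⟩

end tree

/-! ### counting -/

section count

/-- number of connected vertex sets of size `k` -/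
noncomputable def Z {V : Type} (k : ℕ) (G : SimpleGraph V) : ℕ :=
  Nat.card {U : Finset V // U.card = k ∧ (G.induce (U : Set V)).Connected}

theorem walk_le {V : Type} {G : SimpleGraph V} (f : V → ℕ)
    (hf : ∀ a b, G.Adj a b → f a ≤ f b + 1) {a b : V} (w : G.Walk a b) : f a ≤ f b + w.length := by
  induction w with
  | nil => simp
  | cons h _ ih =>
    have := hf _ _ h
    rw [SimpleGraph.Walk.length_cons]
    omega

theorem conn_le {V : Type} [Fintype V] {G : SimpleGraph V} (hG : G.Connected) (f : V → ℕ)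
    (hf : ∀ a b, G.Adj a b → f a ≤ f b + 1) (a b : V) : f a ≤ f b + Fintype.card V := by
  obtain ⟨p, hp⟩ := (hG.preconnected a b).exists_isPath
  have h1 := walk_le f hf p
  have h2 := hp.length_lt
  omega

variable (m : ℕ → ℕ) (H : ℕ → SimpleGraph ℕ) (v : ℕ → ℕ)

/-- the window around block `i` -/
def W (k i : ℕ) : Finset (ℕ × ℕ) := (Finset.Icc (i - k) (i + k)) ×ˢ (Finset.range (v i + 1))

theorem W_card (k i : ℕ) : (W v k i).card ≤ (2 * k + 1) * (v i + 1) := by
  unfold W
  rw [Finset.card_product, Nat.card_Icc, Finset.card_range]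
  apply Nat.mul_le_mul_right
  omega

theorem Z_le (hm : ∀ i, m i ≤ v i) (k N : ℕ) (hk : 0 < k) :
    Z k (TN m H N) ≤ ∑ i ∈ Finset.range N, ((2 * k + 1) * (v i + 1)) ^ k := by
  have hfin : Fintype (Vn m N) := (Vn_finite m N).fintype
  let F : Finset (Finset (ℕ × ℕ)) :=
    (Finset.range N).biUnion (fun i => (W v k i).powersetCard k)
  have hF : F.card ≤ ∑ i ∈ Finset.range N, ((2 * k + 1) * (v i + 1)) ^ k := by
    refine Finset.card_biUnion_le.trans (Finset.sum_le_sum fun i _ => ?_)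
    rw [Finset.card_powersetCard]
    exact (Nat.choose_le_pow _ _).trans (Nat.pow_le_pow_left (W_card v k i) k)
  refine le_trans ?_ hF
  unfold Z
  have hmem : ∀ U : Finset (Vn m N), U.card = k → ((TN m H N).induce (U : Set (Vn m N))).Connected →
      U.map (Function.Embedding.subtype _) ∈ F := by
    intro U hU hc
    have hne : U.Nonempty := by rw [← Finset.card_pos, hU]; exact hk
    obtain ⟨p, hp, hmax⟩ := U.exists_max_image (fun p => v p.1.1) hne
    simp only [F, Finset.mem_biUnion, Finset.mem_range, Finset.mem_powersetCard]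
    refine ⟨p.1.1, p.2.1, ?_, by rw [Finset.card_map, hU]⟩
    intro q hq
    rw [Finset.mem_map] at hq
    obtain ⟨q, hq, rfl⟩ := hq
    have hadj : ∀ a b : (U : Set (Vn m N)), ((TN m H N).induce (U : Set (Vn m N))).Adj a b →
        a.1.1.1 ≤ b.1.1.1 + 1 := by
      intro a b hab
      have hab' : (T H).Adj a.1.1 b.1.1 := hab
      rw [T_adj] at hab'
      rcases hab' with ⟨h1, _⟩ | ⟨_, _, h1⟩ <;> omega
    have hcard : Fintype.card (U : Set (Vn m N)) = k := by
      rw [← hU]; simp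
    have h1 := conn_le hc (fun a => a.1.1.1) hadj ⟨p, hp⟩ ⟨q, hq⟩
    have h2 := conn_le hc (fun a => a.1.1.1) hadj ⟨q, hq⟩ ⟨p, hp⟩
    rw [hcard] at h1 h2
    simp only at h1 h2
    have h3 := hmax q hq
    have h4 := q.2.2
    have h5 := hm q.1.1
    simp only [W, Finset.mem_product, Finset.mem_Icc, Finset.mem_range,
      Function.Embedding.subtype_apply]
    omega
  have h := Nat.card_le_card_of_injective
    (fun U : {U : Finset (Vn m N) // U.card = k ∧
      ((TN m H N).induce (U : Set (Vn m N))).Connected} =>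
      (⟨U.1.map (Function.Embedding.subtype _), hmem U.1 U.2.1 U.2.2⟩ : F)) (by
        intro U U' h
        rw [Subtype.mk.injEq] at h
        exact Subtype.ext (Finset.map_injective _ h))
  refine h.trans ?_
  rw [Nat.card_eq_fintype_card, Fintype.card_coe]

/-- number of vertex sets inducing a copy of `S` -/
noncomputable def copies {V W : Type} [Fintype W] (S : SimpleGraph W) (G : SimpleGraph V) : ℕ :=
  Nat.card {U : Finset V // U.card = Fintype.card W ∧ (G.induce (U : Set V)).Connected ∧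
    Nonempty (G.induce (U : Set V) ≃g S)}

def blockIso (N i : ℕ) (hi : i < N) :
    ((TN m H N).induce {p | p.1.1 = i}) ≃g ((H i).induce {x | x ≤ m i}) where
  toFun p := ⟨p.1.1.2, by
    have h1 := p.1.2.2
    have h2 : p.1.1.1 = i := p.2
    rw [h2] at h1
    exact h1⟩
  invFun x := ⟨⟨(i, x.1), ⟨hi, x.2⟩⟩, rfl⟩
  left_inv p := by
    have h2 : p.1.1.1 = i := p.2
    apply Subtype.ext
    apply Subtype.ext
    exact Prod.ext h2.symm rfl
  right_inv x := rfl
  map_rel_iff' := by
    rintro ⟨⟨⟨a, a'⟩, ha⟩, ha'⟩ ⟨⟨⟨b, b'⟩, hb⟩, hb'⟩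
    simp only [Set.mem_ofPred_eq] at ha' hb'
    subst ha'
    subst hb'
    show (H _).Adj a' b' ↔ (T H).Adj (_, a') (_, b')
    rw [T_adj]
    constructor
    · intro h; exact Or.inl ⟨rfl, h⟩
    · rintro (⟨_, h⟩ | ⟨_, _, h⟩)
      · exact h
      · simp only at h; omega

theorem copies_ge {W : Type} [Fintype W] [Nonempty W] (S : SimpleGraph W) (hS : S.Connected) (N : ℕ)
    (P : ℕ → Prop) (hP : ∀ i, P i → Nonempty (((H i).induce {x | x ≤ m i}) ≃g S)) :
    ((Finset.range N).filter P).card ≤ copies S (TN m H N) := by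
  have hfin : Fintype (Vn m N) := (Vn_finite m N).fintype
  have hU : ∀ i, i < N → P i → ∃ U : Finset (Vn m N), (∀ p, p ∈ U ↔ p.1.1 = i) ∧
      U.card = Fintype.card W ∧ ((TN m H N).induce (U : Set (Vn m N))).Connected ∧
      Nonempty ((TN m H N).induce (U : Set (Vn m N)) ≃g S) := by
    intro i hi hPi
    obtain ⟨e⟩ := hP i hPi
    let U : Finset (Vn m N) := Finset.univ.filter (fun p => p.1.1 = i)
    have hU1 : (U : Set (Vn m N)) = {p | p.1.1 = i} := by ext p; simp [U]
    have e1 : ((TN m H N).induce (U : Set (Vn m N))) ≃g S := by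
      rw [hU1]
      exact (blockIso m H N i hi).trans e
    refine ⟨U, fun p => by simp [U], ?_, e1.connected_iff.2 hS, ⟨e1⟩⟩
    rw [← Fintype.card_coe]
    exact Fintype.card_congr e1.toEquiv
  choose! U hU1 hU2 using hU
  unfold copies
  have h := Nat.card_le_card_of_injective
    (fun i : ((Finset.range N).filter P) =>
      (⟨U i.1, hU2 i.1 (Finset.mem_range.1 (Finset.mem_filter.1 i.2).1)
        (Finset.mem_filter.1 i.2).2⟩ :
      {U : Finset (Vn m N) // U.card = Fintype.card W ∧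
        ((TN m H N).induce (U : Set (Vn m N))).Connected ∧
        Nonempty ((TN m H N).induce (U : Set (Vn m N)) ≃g S)})) (by
        rintro ⟨i, hi⟩ ⟨j, hj⟩ h
        rw [Subtype.mk.injEq] at h ⊢
        have hi1 := Finset.mem_range.1 (Finset.mem_filter.1 hi).1
        have hj1 := Finset.mem_range.1 (Finset.mem_filter.1 hj).1
        have h1 : (⟨(i, 0), ⟨hi1, by simp⟩⟩ : Vn m N) ∈ U i :=
          (hU1 i hi1 (Finset.mem_filter.1 hi).2 _).2 rfl
        rw [h] at h1
        exact (hU1 j hj1 (Finset.mem_filter.1 hj).2 _).1 h1)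
  rwa [Nat.card_eq_fintype_card, Fintype.card_coe] at h

theorem copies_le_Z {V W : Type} [Finite V] [Fintype W] (S : SimpleGraph W) (G : SimpleGraph V) :
    copies S G ≤ Z (Fintype.card W) G := by
  unfold copies Z
  apply Nat.card_le_card_of_injective
    (fun U : {U : Finset V // U.card = Fintype.card W ∧ (G.induce (U : Set V)).Connected ∧
      Nonempty (G.induce (U : Set V) ≃g S)} =>
      (⟨U.1, U.2.1, U.2.2.1⟩ : {U : Finset V // U.card = Fintype.card W ∧
        (G.induce (U : Set V)).Connected}))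
  intro U U' h
  rw [Subtype.mk.injEq] at h
  exact Subtype.ext h

end count

/-! ### arithmetic -/

section arith

/-- the type of the `i`-th block -/
def val (i : ℕ) : ℕ := padicValNat 2 (i + 1)

theorem val_dvd (i j : ℕ) : 2 ^ j ∣ i + 1 ↔ j ≤ val i := by
  unfold val
  rw [padicValNat_dvd_iff_le (by omega)]

theorem val_le (i : ℕ) : val i ≤ i := by
  have h1 : 2 ^ val i ∣ i + 1 := (val_dvd i _).2 le_rfl
  have h2 := Nat.le_of_dvd (by omega) h1
  have h3 : val i < 2 ^ val i := Nat.lt_two_pow_self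
  omega

theorem sum_val_le (f : ℕ → ℝ) (hf : ∀ j, 0 ≤ f j) (hs : Summable (fun j => f j / 2 ^ j)) (N : ℕ) :
    ∑ i ∈ Finset.range N, f (val i) ≤ (∑' j, f j / 2 ^ j) * N := by
  have h1 : ∀ i ∈ Finset.range N, f (val i) ≤
      ∑ j ∈ Finset.range N, if 2 ^ j ∣ i + 1 then f j else 0 := by
    intro i hi
    rw [Finset.mem_range] at hi
    have h2 : (if 2 ^ (val i) ∣ i + 1 then f (val i) else 0) ≤
        ∑ j ∈ Finset.range N, if 2 ^ j ∣ i + 1 then f j else 0 := by
      apply Finset.single_le_sum (f := fun j => if 2 ^ j ∣ i + 1 then f j else 0)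
      · intro j _
        split_ifs
        · exact hf j
        · exact le_rfl
      · rw [Finset.mem_range]
        exact lt_of_le_of_lt (val_le i) hi
    rwa [if_pos ((val_dvd i _).2 le_rfl)] at h2
  calc ∑ i ∈ Finset.range N, f (val i)
      ≤ ∑ i ∈ Finset.range N, ∑ j ∈ Finset.range N, (if 2 ^ j ∣ i + 1 then f j else 0) :=
        Finset.sum_le_sum h1
    _ = ∑ j ∈ Finset.range N, ∑ i ∈ Finset.range N, (if 2 ^ j ∣ i + 1 then f j else 0) :=
        Finset.sum_comm
    _ = ∑ j ∈ Finset.range N, f j * ((N / 2 ^ j : ℕ) : ℝ) := by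
        apply Finset.sum_congr rfl
        intro j _
        rw [← Finset.sum_filter, Finset.sum_const, Nat.card_multiples, nsmul_eq_mul, mul_comm]
    _ ≤ ∑ j ∈ Finset.range N, f j / 2 ^ j * N := by
        apply Finset.sum_le_sum
        intro j _
        have h3 : ((N / 2 ^ j : ℕ) : ℝ) ≤ (N : ℝ) / 2 ^ j := by
          have := @Nat.cast_div_le ℝ _ _ _ N (2 ^ j)
          push_cast at this
          exact this
        calc f j * ((N / 2 ^ j : ℕ) : ℝ) ≤ f j * ((N : ℝ) / 2 ^ j) :=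
              mul_le_mul_of_nonneg_left h3 (hf j)
          _ = f j / 2 ^ j * N := by ring
    _ = (∑ j ∈ Finset.range N, f j / 2 ^ j) * N := by rw [Finset.sum_mul]
    _ ≤ (∑' j, f j / 2 ^ j) * N := by
        apply mul_le_mul_of_nonneg_right _ (Nat.cast_nonneg N)
        exact hs.sum_le_tsum _ (fun j _ => div_nonneg (hf j) (by positivity))

theorem count_val (N j : ℕ) :
    N / 2 ^ j - N / 2 ^ (j + 1) ≤ ((Finset.range N).filter (fun i => val i = j)).card := by
  have h1 : (Finset.range N).filter (fun i => 2 ^ j ∣ i + 1) ⊆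
      (Finset.range N).filter (fun i => val i = j) ∪
        (Finset.range N).filter (fun i => 2 ^ (j + 1) ∣ i + 1) := by
    intro i hi
    rw [Finset.mem_filter, val_dvd] at hi
    rw [Finset.mem_union, Finset.mem_filter, Finset.mem_filter, val_dvd]
    rcases eq_or_lt_of_le hi.2 with h | h
    · exact Or.inl ⟨hi.1, h.symm⟩
    · exact Or.inr ⟨hi.1, h⟩
  have h2 := (Finset.card_le_card h1).trans (Finset.card_union_le _ _)
  rw [Nat.card_multiples, Nat.card_multiples] at h2
  omega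

theorem count_val_real (N j : ℕ) (hN : 2 ^ (j + 2) ≤ N) :
    (N : ℝ) / 2 ^ (j + 2) ≤ ((Finset.range N).filter (fun i => val i = j)).card := by
  have h1 := count_val N j
  have h2 : N / 2 ^ (j + 1) ≤ N / 2 ^ j := Nat.div_le_div_left (Nat.pow_le_pow_right (by norm_num)
    (by omega)) (by positivity)
  have h3 : (N : ℝ) / 2 ^ j - 1 < ((N / 2 ^ j : ℕ) : ℝ) := by
    have h := Nat.lt_floor_add_one ((N : ℝ) / ((2 ^ j : ℕ) : ℝ))
    rw [Nat.floor_div_natCast, Nat.floor_natCast] at h
    push_cast at h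
    push_cast
    linarith
  have h4 : ((N / 2 ^ (j + 1) : ℕ) : ℝ) ≤ (N : ℝ) / 2 ^ (j + 1) := by
    have := @Nat.cast_div_le ℝ _ _ _ N (2 ^ (j + 1))
    push_cast at this
    exact this
  have h5 : ((N / 2 ^ j : ℕ) : ℝ) - ((N / 2 ^ (j + 1) : ℕ) : ℝ) ≤
      ((Finset.range N).filter (fun i => val i = j)).card := by
    rw [← Nat.cast_sub h2]
    exact_mod_cast h1
  have h6 : (1 : ℝ) ≤ (N : ℝ) / 2 ^ (j + 2) := by
    rw [le_div_iff₀ (by positivity), one_mul]
    exact_mod_cast hN
  have h7 : (N : ℝ) / 2 ^ j = 4 * ((N : ℝ) / 2 ^ (j + 2)) := by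
    rw [pow_add]; field_simp; try norm_num
  have h8 : (N : ℝ) / 2 ^ (j + 1) = 2 * ((N : ℝ) / 2 ^ (j + 2)) := by
    rw [pow_add, pow_add]; field_simp; try norm_num
  rw [h7] at h3
  rw [h8] at h4
  linarith

theorem summable_poly (k : ℕ) :
    Summable (fun j : ℕ => (((2 * k + 1) * (j + 1) : ℕ) : ℝ) ^ k / 2 ^ j) := by
  have h1 := summable_pow_mul_geometric_of_norm_lt_one k (r := (1 / 2 : ℝ)) (by norm_num)
  have h2 := (summable_nat_add_iff 1).2 h1
  have h3 := h2.mul_left (2 * (2 * (k : ℝ) + 1) ^ k)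
  refine h3.congr (fun j => ?_)
  push_cast
  rw [mul_pow, pow_succ (1 / 2 : ℝ) j, one_div, inv_pow]
  field_simp

end arith

end Q166.UnivTree
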