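import Mathlib

/-!
Signed and absolute weighted walk sums: the analytic part.
-/

set_option autoImplicit false

namespace Q166.Walk

open Finset

/-- `n² - j²` at the vertex `j = n - 2 i` -/
noncomputable def y (n i : ℕ) : ℝ := 4 * (i : ℝ) * ((n : ℝ) - i)

structure Sys (m n : ℕ) (z : ℕ → ℂ) (U : ℕ → ℂ) (V : ℕ → ℝ) : Prop where
  recU : ∀ i, m ≤ i → i < n → (y n i : ℂ) * U i = ∑ k ∈ range m, z k * U (i - 1 - k)
  recV : ∀ i, m ≤ i → i < n → y n i * V i = ∑ k ∈ range m, ‖z k‖ * V (i - 1 - k)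
  pos : ∀ i, i < n → 0 < V i
  le : ∀ i, i < n → ‖U i‖ ≤ V i

theorem y_le (n i : ℕ) : y n i ≤ (n : ℝ) ^ 2 := by
  unfold y
  nlinarith [sq_nonneg ((n : ℝ) - 2 * i)]

theorem y_pos {n i : ℕ} (h0 : 0 < i) (h1 : i < n) : 0 < y n i := by
  unfold y
  have : (0 : ℝ) < i := by exact_mod_cast h0
  have : (i : ℝ) < n := by exact_mod_cast h1
  apply mul_pos (by positivity)
  linarith

variable {m n : ℕ} {z : ℕ → ℂ} {U : ℕ → ℂ} {V : ℕ → ℝ}

theorem Sys.prop (h : Sys m n z U V) (hm : 1 ≤ m) {b : ℕ} {ρ : ℝ}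
    (hb : m ≤ b) (H : ∀ i, b - m ≤ i → i < b → i < n → ‖U i‖ ≤ ρ * V i) :
    ∀ i, b - m ≤ i → i < n → ‖U i‖ ≤ ρ * V i := by
  intro i
  induction i using Nat.strong_induction_on with
  | _ i ih =>
    intro hi hin
    by_cases hib : i < b
    · exact H i hi hib hin
    · have hy : 0 < y n i := y_pos (by omega) hin
      have h1 := h.recU i (by omega) hin
      have h2 := h.recV i (by omega) hin
      have h3 : y n i * ‖U i‖ = ‖∑ k ∈ range m, z k * U (i - 1 - k)‖ := by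
        rw [← h1, norm_mul, Complex.norm_real, Real.norm_of_nonneg hy.le]
      have h4 : y n i * ‖U i‖ ≤ y n i * (ρ * V i) := by
        rw [h3]
        calc ‖∑ k ∈ range m, z k * U (i - 1 - k)‖
            ≤ ∑ k ∈ range m, ‖z k * U (i - 1 - k)‖ := norm_sum_le _ _
          _ ≤ ∑ k ∈ range m, ρ * (‖z k‖ * V (i - 1 - k)) := by
              apply Finset.sum_le_sum
              intro k hk
              rw [Finset.mem_range] at hk
              rw [norm_mul]
              have := ih (i - 1 - k) (by omega) (by omega) (by omega)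
              calc ‖z k‖ * ‖U (i - 1 - k)‖ ≤ ‖z k‖ * (ρ * V (i - 1 - k)) :=
                    mul_le_mul_of_nonneg_left this (norm_nonneg _)
                _ = _ := by ring
          _ = y n i * (ρ * V i) := by
              rw [← Finset.mul_sum, ← h2]; ring
      exact le_of_mul_le_mul_left h4 hy

theorem Sys.final (h : Sys m n z U V) (hm : 1 ≤ m) {b : ℕ} {ρ : ℝ}
    (hb : m ≤ b) (hbn : b ≤ n) (H : ∀ i, b - m ≤ i → i < b → i < n → ‖U i‖ ≤ ρ * V i) :
    ‖∑ k ∈ range m, z k * U (n - 1 - k)‖ ≤ ρ * ∑ k ∈ range m, ‖z k‖ * V (n - 1 - k) := by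
  have hp := h.prop hm hb H
  calc ‖∑ k ∈ range m, z k * U (n - 1 - k)‖
      ≤ ∑ k ∈ range m, ‖z k * U (n - 1 - k)‖ := norm_sum_le _ _
    _ ≤ ∑ k ∈ range m, ρ * (‖z k‖ * V (n - 1 - k)) := by
        apply Finset.sum_le_sum
        intro k hk
        rw [Finset.mem_range] at hk
        rw [norm_mul]
        have := hp (n - 1 - k) (by omega) (by omega)
        calc ‖z k‖ * ‖U (n - 1 - k)‖ ≤ ‖z k‖ * (ρ * V (n - 1 - k)) :=
              mul_le_mul_of_nonneg_left this (norm_nonneg _)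
          _ = _ := by ring
    _ = _ := by rw [← Finset.mul_sum]

/-- lower bound for `V` -/
theorem Sys.lower (h : Sys m n z U V) {s : ℝ} (hs : 0 < s)
    (hP : ∑ k ∈ range m, ‖z k‖ * s ^ (k + 1) = (n : ℝ) ^ 2) {a : ℕ} {q : ℝ} (hq : 0 ≤ q)
    (ha : m ≤ a) (hm : 1 ≤ m) (H : ∀ i, a - m ≤ i → i < a → i < n → q ≤ V i * s ^ i) :
    ∀ i, a - m ≤ i → i < n → q ≤ V i * s ^ i := by
  intro i
  induction i using Nat.strong_induction_on with
  | _ i ih =>
    intro hi hin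
    by_cases hib : i < a
    · exact H i hi hib hin
    · have hy : 0 < y n i := y_pos (by omega) hin
      have h2 := h.recV i (by omega) hin
      have h4 : y n i * q ≤ y n i * (V i * s ^ i) := by
        calc y n i * q ≤ (n : ℝ) ^ 2 * q := mul_le_mul_of_nonneg_right (y_le n i) hq
          _ = ∑ k ∈ range m, ‖z k‖ * s ^ (k + 1) * q := by rw [← hP, Finset.sum_mul]
          _ ≤ ∑ k ∈ range m, ‖z k‖ * V (i - 1 - k) * s ^ i := by
              apply Finset.sum_le_sum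
              intro k hk
              rw [Finset.mem_range] at hk
              have h5 := ih (i - 1 - k) (by omega) (by omega) (by omega)
              have h6 : s ^ i = s ^ (k + 1) * s ^ (i - 1 - k) := by
                rw [← pow_add]; congr 1; omega
              calc ‖z k‖ * s ^ (k + 1) * q
                  ≤ ‖z k‖ * s ^ (k + 1) * (V (i - 1 - k) * s ^ (i - 1 - k)) :=
                    mul_le_mul_of_nonneg_left h5 (by positivity)
                _ = ‖z k‖ * V (i - 1 - k) * s ^ i := by rw [h6]; ring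
          _ = y n i * (V i * s ^ i) := by
              rw [← Finset.sum_mul, ← h2]; ring
      exact le_of_mul_le_mul_left h4 hy

/-- ratio bounds in the middle region -/
theorem Sys.ratio_low (h : Sys m n z U V) (hm : 1 ≤ m) {i : ℕ} (hi : m ≤ i) (hin : i < n) :
    ‖z 0‖ * V (i - 1) ≤ (n : ℝ) ^ 2 * V i := by
  have h2 := h.recV i hi hin
  have hV := h.pos i hin
  calc ‖z 0‖ * V (i - 1) ≤ ∑ k ∈ range m, ‖z k‖ * V (i - 1 - k) := by
        have h3 := Finset.single_le_sum (f := fun k => ‖z k‖ * V (i - 1 - k)) (s := range m)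
          (fun k _ => mul_nonneg (norm_nonneg _) (h.pos (i - 1 - k) (by omega)).le)
          (Finset.mem_range.mpr (show 0 < m by omega))
        simpa using h3
    _ = y n i * V i := h2.symm
    _ ≤ (n : ℝ) ^ 2 * V i := mul_le_mul_of_nonneg_right (y_le n i) hV.le

theorem Sys.ratio_up (h : Sys m n z U V) (hm : 1 ≤ m) {i : ℕ} (hi : m ≤ i - 1) (hin : i < n)
    (hz : ∀ k < m, z k ≠ 0) (hn : 1 ≤ n) (hy : (n : ℝ) ^ 2 ≤ 2 * y n i) (hy1 : 1 ≤ y n i) :
    V i ≤ (‖z 0‖ + 2 * ∑ k ∈ range (m - 1), ‖z (k + 1)‖ / ‖z k‖) * V (i - 1) := by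
  have h2 := h.recV i (by omega) hin
  have h1 := h.recV (i - 1) hi (by omega)
  obtain ⟨m', rfl⟩ : ∃ m', m = m' + 1 := ⟨m - 1, by omega⟩
  rw [Finset.sum_range_succ'] at h2
  simp only [Nat.add_sub_cancel]
  have hV := h.pos (i - 1) (by omega)
  have hyi : 0 < y n i := by linarith
  have key : ∀ k ∈ range m', ‖z (k + 1)‖ * V (i - 1 - (k + 1)) ≤
      (n : ℝ) ^ 2 * (‖z (k + 1)‖ / ‖z k‖) * V (i - 1) := by
    intro k hk
    rw [Finset.mem_range] at hk
    have hzk : 0 < ‖z k‖ := norm_pos_iff.mpr (hz k (by omega))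
    have h3 := Finset.single_le_sum (f := fun k => ‖z k‖ * V (i - 1 - 1 - k)) (s := range (m' + 1))
      (fun k _ => mul_nonneg (norm_nonneg _) (h.pos (i - 1 - 1 - k) (by omega)).le)
      (Finset.mem_range.mpr (show k < m' + 1 by omega))
    rw [← h1] at h3
    have h4 : ‖z k‖ * V (i - 1 - 1 - k) ≤ (n : ℝ) ^ 2 * V (i - 1) :=
      le_trans h3 (mul_le_mul_of_nonneg_right (y_le n (i - 1)) hV.le)
    have e : i - 1 - (k + 1) = i - 1 - 1 - k := by omega
    rw [e]
    have h5 : V (i - 1 - 1 - k) ≤ (n : ℝ) ^ 2 * V (i - 1) / ‖z k‖ := by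
      rw [le_div_iff₀ hzk]; linarith
    calc ‖z (k + 1)‖ * V (i - 1 - 1 - k) ≤ ‖z (k + 1)‖ * ((n : ℝ) ^ 2 * V (i - 1) / ‖z k‖) :=
          mul_le_mul_of_nonneg_left h5 (norm_nonneg _)
      _ = _ := by ring
  have h6 : y n i * V i ≤ y n i * ((‖z 0‖ + 2 * ∑ k ∈ range m', ‖z (k + 1)‖ / ‖z k‖) *
      V (i - 1)) := by
    rw [h2]
    have h7 : ∑ k ∈ range m', ‖z (k + 1)‖ * V (i - 1 - (k + 1)) ≤
        (n : ℝ) ^ 2 * (∑ k ∈ range m', ‖z (k + 1)‖ / ‖z k‖) * V (i - 1) := by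
      refine le_trans (Finset.sum_le_sum key) ?_
      rw [← Finset.sum_mul, ← Finset.mul_sum]
    have h8 : 0 ≤ ∑ k ∈ range m', ‖z (k + 1)‖ / ‖z k‖ :=
      Finset.sum_nonneg (fun k _ => by positivity)
    have h9 : (n : ℝ) ^ 2 * (∑ k ∈ range m', ‖z (k + 1)‖ / ‖z k‖) * V (i - 1) ≤
        2 * y n i * (∑ k ∈ range m', ‖z (k + 1)‖ / ‖z k‖) * V (i - 1) := by
      apply mul_le_mul_of_nonneg_right _ hV.le
      exact mul_le_mul_of_nonneg_right hy h8
    have h10 : ‖z 0‖ * V (i - 1 - 0) ≤ y n i * (‖z 0‖ * V (i - 1)) := by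
      rw [Nat.sub_zero]
      have : 0 ≤ ‖z 0‖ * V (i - 1) := by positivity
      nlinarith
    nlinarith
  exact le_of_mul_le_mul_left h6 hyi

/-- three special terms -/
theorem special (α β : ℂ) (δ c1 c2 c3 N : ℝ) (hδ : δ = ‖α‖ + ‖β‖ - ‖α + β‖)
    (h1 : N ≤ c1) (h2 : N ≤ c2) (h3 : N ≤ c3) (hc : c2 ≤ 2 * N) (hN : 0 ≤ N) :
    ‖α * c1 + β * c2 + α * c3‖ ≤ ‖α‖ * c1 + ‖β‖ * c2 + ‖α‖ * c3 - δ * N := by
  have e : α * c1 + β * c2 + α * c3 = ((c1 + c3 - c2 : ℝ) : ℂ) * α + (c2 : ℂ) * (α + β) := by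
    push_cast; ring
  have hx : 0 ≤ c1 + c3 - c2 := by linarith
  have hc2 : 0 ≤ c2 := by linarith
  have hδ0 : 0 ≤ δ := by
    rw [hδ]; linarith [norm_add_le α β]
  rw [e]
  calc ‖((c1 + c3 - c2 : ℝ) : ℂ) * α + (c2 : ℂ) * (α + β)‖
      ≤ ‖((c1 + c3 - c2 : ℝ) : ℂ) * α‖ + ‖(c2 : ℂ) * (α + β)‖ := norm_add_le _ _
    _ = (c1 + c3 - c2) * ‖α‖ + c2 * ‖α + β‖ := by
        rw [norm_mul, norm_mul, Complex.norm_real, Complex.norm_real, Real.norm_of_nonneg hx,
          Real.norm_of_nonneg hc2]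
    _ = ‖α‖ * c1 + ‖β‖ * c2 + ‖α‖ * c3 - δ * c2 := by rw [hδ]; ring
    _ ≤ ‖α‖ * c1 + ‖β‖ * c2 + ‖α‖ * c3 - δ * N := by
        have := mul_le_mul_of_nonneg_left h2 hδ0
        linarith

theorem Sys.upper (h : Sys m n z U V) (hm : 3 ≤ m) {s τ ε η δ : ℝ} (hs : 0 < s) (hτ : 1 ≤ τ)
    (hP : ∑ k ∈ range m, ‖z k‖ * s ^ (k + 1) = (n : ℝ) ^ 2)
    (hδ : δ = ‖z (m - 1) * z (m - 3)‖ + ‖z (m - 2) * z (m - 2)‖ -
      ‖z (m - 1) * z (m - 3) + z (m - 2) * z (m - 2)‖)
    (hε0 : 0 ≤ ε) (hε : ε ≤ 1 / 2) (hτη : τ ^ (2 * m) ≤ 1 + η)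
    (hγ : (η + 2 * ε) * (n : ℝ) ^ 4 ≤ δ * (1 - ε) * s ^ (2 * m - 2))
    {a b : ℕ} (ha : 2 * m ≤ a) (hn : 1 ≤ n)
    (hreg : ∀ i, a - m ≤ i → i < b → (1 - ε) * (n : ℝ) ^ 2 ≤ y n i) (hbn : b ≤ n) {Q : ℝ}
    (hQ : 0 ≤ Q)
    (H : ∀ i, a - 2 * m ≤ i → i < a → i < b → ‖U i‖ * (s * τ) ^ i ≤ Q) :
    ∀ i, a - 2 * m ≤ i → i < b → ‖U i‖ * (s * τ) ^ i ≤ Q := by
  have hnR : (0 : ℝ) < n := by exact_mod_cast hn
  have hn2 : (0 : ℝ) < (n : ℝ) ^ 2 := by positivity
  have hsτ : 0 < s * τ := by positivity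
  have hε1 : 0 < 1 - ε := by linarith
  have hδ0 : 0 ≤ δ := by
    rw [hδ]; linarith [norm_add_le (z (m - 1) * z (m - 3)) (z (m - 2) * z (m - 2))]
  intro i
  induction i using Nat.strong_induction_on with
  | _ i ih =>
    intro hi hib
    by_cases hia : i < a
    · exact H i hi hia hib
    have hin : i < n := by omega
    have hy : 0 < y n i := y_pos (by omega) hin
    have h1 := h.recU i (by omega) hin
    set B : ℝ := Q / (s * τ) ^ i with hB
    have hB0 : 0 ≤ B := by positivity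
    have hu : ∀ j, a - 2 * m ≤ j → j < i → ‖U j‖ ≤ B * (s * τ) ^ (i - j) := by
      intro j h1 h2
      have h3 := ih j h2 h1 (by omega)
      have h4 : (s * τ) ^ i = (s * τ) ^ j * (s * τ) ^ (i - j) := by
        rw [← pow_add]; congr 1; omega
      rw [hB, h4, div_mul_eq_mul_div, le_div_iff₀ (by positivity)]
      nlinarith [pow_pos hsτ (i - j)]
    -- the double expansion
    set F : ℕ × ℕ → ℂ := fun p => z p.1 * z p.2 * ((1 / y n (i - 1 - p.1) : ℝ) : ℂ) *
      U (i - 2 - p.1 - p.2) with hF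
    have hsum : (y n i : ℂ) * U i = ∑ p ∈ range m ×ˢ range m, F p := by
      rw [h1, Finset.sum_product]
      apply Finset.sum_congr rfl
      intro k hk
      rw [Finset.mem_range] at hk
      have hyk : 0 < y n (i - 1 - k) := y_pos (by omega) (by omega)
      have h2 := h.recU (i - 1 - k) (by omega) (by omega)
      have h3 : U (i - 1 - k) = ((1 / y n (i - 1 - k) : ℝ) : ℂ) *
          ∑ l ∈ range m, z l * U (i - 1 - k - 1 - l) := by
        rw [← h2, ← mul_assoc, ← Complex.ofReal_mul, one_div_mul_cancel hyk.ne',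
          Complex.ofReal_one, one_mul]
      rw [h3, Finset.mul_sum, Finset.mul_sum]
      apply Finset.sum_congr rfl
      intro l _
      have e : i - 1 - k - 1 - l = i - 2 - k - l := by omega
      rw [e]
      ring
    set G : ℕ × ℕ → ℝ := fun p => ‖z p.1‖ * ‖z p.2‖ * (1 / y n (i - 1 - p.1)) *
      (B * (s * τ) ^ (p.1 + p.2 + 2)) with hG
    have hFG : ∀ p ∈ range m ×ˢ range m, ‖F p‖ ≤ G p := by
      rintro ⟨k, l⟩ hp
      rw [Finset.mem_product, Finset.mem_range, Finset.mem_range] at hp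
      obtain ⟨hk, hl⟩ := hp
      simp only at hk hl
      have hyk : 0 < y n (i - 1 - k) := y_pos (by omega) (by omega)
      simp only [hF, hG]
      rw [norm_mul, norm_mul, norm_mul, Complex.norm_real,
        Real.norm_of_nonneg (show 0 ≤ 1 / y n (i - 1 - k) by positivity)]
      apply mul_le_mul_of_nonneg_left _ (by positivity)
      have h3 := hu (i - 2 - k - l) (by omega) (by omega)
      have e : i - (i - 2 - k - l) = k + l + 2 := by omega
      rw [e] at h3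
      exact h3
    set Sp : Finset (ℕ × ℕ) := {(m - 1, m - 3), (m - 2, m - 2), (m - 3, m - 1)} with hSp
    have hSpsub : Sp ⊆ range m ×ˢ range m := by
      intro p hp
      rw [hSp] at hp
      simp only [Finset.mem_insert, Finset.mem_singleton] at hp
      rw [Finset.mem_product, Finset.mem_range, Finset.mem_range]
      rcases hp with rfl | rfl | rfl <;> constructor <;> simp only <;> omega
    have hSpsum : ∀ {M : Type} [AddCommMonoid M] (f : ℕ × ℕ → M), ∑ p ∈ Sp, f p =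
        f (m - 1, m - 3) + (f (m - 2, m - 2) + f (m - 3, m - 1)) := by
      intro M _ f
      rw [hSp, Finset.sum_insert, Finset.sum_insert, Finset.sum_singleton]
      · simp only [Finset.mem_singleton, Prod.mk.injEq]; omega
      · simp only [Finset.mem_insert, Finset.mem_singleton, Prod.mk.injEq]; omega
    set c : ℕ → ℝ := fun k => 1 / y n (i - 1 - k) with hc
    have hcN : ∀ k, k < m → 1 / (n : ℝ) ^ 2 ≤ c k := by
      intro k hk
      have hyk : 0 < y n (i - 1 - k) := y_pos (by omega) (by omega)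
      exact one_div_le_one_div_of_le hyk (y_le n _)
    have hc1 : ∀ k, k < m → c k ≤ 1 / ((1 - ε) * (n : ℝ) ^ 2) := by
      intro k hk
      exact one_div_le_one_div_of_le (by positivity) (hreg _ (by omega) (by omega))
    have hc2 : ∀ k, k < m → c k ≤ 2 * (1 / (n : ℝ) ^ 2) := by
      intro k hk
      refine le_trans (hc1 k hk) ?_
      rw [← mul_one_div, mul_one_div, div_le_iff₀ (by positivity)]
      have : 2 / (n : ℝ) ^ 2 * ((1 - ε) * (n : ℝ) ^ 2) = 2 * (1 - ε) := by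
        field_simp
      rw [show 2 * (1 / (n : ℝ) ^ 2) = 2 / (n : ℝ) ^ 2 by ring, this]
      linarith
    have hSpF : ‖∑ p ∈ Sp, F p‖ ≤ ∑ p ∈ Sp, G p - δ * (1 / (n : ℝ) ^ 2) *
        (B * (s * τ) ^ (2 * m - 2)) := by
      rw [hSpsum, hSpsum]
      simp only [hF, hG]
      have e1 : i - 2 - (m - 1) - (m - 3) = i - 2 * m + 2 := by omega
      have e2 : i - 2 - (m - 2) - (m - 2) = i - 2 * m + 2 := by omega
      have e3 : i - 2 - (m - 3) - (m - 1) = i - 2 * m + 2 := by omega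
      have e4 : m - 1 + (m - 3) + 2 = 2 * m - 2 := by omega
      have e5 : m - 2 + (m - 2) + 2 = 2 * m - 2 := by omega
      have e6 : m - 3 + (m - 1) + 2 = 2 * m - 2 := by omega
      rw [e1, e2, e3, e4, e5, e6]
      have hsp := special (z (m - 1) * z (m - 3)) (z (m - 2) * z (m - 2)) δ (c (m - 1)) (c (m - 2))
        (c (m - 3)) (1 / (n : ℝ) ^ 2) hδ (hcN _ (by omega)) (hcN _ (by omega)) (hcN _ (by omega))
        (hc2 _ (by omega)) (by positivity)
      have hU := hu (i - 2 * m + 2) (by omega) (by omega)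
      have e7 : i - (i - 2 * m + 2) = 2 * m - 2 := by omega
      rw [e7] at hU
      have e8 : z (m - 1) * z (m - 3) * ((1 / y n (i - 1 - (m - 1)) : ℝ) : ℂ) *
          U (i - 2 * m + 2) + (z (m - 2) * z (m - 2) * ((1 / y n (i - 1 - (m - 2)) : ℝ) : ℂ) *
          U (i - 2 * m + 2) + z (m - 3) * z (m - 1) * ((1 / y n (i - 1 - (m - 3)) : ℝ) : ℂ) *
          U (i - 2 * m + 2)) = (z (m - 1) * z (m - 3) * (c (m - 1) : ℂ) +
          z (m - 2) * z (m - 2) * (c (m - 2) : ℂ) + z (m - 1) * z (m - 3) * (c (m - 3) : ℂ)) *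
          U (i - 2 * m + 2) := by
        simp only [hc]; ring
      rw [e8, norm_mul]
      have hpos : 0 ≤ ‖z (m - 1) * z (m - 3)‖ * c (m - 1) + ‖z (m - 2) * z (m - 2)‖ * c (m - 2) +
          ‖z (m - 1) * z (m - 3)‖ * c (m - 3) - δ * (1 / (n : ℝ) ^ 2) :=
        le_trans (norm_nonneg _) hsp
      calc _ ≤ (‖z (m - 1) * z (m - 3)‖ * c (m - 1) + ‖z (m - 2) * z (m - 2)‖ * c (m - 2) +
          ‖z (m - 1) * z (m - 3)‖ * c (m - 3) - δ * (1 / (n : ℝ) ^ 2)) *
            (B * (s * τ) ^ (2 * m - 2)) :=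
            mul_le_mul hsp hU (norm_nonneg _) hpos
        _ = _ := by
            simp only [hc]
            rw [norm_mul, norm_mul]
            ring
    have htot : y n i * ‖U i‖ ≤ ∑ p ∈ range m ×ˢ range m, G p - δ * (1 / (n : ℝ) ^ 2) *
        (B * (s * τ) ^ (2 * m - 2)) := by
      have h3 : y n i * ‖U i‖ = ‖∑ p ∈ range m ×ˢ range m, F p‖ := by
        rw [← hsum, norm_mul, Complex.norm_real, Real.norm_of_nonneg hy.le]
      rw [h3, ← Finset.sum_sdiff hSpsub, ← Finset.sum_sdiff (f := G) hSpsub]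
      calc ‖∑ p ∈ (range m ×ˢ range m) \ Sp, F p + ∑ p ∈ Sp, F p‖
          ≤ ‖∑ p ∈ (range m ×ˢ range m) \ Sp, F p‖ + ‖∑ p ∈ Sp, F p‖ := norm_add_le _ _
        _ ≤ ∑ p ∈ (range m ×ˢ range m) \ Sp, ‖F p‖ + ‖∑ p ∈ Sp, F p‖ := by
            have := norm_sum_le ((range m ×ˢ range m) \ Sp) F
            linarith
        _ ≤ ∑ p ∈ (range m ×ˢ range m) \ Sp, G p + (∑ p ∈ Sp, G p - δ * (1 / (n : ℝ) ^ 2) *
            (B * (s * τ) ^ (2 * m - 2))) := by
            apply add_le_add _ hSpF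
            apply Finset.sum_le_sum
            intro p hp
            exact hFG p (Finset.mem_sdiff.mp hp).1
        _ = _ := by ring
    have hGsum : ∑ p ∈ range m ×ˢ range m, G p ≤
        1 / ((1 - ε) * (n : ℝ) ^ 2) * B * (τ ^ (2 * m) * (n : ℝ) ^ 4) := by
      have hPτ : ∑ k ∈ range m, ‖z k‖ * (s * τ) ^ (k + 1) ≤ τ ^ m * (n : ℝ) ^ 2 := by
        rw [← hP, Finset.mul_sum]
        apply Finset.sum_le_sum
        intro k hk
        rw [Finset.mem_range] at hk
        rw [mul_pow]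
        have : τ ^ (k + 1) ≤ τ ^ m := pow_le_pow_right₀ hτ (by omega)
        calc ‖z k‖ * (s ^ (k + 1) * τ ^ (k + 1)) ≤ ‖z k‖ * (s ^ (k + 1) * τ ^ m) := by
              apply mul_le_mul_of_nonneg_left _ (norm_nonneg _)
              exact mul_le_mul_of_nonneg_left this (by positivity)
          _ = _ := by ring
      have hP0 : 0 ≤ ∑ k ∈ range m, ‖z k‖ * (s * τ) ^ (k + 1) :=
        Finset.sum_nonneg (fun k _ => by positivity)
      calc ∑ p ∈ range m ×ˢ range m, G p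
          ≤ ∑ p ∈ range m ×ˢ range m, 1 / ((1 - ε) * (n : ℝ) ^ 2) * B *
            ((‖z p.1‖ * (s * τ) ^ (p.1 + 1)) * (‖z p.2‖ * (s * τ) ^ (p.2 + 1))) := by
            apply Finset.sum_le_sum
            rintro ⟨k, l⟩ hp
            rw [Finset.mem_product, Finset.mem_range, Finset.mem_range] at hp
            have h5 := hc1 k hp.1
            simp only [hG]
            simp only [hc] at h5
            calc ‖z k‖ * ‖z l‖ * (1 / y n (i - 1 - k)) * (B * (s * τ) ^ (k + l + 2))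
                ≤ ‖z k‖ * ‖z l‖ * (1 / ((1 - ε) * (n : ℝ) ^ 2)) * (B * (s * τ) ^ (k + l + 2)) := by
                  apply mul_le_mul_of_nonneg_right _ (by positivity)
                  exact mul_le_mul_of_nonneg_left h5 (by positivity)
              _ = _ := by ring
        _ = 1 / ((1 - ε) * (n : ℝ) ^ 2) * B * ((∑ k ∈ range m, ‖z k‖ * (s * τ) ^ (k + 1)) *
            (∑ k ∈ range m, ‖z k‖ * (s * τ) ^ (k + 1))) := by
            rw [← Finset.mul_sum, Finset.sum_mul_sum, Finset.sum_product]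
        _ ≤ 1 / ((1 - ε) * (n : ℝ) ^ 2) * B * ((τ ^ m * (n : ℝ) ^ 2) * (τ ^ m * (n : ℝ) ^ 2)) := by
            apply mul_le_mul_of_nonneg_left _ (by positivity)
            exact mul_le_mul hPτ hPτ hP0 (by positivity)
        _ = _ := by
            have : τ ^ (2 * m) = τ ^ m * τ ^ m := by rw [two_mul, pow_add]
            rw [this]; ring
    have hfin : y n i * ‖U i‖ ≤ y n i * B := by
      have h5 : δ * (1 / (n : ℝ) ^ 2) * (B * s ^ (2 * m - 2)) ≤
          δ * (1 / (n : ℝ) ^ 2) * (B * (s * τ) ^ (2 * m - 2)) := by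
        apply mul_le_mul_of_nonneg_left _ (by positivity)
        apply mul_le_mul_of_nonneg_left _ hB0
        apply pow_le_pow_left₀ hs.le
        nlinarith
      have h6 : 1 / ((1 - ε) * (n : ℝ) ^ 2) * B * (τ ^ (2 * m) * (n : ℝ) ^ 4) ≤
          1 / ((1 - ε) * (n : ℝ) ^ 2) * B * ((1 + η) * (n : ℝ) ^ 4) := by
        apply mul_le_mul_of_nonneg_left _ (by positivity)
        exact mul_le_mul_of_nonneg_right hτη (by positivity)
      have h7 : 1 / ((1 - ε) * (n : ℝ) ^ 2) * B * ((1 + η) * (n : ℝ) ^ 4) -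
          δ * (1 / (n : ℝ) ^ 2) * (B * s ^ (2 * m - 2)) =
          B / ((1 - ε) * (n : ℝ) ^ 2) * ((1 + η) * (n : ℝ) ^ 4 -
            δ * (1 - ε) * s ^ (2 * m - 2)) := by
        field_simp
      have h8 : B / ((1 - ε) * (n : ℝ) ^ 2) * ((1 + η) * (n : ℝ) ^ 4 -
            δ * (1 - ε) * s ^ (2 * m - 2)) ≤
          B / ((1 - ε) * (n : ℝ) ^ 2) * ((1 - ε) ^ 2 * (n : ℝ) ^ 4) := by
        apply mul_le_mul_of_nonneg_left _ (by positivity)
        have h9 : (0 : ℝ) ≤ (n : ℝ) ^ 4 := by positivity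
        nlinarith [mul_nonneg (sq_nonneg ε) h9]
      have h10 : B / ((1 - ε) * (n : ℝ) ^ 2) * ((1 - ε) ^ 2 * (n : ℝ) ^ 4) =
          (1 - ε) * (n : ℝ) ^ 2 * B := by
        field_simp
      have h11 : (1 - ε) * (n : ℝ) ^ 2 * B ≤ y n i * B :=
        mul_le_mul_of_nonneg_right (hreg i (by omega) hib) hB0
      linarith
    have hUB : ‖U i‖ ≤ B := le_of_mul_le_mul_left hfin hy
    rw [hB, le_div_iff₀ (by positivity)] at hUB
    exact hUB

end Q166.Walk
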