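import Mathlib
import Pool.Agent.Q166.WalkAna

/-!
Signed and absolute weighted walk sums: assembling the estimate.
-/

set_option autoImplicit false

namespace Q166.Walk

open Finset

variable {m n : ℕ} {z : ℕ → ℂ} {U : ℕ → ℂ} {V : ℕ → ℝ}

theorem core (hm : 3 ≤ m) (hz : ∀ k < m, z k ≠ 0) {s τ ε δ D d : ℝ} {l : ℕ}
    (hδ : δ = ‖z (m - 1) * z (m - 3)‖ + ‖z (m - 2) * z (m - 2)‖ -
      ‖z (m - 1) * z (m - 3) + z (m - 2) * z (m - 2)‖)
    (hn : 2 ≤ n) (hs : 1 ≤ s) (hτ : 1 ≤ τ)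
    (hP : ∑ k ∈ range m, ‖z k‖ * s ^ (k + 1) = (n : ℝ) ^ 2)
    (hε0 : 0 ≤ ε) (hε : ε ≤ 1 / 2) (hτη : τ ^ (2 * m) ≤ 1 + ε)
    (hγ : (ε + 2 * ε) * (n : ℝ) ^ 4 ≤ δ * (1 - ε) * s ^ (2 * m - 2))
    (hl : 3 * m + l ≤ n / 2) (hlm : m ≤ l)
    (hreg : ∀ i, n / 2 - l - 2 * m ≤ i → i < n / 2 → (1 - ε) * (n : ℝ) ^ 2 ≤ y n i)
    (hD : (‖z 0‖ + 2 * ∑ k ∈ range (m - 1), ‖z (k + 1)‖ / ‖z k‖) * s ≤ D) (hD1 : 1 ≤ D)
    (hd : 0 < d) (hd1 : d ≤ 1) (hd2 : d * (n : ℝ) ^ 2 ≤ ‖z 0‖)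
    (h : Sys m n z U V) :
    ‖∑ k ∈ range m, z k * U (n - 1 - k)‖ ≤
      ((D / d) ^ (2 * m) / τ ^ (l - m)) * ∑ k ∈ range m, ‖z k‖ * V (n - 1 - k) := by
  have hs0 : 0 < s := by linarith
  have hτ0 : 0 < τ := by linarith
  have hnR : (2 : ℝ) ≤ n := by exact_mod_cast hn
  set b := n / 2 with hb
  obtain ⟨a0, ha0⟩ : ∃ a0, b = a0 + 2 * m + l := ⟨b - 2 * m - l, by omega⟩
  have ha0m : m ≤ a0 := by omega
  have hbn : b < n := by omega
  -- window estimates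
  have hup : ∀ j, j ≤ 2 * m → V (a0 + j) * s ^ (a0 + j) ≤ V a0 * s ^ a0 * D ^ j := by
    intro j
    induction j with
    | zero => intro _; simp
    | succ j ih =>
      intro hj
      have h1 := ih (by omega)
      have hr := hreg (a0 + j + 1) (by omega) (by omega)
      have hr2 : (n : ℝ) ^ 2 ≤ 2 * y n (a0 + j + 1) := by
        nlinarith [sq_nonneg (n : ℝ)]
      have hr3 : 1 ≤ y n (a0 + j + 1) := by nlinarith
      have h2 := h.ratio_up (by omega) (i := a0 + j + 1) (by omega) (by omega) hz (by omega)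
        hr2 hr3
      rw [Nat.add_sub_cancel] at h2
      have hV := h.pos (a0 + j) (by omega)
      rw [← Nat.add_assoc, pow_succ s, pow_succ D]
      calc V (a0 + j + 1) * (s ^ (a0 + j) * s)
          ≤ ((‖z 0‖ + 2 * ∑ k ∈ range (m - 1), ‖z (k + 1)‖ / ‖z k‖) * V (a0 + j)) *
            (s ^ (a0 + j) * s) := mul_le_mul_of_nonneg_right h2 (by positivity)
        _ = ((‖z 0‖ + 2 * ∑ k ∈ range (m - 1), ‖z (k + 1)‖ / ‖z k‖) * s) *
            (V (a0 + j) * s ^ (a0 + j)) := by ring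
        _ ≤ D * (V (a0 + j) * s ^ (a0 + j)) := mul_le_mul_of_nonneg_right hD (by positivity)
        _ ≤ D * (V a0 * s ^ a0 * D ^ j) := mul_le_mul_of_nonneg_left h1 (by linarith)
        _ = V a0 * s ^ a0 * (D ^ j * D) := by ring
  have hlow : ∀ j, j ≤ 2 * m → V a0 * s ^ a0 * d ^ j ≤ V (a0 + j) * s ^ (a0 + j) := by
    intro j
    induction j with
    | zero => intro _; simp
    | succ j ih =>
      intro hj
      have h1 := ih (by omega)
      have h2 := h.ratio_low (by omega) (i := a0 + j + 1) (by omega) (by omega)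
      rw [Nat.add_sub_cancel] at h2
      have hV := h.pos (a0 + j) (by omega)
      have hV1 := h.pos (a0 + j + 1) (by omega)
      have hn2 : (0 : ℝ) < (n : ℝ) ^ 2 := by positivity
      have h3 : d * V (a0 + j) ≤ V (a0 + j + 1) := by
        have h4 : d * (n : ℝ) ^ 2 * V (a0 + j) ≤ (n : ℝ) ^ 2 * V (a0 + j + 1) :=
          le_trans (mul_le_mul_of_nonneg_right hd2 hV.le) h2
        have h5 : (n : ℝ) ^ 2 * (d * V (a0 + j)) ≤ (n : ℝ) ^ 2 * V (a0 + j + 1) := by linarith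
        exact le_of_mul_le_mul_left h5 hn2
      rw [← Nat.add_assoc, pow_succ s, pow_succ d]
      calc V a0 * s ^ a0 * (d ^ j * d) = (V a0 * s ^ a0 * d ^ j) * d := by ring
        _ ≤ (V (a0 + j) * s ^ (a0 + j)) * d := mul_le_mul_of_nonneg_right h1 hd.le
        _ = (d * V (a0 + j)) * s ^ (a0 + j) := by ring
        _ ≤ V (a0 + j + 1) * s ^ (a0 + j) := mul_le_mul_of_nonneg_right h3 (by positivity)
        _ ≤ V (a0 + j + 1) * (s ^ (a0 + j) * s) := by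
            apply mul_le_mul_of_nonneg_left _ hV1.le
            exact le_mul_of_one_le_right (by positivity) hs
  have hVa := h.pos a0 (by omega)
  set w := V a0 * s ^ a0 with hw
  have hw0 : 0 < w := by positivity
  have hq := h.lower hs0 hP (a := a0 + 2 * m) (q := w * d ^ (2 * m)) (by positivity)
    (by omega) (by omega) (by
      intro i hi1 hi2 hin
      obtain ⟨j, rfl⟩ : ∃ j, i = a0 + j := ⟨i - a0, by omega⟩
      refine le_trans ?_ (hlow j (by omega))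
      apply mul_le_mul_of_nonneg_left _ hw0.le
      exact pow_le_pow_of_le_one hd.le hd1 (by omega))
  have hQ := h.upper hm hs0 hτ hP hδ hε0 hε hτη hγ (a := a0 + 2 * m) (b := b)
    (Q := w * D ^ (2 * m) * τ ^ (a0 + 2 * m)) (by omega) (by omega)
    (fun i hi1 hi2 => hreg i (by omega) hi2) (by omega) (by positivity) (by
      intro i hi1 hi2 hib
      obtain ⟨j, rfl⟩ : ∃ j, i = a0 + j := ⟨i - a0, by omega⟩
      have h1 := hup j (by omega)
      have h2 : D ^ j ≤ D ^ (2 * m) := pow_le_pow_right₀ hD1 (by omega)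
      have h3 : τ ^ (a0 + j) ≤ τ ^ (a0 + 2 * m) := pow_le_pow_right₀ hτ (by omega)
      have h4 := h.le (a0 + j) (by omega)
      rw [mul_pow]
      calc ‖U (a0 + j)‖ * (s ^ (a0 + j) * τ ^ (a0 + j))
          ≤ V (a0 + j) * (s ^ (a0 + j) * τ ^ (a0 + j)) :=
            mul_le_mul_of_nonneg_right h4 (by positivity)
        _ = (V (a0 + j) * s ^ (a0 + j)) * τ ^ (a0 + j) := by ring
        _ ≤ (w * D ^ j) * τ ^ (a0 + j) := mul_le_mul_of_nonneg_right h1 (by positivity)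
        _ ≤ (w * D ^ (2 * m)) * τ ^ (a0 + j) := by
            apply mul_le_mul_of_nonneg_right _ (by positivity)
            exact mul_le_mul_of_nonneg_left h2 hw0.le
        _ ≤ (w * D ^ (2 * m)) * τ ^ (a0 + 2 * m) :=
            mul_le_mul_of_nonneg_left h3 (by positivity))
  apply h.final (by omega) (b := b) (by omega) hbn.le
  intro i hi1 hi2 hin
  have h1 := hQ i (by omega) hi2
  have h2 := hq i (by omega) hin
  have h3 : τ ^ (b - m) ≤ τ ^ i := pow_le_pow_right₀ hτ hi1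
  have h4 : τ ^ (b - m) = τ ^ (a0 + 2 * m) * τ ^ (l - m) := by
    rw [← pow_add]; congr 1; omega
  rw [mul_pow] at h1
  -- ‖U i‖ * s^i ≤ Q / τ^i ≤ Q / τ^(b-m)
  have h5 : ‖U i‖ * s ^ i * τ ^ (b - m) ≤ w * D ^ (2 * m) * τ ^ (a0 + 2 * m) := by
    refine le_trans ?_ h1
    rw [← mul_assoc]
    exact mul_le_mul_of_nonneg_left h3 (by positivity)
  have h6 : ‖U i‖ * s ^ i * τ ^ (l - m) ≤ w * D ^ (2 * m) := by
    rw [h4] at h5
    have h7 : (‖U i‖ * s ^ i * τ ^ (l - m)) * τ ^ (a0 + 2 * m) ≤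
        (w * D ^ (2 * m)) * τ ^ (a0 + 2 * m) := by linarith
    exact le_of_mul_le_mul_right h7 (by positivity)
  have h8 : ‖U i‖ * s ^ i ≤ ((D / d) ^ (2 * m) / τ ^ (l - m) * V i) * s ^ i := by
    have h9 : ‖U i‖ * s ^ i ≤ w * D ^ (2 * m) / τ ^ (l - m) := by
      rw [le_div_iff₀ (by positivity)]; exact h6
    refine le_trans h9 ?_
    have h10 : w * D ^ (2 * m) / τ ^ (l - m) =
        (D / d) ^ (2 * m) / τ ^ (l - m) * (w * d ^ (2 * m)) := by
      rw [div_pow]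
      field_simp
    rw [h10, mul_assoc ((D / d) ^ (2 * m) / τ ^ (l - m))]
    exact mul_le_mul_of_nonneg_left h2 (by positivity)
  exact le_of_mul_le_mul_right h8 (by positivity)

/-- Bernoulli-type upper bound -/
theorem one_add_pow_le (N : ℕ) {x : ℝ} (h0 : 0 ≤ x) (h1 : x ≤ 1) :
    (1 + x) ^ N ≤ 1 + (2 ^ N - 1) * x := by
  induction N with
  | zero => simp
  | succ N ih =>
    have h2 : (1 : ℝ) ≤ 2 ^ N := one_le_pow₀ (by norm_num)
    calc (1 + x) ^ (N + 1) = (1 + x) ^ N * (1 + x) := pow_succ _ _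
      _ ≤ (1 + (2 ^ N - 1) * x) * (1 + x) := mul_le_mul_of_nonneg_right ih (by linarith)
      _ ≤ 1 + (2 ^ (N + 1) - 1) * x := by
          rw [pow_succ]
          nlinarith [mul_nonneg (mul_nonneg (sub_nonneg.mpr h2) h0) (sub_nonneg.mpr h1)]

theorem main_estimate (hm : 7 ≤ m) (hz : ∀ k < m, z k ≠ 0)
    (hδ : ‖z (m - 1) * z (m - 3) + z (m - 2) * z (m - 2)‖ <
      ‖z (m - 1) * z (m - 3)‖ + ‖z (m - 2) * z (m - 2)‖) {ρ : ℝ} (hρ : 0 < ρ) :
    ∃ n : ℕ, m ≤ n ∧ ∀ (U : ℕ → ℂ) (V : ℕ → ℝ), Sys m n z U V →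
      ‖∑ k ∈ range m, z k * U (n - 1 - k)‖ ≤ ρ * ∑ k ∈ range m, ‖z k‖ * V (n - 1 - k) := by
  set δ : ℝ := ‖z (m - 1) * z (m - 3)‖ + ‖z (m - 2) * z (m - 2)‖ -
      ‖z (m - 1) * z (m - 3) + z (m - 2) * z (m - 2)‖ with hδdef
  have hδ0 : 0 < δ := by rw [hδdef]; linarith
  set R : ℝ := ∑ k ∈ range m, ‖z k‖ with hR
  have hrm : 0 < ‖z (m - 1)‖ := norm_pos_iff.mpr (hz _ (by omega))
  have hr0 : 0 < ‖z 0‖ := norm_pos_iff.mpr (hz _ (by omega))
  have hR0 : 0 < R := by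
    rw [hR]
    exact Finset.sum_pos (fun k hk => norm_pos_iff.mpr (hz k (Finset.mem_range.mp hk)))
      ⟨0, Finset.mem_range.mpr (by omega)⟩
  set κ : ℝ := max 1 (1 / ‖z (m - 1)‖) with hκ
  have hκ1 : 1 ≤ κ := le_max_left _ _
  have hκ2 : 1 / ‖z (m - 1)‖ ≤ κ := le_max_right _ _
  set δ2 : ℝ := min (δ / (6 * R ^ 2 * κ ^ 2)) (1 / 2) with hδ2
  have hδ20 : 0 < δ2 := by
    rw [hδ2]; apply lt_min <;> positivity
  have hδ2a : δ2 * (6 * R ^ 2 * κ ^ 2) ≤ δ := by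
    have : δ2 ≤ δ / (6 * R ^ 2 * κ ^ 2) := min_le_left _ _
    rwa [le_div_iff₀ (by positivity)] at this
  have hδ2b : δ2 ≤ 1 / 2 := min_le_right _ _
  set δ3 : ℝ := δ2 / 4 ^ m with hδ3
  have hδ30 : 0 < δ3 := by positivity
  obtain ⟨K, hK⟩ : ∃ K : ℕ, 16 / δ2 ≤ K := exists_nat_ge _
  have hKpos : 1 ≤ K := by
    by_contra h
    have : K = 0 := by omega
    rw [this] at hK
    have : 0 < 16 / δ2 := by positivity
    norm_num at hK
    linarith
  set Cp : ℝ := max 1 (‖z 0‖ + 2 * ∑ k ∈ range (m - 1), ‖z (k + 1)‖ / ‖z k‖) with hCp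
  have hCp1 : 1 ≤ Cp := le_max_left _ _
  set d0 : ℝ := min 1 ‖z 0‖ with hd0
  have hd00 : 0 < d0 := lt_min one_pos hr0
  -- the final ratio tends to 0
  have hlim : ∀ᶠ u : ℕ in Filter.atTop,
      ((Cp * κ / d0) ^ (2 * m) * (K : ℝ) ^ ((2 * m + 2) * (2 * m)) * (1 + δ3)) *
        ((u : ℝ) ^ ((2 * m + 2) * (2 * m)) * ((1 + δ3)⁻¹) ^ u) ≤ ρ := by
    have h1 : Filter.Tendsto (fun u : ℕ => (u : ℝ) ^ ((2 * m + 2) * (2 * m)) *
        ((1 + δ3)⁻¹) ^ u) Filter.atTop (nhds 0) := by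
      apply tendsto_pow_const_mul_const_pow_of_abs_lt_one
      rw [abs_of_pos (by positivity)]
      apply inv_lt_one_of_one_lt₀
      linarith
    have h2 := h1.const_mul ((Cp * κ / d0) ^ (2 * m) * (K : ℝ) ^ ((2 * m + 2) * (2 * m)) *
      (1 + δ3))
    rw [mul_zero] at h2
    exact h2.eventually_le_const hρ
  obtain ⟨u, hu1, hu2⟩ := (hlim.and (Filter.eventually_ge_atTop (max (4 * m) ⌈R⌉₊))).exists
  have hu3 : 4 * m ≤ u := le_trans (le_max_left _ _) hu2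
  have hu4 : ⌈R⌉₊ ≤ u := le_trans (le_max_right _ _) hu2
  have hRu : R ≤ u := Nat.ceil_le.mp hu4
  set t : ℕ := K * u with ht
  have htu : u ≤ t := by rw [ht]; exact Nat.le_mul_of_pos_left _ (by omega)
  have ht1 : 1 ≤ t := by omega
  have htR : (1 : ℝ) ≤ t := by exact_mod_cast ht1
  set n : ℕ := t ^ m with hn
  set l : ℕ := K ^ (m - 3) * u ^ (m - 2) with hl
  have hlt : K * l = t ^ (m - 2) := by
    rw [hl, ht, mul_pow, ← mul_assoc, ← pow_succ']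
    congr 2
    omega
  have hnl : n = t ^ 2 * (K * l) := by
    rw [hlt, hn, ← pow_add]; congr 1; omega
  have hl1 : t ^ 4 * u ≤ l := by
    rw [hl, ht, mul_pow, mul_assoc, ← pow_succ]
    apply Nat.mul_le_mul
    · exact Nat.pow_le_pow_right hKpos (by omega)
    · exact Nat.pow_le_pow_right (by omega) (by omega)
  have hlu : u ≤ l := le_trans (Nat.le_mul_of_pos_left _ (by positivity)) hl1
  have hn4 : 4 * l ≤ n := by
    rw [hnl]
    have h1 : 4 ≤ t ^ 2 := by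
      have : 2 ≤ t := by omega
      calc 4 = 2 ^ 2 := by norm_num
        _ ≤ t ^ 2 := Nat.pow_le_pow_left this 2
    calc 4 * l ≤ t ^ 2 * l := Nat.mul_le_mul_right _ h1
      _ ≤ t ^ 2 * (K * l) := Nat.mul_le_mul_left _ (Nat.le_mul_of_pos_left _ (by omega))
  have hnt : t ≤ n := by
    rw [hn]; exact Nat.le_self_pow (by omega) t
  have hnR : (n : ℝ) = (t : ℝ) ^ m := by rw [hn]; push_cast; rfl
  -- the root s
  have hcont : ContinuousOn (fun s : ℝ => ∑ k ∈ range m, ‖z k‖ * s ^ (k + 1))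
      (Set.Icc 1 (κ * (t : ℝ) ^ 2)) := by
    apply Continuous.continuousOn
    fun_prop
  have hκt : 1 ≤ κ * (t : ℝ) ^ 2 := by
    have : (1 : ℝ) ≤ (t : ℝ) ^ 2 := one_le_pow₀ htR
    nlinarith
  have hivt := intermediate_value_Icc hκt hcont
  have hmem : ((n : ℝ) ^ 2) ∈ Set.Icc (∑ k ∈ range m, ‖z k‖ * (1 : ℝ) ^ (k + 1))
      (∑ k ∈ range m, ‖z k‖ * (κ * (t : ℝ) ^ 2) ^ (k + 1)) := by
    constructor
    · simp only [one_pow, mul_one]
      rw [← hR]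
      calc R ≤ (u : ℝ) := hRu
        _ ≤ (t : ℝ) := by exact_mod_cast htu
        _ ≤ (n : ℝ) := by exact_mod_cast hnt
        _ ≤ (n : ℝ) ^ 2 := by
            have : (1 : ℝ) ≤ n := by exact_mod_cast (le_trans ht1 hnt)
            nlinarith
    · have h1 := Finset.single_le_sum (f := fun k => ‖z k‖ * (κ * (t : ℝ) ^ 2) ^ (k + 1))
        (s := range m) (fun k _ => by positivity) (Finset.mem_range.mpr (show m - 1 < m by omega))
      refine le_trans ?_ h1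
      have e : m - 1 + 1 = m := by omega
      simp only [e]
      have h2 : κ ≤ κ ^ m := le_self_pow₀ hκ1 (by omega)
      have h3 : 1 ≤ ‖z (m - 1)‖ * κ ^ m := by
        have : 1 ≤ ‖z (m - 1)‖ * κ := by
          rw [div_le_iff₀ hrm] at hκ2; linarith
        nlinarith
      calc (n : ℝ) ^ 2 = ((t : ℝ) ^ 2) ^ m := by rw [hnR, ← pow_mul, ← pow_mul, mul_comm]
        _ ≤ (‖z (m - 1)‖ * κ ^ m) * ((t : ℝ) ^ 2) ^ m :=
            le_mul_of_one_le_left (by positivity) h3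
        _ = ‖z (m - 1)‖ * (κ * (t : ℝ) ^ 2) ^ m := by rw [mul_pow]; ring
  obtain ⟨s, ⟨hs1, hs2⟩, hP⟩ := hivt hmem
  simp only at hP
  have hs0 : 0 < s := by linarith
  set ε : ℝ := δ2 / (t : ℝ) ^ 4 with hεdef
  have ht4 : (0 : ℝ) < (t : ℝ) ^ 4 := by positivity
  have hε0 : 0 ≤ ε := by positivity
  have hε1 : ε ≤ 1 / 2 := by
    rw [hεdef, div_le_iff₀ ht4]
    have : (1 : ℝ) ≤ (t : ℝ) ^ 4 := one_le_pow₀ htR
    nlinarith
  set τ : ℝ := 1 + δ3 / (t : ℝ) ^ 4 with hτdef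
  have hτ1 : 1 ≤ τ := by
    have : 0 ≤ δ3 / (t : ℝ) ^ 4 := by positivity
    linarith
  have hτη : τ ^ (2 * m) ≤ 1 + ε := by
    have h40 : (1 : ℝ) ≤ 4 ^ m := one_le_pow₀ (by norm_num)
    have hx1 : δ3 / (t : ℝ) ^ 4 ≤ 1 := by
      rw [div_le_iff₀ ht4, hδ3, div_le_iff₀ (by positivity)]
      have : (1 : ℝ) ≤ (t : ℝ) ^ 4 := one_le_pow₀ htR
      nlinarith
    refine le_trans (one_add_pow_le (2 * m) (by positivity) hx1) ?_
    have h1 : ((2 : ℝ) ^ (2 * m) - 1) * (δ3 / (t : ℝ) ^ 4) ≤ 4 ^ m * (δ3 / (t : ℝ) ^ 4) := by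
      apply mul_le_mul_of_nonneg_right _ (by positivity)
      rw [pow_mul]; norm_num
    have h2 : (4 : ℝ) ^ m * (δ3 / (t : ℝ) ^ 4) = ε := by
      rw [hδ3, hεdef]; field_simp
    linarith
  have hγ : (ε + 2 * ε) * (n : ℝ) ^ 4 ≤ δ * (1 - ε) * s ^ (2 * m - 2) := by
    have h1 : (n : ℝ) ^ 2 ≤ R * s ^ m := by
      rw [← hP, hR, Finset.sum_mul]
      apply Finset.sum_le_sum
      intro k hk
      rw [Finset.mem_range] at hk
      exact mul_le_mul_of_nonneg_left (pow_le_pow_right₀ hs1 (by omega)) (norm_nonneg _)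
    have h2 : (n : ℝ) ^ 4 ≤ R ^ 2 * (s ^ (2 * m - 2) * s ^ 2) := by
      have h3 : (n : ℝ) ^ 4 = (n : ℝ) ^ 2 * (n : ℝ) ^ 2 := by ring
      have h4 : s ^ (2 * m - 2) * s ^ 2 = s ^ m * s ^ m := by
        rw [← pow_add, ← pow_add]; congr 1; omega
      rw [h3, h4]
      have h5 : (0 : ℝ) ≤ (n : ℝ) ^ 2 := by positivity
      calc (n : ℝ) ^ 2 * (n : ℝ) ^ 2 ≤ (R * s ^ m) * (R * s ^ m) :=
            mul_le_mul h1 h1 h5 (by positivity)
        _ = _ := by ring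
    have h6 : s ^ 2 ≤ κ ^ 2 * (t : ℝ) ^ 4 := by
      calc s ^ 2 ≤ (κ * (t : ℝ) ^ 2) ^ 2 := pow_le_pow_left₀ hs0.le hs2 2
        _ = _ := by ring
    have h7 : (ε + 2 * ε) * (n : ℝ) ^ 4 ≤
        3 * ε * (R ^ 2 * (s ^ (2 * m - 2) * (κ ^ 2 * (t : ℝ) ^ 4))) := by
      calc (ε + 2 * ε) * (n : ℝ) ^ 4 = 3 * ε * (n : ℝ) ^ 4 := by ring
        _ ≤ 3 * ε * (R ^ 2 * (s ^ (2 * m - 2) * s ^ 2)) :=
            mul_le_mul_of_nonneg_left h2 (by positivity)
        _ ≤ _ := by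
            apply mul_le_mul_of_nonneg_left _ (by positivity)
            apply mul_le_mul_of_nonneg_left _ (by positivity)
            exact mul_le_mul_of_nonneg_left h6 (by positivity)
    have h8 : 3 * ε * (R ^ 2 * (s ^ (2 * m - 2) * (κ ^ 2 * (t : ℝ) ^ 4))) =
        (δ2 * (6 * R ^ 2 * κ ^ 2)) / 2 * s ^ (2 * m - 2) := by
      rw [hεdef]; field_simp; ring
    rw [h8] at h7
    refine le_trans h7 ?_
    apply mul_le_mul_of_nonneg_right _ (by positivity)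
    nlinarith
  have hreg : ∀ i, n / 2 - l - 2 * m ≤ i → i < n / 2 → (1 - ε) * (n : ℝ) ^ 2 ≤ y n i := by
    intro i hi1 hi2
    have h1 : n ≤ 2 * i + 4 * l := by omega
    have h2 : 2 * i ≤ n := by omega
    have h3 : (n : ℝ) ≤ 2 * i + 4 * l := by exact_mod_cast h1
    have h4 : 2 * (i : ℝ) ≤ n := by exact_mod_cast h2
    have h5 : ((n : ℝ) - 2 * i) ^ 2 ≤ 16 * (l : ℝ) ^ 2 := by
      nlinarith
    have h6 : y n i = (n : ℝ) ^ 2 - ((n : ℝ) - 2 * i) ^ 2 := by unfold y; ring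
    have h7 : 16 * (l : ℝ) ^ 2 ≤ ε * (n : ℝ) ^ 2 := by
      have h8 : (n : ℝ) = (t : ℝ) ^ 2 * (K * l) := by rw [hnl]; push_cast; ring
      rw [h8, hεdef]
      have h9 : δ2 / (t : ℝ) ^ 4 * ((t : ℝ) ^ 2 * (K * l)) ^ 2 = δ2 * (K : ℝ) ^ 2 * (l : ℝ) ^ 2 := by
        field_simp
      rw [h9]
      apply mul_le_mul_of_nonneg_right _ (by positivity)
      have hK1 : (1 : ℝ) ≤ K := by exact_mod_cast hKpos
      rw [div_le_iff₀ hδ20] at hK
      nlinarith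
    rw [h6]
    linarith
  refine ⟨n, by omega, ?_⟩
  intro U V hsys
  have hnpos : (0 : ℝ) < n := by
    have : 1 ≤ n := le_trans ht1 hnt
    exact_mod_cast this
  have hn2' : (1 : ℝ) ≤ (n : ℝ) ^ 2 := by
    have : (1 : ℝ) ≤ n := by exact_mod_cast (le_trans ht1 hnt)
    nlinarith
  have hfin := core (by omega) hz hδdef (n := n) (l := l) (s := s) (τ := τ) (ε := ε)
    (D := Cp * (κ * (t : ℝ) ^ 2)) (d := d0 / (n : ℝ) ^ 2) (by omega) hs1 hτ1 hP hε0 hε1 hτη hγ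
    (by omega) (by omega) hreg
    (by
      have h1 : ‖z 0‖ + 2 * ∑ k ∈ range (m - 1), ‖z (k + 1)‖ / ‖z k‖ ≤ Cp := le_max_right _ _
      exact mul_le_mul h1 hs2 hs0.le (by positivity))
    (by nlinarith)
    (by positivity)
    (by
      rw [div_le_iff₀ (by positivity)]
      have : d0 ≤ 1 := min_le_left _ _
      linarith)
    (by
      rw [div_mul_cancel₀ _ (by positivity)]
      exact min_le_right _ _)
    hsys
  refine le_trans hfin ?_
  have hsumpos : 0 ≤ ∑ k ∈ range m, ‖z k‖ * V (n - 1 - k) := by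
    apply Finset.sum_nonneg
    intro k hk
    rw [Finset.mem_range] at hk
    exact mul_nonneg (norm_nonneg _) (hsys.pos _ (by omega)).le
  apply mul_le_mul_of_nonneg_right _ hsumpos
  refine le_trans ?_ hu1
  -- compare
  have hτl : (1 + δ3) ^ (u - 1) ≤ τ ^ (l - m) := by
    have h1 : 1 + δ3 ≤ τ ^ (t ^ 4) := by
      have h2 := one_add_mul_le_pow (a := δ3 / (t : ℝ) ^ 4)
        (by have : 0 ≤ δ3 / (t : ℝ) ^ 4 := by positivity
            linarith) (t ^ 4)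
      refine le_trans ?_ h2
      push_cast
      rw [mul_div_cancel₀ _ (by positivity)]
    calc (1 + δ3) ^ (u - 1) ≤ (τ ^ (t ^ 4)) ^ (u - 1) := pow_le_pow_left₀ (by positivity) h1 _
      _ = τ ^ (t ^ 4 * (u - 1)) := by rw [← pow_mul]
      _ ≤ τ ^ (l - m) := by
          apply pow_le_pow_right₀ hτ1
          have h3 : m ≤ t ^ 4 := by
            calc m ≤ t := by omega
              _ ≤ t ^ 4 := Nat.le_self_pow (by norm_num) t
          obtain ⟨u', hu'⟩ : ∃ u', u = u' + 1 := ⟨u - 1, by omega⟩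
          rw [hu'] at hl1 ⊢
          rw [Nat.add_sub_cancel]
          rw [Nat.mul_add, Nat.mul_one] at hl1
          omega
  have hτpos : 0 < (1 + δ3) ^ (u - 1) := by positivity
  have h1 : (Cp * (κ * (t : ℝ) ^ 2) / (d0 / (n : ℝ) ^ 2)) ^ (2 * m) / τ ^ (l - m) ≤
      (Cp * (κ * (t : ℝ) ^ 2) / (d0 / (n : ℝ) ^ 2)) ^ (2 * m) / (1 + δ3) ^ (u - 1) := by
    apply div_le_div_of_nonneg_left (by positivity) hτpos hτl
  refine le_trans h1 (le_of_eq ?_)
  have h2 : Cp * (κ * (t : ℝ) ^ 2) / (d0 / (n : ℝ) ^ 2) =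
      Cp * κ / d0 * ((K : ℝ) ^ (2 * m + 2) * (u : ℝ) ^ (2 * m + 2)) := by
    rw [hnR, ht]
    push_cast
    rw [← mul_pow, pow_add ((K : ℝ) * u) (2 * m) 2, ← pow_mul, mul_comm m 2]
    field_simp
  have h3 : (1 + δ3) ^ (u - 1) * (1 + δ3) = (1 + δ3) ^ u := by
    rw [← pow_succ]; congr 1; omega
  rw [h2, mul_pow, mul_pow, ← pow_mul, ← pow_mul, div_eq_iff hτpos.ne', inv_pow, ← h3]
  field_simp

end Q166.Walk
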