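import Mathlib
import Pool.Agent.Q166.WalkCore

/-!
Walks from `-n` to `n` with steps `2, 4, ..., 2m`: the recursion for the signed and absolute sums.
-/

set_option autoImplicit false

namespace Q166.Walk

open Finset

/-- total displacement of a sequence of steps; the step `k : Fin m` has length `2 (k + 1)` -/
def disp {m : ℕ} (x : List (Fin m)) : ℕ := (x.map fun k => 2 * (k.val + 1)).sum

/-- the vertex `j(t) = -n + x(1) + ... + x(t)` -/
def vertex {m : ℕ} (n : ℕ) (x : List (Fin m)) (t : ℕ) : ℤ := -(n : ℤ) + disp (x.take t)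

/-- the weight `h(x)` of a walk with `ν + 1` steps: the product of `[n² - j(t)²]⁻¹` over
`1 ≤ t ≤ ν` times the product of `V(x(t))` over `1 ≤ t ≤ ν + 1` -/
noncomputable def h {m : ℕ} (n : ℕ) (z : Fin m → ℂ) (x : List (Fin m)) : ℂ :=
  (∏ t ∈ Finset.Ico 1 x.length, ((n : ℂ) ^ 2 - (vertex n x t : ℂ) ^ 2)⁻¹) * (x.map z).prod

variable {m : ℕ}

theorem disp_nil : disp ([] : List (Fin m)) = 0 := rfl

theorem disp_cons (k : Fin m) (x : List (Fin m)) : disp (k :: x) = 2 * (k.val + 1) + disp x := by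
  simp [disp]

theorem disp_append (x x' : List (Fin m)) : disp (x ++ x') = disp x + disp x' := by
  simp [disp]

theorem two_length_le (x : List (Fin m)) : 2 * x.length ≤ disp x := by
  induction x with
  | nil => simp [disp_nil]
  | cons k x ih => rw [disp_cons, List.length_cons]; omega

theorem disp_eq_zero {x : List (Fin m)} (hx : disp x = 0) : x = [] := by
  have := two_length_le x
  exact List.eq_nil_of_length_eq_zero (by omega)

/-- vertex factor at distance `i` (in units of 2) from the end -/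
noncomputable def w (n i : ℕ) : ℝ := if i = 0 then 1 else ((n : ℝ) ^ 2 - ((n : ℝ) - 2 * i) ^ 2)⁻¹

theorem w_eq {n i : ℕ} (hi : i ≠ 0) : w n i = (y n i)⁻¹ := by
  unfold w y
  rw [if_neg hi]
  congr 1
  ring

theorem w_pos {n i : ℕ} (hi : i < n) : 0 < w n i := by
  by_cases h0 : i = 0
  · rw [h0]; simp [w]
  · rw [w_eq h0]
    exact inv_pos.mpr (y_pos (by omega) hi)

/-- recursive form of the weight -/
noncomputable def hr (n : ℕ) (z : Fin m → ℂ) : List (Fin m) → ℂ
  | [] => 1
  | k :: x => z k * (w n (disp x / 2) : ℂ) * hr n z x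

theorem disp_even (x : List (Fin m)) : ∃ i, disp x = 2 * i := by
  induction x with
  | nil => exact ⟨0, rfl⟩
  | cons k x ih =>
    obtain ⟨i, hi⟩ := ih
    exact ⟨k.val + 1 + i, by rw [disp_cons, hi]; ring⟩

theorem hr_eq (n : ℕ) (z : Fin m → ℂ) (x : List (Fin m)) :
    (∏ t ∈ Finset.Ico 1 x.length, ((n : ℂ) ^ 2 - ((n : ℂ) - disp (x.drop t)) ^ 2)⁻¹) *
      (x.map z).prod = hr n z x := by
  induction x with
  | nil => simp [hr]
  | cons k x ih =>
    rw [hr, ← ih, List.map_cons, List.prod_cons, List.length_cons]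
    cases x with
    | nil => simp [disp_nil, w]
    | cons k' x' =>
      set x := k' :: x' with hx
      have hlen : 0 < x.length := by simp [hx]
      have h1 : ∏ t ∈ Finset.Ico 1 (x.length + 1),
          ((n : ℂ) ^ 2 - ((n : ℂ) - disp ((k :: x).drop t)) ^ 2)⁻¹ =
          ∏ t ∈ Finset.Ico 0 x.length, ((n : ℂ) ^ 2 - ((n : ℂ) - disp (x.drop t)) ^ 2)⁻¹ := by
        rw [Finset.prod_Ico_add' (fun t => ((n : ℂ) ^ 2 - ((n : ℂ) -
          disp ((k :: x).drop t)) ^ 2)⁻¹) 0 x.length 1 |>.symm]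
        apply Finset.prod_congr rfl
        intro t _
        rw [List.drop_succ_cons]
      have h2 : (w n (disp x / 2) : ℂ) = ((n : ℂ) ^ 2 - ((n : ℂ) - disp (x.drop 0)) ^ 2)⁻¹ := by
        obtain ⟨i, hi⟩ := disp_even x
        have hi0 : i ≠ 0 := by
          intro h0
          have := two_length_le x
          omega
        rw [List.drop_zero, hi, Nat.mul_div_cancel_left _ (by norm_num)]
        unfold w
        rw [if_neg hi0]
        push_cast
        rfl
      rw [h1, Finset.prod_eq_prod_Ico_succ_bot hlen, h2]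
      ring

theorem h_eq_hr (n : ℕ) (z : Fin m → ℂ) {x : List (Fin m)} (hx : disp x = 2 * n) :
    h n z x = hr n z x := by
  rw [← hr_eq]
  unfold h
  congr 1
  apply Finset.prod_congr rfl
  intro t _
  have h1 : disp (x.take t) + disp (x.drop t) = 2 * n := by
    rw [← disp_append, List.take_append_drop, hx]
  have h2 : (vertex n x t : ℂ) = (n : ℂ) - disp (x.drop t) := by
    unfold vertex
    have h3 : (disp (x.take t) : ℂ) + disp (x.drop t) = 2 * n := by exact_mod_cast h1
    push_cast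
    linear_combination h3
  rw [h2]

theorem finite_disp (m i : ℕ) : {x : List (Fin m) | disp x = 2 * i}.Finite := by
  apply (List.finite_length_le (Fin m) i).subset
  intro x hx
  have := two_length_le x
  rw [Set.mem_ofPred_eq] at hx ⊢
  omega

/-- step sequences of total displacement `2 i` -/
noncomputable def wl (m i : ℕ) : Finset (List (Fin m)) := (finite_disp m i).toFinset

theorem mem_wl {i : ℕ} {x : List (Fin m)} : x ∈ wl m i ↔ disp x = 2 * i := by
  unfold wl
  rw [Set.Finite.mem_toFinset, Set.mem_ofPred_eq]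

theorem wl_zero : wl m 0 = {[]} := by
  ext x
  rw [mem_wl, Finset.mem_singleton]
  constructor
  · intro h; exact disp_eq_zero (by omega)
  · rintro rfl; rfl

theorem sum_wl {M : Type*} [AddCommMonoid M] (i : ℕ) (hi : 0 < i) (F : List (Fin m) → M) :
    ∑ x ∈ wl m i, F x = ∑ k ∈ (Finset.univ : Finset (Fin m)).filter (fun k => k.val + 1 ≤ i),
      ∑ x ∈ wl m (i - 1 - k.val), F (k :: x) := by
  rw [Finset.sum_sigma']
  symm
  refine Finset.sum_bij (fun p _ => p.1 :: p.2) ?_ ?_ ?_ ?_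
  · rintro ⟨k, x⟩ hp
    rw [Finset.mem_sigma, Finset.mem_filter, mem_wl] at hp
    rw [mem_wl, disp_cons]
    simp only at hp ⊢
    omega
  · rintro ⟨k, x⟩ _ ⟨k', x'⟩ _ hh
    simp only [List.cons.injEq] at hh
    obtain ⟨rfl, rfl⟩ := hh
    rfl
  · intro x hx
    rw [mem_wl] at hx
    cases x with
    | nil => rw [disp_nil] at hx; omega
    | cons k x =>
      rw [disp_cons] at hx
      refine ⟨⟨k, x⟩, ?_, rfl⟩
      rw [Finset.mem_sigma, Finset.mem_filter, mem_wl]
      refine ⟨⟨Finset.mem_univ _, ?_⟩, ?_⟩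
      · show k.val + 1 ≤ i
        omega
      · show disp x = 2 * (i - 1 - k.val)
        omega
  · rintro ⟨k, x⟩ _
    rfl

/-- signed and absolute partial sums -/
noncomputable def T (n : ℕ) (z : Fin m → ℂ) (i : ℕ) : ℂ := ∑ x ∈ wl m i, hr n z x

noncomputable def TR (n : ℕ) (z : Fin m → ℂ) (i : ℕ) : ℝ := ∑ x ∈ wl m i, ‖hr n z x‖

theorem T_rec (n : ℕ) (z : Fin m → ℂ) {i : ℕ} (hi : 0 < i) :
    T n z i = ∑ k ∈ (Finset.univ : Finset (Fin m)).filter (fun k => k.val + 1 ≤ i),
      z k * ((w n (i - 1 - k.val) : ℂ) * T n z (i - 1 - k.val)) := by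
  unfold T
  rw [sum_wl i hi]
  apply Finset.sum_congr rfl
  intro k _
  rw [Finset.mul_sum, Finset.mul_sum]
  apply Finset.sum_congr rfl
  intro x hx
  rw [mem_wl] at hx
  rw [hr, hx, Nat.mul_div_cancel_left _ (by norm_num)]
  ring

theorem TR_rec (n : ℕ) (z : Fin m → ℂ) {i : ℕ} (hi : 0 < i) (hin : i ≤ n) :
    TR n z i = ∑ k ∈ (Finset.univ : Finset (Fin m)).filter (fun k => k.val + 1 ≤ i),
      ‖z k‖ * (w n (i - 1 - k.val) * TR n z (i - 1 - k.val)) := by
  unfold TR
  rw [sum_wl i hi]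
  apply Finset.sum_congr rfl
  intro k _
  rw [Finset.mul_sum, Finset.mul_sum]
  apply Finset.sum_congr rfl
  intro x hx
  rw [mem_wl] at hx
  rw [hr, hx, Nat.mul_div_cancel_left _ (by norm_num), norm_mul, norm_mul, Complex.norm_real,
    Real.norm_of_nonneg (w_pos (by omega)).le]
  ring

theorem TR_zero (n : ℕ) (z : Fin m → ℂ) : TR n z 0 = 1 := by
  unfold TR
  rw [wl_zero, Finset.sum_singleton, hr, norm_one]

theorem TR_nonneg (n : ℕ) (z : Fin m → ℂ) (i : ℕ) : 0 ≤ TR n z i :=
  Finset.sum_nonneg (fun _ _ => norm_nonneg _)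

theorem TR_pos (n : ℕ) (z : Fin m → ℂ) (hm : 0 < m) (hz : z ⟨0, hm⟩ ≠ 0) :
    ∀ i, i ≤ n → 0 < TR n z i := by
  intro i
  induction i with
  | zero => intro _; rw [TR_zero]; exact one_pos
  | succ i ih =>
    intro hi
    rw [TR_rec n z (by omega) hi]
    have h1 := Finset.single_le_sum (s := (Finset.univ : Finset (Fin m)).filter
      (fun k => k.val + 1 ≤ i + 1))
      (f := fun k => ‖z k‖ * (w n (i + 1 - 1 - k.val) * TR n z (i + 1 - 1 - k.val)))
      (fun k _ => mul_nonneg (norm_nonneg _) (mul_nonneg (w_pos (by omega)).le (TR_nonneg _ _ _)))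
      (a := ⟨0, hm⟩) (by rw [Finset.mem_filter]; exact ⟨Finset.mem_univ _, by simp⟩)
    refine lt_of_lt_of_le ?_ h1
    simp only [Nat.add_sub_cancel, Nat.sub_zero]
    exact mul_pos (norm_pos_iff.mpr hz) (mul_pos (w_pos (by omega)) (ih (by omega)))

/-- extension of `z` to `ℕ` -/
noncomputable def zx (z : Fin m → ℂ) (k : ℕ) : ℂ := if h : k < m then z ⟨k, h⟩ else 0

theorem zx_val (z : Fin m → ℂ) (k : Fin m) : zx z k.val = z k := by
  unfold zx
  rw [dif_pos k.2]

theorem filter_all {i : ℕ} (hi : m ≤ i) :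
    (Finset.univ : Finset (Fin m)).filter (fun k => k.val + 1 ≤ i) = Finset.univ := by
  apply Finset.filter_true_of_mem
  intro k _
  have := k.2
  omega

theorem T_rec' (n : ℕ) (z : Fin m → ℂ) {i : ℕ} (hi : 0 < i) (hmi : m ≤ i) :
    T n z i = ∑ k ∈ range m, zx z k * ((w n (i - 1 - k) : ℂ) * T n z (i - 1 - k)) := by
  rw [T_rec n z hi, filter_all hmi, Finset.sum_range]
  apply Finset.sum_congr rfl
  intro k _
  rw [zx_val]

theorem TR_rec' (n : ℕ) (z : Fin m → ℂ) {i : ℕ} (hi : 0 < i) (hin : i ≤ n) (hmi : m ≤ i) :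
    TR n z i = ∑ k ∈ range m, ‖zx z k‖ * (w n (i - 1 - k) * TR n z (i - 1 - k)) := by
  rw [TR_rec n z hi hin, filter_all hmi, Finset.sum_range]
  apply Finset.sum_congr rfl
  intro k _
  rw [zx_val]

theorem sys (n : ℕ) (z : Fin m → ℂ) (hm : 0 < m) (hz : z ⟨0, hm⟩ ≠ 0) :
    Sys m n (zx z) (fun i => (w n i : ℂ) * T n z i) (fun i => w n i * TR n z i) := by
  constructor
  · intro i hi hin
    have hy := y_pos (show 0 < i by omega) hin
    rw [w_eq (by omega), ← T_rec' n z (by omega) hi, ← mul_assoc, ← Complex.ofReal_mul,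
      mul_inv_cancel₀ hy.ne', Complex.ofReal_one, one_mul]
  · intro i hi hin
    have hy := y_pos (show 0 < i by omega) hin
    rw [w_eq (by omega), ← TR_rec' n z (by omega) hin.le hi, ← mul_assoc,
      mul_inv_cancel₀ hy.ne', one_mul]
  · intro i hin
    exact mul_pos (w_pos hin) (TR_pos n z hm hz i hin.le)
  · intro i hin
    rw [norm_mul, Complex.norm_real, Real.norm_of_nonneg (w_pos hin).le]
    apply mul_le_mul_of_nonneg_left _ (w_pos hin).le
    exact norm_sum_le _ _

end Q166.Walk
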